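import Pool.Agent.TWD.PRT
import Pool.Agent.TWF.END3

/-!
# TWQ: Theorem C for every finite abelian extension `K / k` (helper51, after helper11's TWD.PRT)
-/

set_option autoImplicit false

open NumberField

namespace Pool.Agent.TWQ

open Pool.Agent.MU3 Pool.Agent.RI Pool.Agent.RID Pool.Agent.TWF Pool.Agent.TWD

/-- a composite of two Galois extensions of `p`-power degree -/
theorem sup_ppow (p : ℕ) [hp : Fact p.Prime] {k E F : IntermediateField ℚ ℂ}
    [FiniteDimensional ℚ E] [FiniteDimensional ℚ F] (hE : k ≤ E) (hF : k ≤ F)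
    (h : k ≤ E ⊔ F) (gE : IsGalois k (IntermediateField.extendScalars hE))
    (gF : IsGalois k (IntermediateField.extendScalars hF))
    (dE : ∃ c : ℕ, Module.finrank k (IntermediateField.extendScalars hE) = p ^ c)
    (dF : ∃ c : ℕ, Module.finrank k (IntermediateField.extendScalars hF) = p ^ c) :
    IsGalois k (IntermediateField.extendScalars h) ∧
      ∃ c : ℕ, Module.finrank k (IntermediateField.extendScalars h) = p ^ c := by
  refine ⟨BCH_thm.2 k E F hE hF h gE gF, ?_⟩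
  obtain ⟨c, hc⟩ := dE
  obtain ⟨d, hd⟩ := dF
  have fdC : FiniteDimensional ℚ ↥(E ⊔ F) := IntermediateField.finiteDimensional_sup E F
  have fdk : FiniteDimensional ℚ k := FiniteDimensional.of_injective
    (IntermediateField.inclusion hE).toLinearMap
    (IntermediateField.inclusion hE).toRingHom.injective
  have hEC : E ≤ E ⊔ F := le_sup_left
  obtain ⟨-, a2⟩ := BCH_thm.1 k F E E (E ⊔ F) hF hEC (sup_eq_right.2 hE).symm (sup_comm _ _) gF
  rw [hd] at a2
  have hpos : 0 < Module.finrank ℚ k := Module.finrank_pos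
  have e1 := deg_mul hE
  have e2 := deg_mul hEC
  have e3 := deg_mul h
  have e4 : Module.finrank k (IntermediateField.extendScalars h) =
      Module.finrank k (IntermediateField.extendScalars hE) *
        Module.finrank E (IntermediateField.extendScalars hEC) := by
    apply Nat.eq_of_mul_eq_mul_left hpos
    rw [e3, ← e2, ← e1, mul_assoc]
  have e5 : Module.finrank k (IntermediateField.extendScalars h) ∣ p ^ (c + d) := by
    rw [e4, pow_add, hc]
    exact Nat.mul_dvd_mul_left _ a2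
  obtain ⟨a, -, ha⟩ := (Nat.dvd_prime_pow hp.out).1 e5
  exact ⟨a, ha⟩

/-- Theorem C, part (2), any degree, with `E` -/
theorem any2 (R : IntermediateField ℚ ℂ → Prop)
    (hRs : ∀ K' K : IntermediateField ℚ ℂ, K' ≤ K → FiniteDimensional ℚ K → R K → R K')
    (k K : IntermediateField ℚ ℂ) [FiniteDimensional ℚ K] (h : k ≤ K)
    (hG : IsGalois k (IntermediateField.extendScalars h))
    (hab : ∀ σ τ : (IntermediateField.extendScalars h) ≃ₐ[k] (IntermediateField.extendScalars h),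
      σ * τ = τ * σ) (p : ℕ) (hp : p.Prime) (hC : StR R k p) (hR : R K)
    (E₀ : IntermediateField ℚ ℂ) [FiniteDimensional ℚ E₀] (hE₀ : k ≤ E₀)
    (hGE₀ : IsGalois k (IntermediateField.extendScalars hE₀))
    (hdE₀ : ∃ c : ℕ, Module.finrank k (IntermediateField.extendScalars hE₀) = p ^ c)
    (l : ℕ) (hl : l = 2 ∨ l = 3) (hpl : p ≠ l) (B : ℕ → IntermediateField ℚ ℂ)
    (hlay : ∀ n, IsLayer l n (B n)) (hmono : Monotone B) :
    ∃ n₀ : ℕ, ∀ N n : ℕ, n₀ ≤ N → N ≤ n → ∀ L : IntermediateField ℚ ℂ, k ≤ L → L ≤ K ⊔ B n →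
      ∀ (m : ℕ) (Q : IntermediateField ℚ ℂ), IsLayer p m Q →
        padicValNat p (classNo (L ⊔ E₀ ⊔ Q)) =
          padicValNat p (classNo ((L ⊓ (K ⊔ B N)) ⊔ E₀ ⊔ Q)) := by
  classical
  have hlp : l.Prime := by
    rcases hl with rfl | rfl
    · exact Nat.prime_two
    · exact Nat.prime_three
  have hlF : Fact l.Prime := ⟨hlp⟩
  have hpF : Fact p.Prime := ⟨hp⟩
  have hB : Twr l k K B := ⟨h, hG, hab, hlay, hmono⟩
  let aK : Algebra k K := algC h
  have t2 : IsScalarTower ℚ k K := IsScalarTower.of_algebraMap_eq (fun _ => rfl)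
  have hf : FiniteDimensional k K := Module.Finite.of_restrictScalars_finite ℚ k K
  have galK : IsGalois k K := (isGalois_algC h).2 hG
  have hab' : ∀ a b : K ≃ₐ[k] K, a * b = b * a := by
    intro a b
    have h1 := hab ((extEquiv h).symm.autCongr a) ((extEquiv h).symm.autCongr b)
    rw [← map_mul, ← map_mul] at h1
    exact (extEquiv h).symm.autCongr.injective h1
  obtain ⟨v, m, hm, hvm⟩ := Nat.exists_eq_pow_mul_and_not_dvd
    (Module.finrank_pos (R := k) (M := K)).ne' p hp.ne_one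
  obtain ⟨K', E, h1, h3, h2, h4, hKE, hdK', ⟨c, hc⟩, hK'g, hEg⟩ := pparts h p galK hab' v m hvm hm
  have hsp := split_lay l hB K' E h1 h3 h2 h4 (p ^ v) m
    (Nat.Coprime.pow_left v ((Nat.Prime.coprime_iff_not_dvd hp).2 hm))
    (Nat.Coprime.pow_left v ((Nat.coprime_primes hp hlp).2 hpl)) hK'g hEg
  have fdE : FiniteDimensional ℚ E := FiniteDimensional.of_injective
    (IntermediateField.inclusion h4).toLinearMap
    (IntermediateField.inclusion h4).toRingHom.injective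
  have fdK' : FiniteDimensional ℚ K' := FiniteDimensional.of_injective
    (IntermediateField.inclusion h2).toLinearMap
    (IntermediateField.inclusion h2).toRingHom.injective
  -- subfields are Galois with abelian groups
  have hsub : ∀ (F : IntermediateField ℚ ℂ) (hkF : k ≤ F), F ≤ K →
      IsGalois k (IntermediateField.extendScalars hkF) ∧
      ∀ σ τ : (IntermediateField.extendScalars hkF) ≃ₐ[k] (IntermediateField.extendScalars hkF),
        σ * τ = τ * σ := by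
    intro F hkF hFK
    have f : (IntermediateField.extendScalars hkF) →ₐ[k] (IntermediateField.extendScalars h) :=
      IntermediateField.inclusion
        ((IntermediateField.extendScalars_le_extendScalars_iff hkF h).2 hFK)
    exact ab_aux f hG hab
  have hK'G := hsub K' h1 h2
  have key : ∀ E' : IntermediateField ℚ ℂ, ∃ n₀ : ℕ, k ≤ E' → E' ≤ E →
      ∀ n : ℕ, n₀ ≤ n → ∀ L : IntermediateField ℚ ℂ, k ≤ L → L ≤ K' ⊔ B n →
      ∀ (m : ℕ) (Q : IntermediateField ℚ ℂ), IsLayer p m Q →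
        padicValNat p (classNo (L ⊔ (E' ⊔ E₀) ⊔ Q)) =
          padicValNat p (classNo ((L ⊓ (K' ⊔ B n₀)) ⊔ (E' ⊔ E₀) ⊔ Q)) := by
    intro E'
    by_cases hE' : k ≤ E' ∧ E' ≤ E
    · obtain ⟨g1, g2⟩ := hE'
      have fdE' : FiniteDimensional ℚ E' := FiniteDimensional.of_injective
        (IntermediateField.inclusion g2).toLinearMap
        (IntermediateField.inclusion g2).toRingHom.injective
      have gal := (hsub E' g1 (g2.trans h4)).1
      have hcE : ∃ c' : ℕ, Module.finrank k (IntermediateField.extendScalars g1) = p ^ c' := by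
        let a1 : Algebra k E' := algC g1
        let a2 : Algebra E' E := algC g2
        let a3 : Algebra k E := algC h3
        have t1 : IsScalarTower k E' E := towerC g1 g2
        have e1 := Module.finrank_mul_finrank k E' E
        have e2 := finrank_algC g1
        have e3 := finrank_algC h3
        have e4 : Module.finrank k E' ∣ p ^ c := by
          rw [← hc, ← e3]
          exact Dvd.intro _ e1
        obtain ⟨c', -, hc'⟩ := (Nat.dvd_prime_pow hp).1 e4
        exact ⟨c', by rw [← e2]; exact hc'⟩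
      have g3 : k ≤ E' ⊔ E₀ := g1.trans le_sup_left
      obtain ⟨s1, s2⟩ := sup_ppow p g1 hE₀ g3 gal hGE₀ hcE hdE₀
      have fdS : FiniteDimensional ℚ ↥(E' ⊔ E₀) := IntermediateField.finiteDimensional_sup E' E₀
      obtain ⟨n₀, h0⟩ := hC K' h1 hK'G.1 hK'G.2 hdK' (hRs K' K h2 inferInstance hR) (E' ⊔ E₀) g3 s1 s2
        l hl
      exact ⟨n₀, fun _ _ n hn L hkL hL m Q hQ =>
        h0 (B n₀) (hlay n₀) n hn (B n) (hlay n) L hkL hL m Q hQ⟩
    · exact ⟨0, fun g1 g2 => absurd ⟨g1, g2⟩ hE'⟩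
  choose f hf2 using key
  refine ⟨(sub_finite E).toFinset.sup f, fun N n hN0 hn L hkL hL m Q hQ => ?_⟩
  let E' : IntermediateField ℚ ℂ := L ⊓ E
  have g1 : k ≤ E' := le_inf hkL h3
  have g2 : E' ≤ E := inf_le_right
  have hfN : f E' ≤ N := (Finset.le_sup ((sub_finite E).mem_toFinset.2 g2)).trans hN0
  have k0 := hf2 E' g1 g2
  -- the field `L`
  have sL := hsp n L hkL hL
  have eL := k0 n (hfN.trans hn) (L ⊓ (K' ⊔ B n)) (le_inf hkL (h1.trans le_sup_left)) inf_le_right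
    m Q hQ
  -- the field `L ⊓ (K ⊔ B N)`
  let F : IntermediateField ℚ ℂ := L ⊓ (K ⊔ B N)
  have sF := hsp N F (le_inf hkL (h.trans le_sup_left)) inf_le_right
  have eF := k0 N hfN (F ⊓ (K' ⊔ B N)) (le_inf (le_inf hkL (h.trans le_sup_left))
    (h1.trans le_sup_left)) inf_le_right m Q hQ
  have i1 : F ⊓ E = E' := by
    show L ⊓ (K ⊔ B N) ⊓ E = L ⊓ E
    rw [inf_assoc, inf_eq_right.2 (h4.trans le_sup_left : E ≤ K ⊔ B N)]
  have i2 : F ⊓ (K' ⊔ B N) = L ⊓ (K' ⊔ B N) := by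
    show L ⊓ (K ⊔ B N) ⊓ (K' ⊔ B N) = L ⊓ (K' ⊔ B N)
    rw [inf_assoc, inf_eq_right.2 (sup_le_sup_right h2 (B N))]
  have i3 : L ⊓ (K' ⊔ B n) ⊓ (K' ⊔ B (f E')) = L ⊓ (K' ⊔ B (f E')) := by
    rw [inf_assoc, inf_eq_right.2 (sup_le_sup_left (hmono (hfN.trans hn)) K')]
  have i4 : F ⊓ (K' ⊔ B N) ⊓ (K' ⊔ B (f E')) = L ⊓ (K' ⊔ B (f E')) := by
    rw [i2, inf_assoc, inf_eq_right.2 (sup_le_sup_left (hmono hfN) K')]
  rw [i3] at eL
  rw [i4] at eF
  have j1 : L ⊔ E₀ ⊔ Q = L ⊓ (K' ⊔ B n) ⊔ (E' ⊔ E₀) ⊔ Q := by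
    rw [← sup_assoc (L ⊓ (K' ⊔ B n)) E' E₀]
    exact congrArg (· ⊔ E₀ ⊔ Q) sL
  have j2 : F ⊔ E₀ ⊔ Q = F ⊓ (K' ⊔ B N) ⊔ (E' ⊔ E₀) ⊔ Q := by
    have j3 := congrArg (· ⊔ E₀ ⊔ Q) sF
    rw [← sup_assoc (F ⊓ (K' ⊔ B N)) E' E₀]
    rwa [i1] at j3
  show padicValNat p (classNo (L ⊔ E₀ ⊔ Q)) = padicValNat p (classNo (F ⊔ E₀ ⊔ Q))
  rw [j1, j2, eL, eF]

/-- Theorem C for the fields `K` with the property `R`, any degree -/
def StAny (R : IntermediateField ℚ ℂ → Prop) (k : IntermediateField ℚ ℂ) (p : ℕ) : Prop :=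
  ∀ (K : IntermediateField ℚ ℂ) [FiniteDimensional ℚ K] (hk : k ≤ K),
    IsGalois k (IntermediateField.extendScalars hk) →
    (∀ σ τ : (IntermediateField.extendScalars hk) ≃ₐ[k] (IntermediateField.extendScalars hk),
      σ * τ = τ * σ) →
    R K →
    ∀ (E : IntermediateField ℚ ℂ) [FiniteDimensional ℚ E] (hE : k ≤ E),
    IsGalois k (IntermediateField.extendScalars hE) →
    (∃ c : ℕ, Module.finrank k (IntermediateField.extendScalars hE) = p ^ c) →
    ∀ l : ℕ, (l = 2 ∨ l = 3) → ∃ n₀ : ℕ, ∀ B₀ : IntermediateField ℚ ℂ, IsLayer l n₀ B₀ →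
      (∀ a : ℕ, ¬ l ^ (a + 1) ∣ Module.finrank k (IntermediateField.extendScalars hk) →
        ∀ n : ℕ, n₀ + a ≤ n → ∀ B B' : IntermediateField ℚ ℂ, IsLayer l n B →
        IsLayer l (n + 1) B' → ∀ (L : IntermediateField ℚ ℂ) (hL : k ≤ L),
        L ≤ K ⊔ B' → ¬ L ≤ K ⊔ B →
        IsCyclic ((IntermediateField.extendScalars hL) ≃ₐ[k]
          (IntermediateField.extendScalars hL)) →
        ∀ (L₁ : IntermediateField ℚ ℂ) (h₁ : k ≤ L₁) (h₂ : L₁ ≤ L),
        ¬ l ∣ Module.finrank k (IntermediateField.extendScalars h₁) →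
        (∃ e : ℕ, Module.finrank L₁ (IntermediateField.extendScalars h₂) = l ^ e) →
        ∀ (m : ℕ) (Q : IntermediateField ℚ ℂ), IsLayer p m Q →
          padicValNat p (classNo (L ⊔ E ⊔ Q)) = padicValNat p (classNo (L₁ ⊔ B₀ ⊔ E ⊔ Q))) ∧
      ∀ n : ℕ, n₀ ≤ n → ∀ B : IntermediateField ℚ ℂ, IsLayer l n B →
        ∀ L : IntermediateField ℚ ℂ, k ≤ L → L ≤ K ⊔ B →
        ∀ (m : ℕ) (Q : IntermediateField ℚ ℂ), IsLayer p m Q →
          padicValNat p (classNo (L ⊔ E ⊔ Q)) =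
            padicValNat p (classNo ((L ⊓ (K ⊔ B₀)) ⊔ E ⊔ Q))

theorem any_of (hLAYs : Pool.Agent.MUXJ.Sj_LAY) (R : IntermediateField ℚ ℂ → Prop)
    (hRs : ∀ K' K : IntermediateField ℚ ℂ, K' ≤ K → FiniteDimensional ℚ K → R K → R K')
    (k : IntermediateField ℚ ℂ) (p : ℕ) (hp : p.Prime) (h2 : p ≠ 2) (h3 : p ≠ 3)
    (hC : StR R k p) : StAny R k p := by
  intro K fdK hk hG hab hR E fdE hE hGE hdE l hl
  have hlp : l.Prime := by
    rcases hl with rfl | rfl
    · exact Nat.prime_two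
    · exact Nat.prime_three
  have hlF : Fact l.Prime := ⟨hlp⟩
  have hpl : p ≠ l := by
    rcases hl with rfl | rfl
    · exact h2
    · exact h3
  obtain ⟨Bn, hlay, hmono, huni⟩ := layers hLAYs l hl
  have hfL : ∀ n, FiniteDimensional ℚ ↥(K ⊔ Bn n) := fun n => by
    have : FiniteDimensional ℚ (Bn n) := (LAY_thm l n (Bn n) (hlay n)).1
    exact IntermediateField.finiteDimensional_sup K (Bn n)
  have hT : Twr l k K Bn := ⟨hk, hG, hab, hlay, hmono⟩
  obtain ⟨n₂, hn₂⟩ := any2 R hRs k K hk hG hab p hp hC hR E hE hGE hdE l hl hpl Bn hlay hmono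
  obtain ⟨n₃, hn₃⟩ := grow l k K Bn hT
  refine ⟨max n₂ n₃, fun B₀ hB₀ => ?_⟩
  obtain rfl := huni (max n₂ n₃) B₀ hB₀
  have hno := hn₃ (max n₂ n₃) (le_max_right _ _)
  have hmain := hn₂ (max n₂ n₃)
  set n₁ := max n₂ n₃ with hn₁
  refine ⟨?_, ?_⟩
  · intro a ha n hn B₁ B₂ hB₁ hB₂ L hkL hL hnL hcyc L₁ hk1 h1L hd1 hd2 m Q hQ
    obtain ⟨e, he⟩ := hd2
    obtain rfl := huni n B₁ hB₁
    obtain rfl := huni (n + 1) B₂ hB₂
    obtain ⟨r, hr, hdr⟩ := dvd_split l a _ ha
    rw [hmain (n + 1) (le_max_left _ _) (by omega) L hkL hL m Q hQ,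
      cor2 l a r n₁ hr k K Bn hT hdr hno (n + 1) (by omega) L hkL hL hcyc hnL L₁ hk1 h1L e
        (dvd_of_eq he) hd1]
  · intro n hn B₁ hB₁ L hkL hL m Q hQ
    obtain rfl := huni n B₁ hB₁
    exact hmain n (le_max_left _ _) hn L hkL hL m Q hQ

end Pool.Agent.TWQ
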