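import Pool.Agent.TWQ.StQ1
import Pool.Agent.TWT.HTF
import Pool.Agent.MU3.BAll

/-!
# TWQ, module DLQ: the logarithmic derivative of the conjugates of `θ`
-/

set_option autoImplicit false

open WeierstrassCurve Polynomial NumberField IsDedekindDomain

namespace Pool.Agent.TWQ

open _root_.MU3 Pool.Agent.MU3A Pool.Agent.MU3B Pool.Agent.MU3C Pool.Agent.RI Pool.Agent.RID
open Pool.Agent.MUX Pool.Agent.MUXU Pool.Agent.MUXW Pool.Agent.TWT Pool.Agent.TWI
open Pool.Agent.MU3V (cls Sub GD algDF)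
open Pool.Agent.MUXV (GR InK tX)
open Pool.Agent.MUXI (IA RE AR)
open OnePoint

noncomputable section

namespace DLQ

theorem nat_mem (L : PeriodPair) {z : ℂ} (hz : z ∈ L.lattice) (n : ℕ) :
    (n : ℂ) * z ∈ L.lattice := by
  have h := L.lattice.nsmul_mem hz n
  rwa [nsmul_eq_mul] at h

/-- half systems exist -/
theorem exists_half (L : PeriodPair) {a : ℕ} (h1 : a ≠ 0) (h2 : a.Coprime 2) :
    ∃ H : Finset ℂ, IsHalf L a H := by
  refine b_HAL L a (by exact_mod_cast h1) (fun w hw => nat_mem L hw a) fun z hz hz2 => ?_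
  have h3 : Odd a := Nat.coprime_two_right.1 h2
  obtain ⟨k, rfl⟩ := h3
  have h4 : z = ((2 * k + 1 : ℕ) : ℂ) * z - (k : ℂ) * (2 * z) := by push_cast; ring
  rw [h4]
  exact sub_mem hz (nat_mem L hz2 k)

theorem nat_idl {A B : ℤ} {m n : ℕ} (h : ((n : ℕ) : OO A B) ∈ idl (A := A) (B := B) m) :
    m ∣ n := by
  obtain ⟨z, hz⟩ := Ideal.mem_span_singleton'.1 h
  have h1 := congrArg QuadraticAlgebra.re hz
  rw [QuadraticAlgebra.re_mul, QuadraticAlgebra.re_natCast, QuadraticAlgebra.im_natCast,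
    QuadraticAlgebra.re_natCast] at h1
  have h2 : (m : ℤ) ∣ n := ⟨z.re, by linear_combination -h1⟩
  exact_mod_cast h2

theorem one_nmem {A B : ℤ} {m : ℕ} (hm : m ≠ 1) : (1 : OO A B) ∉ idl (A := A) (B := B) m := by
  intro h
  have h1 : ((1 : ℕ) : OO A B) ∈ idl (A := A) (B := B) m := by rwa [Nat.cast_one]
  exact hm (Nat.dvd_one.1 (nat_idl h1))

theorem cop_nmem {A B : ℤ} {m : ℕ} (hm : m ≠ 1) {x : OO A B}
    (hx : IsCoprime x ((m : ℕ) : OO A B)) : x ∉ idl (A := A) (B := B) m := by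
  intro h
  obtain ⟨u, v, huv⟩ := hx
  apply one_nmem (A := A) (B := B) hm
  rw [← huv]
  exact Ideal.add_mem _ (Ideal.mul_mem_left _ _ h)
    (Ideal.mul_mem_left _ _ (Ideal.mem_span_singleton_self _))

theorem idl_ne_bot {A B : ℤ} {m : ℕ} (hm : m ≠ 0) : (idl (A := A) (B := B) m) ≠ ⊥ := by
  intro h
  have h4 : ((m : ℕ) : OO A B) = 0 := by
    have : ((m : ℕ) : OO A B) ∈ (idl (A := A) (B := B) m) := Ideal.mem_span_singleton_self _
    rw [h] at this
    exact this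
  have h5 := congrArg QuadraticAlgebra.re h4
  simp at h5
  exact hm h5

theorem dpr_congr {V : ValuationSubring ℂ} {t0 : ℂ} {N : ℕ} {J : Type} {T : Finset J}
    {w u g u' g' : J → ℂ} (h : DPr V t0 N J T w u g) (hu : ∀ c ∈ T, u' c = u c)
    (hg : ∀ c ∈ T, g' c = g c) : DPr V t0 N J T w u' g' := by
  obtain ⟨A, hA, hAT⟩ := h
  refine ⟨A, hA, fun c hc => ?_⟩
  rw [hu c hc, hg c hc]
  exact hAT c hc

end DLQ

open DLQ in
theorem t_DLQ (hIDQ : S_IDQ) (hKEYQ : S_KEYQ) : S_DLQ := by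
  intro p q A B P P' V f hS hT ι _ R hG m hm x0 y0 hL w hw t0 hLoc T hTr γ hγ a H ha1 hac hH θ hθ
    σ i x hσ
  obtain ⟨⟨hCQ, hp, hp5, -⟩, -, -, -, -, hlast, -⟩ := hIDQ p q A B P P' V f hS
  have hm3 : 3 ≤ m := hL.m3
  have hM3 : 3 ≤ m * p := le_trans hm3 (Nat.le_mul_of_pos_right m hp.pos)
  have hM1 : m * p ≠ 1 := by omega
  have hM0 : m * p ≠ 0 := by omega
  obtain ⟨-, -, -, -, h5, -⟩ := t_HTF A B hCQ hT _ ι R (m * p) hM3 hm.cop
  have ha0 : a ≠ 0 := by omega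
  have ha2 : a.Coprime 2 := by
    have : a.Coprime (2 * (m * p)) := by rwa [← mul_assoc]
    exact Nat.Coprime.coprime_mul_right_right this
  obtain ⟨H', hH'⟩ := exists_half (R.L i) ha0 ha2
  -- the values
  have hval : ∀ c ∈ T,
      ((γ c (σ θ) : (RF (idl (m * p)) : IntermediateField (kk A B) ℂ)) : ℂ) =
        ThetaH (R.L i) H' (pt R (m * p) i (x * (x0 + c * m * y0))) := by
    intro c hc
    have hcP : c ∉ P := hTr.nz c hc
    have hcop := ((hlast m x0 y0 hL).1 c hcP).1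
    -- the value of `γ_c θ`
    obtain ⟨hz1, e1⟩ := h5 (γ c) R.i0 (x0 + c * m * y0) (hγ c hc) 1 (one_nmem hM1) a H H ha0 hH hH
    have hθ1 : θ = ⟨_, hz1⟩ := Subtype.ext hθ
    rw [← hθ1, mul_one] at e1
    -- the value of `σ γ_c θ`
    obtain ⟨hz2, e2⟩ := h5 σ i x hσ (x0 + c * m * y0) (cop_nmem hM1 hcop) a H H' ha0 hH hH'
    have hθ2 : γ c θ = ⟨_, hz2⟩ := Subtype.ext e1
    rw [← hθ2] at e2
    have hcomm := hT.comm (idl (m * p)) (idl_ne_bot hM0) (γ c) σ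
    have h6 : γ c (σ θ) = σ (γ c θ) := by
      have := congrArg (fun g => g θ) hcomm
      exact this
    rw [h6, e2]
  obtain ⟨-, -, h3⟩ := hKEYQ p q A B P P' V f hS ι R hG m hm x0 y0 hL w hw t0 hLoc T hTr i x hσ.1
  obtain ⟨h7, h8⟩ := h3 a H' ha1 hac hH'
  refine ⟨fun c hc => ⟨?_, (h7 c hc).2⟩, dpr_congr h8 hval fun c hc => ?_⟩
  · rw [hval c hc]
    exact (h7 c hc).1
  · rw [hval c hc]

end

end Pool.Agent.TWQ
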