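import Pool.Agent.TWQ.StQ1
import Pool.Agent.TWT.HTF

/-!
# TWQ, module FIQ: every integral `y ∈ F` gives a `D`-pair
-/

set_option autoImplicit false

open WeierstrassCurve Polynomial NumberField IsDedekindDomain

namespace Pool.Agent.TWQ

open _root_.MU3 Pool.Agent.MU3A Pool.Agent.MU3B Pool.Agent.MU3C Pool.Agent.RI Pool.Agent.RID
open Pool.Agent.MUX Pool.Agent.MUXU Pool.Agent.MUXW Pool.Agent.TWT Pool.Agent.TWI
open Pool.Agent.MU3V (cls Sub GD algDF)
open Pool.Agent.MUXV (GR InK tX)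
open Pool.Agent.MUXI (IA RE AR)
open OnePoint

noncomputable section

namespace FIQ

theorem gal_bas {K : Type} [Field K] [Algebra K ℂ] (V : ValuationSubring ℂ)
    (F0 F : IntermediateField K ℂ) (hle : F0 ≤ F) [FiniteDimensional K F] [IsGalois K F] (N : ℕ)
    (hN : 0 < N) (S : Finset (F ≃ₐ[K] F)) (hS : S.card ≤ N)
    (hfix : ∀ σ : F ≃ₐ[K] F, (∀ y : F, (y : ℂ) ∈ F0 → σ y = y) → σ ∈ S)
    (pp : ℂ) (Pi : F) (hv : V.valuation (Pi : ℂ) ^ N = V.valuation pp)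
    (hp : V.valuation pp < 1) (hp0 : pp ≠ 0)
    (hE : ∀ y ∈ F0, y ≠ 0 → ∃ k : ℤ, V.valuation y = V.valuation pp ^ k)
    (y : F) (hy : V.valuation (y : ℂ) ≤ 1) :
    ∃ b : ℕ → F, (∀ j, (b j : ℂ) ∈ F0) ∧ y = ∑ j ∈ Finset.range N, b j * Pi ^ j ∧
      ∀ j < N, V.valuation (b j : ℂ) ≤ 1 := by
  let E : IntermediateField K F := IntermediateField.restrict hle
  have hmem : ∀ x : F, x ∈ E ↔ (x : ℂ) ∈ F0 := fun x => IntermediateField.mem_restrict hle x
  have hfr : Module.finrank E F ≤ N := by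
    rw [← IsGalois.card_fixingSubgroup_eq_finrank E]
    have hinj : Function.Injective (fun σ : E.fixingSubgroup =>
        (⟨σ.1, hfix σ.1 fun z hz => (IntermediateField.mem_fixingSubgroup_iff E σ.1).1 σ.2 z
          ((hmem z).2 hz)⟩ : S)) := by
      intro σ τ h
      exact Subtype.ext (congrArg (fun z : S => z.1) h)
    have h1 := Nat.card_le_card_of_injective _ hinj
    rw [Nat.card_eq_fintype_card (α := S), Fintype.card_coe] at h1
    exact h1.trans hS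
  let φ : F →ₗ[E] ℂ := (IsScalarTower.toAlgHom E F ℂ).toLinearMap
  have hφ : ∀ z : F, φ z = (z : ℂ) := fun z => rfl
  have hφi : Function.Injective φ := fun a b h => Subtype.ext h
  have hfin : Module.Finite E F := inferInstance
  have hW : Module.finrank E (LinearMap.range φ) ≤ N := by
    rw [LinearMap.finrank_range_of_inj hφi]
    exact hfr
  have hWf : Module.Finite E (LinearMap.range φ) := inferInstance
  obtain ⟨b, hb, hb1⟩ := bas (V := V) (N := N) (E := E) (pp := pp) (Pi := (Pi : ℂ)) hN hv hp hp0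
    (fun x hx => hE _ ((hmem x.1).1 x.2) (fun h => hx (Subtype.ext (Subtype.ext h))))
    (LinearMap.range φ) hW (fun j _ => ⟨Pi ^ j, by rw [hφ]; rfl⟩) (y := (y : ℂ)) ⟨y, rfl⟩ hy
  refine ⟨fun j => ((b j : E) : F), fun j => (hmem _).1 (b j).2, ?_, fun j hj => hb1 j hj⟩
  apply Subtype.ext
  rw [hb]
  push_cast
  rfl

theorem xn_per (L : PeriodPair) {z z' : ℂ} (h : z - z' ∈ L.lattice) : xn L z = xn L z' := by
  have h1 := L.weierstrassP_add_coe z' ⟨z - z', h⟩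
  have h2 : z' + ((⟨z - z', h⟩ : L.lattice) : ℂ) = z := by
    show z' + (z - z') = z
    ring
  rw [h2] at h1
  unfold xn
  rw [h1]

/-- the base point -/
theorem base {A B : ℤ} (hQ : CQ A B) {n : ℕ} {ι : Type} (R : Reps A B n ι) (M : ℕ) (hM2 : 2 ≤ M)
    (hcop : ∀ i, (nI (R.b i)).Coprime M) :
    xn (R.L R.i0) (Pool.Agent.MUX.pt R M R.i0 1) ∈
      (RF (idl M) : IntermediateField (kk A B) ℂ) := by
  have hM0 : M ≠ 0 := by omega
  have h1M : (1 : OO A B) ∉ idl (A := A) (B := B) M := by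
    intro h
    obtain ⟨t, ht⟩ := Ideal.mem_span_singleton.1 h
    exact Pool.Agent.MUXI.Hit.not_unit M hM2 t ht
  have hL : IsNL (⊤ : Ideal (OO A B)) (R.L R.i0) (R.om R.i0) := by
    have := R.nl R.i0
    rwa [R.b0] at this
  have hpt1 : Pool.Agent.MUX.pt R M R.i0 1 = R.om R.i0 / M := by
    have hN0 : nI (R.b R.i0) = 1 := by
      rw [R.b0]
      change Nat.card (OO A B ⧸ (⊤ : Ideal (OO A B))) = 1
      have : Subsingleton (OO A B ⧸ (⊤ : Ideal (OO A B))) :=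
        Ideal.Quotient.subsingleton_iff.2 rfl
      exact Nat.card_unique
    obtain ⟨-, -, hint, -, -⟩ := Pool.Agent.MUXF.xf_ALG A B (Pool.Agent.MUXY.cqF hQ)
    have he1 : emb (1 : OO A B) = 1 := by
      have := (hint 1).1
      simpa using this
    unfold Pool.Agent.MUX.pt
    rw [hN0, he1]
    simp
  have hz1 : Pool.Agent.MUX.pt R M R.i0 1 ∉ (R.L R.i0).lattice := fun h =>
    h1M (Pool.Agent.MUXI.Hit.pt_mem hQ Pool.Agent.MUXF.xf_ALG R M hM0 R.i0 (hcop _) 1 h)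
  have hTor1 : Tor (idl (A := A) (B := B) M) (R.L R.i0) (Pool.Agent.MUX.pt R M R.i0 1) := by
    obtain ⟨hmul, -, hint, -, -⟩ := Pool.Agent.MUXF.xf_ALG A B (Pool.Agent.MUXY.cqF hQ)
    have heN : ∀ k : ℕ, emb ((k : ℕ) : OO A B) = (k : ℂ) := fun k => by
      have := (hint (k : ℤ)).1
      rwa [Int.cast_natCast, Int.cast_natCast] at this
    have hmC : (M : ℂ) ≠ 0 := by exact_mod_cast hM0
    intro y hy
    obtain ⟨t, rfl⟩ := Ideal.mem_span_singleton.1 hy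
    refine (hL.mem _).2 ⟨t, trivial, ?_⟩
    rw [(hmul _ _).1, heN, hpt1]
    field_simp
  exact IntermediateField.subset_adjoin _ _ ⟨_, _, _, hL, Or.inr ⟨_, hTor1, hz1, rfl⟩⟩

theorem idl_ne {A B : ℤ} (m : ℕ) (hm : m ≠ 0) : (idl (A := A) (B := B) m) ≠ ⊥ := by
  intro h
  have h4 : ((m : ℕ) : OO A B) = 0 := by
    have : ((m : ℕ) : OO A B) ∈ (idl (A := A) (B := B) m) := Ideal.mem_span_singleton_self _
    rw [h] at this
    exact this
  have h5 := congrArg QuadraticAlgebra.re h4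
  simp at h5
  omega

end FIQ

open FIQ in
/-- FIQ -/
theorem t_FIQ (hIDQ : S_IDQ) (hVPQ : S_VPQ) (hTEQ : S_TEQ) (hUNRQ : S_UNRQ) (hGFQ : S_GFQ)
    (hKEYQ : S_KEYQ) : S_FIQ := by
  classical
  intro p q A B P P' V f hS hT ι _ R hG m hm x0 y0 hxy w hw t0 hl T hTr γ hγ y hy
  obtain ⟨⟨hcq, hpp, hp5, hpq, -, -, -, -, -, -, -⟩, -, -, hTcard, -, hLv, -⟩ :=
    hIDQ p q A B P P' V f hS
  obtain ⟨hvp, hvp0, -, -, -, -, hvq, -⟩ := hVPQ p q A B P P' V f hS
  obtain ⟨-, -, -, -, hwr, -, hwv, hwT⟩ := hTEQ p q A B P P' V f hS w hw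
  obtain ⟨hle, hfixc, hX0, hGal⟩ := hGFQ p q A B P P' V f hS hT ι R m hm x0 y0 hxy T hTr γ hγ
  obtain ⟨⟨g, hg⟩, hvg, -⟩ := hKEYQ p q A B P P' V f hS ι R hG m hm x0 y0 hxy w hw t0 hl T hTr
    R.i0 1 isCoprime_one_left
  have hm3 : 3 ≤ m := hxy.m3
  have hM2 : 2 ≤ m * p := by nlinarith
  have hM0 : m * p ≠ 0 := by omega
  have hMb := idl_ne (A := A) (B := B) (m * p) hM0
  haveI := hT.fin _ hMb
  haveI := hT.gal _ hMb
  have hxF := base hcq R (m * p) hM2 hm.cop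
  have ht1 : V.valuation t0 < 1 := by
    by_contra h
    push Not at h
    have h2 := one_le_pow_of_one_le' h (q - 1)
    rw [hl.vt] at h2
    exact absurd hvp (not_lt.2 h2)
  have D : DDat V t0 (q - 1) T w := ⟨ht1, by omega, hTcard T hTr, hvq, fun c _ => (hwv c).1,
    fun c hc => (hwr c (hTr.nz c hc)).1, (hwT T hTr).1⟩
  set X1 : (RF (idl (m * p)) : IntermediateField (kk A B) ℂ) := ⟨_, hxF⟩ with hX1
  set X2 : (RF (idl (m * p)) : IntermediateField (kk A B) ℂ) := ⟨_, hle hX0⟩ with hX2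
  have hγX1 : ∀ c ∈ T, ((γ c X1 : (RF (idl (m * p)) : IntermediateField (kk A B) ℂ)) : ℂ) =
      xn (R.L R.i0) (pt R (m * p) R.i0 (x0 + c * m * y0)) := by
    intro c hc
    obtain ⟨-, s, -, hsv, hh⟩ := hγ c hc
    exact (hsv X1).symm.trans hh.2.1
  have hγPi : ∀ c ∈ T, ((γ c (X1 - X2) : (RF (idl (m * p)) : IntermediateField (kk A B) ℂ)) : ℂ) =
      xn (R.L R.i0) (pt R (m * p) R.i0 (1 * (x0 + c * m * y0))) -
        xn (R.L R.i0) (pt R (m * p) R.i0 (1 * x0)) := by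
    intro c hc
    rw [map_sub, hfixc c hc X2 hX0, one_mul, one_mul]
    show ((γ c X1 : (RF (idl (m * p)) : IntermediateField (kk A B) ℂ)) : ℂ) - _ = _
    rw [hγX1 c hc]
  have hvPi : V.valuation ((X1 - X2 : (RF (idl (m * p)) : IntermediateField (kk A B) ℂ)) : ℂ) =
      V.valuation t0 := by
    obtain ⟨c, hc, hcm⟩ := (hLv m x0 y0 hxy).2.1 T hTr 1 isCoprime_one_left
      (by rw [sub_self]; exact zero_mem _)
    have h1 := ((j_PTP A B hcq _ ι R (m * p) hM0 R.i0).1 _ _ hcm).1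
    have h2 := xn_per _ h1
    rw [← hvg c hc, one_mul, one_mul, ← h2]
    rfl
  obtain ⟨b, hb0, hyb, hb1⟩ := gal_bas V (RF ((idl m : Ideal (OO A B)) * P'))
    (RF (idl (m * p))) hle (q - 1) (by omega) (T.image γ)
    (Finset.card_image_le.trans (hTcard T hTr).le)
    (fun σ hσ => by
      obtain ⟨c, hc, rfl⟩ := hGal σ hσ
      exact Finset.mem_image_of_mem _ hc)
    (p : ℂ) (X1 - X2) (by rw [hvPi]; exact hl.vt) hvp
    (fun h => hvp0 (by rw [h, map_zero]))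
    (fun z hz hz0 => hUNRQ p q A B P P' V f hS hT ι R hG m hm.m0 hm.pm z hz hz0) y hy
  refine ⟨_, (DPr.poly D hg (q - 1) (b := fun j => (b j : ℂ)) hb1).congr_eq (fun c hc => ?_)
    fun c _ => rfl⟩
  have h3 : γ c y = ∑ j ∈ Finset.range (q - 1), b j * (γ c (X1 - X2)) ^ j := by
    conv_lhs => rw [hyb]
    rw [map_sum]
    refine Finset.sum_congr rfl fun j _ => ?_
    rw [map_mul, map_pow, hfixc c hc (b j) (hb0 j)]
  rw [h3]
  push_cast
  refine Finset.sum_congr rfl fun j _ => ?_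
  rw [← hγPi c hc]

end

end Pool.Agent.TWQ
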