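import Pool.Agent.TWQ.StQ1
import Pool.Agent.TWT.HTF
import Pool.Agent.TWI.NRRI

/-!
# TWQ, module GFQ (helper61): `Gal(F/F0)` is the set of the automorphisms `γ c`
-/

set_option autoImplicit false

open WeierstrassCurve Polynomial NumberField IsDedekindDomain

namespace Pool.Agent.TWQ

open _root_.MU3 Pool.Agent.MU3A Pool.Agent.MU3B Pool.Agent.MU3C Pool.Agent.RI Pool.Agent.RID
open Pool.Agent.MUX Pool.Agent.MUXU Pool.Agent.MUXW Pool.Agent.TWT Pool.Agent.TWI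
open Pool.Agent.MU3V (cls Sub GD algDF)
open Pool.Agent.MUXV (GR InK tX)
open Pool.Agent.MUXI (IA RE AR)
open OnePoint

noncomputable section

namespace GFQ

variable {A B : ℤ}

/-- the ideal `(m)` is not zero -/
lemma idl_ne {k : ℕ} (hk : k ≠ 0) : (idl (A := A) (B := B) k) ≠ ⊥ := by
  intro h
  have h4 : ((k : ℕ) : OO A B) = 0 := by
    have : ((k : ℕ) : OO A B) ∈ (idl (A := A) (B := B) k) := Ideal.mem_span_singleton_self _
    rw [h] at this
    exact this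
  have h5 := congrArg QuadraticAlgebra.re h4
  simp at h5
  omega

/-- `(m p) ≤ (m) P'` -/
lemma le_lv {m p : ℕ} {P P' : Ideal (OO A B)} (h : P * P' = idl p) :
    idl (A := A) (B := B) (m * p) ≤ (idl m : Ideal (OO A B)) * P' := by
  have h1 : idl (A := A) (B := B) (m * p) = idl m * idl p := by
    show Ideal.span {((m * p : ℕ) : OO A B)} = Ideal.span {((m : ℕ) : OO A B)} *
      Ideal.span {((p : ℕ) : OO A B)}
    rw [Ideal.span_singleton_mul_span_singleton, Nat.cast_mul]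
  rw [h1, ← h]
  exact Ideal.mul_mono_right Ideal.mul_le_right

end GFQ

open GFQ in
theorem t_GFQ (hIDQ : S_IDQ) : S_GFQ := by
  classical
  intro p q A B P P' V f hS hT ι _ R m hm x0 y0 hL T hRep γ hγ
  obtain ⟨⟨hCQ, hpp, hp5, -, -, -, -, -, -, hPP', -⟩, -, -, -, -, hLv, -⟩ :=
    hIDQ p q A B P P' V f hS
  obtain ⟨e1, e2, e3, e4⟩ := hLv m x0 y0 hL
  have hm3 := hL.m3
  have hm0 : m ≠ 0 := by omega
  have hp0 : p ≠ 0 := by omega
  have hM3 : 3 ≤ m * p := by nlinarith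
  have hM2 : 2 ≤ m * p := by omega
  have hM0 : m * p ≠ 0 := by omega
  set I : Ideal (OO A B) := (idl m : Ideal (OO A B)) * P' with hI
  have hIM : idl (A := A) (B := B) (m * p) ≤ I := le_lv hPP'
  have hMb : idl (A := A) (B := B) (m * p) ≠ ⊥ := idl_ne hM0
  have hIb : I ≠ ⊥ := fun h => hMb (le_bot_iff.1 (h ▸ hIM))
  have hIm : I ≤ idl (A := A) (B := B) m := Ideal.mul_le_left
  have hex : ∃ (b : Ideal (OO A B)) (L : PeriodPair) (om : ℂ), IsNL b L om :=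
    ⟨_, _, _, R.nl R.i0⟩
  have h1I : (1 : OO A B) ∉ I := by
    intro h
    obtain ⟨t, ht⟩ := Ideal.mem_span_singleton.1 (hIm h)
    exact Pool.Agent.MUXI.Hit.not_unit m (by omega) t ht
  have hx0M : x0 ∉ idl (A := A) (B := B) (m * p) := by
    intro h
    apply h1I
    apply e3
    rwa [one_mul]
  obtain ⟨hmul, hez, hint, -, -⟩ := Pool.Agent.MUXF.xf_ALG A B (Pool.Agent.MUXY.cqF hCQ)
  have hem : ∀ x y : OO A B, emb (x * y) = emb x * emb y := fun x y => (hmul x y).1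
  have hea : ∀ x y : OO A B, emb (x + y) = emb x + emb y := fun x y => (hmul x y).2.1
  have heN : ∀ k : ℕ, emb ((k : ℕ) : OO A B) = (k : ℂ) := fun k => by
    have := (hint (k : ℤ)).1
    rwa [Int.cast_natCast, Int.cast_natCast] at this
  have hes : ∀ x y : OO A B, emb (x - y) = emb x - emb y := by
    intro x y
    have h1 := hea (x - y) y
    rw [sub_add_cancel] at h1
    linear_combination -h1
  have hMC : ((m * p : ℕ) : ℂ) ≠ 0 := by exact_mod_cast hM0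
  have hadd : ∀ x y : OO A B, Pool.Agent.MUX.pt R (m * p) R.i0 (x + y) =
      Pool.Agent.MUX.pt R (m * p) R.i0 x + Pool.Agent.MUX.pt R (m * p) R.i0 y := by
    intro x y
    unfold Pool.Agent.MUX.pt
    rw [hea]
    ring
  have hsub : ∀ x y : OO A B, Pool.Agent.MUX.pt R (m * p) R.i0 (x - y) =
      Pool.Agent.MUX.pt R (m * p) R.i0 x - Pool.Agent.MUX.pt R (m * p) R.i0 y := by
    intro x y
    unfold Pool.Agent.MUX.pt
    rw [hes]
    ring
  have hptM : ∀ x : OO A B, Pool.Agent.MUX.pt R (m * p) R.i0 x ∈ (R.L R.i0).lattice →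
      x ∈ idl (A := A) (B := B) (m * p) := fun x h =>
    Pool.Agent.MUXI.Hit.pt_mem hCQ Pool.Agent.MUXF.xf_ALG R (m * p) hM0 R.i0 (hm.cop _) x h
  -- (1)
  have c1 : (RF I : IntermediateField (kk A B) ℂ) ≤ RF (idl (m * p)) := hT.mono _ _ hIM
  -- (2)
  have c2 : ∀ c ∈ T, ∀ y : (RF (idl (m * p)) : IntermediateField (kk A B) ℂ),
      (y : ℂ) ∈ (RF I : IntermediateField (kk A B) ℂ) → γ c y = y := by
    intro c hc y hy
    obtain ⟨hxc, s, hs, hsv, hh⟩ := hγ c hc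
    have hIA := (j_HIT A B hCQ hT _ ι R (m * p) hM2 hm.cop s hs R.i0 _ hxc).1 hh
    obtain ⟨-, -, -, -, -, -, j7, -⟩ := j_IAF A B hCQ hT hex _ hMb
    obtain ⟨-, -, -, -, -, j6, -, -⟩ := j_IAF A B hCQ hT hex _ hIb
    have h3 := j7 s _ I hIM hIA
    have h4 := (j6 s _ h3).2 ⟨x0 + c * m * y0, (e1 c (hRep.nz c hc)).2, by
      rw [R.b0]
      have : cjI (⊤ : Ideal (OO A B)) = ⊤ := Ideal.comap_top
      rw [this, Ideal.mul_top]⟩ y hy
    apply Subtype.ext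
    rw [← hsv, h4]
  -- (3)
  have hTor : Tor I (R.L R.i0) (Pool.Agent.MUX.pt R (m * p) R.i0 x0) := by
    intro y hy
    obtain ⟨t, ht⟩ := Ideal.mem_span_singleton.1 (e4 y hy)
    refine ((R.nl R.i0).mem _).2 ⟨((nI (R.b R.i0) : ℕ) : OO A B) * t, by rw [R.b0]; trivial, ?_⟩
    unfold Pool.Agent.MUX.pt
    have h2 : emb y * emb x0 = emb ((m * p : ℕ) : OO A B) * emb t := by
      rw [← hem, ← hem, ht]
    rw [heN] at h2
    rw [hem ((nI (R.b R.i0) : ℕ) : OO A B), heN]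
    rw [show emb y * (R.om R.i0 * (nI (R.b R.i0) : ℂ) * emb x0 / ((m * p : ℕ) : ℂ)) =
      R.om R.i0 * (nI (R.b R.i0) : ℂ) * (emb y * emb x0) / ((m * p : ℕ) : ℂ) by ring, h2]
    field_simp
  have hptx0 : Pool.Agent.MUX.pt R (m * p) R.i0 x0 ∉ (R.L R.i0).lattice := fun h =>
    hx0M (hptM x0 h)
  have c3 : xn (R.L R.i0) (Pool.Agent.MUX.pt R (m * p) R.i0 x0) ∈
      (RF I : IntermediateField (kk A B) ℂ) :=
    IntermediateField.subset_adjoin _ _ ⟨_, _, _, R.nl R.i0, Or.inr ⟨_, hTor, hptx0, rfl⟩⟩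
  refine ⟨c1, c2, c3, ?_⟩
  -- (4)
  intro σ hσ
  obtain ⟨f1, -, f3, f4, -, -⟩ := t_HTF A B hCQ hT (p * f) ι R (m * p) hM3 hm.cop
  obtain ⟨i, x, hb⟩ := f1 σ
  have hi : i = R.i0 := by
    obtain ⟨-, s, -, hsv, hh⟩ := hb
    have hkT : kap (R.L R.i0) ∈ (RF (⊤ : Ideal (OO A B)) : IntermediateField (kk A B) ℂ) :=
      IntermediateField.subset_adjoin _ _ ⟨_, _, _, R.nl R.i0, Or.inl rfl⟩
    have hkF : kap (R.L R.i0) ∈ (RF (idl (m * p)) : IntermediateField (kk A B) ℂ) :=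
      hT.mono _ _ le_top hkT
    have hkI : kap (R.L R.i0) ∈ (RF I : IntermediateField (kk A B) ℂ) :=
      hT.mono _ _ le_top hkT
    have h1 : s (kap (R.L R.i0)) = kap (R.L R.i0) := by
      have h2 := hsv ⟨_, hkF⟩
      rw [hσ ⟨_, hkF⟩ hkI] at h2
      exact h2
    have h2 : kap (R.L i) = kap (R.L R.i0) := by rw [hh.1, h1]
    obtain ⟨h3, h4⟩ := Pool.Agent.TWT.NRR.cj (RingEquiv.refl ℂ) (R.nl R.i0).nrm (R.nl i).nrm h2.symm
    exact Pool.Agent.MUXY.y_UNJ A B hCQ _ ι R i R.i0 h3 h4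
  subst hi
  have hxc := hb.1
  have hb' := hb
  obtain ⟨-, s, hs, hsv, hh⟩ := hb
  have hIA := (j_HIT A B hCQ hT _ ι R (m * p) hM2 hm.cop s hs R.i0 x hxc).1 hh
  obtain ⟨-, k2, k3, -, -⟩ :=
    Pool.Agent.TWT.HTF.act_pt hCQ R (m * p) hM2 hm.cop s R.i0 x hxc hIA x0 hx0M
  have h5 : s (xn (R.L R.i0) (Pool.Agent.MUX.pt R (m * p) R.i0 x0)) =
      xn (R.L R.i0) (Pool.Agent.MUX.pt R (m * p) R.i0 x0) := by
    have h2 := hsv ⟨_, c1 c3⟩
    rw [hσ ⟨_, c1 c3⟩ c3] at h2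
    exact h2
  have h6 : (R.L R.i0).weierstrassP (Pool.Agent.MUX.pt R (m * p) R.i0 (x * x0)) =
      (R.L R.i0).weierstrassP (Pool.Agent.MUX.pt R (m * p) R.i0 x0) := by
    rw [h5] at k2
    unfold xn at k2
    linear_combination -k2
  -- from a congruence to the automorphism
  have fin : ∀ (c : OO A B), c ∈ T → (x - (x0 + c * m * y0) ∈ idl (A := A) (B := B) (m * p) ∨
      x + (x0 + c * m * y0) ∈ idl (A := A) (B := B) (m * p)) → ∃ c ∈ T, σ = γ c := by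
    intro c hc h
    have h7 := (f3 σ R.i0 R.i0 x _ hb' (e1 c (hRep.nz c hc)).1).2 ⟨rfl, h⟩
    exact ⟨c, hc, f4 σ (γ c) R.i0 _ h7 (hγ c hc)⟩
  rcases b_NEQ (R.L R.i0) _ _ hptx0 k3 h6 with h | h
  · rw [← hsub] at h
    have h7 := e3 (x - 1) (by
      have := hptM _ h
      rwa [show x * x0 - x0 = (x - 1) * x0 by ring] at this)
    obtain ⟨c, hc, h8⟩ := e2 T hRep x hxc h7
    exact fin c hc (Or.inl h8)
  · rw [← hadd] at h
    have h7 := e3 (x + 1) (by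
      have := hptM _ h
      rwa [show x * x0 + x0 = (x + 1) * x0 by ring] at this)
    obtain ⟨c, hc, h8⟩ := e2 T hRep (-x) hxc.neg_left (by
      rw [show -x - 1 = -(x + 1) by ring]
      exact neg_mem h7)
    refine fin c hc (Or.inr ?_)
    have := neg_mem h8
    rwa [show -(-x - (x0 + c * m * y0)) = x + (x0 + c * m * y0) by ring] at this

end

end Pool.Agent.TWQ
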