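import Pool.Agent.TWQ.StQ1
import Pool.Agent.TWT.IDP
import Pool.Agent.TWI.IDPI

/-!
# TWQ, block B': ideals for both types of `p` (module IDQ)
-/

set_option autoImplicit false

namespace Pool.Agent.TWQ

open _root_.MU3 Pool.Agent.MU3A Pool.Agent.MU3B Pool.Agent.MU3C Pool.Agent.RI Pool.Agent.RID
open Pool.Agent.MUX Pool.Agent.TWT Pool.Agent.TWI
open Pool.Agent.MUXI.PQFaux

noncomputable section

namespace IDQ

variable {A B : ℤ}

/-- everything which does not depend on the type of `p` -/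
theorem core {p q : ℕ} {P P' : Ideal (OO A B)} (hprime : p.Prime) (hPp : P.IsPrime)
    (hpP : ((p : ℕ) : OO A B) ∈ P) (hcard : Nat.card (OO A B ⧸ P) = q) (hq : q ≠ 0)
    (hPQ : P * P' = idl (A := A) (B := B) p) (hcop : IsCoprime P P')
    (hcP' : ∀ x : OO A B, (P' ≠ ⊤ → x ∉ P') → IsCoprime (sp x) P') (f : ℕ) :
    (∀ c : ℤ, (c : OO A B) ∈ P ↔ (p : ℤ) ∣ c) ∧
    (∃ T, RepI P T) ∧ (∀ T, RepI P T → T.card = q - 1) ∧
    (∀ m : ℕ, 3 ≤ m → ¬ p ∣ m → ∃ x0 y0 : OO A B, LvQ p P P' m x0 y0) ∧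
    (∀ (m : ℕ) (x0 y0 : OO A B), LvQ p P P' m x0 y0 →
      (∀ c : OO A B, c ∉ P → IsCoprime (x0 + c * m * y0) ((m * p : ℕ) : OO A B) ∧
        x0 + c * m * y0 - 1 ∈ (idl m : Ideal (OO A B)) * P') ∧
      (∀ T, RepI P T → ∀ x : OO A B, IsCoprime x ((m * p : ℕ) : OO A B) →
        x - 1 ∈ (idl m : Ideal (OO A B)) * P' →
        ∃ c ∈ T, x - (x0 + c * m * y0) ∈ idl (A := A) (B := B) (m * p)) ∧
      (∀ x : OO A B, x * x0 ∈ idl (A := A) (B := B) (m * p) →
        x ∈ (idl m : Ideal (OO A B)) * P') ∧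
      ∀ x ∈ (idl m : Ideal (OO A B)) * P', x * x0 ∈ idl (A := A) (B := B) (m * p)) ∧
    ∀ (l N : ℕ), l ∣ f → ∀ x : OO A B, IsCoprime (sp x) (idl f : Ideal (OO A B)) → x ∉ P →
      (P' ≠ ⊤ → x ∉ P') → IsCoprime x ((f * l ^ N * p : ℕ) : OO A B) := by
  have h1P : (1 : OO A B) ∉ P := fun h => hPp.ne_top ((Ideal.eq_top_iff_one P).2 h)
  have hci : ∀ c : ℤ, ¬ (p : ℤ) ∣ c → IsCoprime (p : ℤ) c := fun c hpc =>
    (Int.prime_iff_natAbs_prime.2 (by simpa using hprime)).coprime_iff_not_dvd.2 hpc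
  have hint : ∀ c : ℤ, (c : OO A B) ∈ P ↔ (p : ℤ) ∣ c := by
    intro c
    constructor
    · intro hc
      by_contra hpc
      obtain ⟨u, v, huv⟩ := hci c hpc
      apply h1P
      have h3 : ((u : ℤ) : OO A B) * (p : ℕ) + (v : ℤ) * (c : ℤ) = 1 := by
        have := congrArg (Int.cast : ℤ → OO A B) huv
        push_cast at this
        exact this
      rw [← h3]
      exact P.add_mem (P.mul_mem_left _ hpP) (P.mul_mem_left _ hc)
    · rintro ⟨y, rfl⟩
      push_cast
      exact P.mul_mem_right _ hpP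
  have hintn : ∀ c : ℕ, (c : OO A B) ∈ P ↔ p ∣ c := by
    intro c
    have h3 := hint (c : ℤ)
    rw [Int.cast_natCast] at h3
    rw [h3, Int.natCast_dvd_natCast]
  have hpQ : ((p : ℕ) : OO A B) ∈ P' := by
    have h3 : ((p : ℕ) : OO A B) ∈ P * P' := by
      rw [hPQ]
      exact Ideal.subset_span rfl
    exact (Ideal.mul_le_right : P * P' ≤ P') h3
  have hfin : Finite (OO A B ⧸ P) := Nat.finite_of_card_ne_zero (by rw [hcard]; exact hq)
  have hdom : IsDomain (OO A B ⧸ P) := Ideal.Quotient.isDomain P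
  have hmax : P.IsMaximal :=
    Ideal.Quotient.maximal_of_isField P (Finite.isDomain_to_isField (OO A B ⧸ P))
  have hcP : ∀ a : OO A B, a ∉ P → IsCoprime (sp a) P := by
    intro a ha
    rw [Ideal.isCoprime_iff_sup_eq]
    refine (Ideal.isMaximal_def.1 hmax).2 _ (lt_of_le_of_ne le_sup_right fun h3 => ha ?_)
    rw [h3]
    exact (le_sup_left : sp a ≤ sp a ⊔ P) (Ideal.subset_span rfl)
  have hmI : ∀ m : ℕ, ¬ p ∣ m → ∀ I : Ideal (OO A B), ((p : ℕ) : OO A B) ∈ I →
      IsCoprime (idl (A := A) (B := B) m) I := by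
    intro m hm I hI
    obtain ⟨u, v, huv⟩ := hci (m : ℤ) (by rwa [Int.natCast_dvd_natCast])
    have huv' : ((u : ℤ) : OO A B) * (p : ℕ) + (v : ℤ) * (m : ℕ) = 1 := by
      have := congrArg (Int.cast : ℤ → OO A B) huv
      push_cast at this
      exact this
    rw [Ideal.isCoprime_iff_exists]
    exact ⟨_, Ideal.mul_mem_left _ ((v : ℤ) : OO A B) (Ideal.subset_span rfl), _,
      I.mul_mem_left ((u : ℤ) : OO A B) hI, by rw [add_comm]; exact huv'⟩
  have hmC : ∀ m : ℕ, ¬ p ∣ m → IsCoprime (idl (A := A) (B := B) m * P') P := fun m hm =>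
    (hmI m hm P hpP).mul_left hcop.symm
  have hprod : ∀ m : ℕ, idl (A := A) (B := B) (m * p) = idl m * P' * P := by
    intro m
    rw [TWT.IDP.idl_mul, ← hPQ, mul_assoc, mul_comm P' P]
  have hcopmp : ∀ (m : ℕ) (a : OO A B), IsCoprime (sp a) (idl m * P') → a ∉ P →
      IsCoprime a ((m * p : ℕ) : OO A B) := by
    intro m a h3 h4
    have h5 := h3.mul_right (hcP a h4)
    rw [← hprod] at h5
    exact (Ideal.isCoprime_span_singleton_iff _ _).1 h5
  have hnotP : ∀ (m : ℕ) (a : OO A B), IsCoprime a ((m * p : ℕ) : OO A B) → a ∉ P := by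
    rintro m a ⟨r, s, hrs⟩ ha
    apply h1P
    rw [← hrs]
    refine P.add_mem (P.mul_mem_left _ ha) (P.mul_mem_left _ ?_)
    rw [Nat.cast_mul]
    exact P.mul_mem_left _ hpP
  refine ⟨hint, TWI.IDPI.exists_rep hfin, ?_, ?_, ?_, ?_⟩
  · intro T hT
    rw [TWI.IDPI.card_rep hfin hT, hcard]
  · intro m hm3 hm
    obtain ⟨a, ha, b, hb, hab⟩ := Ideal.isCoprime_iff_exists.1 (hmC m hm)
    obtain ⟨a', ha', b', hb', hab'⟩ := Ideal.isCoprime_iff_exists.1 hcop
    refine ⟨b, b', hm3, hm, hb, ?_, hb', fun h3 => h1P ?_⟩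
    · have h3 : b - 1 = -a := by linear_combination hab
      rw [h3]
      exact Ideal.neg_mem_iff _ |>.2 ha
    · rw [← hab']
      exact P.add_mem ha' h3
  · intro m x0 y0 hL
    have hm := hL.pm
    have hmP : ((m : ℕ) : OO A B) ∉ P := fun h3 => hm ((hintn m).1 h3)
    have hcm : ∀ c : OO A B, c * m * y0 ∈ idl (A := A) (B := B) m * P' := by
      intro c
      rw [mul_assoc]
      exact Ideal.mul_mem_left _ _ (Ideal.mul_mem_mul (Ideal.subset_span rfl) hL.yP')
    refine ⟨?_, ?_, ?_, ?_⟩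
    · intro c hc
      have h3 : x0 + c * m * y0 - 1 ∈ idl (A := A) (B := B) m * P' := by
        have h4 : x0 + c * m * y0 - 1 = (x0 - 1) + c * m * y0 := by ring
        rw [h4]
        exact Ideal.add_mem _ hL.xm (hcm _)
      refine ⟨hcopmp m _ (TWT.IDP.cop_one h3) ?_, h3⟩
      intro h4
      have h5 := P.sub_mem h4 hL.xP
      rw [add_sub_cancel_left] at h5
      rcases hPp.mem_or_mem h5 with h6 | h6
      · rcases hPp.mem_or_mem h6 with h7 | h7
        · exact hc h7
        · exact hmP h7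
      · exact hL.yP h6
    · intro T hT x hx hx1
      have hmy : (m : OO A B) * y0 ∉ P := fun h4 =>
        (hPp.mem_or_mem h4).elim hmP hL.yP
      obtain ⟨i, hi, b, hb, hib⟩ := Ideal.isCoprime_iff_exists.1 (hcP _ hmy)
      obtain ⟨r, rfl⟩ := Ideal.mem_span_singleton'.1 hi
      have hxP : x ∉ P := hnotP m x hx
      have hxr : x * r ∉ P := by
        intro h4
        rcases hPp.mem_or_mem h4 with h5 | h5
        · exact hxP h5
        · apply h1P
          rw [← hib]
          exact P.add_mem (P.mul_mem_right _ h5) hb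
      obtain ⟨c, hc, hxc⟩ := hT.surj (x * r) hxr
      refine ⟨c, hc, ?_⟩
      have h4 : x - c * m * y0 ∈ P := by
        have h5 : x - c * m * y0 = (x * r - c) * (m * y0) + x * b := by
          linear_combination (-x) * hib
        rw [h5]
        exact P.add_mem (P.mul_mem_right _ hxc) (P.mul_mem_left _ hb)
      rw [hprod, Ideal.mul_eq_inf_of_coprime (Ideal.isCoprime_iff_sup_eq.1 (hmC m hm))]
      refine ⟨?_, ?_⟩
      · have h5 : x - (x0 + c * m * y0) = (x - 1) - (x0 - 1) - c * m * y0 := by ring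
        rw [h5]
        exact Ideal.sub_mem _ (Ideal.sub_mem _ hx1 hL.xm) (hcm _)
      · have h5 : x - (x0 + c * m * y0) = (x - c * m * y0) - x0 := by ring
        rw [h5]
        exact P.sub_mem h4 hL.xP
    · intro x hx
      rw [hprod] at hx
      have h3 : x * x0 ∈ idl (A := A) (B := B) m * P' :=
        (Ideal.mul_le_left : idl (A := A) (B := B) m * P' * P ≤ idl m * P') hx
      have h4 : x = x * x0 - x * (x0 - 1) := by ring
      rw [h4]
      exact Ideal.sub_mem _ h3 (Ideal.mul_mem_left _ _ hL.xm)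
    · intro x hx
      rw [hprod]
      exact Ideal.mul_mem_mul hx hL.xP
  · intro l N hl x hx hxP hxP'
    have h3 : IsCoprime x ((f : ℕ) : OO A B) := (Ideal.isCoprime_span_singleton_iff _ _).1 hx
    have h4 : IsCoprime x ((l : ℕ) : OO A B) := by
      obtain ⟨k, rfl⟩ := hl
      rw [Nat.cast_mul] at h3
      exact h3.of_mul_right_left
    have h5 : IsCoprime x ((p : ℕ) : OO A B) := by
      have h6 := (hcP x hxP).mul_right (hcP' x hxP')
      rw [hPQ] at h6
      exact (Ideal.isCoprime_span_singleton_iff _ _).1 h6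
    push_cast
    exact (h3.mul_right h4.pow_right).mul_right h5

end IDQ

open IDQ in
theorem t_IDQ : S_IDQ := by
  intro p q A B P P' V f hQ
  obtain ⟨-, ⟨hS, rfl, rfl⟩ | ⟨hS, rfl, hqp⟩⟩ := hQ
  · obtain ⟨-, hcard, -⟩ := t_IDPI p A B P V f hS
    have hp0 : p ≠ 0 := hS.pp.ne_zero
    have hPQ : P * ⊤ = idl (A := A) (B := B) p := by
      rw [Ideal.mul_top, hS.eP]
    have hcop : IsCoprime P (⊤ : Ideal (OO A B)) := by
      rw [← Ideal.one_eq_top]
      exact isCoprime_one_right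
    have hpP : ((p : ℕ) : OO A B) ∈ P := by
      rw [hS.eP]
      exact Ideal.subset_span rfl
    have hcP' : ∀ x : OO A B, ((⊤ : Ideal (OO A B)) ≠ ⊤ → x ∉ (⊤ : Ideal (OO A B))) →
        IsCoprime (sp x) (⊤ : Ideal (OO A B)) := by
      intro x _
      rw [← Ideal.one_eq_top]
      exact isCoprime_one_right
    refine ⟨⟨hS.cq, hS.pp, hS.p5, ?_, hS.hP, hS.hV, hS.f0, hS.fp, hS.fD, hPQ, hcop⟩,
      core hS.pp hS.hP hpP hcard (pow_ne_zero 2 hp0) hPQ hcop hcP' f⟩
    exact Nat.le_self_pow two_ne_zero p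
  · have hqp' := hqp.symm
    subst hqp'
    obtain ⟨-, -, hPQ, hcop, -⟩ := t_IDP p A B P V f hS
    have hp0 : p ≠ 0 := hS.pp.ne_zero
    have hcard : Nat.card (OO A B ⧸ P) = p := hS.hP.norm
    have hPp : P.IsPrime := hS.hP.prime
    have hfin : Finite (OO A B ⧸ P) := Nat.finite_of_card_ne_zero (by rw [hcard]; exact hp0)
    have hdom : IsDomain (OO A B ⧸ P) := Ideal.Quotient.isDomain P
    have hmax : P.IsMaximal :=
      Ideal.Quotient.maximal_of_isField P (Finite.isDomain_to_isField (OO A B ⧸ P))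
    have htop : cjI P ≠ ⊤ := by
      intro h3
      have h4 : (1 : OO A B) ∈ cjI P := by
        rw [h3]
        trivial
      rw [mem_cjI, star_one] at h4
      exact hPp.ne_top ((Ideal.eq_top_iff_one P).2 h4)
    have hcP' : ∀ x : OO A B, (cjI P ≠ ⊤ → x ∉ cjI P) → IsCoprime (sp x) (cjI P) := by
      intro x hx
      have hx1 : star x ∉ P := fun h3 => hx htop (by rw [mem_cjI]; exact h3)
      have h3 : IsCoprime (sp (star x)) P := by
        rw [Ideal.isCoprime_iff_sup_eq]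
        refine (Ideal.isMaximal_def.1 hmax).2 _ (lt_of_le_of_ne le_sup_right fun h3 => hx1 ?_)
        rw [h3]
        exact (le_sup_left : sp (star x) ≤ sp (star x) ⊔ P) (Ideal.subset_span rfl)
      obtain ⟨a, ha, b, hb, hab⟩ := Ideal.isCoprime_iff_exists.1 h3
      obtain ⟨r, rfl⟩ := Ideal.mem_span_singleton'.1 ha
      rw [Ideal.isCoprime_iff_exists]
      refine ⟨star r * x, Ideal.mul_mem_left _ _ (Ideal.subset_span rfl), star b, ?_, ?_⟩
      · rw [mem_cjI, star_star]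
        exact hb
      · have h5 := congrArg star hab
        rw [star_add, star_mul, star_star, star_one] at h5
        rw [mul_comm]
        exact h5
    refine ⟨⟨hS.cq, hS.pp, hS.p5, le_refl _, hPp, hS.hV, hS.f0, hS.fp, hS.fD, hPQ, hcop⟩,
      core hS.pp hPp hS.hP.mem hcard hp0 hPQ hcop hcP' f⟩

end

end Pool.Agent.TWQ
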