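import Pool.Agent.TWQ.DefD

/-!
# TWQ, module DPR (helper3): tame expansions (`D`-pairs)

`w c`, `c ∈ T`, are the `N`-th roots of unity, `v(t0) < 1`. A pair `(u, g)` of functions on `T` is a
`D`-pair if there is a polynomial `A` with `v(A_k) ≤ v(t0)^k`, `u c ≡ A(w c)` and
`g c ≡ (X A')(w c)` modulo `t0^N`.
-/

set_option autoImplicit false

namespace Pool.Agent.TWQ

open Polynomial

noncomputable section

/-- `w c`, `c ∈ T`, are the `N`-th roots of unity (their power sums), `v(t0) < 1` -/
structure DDat (V : ValuationSubring ℂ) (t0 : ℂ) (N : ℕ) {J : Type} (T : Finset J) (w : J → ℂ) :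
    Prop where
  t1 : V.valuation t0 < 1
  N0 : 0 < N
  card : T.card = N
  vN : V.valuation (N : ℂ) = 1
  w1 : ∀ c ∈ T, V.valuation (w c) ≤ 1
  wN : ∀ c ∈ T, w c ^ N = 1
  sum : ∀ j, 0 < j → j < N → ∑ c ∈ T, w c ^ j = 0

variable {V : ValuationSubring ℂ} {t0 : ℂ} {N : ℕ} {J : Type} {T : Finset J} {w : J → ℂ}

namespace DPR

theorem ev_le {A : Polynomial ℂ} {γ : V.ValueGroup} (h : ∀ k, V.valuation (A.coeff k) ≤ γ) {x : ℂ}
    (hx : V.valuation x ≤ 1) : V.valuation (A.eval x) ≤ γ := by
  rw [Polynomial.eval_eq_sum_range]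
  refine V.valuation.map_sum_le fun k _ => ?_
  rw [map_mul, map_pow]
  calc V.valuation (A.coeff k) * V.valuation x ^ k ≤ γ * 1 :=
        mul_le_mul' (h k) (pow_le_one' hx k)
    _ = γ := mul_one _

theorem co (A : Polynomial ℂ) (k : ℕ) : (X * derivative A).coeff k = k * A.coeff k := by
  rcases k with _ | k
  · simp
  · rw [Polynomial.coeff_X_mul, Polynomial.coeff_derivative]
    push_cast
    ring

theorem co_le {A : Polynomial ℂ} {k : ℕ} {γ : V.ValueGroup} (h : V.valuation (A.coeff k) ≤ γ) :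
    V.valuation ((X * derivative A).coeff k) ≤ γ := by
  rw [co, map_mul]
  have h1 : V.valuation ((k : ℕ) : ℂ) ≤ 1 := by
    rw [ValuationSubring.valuation_le_one_iff]
    exact natCast_mem V k
  calc V.valuation ((k : ℕ) : ℂ) * V.valuation (A.coeff k) ≤ 1 * γ := mul_le_mul' h1 h
    _ = γ := one_mul _

theorem le1 {A : Polynomial ℂ} (ht : V.valuation t0 ≤ 1)
    (h : ∀ k, V.valuation (A.coeff k) ≤ V.valuation t0 ^ k) (k : ℕ) :
    V.valuation (A.coeff k) ≤ 1 := (h k).trans (pow_le_one' ht k)

end DPR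

open DPR

namespace DPr

variable {u g u' g' : J → ℂ}

theorem u_le (D : DDat V t0 N T w) (h : DPr V t0 N J T w u g) {c : J} (hc : c ∈ T) :
    V.valuation (u c) ≤ 1 := by
  obtain ⟨A, hA, h1⟩ := h
  have h2 := ev_le (le1 D.t1.le hA) (D.w1 c hc)
  have h3 := (h1 c hc).1.trans (pow_le_one' D.t1.le N)
  have h4 : u c = (u c - A.eval (w c)) + A.eval (w c) := by ring
  rw [h4]
  exact V.valuation.map_add_le h3 h2

theorem g_le (D : DDat V t0 N T w) (h : DPr V t0 N J T w u g) {c : J} (hc : c ∈ T) :
    V.valuation (g c) ≤ 1 := by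
  obtain ⟨A, hA, h1⟩ := h
  have h2 := ev_le (fun k => co_le (le1 D.t1.le hA k)) (D.w1 c hc)
  have h3 := (h1 c hc).2.trans (pow_le_one' D.t1.le N)
  have h4 : g c = (g c - (X * derivative A).eval (w c)) + (X * derivative A).eval (w c) := by ring
  rw [h4]
  exact V.valuation.map_add_le h3 h2

/-- only the values modulo `t0^N` matter -/
theorem congr (h : DPr V t0 N J T w u g) (hu : ∀ c ∈ T, V.valuation (u' c - u c) ≤
    V.valuation t0 ^ N) (hg : ∀ c ∈ T, V.valuation (g' c - g c) ≤ V.valuation t0 ^ N) :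
    DPr V t0 N J T w u' g' := by
  obtain ⟨A, hA, h1⟩ := h
  refine ⟨A, hA, fun c hc => ⟨?_, ?_⟩⟩
  · have h2 : u' c - A.eval (w c) = (u' c - u c) + (u c - A.eval (w c)) := by ring
    rw [h2]
    exact V.valuation.map_add_le (hu c hc) (h1 c hc).1
  · have h2 : g' c - (X * derivative A).eval (w c) =
        (g' c - g c) + (g c - (X * derivative A).eval (w c)) := by ring
    rw [h2]
    exact V.valuation.map_add_le (hg c hc) (h1 c hc).2

theorem congr_eq (h : DPr V t0 N J T w u g) (hu : ∀ c ∈ T, u' c = u c) (hg : ∀ c ∈ T, g' c = g c) :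
    DPr V t0 N J T w u' g' := by
  refine h.congr (fun c hc => ?_) (fun c hc => ?_)
  · rw [hu c hc, sub_self, map_zero]
    exact zero_le
  · rw [hg c hc, sub_self, map_zero]
    exact zero_le

theorem const {b : ℂ} (hb : V.valuation b ≤ 1) : DPr V t0 N J T w (fun _ => b) (fun _ => 0) := by
  refine ⟨C b, fun k => ?_, fun c _ => ⟨?_, ?_⟩⟩
  · rw [Polynomial.coeff_C]
    split_ifs with h
    · rw [h, pow_zero]
      exact hb
    · rw [map_zero]
      exact zero_le
  · simp
  · simp

theorem add (h : DPr V t0 N J T w u g) (h' : DPr V t0 N J T w u' g') :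
    DPr V t0 N J T w (fun c => u c + u' c) (fun c => g c + g' c) := by
  obtain ⟨A, hA, h1⟩ := h
  obtain ⟨A', hA', h1'⟩ := h'
  refine ⟨A + A', fun k => ?_, fun c hc => ⟨?_, ?_⟩⟩
  · rw [Polynomial.coeff_add]
    exact V.valuation.map_add_le (hA k) (hA' k)
  · have h2 : u c + u' c - (A + A').eval (w c) =
        (u c - A.eval (w c)) + (u' c - A'.eval (w c)) := by
      rw [Polynomial.eval_add]
      ring
    rw [h2]
    exact V.valuation.map_add_le (h1 c hc).1 (h1' c hc).1
  · have h2 : g c + g' c - (X * derivative (A + A')).eval (w c) =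
        (g c - (X * derivative A).eval (w c)) + (g' c - (X * derivative A').eval (w c)) := by
      simp only [derivative_add, mul_add, Polynomial.eval_add]
      ring
    rw [h2]
    exact V.valuation.map_add_le (h1 c hc).2 (h1' c hc).2

theorem sum {I : Type*} (s : Finset I) {u g : I → J → ℂ}
    (h : ∀ i ∈ s, DPr V t0 N J T w (u i) (g i)) :
    DPr V t0 N J T w (fun c => ∑ i ∈ s, u i c) (fun c => ∑ i ∈ s, g i c) := by
  classical
  induction s using Finset.induction_on with
  | empty =>
    simp only [Finset.sum_empty]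
    exact const (b := 0) (by rw [map_zero]; exact zero_le)
  | insert a s ha ih =>
    simp only [Finset.sum_insert ha]
    exact (h a (Finset.mem_insert_self a s)).add
      (ih fun i hi => h i (Finset.mem_insert_of_mem hi))

/-- Leibniz -/
theorem mul (D : DDat V t0 N T w) (h : DPr V t0 N J T w u g) (h' : DPr V t0 N J T w u' g') :
    DPr V t0 N J T w (fun c => u c * u' c) (fun c => g c * u' c + u c * g' c) := by
  have ku := fun c hc => h.u_le D (c := c) hc
  have kg := fun c hc => h.g_le D (c := c) hc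
  obtain ⟨A, hA, h1⟩ := h
  obtain ⟨A', hA', h1'⟩ := h'
  have e1 : ∀ c ∈ T, V.valuation (A.eval (w c)) ≤ 1 := fun c hc =>
    ev_le (le1 D.t1.le hA) (D.w1 c hc)
  have e1' : ∀ c ∈ T, V.valuation (A'.eval (w c)) ≤ 1 := fun c hc =>
    ev_le (le1 D.t1.le hA') (D.w1 c hc)
  have e2' : ∀ c ∈ T, V.valuation ((X * derivative A').eval (w c)) ≤ 1 := fun c hc =>
    ev_le (fun k => co_le (le1 D.t1.le hA' k)) (D.w1 c hc)
  have m1 : ∀ {a b : ℂ}, V.valuation a ≤ 1 → V.valuation b ≤ V.valuation t0 ^ N →
      V.valuation (a * b) ≤ V.valuation t0 ^ N := by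
    intro a b ha hb
    rw [map_mul]
    calc V.valuation a * V.valuation b ≤ 1 * V.valuation t0 ^ N := mul_le_mul' ha hb
      _ = _ := one_mul _
  refine ⟨A * A', fun k => ?_, fun c hc => ⟨?_, ?_⟩⟩
  · rw [Polynomial.coeff_mul]
    refine V.valuation.map_sum_le fun x hx => ?_
    rw [map_mul, ← Finset.HasAntidiagonal.mem_antidiagonal.1 hx, pow_add]
    exact mul_le_mul' (hA _) (hA' _)
  · have h2 : u c * u' c - (A * A').eval (w c) =
        u c * (u' c - A'.eval (w c)) + A'.eval (w c) * (u c - A.eval (w c)) := by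
      rw [Polynomial.eval_mul]
      ring
    rw [h2]
    exact V.valuation.map_add_le (m1 (ku c hc) (h1' c hc).1) (m1 (e1' c hc) (h1 c hc).1)
  · have h2 : g c * u' c + u c * g' c - (X * derivative (A * A')).eval (w c) =
        (g c * (u' c - A'.eval (w c)) + A'.eval (w c) * (g c - (X * derivative A).eval (w c))) +
        (u c * (g' c - (X * derivative A').eval (w c)) +
          (X * derivative A').eval (w c) * (u c - A.eval (w c))) := by
      simp only [derivative_mul, mul_add, Polynomial.eval_add, Polynomial.eval_mul,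
        Polynomial.eval_X]
      ring
    rw [h2]
    refine V.valuation.map_add_le (V.valuation.map_add_le (m1 (kg c hc) (h1' c hc).1)
      (m1 (e1' c hc) (h1 c hc).2)) (V.valuation.map_add_le (m1 (ku c hc) (h1' c hc).2)
      (m1 (e2' c hc) (h1 c hc).1))

theorem pow (D : DDat V t0 N T w) (h : DPr V t0 N J T w u g) (n : ℕ) :
    DPr V t0 N J T w (fun c => u c ^ n) (fun c => n * u c ^ (n - 1) * g c) := by
  induction n with
  | zero =>
    refine (const (b := 1) (by rw [map_one])).congr_eq (fun c _ => pow_zero _) fun c _ => ?_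
    simp
  | succ n ih =>
    refine (ih.mul D h).congr_eq (fun c _ => pow_succ _ _) fun c _ => ?_
    rcases n with _ | n
    · simp
    · simp only [Nat.add_sub_cancel]
      push_cast
      ring

theorem smul (D : DDat V t0 N T w) {b : ℂ} (hb : V.valuation b ≤ 1) (h : DPr V t0 N J T w u g) :
    DPr V t0 N J T w (fun c => b * u c) (fun c => b * g c) := by
  refine ((const (w := w) (T := T) (t0 := t0) (N := N) (J := J) hb).mul D h).congr_eq (fun c _ => rfl)
    fun c _ => ?_
  ring

/-- a polynomial in `u` with integral coefficients -/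
theorem poly (D : DDat V t0 N T w) (h : DPr V t0 N J T w u g) (n : ℕ) {b : ℕ → ℂ}
    (hb : ∀ j < n, V.valuation (b j) ≤ 1) :
    DPr V t0 N J T w (fun c => ∑ j ∈ Finset.range n, b j * u c ^ j)
      (fun c => (∑ j ∈ Finset.range n, b j * (j * u c ^ (j - 1))) * g c) := by
  refine (sum (Finset.range n) (u := fun j c => b j * u c ^ j)
    (g := fun j c => b j * (j * u c ^ (j - 1) * g c)) fun j hj =>
    (h.pow D j).smul D (hb j (Finset.mem_range.1 hj))).congr_eq (fun c _ => rfl) fun c _ => ?_
  rw [Finset.sum_mul]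
  refine Finset.sum_congr rfl fun j _ => ?_
  ring

/-- uniqueness of the logarithmic derivative -/
theorem uniq (D : DDat V t0 N T w) (h : DPr V t0 N J T w u g) (h' : DPr V t0 N J T w u g') {c : J}
    (hc : c ∈ T) : V.valuation (g c - g' c) ≤ V.valuation t0 ^ N := by
  obtain ⟨A, hA, h1⟩ := h
  obtain ⟨A', hA', h1'⟩ := h'
  set B : Polynomial ℂ := A - A' with hB
  have hBk : ∀ k, V.valuation (B.coeff k) ≤ V.valuation t0 ^ k := by
    intro k
    rw [hB, Polynomial.coeff_sub]
    exact V.valuation.map_sub_le (hA k) (hA' k)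
  have hBN : ∀ k, N ≤ k → V.valuation (B.coeff k) ≤ V.valuation t0 ^ N := fun k hk =>
    (hBk k).trans (pow_le_pow_right_of_le_one' D.t1.le hk)
  have hev : ∀ c ∈ T, V.valuation (B.eval (w c)) ≤ V.valuation t0 ^ N := by
    intro c hc
    have h2 : B.eval (w c) = (u c - A'.eval (w c)) - (u c - A.eval (w c)) := by
      rw [hB, Polynomial.eval_sub]
      ring
    rw [h2]
    exact V.valuation.map_sub_le (h1' c hc).1 (h1 c hc).1
  -- the truncated sum
  have htr : ∀ c ∈ T, V.valuation (∑ k ∈ Finset.range N, B.coeff k * w c ^ k) ≤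
      V.valuation t0 ^ N := by
    intro c hc
    have h2 := hev c hc
    have hn : B.natDegree < N + (B.natDegree + 1) := by omega
    rw [Polynomial.eval_eq_sum_range' hn, Finset.sum_range_add] at h2
    have h3 : V.valuation (∑ k ∈ Finset.range (B.natDegree + 1),
        B.coeff (N + k) * w c ^ (N + k)) ≤ V.valuation t0 ^ N := by
      refine V.valuation.map_sum_le fun k _ => ?_
      rw [map_mul, map_pow]
      calc V.valuation (B.coeff (N + k)) * V.valuation (w c) ^ (N + k)
          ≤ V.valuation t0 ^ N * 1 :=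
            mul_le_mul' (hBN _ (Nat.le_add_right _ _)) (pow_le_one' (D.w1 c hc) _)
        _ = _ := mul_one _
    have h4 := V.valuation.map_sub_le h2 h3
    rwa [add_sub_cancel_right] at h4
  have hr : ∀ r < N, V.valuation (B.coeff r) ≤ V.valuation t0 ^ N := by
    intro r hr
    have hpw : ∀ k < N, ∑ c ∈ T, w c ^ (N - r + k) = if k = r then (N : ℂ) else 0 := by
      intro k hk
      split_ifs with hkr
      · have h5 : N - r + k = N := by omega
        rw [h5, Finset.sum_congr rfl D.wN, Finset.sum_const, D.card]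
        simp
      · rcases lt_or_ge (N - r + k) N with h6 | h6
        · exact D.sum _ (by omega) h6
        · have h7 : N - r + k = N + (k - r) := by omega
          rw [h7]
          have h8 : ∀ c ∈ T, w c ^ (N + (k - r)) = w c ^ (k - r) := by
            intro c hc
            rw [pow_add, D.wN c hc, one_mul]
          rw [Finset.sum_congr rfl h8]
          exact D.sum _ (by omega) (by omega)
    have h9 : (N : ℂ) * B.coeff r =
        ∑ c ∈ T, w c ^ (N - r) * ∑ k ∈ Finset.range N, B.coeff k * w c ^ k := by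
      symm
      calc ∑ c ∈ T, w c ^ (N - r) * ∑ k ∈ Finset.range N, B.coeff k * w c ^ k
          = ∑ k ∈ Finset.range N, B.coeff k * ∑ c ∈ T, w c ^ (N - r + k) := by
            simp only [Finset.mul_sum]
            rw [Finset.sum_comm]
            refine Finset.sum_congr rfl fun k _ => Finset.sum_congr rfl fun c _ => ?_
            rw [pow_add]
            ring
        _ = ∑ k ∈ Finset.range N, B.coeff k * (if k = r then (N : ℂ) else 0) :=
            Finset.sum_congr rfl fun k hk => by rw [hpw k (Finset.mem_range.1 hk)]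
        _ = (N : ℂ) * B.coeff r := by
            simp only [mul_ite, mul_zero]
            rw [Finset.sum_ite_eq' (Finset.range N) r, if_pos (Finset.mem_range.2 hr)]
            ring
    have h10 : V.valuation ((N : ℂ) * B.coeff r) ≤ V.valuation t0 ^ N := by
      rw [h9]
      refine V.valuation.map_sum_le fun c hc => ?_
      rw [map_mul, map_pow]
      calc V.valuation (w c) ^ (N - r) *
            V.valuation (∑ k ∈ Finset.range N, B.coeff k * w c ^ k)
          ≤ 1 * V.valuation t0 ^ N := mul_le_mul' (pow_le_one' (D.w1 c hc) _) (htr c hc)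
        _ = _ := one_mul _
    rwa [map_mul, D.vN, one_mul] at h10
  have hall : ∀ k, V.valuation (B.coeff k) ≤ V.valuation t0 ^ N := fun k =>
    (lt_or_ge k N).elim (hr k) (hBN k)
  have h11 := ev_le (fun k => co_le (hall k)) (D.w1 c hc)
  have h12 : g c - g' c = (g c - (X * derivative A).eval (w c)) -
      (g' c - (X * derivative A').eval (w c)) + (X * derivative B).eval (w c) := by
    rw [hB, derivative_sub, mul_sub, Polynomial.eval_sub]
    ring
  rw [h12]
  exact V.valuation.map_add_le (V.valuation.map_sub_le (h1 c hc).2 (h1' c hc).2) h11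

/-! ### the logarithmic form -/

theorem lmul (D : DDat V t0 N T w) {b b' : J → ℂ} (h : DPr V t0 N J T w u fun c => u c * b c)
    (h' : DPr V t0 N J T w u' fun c => u' c * b' c) :
    DPr V t0 N J T w (fun c => u c * u' c) fun c => u c * u' c * (b c + b' c) := by
  refine (h.mul D h').congr_eq (fun c _ => rfl) fun c _ => ?_
  ring

theorem lpow (D : DDat V t0 N T w) {b : J → ℂ} (h : DPr V t0 N J T w u fun c => u c * b c) (n : ℕ) :
    DPr V t0 N J T w (fun c => u c ^ n) fun c => u c ^ n * (n * b c) := by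
  refine (h.pow D n).congr_eq (fun c _ => rfl) fun c _ => ?_
  rcases n with _ | n
  · simp
  · simp only [Nat.add_sub_cancel]
    push_cast
    ring

theorem lprod (D : DDat V t0 N T w) {I : Type*} (s : Finset I) {u b : I → J → ℂ} (n : I → ℕ)
    (h : ∀ i ∈ s, DPr V t0 N J T w (u i) fun c => u i c * b i c) :
    DPr V t0 N J T w (fun c => ∏ i ∈ s, u i c ^ n i)
      fun c => (∏ i ∈ s, u i c ^ n i) * ∑ i ∈ s, n i * b i c := by
  classical
  induction s using Finset.induction_on with
  | empty =>
    simp only [Finset.prod_empty, Finset.sum_empty, mul_zero]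
    exact const (b := 1) (by rw [map_one])
  | insert a s ha ih =>
    simp only [Finset.prod_insert ha, Finset.sum_insert ha]
    exact ((h a (Finset.mem_insert_self a s)).lpow D (n a)).lmul D
      (ih fun i hi => h i (Finset.mem_insert_of_mem hi))

/-- from `(u, g)` to the logarithmic form, `b = g / u` -/
theorem log (h : DPr V t0 N J T w u g) (hu : ∀ c ∈ T, V.valuation (u c) = 1) :
    DPr V t0 N J T w u fun c => u c * (g c / u c) := by
  refine h.congr_eq (fun c _ => rfl) fun c hc => ?_
  have h1 : u c ≠ 0 := by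
    intro h2
    have h3 := hu c hc
    rw [h2, map_zero] at h3
    exact zero_ne_one h3
  field_simp

end DPr

/-- the logarithmic derivative of a `p`-th power is `0` modulo `p` -/
theorem logd (D : DDat V t0 N T w) {I : Type*} (s : Finset I) {u b : I → J → ℂ} (n : I → ℕ)
    (h : ∀ i ∈ s, DPr V t0 N J T w (u i) fun c => u i c * b i c)
    (hu : ∀ i ∈ s, ∀ c ∈ T, V.valuation (u i c) = 1) (p : ℕ)
    (hp : V.valuation (p : ℂ) ≤ V.valuation t0 ^ N) {κ : ℂ} (hκ : V.valuation κ ≤ 1)
    {y gy : J → ℂ} (hy : DPr V t0 N J T w y gy)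
    (he : ∀ c ∈ T, ∏ i ∈ s, u i c ^ n i = κ * y c ^ p) {c : J} (hc : c ∈ T) :
    V.valuation (∑ i ∈ s, n i * b i c) ≤ V.valuation t0 ^ N := by
  have h1 := DPr.lprod D s n h
  have h2 := ((hy.pow D p).smul D hκ).congr_eq he fun c _ => rfl
  have h3 := h1.uniq D h2 hc
  have h4 : V.valuation (κ * ((p : ℂ) * y c ^ (p - 1) * gy c)) ≤ V.valuation t0 ^ N := by
    rw [map_mul, map_mul, map_mul, map_pow]
    calc V.valuation κ * (V.valuation (p : ℂ) * V.valuation (y c) ^ (p - 1) *
          V.valuation (gy c))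
        ≤ 1 * (V.valuation t0 ^ N * 1 * 1) :=
          mul_le_mul' hκ (mul_le_mul' (mul_le_mul' hp (pow_le_one' (hy.u_le D hc) _))
            (hy.g_le D hc))
      _ = _ := by rw [one_mul, mul_one, mul_one]
  have h5 : V.valuation ((∏ i ∈ s, u i c ^ n i) * ∑ i ∈ s, n i * b i c) ≤
      V.valuation t0 ^ N := by
    have h6 := V.valuation.map_add_le h3 h4
    rwa [sub_add_cancel] at h6
  have h7 : V.valuation (∏ i ∈ s, u i c ^ n i) = 1 := by
    rw [map_prod]
    refine Finset.prod_eq_one fun i hi => ?_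
    rw [map_pow, hu i hi c hc, one_pow]
  rwa [map_mul, h7, one_mul] at h5

/-! ### expansions in a uniformizer of a totally tamely ramified extension -/

/-- terms with distinct valuations -/
theorem dist_le {I : Type*} (s : Finset I) (f : I → ℂ)
    (hd : ∀ i ∈ s, ∀ j ∈ s, i ≠ j → V.valuation (f i) = V.valuation (f j) → f i = 0) {j : I}
    (hj : j ∈ s) : V.valuation (f j) ≤ V.valuation (∑ i ∈ s, f i) := by
  classical
  obtain ⟨m, hm, hmax⟩ := s.exists_max_image (fun i => V.valuation (f i)) ⟨j, hj⟩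
  refine (hmax j hj).trans ?_
  by_cases h0 : f m = 0
  · rw [h0, map_zero]
    exact zero_le
  have h1 : V.valuation (∑ i ∈ s.erase m, f i) < V.valuation (f m) := by
    refine V.valuation.map_sum_lt ((Valuation.ne_zero_iff _).2 h0) fun i hi => ?_
    have hi' := Finset.mem_of_mem_erase hi
    refine lt_of_le_of_ne (hmax i hi') fun h2 => h0 ?_
    exact hd m hm i hi' (Finset.ne_of_mem_erase hi).symm h2.symm
  rw [← Finset.add_sum_erase s f hm, V.valuation.map_add_eq_of_lt_left h1]

section bas

variable {E : Type} [Field E] [Algebra E ℂ] {pp Pi : ℂ}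

theorem bas_val (hN : 0 < N) (hv : V.valuation Pi ^ N = V.valuation pp)
    (hp : V.valuation pp < 1) (hp0 : pp ≠ 0)
    (hE : ∀ x : E, x ≠ 0 → ∃ k : ℤ, V.valuation (algebraMap E ℂ x) = V.valuation pp ^ k)
    (b : ℕ → E) :
    (∀ i ∈ Finset.range N, ∀ j ∈ Finset.range N, i ≠ j →
      V.valuation (algebraMap E ℂ (b i) * Pi ^ i) = V.valuation (algebraMap E ℂ (b j) * Pi ^ j) →
      algebraMap E ℂ (b i) * Pi ^ i = 0) ∧
    ∀ j < N, V.valuation (algebraMap E ℂ (b j) * Pi ^ j) ≤ 1 →
      V.valuation (algebraMap E ℂ (b j)) ≤ 1 := by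
  have hvp0 : V.valuation pp ≠ 0 := (Valuation.ne_zero_iff _).2 hp0
  have hvP0 : V.valuation Pi ≠ 0 := by
    intro h
    rw [h, zero_pow hN.ne'] at hv
    exact hvp0 hv.symm
  have hvP1 : V.valuation Pi < 1 := by
    by_contra h
    push Not at h
    have h2 := one_le_pow_of_one_le' h N
    rw [hv] at h2
    exact absurd hp (not_lt.2 h2)
  have hval : ∀ j, b j ≠ 0 → ∃ k : ℤ, V.valuation (algebraMap E ℂ (b j)) =
      V.valuation Pi ^ ((N : ℤ) * k) ∧ V.valuation (algebraMap E ℂ (b j) * Pi ^ j) =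
        V.valuation Pi ^ ((N : ℤ) * k + j) := by
    intro j hj
    obtain ⟨k, hk⟩ := hE (b j) hj
    have h1 : V.valuation (algebraMap E ℂ (b j)) = V.valuation Pi ^ ((N : ℤ) * k) := by
      rw [hk, ← hv, zpow_mul, zpow_natCast]
    refine ⟨k, h1, ?_⟩
    rw [map_mul, map_pow, h1, zpow_add₀ hvP0, zpow_natCast]
  have hinj := zpow_right_injective₀ (zero_lt_iff.2 hvP0) hvP1.ne
  refine ⟨fun i hi j hj hij he => ?_, fun j hj h => ?_⟩
  · by_contra h0
    have hi0 : b i ≠ 0 := by
      intro h1
      apply h0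
      rw [h1, map_zero, zero_mul]
    have hj0 : b j ≠ 0 := by
      intro h1
      rw [h1, map_zero, zero_mul, map_zero, Valuation.zero_iff] at he
      exact h0 he
    obtain ⟨k, -, hk⟩ := hval i hi0
    obtain ⟨k', -, hk'⟩ := hval j hj0
    rw [hk, hk'] at he
    have h2 := hinj he
    rw [Finset.mem_range] at hi hj
    apply hij
    have h3 : (N : ℤ) ∣ (i : ℤ) - j := ⟨k' - k, by linear_combination h2⟩
    have h4 : (i : ℤ) - j = 0 := Int.eq_zero_of_abs_lt_dvd h3 (by rw [abs_lt]; omega)
    omega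
  · by_cases h0 : b j = 0
    · rw [h0, map_zero, map_zero]
      exact zero_le
    obtain ⟨k, hk1, hk2⟩ := hval j h0
    rw [hk2] at h
    rw [hk1]
    have h5 : 0 ≤ (N : ℤ) * k + j := by
      by_contra h6
      push Not at h6
      have h7 := one_lt_zpow_of_neg₀ (zero_lt_iff.2 hvP0) hvP1 h6
      exact absurd h (not_le.2 h7)
    have h8 : 0 ≤ k := by
      by_contra h9
      push Not at h9
      have h10 : (N : ℤ) * k ≤ (N : ℤ) * (-1) :=
        mul_le_mul_of_nonneg_left (by omega) (by positivity)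
      omega
    have h11 : 0 ≤ (N : ℤ) * k := by positivity
    exact zpow_le_one₀ (zero_lt_iff.2 hvP0) hvP1.le h11

/-- (BAS) the elements of the integral closure are polynomials in `Pi` with integral coefficients -/
theorem bas (hN : 0 < N) (hv : V.valuation Pi ^ N = V.valuation pp)
    (hp : V.valuation pp < 1) (hp0 : pp ≠ 0)
    (hE : ∀ x : E, x ≠ 0 → ∃ k : ℤ, V.valuation (algebraMap E ℂ x) = V.valuation pp ^ k)
    (W : Submodule E ℂ) [Module.Finite E W] (hW : Module.finrank E W ≤ N)
    (hPi : ∀ j < N, Pi ^ j ∈ W) {y : ℂ} (hy : y ∈ W) (hy1 : V.valuation y ≤ 1) :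
    ∃ b : ℕ → E, y = ∑ j ∈ Finset.range N, algebraMap E ℂ (b j) * Pi ^ j ∧
      ∀ j < N, V.valuation (algebraMap E ℂ (b j)) ≤ 1 := by
  classical
  have hvp0 : V.valuation pp ≠ 0 := (Valuation.ne_zero_iff _).2 hp0
  have hPi0 : Pi ≠ 0 := by
    intro h
    rw [h, map_zero, zero_pow hN.ne'] at hv
    exact hvp0 hv.symm
  let e : Fin N → W := fun j => ⟨Pi ^ (j : ℕ), hPi j j.2⟩
  -- sums over `Fin N`
  have hs : ∀ c : Fin N → E, (((∑ j, c j • e j : W)) : ℂ) = ∑ j ∈ Finset.range N,
      algebraMap E ℂ (if h : j < N then c ⟨j, h⟩ else 0) * Pi ^ j := by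
    intro c
    rw [← Fin.sum_univ_eq_sum_range fun j : ℕ =>
      algebraMap E ℂ (if h : j < N then c ⟨j, h⟩ else 0) * Pi ^ j]
    rw [AddSubmonoidClass.coe_finsetSum]
    refine Finset.sum_congr rfl fun j _ => ?_
    rw [dif_pos j.2, Submodule.coe_smul, Algebra.smul_def]
  have hli : LinearIndependent E e := by
    rw [Fintype.linearIndependent_iff]
    intro c hc j
    have h1 := hs c
    rw [hc] at h1
    have h2 := (bas_val hN hv hp hp0 hE fun j => if h : j < N then c ⟨j, h⟩ else 0).1
    have h3 := dist_le (V := V) (Finset.range N) (fun j =>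
      algebraMap E ℂ (if h : j < N then c ⟨j, h⟩ else 0) * Pi ^ j) h2
      (Finset.mem_range.2 j.2)
    rw [← h1, ZeroMemClass.coe_zero, map_zero] at h3
    have h4 : V.valuation (algebraMap E ℂ (if h : (j : ℕ) < N then c ⟨j, h⟩ else 0) *
        Pi ^ (j : ℕ)) = 0 := le_antisymm h3 zero_le
    rw [Valuation.zero_iff, mul_eq_zero] at h4
    rcases h4 with h4 | h4
    · rw [dif_pos j.2] at h4
      exact (map_eq_zero _).1 h4
    · exact absurd h4 (pow_ne_zero _ hPi0)
  have hcard : Fintype.card (Fin N) = Module.finrank E W := by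
    refine le_antisymm ?_ ?_
    · exact hli.fintype_card_le_finrank
    · rw [Fintype.card_fin]
      exact hW
  have hspan := hli.span_eq_top_of_card_eq_finrank' hcard
  have hyS : (⟨y, hy⟩ : W) ∈ Submodule.span E (Set.range e) := by
    rw [hspan]
    trivial
  obtain ⟨c, hc⟩ := (Submodule.mem_span_range_iff_exists_fun E).1 hyS
  have h5 := hs c
  rw [hc] at h5
  refine ⟨fun j => if h : j < N then c ⟨j, h⟩ else 0, h5, ?_⟩
  obtain ⟨h6, h7⟩ := bas_val hN hv hp hp0 hE fun j => if h : j < N then c ⟨j, h⟩ else 0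
  intro j hj
  refine h7 j hj ?_
  have h8 := dist_le (V := V) (Finset.range N) (fun j =>
      algebraMap E ℂ (if h : j < N then c ⟨j, h⟩ else 0) * Pi ^ j) h6
      (Finset.mem_range.2 hj)
  refine h8.trans ?_
  rw [← h5]
  exact hy1

end bas

end

end Pool.Agent.TWQ
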