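import Pool.Agent.TWI.StI1
import Pool.Agent.TWT.KEY
import Pool.Agent.TWT.THT
import Pool.Agent.TWQ.DPR

/-!
# TWQ, module EXQ (helper3): functions at the points `z + S c` are `D`-pairs (one lattice)
-/

set_option autoImplicit false

open WeierstrassCurve

namespace Pool.Agent.TWQ

open _root_.MU3 Pool.Agent.MU3A Pool.Agent.MU3B Pool.Agent.MUX Pool.Agent.MUXU Pool.Agent.TWT
open Pool.Agent.TWI
open Pool.Agent.MUXV (GR InK tX)

noncomputable section

variable {V : ValuationSubring ℂ}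

/-- (EXQ) Taylor expansions at `z` give `D`-pairs; `D = dW a2 a4` is the derivation `d/dz`. -/
theorem exq {L : PeriodPair} {a2 a4 : V} {n : ℕ} {lam : ℕ → ℂ}
    (hlam : HasTyI V L (n + 1) a2 a4 lam) {J : Type} {T : Finset J} {ζ S : J → ℂ}
    (hζ : ∀ x ∈ T, V.valuation (ζ x) ≤ 1) {w0 : ℂ} (hw : V.valuation w0 < 1)
    (hS : ∀ x ∈ T, InK V L (xn L) (S x) ∧ S x ∉ L.lattice ∧
      V.valuation (tX (xn L) (yy L) (S x)) = V.valuation w0 ∧
      V.valuation (vpi lam (n + 1) (tX (xn L) (yy L) (S x)) - ζ x * w0) ≤ V.valuation w0 ^ n)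
    {z : ℂ} (hz : ¬ InK V L (xn L) z) (f : MvPolynomial (Fin 2) V) :
    DPr V w0 n J T ζ (fun x => MvPolynomial.aeval ![xn L (z + S x), yy L (z + S x)] f)
      (fun x => ζ x * w0 *
        MvPolynomial.aeval ![xn L (z + S x), yy L (z + S x)] (dW a2 a4 f)) := by
  have hAint : ∀ (f : MvPolynomial (Fin 2) V) (k : ℕ), k < n + 1 →
      V.valuation (dd L a2 a4 f k z) ≤ 1 := fun f k hk => hlam.dint z hz f k hk
  have hcw : ∀ x ∈ T, V.valuation (ζ x * w0) ≤ V.valuation w0 := by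
    intro x hx
    rw [map_mul]
    exact (mul_le_mul' (hζ x hx) le_rfl).trans_eq (one_mul _)
  have tay' : ∀ (f : MvPolynomial (Fin 2) V), ∀ x ∈ T,
      V.valuation (MvPolynomial.aeval ![xn L (z + S x), yy L (z + S x)] f -
        ∑ k ∈ Finset.range (n + 1), dd L a2 a4 f k z * (ζ x * w0) ^ k) ≤
      V.valuation w0 ^ n := by
    intro f x hx
    obtain ⟨hK, hL, hτx, hadv⟩ := hS x hx
    have h3 := hlam.tay (S x) hK hL z hz f
    rw [hτx] at h3
    have h3' := h3.trans (pow_le_pow_right_of_le_one' hw.le (Nat.le_succ n))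
    have h5 : V.valuation (vpi lam (n + 1) (tX (xn L) (yy L) (S x))) ≤ 1 := by
      unfold vpi
      apply KEY.sum_le'
      intro j _
      rw [map_mul, map_pow, hτx]
      exact (mul_le_mul' (hlam.int j) (pow_le_one' hw.le j)).trans_eq (one_mul _)
    have e : MvPolynomial.aeval ![xn L (z + S x), yy L (z + S x)] f -
        ∑ k ∈ Finset.range (n + 1), dd L a2 a4 f k z * (ζ x * w0) ^ k =
        (MvPolynomial.aeval ![xn L (z + S x), yy L (z + S x)] f -
        ∑ k ∈ Finset.range (n + 1), MvPolynomial.aeval ![xn L z, yy L z] ((dW a2 a4)^[k] f) /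
          (k.factorial : ℂ) * vpi lam (n + 1) (tX (xn L) (yy L) (S x)) ^ k) +
        ∑ k ∈ Finset.range (n + 1), dd L a2 a4 f k z *
          (vpi lam (n + 1) (tX (xn L) (yy L) (S x)) ^ k - (ζ x * w0) ^ k) := by
      simp only [dd, mul_sub, Finset.sum_sub_distrib]
      ring
    rw [e]
    apply KEY.add_le' h3'
    apply KEY.sum_le'
    intro k hk
    rw [map_mul]
    refine (mul_le_mul' (hAint _ k (Finset.mem_range.1 hk)) (KEY.pow_close h5 ?_ hadv k)).trans_eq
      (one_mul _)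
    exact (hcw x hx).trans hw.le
  have co : ∀ k, (∑ j ∈ Finset.range (n + 1),
      Polynomial.C (dd L a2 a4 f j z * w0 ^ j) * Polynomial.X ^ j).coeff k =
        if k < n + 1 then dd L a2 a4 f k z * w0 ^ k else 0 := by
    intro k
    rw [Polynomial.finsetSum_coeff]
    simp only [Polynomial.coeff_C_mul, Polynomial.coeff_X_pow, mul_ite, mul_one, mul_zero]
    rw [Finset.sum_ite_eq (Finset.range (n + 1)) k]
    simp only [Finset.mem_range]
  refine ⟨∑ k ∈ Finset.range (n + 1), Polynomial.C (dd L a2 a4 f k z * w0 ^ k) *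
    Polynomial.X ^ k, fun k => ?_, fun x hx => ⟨?_, ?_⟩⟩
  · rw [co]
    split_ifs with hk
    · rw [map_mul, map_pow]
      exact (mul_le_mul' (hAint f k hk) le_rfl).trans_eq (one_mul _)
    · rw [map_zero]
      exact zero_le
  · have e : (∑ k ∈ Finset.range (n + 1), Polynomial.C (dd L a2 a4 f k z * w0 ^ k) *
        Polynomial.X ^ k).eval (ζ x) =
        ∑ k ∈ Finset.range (n + 1), dd L a2 a4 f k z * (ζ x * w0) ^ k := by
      rw [Polynomial.eval_finset_sum]
      refine Finset.sum_congr rfl fun k _ => ?_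
      simp only [Polynomial.eval_mul, Polynomial.eval_C, Polynomial.eval_pow, Polynomial.eval_X]
      ring
    rw [e]
    exact tay' f x hx
  · have e : (Polynomial.X * Polynomial.derivative (∑ k ∈ Finset.range (n + 1),
        Polynomial.C (dd L a2 a4 f k z * w0 ^ k) * Polynomial.X ^ k)).eval (ζ x) =
        ∑ k ∈ Finset.range (n + 1), (k : ℂ) * dd L a2 a4 f k z * (ζ x * w0) ^ k := by
      rw [Polynomial.derivative_sum, Finset.mul_sum, Polynomial.eval_finset_sum]
      refine Finset.sum_congr rfl fun k _ => ?_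
      rw [Polynomial.derivative_C_mul_X_pow]
      simp only [Polynomial.eval_mul, Polynomial.eval_C, Polynomial.eval_pow, Polynomial.eval_X]
      rcases k with _ | k
      · simp
      · simp only [Nat.add_sub_cancel]
        ring
    rw [e]
    have e4 : (ζ x * w0 : ℂ) * ∑ k ∈ Finset.range (n + 1),
          dd L a2 a4 (dW a2 a4 f) k z * (ζ x * w0) ^ k =
        ∑ k ∈ Finset.range (n + 1), (k : ℂ) * dd L a2 a4 f k z * (ζ x * w0) ^ k +
        dd L a2 a4 (dW a2 a4 f) n z * (ζ x * w0) ^ (n + 1) := by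
      rw [Finset.mul_sum, Finset.sum_range_succ, Finset.sum_range_succ']
      congr 1
      · rw [Nat.cast_zero, zero_mul, zero_mul, add_zero]
        refine Finset.sum_congr rfl fun k _ => ?_
        unfold dd
        rw [← Function.iterate_succ_apply, Nat.factorial_succ]
        have h5 : ((k.factorial : ℕ) : ℂ) ≠ 0 := Nat.cast_ne_zero.2 (Nat.factorial_ne_zero _)
        have h6 : ((k : ℂ) + 1) ≠ 0 := Nat.cast_add_one_ne_zero k
        push_cast
        field_simp
        rw [pow_succ]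
        ring
      · ring
    have e5 : ζ x * w0 * MvPolynomial.aeval ![xn L (z + S x), yy L (z + S x)] (dW a2 a4 f) -
        ∑ k ∈ Finset.range (n + 1), (k : ℂ) * dd L a2 a4 f k z * (ζ x * w0) ^ k =
        (ζ x * w0) * (MvPolynomial.aeval ![xn L (z + S x), yy L (z + S x)] (dW a2 a4 f) -
          ∑ k ∈ Finset.range (n + 1), dd L a2 a4 (dW a2 a4 f) k z * (ζ x * w0) ^ k) +
        dd L a2 a4 (dW a2 a4 f) n z * (ζ x * w0) ^ (n + 1) := by
      rw [mul_sub, e4]
      ring
    rw [e5]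
    apply KEY.add_le'
    · rw [map_mul]
      exact (mul_le_mul' ((hcw x hx).trans hw.le) (tay' (dW a2 a4 f) x hx)).trans_eq (one_mul _)
    · rw [map_mul, map_pow]
      refine (mul_le_mul' (hAint (dW a2 a4 f) n (by omega))
        (pow_le_pow_left' (hcw x hx) _)).trans ?_
      rw [one_mul]
      exact pow_le_pow_right_of_le_one' hw.le (Nat.le_succ n)

/-- (EXT) `Θ` at the points `z + S c`, in logarithmic form -/
theorem exq_theta {L : PeriodPair} {a2 a4 : V} (hG : GRa V L a2 a4) {n : ℕ} {lam : ℕ → ℂ}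
    (hlam : HasTyI V L (n + 1) a2 a4 lam) {J : Type} {T : Finset J} {ζ S : J → ℂ}
    (hζ : ∀ x ∈ T, V.valuation (ζ x) ≤ 1) {w0 : ℂ} (hw : V.valuation w0 < 1)
    (hS : ∀ x ∈ T, InK V L (xn L) (S x) ∧ S x ∉ L.lattice ∧
      V.valuation (tX (xn L) (yy L) (S x)) = V.valuation w0 ∧
      V.valuation (vpi lam (n + 1) (tX (xn L) (yy L) (S x)) - ζ x * w0) ≤ V.valuation w0 ^ n)
    {a : ℕ} {H : Finset ℂ} (ha : 1 < a) (hva : V.valuation (a : ℂ) = 1)
    (hH : IsHalf L (a : ℂ) H) {z : ℂ} (hz : ¬ InK V L (xn L) z)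
    (haz : ¬ InK V L (xn L) (a * z)) :
    (∀ x ∈ T, V.valuation (ThetaH L H (z + S x)) = 1 ∧
      V.valuation (dlX L a (z + S x)) ≤ 1) ∧
    DPr V w0 n J T ζ (fun x => ThetaH L H (z + S x))
      (fun x => ThetaH L H (z + S x) * (ζ x * w0 * dlX L a (z + S x))) := by
  obtain ⟨W, ξ, G, -, -⟩ := hG
  obtain ⟨θ, hθ⟩ := t_THT V W L ξ G a H ha hva hH a2 a4
  have hzu : ∀ u : ℂ, InK V L (xn L) u → ¬ InK V L (xn L) (z + u) := by
    intro u hu h
    exact hz ((Pool.Agent.MUXV.inK_congr G (z := z + u) (w := z)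
      (by rw [add_sub_cancel_left]; exact hu)).1 h)
  have hazu : ∀ u : ℂ, InK V L (xn L) u → ¬ InK V L (xn L) (a * (z + u)) := by
    intro u hu h
    refine haz ((Pool.Agent.MUXV.inK_congr G (z := a * (z + u)) (w := a * z) ?_).1 h)
    have e : (a : ℂ) * (z + u) - a * z = (a : ℂ) * u := by ring
    rw [e]
    exact Pool.Agent.MUXV.inK_nat G hu a
  have hT := fun (u : ℂ) (hu : InK V L (xn L) u) => hθ (z + u) (hzu u hu) (hazu u hu)
  refine ⟨fun x hx => ⟨(hT _ (hS x hx).1).2.1, (hT _ (hS x hx).1).2.2.2⟩, ?_⟩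
  refine (exq hlam hζ hw hS hz θ).congr_eq (fun x hx => ?_) fun x hx => ?_
  · exact (hT _ (hS x hx).1).1.symm
  · rw [(hT _ (hS x hx).1).2.2.1]
    ring

/-- (EXX) the coordinate `x` at the points `z + S c` -/
theorem exq_x {L : PeriodPair} {a2 a4 : V} {n : ℕ} {lam : ℕ → ℂ}
    (hlam : HasTyI V L (n + 1) a2 a4 lam) {J : Type} {T : Finset J} {ζ S : J → ℂ}
    (hζ : ∀ x ∈ T, V.valuation (ζ x) ≤ 1) {w0 : ℂ} (hw : V.valuation w0 < 1)
    (hS : ∀ x ∈ T, InK V L (xn L) (S x) ∧ S x ∉ L.lattice ∧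
      V.valuation (tX (xn L) (yy L) (S x)) = V.valuation w0 ∧
      V.valuation (vpi lam (n + 1) (tX (xn L) (yy L) (S x)) - ζ x * w0) ≤ V.valuation w0 ^ n)
    {z : ℂ} (hz : ¬ InK V L (xn L) z) :
    DPr V w0 n J T ζ (fun x => xn L (z + S x)) (fun x => ζ x * w0 * (2 * yy L (z + S x))) := by
  refine (exq hlam hζ hw hS hz (MvPolynomial.X 0)).congr_eq (fun x _ => ?_) fun x _ => ?_
  · rw [MvPolynomial.aeval_X]
    rfl
  · congr 1
    unfold dW
    simp

end

end Pool.Agent.TWQ
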