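import Pool.Agent.TWQ.StQ1
import Pool.Agent.TWQ.EXQ
import Pool.Agent.MUX.RQ0

/-!
# TWQ, module KEYQ (helper70): `x` and `Θ` at the points `pt R M i (x a_c)` are `D`-pairs
-/

set_option autoImplicit false

open WeierstrassCurve Polynomial NumberField IsDedekindDomain

namespace Pool.Agent.TWQ

open _root_.MU3 Pool.Agent.MU3A Pool.Agent.MU3B Pool.Agent.MU3C Pool.Agent.RI Pool.Agent.RID
open Pool.Agent.MUX Pool.Agent.MUXU Pool.Agent.MUXW Pool.Agent.TWT Pool.Agent.TWI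
open Pool.Agent.MU3V (cls Sub GD algDF)
open Pool.Agent.MUXV (GR InK tX)
open Pool.Agent.MUXI (IA RE AR)
open OnePoint

noncomputable section

namespace KEYQ

/-- a `D`-pair only depends on the value of `t0` -/
theorem dpr_val {V : ValuationSubring ℂ} {t0 t1 : ℂ} {N : ℕ} {J : Type} {T : Finset J}
    {w u g : J → ℂ} (h : V.valuation t1 = V.valuation t0) (h1 : DPr V t1 N J T w u g) :
    DPr V t0 N J T w u g := by
  unfold DPr at h1 ⊢
  rw [h] at h1
  exact h1

theorem inK_of {V : ValuationSubring ℂ} {L : PeriodPair} {z : ℂ} (h : ¬ InEn V L z) :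
    ¬ InK V L (xn L) z := h

end KEYQ

open KEYQ in
theorem t_KEYQ (hIDQ : S_IDQ) (hVPQ : S_VPQ) (hTEQ : S_TEQ) : S_KEYQ := by
  intro p q A B P P' V f hS ι R hR m hm x0 y0 hl w hw t0 hloc T hT i x hx
  obtain ⟨⟨-, hp, hp5, hpq, hPP, -, -, -, -, hPp, -⟩, hint, -⟩ := hIDQ p q A B P P' V f hS
  obtain ⟨hvp, -, -, hvn, -, -, -, hV⟩ := hVPQ p q A B P P' V f hS
  obtain ⟨-, hvmu, -, hVi⟩ := hV ι R hR i
  obtain ⟨hpt, hz, h2z, haz⟩ := hVi m hm x0 y0 hl x hx
  obtain ⟨-, hwm, -, -, hwr, -, hwv, -⟩ := hTEQ p q A B P P' V f hS w hw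
  obtain ⟨a2, a4, lam, hG, hlam, hL⟩ := hloc.loc i
  -- `x ∉ P`
  have hpP : ((p : ℕ) : OO A B) ∈ P := by
    have h := (hint (p : ℤ)).2 (dvd_refl _)
    simpa using h
  have hxP : x ∉ P := by
    intro h
    obtain ⟨u, v, huv⟩ := hx
    apply hPP.ne_top
    rw [Ideal.eq_top_iff_one, ← huv]
    refine P.add_mem (P.mul_mem_left _ h) (P.mul_mem_left _ ?_)
    push_cast
    exact P.mul_mem_left _ hpP
  have hq1 : q - 1 + 1 = q := by omega
  -- values
  have hvt : V.valuation t0 < 1 := by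
    by_contra h
    rw [not_lt] at h
    have h1 : 1 ≤ V.valuation t0 ^ (q - 1) := one_le_pow_of_one_le' h _
    rw [hloc.vt] at h1
    exact absurd hvp (not_lt.2 h1)
  have hvw : V.valuation (muX R i * w x * t0) = V.valuation t0 := by
    rw [map_mul, map_mul, hvmu, (hwr x hxP).2, one_mul, one_mul]
  have hlam' : HasTyI V (R.L i) (q - 1 + 1) a2 a4 lam := by
    rw [hq1]
    exact hlam
  have hζ : ∀ c ∈ T, V.valuation (w c) ≤ 1 := fun c _ => (hwv c).1
  have hS' : ∀ c ∈ T, InK V (R.L i) (xn (R.L i)) (pt R p i (x * c * y0)) ∧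
      pt R p i (x * c * y0) ∉ (R.L i).lattice ∧
      V.valuation (tX (xn (R.L i)) (yy (R.L i)) (pt R p i (x * c * y0))) =
        V.valuation (muX R i * w x * t0) ∧
      V.valuation (vpi lam (q - 1 + 1) (tX (xn (R.L i)) (yy (R.L i)) (pt R p i (x * c * y0))) -
        w c * (muX R i * w x * t0)) ≤ V.valuation (muX R i * w x * t0) ^ (q - 1) := by
    intro c hc
    have hxc : x * c ∉ P := fun h => (hPP.mem_or_mem h).elim hxP (hT.nz c hc)
    obtain ⟨h1, h2, h3, h4⟩ := hL (x * c) hxc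
    refine ⟨h1, h2, h3.trans hvw.symm, ?_⟩
    rw [hq1, hvw]
    have e : w c * (muX R i * w x * t0) = muX R i * w (x * c) * t0 := by
      rw [hwm]
      ring
    rw [e]
    exact h4.trans (pow_le_pow_right_of_le_one' hvt.le (Nat.sub_le q 1))
  have hw0 : V.valuation (muX R i * w x * t0) < 1 := hvw.trans_lt hvt
  obtain ⟨W, ξ, G, -, -⟩ := id hG
  refine ⟨?_, fun c hc => ?_, fun a H ha hac hH => ?_⟩
  · have h1 := exq_x hlam' hζ hw0 hS' (inK_of hz)
    have h2 : V.valuation (-(xn (R.L i) (pt R (m * p) i (x * x0)))) ≤ 1 := by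
      rw [Valuation.map_neg]
      exact (Pool.Agent.MUXV.int_X (inK_of hz)).2
    have h3 := (dpr_val hvw h1).add (DPr.const h2)
    refine ⟨_, h3.congr_eq (fun c _ => ?_) fun c _ => rfl⟩
    rw [hpt c, sub_eq_add_neg]
  · obtain ⟨h1, h2, h3, -⟩ := hS' c hc
    rw [hpt c, ← hvw, ← h3]
    exact (Pool.Agent.MUXV.q_YUN V W (R.L i) _ _ ξ G _ (inK_of hz) (inK_of h2z)).2 _ h1 h2
  · have hpa : ¬ (p : ℤ) ∣ (a : ℤ) := by
      intro h
      have h1 : p ∣ a := Int.natCast_dvd_natCast.1 h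
      have h2 : p ∣ Nat.gcd a (2 * m * p) := Nat.dvd_gcd h1 (Dvd.intro_left _ rfl)
      rw [hac] at h2
      exact hp.one_lt.ne' (Nat.dvd_one.1 h2)
    have hva : V.valuation (a : ℂ) = 1 := by
      have h := hvn (a : ℤ) hpa
      simpa using h
    obtain ⟨h1, h2⟩ := exq_theta hG hlam' hζ hw0 hS' ha hva hH (inK_of hz)
      (inK_of (haz a ha hac))
    refine ⟨fun c hc => ?_, ?_⟩
    · rw [hpt c]
      exact h1 c hc
    · refine (dpr_val hvw h2).congr_eq (fun c _ => ?_) fun c _ => ?_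
      · rw [hpt c]
      · rw [hpt c]

end

end Pool.Agent.TWQ
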