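import Pool.Agent.TWQ.StQ1
import Pool.Agent.TWF.UNF2

/-!
# TWQ, module KINS (helper95)

An endomorphism which is a unit at `V` is injective on the kernel of reduction (split `p`).
-/

set_option autoImplicit false

open WeierstrassCurve Polynomial NumberField IsDedekindDomain

namespace Pool.Agent.TWQ

open _root_.MU3 Pool.Agent.MU3A Pool.Agent.MU3B Pool.Agent.MU3C Pool.Agent.RI Pool.Agent.RID
open Pool.Agent.MUX Pool.Agent.MUXU Pool.Agent.MUXW Pool.Agent.TWT Pool.Agent.TWI
open Pool.Agent.MU3V (cls Sub GD algDF)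
open Pool.Agent.MUXV (GR InK tX)
open OnePoint

noncomputable section

/-- an endomorphism which is a unit at `V` is injective on the kernel of reduction -/
theorem t_KINS : S_KINS := by
  intro p A B P V f h ι R hR i x hx z hz hIn
  have hC := h.cq
  have hp := h.pp
  have : IsDomain (OO A B) := Pool.Agent.MUX.isDomain hC
  obtain ⟨i1, i2, i3, -, -, -, -⟩ := t_IDP p A B P V f h
  have hL := R.nl i
  obtain ⟨W, ξ, G⟩ := Pool.Agent.TWF.UNF.good h R hR i
  have hcm := Pool.Agent.TWF.UNF.cmo hC hL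
  -- the inverse of `x` modulo `P`
  obtain ⟨b, hb⟩ : ∃ b : OO A B, x * b - 1 ∈ P := by
    obtain ⟨c, -, hc⟩ := i1 x
    have hpc : ¬ (p : ℤ) ∣ (c : ℤ) := by
      intro h1
      have h2 : ((c : ℤ) : OO A B) ∈ P := (i2 c).2 h1
      apply hx
      have h3 : x = (x - (c : OO A B)) + ((c : ℤ) : OO A B) := by
        push_cast
        ring
      rw [h3]
      exact P.add_mem hc h2
    have h4 : IsCoprime (p : ℤ) (c : ℤ) :=
      Nat.isCoprime_iff_coprime.2 ((Nat.Prime.coprime_iff_not_dvd hp).2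
        (fun h5 => hpc (by exact_mod_cast h5)))
    obtain ⟨u, v, huv⟩ := h4
    refine ⟨((v : ℤ) : OO A B), ?_⟩
    have h5 : ((u : ℤ) : OO A B) * ((p : ℕ) : OO A B) + ((v : ℤ) : OO A B) * ((c : ℕ) : OO A B) = 1 := by
      have h6 := congrArg (fun t : ℤ => (t : OO A B)) huv
      push_cast at h6
      exact h6
    have h6 : x * ((v : ℤ) : OO A B) - 1 = ((v : ℤ) : OO A B) * (x - ((c : ℕ) : OO A B)) -
        ((u : ℤ) : OO A B) * ((p : ℕ) : OO A B) := by
      linear_combination h5
    rw [h6]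
    exact P.sub_mem (P.mul_mem_left _ hc) (P.mul_mem_left _ h.hP.mem)
  -- the points killed by `p` and `x`
  have key : ∀ u : ℂ, (p : ℂ) * u ∈ (R.L i).lattice → emb x * u ∈ (R.L i).lattice →
      InK V (R.L i) (fun z => (R.L i).weierstrassP z - 1 / 12) u → u ∈ (R.L i).lattice := by
    intro u hpu hxu hK
    refine Pool.Agent.TWF.UNF.injQ h R hR i u ?_ hK
    intro y hy
    have h1 : (x * b - 1) * y ∈ P * cjI P := Ideal.mul_mem_mul hb hy
    rw [i3] at h1
    obtain ⟨t, ht⟩ := Ideal.mem_span_singleton.1 h1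
    have h2 : emb y * u = emb (y * b) * (emb x * u) - emb t * ((p : ℂ) * u) := by
      have h3 : emb ((x * b - 1) * y) = (p : ℂ) * emb t := by
        rw [ht, Pool.Agent.MUX.emb_mul hC, Pool.Agent.MUX.emb_natCast hC]
      rw [Pool.Agent.MUX.emb_mul hC, Pool.Agent.MUX.emb_sub hC, Pool.Agent.MUX.emb_mul hC,
        Pool.Agent.MUX.emb_one hC] at h3
      rw [Pool.Agent.MUX.emb_mul hC]
      linear_combination (-u) * h3
    rw [h2]
    exact (R.L i).lattice.sub_mem (hcm _ _ hxu) (hcm _ _ hpu)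
  -- induction on the order
  have main : ∀ n : ℕ, n ≠ 0 → (n : ℂ) * z ∈ (R.L i).lattice → z ∈ (R.L i).lattice := by
    intro n
    induction n using Nat.strong_induction_on with
    | _ n ih =>
      intro hn hnz
      by_cases hpn : p ∣ n
      · obtain ⟨m, rfl⟩ := hpn
        have hm : m ≠ 0 := by
          rintro rfl
          exact hn (mul_zero _)
        refine ih m ?_ hm ?_
        · have h1 := hp.two_le
          have h2 : 0 < m := Nat.pos_of_ne_zero hm
          nlinarith
        · refine key _ ?_ ?_ (Pool.Agent.MUXV.inK_nat G hIn m)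
          · rw [Nat.cast_mul, mul_assoc] at hnz
            exact hnz
          · have h1 : emb x * ((m : ℂ) * z) = emb ((m : ℕ) : OO A B) * (emb x * z) := by
              rw [Pool.Agent.MUX.emb_natCast hC]
              ring
            rw [h1]
            exact hcm _ _ hz
      · refine Pool.Agent.MUXV.mem_of_nat_mul G hIn ?_ hnz
        have h2 := PIS.val_int h (n : ℤ) (by exact_mod_cast hpn)
        rwa [Int.cast_natCast] at h2
  have hx0 : x ≠ 0 := by
    rintro rfl
    exact hx P.zero_mem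
  have hnm : nm x ≠ 0 := fun h1 => hx0 ((Pool.Agent.MUXF.AlgX.nm_eq_zero (Pool.Agent.MUXY.cqF hC) x).1 h1)
  refine main (nm x).natAbs (Int.natAbs_ne_zero.2 hnm) ?_
  have h1 : emb ((nm x : ℤ) : OO A B) * z ∈ (R.L i).lattice := by
    rw [← Pool.Agent.MUXF.AlgX.mul_star' x, mul_comm x, Pool.Agent.MUX.emb_mul hC, mul_assoc]
    exact hcm _ _ hz
  rw [Pool.Agent.MUXF.AlgX.emb_intCast (Pool.Agent.MUXY.cqF hC)] at h1
  rcases Int.natAbs_eq (nm x) with h2 | h2
  · rw [h2] at h1
    rwa [Int.cast_natCast] at h1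
  · rw [h2] at h1
    rw [Int.cast_neg, Int.cast_natCast, neg_mul] at h1
    exact (Submodule.neg_mem_iff _).1 h1

end

end Pool.Agent.TWQ
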