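import Pool.Agent.TWQ.StQ1
import Pool.Agent.TWI.AAll
import Pool.Agent.TWI.TEP
import Pool.Agent.TWT.AAll
import Pool.Agent.TWT.VPG
import Pool.Agent.TWT.IDP
import Pool.Agent.MUX.R_TRA

/-!
# TWQ, LOQI and LOQS (helper3): the points of `E[P]` and their logarithms, both types of `p`
-/

set_option autoImplicit false

open WeierstrassCurve Polynomial

namespace Pool.Agent.TWQ

open _root_.MU3 Pool.Agent.MU3A Pool.Agent.MU3B Pool.Agent.MUX Pool.Agent.MUXU Pool.Agent.TWT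
open Pool.Agent.TWI
open Pool.Agent.MUXV (GR InK tX)

noncomputable section

namespace LOQ

variable {A B : ℤ} {n : ℕ} {ι : Type}

/-- the facts used: both types of `p` -/
structure Cm (p q : ℕ) (P : Ideal (OO A B)) (V : ValuationSubring ℂ)
    (R : Reps A B n ι) (y0 : OO A B) : Prop where
  sit : TEP.Sit q P V
  q5 : 5 ≤ q
  vp : V.valuation (p : ℂ) < 1
  p0 : V.valuation (p : ℂ) ≠ 0
  int : ∀ j : ℤ, ¬ (p : ℤ) ∣ j → V.valuation (j : ℂ) = 1
  ty : ∀ i, ∃ (a2 a4 : V) (lam : ℕ → ℂ), GRa V (R.L i) a2 a4 ∧ HasTyI V (R.L i) q a2 a4 lam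
  mu : ∀ i, IsgN V (R.L R.i0) (R.L i) (muX R i) (nI (R.b i))
  ml : ∀ x, x ∉ P → ∃ (α : OO A B) (n : ℕ), α - x ∈ P ∧
    ∀ i, IsgN V (R.L i) (R.L i) (emb α) n
  mem : ∀ i x, pt R p i (x * y0) ∈ (R.L i).lattice ↔ x ∈ P
  kr : ∀ i, InK V (R.L i) (xn (R.L i)) (pt R p i y0) ∧
    V.valuation (tX (xn (R.L i)) (yy (R.L i)) (pt R p i y0)) ^ (q - 1) = V.valuation (p : ℂ)
  tei : ∀ w, TeQ p q P V w → (∀ x y, w (x * y) = w x * w y) ∧
    (∀ x y, x - y ∈ P → w x = w y) ∧ (∀ x, x ∉ P → w x ^ (q - 1) = 1) ∧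
    ∀ x, V.valuation (w x - emb x) ≤ V.valuation (p : ℂ)

theorem pt_mul (hC : CQ A B) (R : Reps A B n ι) (p : ℕ) (i : ι) (x y : OO A B) :
    pt R p i (x * y) = emb x * pt R p i y := by
  unfold pt
  rw [emb_mul hC]
  ring

theorem pt_sub (hC : CQ A B) (R : Reps A B n ι) (p : ℕ) (i : ι) (x y : OO A B) :
    pt R p i (x - y) = pt R p i x - pt R p i y := by
  unfold pt
  rw [emb_sub hC]
  ring

theorem pt_mu (R : Reps A B n ι) (p : ℕ) (i : ι) (x : OO A B) :
    pt R p i x = muX R i * pt R p R.i0 x := by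
  have ho0 := (R.nl R.i0).om_ne
  have hb0 : nI (R.b R.i0) = 1 := by
    rw [R.b0]
    unfold nI
    have : Subsingleton (OO A B ⧸ (⊤ : Ideal (OO A B))) := Ideal.Quotient.subsingleton_iff.2 rfl
    exact Nat.card_of_subsingleton 0
  unfold muX pt
  rw [hb0]
  push_cast
  field_simp

section

variable {p q : ℕ} {P : Ideal (OO A B)} {V : ValuationSubring ℂ} {R : Reps A B n ι}
  {y0 : OO A B}

theorem vpi_le {lam : ℕ → ℂ} (h0 : lam 0 = 0) (hi : ∀ j, V.valuation (lam j) ≤ 1) {t : ℂ}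
    (ht : V.valuation t ≤ 1) (q : ℕ) : V.valuation (vpi lam q t) ≤ V.valuation t := by
  rw [vpi]
  refine Valuation.map_sum_le _ fun k _ => ?_
  rcases Nat.eq_zero_or_pos k with rfl | hk
  · rw [h0, zero_mul, map_zero]
    exact zero_le
  · rw [map_mul, map_pow]
    calc V.valuation (lam k) * V.valuation t ^ k ≤ 1 * V.valuation t ^ 1 :=
          mul_le_mul' (hi _) (pow_le_pow_right_of_le_one' ht hk)
      _ = _ := by rw [one_mul, pow_one]

theorem vpi_eq {lam : ℕ → ℂ} (h0 : lam 0 = 0) (h1 : lam 1 = 1)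
    (hi : ∀ j, V.valuation (lam j) ≤ 1) {t : ℂ} (ht : V.valuation t < 1)
    (ht0 : V.valuation t ≠ 0) {q : ℕ} (hq : 2 ≤ q) :
    V.valuation (vpi lam q t) = V.valuation t := by
  have h2 := KEY.vpi_close (p := q) h0 h1 hi hq ht.le
  have h3 : V.valuation (vpi lam q t - t) < V.valuation t := by
    refine h2.trans_lt ?_
    rw [pow_two]
    exact mul_lt_of_lt_one_left (zero_lt_iff.2 ht0) ht
  have h4 := Valuation.map_add_eq_of_lt_left V.valuation h3
  rwa [add_sub_cancel] at h4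

theorem gr (h : Cm p q P V R y0) (i : ι) : ∃ (W : WeierstrassCurve.Affine ℂ)
    (ξ : ℂ →+ W.Point), GR V W (R.L i) (xn (R.L i)) (yy (R.L i)) ξ := by
  obtain ⟨a2, a4, lam, ⟨W, ξ, hG, -⟩, -⟩ := h.ty i
  exact ⟨W, ξ, hG⟩

theorem tau1 (h : Cm p q P V R y0) (i : ι) :
    V.valuation (tX (xn (R.L i)) (yy (R.L i)) (pt R p i y0)) < 1 := by
  by_contra hc
  have h2 : 1 ≤ V.valuation (tX (xn (R.L i)) (yy (R.L i)) (pt R p i y0)) ^ (q - 1) :=
    one_le_pow_of_one_le' (not_lt.1 hc) _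
  rw [(h.kr i).2] at h2
  exact absurd h.vp (not_lt.2 h2)

theorem tau0 (h : Cm p q P V R y0) (i : ι) :
    V.valuation (tX (xn (R.L i)) (yy (R.L i)) (pt R p i y0)) ≠ 0 := by
  intro hc
  have h2 := (h.kr i).2
  have := h.q5
  rw [hc, zero_pow (by omega)] at h2
  exact h.p0 h2.symm

theorem taui (h : Cm p q P V R y0) (i j : ι) :
    V.valuation (tX (xn (R.L i)) (yy (R.L i)) (pt R p i y0)) =
      V.valuation (tX (xn (R.L j)) (yy (R.L j)) (pt R p j y0)) := by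
  have h2 := (h.kr i).2
  rw [← (h.kr j).2] at h2
  have := h.q5
  exact (pow_left_inj (by omega)).mp h2

theorem notin (h : Cm p q P V R y0) (i : ι) {x : OO A B} (hx : x ∉ P) :
    pt R p i (x * y0) ∉ (R.L i).lattice := fun hc => hx ((h.mem i x).1 hc)

theorem notin1 (h : Cm p q P V R y0) (i : ι) : pt R p i y0 ∉ (R.L i).lattice := by
  have h1 := notin h i (x := 1) (fun hc => h.sit.prime.ne_top ((Ideal.eq_top_iff_one _).2 hc))
  rwa [one_mul] at h1

/-- the points `pt (x y0)` -/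
theorem pts (h : Cm p q P V R y0) (i : ι) {x : OO A B} (hx : x ∉ P) :
    InK V (R.L i) (xn (R.L i)) (pt R p i (x * y0)) ∧
    V.valuation (tX (xn (R.L i)) (yy (R.L i)) (pt R p i (x * y0))) =
      V.valuation (tX (xn (R.L i)) (yy (R.L i)) (pt R p i y0)) ∧
    ∀ w, TeQ p q P V w → ∀ (a2 a4 : V) (lam : ℕ → ℂ), GRa V (R.L i) a2 a4 →
      HasTyI V (R.L i) q a2 a4 lam →
      V.valuation (vpi lam q (tX (xn (R.L i)) (yy (R.L i)) (pt R p i (x * y0))) -
        w x * vpi lam q (tX (xn (R.L i)) (yy (R.L i)) (pt R p i y0))) ≤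
        V.valuation (tX (xn (R.L i)) (yy (R.L i)) (pt R p i y0)) ^ q := by
  have hC := h.sit.cq
  have hq5 := h.q5
  obtain ⟨W, ξ, G⟩ := gr h i
  obtain ⟨α, n, hα, hI⟩ := h.ml x hx
  have hIi := hI i
  have hαP : α ∉ P := by
    intro h1
    apply hx
    have h2 := P.sub_mem h1 hα
    rwa [sub_sub_cancel] at h2
  have hR1 := notin1 h i
  have hRx := notin h i hx
  have hRα := notin h i hαP
  have hK1 := (h.kr i).1
  have hfoi := t_FOI V (R.L i) (R.L i) (emb α) n ⟨W, ξ, G⟩ ⟨W, ξ, G⟩ hIi.ne hIi.sub hIi.odd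
    hIi.unit hIi.ker hIi.vmu (pt R p i y0) hK1 hR1
  rw [← pt_mul hC] at hfoi
  have hdif : pt R p i (x * y0) - pt R p i (α * y0) ∈ (R.L i).lattice := by
    rw [← pt_sub hC, ← sub_mul, h.mem]
    have := P.neg_mem hα
    rwa [neg_sub] at this
  have hcg : tX (xn (R.L i)) (yy (R.L i)) (pt R p i (x * y0)) =
      tX (xn (R.L i)) (yy (R.L i)) (pt R p i (α * y0)) :=
    Pool.Agent.MUXV.TRA.tX_congr G hRx hRα hdif
  have ht1 := tau1 h i
  have ht0 := tau0 h i
  set t1 := tX (xn (R.L i)) (yy (R.L i)) (pt R p i y0) with ht1d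
  refine ⟨(Pool.Agent.MUXV.inK_congr G (Or.inl hdif)).2 hfoi.1, ?_, ?_⟩
  · rw [hcg]
    have h6 : V.valuation (emb α * t1) = V.valuation t1 := by
      rw [map_mul, hIi.vmu, one_mul]
    rw [← h6]
    refine Valuation.map_eq_of_sub_lt _ ?_
    rw [h6]
    refine lt_of_le_of_lt hfoi.2.2 ?_
    rw [pow_two]
    exact mul_lt_of_lt_one_left (zero_lt_iff.2 ht0) ht1
  · intro w hw a2 a4 lam hGa hlam
    obtain ⟨wmul, wper, wroot, wemb⟩ := h.tei w hw
    have hvpa := a_VPA V (R.L i) (R.L i) a2 a4 a2 a4 hGa hGa (emb α) n hIi q (by omega) lam lam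
      hlam hlam (pt R p i y0) hK1 hR1
    rw [← pt_mul hC, ← ht1d] at hvpa
    have hwα : w x = w α := wper _ _ (by
      have := P.neg_mem hα
      rwa [neg_sub] at this)
    have hvpi := vpi_le hlam.lam0 hlam.int ht1.le q
    rw [hcg, hwα]
    have e : vpi lam q (tX (xn (R.L i)) (yy (R.L i)) (pt R p i (α * y0))) -
        w α * vpi lam q t1 =
        (vpi lam q (tX (xn (R.L i)) (yy (R.L i)) (pt R p i (α * y0))) -
          emb α * vpi lam q t1) - (w α - emb α) * vpi lam q t1 := by ring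
    rw [e]
    refine (Valuation.map_sub _ _ _).trans (max_le hvpa ?_)
    rw [map_mul]
    calc V.valuation (w α - emb α) * V.valuation (vpi lam q t1)
        ≤ V.valuation t1 ^ (q - 1) * V.valuation t1 := by
          rw [(h.kr i).2]
          exact mul_le_mul' (wemb α) hvpi
      _ = V.valuation t1 ^ q := by
          rw [← pow_succ]
          congr 1
          omega

/-- the multipliers -/
theorem mus (h : Cm p q P V R y0) (i : ι) (a2 a4 b2 b4 : V) (lam lam0 : ℕ → ℂ)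
    (hGa : GRa V (R.L i) a2 a4) (hlam : HasTyI V (R.L i) q a2 a4 lam)
    (hGb : GRa V (R.L R.i0) b2 b4) (hlam0 : HasTyI V (R.L R.i0) q b2 b4 lam0) :
    V.valuation (vpi lam q (tX (xn (R.L i)) (yy (R.L i)) (pt R p i y0)) -
      muX R i * vpi lam0 q (tX (xn (R.L R.i0)) (yy (R.L R.i0)) (pt R p R.i0 y0))) ≤
      V.valuation (tX (xn (R.L R.i0)) (yy (R.L R.i0)) (pt R p R.i0 y0)) ^ q := by
  have hq5 := h.q5
  have hvpa := a_VPA V (R.L R.i0) (R.L i) b2 b4 a2 a4 hGb hGa (muX R i) _ (h.mu i) q (by omega)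
    lam0 lam hlam0 hlam (pt R p R.i0 y0) (h.kr R.i0).1 (notin1 h R.i0)
  rwa [← pt_mu] at hvpa

/-- `LocQ` from the common facts -/
theorem main (h : Cm p q P V R y0) :
    ∃ t0 : ℂ, ∀ w : OO A B → ℂ, TeQ p q P V w → LocQ p q P V R y0 w t0 := by
  have hq5 := h.q5
  obtain ⟨b2, b4, lam0, hGb, hlam0⟩ := h.ty R.i0
  have hτ1 := tau1 h R.i0
  have hτ0 := tau0 h R.i0
  have hτp := (h.kr R.i0).2
  have hvt0 := vpi_eq (q := q) hlam0.lam0 hlam0.lam1 hlam0.int hτ1 hτ0 (by omega)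
  obtain ⟨t0, ht0⟩ : ∃ t0, t0 = vpi lam0 q
    (tX (xn (R.L R.i0)) (yy (R.L R.i0)) (pt R p R.i0 y0)) := ⟨_, rfl⟩
  rw [← ht0] at hvt0
  refine ⟨t0, fun w hw => ⟨?_, ?_, fun i => ?_⟩⟩
  · intro h1
    rw [h1, map_zero] at hvt0
    exact hτ0 hvt0.symm
  · rw [hvt0]
    exact hτp
  obtain ⟨wmul, wper, wroot, wemb⟩ := h.tei w hw
  obtain ⟨a2, a4, lam, hGa, hlam⟩ := h.ty i
  have hti := taui h i R.i0
  refine ⟨a2, a4, lam, hGa, hlam, fun x hx => ?_⟩
  obtain ⟨k1, k2, k3⟩ := pts h i hx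
  refine ⟨k1, notin h i hx, ?_, ?_⟩
  · rw [k2, hti, hvt0]
  · have k4 := k3 w hw a2 a4 lam hGa hlam
    have k5 := mus h i a2 a4 b2 b4 lam lam0 hGa hlam hGb hlam0
    rw [← ht0] at k5
    rw [hti] at k4
    rw [← hvt0] at k4 k5
    have e : vpi lam q (tX (xn (R.L i)) (yy (R.L i)) (pt R p i (x * y0))) -
        muX R i * w x * t0 =
        (vpi lam q (tX (xn (R.L i)) (yy (R.L i)) (pt R p i (x * y0))) -
          w x * vpi lam q (tX (xn (R.L i)) (yy (R.L i)) (pt R p i y0))) +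
        w x * (vpi lam q (tX (xn (R.L i)) (yy (R.L i)) (pt R p i y0)) -
          muX R i * t0) := by
      ring
    rw [e]
    refine V.valuation.map_add_le k4 ?_
    rw [map_mul, MUXHY.Val.root_one V (q - 1) (w x) (by omega) (wroot _ hx), one_mul]
    exact k5

end

/-! ### the common facts -/

/-- `3 ∤ nI (b_i)` -/
theorem n3 {f : ℕ} {p : ℕ} (R : Reps A B (p * f) ι) (h3 : 3 ∣ f) (i : ι) : ¬ 3 ∣ nI (R.b i) := by
  intro h
  have h1 : 3 ∣ Nat.gcd (nI (R.b i)) (p * f) := Nat.dvd_gcd h (h3.trans (Dvd.intro_left p rfl))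
  rw [R.cop i] at h1
  omega

theorem p6 {p : ℕ} (hp : p.Prime) (h5 : 5 ≤ p) : ¬ p ∣ 6 := by
  intro hd
  have h1 := Nat.le_of_dvd (by norm_num) hd
  interval_cases p
  · omega
  · exact absurd hp (by norm_num)

theorem pp_ne {p : ℕ} (h5 : 5 ≤ p) : p ^ 2 ≠ p := by
  intro h
  nlinarith

/-- inert -/
theorem cmI {p f : ℕ} {P : Ideal (OO A B)} {V : ValuationSubring ℂ} (hS : SetI p A B P V f)
    (h3 : 3 ∣ f) (R : Reps A B (p * f) ι) (hR : GRd V R) {y0 : OO A B}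
    (hy : y0 ∉ P) : Cm p (p ^ 2) P V R y0 := by
  obtain ⟨g1, g2, g3, g4, g5⟩ := i_GRI p A B P V f hS ι R hR
  have hp5 := hS.p5
  have hsit := sit hS.cq hS.pp (by omega) hS.eP hS.hP hS.hV
  have hq : 5 ≤ p ^ 2 := by nlinarith
  have hv3 : V.valuation (3 : ℂ) = 1 := by
    have := g3 3 (fun hd => by
      have h1 := Int.le_of_dvd (by norm_num) hd
      omega)
    exact_mod_cast this
  refine ⟨hsit, hq, g2, ?_, g3, fun i => ?_, fun i => ?_, ?_, fun i x => ?_, fun i => ?_, ?_⟩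
  · rw [Valuation.ne_zero_iff]
    exact_mod_cast hS.pp.ne_zero
  · obtain ⟨a2, a4, hGa⟩ := g1 i
    obtain ⟨Λ, hΛ⟩ := i_EXP V (R.L i) a2 a4 hGa
    exact ⟨a2, a4, _, hGa, a_TYI V (R.L i) a2 a4 hGa Λ hΛ (p ^ 2) (by omega)
      (a_LGI p A B P V f hS ι R hR i a2 a4 hGa Λ hΛ)⟩
  · obtain ⟨k1, k2, k3, k4, k5, k6⟩ := g5 i
    exact ⟨k1, k2, k4, k5, k6, k3, hv3, n3 R h3 i⟩
  · exact fun x hx => a_MLI p A B P V f hS ι R hR x hx
  · obtain ⟨k1, -⟩ := i_PTI p A B P V f hS ι R i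
    rw [k1]
    refine ⟨fun h => (hS.hP.mem_or_mem h).resolve_right hy, fun h => P.mul_mem_right _ h⟩
  · obtain ⟨k1, -, k3⟩ := a_KRI p A B P V f hS ι R hR i y0 hy
    exact ⟨k1, k3⟩
  · intro w hw
    rcases hw with ⟨-, hw⟩ | ⟨hq', -⟩
    · obtain ⟨-, -, -, -, -, -, -, -, hww⟩ := t_TEP p A B P V f hS
      exact ⟨hw.mul, hw.per, hw.root, (hww w hw).2.2.2⟩
    · exact absurd hq' (pp_ne hp5)

/-- `O/P` for a split prime -/
theorem sitG {p f : ℕ} {P : Ideal (OO A B)} {V : ValuationSubring ℂ} (hS : SetG p A B P V f) :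
    TEP.Sit p P V := by
  have hp5 := hS.p5
  refine ⟨hS.cq, hS.hP.prime, hS.hV, hS.hP.norm, by omega, ?_⟩
  have h1 := PIS.val_int hS ((p : ℤ) - 1) (by
    intro hd
    have h2 : (p : ℤ) ∣ 1 := by
      have h3 : (1 : ℤ) = (p : ℤ) - ((p : ℤ) - 1) := by ring
      rw [h3]
      exact dvd_sub dvd_rfl hd
    have := Int.le_of_dvd one_pos h2
    omega)
  have h2 : (((p - 1 : ℕ) : ℤ)) = (p : ℤ) - 1 := by
    rw [Nat.cast_sub hS.pp.one_lt.le]
    push_cast
    ring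
  rw [← h2, Int.cast_natCast] at h1
  exact h1

/-- points of the lattice, `p` prime to `nI (b_i)` -/
theorem memp {p : ℕ} (hC : CQ A B) (hp : p.Prime) (R : Reps A B n ι) (i : ι)
    (hcp : (nI (R.b i)).Coprime p) (x : OO A B) (hx : pt R p i x ∈ (R.L i).lattice) :
    ∃ y : OO A B, x = ((p : ℕ) : OO A B) * y := by
  have hpC : (p : ℂ) ≠ 0 := by exact_mod_cast hp.ne_zero
  have ho := (R.nl i).om_ne
  obtain ⟨u, v, huv⟩ := Nat.isCoprime_iff_coprime.2 hcp
  have huv' : (u : OO A B) * ((nI (R.b i) : ℕ) : OO A B) + (v : OO A B) * ((p : ℕ) : OO A B) =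
      1 := by
    have h3 := congrArg (fun t : ℤ => (t : OO A B)) huv
    push_cast at h3
    exact h3
  obtain ⟨y, hy, hxy⟩ := ((R.nl i).mem _).1 hx
  have hpt : pt R p i x = R.om i * nI (R.b i) * emb x / p := rfl
  rw [hpt] at hxy
  have h2 : emb (((nI (R.b i) : ℕ) : OO A B) * x) = emb (((p : ℕ) : OO A B) * y) := by
    rw [emb_mul hC, emb_mul hC, emb_natCast hC, emb_natCast hC]
    rw [div_eq_iff hpC] at hxy
    apply mul_left_cancel₀ ho
    linear_combination hxy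
  have h3 := emb_inj hC h2
  refine ⟨u * y + v * x, ?_⟩
  calc x = ((u : OO A B) * ((nI (R.b i) : ℕ) : OO A B) + (v : OO A B) * ((p : ℕ) : OO A B)) * x :=
        by rw [huv', one_mul]
    _ = (u : OO A B) * (((nI (R.b i) : ℕ) : OO A B) * x) + (v : OO A B) * ((p : ℕ) : OO A B) * x :=
        by ring
    _ = _ := by
        rw [h3]
        ring

/-- split -/
theorem cmS {p f : ℕ} {P : Ideal (OO A B)} {V : ValuationSubring ℂ} (hS : SetG p A B P V f)
    (h3 : 3 ∣ f) (R : Reps A B (p * f) ι) (hR : GRd V R) {y0 : OO A B}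
    (hy' : y0 ∈ cjI P) (hy : y0 ∉ P) : Cm p p P V R y0 := by
  obtain ⟨g1, g2, g3, -, g5⟩ := t_PIS p A B P V f hS ι R hR
  obtain ⟨d1, d2, d3, d4, d5, -, -⟩ := t_IDP p A B P V f hS
  obtain ⟨-, v0, v1, -⟩ := t_VPG p A B P V f hS
  have hp5 := hS.p5
  have hC := hS.cq
  have hprime := hS.hP.prime
  have hsit := sitG hS
  have hv3 : V.valuation (3 : ℂ) = 1 := by
    have := g3 3 (fun hd => by
      have h1 := Int.le_of_dvd (by norm_num) hd
      omega)
    exact_mod_cast this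
  have hu : ∀ j : ℕ, 0 < j → j < p → V.valuation (j : ℂ) = 1 := by
    intro j h0 h1
    have := g3 (j : ℤ) (fun hd => by
      have h2 := Int.le_of_dvd (by omega) hd
      omega)
    exact_mod_cast this
  refine ⟨hsit, hp5, g2, v0, g3, fun i => ?_, fun i => ?_, ?_, fun i x => ?_, fun i => ?_, ?_⟩
  · obtain ⟨W, ξ, G⟩ := g1 i
    obtain ⟨a2, ha2⟩ : ∃ a2 : V, (a2 : ℂ) = W.a₂ :=
      ⟨⟨W.a₂, (ValuationSubring.valuation_le_one_iff _ _).1 G.int.a2⟩, rfl⟩
    obtain ⟨a4, ha4⟩ : ∃ a4 : V, (a4 : ℂ) = W.a₄ :=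
      ⟨⟨W.a₄, (ValuationSubring.valuation_le_one_iff _ _).1 G.int.a4⟩, rfl⟩
    obtain ⟨lam, hlam⟩ := a_TAY V W (R.L i) (xn (R.L i)) (yy (R.L i)) ξ G p (by omega) hu a2 a4
      ha2 ha4
    refine ⟨a2, a4, lam, ⟨W, ξ, G, ha2, ha4⟩, hlam, fun z hz g k hk => ?_⟩
    unfold dd
    rw [map_div₀, KEY.fac_unit hu k hk, div_one]
    exact KEY.aeval_int (Pool.Agent.MUXV.int_X hz).2 (Pool.Agent.MUXV.int_Y G hz) _
  · obtain ⟨k1, k2, k3, k4, k5, k6⟩ := g5 i
    exact ⟨k1, k2, k4, k5, k6, k3, hv3, n3 R h3 i⟩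
  · intro x hx
    obtain ⟨-, -, x0, hx0, hx1⟩ := d5 6 (p6 hS.pp hp5)
    obtain ⟨e, he⟩ : ∃ e : OO A B, e = 1 - x0 := ⟨_, rfl⟩
    have he6 : e ∈ idl (A := A) (B := B) 6 * cjI P := by
      have := neg_mem hx1
      rwa [neg_sub, ← he] at this
    obtain ⟨e', he'⟩ : ∃ e', e = 6 * e' := by
      have h1 := Ideal.mul_le_left he6
      obtain ⟨t, ht⟩ := Ideal.mem_span_singleton.1 h1
      exact ⟨t, by rw [ht]; push_cast; ring⟩
    obtain ⟨al, hal⟩ : ∃ al : OO A B, al = 1 + 6 * (e' * (x - 1)) := ⟨_, rfl⟩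
    have hal' : al = 1 + e * (x - 1) := by
      rw [hal, he']
      ring
    have hax : al - x ∈ P := by
      have h1 : al - x = -(x0 * (x - 1)) := by
        rw [hal', he]
        ring
      rw [h1]
      exact neg_mem (P.mul_mem_right _ hx0)
    have haP : al ∉ P := by
      intro h1
      apply hx
      have h2 : x = al - (al - x) := by ring
      rw [h2]
      exact P.sub_mem h1 hax
    have hstar : star al ∉ P := by
      intro h1
      have h2 : al ∈ cjI P := h1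
      have h4 : e * (x - 1) ∈ cjI P := (cjI P).mul_mem_right _ (Ideal.mul_le_right he6)
      have h5 : (1 : OO A B) ∈ cjI P := by
        have h6 := (cjI P).sub_mem h2 h4
        rwa [hal', add_sub_cancel_right] at h6
      have h7 : (1 : OO A B) ∈ P := by
        have h8 : star (1 : OO A B) ∈ P := h5
        rwa [star_one] at h8
      exact hprime.ne_top ((Ideal.eq_top_iff_one _).2 h7)
    obtain ⟨k, hk⟩ := MLI.nm_six (e' * (x - 1))
    rw [← hal] at hk
    have hnn := nm_nonneg hC al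
    obtain ⟨n, hn⟩ : ∃ n : ℕ, (n : ℤ) = nm al := ⟨(nm al).toNat, Int.toNat_of_nonneg hnn⟩
    have hpn : ¬ (p : ℤ) ∣ (n : ℤ) := by
      intro hd
      rw [hn] at hd
      obtain ⟨t, ht⟩ := hd
      have h1 : al * star al ∈ P := by
        rw [mul_star, ht]
        push_cast
        exact P.mul_mem_right _ hS.hP.mem
      rcases hprime.mem_or_mem h1 with h2 | h2
      · exact haP h2
      · exact hstar h2
    have hvn : V.valuation (n : ℂ) = 1 := by
      have := g3 n hpn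
      exact_mod_cast this
    have ha0 : al ≠ 0 := by
      intro h0
      apply haP
      rw [h0]
      exact P.zero_mem
    refine ⟨al, n, hax, fun i => ?_⟩
    have hcm := IsLI.hasCM hC (R.nl i).toIsLI
    refine
      { ne := emb_ne_zero hC ha0
        sub := fun w hw => hcm al w hw
        odd := ?_
        unit := hvn
        ker := ?_
        vmu := (hsit.v1 al).2 haP
        v3 := hv3
        n3 := ?_ }
    · rw [← Int.odd_coe_nat, hn, hk]
      exact ⟨3 * k, by ring⟩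
    · intro z hz
      have h1 := hcm (star al) _ hz
      have h2 : ((n : ℕ) : ℂ) * z = emb (star al) * (emb al * z) := by
        rw [← mul_assoc, ← emb_mul hC, mul_comm (star al), mul_star, emb_intCast hC, ← hn]
        push_cast
        rfl
      rw [h2]
      exact h1
    · intro hd
      have h1 : (3 : ℤ) ∣ (n : ℤ) := by exact_mod_cast hd
      rw [hn, hk] at h1
      omega
  · obtain ⟨-, -, k3, k4⟩ := t_PTA p A B P V f hS ι R y0 hy' hy
    obtain ⟨k5, -⟩ := k4 i (g5 i).2.1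
    constructor
    · intro h
      obtain ⟨y, hy1⟩ := memp hC hS.pp R i ((R.cop i).coprime_dvd_right (dvd_mul_right p f)) _ h
      have h1 : x * y0 ∈ P := by
        rw [hy1]
        exact P.mul_mem_right _ hS.hP.mem
      exact (hprime.mem_or_mem h1).resolve_right hy
    · intro h
      rw [pt_mul hC]
      exact k5 x h
  · obtain ⟨-, -, k3, k4⟩ := t_PTA p A B P V f hS ι R y0 hy' hy
    obtain ⟨k5, -⟩ := k4 i (g5 i).2.1
    refine t_KEP p A B P V f hS ι R hR i _ k5 ?_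
    intro h
    obtain ⟨y, hy1⟩ := memp hC hS.pp R i ((R.cop i).coprime_dvd_right (dvd_mul_right p f)) _ h
    apply hy
    rw [hy1]
    exact P.mul_mem_right _ hS.hP.mem
  · intro w hw
    rcases hw with ⟨hq', -⟩ | ⟨-, hw⟩
    · exact absurd hq'.symm (pp_ne hp5)
    refine ⟨hw.mul, hw.per, hw.root, fun x => ?_⟩
    obtain ⟨c, -, hc⟩ := d1 x
    have h1 := hw.int c
    have h2 : w x = w ((c : ℤ) : OO A B) := hw.per _ _ (by rw [Int.cast_natCast]; exact hc)
    rw [← h2] at h1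
    have h4 : V.valuation (emb (x - (c : OO A B))) ≤ V.valuation (p : ℂ) := by
      have h5 : (x - (c : OO A B)) * y0 ∈ P * cjI P := Ideal.mul_mem_mul hc hy'
      rw [d3] at h5
      obtain ⟨t, ht⟩ := Ideal.mem_span_singleton.1 h5
      have h6 := congrArg emb ht
      rw [emb_mul hC, emb_mul hC, emb_natCast hC] at h6
      have h7 := congrArg V.valuation h6
      rw [map_mul, map_mul, (hsit.v1 y0).2 hy, mul_one] at h7
      rw [h7]
      exact mul_le_of_le_one_right' (hsit.vle t)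
    have e : w x - emb x = (w x - ((c : ℤ) : ℂ)) - emb (x - (c : OO A B)) := by
      rw [emb_sub hC, emb_natCast hC]
      push_cast
      ring
    rw [e]
    exact V.valuation.map_sub_le h1 h4

end LOQ

theorem t_LOQI : S_LOQI := by
  intro p A B P V f hS h3 ι R hR y0 hy
  obtain ⟨t0, h⟩ := LOQ.main (LOQ.cmI hS h3 R hR hy)
  exact ⟨t0, fun w hw => h w (Or.inl ⟨rfl, hw⟩)⟩

theorem t_LOQS : S_LOQS := by
  intro p A B P V f hS h3 ι R hR y0 hy' hy
  obtain ⟨t0, h⟩ := LOQ.main (LOQ.cmS hS h3 R hR hy' hy)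
  exact ⟨t0, fun w hw => h w (Or.inr ⟨rfl, hw⟩)⟩

end

end Pool.Agent.TWQ
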