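import Pool.Agent.TWQ.StQ1

/-!
# TWQ, RSQ: from the functionals on the residue field to the Teichmüller lifts (helper23)
-/

set_option autoImplicit false

open Pool.Agent.TWT

namespace Pool.Agent.TWQ

namespace RSQ

/-- a root of unity has valuation `1` -/
theorem val_one (V : ValuationSubring ℂ) {x : ℂ} {s : ℕ} (hs : s ≠ 0) (h : x ^ s = 1) :
    V.valuation x = 1 := by
  have h1 : V.valuation x ^ s = 1 := by rw [← map_pow, h, map_one]
  exact (pow_eq_one_iff_of_nonneg zero_le hs).1 h1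

/-- elements of the ring generated by the `c σ` are fixed by `x ↦ x ^ (p ^ h)` modulo `p` -/
theorem pow_mod (p : ℕ) (hp : p.Prime) (S : Type) (c : S → ℂ) (h : ℕ)
    (hc : ∀ σ, c σ ^ (p ^ h) = c σ) (x : ℂ) (hx : x ∈ Subring.closure (Set.range c)) :
    ∃ r ∈ Subring.closure (Set.range c), x ^ (p ^ h) = x + (p : ℂ) * r := by
  have hadd : ∀ x y : ℂ, x ∈ Subring.closure (Set.range c) → y ∈ Subring.closure (Set.range c) →
      ∃ r ∈ Subring.closure (Set.range c),
        (x + y) ^ (p ^ h) = x ^ (p ^ h) + y ^ (p ^ h) + (p : ℂ) * r := by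
    intro x y hx hy
    obtain ⟨r, hr⟩ := exists_add_pow_prime_pow_eq hp
      (⟨x, hx⟩ : Subring.closure (Set.range c)) ⟨y, hy⟩ h
    refine ⟨x * y * r, Subring.mul_mem _ (Subring.mul_mem _ hx hy) r.2, ?_⟩
    have h1 := congrArg (Subtype.val : Subring.closure (Set.range c) → ℂ) hr
    push_cast at h1
    rw [h1]
    ring
  have hq : p ^ h ≠ 0 := pow_ne_zero _ hp.ne_zero
  induction hx using Subring.closure_induction with
  | mem x hx =>
    obtain ⟨σ, rfl⟩ := hx
    exact ⟨0, Subring.zero_mem _, by rw [hc σ, mul_zero, add_zero]⟩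
  | zero => exact ⟨0, Subring.zero_mem _, by rw [zero_pow hq, mul_zero, add_zero]⟩
  | one => exact ⟨0, Subring.zero_mem _, by rw [one_pow, mul_zero, add_zero]⟩
  | add x y hx hy ihx ihy =>
    obtain ⟨r, hr, h1⟩ := ihx
    obtain ⟨r', hr', h2⟩ := ihy
    obtain ⟨u, hu, h3⟩ := hadd x y hx hy
    refine ⟨r + r' + u, Subring.add_mem _ (Subring.add_mem _ hr hr') hu, ?_⟩
    rw [h3, h1, h2]
    ring
  | neg x hx ihx =>
    obtain ⟨r, hr, h1⟩ := ihx
    obtain ⟨u, hu, h3⟩ := hadd x (-x) hx (Subring.neg_mem _ hx)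
    refine ⟨-(r + u), Subring.neg_mem _ (Subring.add_mem _ hr hu), ?_⟩
    rw [add_neg_cancel, zero_pow hq, h1] at h3
    linear_combination -h3
  | mul x y hx hy ihx ihy =>
    obtain ⟨r, hr, h1⟩ := ihx
    obtain ⟨r', hr', h2⟩ := ihy
    refine ⟨x * r' + y * r + (p : ℂ) * (r * r'), ?_, ?_⟩
    · exact Subring.add_mem _ (Subring.add_mem _ (Subring.mul_mem _ hx hr')
        (Subring.mul_mem _ hy hr)) (Subring.mul_mem _ (natCast_mem _ p)
        (Subring.mul_mem _ hr hr'))
    · rw [mul_pow, h1, h2]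
      ring

/-- (KEY) an element of the ring generated by the `c σ` with valuation `< 1` has valuation
`≤ v(p)` -/
theorem key (V : ValuationSubring ℂ) (p : ℕ) (hp : p.Prime) (S : Type) (c : S → ℂ) (h : ℕ)
    (hh : h ≠ 0) (hc : ∀ σ, c σ ^ (p ^ h) = c σ) (hV : ∀ σ, c σ ∈ V) (x : ℂ)
    (hx : x ∈ Subring.closure (Set.range c)) (hv : V.valuation x < 1) :
    V.valuation x ≤ V.valuation (p : ℂ) := by
  have hle : Subring.closure (Set.range c) ≤ V.toSubring := by
    rw [Subring.closure_le]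
    rintro _ ⟨σ, rfl⟩
    exact hV σ
  by_contra hcon
  rw [not_le] at hcon
  obtain ⟨r, hr, h1⟩ := pow_mod p hp S c h hc x hx
  have hr1 : V.valuation r ≤ 1 := (V.valuation_le_one_iff r).2 (hle hr)
  have h2 : V.valuation ((p : ℂ) * r) < V.valuation x := by
    rw [map_mul]
    exact lt_of_le_of_lt (mul_le_of_le_one_right' hr1) hcon
  have h3 : V.valuation x ^ (p ^ h) = V.valuation x := by
    rw [← map_pow, h1]
    exact Valuation.map_add_eq_of_lt_left _ h2
  have h0 : V.valuation x ≠ 0 := (lt_of_le_of_lt zero_le hcon).ne'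
  have hq : 2 ≤ p ^ h := le_trans hp.two_le (Nat.le_self_pow hh p)
  obtain ⟨k, hk⟩ : ∃ k, p ^ h = k + 1 + 1 := ⟨p ^ h - 2, by omega⟩
  rw [hk, pow_succ] at h3
  have h4 : V.valuation x ^ (k + 1) = 1 := by
    have h5 : V.valuation x ^ (k + 1) * V.valuation x = 1 * V.valuation x := by
      rw [h3, one_mul]
    exact mul_right_cancel₀ h0 h5
  have h5 := (pow_eq_one_iff_of_nonneg zero_le (Nat.succ_ne_zero k)).1 h4
  exact hv.ne h5

/-- the residue field has characteristic `p` -/
theorem charP_res (V : ValuationSubring ℂ) (p : ℕ) (hp : p.Prime)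
    (hv : V.valuation (p : ℂ) < 1) : CharP (IsLocalRing.ResidueField V) p := by
  have h0 : ((p : ℕ) : IsLocalRing.ResidueField V) = 0 := by
    have h1 : ((p : ℕ) : IsLocalRing.ResidueField V) = IsLocalRing.residue V ((p : ℕ) : V) := by
      rw [map_natCast]
    rw [h1, IsLocalRing.residue_eq_zero_iff, V.valuation_lt_one_iff]
    exact_mod_cast hv
  obtain ⟨q, hq⟩ := CharP.exists (IsLocalRing.ResidueField V)
  have h2 := (CharP.cast_eq_zero_iff (IsLocalRing.ResidueField V) q p).1 h0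
  rcases (Nat.dvd_prime hp).1 h2 with h3 | h3
  · exact absurd h3 (CharP.char_ne_one (IsLocalRing.ResidueField V) q)
  · rw [← h3]
    exact hq

/-- a finite family of a module over a field: coordinates with respect to members of the family,
extended to the whole space -/
theorem coords (k M : Type) [Field k] [AddCommGroup M] [Module k M] (S : Type) [Fintype S]
    (a : S → M) : ∃ (J : Type) (_ : Fintype J) (τ : J → S) (t : J → M →ₗ[k] k),
      ∀ σ, a σ = ∑ j, t j (a σ) • a (τ j) := by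
  classical
  obtain ⟨b, hb, hspan, hli⟩ := exists_linearIndependent k (Set.range a)
  have hfin : b.Finite := (Set.finite_range a).subset hb
  have hft : Fintype b := hfin.fintype
  choose τ hτ using fun j : b => hb j.2
  obtain ⟨g, hg⟩ := LinearMap.exists_extend (hli.repr : _ →ₗ[k] (b →₀ k))
  refine ⟨b, hft, τ, fun j => (Finsupp.lapply j).comp g, fun σ => ?_⟩
  have hmem : a σ ∈ Submodule.span k (Set.range (Subtype.val : b → M)) := by
    rw [Subtype.range_coe, hspan]
    exact Submodule.subset_span ⟨σ, rfl⟩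
  have h1 : g (a σ) = hli.repr ⟨a σ, hmem⟩ := by
    rw [← hg]
    rfl
  have h2 := hli.linearCombination_repr ⟨a σ, hmem⟩
  have h3 := Finsupp.sum_fintype (hli.repr ⟨a σ, hmem⟩) (fun (i : b) (c : k) => c • (i : M))
    (fun i => zero_smul k (i : M))
  rw [Finsupp.linearCombination_apply] at h2
  rw [h3] at h2
  simp only [LinearMap.comp_apply, Finsupp.lapply_apply, h1, hτ]
  exact h2.symm

theorem rsd_mem (V : ValuationSubring ℂ) {x : ℂ} (hx : x ∈ V) :
    rsd V x = IsLocalRing.residue V ⟨x, hx⟩ := by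
  unfold rsd
  rw [dif_pos hx]

end RSQ

open RSQ in
theorem t_RSQ : S_RSQ := by
  intro V p hpf hv1 hv0 S _ c b s hps hcs hb r hr ht
  classical
  have hp : p.Prime := hpf.out
  have hs : s ≠ 0 := by
    rintro rfl
    exact hps (dvd_zero p)
  have hv : ∀ σ, V.valuation (c σ) = 1 := fun σ => val_one V hs (hcs σ)
  have hV : ∀ σ, c σ ∈ V := fun σ => (V.valuation_le_one_iff _).1 (hv σ).le
  -- the exponent
  have hcop : p.Coprime s := (Nat.Prime.coprime_iff_not_dvd hp).2 hps
  have hh : s.totient ≠ 0 := (Nat.totient_pos.2 (Nat.pos_of_ne_zero hs)).ne'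
  have hmod : p ^ s.totient ≡ 1 [MOD s] := Nat.ModEq.pow_totient hcop
  have hcq : ∀ σ, c σ ^ (p ^ s.totient) = c σ := by
    intro σ
    have h1 : 1 ≤ p ^ s.totient := Nat.one_le_pow _ _ hp.pos
    obtain ⟨k, hk⟩ := (Nat.modEq_iff_dvd' h1).1 hmod.symm
    have h2 : p ^ s.totient = s * k + 1 := by omega
    rw [h2, pow_succ, pow_mul, hcs σ, one_pow, one_mul]
  have : CharP (IsLocalRing.ResidueField V) p := charP_res V p hp hv1
  let _ : Algebra (ZMod p) (IsLocalRing.ResidueField V) :=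
    ZMod.algebra (IsLocalRing.ResidueField V) p
  have hsm : ∀ (a : ZMod p) (x : IsLocalRing.ResidueField V),
      a • x = ((a.val : ℕ) : IsLocalRing.ResidueField V) * x := by
    intro a x
    conv_lhs => rw [← ZMod.natCast_zmod_val a]
    rw [Algebra.smul_def, map_natCast]
  obtain ⟨J, _, τ, t, hJ⟩ := coords (ZMod p) (IsLocalRing.ResidueField V) S
    (fun σ => rsd V (c σ))
  have hsum : ∑ σ, c σ * b σ =
      (∑ σ, (c σ - ∑ j, (((t j (rsd V (c σ))).val : ℕ) : ℂ) * c (τ j)) * b σ) +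
        ∑ j, c (τ j) * ∑ σ, (((t j (rsd V (c σ))).val : ℕ) : ℂ) * b σ := by
    simp only [sub_mul, Finset.sum_sub_distrib, Finset.sum_mul, Finset.mul_sum]
    rw [Finset.sum_comm (s := (Finset.univ : Finset J))]
    have h1 : ∀ σ, ∀ j, c (τ j) * ((((t j (rsd V (c σ))).val : ℕ) : ℂ) * b σ) =
        (((t j (rsd V (c σ))).val : ℕ) : ℂ) * c (τ j) * b σ := fun σ j => by ring
    simp only [h1]
    ring
  rw [hsum]
  refine (Valuation.map_add_le _ ?_ ?_)
  · refine Valuation.map_sum_le _ fun σ _ => ?_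
    have hmem : c σ - ∑ j, (((t j (rsd V (c σ))).val : ℕ) : ℂ) * c (τ j) ∈
        Subring.closure (Set.range c) := by
      refine Subring.sub_mem _ (Subring.subset_closure ⟨σ, rfl⟩)
        (Subring.sum_mem _ fun j _ => Subring.mul_mem _ (natCast_mem _ _)
          (Subring.subset_closure ⟨τ j, rfl⟩))
    have hlt : V.valuation (c σ - ∑ j, (((t j (rsd V (c σ))).val : ℕ) : ℂ) * c (τ j)) < 1 := by
      have h1 : IsLocalRing.residue V ((⟨c σ, hV σ⟩ : V) -
          ∑ j, (((t j (rsd V (c σ))).val : ℕ) : V) * (⟨c (τ j), hV (τ j)⟩ : V)) = 0 := by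
        rw [map_sub, map_sum]
        simp only [map_mul, map_natCast]
        have h2 := hJ σ
        simp only [hsm] at h2
        rw [← rsd_mem V (hV σ)]
        simp only [← rsd_mem V (hV _)]
        rw [sub_eq_zero]
        exact h2
      rw [IsLocalRing.residue_eq_zero_iff, V.valuation_lt_one_iff] at h1
      have h3 : (((⟨c σ, hV σ⟩ : V) -
          ∑ j, (((t j (rsd V (c σ))).val : ℕ) : V) * (⟨c (τ j), hV (τ j)⟩ : V) : V) : ℂ) =
          c σ - ∑ j, (((t j (rsd V (c σ))).val : ℕ) : ℂ) * c (τ j) := by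
        push_cast
        rfl
      rw [h3] at h1
      exact h1
    rw [map_mul]
    exact le_trans (mul_le_of_le_one_right' (hb σ))
      (le_trans (key V p hp S c s.totient hh hcq hV _ hmem hlt) hr)
  · refine Valuation.map_sum_le _ fun j _ => ?_
    rw [map_mul, hv (τ j), one_mul]
    exact ht (t j).toAddMonoidHom

end Pool.Agent.TWQ
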