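import Pool.Agent.TWQ.StQ1
import Pool.Agent.TWI.SDEI

/-!
# TWQ_SDQ: from the logarithmic derivatives to `ee`
-/

set_option autoImplicit false

open WeierstrassCurve Polynomial NumberField IsDedekindDomain

namespace Pool.Agent.TWQ

open _root_.MU3 Pool.Agent.MU3A Pool.Agent.MU3B Pool.Agent.MU3C Pool.Agent.RI Pool.Agent.RID
open Pool.Agent.MUX Pool.Agent.MUXU Pool.Agent.MUXW Pool.Agent.TWT Pool.Agent.TWI
open Pool.Agent.MU3V (cls Sub GD algDF)
open Pool.Agent.MUXV (GR InK tX)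
open Pool.Agent.MUXI (IA RE AR)
open OnePoint

noncomputable section

open Pool.Agent.TWT.SDE in
theorem t_SDQ (h1 : S_IDQ) (h3 : S_TEQ) (h4 : S_THQ) : S_SDQ := by
  intro p q A B P P' V f hS ι _ R w hw kp eta e b hC l N hl hpl hlf ψ a ha1 hac hunit
  obtain ⟨⟨hcq, hpp, hp5, -, -, -, hf0, -, -, -, -⟩, id2, -⟩ := h1 p q A B P P' V f hS
  obtain ⟨-, wmul, wper, wzero, wroot, -, wred, -⟩ := h3 p q A B P P' V f hS w hw
  obtain ⟨thper, -, -, thfin, -, thmul⟩ :=
    h4 p q A B P P' V f hS ι R w hw kp eta e b hC l N hl hlf ψ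
  set M : ℕ := f * l ^ N * p with hM
  have hM0 : M ≠ 0 := mul_ne_zero (mul_ne_zero hf0 (pow_ne_zero _ hl.ne_zero)) hpp.ne_zero
  -- coprimality
  have haf : a.Coprime f := Nat.Coprime.coprime_dvd_right ⟨6 * p, by ring⟩ hac
  have hap : a.Coprime p := Nat.Coprime.coprime_dvd_right ⟨6 * f, by ring⟩ hac
  have hal : a.Coprime l := Nat.Coprime.coprime_dvd_right hlf haf
  have haM : a.Coprime M := by
    rw [hM]
    exact Nat.Coprime.mul_right (Nat.Coprime.mul_right haf (Nat.Coprime.pow_right _ hal)) hap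
  have hcO : ∀ b : ℕ, a.Coprime b → IsCoprime ((a : ℕ) : OO A B) ((b : ℕ) : OO A B) := by
    intro b hb
    have h5 := (Nat.isCoprime_iff_coprime.2 hb).map (Int.castRingHom (OO A B))
    simpa using h5
  have haP : ((a : ℕ) : OO A B) ∉ P := by
    intro h
    have h3 := (id2 (a : ℤ)).1 (by simpa using h)
    have h4 : p ∣ a := by exact_mod_cast h3
    have h5 : p ∣ 1 := by
      rw [← hap.gcd_eq_one]
      exact Nat.dvd_gcd h4 dvd_rfl
    exact hpp.one_lt.ne' (Nat.dvd_one.1 h5)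
  have hwa : w (a : OO A B) ≠ 0 := fun h => haP ((wzero _).1 h)
  have hpP : ((p : ℕ) : OO A B) ∈ P := by
    have h := (id2 (p : ℤ)).2 dvd_rfl
    simpa using h
  have hpM : ((M : ℕ) : OO A B) ∈ P := by
    rw [hM, Nat.cast_mul]
    exact P.mul_mem_left _ hpP
  have hMP : ∀ x : OO A B, x ∈ idl (A := A) (B := B) M → x ∈ P := by
    intro x hx
    obtain ⟨t, rfl⟩ := Ideal.mem_span_singleton.1 hx
    exact P.mul_mem_right _ hpM
  set c0 : ℂ := thQ R kp eta ψ w e b R.i0 (a : OO A B) with hc0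
  -- `c0` has valuation one
  have hv0 : V.valuation c0 = 1 := by
    obtain ⟨s, hs, hsr⟩ := thfin hpl
    have hs0 : s ≠ 0 := fun h => hs (h ▸ dvd_zero p)
    exact val_root V hs0 (hsr R.i0 (a : OO A B) (hcO M haM))
  have hc00 : c0 ≠ 0 := by
    intro h
    rw [h, map_zero] at hv0
    exact zero_ne_one hv0
  -- valuation of `w a`
  have hvw : V.valuation (w (a : OO A B)) = 1 := (wroot _ haP).2
  have hint : V.valuation ((a : ℂ) - w (a : OO A B)) < 1 := by
    have h3 := (wred (a : OO A B)).2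
    rw [Valuation.map_sub_swap]
    simpa [emb] using h3
  have hq : V.valuation ((a : ℂ) / w (a : OO A B) - 1) < 1 := by
    rw [show (a : ℂ) / w (a : OO A B) - 1 = ((a : ℂ) - w (a : OO A B)) / w (a : OO A B) by
      field_simp, map_div₀, hvw, div_one]
    exact hint
  -- the sums
  have hfin := finR (A := A) (B := B) M hM0
  have key : ∀ i : ι, sumMod ((M : ℕ) : OO A B) (fun x =>
      thQ R kp eta ψ w e b i x * w x * dlX (R.L i) a (pt R M i x)) =
      ((a : ℂ) * (c0 * w (a : OO A B))⁻¹ - (a : ℂ) ^ 2) * sumMod ((M : ℕ) : OO A B) (fun x =>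
      thQ R kp eta ψ w e b i x * w x * ee (R.L i) (pt R M i x)) := by
    intro i
    obtain ⟨ptp1, ptp2⟩ := Pool.Agent.MUXI.ti_PTP A B hcq (p * f) ι R M hM0 i
    set G : OO A B → ℂ := fun x =>
      thQ R kp eta ψ w e b i x * w x * ee (R.L i) (pt R M i x) with hG
    have hGp : ∀ x y, x - y ∈ Ideal.span {((M : ℕ) : OO A B)} → G x = G y := by
      intro x y hxy
      simp only [hG]
      rw [thper i x y hxy, wper x y (hMP _ hxy), (ptp1 x y hxy).2.1]
    have e1 := sumMod_mul (hcO M haM) hGp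
    have e2 : sumMod ((M : ℕ) : OO A B) (fun x =>
        thQ R kp eta ψ w e b i x * w x * dlX (R.L i) a (pt R M i x)) =
        (a : ℂ) * (c0 * w (a : OO A B))⁻¹ *
          sumMod ((M : ℕ) : OO A B) (fun x => G (((a : ℕ) : OO A B) * x)) -
        (a : ℂ) ^ 2 * sumMod ((M : ℕ) : OO A B) G := by
      rw [← sumMod_cmul, ← sumMod_cmul, ← sumMod_sub hfin]
      congr 1
      funext x
      simp only [hG]
      rw [thmul i x (a : OO A B), ← hc0, wmul, ← ptp2]
      unfold dlX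
      field_simp
    rw [e2, e1]
    ring
  have hSDT : SDTI R M a (thQ R kp eta ψ w e b) w =
      ((a : ℂ) * (c0 * w (a : OO A B))⁻¹ - (a : ℂ) ^ 2) *
        SSTI R M (thQ R kp eta ψ w e b) w := by
    unfold SDTI SSTI
    rw [Finset.mul_sum]
    refine Finset.sum_congr rfl fun i _ => ?_
    rw [key i]
    ring
  have hfac : (a : ℂ) * (c0 * w (a : OO A B))⁻¹ - (a : ℂ) ^ 2 =
      c0⁻¹ * (((a : ℂ) / w (a : OO A B) - 1) + (1 - (a : ℂ) ^ 2 * c0)) := by
    field_simp
    ring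
  have hvf : V.valuation ((a : ℂ) * (c0 * w (a : OO A B))⁻¹ - (a : ℂ) ^ 2) = 1 := by
    rw [hfac, map_mul, map_inv₀, hv0, inv_one, one_mul, Valuation.map_add_eq_of_lt_right]
    · exact hunit
    · rw [hunit]
      exact hq
  rw [hSDT, map_mul, hvf, one_mul]

end

end Pool.Agent.TWQ
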