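import Pool.Agent.TWQ.StQ1
import Pool.Agent.TWI.SIGI
import Pool.Agent.TWI.CNTI

/-!
# TWQ, block B', module SIGQ: the sum over the Galois group in terms of `SDTI`
-/

set_option autoImplicit false

open WeierstrassCurve Polynomial NumberField IsDedekindDomain

namespace Pool.Agent.TWQ

open _root_.MU3 Pool.Agent.MU3A Pool.Agent.MU3B Pool.Agent.MU3C Pool.Agent.RI Pool.Agent.RID
open Pool.Agent.MUX Pool.Agent.MUXU Pool.Agent.MUXW Pool.Agent.TWT Pool.Agent.TWI
open Pool.Agent.MU3V (cls Sub GD algDF)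
open Pool.Agent.MUXV (GR InK tX)
open Pool.Agent.MUXI (IA RE AR)
open OnePoint

noncomputable section

theorem t_SIGQ (h1 : S_IDQ) (h2 : S_TEQ) (h3 : S_THQ) : S_SIGQ := by
  intro p q A B P P' V f hS hT ι _ R w hw kp eta e b hC l N hl hlf ψ x0 y0 hL c hc a ha1 hacop _
    I X hhit
  obtain ⟨⟨hcq, hpp, hp5, -, hPp, -, hf0, hfp, -, hPP, -⟩, -, -, -, -, id6, -⟩ :=
    h1 p q A B P P' V f hS
  obtain ⟨-, te2, te3, -, -, te6, -, -⟩ := h2 p q A B P P' V f hS w hw
  obtain ⟨th1, th2, th3, -, th5, -⟩ := h3 p q A B P P' V f hS ι R w hw kp eta e b hC l N hl hlf ψ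
  obtain ⟨hac1, hac2⟩ := (id6 (f * l ^ N) x0 y0 hL).1 c hc
  have hp0 : p ≠ 0 := hpp.ne_zero
  have hl0 : l ^ N ≠ 0 := pow_ne_zero _ hl.ne_zero
  have hm0 : f * l ^ N ≠ 0 := mul_ne_zero hf0 hl0
  have hM0 : f * l ^ N * p ≠ 0 := mul_ne_zero hm0 hp0
  have hM3 : 3 ≤ f * l ^ N * p := by
    have h6 : 1 * p ≤ f * l ^ N * p := Nat.mul_le_mul_right _ (Nat.one_le_iff_ne_zero.2 hm0)
    omega
  have hcopi : ∀ i, (nI (R.b i)).Coprime (f * l ^ N * p) := by
    intro i
    have h5 := R.cop i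
    have h6 : (nI (R.b i)).Coprime p := Nat.Coprime.coprime_mul_right_right h5
    have h7 : (nI (R.b i)).Coprime f := Nat.Coprime.coprime_mul_left_right h5
    have h8 : (nI (R.b i)).Coprime l := Nat.Coprime.coprime_dvd_right hlf h7
    exact Nat.Coprime.mul_right (Nat.Coprime.mul_right h7 (Nat.Coprime.pow_right _ h8)) h6
  have hpP : ((p : ℕ) : OO A B) ∈ P := by
    have h5 : ((p : ℕ) : OO A B) ∈ P * P' := by
      rw [hPP]
      exact Ideal.mem_span_singleton_self _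
    have h6 : P * P' ≤ P := Ideal.mul_le_left
    exact h6 h5
  have hMP : idl (A := A) (B := B) (f * l ^ N * p) ≤ P := by
    rw [Ideal.span_singleton_le_iff_mem, Nat.cast_mul]
    exact Ideal.mul_mem_left _ _ hpP
  have hwneg : ∀ x, w (-x) = -w x := by
    intro x
    rw [← neg_one_mul, te2, te6, neg_one_mul]
  -- the function
  let G : ι → OO A B → ℂ := fun i x => muX R i *
    (thQ R kp eta ψ w e b i x * w x * dlX (R.L i) a (pt R (f * l ^ N * p) i x))
  have hsdt : ∑ i, sumMod ((f * l ^ N * p : ℕ) : OO A B) (G i) =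
      SDTI R (f * l ^ N * p) a (thQ R kp eta ψ w e b) w := by
    unfold SDTI
    refine Finset.sum_congr rfl fun i _ => ?_
    exact Pool.Agent.MUXI.TSH.sumMod_cmul _ _
  have hcnt : 2 * ∑ σ : GalF A B (f * l ^ N * p),
      G (I σ) (X σ * (x0 + c * (f * l ^ N : ℕ) * y0)) =
      SDTI R (f * l ^ N * p) a (thQ R kp eta ψ w e b) w := by
    rw [← hsdt]
    refine t_CNTI A B hcq hT (p * f) ι R (f * l ^ N * p) hM3 hcopi G ?_ ?_ ?_
      (x0 + c * (f * l ^ N : ℕ) * y0) hac1 I X hhit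
    · intro i x y hxy
      have e1 := th1 i x y hxy
      have e3 := te3 x y (hMP hxy)
      have e4 := ((j_PTP A B hcq (p * f) ι R (f * l ^ N * p) hM0 i).1 x y hxy).2.2 a
      simp only [G]
      rw [e1, e3, e4]
    · intro i x
      simp only [G]
      rw [th2, hwneg, Pool.Agent.TWT.SIG.pt_neg, Pool.Agent.TWT.SIG.dlX_neg]
      ring
    · intro i x hx
      simp only [G]
      rw [th3 i x hx]
      ring
  -- the values of `G`
  have hG' : ∀ σ : GalF A B (f * l ^ N * p),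
      G (I σ) (X σ * (x0 + c * (f * l ^ N : ℕ) * y0)) =
        w (x0 + c * (f * l ^ N : ℕ) * y0) ^ (e - 1) *
          (thQ R kp eta ψ w e b (I σ) (X σ) * (muX R (I σ) *
            w (X σ * (x0 + c * (f * l ^ N : ℕ) * y0)) * dlX (R.L (I σ)) a
              (pt R (f * l ^ N * p) (I σ) (X σ * (x0 + c * (f * l ^ N : ℕ) * y0))))) := by
    intro σ
    simp only [G]
    rw [th5 (I σ) (X σ) _ hac2]
    ring
  rw [← hcnt, Finset.mul_sum, Finset.sum_congr rfl fun σ _ => hG' σ]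

end

end Pool.Agent.TWQ
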