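import Pool.Agent.TWQ.StQ1
import Pool.Agent.TWI.TEP

/-!
# TWQ, module TEQ: the Teichmüller character, inert and split primes (helper37)
-/

set_option autoImplicit false

open WeierstrassCurve Polynomial NumberField IsDedekindDomain

namespace Pool.Agent.TWQ

open _root_.MU3 Pool.Agent.MU3A Pool.Agent.MU3B Pool.Agent.MU3C Pool.Agent.RI Pool.Agent.RID
open Pool.Agent.MUX Pool.Agent.MUXU Pool.Agent.MUXW Pool.Agent.TWT Pool.Agent.TWI
open Pool.Agent.MU3V (cls Sub GD algDF)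
open Pool.Agent.MUXV (GR InK tX)
open Pool.Agent.MUXI (IA RE AR)
open OnePoint

noncomputable section

namespace TEQ

variable {p q f : ℕ} {A B : ℤ} {P P' : Ideal (OO A B)} {V : ValuationSubring ℂ}

/-- the situation of `TEP` for a split prime -/
theorem sitG (hS : SetG p A B P V f) : TEP.Sit p P V := by
  have hp := hS.pp
  have hp5 := hS.p5
  have hvp : V.valuation (p : ℂ) < 1 := by
    have h1 := (hS.hV ((p : ℕ) : OO A B)).2 hS.hP.mem
    rw [ValuationSubring.mem_nonunits_iff, emb_natCast hS.cq] at h1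
    exact h1
  refine ⟨hS.cq, hS.hP.prime, hS.hV, hS.hP.norm, by omega, ?_⟩
  have h1 := MUXHY.Val.int_one hp hvp ((p : ℤ) - 1) (by
    intro hd
    have h2 : (p : ℤ) ∣ 1 := by
      have h3 : (1 : ℤ) = (p : ℤ) - ((p : ℤ) - 1) := by ring
      rw [h3]
      exact dvd_sub (dvd_refl _) hd
    have := Int.le_of_dvd one_pos h2
    omega)
  have h2 : (((p - 1 : ℕ) : ℤ)) = (p : ℤ) - 1 := by
    rw [Nat.cast_sub hp.one_le]
    push_cast
    ring
  rw [← h2, Int.cast_natCast] at h1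
  exact h1

/-- the situation of `TEP` -/
theorem sitQ (hS : SetQ p q A B P P' V f) : TEP.Sit q P V ∧ Even (q - 1) := by
  rcases hS.2 with ⟨h, -, rfl⟩ | ⟨h, -, rfl⟩
  · have hp5 := h.p5
    refine ⟨sit h.cq h.pp (by omega) h.eP h.hP h.hV, ?_⟩
    have hodd : Odd p := h.pp.odd_of_ne_two (by omega)
    obtain ⟨k, hk⟩ := hodd.pow (n := 2)
    exact ⟨k, by omega⟩
  · have hp5 := h.p5
    refine ⟨sitG h, ?_⟩
    obtain ⟨k, hk⟩ := h.pp.odd_of_ne_two (by omega)
    exact ⟨k, by omega⟩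

end TEQ

open TEQ in
theorem t_TEQ : S_TEQ := by
  intro p q A B P P' V f hS w hw
  obtain ⟨hs, heven⟩ := sitQ hS
  have hcq := hs.cq
  have hprime := hs.prime
  have hq2 := hs.q2
  obtain ⟨h1, h2, h3, h4, h5, h6⟩ : w 1 = 1 ∧ (∀ x y, w (x * y) = w x * w y) ∧
      (∀ x y, x - y ∈ P → w x = w y) ∧ (∀ x, w x = 0 ↔ x ∈ P) ∧
      (∀ x, x ∉ P → w x ^ (q - 1) = 1) ∧ ∀ x, V.valuation (w x - emb x) < 1 := by
    rcases hw with ⟨hq, h⟩ | ⟨hq, h⟩
    · exact ⟨h.one, h.mul, h.per, h.zero, by rw [hq]; exact h.root, h.red⟩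
    · exact ⟨h.one, h.mul, h.per, h.zero, by rw [hq]; exact h.root, h.red⟩
  have hv1 : ∀ x ∉ P, V.valuation (w x) = 1 := fun x hx =>
    MUXHY.Val.root_one V (q - 1) (w x) (by omega) (h5 x hx)
  refine ⟨h1, h2, h3, h4, fun x hx => ⟨h5 x hx, hv1 x hx⟩, ?_, fun x => ⟨?_, h6 x⟩,
    fun T hT => hs.psum T hT w h2 h3 h5 h6⟩
  · have h1P : (-1 : OO A B) ∉ P := by
      intro h
      have := P.neg_mem h
      rw [neg_neg] at this
      exact hprime.ne_top ((Ideal.eq_top_iff_one _).2 this)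
    refine TEP.uniq V (q - 1) (by omega) hs.vq _ _ (h5 _ h1P) heven.neg_one_pow ?_
    have := h6 (-1)
    rwa [emb_neg hcq, emb_one hcq] at this
  · by_cases hx : x ∈ P
    · rw [(h4 x).2 hx, map_zero]
      exact zero_le_one
    · exact (hv1 x hx).le

end

end Pool.Agent.TWQ
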