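import Pool.Agent.TWQ.StQ1

/-!
# TWQ, module THQ (helper72): the values `thQ` of a character
-/

set_option autoImplicit false

open NumberField IsDedekindDomain

namespace Pool.Agent.TWQ

open _root_.MU3 Pool.Agent.MU3A Pool.Agent.MU3B Pool.Agent.MU3C Pool.Agent.RI Pool.Agent.RID
open Pool.Agent.MUX Pool.Agent.MUXU Pool.Agent.MUXW Pool.Agent.TWT Pool.Agent.TWI

noncomputable section

namespace THQ

variable {A B : ℤ}

lemma nm_mul (x y : OO A B) : nm (x * y) = nm x * nm y := by
  unfold nm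
  simp only [QuadraticAlgebra.re_mul, QuadraticAlgebra.im_mul]
  ring

lemma nm_one : nm (1 : OO A B) = 1 := by
  unfold nm
  have o1 : (1 : OO A B).re = 1 := rfl
  have o2 : (1 : OO A B).im = 0 := rfl
  rw [o1, o2]
  ring

lemma nm_neg (x : OO A B) : nm (-x) = nm x := by
  unfold nm
  have o1 : (-x).re = -x.re := rfl
  have o2 : (-x).im = -x.im := rfl
  rw [o1, o2]
  ring

lemma nm_cong (m : ℕ) (x y : OO A B) (h : x - y ∈ idl (A := A) (B := B) m) :
    ((nm x : ℤ) : ZMod m) = ((nm y : ℤ) : ZMod m) := by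
  obtain ⟨z, hz⟩ := Ideal.mem_span_singleton.1 h
  have e1 : x = y + (m : OO A B) * z := by rw [← hz]; ring
  have r1 : x.re = y.re + m * z.re := by
    rw [e1]
    simp
  have r2 : x.im = y.im + m * z.im := by
    rw [e1]
    simp
  have e2 : nm x = nm y + (m : ℤ) * (2 * y.re * z.re + m * z.re ^ 2 + B * (y.re * z.im +
      z.re * y.im + m * z.re * z.im) - A * (2 * y.im * z.im + m * z.im ^ 2)) := by
    unfold nm
    rw [r1, r2]
    ring
  rw [e2]
  push_cast
  rw [ZMod.natCast_self]
  ring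

lemma idl_le {m n : ℕ} (h : m ∣ n) : (idl n : Ideal (OO A B)) ≤ idl m := by
  rw [Ideal.span_singleton_le_span_singleton]
  exact_mod_cast Nat.cast_dvd_cast (α := OO A B) h

lemma nm_coprime (x : OO A B) (D : ℤ) (h : IsCoprime x ((D : ℤ) : OO A B)) :
    IsCoprime (nm x) D := by
  obtain ⟨u, v, huv⟩ := h
  have e : u * x = 1 - v * ((D : ℤ) : OO A B) := by linear_combination huv
  have e2 := congrArg nm e
  rw [nm_mul] at e2
  have e3 : nm (1 - v * ((D : ℤ) : OO A B)) =
      1 + D * (-2 * v.re + D * v.re ^ 2 - B * v.im + B * D * v.re * v.im - A * D * v.im ^ 2) := by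
    have o1 : (1 : OO A B).re = 1 := rfl
    have o2 : (1 : OO A B).im = 0 := rfl
    unfold nm
    simp [o1, o2]
    ring
  rw [e3] at e2
  exact ⟨nm u, -(-2 * v.re + D * v.re ^ 2 - B * v.im + B * D * v.re * v.im -
    A * D * v.im ^ 2), by linear_combination e2⟩

end THQ

open THQ in
theorem t_THQ (h1 : S_IDQ) (h2 : S_TEQ) : S_THQ := by
  intro p q A B P P' V f hS ι R w hw kp eta e b hC l N hl hlf ψ
  obtain ⟨⟨hcq, hp, hp5, hpq, hP, hV, hf0, hpf, hfD, hPP, hcop⟩, -, -, -, -, -, hlast⟩ :=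
    h1 p q A B P P' V f hS
  obtain ⟨w1, wm, wper, w0, wroot, wneg, -, -⟩ := h2 p q A B P P' V f hS w hw
  have hpP : (idl p : Ideal (OO A B)) ≤ P := by rw [← hPP]; exact Ideal.mul_le_left
  have hpP' : (idl p : Ideal (OO A B)) ≤ P' := by rw [← hPP]; exact Ideal.mul_le_right
  have hstar : ∀ x : OO A B, P' = cjI P → (x ∈ P' ↔ star x ∈ P) := by
    intro x h
    rw [h]
    exact Iff.rfl
  have hPtop : (1 : OO A B) ∉ P := fun h => hP.ne_top ((Ideal.eq_top_iff_one _).2 h)
  have hwb : ∀ x y : OO A B, x - y ∈ P' → w (star x) ^ b = w (star y) ^ b := by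
    intro x y hxy
    rcases hC.bb with ⟨-, h⟩ | ⟨h, -, -⟩
    · rw [h, pow_zero, pow_zero]
    · rw [wper (star x) (star y)]
      have := (hstar _ h).1 hxy
      rwa [star_sub] at this
  have hwz : w 0 = 0 := (w0 0).2 P.zero_mem
  have hnegw : ∀ x : OO A B, w (-x) = -w x := by
    intro x
    have : -x = (-1) * x := by ring
    rw [this, wm, wneg]
    ring
  have hn0 : nI (R.b R.i0) = 1 := by
    rw [R.b0]
    unfold nI
    exact Nat.card_unique
  have hxP : ∀ x : OO A B, IsCoprime x ((f * l ^ N * p : ℕ) : OO A B) → x ∉ P := by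
    rintro x ⟨u, v, huv⟩ hx
    apply hPtop
    rw [← huv]
    refine P.add_mem (P.mul_mem_left _ hx) (P.mul_mem_left _ (hpP ?_))
    exact idl_le (A := A) (B := B) (Dvd.intro_left _ rfl) (Ideal.mem_span_singleton_self _)
  have hxP' : P' = cjI P → ∀ x : OO A B, IsCoprime x ((f * l ^ N * p : ℕ) : OO A B) →
      star x ∉ P := by
    rintro h x ⟨u, v, huv⟩ hx
    apply hPtop
    have h1P' : (1 : OO A B) ∈ P' := by
      rw [← huv]
      refine P'.add_mem (P'.mul_mem_left _ ((hstar _ h).2 hx)) (P'.mul_mem_left _ (hpP' ?_))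
      exact idl_le (A := A) (B := B) (Dvd.intro_left _ rfl) (Ideal.mem_span_singleton_self _)
    have := (hstar _ h).1 h1P'
    rwa [star_one] at this
  have hd1 : f ∣ f * l ^ N * p := ⟨l ^ N * p, by ring⟩
  have hd2 : l ^ N ∣ f * l ^ N * p := ⟨f * p, by ring⟩
  have hd3 : p ∣ f * l ^ N * p := Dvd.intro_left _ rfl
  refine ⟨?_, ?_, ?_, ?_, ?_, ?_⟩
  · intro i x y hxy
    unfold thQ thT
    rw [hC.per x y (idl_le hd1 hxy), wper x y (hpP (idl_le hd3 hxy)),
      hwb x y (hpP' (idl_le hd3 hxy)), Int.cast_mul, Int.cast_mul,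
      nm_cong (l ^ N) x y (idl_le hd2 hxy)]
  · intro i x
    unfold thQ thT
    have e1 : eta (-x) = (-1) ^ (e - 1 + b) * eta x := by
      have : -x = (-1) * x := by ring
      rw [this, hC.mul, hC.neg]
    rw [nm_neg, e1, hnegw, star_neg, hnegw, neg_pow (w x), neg_pow (w (star x))]
    have e2 : ((-1 : ℂ) ^ (e - 1 + b)) * ((-1) ^ (e - 1) * (-1) ^ b) = 1 := by
      rw [← pow_add, ← pow_add, ← two_mul, pow_mul]
      norm_num
    linear_combination (kp i * eta x * ψ ((nm x * nI (R.b i) : ℤ) : ZMod (l ^ N)) *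
      w x ^ (e - 1) * w (star x) ^ b) * e2
  · intro i x hx
    by_contra hne
    apply hx
    have hw1 : w x ≠ 0 := right_ne_zero_of_mul hne
    have ht : thQ R kp eta ψ w e b i x ≠ 0 := left_ne_zero_of_mul hne
    unfold thQ thT at ht
    have he : eta x ≠ 0 :=
      right_ne_zero_of_mul (left_ne_zero_of_mul (left_ne_zero_of_mul (left_ne_zero_of_mul ht)))
    have hb : w (star x) ^ b ≠ 0 := right_ne_zero_of_mul ht
    refine hlast l N hlf x ((hC.supp x).1 he) (fun h => hw1 ((w0 x).2 h)) ?_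
    intro hne' hxP2
    rcases hC.bb with ⟨h, -⟩ | ⟨h, hb1, -⟩
    · exact hne' h
    · apply hb
      rw [(w0 (star x)).2 ((hstar _ h).1 hxP2)]
      exact zero_pow (by omega)
  · intro hpl
    obtain ⟨r, hr, hr1, hr2⟩ := hC.fin
    have hpl' : ¬ p ∣ l := fun h => hpf (h.trans hlf)
    have hpq1 : ¬ p ∣ q - 1 := by
      intro h
      have h3 : p ∣ q := by
        rcases hS with ⟨-, ⟨-, -, h⟩ | ⟨-, -, h⟩⟩
        · rw [h]; exact dvd_pow_self p two_ne_zero
        · rw [h]
      have h4 : p ∣ q - (q - 1) := Nat.dvd_sub h3 h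
      have h5 : q - (q - 1) = 1 := by omega
      rw [h5] at h4
      exact hp.one_lt.ne' (Nat.dvd_one.1 h4)
    refine ⟨r * ((l - 1) * l ^ N * (q - 1)), ?_, ?_⟩
    · intro h
      rcases hp.dvd_mul.1 h with h | h
      · exact hr h
      · rcases hp.dvd_mul.1 h with h | h
        · rcases hp.dvd_mul.1 h with h | h
          · exact hpl h
          · exact hpl' (hp.dvd_of_dvd_pow h)
        · exact hpq1 h
    · intro i x hx
      have hxf : eta x ≠ 0 := by
        rw [hC.supp]
        have h3 : IsCoprime x ((f : ℕ) : OO A B) := by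
          obtain ⟨u, v, huv⟩ := hx
          refine ⟨u, v * ((l ^ N * p : ℕ) : OO A B), ?_⟩
          rw [← huv]
          push_cast
          ring
        exact (Ideal.isCoprime_span_singleton_iff x ((f : ℕ) : OO A B)).2 h3
      have e1 : kp i ^ (r * ((l - 1) * l ^ N * (q - 1))) = 1 := by rw [pow_mul, hr1, one_pow]
      have e2 : eta x ^ (r * ((l - 1) * l ^ N * (q - 1))) = 1 := by
        rw [pow_mul, hr2 x hxf, one_pow]
      have e3 : (w x ^ (e - 1)) ^ (r * ((l - 1) * l ^ N * (q - 1))) = 1 := by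
        have : w x ^ (q - 1) = 1 := (wroot x (hxP x hx)).1
        calc (w x ^ (e - 1)) ^ (r * ((l - 1) * l ^ N * (q - 1)))
            = (w x ^ (q - 1)) ^ ((e - 1) * (r * ((l - 1) * l ^ N))) := by
              rw [← pow_mul, ← pow_mul]; congr 1; ring
          _ = 1 := by rw [this, one_pow]
      have e4 : (w (star x) ^ b) ^ (r * ((l - 1) * l ^ N * (q - 1))) = 1 := by
        rcases hC.bb with ⟨-, h⟩ | ⟨h, -, -⟩
        · rw [h, pow_zero, one_pow]
        · have : w (star x) ^ (q - 1) = 1 := (wroot _ (hxP' h x hx)).1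
          calc (w (star x) ^ b) ^ (r * ((l - 1) * l ^ N * (q - 1)))
              = (w (star x) ^ (q - 1)) ^ (b * (r * ((l - 1) * l ^ N))) := by
                rw [← pow_mul, ← pow_mul]; congr 1; ring
            _ = 1 := by rw [this, one_pow]
      have e5 : (ψ ((nm x * nI (R.b i) : ℤ) : ZMod (l ^ N))) ^
          (r * ((l - 1) * l ^ N * (q - 1))) = 1 := by
        have hu1 : IsCoprime (nm x * nI (R.b i) : ℤ) ((l ^ N : ℕ) : ℤ) := by
          have h3 : IsCoprime (nm x) ((l ^ N : ℕ) : ℤ) := by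
            apply nm_coprime
            obtain ⟨u, v, huv⟩ := hx
            refine ⟨u, v * ((f * p : ℕ) : OO A B), ?_⟩
            rw [← huv]
            push_cast
            ring
          have h4 : IsCoprime ((nI (R.b i) : ℕ) : ℤ) ((l ^ N : ℕ) : ℤ) := by
            rw [Nat.isCoprime_iff_coprime]
            have h5 : (nI (R.b i)).Coprime l :=
              Nat.Coprime.coprime_dvd_right (hlf.trans (Dvd.intro_left p rfl)) (R.cop i)
            exact h5.pow_right N
          exact IsCoprime.mul_left h3 h4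
        have hu : IsUnit (((nm x * nI (R.b i) : ℤ)) : ZMod (l ^ N)) := by
          obtain ⟨u, v, huv⟩ := hu1
          have h6 := congrArg (fun z : ℤ => (z : ZMod (l ^ N))) huv
          simp only [Int.cast_add, Int.cast_mul, Int.cast_natCast, Int.cast_one] at h6
          rw [ZMod.natCast_self, mul_zero, add_zero] at h6
          refine IsUnit.of_mul_eq_one (u : ZMod (l ^ N)) ?_
          push_cast
          rw [← h6]
          ring
        obtain ⟨y, hy⟩ := hu
        have hphi : (l ^ N).totient ∣ (l - 1) * l ^ N := by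
          rcases Nat.eq_zero_or_pos N with h | h
          · rw [h]; simp
          · rw [Nat.totient_prime_pow hl h]
            refine ⟨l, ?_⟩
            have : l ^ N = l ^ (N - 1) * l := by
              rw [← pow_succ]; congr 1; omega
            rw [this]; ring
        obtain ⟨t, ht⟩ := hphi
        have h7 : y ^ (r * ((l - 1) * l ^ N * (q - 1))) = 1 := by
          have : r * ((l - 1) * l ^ N * (q - 1)) = (l ^ N).totient * (t * (q - 1) * r) := by
            rw [ht]; ring
          rw [this, pow_mul, ZMod.pow_totient, one_pow]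
        rw [← hy, ← map_pow, ← Units.val_pow_eq_pow_val, h7, Units.val_one, map_one]
      unfold thQ thT
      rw [mul_pow, mul_pow, mul_pow, mul_pow, e1, e2, e3, e4, e5]
      norm_num
  · intro i x a ha
    have ha1 : a - 1 ∈ (idl (f * l ^ N) : Ideal (OO A B)) := Ideal.mul_le_left ha
    have ha2 : a - 1 ∈ P' := Ideal.mul_le_right ha
    have e1 : eta a = 1 := by
      rw [hC.per a 1 (idl_le (Dvd.intro _ rfl) ha1), hC.one]
    have e2 : ((nm a : ℤ) : ZMod (l ^ N)) = 1 := by
      rw [nm_cong (l ^ N) a 1 (idl_le (Dvd.intro_left _ rfl) ha1), nm_one, Int.cast_one]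
    have e3 : w (star a) ^ b = 1 := by
      rw [hwb a 1 ha2, star_one, w1, one_pow]
    unfold thQ thT
    rw [hC.mul, e1, THQ.nm_mul, wm, star_mul', wm, mul_pow, mul_pow, e3]
    push_cast
    rw [e2]
    rw [mul_one, mul_one, mul_one]
    ring
  · intro i x a
    unfold thQ thT
    rw [hC.mul, THQ.nm_mul, wm, star_mul', wm, mul_pow, mul_pow, hn0, hC.kp0]
    have e1 : ((nm a * nm x * nI (R.b i) : ℤ) : ZMod (l ^ N)) =
        ((nm a * ((1 : ℕ) : ℤ) : ℤ) : ZMod (l ^ N)) * ((nm x * nI (R.b i) : ℤ) : ZMod (l ^ N)) := by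
      push_cast
      ring
    rw [e1, map_mul]
    ring

end

end Pool.Agent.TWQ
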