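import Pool.Agent.TWQ.StQ1
import Pool.Agent.TWT.UNRG
import Pool.Agent.TWT.RAMG
import Pool.Agent.TWT.VPG
import Pool.Agent.TWI.UNRGI
import Pool.Agent.TWI.RAMGI
import Pool.Agent.TWI.VPGI

/-!
# TWQ, block B', module UNRQ: `RF (idl m * P') / k` is unramified at `V` for `p ∤ m`

Split case: text of `Pool/Agent/TWT/UNRG.lean` (helper22) for the level `sp α`, `α ∉ P`.
-/

set_option autoImplicit false

open WeierstrassCurve Polynomial NumberField IsDedekindDomain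

namespace Pool.Agent.TWQ

open _root_.MU3 Pool.Agent.MU3A Pool.Agent.MU3B Pool.Agent.MU3C Pool.Agent.RI Pool.Agent.RID
open Pool.Agent.MUX Pool.Agent.MUXU Pool.Agent.MUXW Pool.Agent.TWT Pool.Agent.TWI
open Pool.Agent.MU3V (cls Sub GD algDF)
open Pool.Agent.MUXV (GR InK tX)

noncomputable section

namespace UNRQ

/-- the field of level `sp α`, `α ∉ P`, is unramified at `V` -/
theorem unr (hKI : S_KINS) (p : ℕ) (A B : ℤ) (P : Ideal (OO A B)) (V : ValuationSubring ℂ)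
    (f : ℕ) (hS : SetG p A B P V f) (T : TorX A B) (ι : Type) [Finite ι]
    (R : Reps A B (p * f) ι) (hR : GRd V R) (α : OO A B) (hα : α ∉ P) :
    ∀ y ∈ (RF (sp α) : IntermediateField (kk A B) ℂ), y ≠ 0 →
      ∃ k : ℤ, V.valuation y = V.valuation (p : ℂ) ^ k := by
  have he : Pool.Agent.MUXV.Sq_EMB := Pool.Agent.MUXV.tq_EMB
  have hC := hS.cq
  have hm0 : α ≠ 0 := fun h => hα (h ▸ P.zero_mem)
  have hmn : (sp α : Ideal (OO A B)) ≠ ⊥ := by
    change Ideal.span {α} ≠ ⊥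
    rwa [Ne, Ideal.span_singleton_eq_bot]
  have := T.fin (sp α) hmn
  have := T.gal (sp α) hmn
  refine fun y hy hy0 => t_RAMG t_VPG p A B P V f hS (RF (sp α)) ?_ y hy hy0
  intro σ hσ
  obtain ⟨-, -, -, -, -, -, hgr⟩ := t_VPG p A B P V f hS
  have hgr' := hgr ι R hR
  have hL : IsNL (⊤ : Ideal (OO A B)) (R.L R.i0) (R.om R.i0) := by
    have := R.nl R.i0
    rwa [R.b0] at this
  -- the extension to `ℂ`
  let D : IntermediateField ℚ ℂ :=
    (RF (sp α) : IntermediateField (kk A B) ℂ).restrictScalars ℚ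
  have hle : kk A B ≤ D := fun x hx =>
    (RF (sp α) : IntermediateField (kk A B) ℂ).algebraMap_mem ⟨x, hx⟩
  have hDy : ∀ y ∈ D, y ∈ (RF (sp α) : IntermediateField (kk A B) ℂ) := fun y hy => hy
  obtain ⟨s, hs, hs2⟩ : ∃ s : ℂ ≃+* ℂ, FixK A B s ∧
      ∀ y : (RF (sp α) : IntermediateField (kk A B) ℂ),
        ((σ y : (RF (sp α) : IntermediateField (kk A B) ℂ)) : ℂ) = s y := by
    letI := algC hle
    let τ : D ≃ₐ[kk A B] D := AlgEquiv.ofRingEquiv (f := (σ.toRingEquiv : D ≃+* D))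
      (fun r => σ.commutes r)
    obtain ⟨s, hs, hs1⟩ := T.ext (sp α) hmn D hle hDy τ
    exact ⟨s, hs, fun y => (hs1 y).symm⟩
  obtain ⟨a, ha, ha'⟩ := T.act (sp α) hmn s hs
  have hki : ∀ i, s (kap (R.L i)) = kap (R.L i) := by
    intro i
    obtain ⟨b', L', om', mu, hL', hA⟩ := ha' _ _ _ (R.nl i)
    obtain ⟨j, hj, -, -⟩ := HIT.repr he hC R hL'
    have h1 : kap (R.L i) ∈ (RF (sp α) : IntermediateField (kk A B) ℂ) :=
      IntermediateField.subset_adjoin _ _ ⟨_, _, _, R.nl i, Or.inl rfl⟩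
    have h2 := hσ ⟨kap (R.L i), h1⟩ (hR.kap i).le
    have h3 : s (kap (R.L i)) = kap (R.L j) := by rw [← hj, hA.kap]
    rw [hs2] at h2
    change V.valuation (s (kap (R.L i)) - kap (R.L i)) < 1 at h2
    rw [h3] at h2
    have h4 := hR.inj j i h2
    rw [h3, h4]
  have hkL : ∀ (b : Ideal (OO A B)) (L : PeriodPair) (om : ℂ), IsNL b L om →
      s (kap L) = kap L := by
    intro b L om hL
    obtain ⟨j, hj, -, -⟩ := HIT.repr he hC R hL
    rw [hj]
    exact hki j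
  have htop := Pool.Agent.TWT.UNRG.fixTop he hC hs hkL
  have hTr : TrH σ := by
    intro x hx
    apply Subtype.ext
    rw [hs2]
    exact htop _ hx
  obtain ⟨c, hc⟩ := (ty_KER he A B hC T α hm0).1 σ hTr
  have hK : ∀ z, emb α * z ∈ (R.L R.i0).lattice →
      InK V (R.L R.i0) (fun z => (R.L R.i0).weierstrassP z - 1 / 12) z →
      z ∈ (R.L R.i0).lattice := by
    intro z hz hz'
    exact hKI p A B P V f hS ι R hR R.i0 α hα z hz hz'
  have hinv := ty_INV he A B hC (R.L R.i0) (R.om R.i0) hL α hm0 V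
    (hgr' R.i0).1 hK (RF (sp α)) le_rfl σ
    (fun x hx => hσ x ((ValuationSubring.valuation_le_one_iff _ _).2 hx)) c hc
  obtain ⟨-, acm2, -, -, acm5, acm6, -, -⟩ :=
    ty_ACM he A B hC (R.L R.i0) (R.om R.i0) hL α hm0
  have h1 := acm2 _ σ c 1 hinv hc
  exact acm5 σ 1 1 h1 (acm6 _)

end UNRQ

open UNRQ in
/-- **UNRQ** -/
theorem t_UNRQ (hKI : S_KINS) (hID : S_IDQ) : S_UNRQ := by
  intro p q A B P P' V f hSQ T ι _ R hR m hm hpm
  obtain ⟨⟨-, -, -, -, hPp, -, -, -, -, -, hcop⟩, hint, -⟩ := hID p q A B P P' V f hSQ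
  rcases hSQ with ⟨-, ⟨hS, hP', -⟩ | ⟨hS, hP', -⟩⟩
  · rw [hP', Ideal.mul_top]
    exact t_UNRGI t_VPGI (t_RAMGI t_VPGI) p A B P V f hS T ι R hR m hm hpm
  · obtain ⟨y0, hy0, y1, hy1, h01⟩ := Ideal.isCoprime_iff_exists.1 hcop
    have hy1P : y1 ∉ P := fun h =>
      hPp.ne_top ((Ideal.eq_top_iff_one P).2 (h01 ▸ P.add_mem hy0 h))
    have hmP : ((m : ℕ) : OO A B) ∉ P := by
      intro h
      have h1 : (((m : ℕ) : ℤ) : OO A B) ∈ P := by
        rw [Int.cast_natCast]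
        exact h
      exact hpm (by exact_mod_cast (hint (m : ℤ)).1 h1)
    have hα : ((m : ℕ) : OO A B) * y1 ∉ P := fun h => (hPp.mem_or_mem h).elim hmP hy1P
    have hle : (sp (((m : ℕ) : OO A B) * y1) : Ideal (OO A B)) ≤ (idl m : Ideal (OO A B)) * P' := by
      change Ideal.span {((m : ℕ) : OO A B) * y1} ≤ _
      rw [Ideal.span_singleton_le_iff_mem]
      exact Ideal.mul_mem_mul (Ideal.mem_span_singleton_self _) hy1
    exact fun y hy => unr hKI p A B P V f hS T ι R hR _ hα y (T.mono _ _ hle hy)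

end

end Pool.Agent.TWQ
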