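import Pool.Agent.TWQ.StQ1
import Pool.Agent.MUX.XLib
import Pool.Agent.TWT.VPG
import Pool.Agent.TWI.VPGI
import Pool.Agent.TWT.MUG
import Pool.Agent.TWI.MUGI

/-!
# TWQ, block B', VPQ: the valuation, points outside the kernel of reduction
-/

set_option autoImplicit false

open WeierstrassCurve Polynomial NumberField IsDedekindDomain

namespace Pool.Agent.TWQ

open _root_.MU3 Pool.Agent.MU3A Pool.Agent.MU3B Pool.Agent.MU3C Pool.Agent.RI Pool.Agent.RID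
open Pool.Agent.MUX Pool.Agent.MUXU Pool.Agent.MUXW Pool.Agent.TWT Pool.Agent.TWI
open Pool.Agent.MUXV (GR InK tX inK_nat)

noncomputable section

namespace VPQ

variable {A B : ℤ}

theorem nat_idl {m n : ℕ} (h : ((n : ℕ) : OO A B) ∈ idl (A := A) (B := B) m) :
    m ∣ n := by
  obtain ⟨z, hz⟩ := Ideal.mem_span_singleton'.1 h
  have h1 := congrArg QuadraticAlgebra.re hz
  rw [QuadraticAlgebra.re_mul, QuadraticAlgebra.re_natCast, QuadraticAlgebra.im_natCast,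
    QuadraticAlgebra.re_natCast] at h1
  have h2 : (m : ℤ) ∣ n := ⟨z.re, by linear_combination -h1⟩
  exact_mod_cast h2

/-- the statement on torsion points in the kernel of reduction -/
def Kr (p : ℕ) {f : ℕ} (V : ValuationSubring ℂ) {ι : Type} (R : Reps A B (p * f) ι) (i : ι) :
    Prop :=
  GRn V (R.L i) ∧ ∀ (m : ℕ) (z : ℂ), ¬ p ∣ m → (m : ℂ) * z ∈ (R.L i).lattice →
    InEn V (R.L i) z → z ∈ (R.L i).lattice

/-- the points are not in the kernel of reduction -/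
theorem not_inEn {p : ℕ} (hcq : CQ A B) (hpp : p.Prime) {V : ValuationSubring ℂ}
    {f : ℕ} {ι : Type} {R : Reps A B (p * f) ι} {i : ι} (hK : Kr p V R i) {m : ℕ}
    (hm : LvM p f m R) {y : OO A B} (hy : IsCoprime y ((m : ℕ) : OO A B)) {k : ℕ}
    (hk : ¬ m ∣ k) : ¬ InEn V (R.L i) (k * pt R (m * p) i y) := by
  intro h
  obtain ⟨⟨W, ξ, hW⟩, hV⟩ := hK
  have h1 : InEn V (R.L i) ((p : ℕ) * (k * pt R (m * p) i y)) := inK_nat hW h p
  have hp0 : (p : ℂ) ≠ 0 := by exact_mod_cast hpp.ne_zero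
  have hm0 : (m : ℂ) ≠ 0 := by exact_mod_cast hm.m0
  have h2 : ((p : ℕ) : ℂ) * (k * pt R (m * p) i y) = R.om i * nI (R.b i) * (k * emb y) / m := by
    unfold pt
    push_cast
    field_simp
  rw [h2] at h1
  have hL := (R.nl i).toIsLI
  have h3 : (m : ℂ) * (R.om i * nI (R.b i) * (k * emb y) / m) ∈ (R.L i).lattice := by
    refine (hL.mem _).2 ⟨((nI (R.b i) : ℕ) : OO A B) * (((k : ℕ) : OO A B) * y),
      Ideal.mul_mem_right _ _ (nI_mem hcq hL.b_ne), ?_⟩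
    rw [emb_mul hcq, emb_mul hcq, emb_natCast hcq, emb_natCast hcq]
    field_simp
  have h4 := hV m _ hm.pm h3 h1
  obtain ⟨b, _, hb⟩ := (hL.mem _).1 h4
  rw [div_eq_iff hm0, mul_assoc, mul_assoc] at hb
  have h5 := mul_left_cancel₀ hL.om_ne hb
  have h6 : ((nI (R.b i) : ℕ) : OO A B) * (((k : ℕ) : OO A B) * y) = b * ((m : ℕ) : OO A B) := by
    apply emb_inj hcq
    rw [emb_mul hcq, emb_mul hcq, emb_natCast hcq, emb_natCast hcq, emb_mul hcq, emb_natCast hcq]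
    exact h5
  have h7 : ((m : ℕ) : OO A B) ∣ ((nI (R.b i) : ℕ) : OO A B) * (((k : ℕ) : OO A B) * y) :=
    ⟨b, by rw [h6, mul_comm]⟩
  have h8 : IsCoprime ((m : ℕ) : OO A B) ((nI (R.b i) : ℕ) : OO A B) := by
    have h9 : (nI (R.b i)).Coprime m := Nat.Coprime.coprime_mul_right_right (hm.cop i)
    have h10 := (Nat.isCoprime_iff_coprime.2 h9).symm
    have h11 := h10.map (Int.castRingHom (OO A B))
    simpa using h11
  have h12 := h8.dvd_of_dvd_mul_left h7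
  have h13 : ((m : ℕ) : OO A B) ∣ ((k : ℕ) : OO A B) := hy.symm.dvd_of_dvd_mul_right h12
  exact hk (nat_idl (A := A) (B := B) (Ideal.mem_span_singleton.2 h13))

theorem x0_cop {m : ℕ} {x0 : OO A B}
    (h2 : x0 - 1 ∈ (idl m : Ideal (OO A B))) : IsCoprime x0 ((m : ℕ) : OO A B) := by
  obtain ⟨u, hu⟩ := Ideal.mem_span_singleton.1 h2
  refine ⟨1, -u, ?_⟩
  rw [one_mul, neg_mul, mul_comm u, ← hu, ← sub_eq_add_neg, sub_sub_cancel]

theorem add_pt {p f : ℕ} (hcq : CQ A B) (hp0 : (p : ℂ) ≠ 0) {ι : Type}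
    (R : Reps A B (p * f) ι) (i : ι) (m : ℕ) (hm0 : (m : ℂ) ≠ 0) (x x0 y0 c : OO A B) :
    pt R (m * p) i (x * (x0 + c * m * y0)) =
      pt R (m * p) i (x * x0) + pt R p i (x * c * y0) := by
  have e : x * (x0 + c * m * y0) = x * x0 + ((m : ℕ) : OO A B) * (x * c * y0) := by ring
  have e1 : emb (x * (x0 + c * ((m : ℕ) : OO A B) * y0)) =
      emb (x * x0) + (m : ℂ) * emb (x * c * y0) := by
    rw [e, emb_add hcq, emb_mul hcq ((m : ℕ) : OO A B), emb_natCast hcq]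
  unfold pt
  rw [e1, Nat.cast_mul]
  generalize emb (x * x0) = u
  generalize emb (x * c * y0) = v
  field_simp

theorem cop_mul {p m : ℕ} {x x0 : OO A B} (hx : IsCoprime x ((m * p : ℕ) : OO A B))
    (h : IsCoprime x0 ((m : ℕ) : OO A B)) : IsCoprime (x * x0) ((m : ℕ) : OO A B) := by
  rw [Nat.cast_mul] at hx
  exact hx.of_mul_right_left.mul_left h

theorem nd_one {m : ℕ} (h3 : 3 ≤ m) : ¬ m ∣ 1 := fun h => by
  have := Nat.le_of_dvd one_pos h
  omega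

theorem nd_two {m : ℕ} (h3 : 3 ≤ m) : ¬ m ∣ 2 := fun h => by
  have := Nat.le_of_dvd two_pos h
  omega

theorem nd_a {m p a : ℕ} (h3 : 3 ≤ m) (hac : a.Coprime (2 * m * p)) : ¬ m ∣ a := fun h => by
  have h1 : a.Coprime (2 * m) := Nat.Coprime.coprime_mul_right_right hac
  have h2 : a.Coprime m := Nat.Coprime.coprime_mul_left_right h1
  have h4 : m = 1 := Nat.Coprime.eq_one_of_dvd h2.symm h
  omega

/-- the last part -/
theorem last {p : ℕ} (hcq : CQ A B) (hpp : p.Prime) {V : ValuationSubring ℂ}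
    {f : ℕ} {ι : Type} {R : Reps A B (p * f) ι} {i : ι} (hK : Kr p V R i)
    (P P' : Ideal (OO A B)) (m : ℕ) (hm : LvM p f m R) (x0 y0 : OO A B)
    (hQ : LvQ p P P' m x0 y0) (x : OO A B) (hx : IsCoprime x ((m * p : ℕ) : OO A B)) :
    (∀ c : OO A B, pt R (m * p) i (x * (x0 + c * m * y0)) =
          pt R (m * p) i (x * x0) + pt R p i (x * c * y0)) ∧
      ¬ InEn V (R.L i) (pt R (m * p) i (x * x0)) ∧
      ¬ InEn V (R.L i) (2 * pt R (m * p) i (x * x0)) ∧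
      ∀ a : ℕ, 1 < a → a.Coprime (2 * m * p) →
        ¬ InEn V (R.L i) (a * pt R (m * p) i (x * x0)) := by
  have hm3 := hQ.m3
  have hm0 : (m : ℂ) ≠ 0 := Nat.cast_ne_zero.2 hm.m0
  have hp0 : (p : ℂ) ≠ 0 := Nat.cast_ne_zero.2 hpp.ne_zero
  have hxx : IsCoprime (x * x0) ((m : ℕ) : OO A B) :=
    cop_mul hx (x0_cop ((Ideal.mul_le_left : (idl m : Ideal (OO A B)) * P' ≤ idl m) hQ.xm))
  refine ⟨fun c => add_pt hcq hp0 R i m hm0 x x0 y0 c, ?_, ?_, fun a ha hac => ?_⟩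
  · have h := not_inEn hcq hpp hK hm hxx (k := 1) (nd_one hm3)
    rw [Nat.cast_one, one_mul] at h
    exact h
  · have h := not_inEn hcq hpp hK hm hxx (k := 2) (nd_two hm3)
    rw [Nat.cast_ofNat] at h
    exact h
  · exact not_inEn hcq hpp hK hm hxx (nd_a hm3 hac)

theorem nd_pred {p q : ℕ} (hpp : p.Prime) (hq : q = p ^ 2 ∨ q = p) :
    ¬ (p : ℤ) ∣ ((q - 1 : ℕ) : ℤ) := by
  intro h
  have h1 : p ∣ q - 1 := by exact_mod_cast h
  have h2 : p ∣ q := by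
    rcases hq with h | h
    · rw [h]
      exact dvd_pow_self p two_ne_zero
    · rw [h]
  have h3 : 1 ≤ q := by
    rcases hq with h | h
    · rw [h]
      exact Nat.one_le_pow _ _ hpp.pos
    · rw [h]
      exact hpp.pos
  have h4 : p ∣ 1 := by
    have h5 := (Nat.dvd_sub h2 h1)
    rwa [Nat.sub_sub_self h3] at h5
  exact hpp.one_lt.ne' (Nat.dvd_one.1 h4)

end VPQ

open VPQ in
/-- VPQ -/
theorem t_VPQ : S_VPQ := by
  intro p q A B P P' V f hS
  obtain ⟨hI, -, hq⟩ | ⟨hG, -, hq⟩ := hS.2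
  · obtain ⟨h1, h2, h3, h4, h5, h6, h7⟩ := t_VPGI p A B P V f hI
    refine ⟨h1, h2, h3, h4, h5, h6, ?_, fun ι R hGR i => ?_⟩
    · have h := h4 _ (nd_pred hI.pp (Or.inl hq))
      rwa [Int.cast_natCast] at h
    · have hK : Kr p V R i := h7 ι R hGR i
      exact ⟨hK.1, t_MUGI t_VPGI p A B P V f hI ι R hGR i, hK.2,
        fun m hm x0 y0 hQ x hx => last hI.cq hI.pp hK P P' m hm x0 y0 hQ x hx⟩
  · obtain ⟨h1, h2, h3, h4, h5, h6, h7⟩ := t_VPG p A B P V f hG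
    refine ⟨h1, h2, h3, h4, h5, h6, ?_, fun ι R hGR i => ?_⟩
    · have h := h4 _ (nd_pred hG.pp (Or.inr hq))
      rwa [Int.cast_natCast] at h
    · have hK : Kr p V R i := h7 ι R hGR i
      exact ⟨hK.1, t_MUG t_VPG p A B P V f hG ι R hGR i, hK.2,
        fun m hm x0 y0 hQ x hx => last hG.cq hG.pp hK P P' m hm x0 y0 hQ x hx⟩

end

end Pool.Agent.TWQ
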