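import Pool.Agent.TWQ.CRTQ
import Pool.Agent.TWQ.IDQ
import Pool.Agent.TWQ.VPQ
import Pool.Agent.TWQ.TEQ
import Pool.Agent.TWQ.THQ
import Pool.Agent.TWQ.KINS
import Pool.Agent.TWQ.UNRQ
import Pool.Agent.TWQ.GFQ
import Pool.Agent.TWQ.LOQ
import Pool.Agent.TWQ.KEYQ
import Pool.Agent.TWQ.FIQ
import Pool.Agent.TWQ.DLQ
import Pool.Agent.TWQ.RSQ
import Pool.Agent.TWQ.SDQ
import Pool.Agent.TWQ.SIGQ

/-!
# TWQ, block B': all modules without hypotheses (helper34)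
-/

set_option autoImplicit false

namespace Pool.Agent.TWQ

theorem a_IDQ : S_IDQ := t_IDQ
theorem a_VPQ : S_VPQ := t_VPQ
theorem a_TEQ : S_TEQ := t_TEQ
theorem a_THQ : S_THQ := t_THQ a_IDQ a_TEQ
theorem a_KINS : S_KINS := t_KINS
theorem a_UNRQ : S_UNRQ := t_UNRQ a_KINS a_IDQ
theorem a_GFQ : S_GFQ := t_GFQ a_IDQ
theorem a_LOQI : S_LOQI := t_LOQI
theorem a_LOQS : S_LOQS := t_LOQS
theorem a_KEYQ : S_KEYQ := t_KEYQ a_IDQ a_VPQ a_TEQ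
theorem a_FIQ : S_FIQ := t_FIQ a_IDQ a_VPQ a_TEQ a_UNRQ a_GFQ a_KEYQ
theorem a_DLQ : S_DLQ := t_DLQ a_IDQ a_KEYQ
theorem a_RSQ : S_RSQ := t_RSQ
theorem a_SDQ : S_SDQ := t_SDQ a_IDQ a_TEQ a_THQ
theorem a_SIGQ : S_SIGQ := t_SIGQ a_IDQ a_TEQ a_THQ

/-- (CRTQ) without hypotheses -/
theorem a_CRTQ : S_CRTQ :=
  t_CRTQ a_IDQ a_VPQ a_TEQ a_THQ a_LOQI a_LOQS a_FIQ a_DLQ a_RSQ a_SDQ a_SIGQ

end Pool.Agent.TWQ
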