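import Pool.Agent.TWQ.StQC
import Pool.Agent.TWT.XPC
import Pool.Agent.TWT.SDE
import Pool.Agent.MUX.I_PTP

/-!
# TWQ, block C', DLCQ: the sum of the logarithmic derivatives over all classes is small
-/

set_option autoImplicit false

open WeierstrassCurve Polynomial NumberField IsDedekindDomain

namespace Pool.Agent.TWQ

open _root_.MU3 Pool.Agent.MU3A Pool.Agent.MU3B Pool.Agent.MU3C Pool.Agent.RI Pool.Agent.RID
open Pool.Agent.MUX Pool.Agent.MUXU Pool.Agent.MUXW Pool.Agent.TWT Pool.Agent.TWI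
open Pool.Agent.MU3V (cls Sub GD algDF)
open Pool.Agent.MUXV (GR InK tX inK_nat)
open Pool.Agent.MUXI (IA RE AR)

noncomputable section

namespace DLCQ

variable {A B : ℤ}

/-! ## The level -/

theorem three_le {f m : ℕ} (cq : CQ A B) (hD : 2 * absD A B ∣ (f : ℤ)) (hm : m ≠ 0)
    (hfm : f ∣ m) : 3 ≤ m := by
  have h0 : 0 < absD A B := absD_pos cq
  have h1 : (2 * absD A B) ∣ (m : ℤ) := hD.trans (by exact_mod_cast hfm)
  have h2 : absD A B ≠ 1 := by
    intro h
    unfold absD at h
    have h3 : B * B + 4 * A = -1 := by linarith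
    have h4 : B * B % 4 = 0 ∨ B * B % 4 = 1 := by
      rcases Int.even_or_odd' B with ⟨k, hk | hk⟩ <;> subst hk <;> ring_nf <;> omega
    omega
  have h5 : 2 * absD A B ≤ m := Int.le_of_dvd (by exact_mod_cast Nat.pos_of_ne_zero hm) h1
  omega

theorem not_inEn {p f m : ℕ} {V : ValuationSubring ℂ} {ι : Type} {R : Reps A B (p * f) ι}
    (cq : CQ A B) (pp : p ≠ 0) {i : ι} (hG : GRn V (R.L i))
    (hV : ∀ (m : ℕ) (z : ℂ), ¬ p ∣ m → (m : ℂ) * z ∈ (R.L i).lattice → InEn V (R.L i) z →
      z ∈ (R.L i).lattice) (hm : LvM p f m R) {y : OO A B}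
    (hy : IsCoprime y ((m : ℕ) : OO A B)) {k : ℕ} (hk : ¬ m ∣ k) :
    ¬ InEn V (R.L i) (k * pt R (m * p) i y) := by
  intro h
  obtain ⟨W, ξ, hW⟩ := hG
  have h1 : InEn V (R.L i) ((p : ℕ) * (k * pt R (m * p) i y)) := inK_nat hW h p
  have hp0 : (p : ℂ) ≠ 0 := by exact_mod_cast pp
  have hm0 : (m : ℂ) ≠ 0 := by exact_mod_cast hm.m0
  have h2 : ((p : ℕ) : ℂ) * (k * pt R (m * p) i y) = R.om i * nI (R.b i) * (k * emb y) / m := by
    unfold pt
    push_cast
    field_simp
  rw [h2] at h1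
  have hL := (R.nl i).toIsLI
  have h3 : (m : ℂ) * (R.om i * nI (R.b i) * (k * emb y) / m) ∈ (R.L i).lattice := by
    refine (hL.mem _).2 ⟨((nI (R.b i) : ℕ) : OO A B) * (((k : ℕ) : OO A B) * y),
      Ideal.mul_mem_right _ _ (nI_mem cq hL.b_ne), ?_⟩
    rw [emb_mul cq, emb_mul cq, emb_natCast cq, emb_natCast cq]
    field_simp
  have h4 := hV m _ hm.pm h3 h1
  obtain ⟨b, _, hb⟩ := (hL.mem _).1 h4
  rw [div_eq_iff hm0, mul_assoc, mul_assoc] at hb
  have h5 := mul_left_cancel₀ hL.om_ne hb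
  have h6 : ((nI (R.b i) : ℕ) : OO A B) * (((k : ℕ) : OO A B) * y) = b * ((m : ℕ) : OO A B) := by
    apply emb_inj cq
    rw [emb_mul cq, emb_mul cq, emb_natCast cq, emb_natCast cq, emb_mul cq, emb_natCast cq]
    exact h5
  have h7 : ((m : ℕ) : OO A B) ∣ ((nI (R.b i) : ℕ) : OO A B) * (((k : ℕ) : OO A B) * y) :=
    ⟨b, by rw [h6, mul_comm]⟩
  have h8 : IsCoprime ((m : ℕ) : OO A B) ((nI (R.b i) : ℕ) : OO A B) := by
    have h9 : (nI (R.b i)).Coprime m := Nat.Coprime.coprime_mul_right_right (hm.cop i)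
    have h10 := (Nat.isCoprime_iff_coprime.2 h9).symm
    have h11 := h10.map (Int.castRingHom (OO A B))
    simpa using h11
  have h12 := h8.dvd_of_dvd_mul_left h7
  have h13 : ((m : ℕ) : OO A B) ∣ ((k : ℕ) : OO A B) := hy.symm.dvd_of_dvd_mul_right h12
  exact hk (XPC.nat_idl (A := A) (B := B) (Ideal.mem_span_singleton.2 h13))

theorem pt_low {n : ℕ} {ι : Type} (cq : CQ A B) (R : Reps A B n ι) {m p : ℕ} (hm : m ≠ 0)
    (i : ι) (y : OO A B) : pt R (m * p) i (((m : ℕ) : OO A B) * y) = pt R p i y := by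
  have hm' : (m : ℂ) ≠ 0 := by exact_mod_cast hm
  unfold pt
  rw [emb_mul cq, emb_natCast cq]
  push_cast
  rcases eq_or_ne (p : ℂ) 0 with hp | hp
  · rw [hp]; simp
  · field_simp

theorem mem_idl {m p : ℕ} {P P' : Ideal (OO A B)} (hPP : P * P' = idl p) {x : OO A B}
    (hx : x ∈ idl (A := A) (B := B) (m * p)) : x ∈ (idl m : Ideal (OO A B)) * P' := by
  obtain ⟨t, rfl⟩ := Ideal.mem_span_singleton.1 hx
  have h1 : ((m * p : ℕ) : OO A B) * t = ((m : ℕ) : OO A B) * (((p : ℕ) : OO A B) * t) := by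
    push_cast
    ring
  rw [h1]
  have h2 : ((p : ℕ) : OO A B) * t ∈ idl (A := A) (B := B) p :=
    Ideal.mem_span_singleton.2 (dvd_mul_right _ _)
  rw [← hPP] at h2
  have h3 : ((p : ℕ) : OO A B) * t ∈ P' := (Ideal.mul_le_right : P * P' ≤ P') h2
  exact Ideal.mul_mem_mul (Ideal.mem_span_singleton_self _) h3

/-! ## Sums -/

theorem sumMod_eq {m : OO A B} [Fintype (OO A B ⧸ Ideal.span {m})] (F : OO A B → ℂ) :
    sumMod m F = ∑ q : OO A B ⧸ Ideal.span {m}, F (Quotient.out q) := by
  unfold sumMod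
  exact finsum_eq_sum_of_fintype _

theorem sumMod_add {m : OO A B} (t : OO A B) {F : OO A B → ℂ}
    (hF : ∀ x y, x - y ∈ Ideal.span {m} → F x = F y) :
    sumMod m (fun x => F (x + t)) = sumMod m F := by
  let e : (OO A B ⧸ Ideal.span {m}) ≃ (OO A B ⧸ Ideal.span {m}) :=
    Equiv.addRight (Ideal.Quotient.mk (Ideal.span {m}) t)
  unfold sumMod
  rw [← finsum_comp_equiv (f := fun q : OO A B ⧸ Ideal.span {m} => F (Quotient.out q)) e]
  refine finsum_congr fun q => ?_
  refine hF _ _ ?_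
  rw [← Ideal.Quotient.eq, map_add, Ideal.Quotient.mk_out]
  have h2 : Ideal.Quotient.mk (Ideal.span {m}) (Quotient.out (e q)) = e q :=
    Ideal.Quotient.mk_out _
  rw [h2]
  rfl

theorem sumMod_sum {m : OO A B} (hfin : Finite (OO A B ⧸ Ideal.span {m})) {κ : Type}
    (T : Finset κ) (F : κ → OO A B → ℂ) :
    sumMod m (fun x => ∑ c ∈ T, F c x) = ∑ c ∈ T, sumMod m (F c) := by
  have := Fintype.ofFinite (OO A B ⧸ Ideal.span {m})
  rw [sumMod_eq, Finset.sum_comm]
  exact Finset.sum_congr rfl fun c _ => (sumMod_eq _).symm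

theorem sumMod_lt {m : OO A B} (hfin : Finite (OO A B ⧸ Ideal.span {m}))
    (V : ValuationSubring ℂ) {F : OO A B → ℂ} (h : ∀ x, V.valuation (F x) < 1) :
    V.valuation (sumMod m F) < 1 := by
  have := Fintype.ofFinite (OO A B ⧸ Ideal.span {m})
  rw [sumMod_eq]
  exact V.valuation.map_sum_lt one_ne_zero fun q _ => h _

/-- the decomposition into cosets -/
theorem sumMod_cosets {m : OO A B} (hfin : Finite (OO A B ⧸ Ideal.span {m})) (P : Ideal (OO A B))
    (hmP : m ∈ P) (T : Finset (OO A B)) (g : OO A B → OO A B)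
    (hT : ∀ u, ∃! c, c ∈ T ∧ u - g c ∈ P) {F : OO A B → ℂ}
    (hF : ∀ x y, x - y ∈ Ideal.span {m} → F x = F y) :
    sumMod m F = sumMod m fun x => (open Classical in if x ∈ P then 1 else 0) *
      ∑ c ∈ T, F (x + g c) := by
  classical
  have hle : ∀ x, x ∈ Ideal.span {m} → x ∈ P := by
    intro x hx
    obtain ⟨t, rfl⟩ := Ideal.mem_span_singleton.1 hx
    exact P.mul_mem_right _ hmP
  have e1 : sumMod m F = sumMod m fun u => ∑ c ∈ T, (if u - g c ∈ P then 1 else 0) * F u := by
    congr 1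
    funext u
    obtain ⟨c, ⟨hc, hcu⟩, huniq⟩ := hT u
    rw [Finset.sum_eq_single_of_mem c hc]
    · rw [if_pos hcu, one_mul]
    · intro c' hc' hne
      rw [if_neg fun h => hne (huniq c' ⟨hc', h⟩), zero_mul]
  have e2 : ∀ c, sumMod m (fun u => (if u - g c ∈ P then (1 : ℂ) else 0) * F u) =
      sumMod m fun x => (if x ∈ P then (1 : ℂ) else 0) * F (x + g c) := by
    intro c
    have h1 : ∀ x y, x - y ∈ Ideal.span {m} →
        (if x - g c ∈ P then (1 : ℂ) else 0) * F x = (if y - g c ∈ P then 1 else 0) * F y := by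
      intro x y hxy
      rw [hF x y hxy]
      have h2 : x - g c ∈ P ↔ y - g c ∈ P := by
        have h3 : x - g c = (x - y) + (y - g c) := by ring
        rw [h3]
        exact P.add_mem_iff_right (hle _ hxy)
      by_cases h4 : x - g c ∈ P
      · rw [if_pos h4, if_pos (h2.1 h4)]
      · rw [if_neg h4, if_neg fun h5 => h4 (h2.2 h5)]
    rw [← sumMod_add (g c) h1]
    congr 1
    funext x
    rw [add_sub_cancel_right]
  rw [e1, sumMod_sum hfin]
  simp only [e2]
  rw [← sumMod_sum hfin]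
  congr 1
  funext x
  rw [Finset.mul_sum]

/-- one representative for every class -/
theorem reps {P : Ideal (OO A B)} [hP : P.IsPrime] {T : Finset (OO A B)} (hT : RepI P T)
    {s : OO A B} (hs : s ∉ P) :
    ∀ u : OO A B, ∃! c, c ∈ insert (0 : OO A B) T ∧ u - s * c ∈ P := by
  classical
  have hrep : ∀ x : OO A B, ∃ y ∈ insert (0 : OO A B) T, x - y ∈ P := by
    intro x
    by_cases hx : x ∈ P
    · exact ⟨0, Finset.mem_insert_self _ _, by rwa [sub_zero]⟩
    · obtain ⟨y, hy, hxy⟩ := hT.surj x hx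
      exact ⟨y, Finset.mem_insert_of_mem hy, hxy⟩
  have hinj : ∀ x ∈ insert (0 : OO A B) T, ∀ y ∈ insert (0 : OO A B) T, x - y ∈ P → x = y := by
    intro x hx y hy hxy
    rcases Finset.mem_insert.1 hx with rfl | hx'
    · rcases Finset.mem_insert.1 hy with rfl | hy'
      · rfl
      · rw [zero_sub, neg_mem_iff] at hxy
        exact absurd hxy (hT.nz y hy')
    · rcases Finset.mem_insert.1 hy with rfl | hy'
      · rw [sub_zero] at hxy
        exact absurd hxy (hT.nz x hx')
      · exact hT.inj x hx' y hy' hxy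
  choose ρ hρ hρP using hrep
  have hsur : Function.Surjective
      (fun c : {c // c ∈ insert (0 : OO A B) T} =>
        (⟨ρ (s * c.1), hρ _⟩ : {c // c ∈ insert (0 : OO A B) T})) := by
    refine Finite.surjective_of_injective ?_
    intro c c' h
    have h1 : ρ (s * c.1) = ρ (s * c'.1) := congrArg Subtype.val h
    have h2 : s * (c.1 - c'.1) ∈ P := by
      have h3 := P.sub_mem (hρP (s * c.1)) (hρP (s * c'.1))
      rw [h1] at h3
      have h4 : s * (c.1 - c'.1) = s * c.1 - ρ (s * c'.1) - (s * c'.1 - ρ (s * c'.1)) := by ring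
      rw [h4]
      exact h3
    exact Subtype.ext (hinj _ c.2 _ c'.2 ((hP.mem_or_mem h2).resolve_left hs))
  intro u
  obtain ⟨⟨c, hc⟩, hcu⟩ := hsur ⟨ρ u, hρ u⟩
  have h1 : ρ (s * c) = ρ u := congrArg Subtype.val hcu
  refine ⟨c, ⟨hc, ?_⟩, ?_⟩
  · have h3 := P.sub_mem (hρP u) (hρP (s * c))
    rw [h1] at h3
    have h4 : u - s * c = u - ρ u - (s * c - ρ u) := by ring
    rw [h4]
    exact h3
  · rintro c' ⟨hc', hu'⟩
    have h3 := hρP (s * c)
    rw [h1] at h3
    have h5 : s * (c' - c) ∈ P := by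
      have h6 : s * (c' - c) = (u - ρ u) - (u - s * c') - (s * c - ρ u) := by ring
      rw [h6]
      exact P.sub_mem (P.sub_mem (hρP u) hu') h3
    exact hinj _ hc' _ hc ((hP.mem_or_mem h5).resolve_left hs)

end DLCQ

open DLCQ in
/-- (DLCQ) -/
theorem t_DLCQ (hNEAQ : S_NEAQ) (hIDQ : S_IDQ) (hVPQ : S_VPQ) : S_DLCQ := by
  classical
  intro p q A B P P' V f hS ι _ R hG m hm y0 hy0' hy0 hK E hEper hEcop hEv a ha hac
  obtain ⟨⟨cq, pp, p5, pq, hP, -, f0, fp, fD, hPP, -⟩, hPZ, ⟨T, hT⟩, hTcard, -⟩ :=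
    hIDQ p q A B P P' V f hS
  obtain ⟨vp, vp0, -, vn, -, -, -, hR⟩ := hVPQ p q A B P P' V f hS
  have hm3 : 3 ≤ m := three_le cq fD hm.m0 hm.fm
  have hM0 : m * p ≠ 0 := mul_ne_zero hm.m0 pp.ne_zero
  have hfin := SDE.finR (A := A) (B := B) (m * p) hM0
  have hpP : ((p : ℕ) : OO A B) ∈ P := by
    have h := (hPZ (p : ℤ)).2 dvd_rfl
    simpa using h
  have hmP : ((m : ℕ) : OO A B) ∉ P := by
    intro h
    have h1 := (hPZ (m : ℤ)).1 (by simpa using h)
    exact hm.pm (by exact_mod_cast h1)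
  have hs : ((m : ℕ) : OO A B) * y0 ∉ P := fun h =>
    (hP.mem_or_mem h).elim hmP hy0
  -- valuations
  have vq : V.valuation (q : ℂ) < 1 := by
    rcases hS.2 with ⟨-, -, rfl⟩ | ⟨-, -, rfl⟩
    · rw [Nat.cast_pow, map_pow]
      exact pow_lt_one₀ zero_le vp two_ne_zero
    · exact vp
  have hpa : ¬ (p : ℤ) ∣ (a : ℤ) := by
    intro h
    have h1 : p ∣ a := by exact_mod_cast h
    have h2 : p ∣ 1 := by
      rw [← (Nat.Coprime.coprime_mul_left_right hac).gcd_eq_one]
      exact Nat.dvd_gcd h1 dvd_rfl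
    exact pp.one_lt.ne' (Nat.dvd_one.1 h2)
  have va : V.valuation (a : ℂ) = 1 := by
    have h := vn (a : ℤ) hpa
    simpa using h
  have ha2 : a.Coprime 2 :=
    Nat.Coprime.coprime_mul_right_right (Nat.Coprime.coprime_mul_right_right hac)
  have ham : a.Coprime m :=
    Nat.Coprime.coprime_mul_left_right (Nat.Coprime.coprime_mul_right_right hac)
  have hm1 : ¬ m ∣ 1 := fun h => by
    have := Nat.le_of_dvd one_pos h
    omega
  have hma : ¬ m ∣ a := fun h => hm1 (by
    rw [← ham.gcd_eq_one]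
    exact Nat.dvd_gcd h dvd_rfl)
  -- one lattice
  have key : ∀ i, V.valuation (sumMod ((m * p : ℕ) : OO A B)
      fun x => E i x * dlX (R.L i) a (pt R (m * p) i x)) < 1 := by
    intro i
    obtain ⟨hGR, -, hV, -⟩ := hR ι R hG i
    obtain ⟨ptp1, -⟩ := Pool.Agent.MUXI.ti_PTP A B cq (p * f) ι R (m * p) hM0 i
    have hle : ∀ x : OO A B, x ∈ idl (A := A) (B := B) (m * p) →
        x ∈ (idl m : Ideal (OO A B)) * P' := fun x hx => mem_idl hPP hx
    have hFper : ∀ x y : OO A B, x - y ∈ Ideal.span {((m * p : ℕ) : OO A B)} →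
        E i x * dlX (R.L i) a (pt R (m * p) i x) = E i y * dlX (R.L i) a (pt R (m * p) i y) := by
      intro x y hxy
      rw [hEper i x y (hle _ hxy), (ptp1 x y hxy).2.2 a]
    have hMP : ((m * p : ℕ) : OO A B) ∈ P := by
      rw [Nat.cast_mul]
      exact P.mul_mem_left _ hpP
    rw [sumMod_cosets hfin P hMP (insert 0 T) (fun c => ((m : ℕ) : OO A B) * y0 * c)
      (reps hT hs) hFper]
    refine sumMod_lt hfin V fun x => ?_
    have hper : ∀ c : OO A B, E i (x + ((m : ℕ) : OO A B) * y0 * c) = E i x := by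
      intro c
      refine hEper i _ _ ?_
      have h1 : x + ((m : ℕ) : OO A B) * y0 * c - x = ((m : ℕ) : OO A B) * (y0 * c) := by ring
      rw [h1]
      exact Ideal.mul_mem_mul (Ideal.mem_span_singleton_self _) (P'.mul_mem_right _ hy0')
    have hmain : V.valuation (∑ c ∈ insert (0 : OO A B) T,
        E i (x + ((m : ℕ) : OO A B) * y0 * c) * dlX (R.L i) a
          (pt R (m * p) i (x + ((m : ℕ) : OO A B) * y0 * c))) < 1 := by
      by_cases hE : E i x = 0
      · rw [Finset.sum_eq_zero fun c _ => by rw [hper, hE, zero_mul], map_zero]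
        exact zero_lt_one
      · have hcop := hEcop i x hE
        have hz1 : ¬ InEn V (R.L i) (pt R (m * p) i x) := by
          have h := not_inEn cq pp.ne_zero hGR hV hm (i := i) hcop hm1
          rwa [Nat.cast_one, one_mul] at h
        have hza : ¬ InEn V (R.L i) (a * pt R (m * p) i x) :=
          not_inEn cq pp.ne_zero hGR hV hm (i := i) hcop hma
        have hpt : ∀ c : OO A B, pt R (m * p) i (x + ((m : ℕ) : OO A B) * y0 * c) =
            pt R (m * p) i x + pt R p i (c * y0) := by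
          intro c
          rw [XPC.pt_add' cq, mul_assoc, pt_low cq R hm.m0, mul_comm y0 c]
        have hr : ∀ c ∈ insert (0 : OO A B) T, InEn V (R.L i) (pt R p i (c * y0)) := by
          intro c hc
          rcases Finset.mem_insert.1 hc with rfl | hc
          · left
            have h0 : pt R p i ((0 : OO A B) * y0) = 0 := by
              rw [zero_mul]
              unfold pt
              rw [emb_zero cq]
              simp
            rw [h0]
            exact (R.L i).lattice.zero_mem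
          · exact hK i c (hT.nz c hc)
        have hnea := fun c (hc : c ∈ insert (0 : OO A B) T) =>
          hNEAQ V (R.L i) hGR a ha ha2 va (pt R (m * p) i x) (pt R p i (c * y0)) hz1 hza (hr c hc)
        have hcard : (insert (0 : OO A B) T).card = q := by
          have h0 : (0 : OO A B) ∉ T := fun h => hT.nz 0 h P.zero_mem
          rw [Finset.card_insert_of_notMem h0, hTcard T hT]
          have := pp.one_lt
          omega
        have hsum : ∑ c ∈ insert (0 : OO A B) T,
            E i (x + ((m : ℕ) : OO A B) * y0 * c) * dlX (R.L i) a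
              (pt R (m * p) i (x + ((m : ℕ) : OO A B) * y0 * c)) =
            E i x * ((q : ℂ) * dlX (R.L i) a (pt R (m * p) i x) +
              ∑ c ∈ insert (0 : OO A B) T,
                (dlX (R.L i) a (pt R (m * p) i x + pt R p i (c * y0)) -
                  dlX (R.L i) a (pt R (m * p) i x))) := by
          rw [Finset.sum_sub_distrib, Finset.sum_const, hcard, nsmul_eq_mul, add_sub_cancel,
            Finset.mul_sum]
          exact Finset.sum_congr rfl fun c _ => by rw [hper, hpt]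
        rw [hsum, map_mul]
        have h1 : V.valuation ((q : ℂ) * dlX (R.L i) a (pt R (m * p) i x) +
            ∑ c ∈ insert (0 : OO A B) T,
              (dlX (R.L i) a (pt R (m * p) i x + pt R p i (c * y0)) -
                dlX (R.L i) a (pt R (m * p) i x))) < 1 := by
          refine V.valuation.map_add_lt ?_ ?_
          · rw [map_mul]
            exact lt_of_le_of_lt (mul_le_of_le_one_right' (hnea 0 (Finset.mem_insert_self _ _)).1) vq
          · exact V.valuation.map_sum_lt one_ne_zero fun c hc => (hnea c hc).2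
        exact lt_of_le_of_lt (mul_le_of_le_one_left' (hEv i x)) h1
    by_cases hx : x ∈ P
    · simp only [if_pos hx, one_mul]
      exact hmain
    · simp only [if_neg hx, zero_mul, map_zero]
      exact zero_lt_one
  unfold DAll
  refine V.valuation.map_sum_lt one_ne_zero fun i _ => ?_
  rw [map_mul, (hR ι R hG i).2.1, one_mul]
  exact key i

end

end Pool.Agent.TWQ
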