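import Pool.Agent.TWQ.StQC
import Pool.Agent.TWT.THT
import Pool.Agent.TWT.XPC

/-!
# TWQ, module NEAQ (helper99): the logarithmic derivative of `Θ_a` modulo the maximal ideal
depends only on the reduction of the point
-/

set_option autoImplicit false

open WeierstrassCurve

namespace Pool.Agent.TWQ

open _root_.MU3 Pool.Agent.MU3A Pool.Agent.MU3B Pool.Agent.MUX Pool.Agent.MUXU
open Pool.Agent.MUXV (GR InK tX)

noncomputable section

namespace NEAQ

/-- polynomials over `V` have congruent values at congruent integral points -/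
lemma aeval_near {V : ValuationSubring ℂ} {x x' y y' : ℂ} (hx : V.valuation x ≤ 1)
    (hy : V.valuation y ≤ 1) (hxx : V.valuation (x' - x) < 1) (hyy : V.valuation (y' - y) < 1)
    (θ : MvPolynomial (Fin 2) V) :
    V.valuation (MvPolynomial.aeval ![x, y] θ) ≤ 1 ∧
      V.valuation (MvPolynomial.aeval ![x', y'] θ - MvPolynomial.aeval ![x, y] θ) < 1 := by
  have hC : ∀ c : V, V.valuation (c : ℂ) ≤ 1 := fun c =>
    (ValuationSubring.valuation_le_one_iff _ _).2 c.2
  have hX : ∀ i : Fin 2, V.valuation ((![x, y] : Fin 2 → ℂ) i) ≤ 1 ∧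
      V.valuation ((![x', y'] : Fin 2 → ℂ) i - (![x, y] : Fin 2 → ℂ) i) < 1 := by
    intro i
    fin_cases i
    · exact ⟨hx, hxx⟩
    · exact ⟨hy, hyy⟩
  induction θ using MvPolynomial.induction_on with
  | C c =>
    rw [MvPolynomial.aeval_C, MvPolynomial.aeval_C, sub_self, map_zero]
    exact ⟨hC c, zero_lt_one⟩
  | add f g hf hg =>
    have a1 : ∀ p : Fin 2 → ℂ, MvPolynomial.aeval p (f + g) =
        MvPolynomial.aeval p f + MvPolynomial.aeval p g := fun p => map_add _ _ _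
    rw [a1, a1]
    refine ⟨V.valuation.map_add_le hf.1 hg.1, ?_⟩
    have h1 : ∀ a b c d : ℂ, a + b - (c + d) = (a - c) + (b - d) := by intros; ring
    rw [h1]
    exact V.valuation.map_add_lt hf.2 hg.2
  | mul_X f i hf =>
    have a1 : ∀ p : Fin 2 → ℂ, MvPolynomial.aeval p (f * MvPolynomial.X i) =
        MvPolynomial.aeval p f * p i := fun p => by rw [map_mul, MvPolynomial.aeval_X]
    rw [a1, a1]
    obtain ⟨h1, h2⟩ := hX i
    refine ⟨by rw [map_mul]; exact mul_le_one' hf.1 h1, ?_⟩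
    have h3 : ∀ a b c d : ℂ, a * b - c * d = (a - c) * (b - d) + (a - c) * d + c * (b - d) := by
      intros; ring
    rw [h3]
    refine V.valuation.map_add_lt (V.valuation.map_add_lt ?_ ?_) ?_
    · rw [map_mul]
      exact mul_lt_one_of_nonneg_of_lt_one_left zero_le hf.2 h2.le
    · rw [map_mul]
      exact mul_lt_one_of_nonneg_of_lt_one_left zero_le hf.2 h1
    · rw [map_mul]
      exact mul_lt_one_of_nonneg_of_lt_one_right hf.1 zero_le h2

end NEAQ

open NEAQ in
theorem t_NEAQ : S_NEAQ := by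
  intro V L hG a ha hac hva z r hz haz hr
  obtain ⟨W, ξ, G0⟩ := hG
  have G : GR V W L (xn L) (yy L) ξ := G0
  have hz : ¬ InK V L (xn L) z := hz
  have haz : ¬ InK V L (xn L) (a * z) := haz
  have hr : InK V L (xn L) r := hr
  obtain ⟨H, hH⟩ := Pool.Agent.TWT.XPC.exists_half L (a := a) (by omega) hac
  obtain ⟨θ, hθ⟩ := Pool.Agent.TWT.t_THT V W L ξ G a H ha hva hH 0 0
  have hzr : ¬ InK V L (xn L) (z + r) := fun h => hz (by
    have h1 := Pool.Agent.MUXV.inK_sub G h hr
    rwa [add_sub_cancel_right] at h1)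
  have har := Pool.Agent.MUXV.inK_nat G hr a
  have hazr : ¬ InK V L (xn L) (a * (z + r)) := fun h => haz (by
    have h1 := Pool.Agent.MUXV.inK_sub G h har
    have h2 : (a : ℂ) * (z + r) - a * r = a * z := by ring
    rwa [h2] at h1)
  obtain ⟨e1, v1, e2, w1⟩ := hθ z hz haz
  obtain ⟨e1', v1', e2', w1'⟩ := hθ (z + r) hzr hazr
  obtain ⟨n1, n2⟩ := Pool.Agent.MUXV.near_lt G hz hr
  have hX := (Pool.Agent.MUXV.int_X hz).2
  have hY := Pool.Agent.MUXV.int_Y G hz
  refine ⟨w1, ?_⟩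
  have k1 := (aeval_near hX hY n1 n2 θ).2
  have k2 := (aeval_near hX hY n1 n2 (Pool.Agent.TWT.dW 0 0 θ)).2
  rw [e1, e1'] at k1
  rw [e2, e2'] at k2
  -- `Θ(z) (dlX(z + r) - dlX(z)) = (Θ' dl' - Θ dl) - (Θ' - Θ) dl'`
  have h3 : ThetaH L H z * (dlX L a (z + r) - dlX L a z) =
      (ThetaH L H (z + r) * dlX L a (z + r) - ThetaH L H z * dlX L a z) -
        (ThetaH L H (z + r) - ThetaH L H z) * dlX L a (z + r) := by ring
  have h4 : V.valuation (ThetaH L H z * (dlX L a (z + r) - dlX L a z)) < 1 := by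
    rw [h3]
    refine V.valuation.map_sub_lt k2 ?_
    rw [map_mul]
    exact mul_lt_one_of_nonneg_of_lt_one_left zero_le k1 w1'
  rwa [map_mul, v1, one_mul] at h4

end

end Pool.Agent.TWQ
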