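import Pool.Agent.TWQ.StQC
import Pool.Agent.TWT.SDE
import Pool.Agent.TWX.FAC
import Pool.Agent.TWB.TWB

/-!
# TWQ_SALQ: the sum over all `x` is small (helper30)
-/

set_option autoImplicit false

open WeierstrassCurve Polynomial NumberField IsDedekindDomain

namespace Pool.Agent.TWQ

open _root_.MU3 Pool.Agent.MU3A Pool.Agent.MU3B Pool.Agent.MU3C Pool.Agent.RI Pool.Agent.RID
open Pool.Agent.MUX Pool.Agent.MUXU Pool.Agent.MUXW Pool.Agent.TWT Pool.Agent.TWI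
open Pool.Agent.MU3V (cls Sub GD algDF)
open Pool.Agent.MUXV (GR InK tX)
open Pool.Agent.MUXI (IA RE AR)
open OnePoint

noncomputable section

namespace SALQ

theorem mem_left {R : Type} [CommRing R] {I J : Ideal R} {x : R} (h : x ∈ I * J) : x ∈ I :=
  (Ideal.mul_le_inf h).1

theorem mem_right {R : Type} [CommRing R] {I J : Ideal R} {x : R} (h : x ∈ I * J) : x ∈ J :=
  (Ideal.mul_le_inf h).2

theorem span_of_dvd {R : Type} [CommRing R] {a b : ℕ} (h : a ∣ b) {x : R}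
    (hx : x ∈ Ideal.span {((b : ℕ) : R)}) : x ∈ Ideal.span {((a : ℕ) : R)} := by
  rw [Ideal.mem_span_singleton] at hx ⊢
  exact (Nat.cast_dvd_cast h).trans hx

theorem span_prod {R : Type} [CommRing R] {m p : ℕ} {P P' : Ideal R}
    (hPP : P * P' = Ideal.span {((p : ℕ) : R)}) {x : R}
    (hx : x ∈ Ideal.span {((m * p : ℕ) : R)}) : x ∈ Ideal.span {((m : ℕ) : R)} * P' := by
  obtain ⟨t, rfl⟩ := Ideal.mem_span_singleton.1 hx
  have h7 : ((p : ℕ) : R) ∈ P * P' := by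
    rw [hPP]
    exact Ideal.mem_span_singleton_self _
  have h8 : ((m * p : ℕ) : R) * t = ((m : ℕ) : R) * (((p : ℕ) : R) * t) := by
    push_cast
    ring
  rw [h8]
  exact Ideal.mul_mem_mul (Ideal.mem_span_singleton_self _) (P'.mul_mem_right _ (mem_right h7))

theorem cop_prod {R : Type} [CommRing R] {f l n : ℕ} (hlf : l ∣ f) {x : R}
    (h : IsCoprime x ((f : ℕ) : R)) : IsCoprime x ((f * l ^ n : ℕ) : R) := by
  have h8 : IsCoprime x ((l : ℕ) : R) := h.of_isCoprime_of_dvd_right (Nat.cast_dvd_cast hlf)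
  rw [Nat.cast_mul, Nat.cast_pow]
  exact h.mul_right h8.pow_right

variable {A B : ℤ} {n' : ℕ} {ι : Type}

open Pool.Agent.TWT.SDE in
theorem per (R : Reps A B n' ι) (kp : ι → ℂ) (eta w : OO A B → ℂ) (f l n b : ℕ)
    (P P' : Ideal (OO A B)) (hper : ∀ x y, x - y ∈ (idl f : Ideal (OO A B)) → eta x = eta y)
    (wper : ∀ x y, x - y ∈ P → w x = w y) (hbb : b = 0 ∨ P' = cjI P)
    (ψ : DirichletCharacter ℂ (l ^ n)) (i : ι) (x y : OO A B)
    (hxy : x - y ∈ (idl (f * l ^ n) : Ideal (OO A B)) * P') :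
    thP R kp eta ψ w b i x = thP R kp eta ψ w b i y := by
  have hm1 : x - y ∈ idl (A := A) (B := B) (f * l ^ n) := mem_left hxy
  have hm2 : x - y ∈ P' := mem_right hxy
  have hmf : x - y ∈ idl (A := A) (B := B) f := span_of_dvd ⟨l ^ n, rfl⟩ hm1
  have hml : x - y ∈ idl (A := A) (B := B) (l ^ n) := span_of_dvd ⟨f, mul_comm _ _⟩ hm1
  have e1 : w (star x) ^ b = w (star y) ^ b := by
    rcases hbb with hb | hP'
    · rw [hb, pow_zero, pow_zero]
    · rw [hP'] at hm2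
      have h6 : star (x - y) ∈ P := hm2
      rw [star_sub] at h6
      rw [wper _ _ h6]
  have e2 : ((nm x * (nI (R.b i) : ℤ) : ℤ) : ZMod (l ^ n)) =
      ((nm y * (nI (R.b i) : ℤ) : ℤ) : ZMod (l ^ n)) := by
    rw [← sub_eq_zero, ← Int.cast_sub, ZMod.intCast_zmod_eq_zero_iff_dvd, ← sub_mul]
    exact (nm_per (l ^ n) hml).mul_right _
  unfold thP thT
  rw [e1, e2, hper x y hmf]

theorem cop (R : Reps A B n' ι) (kp : ι → ℂ) (eta w : OO A B → ℂ) (f l n b : ℕ) (hlf : l ∣ f)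
    (hs : ∀ x, eta x ≠ 0 ↔ IsCoprime (sp x) (idl f : Ideal (OO A B)))
    (ψ : DirichletCharacter ℂ (l ^ n)) (i : ι) (x : OO A B)
    (hx : thP R kp eta ψ w b i x ≠ 0) : IsCoprime x ((f * l ^ n : ℕ) : OO A B) := by
  have h6 : eta x ≠ 0 := by
    intro h7
    apply hx
    unfold thP thT
    rw [h7, mul_zero, zero_mul, zero_mul]
  have h7 : IsCoprime x ((f : ℕ) : OO A B) := by
    have h8 := (hs x).1 h6
    rwa [Ideal.isCoprime_span_singleton_iff] at h8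
  exact cop_prod hlf h7

open Pool.Agent.TWT.SDE in
theorem val (V : ValuationSubring ℂ) (R : Reps A B n' ι) (kp : ι → ℂ) (eta w : OO A B → ℂ)
    (q b r : ℕ) [NeZero q] (hr0 : r ≠ 0) (hr1 : ∀ i, kp i ^ r = 1)
    (hr2 : ∀ x, eta x ≠ 0 → eta x ^ r = 1) (hw : ∀ x, V.valuation (w x) ≤ 1)
    (ψ : DirichletCharacter ℂ q) (i : ι) (x : OO A B) :
    V.valuation (thP R kp eta ψ w b i x) ≤ 1 := by
  unfold thP thT
  rw [map_mul, map_mul, map_mul, map_pow]
  have e1 : V.valuation (kp i) ≤ 1 := (val_root V hr0 (hr1 i)).le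
  have e2 : V.valuation (eta x) ≤ 1 := by
    by_cases hx : eta x = 0
    · rw [hx, map_zero]
      exact zero_le_one
    · exact (val_root V hr0 (hr2 x hx)).le
  exact mul_le_one' (mul_le_one' (mul_le_one' e1 e2)
    (Pool.Agent.TWB.TWBAux.chi_val V _ ψ _)) (pow_le_one' (hw _) b)

open Pool.Agent.TWT.SDE in
theorem thP_mul (R : Reps A B n' ι) (kp : ι → ℂ) (eta w : OO A B → ℂ) (q b a : ℕ)
    (hmul : ∀ x y, eta (x * y) = eta x * eta y) (wmul : ∀ x y, w (x * y) = w x * w y)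
    (e1 : eta ((a : OO A B)) = 1) (e2 : w ((a : OO A B)) = 1)
    (ψ : DirichletCharacter ℂ q) (i : ι) (x : OO A B) :
    thP R kp eta ψ w b i ((a : OO A B) * x) =
      ψ (((a : ℤ) ^ 2 : ℤ) : ZMod q) * thP R kp eta ψ w b i x := by
  have e3 : (((a : ℤ) ^ 2 * nm x * (nI (R.b i) : ℤ) : ℤ) : ZMod q) =
      (((a : ℤ) ^ 2 : ℤ) : ZMod q) *
        ((nm x * (nI (R.b i) : ℤ) : ℤ) : ZMod q) := by
    push_cast
    ring
  unfold thP thT
  rw [hmul, e1, nm_nat_mul, e3, map_mul, star_mul', star_natCast, wmul, e2]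
  ring

open Pool.Agent.TWT.SDE in
theorem sums [Fintype ι] (hcq : CQ A B) (R : Reps A B n' ι) (M a : ℕ) (hM0 : M ≠ 0)
    (haM : a.Coprime M) (E : ι → OO A B → ℂ) (c : ℂ) (hc0 : c ≠ 0)
    (hE : ∀ (i : ι) (x : OO A B), E i ((a : OO A B) * x) = c * E i x)
    (hper : ∀ i x y, x - y ∈ Ideal.span {((M : ℕ) : OO A B)} → E i x = E i y) :
    DAll R M a E = ((a : ℂ) * c⁻¹ - (a : ℂ) ^ 2) * SAll R M E := by
  have hcO : IsCoprime ((a : ℕ) : OO A B) ((M : ℕ) : OO A B) := by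
    have h5 := (Nat.isCoprime_iff_coprime.2 haM).map (Int.castRingHom (OO A B))
    simpa using h5
  have hfin := finR (A := A) (B := B) M hM0
  have key : ∀ i : ι, sumMod ((M : ℕ) : OO A B) (fun x =>
      E i x * dlX (R.L i) a (pt R M i x)) =
      ((a : ℂ) * c⁻¹ - (a : ℂ) ^ 2) * sumMod ((M : ℕ) : OO A B) (fun x =>
      E i x * ee (R.L i) (pt R M i x)) := by
    intro i
    obtain ⟨ptp1, ptp2⟩ := Pool.Agent.MUXI.ti_PTP A B hcq n' ι R M hM0 i
    set G : OO A B → ℂ := fun x => E i x * ee (R.L i) (pt R M i x) with hG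
    have hGp : ∀ x y, x - y ∈ Ideal.span {((M : ℕ) : OO A B)} → G x = G y := by
      intro x y hxy
      simp only [hG]
      rw [hper i x y hxy, (ptp1 x y hxy).2.1]
    have e1 := sumMod_mul hcO hGp
    have e2 : sumMod ((M : ℕ) : OO A B) (fun x => E i x * dlX (R.L i) a (pt R M i x)) =
        (a : ℂ) * c⁻¹ *
          sumMod ((M : ℕ) : OO A B) (fun x => G (((a : ℕ) : OO A B) * x)) -
        (a : ℂ) ^ 2 * sumMod ((M : ℕ) : OO A B) G := by
      rw [← sumMod_cmul, ← sumMod_cmul, ← sumMod_sub hfin]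
      congr 1
      funext x
      simp only [hG]
      rw [hE, ← ptp2]
      unfold dlX
      field_simp
    rw [e2, e1]
    ring
  unfold DAll SAll
  rw [Finset.mul_sum]
  refine Finset.sum_congr rfl fun i _ => ?_
  rw [key i]
  ring

open Pool.Agent.TWT.SDE in
theorem factor (V : ValuationSubring ℂ) (p : ℕ) (hpp : p.Prime) (vp : V.valuation (p : ℂ) < 1)
    (a N : ℕ) (hN : ¬ p ∣ N) (c : ℂ) (hc : c ^ N = 1) (hc1 : c ≠ 1)
    (hva : V.valuation (a : ℂ) = 1) (hva1 : V.valuation (1 - (a : ℂ)) < 1) :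
    c ≠ 0 ∧ V.valuation ((a : ℂ) * c⁻¹ - (a : ℂ) ^ 2) = 1 := by
  have hN0 : N ≠ 0 := fun hh => hN (hh ▸ dvd_zero p)
  have hvc : V.valuation c = 1 := val_root V hN0 hc
  have hc0 : c ≠ 0 := by
    intro hh
    rw [hh, map_zero] at hvc
    exact zero_ne_one hvc
  have hvc1 : V.valuation (1 - c) = 1 := by
    refine le_antisymm ?_ ?_
    · refine (Valuation.map_sub _ _ _).trans ?_
      rw [map_one, hvc, max_self]
    · by_contra hh
      rw [not_le, Valuation.map_sub_swap] at hh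
      exact hc1 (Pool.Agent.TWX.eq_one_of_congr V p hpp vp _ hN c hc hh)
  have hvac : V.valuation (1 - (a : ℂ) * c) = 1 := by
    have h6 : 1 - (a : ℂ) * c = (1 - (a : ℂ)) * c + (1 - c) := by ring
    rw [h6, Valuation.map_add_eq_of_lt_right, hvc1]
    rw [map_mul, hvc, mul_one, hvc1]
    exact hva1
  refine ⟨hc0, ?_⟩
  have h6 : (a : ℂ) * c⁻¹ - (a : ℂ) ^ 2 = (a : ℂ) * c⁻¹ * (1 - (a : ℂ) * c) := by
    field_simp
  rw [h6, map_mul, map_mul, map_inv₀, hva, hvc, hvac, inv_one, one_mul, one_mul]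

theorem root (l n p : ℕ) (hl : l.Prime) (hpp : p.Prime) (hpl : ¬ p ∣ l) (hpl1 : ¬ p ∣ l - 1)
    (a : ℕ) (hal : a.Coprime l) (ψ : DirichletCharacter ℂ (l ^ n)) :
    ψ (((a : ℤ) ^ 2 : ℤ) : ZMod (l ^ n)) ^ (l ^ n).totient = 1 ∧ ¬ p ∣ (l ^ n).totient := by
  constructor
  · have hu : IsUnit (((a : ℤ) ^ 2 : ℤ) : ZMod (l ^ n)) := by
      have h5 : (((a : ℤ) ^ 2 : ℤ) : ZMod (l ^ n)) = ((a : ℕ) : ZMod (l ^ n)) ^ 2 := by
        push_cast
        ring
      rw [h5]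
      exact ((ZMod.isUnit_iff_coprime a (l ^ n)).2 (Nat.Coprime.pow_right _ hal)).pow 2
    obtain ⟨u, hu⟩ := hu
    rw [← hu, ← map_pow, ← Units.val_pow_eq_pow_val, ZMod.pow_totient, Units.val_one, map_one]
  · rcases Nat.eq_zero_or_pos n with hn0 | hn0
    · rw [hn0, pow_zero, Nat.totient_one]
      exact fun hd => hpp.one_lt.ne' (Nat.dvd_one.1 hd)
    · rw [Nat.totient_prime_pow hl hn0, hpp.dvd_mul]
      rintro (hd | hd)
      · exact hpl (hpp.dvd_of_dvd_pow hd)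
      · exact hpl1 hd

end SALQ

open Pool.Agent.TWR Pool.Agent.TWT.SDE in
theorem t_SALQ (h0 : S_DLCQ) (h1 : S_IDQ) (h2 : S_VPQ) (h3 : S_TEQ) (h4 : S_LOQI)
    (h5 : S_LOQS) : S_SALQ := by
  intro l g h hG p q A B P P' V f hS hlf ι _ R hR w hw kp eta e b hC
  obtain ⟨⟨hcq, hpp, hp5, -, -, -, hf0, hpf, -, hPP, -⟩, id2, -, -, id5, -⟩ :=
    h1 p q A B P P' V f hS
  obtain ⟨vp, -, -, vn, -⟩ := h2 p q A B P P' V f hS
  obtain ⟨w1, wmul, wper, wzero, wroot, -, wred, -⟩ := h3 p q A B P P' V f hS w hw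
  have hl : l.Prime := by
    rcases hG with ⟨rfl, -⟩ | ⟨rfl, -⟩
    · exact Nat.prime_three
    · exact Nat.prime_two
  have hl3 : l ≤ 3 := by
    rcases hG with ⟨rfl, -⟩ | ⟨rfl, -⟩ <;> omega
  have hl6 : l ∣ 6 := by
    rcases hG with ⟨rfl, -⟩ | ⟨rfl, -⟩
    · exact ⟨2, rfl⟩
    · exact ⟨3, rfl⟩
  have hpl : ¬ p ∣ l := fun hd => by
    have := Nat.le_of_dvd hl.pos hd
    omega
  have hpl1 : ¬ p ∣ l - 1 := fun hd => by
    have := Nat.le_of_dvd (Nat.sub_pos_of_lt hl.one_lt) hd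
    omega
  -- the point `y0`
  obtain ⟨x0, y0, hL⟩ := id5 3 le_rfl (fun hd => by
    have := Nat.le_of_dvd (by norm_num) hd
    omega)
  have hIn : ∀ (i : ι) (x : OO A B), x ∉ P → InEn V (R.L i) (pt R p i (x * y0)) := by
    have hq : p ≠ p ^ 2 := fun hh => by
      have h6 : p ^ 2 = p * p := sq p
      have h7 : p * 1 < p * p := Nat.mul_lt_mul_of_pos_left (by omega) (by omega)
      omega
    obtain ⟨h3f, ⟨hI, -, hqq⟩ | ⟨hI, hP', hqq⟩⟩ := hS
    · have hT : TeiI p P V w := by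
        rcases hw with ⟨-, hw⟩ | ⟨hw, -⟩
        · exact hw
        · exact absurd (hw.symm.trans hqq) hq
      obtain ⟨t0, ht⟩ := h4 p A B P V f hI h3f ι R hR y0 hL.yP
      intro i x hx
      obtain ⟨a2, a4, lam, -, -, hloc⟩ := (ht w hT).loc i
      exact (hloc x hx).1
    · have hT : TeiP p P V w := by
        rcases hw with ⟨hw, -⟩ | ⟨-, hw⟩
        · exact absurd (hqq.symm.trans hw) hq
        · exact hw
      obtain ⟨t0, ht⟩ := h5 p A B P V f hI h3f ι R hR y0 (hP' ▸ hL.yP') hL.yP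
      intro i x hx
      obtain ⟨a2, a4, lam, -, -, hloc⟩ := (ht w hT).loc i
      exact (hloc x hx).1
  -- the number `a`
  obtain ⟨a, ha⟩ : ∃ a : ℕ, a = 6 * f * p + 1 := ⟨_, rfl⟩
  have hfp0 : 0 < f * p := Nat.mul_pos (Nat.pos_of_ne_zero hf0) hpp.pos
  have ha1 : 1 < a := by
    have : 6 * f * p = 6 * (f * p) := by ring
    omega
  have hac : ∀ d : ℕ, d ∣ 6 * f * p → a.Coprime d := by
    intro d hd
    refine Nat.Coprime.coprime_dvd_right hd ?_
    rw [ha]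
    simp
  have haf : a.Coprime f := hac f ⟨6 * p, by ring⟩
  have hap : a.Coprime p := hac p ⟨6 * f, by ring⟩
  have hal : a.Coprime l := Nat.Coprime.coprime_dvd_right hlf haf
  have ha2 : a.Coprime 2 := hac 2 ⟨3 * f * p, by ring⟩
  have ha0 : ((a : ℤ) ^ 2) ≠ 1 := by
    have h6 : (1 : ℤ) < (a : ℤ) := by exact_mod_cast ha1
    nlinarith
  have haz : (a : ℤ) = 6 * f * p + 1 := by
    rw [ha]
    push_cast
    ring
  have hla : (l : ℤ) ^ 2 ∣ (a : ℤ) ^ 2 - 1 := by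
    obtain ⟨u, hu⟩ := hl6
    obtain ⟨v, hv⟩ := hlf
    have hu' : (6 : ℤ) = l * u := by exact_mod_cast hu
    have hv' : (f : ℤ) = l * v := by exact_mod_cast hv
    refine ⟨u * v * p * (a + 1), ?_⟩
    have h6 : (a : ℤ) ^ 2 - 1 = (a - 1) * (a + 1) := by ring
    have h7 : (a : ℤ) - 1 = (l : ℤ) ^ 2 * (u * v * p) := by
      rw [haz, hu', hv']
      ring
    rw [h6, h7]
    ring
  have hva : V.valuation (a : ℂ) = 1 := by
    have h6 := vn (a : ℤ) (fun hd => by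
      have h7 : p ∣ a := by exact_mod_cast hd
      have h8 : p ∣ 1 := by
        rw [← hap.gcd_eq_one]
        exact Nat.dvd_gcd h7 dvd_rfl
      exact hpp.one_lt.ne' (Nat.dvd_one.1 h8))
    simpa using h6
  have hva1 : V.valuation (1 - (a : ℂ)) < 1 := by
    have h6 : (1 : ℂ) - (a : ℂ) = -((p : ℂ) * ((6 * f : ℕ) : ℂ)) := by
      rw [ha]
      push_cast
      ring
    rw [h6, Valuation.map_neg, map_mul]
    have h7 : V.valuation (((6 * f : ℕ) : ℂ)) ≤ 1 := by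
      rw [ValuationSubring.valuation_le_one_iff]
      exact natCast_mem V _
    calc V.valuation (p : ℂ) * V.valuation (((6 * f : ℕ) : ℂ))
        ≤ V.valuation (p : ℂ) * 1 := mul_le_mul_right h7 _
      _ < 1 := by rw [mul_one]; exact vp
  have hea : eta ((a : OO A B)) = 1 := by
    rw [← hC.one]
    refine hC.per _ _ ?_
    rw [Ideal.mem_span_singleton]
    refine ⟨((6 * p : ℕ) : OO A B), ?_⟩
    rw [ha]
    push_cast
    ring
  have hwa : w ((a : OO A B)) = 1 := by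
    rw [← w1]
    refine wper _ _ ?_
    have h6 := (id2 ((a : ℤ) - 1)).2 ⟨6 * f, by rw [haz]; ring⟩
    simpa using h6
  obtain ⟨n0, hn0⟩ := Pool.Agent.TWX.psi_ne_one l hl ((a : ℤ) ^ 2) ha0 hla
  refine ⟨n0, fun n hn ψ hψ => ?_⟩
  have hm0 : f * l ^ n ≠ 0 := mul_ne_zero hf0 (pow_ne_zero _ hl.ne_zero)
  have hM0 : f * l ^ n * p ≠ 0 := mul_ne_zero hm0 hpp.ne_zero
  have : NeZero (l ^ n) := ⟨pow_ne_zero _ hl.ne_zero⟩
  have ham : a.Coprime (f * l ^ n) := Nat.Coprime.mul_right haf (Nat.Coprime.pow_right _ hal)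
  have hpm : ¬ p ∣ f * l ^ n := by
    rw [hpp.dvd_mul]
    rintro (hd | hd)
    · exact hpf hd
    · exact hpl (hpp.dvd_of_dvd_pow hd)
  have hLv : LvM p f (f * l ^ n) R := by
    refine ⟨hm0, ⟨l ^ n, rfl⟩, hpm, fun i => ?_⟩
    have h6 := R.cop i
    have h7 : (nI (R.b i)).Coprime p := Nat.Coprime.coprime_dvd_right ⟨f, rfl⟩ h6
    have h8 : (nI (R.b i)).Coprime f := Nat.Coprime.coprime_dvd_right ⟨p, mul_comm _ _⟩ h6
    have h9 : (nI (R.b i)).Coprime l := Nat.Coprime.coprime_dvd_right hlf h8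
    exact Nat.Coprime.mul_right (Nat.Coprime.mul_right h8 (Nat.Coprime.pow_right _ h9)) h7
  obtain ⟨r, hr, hr1, hr2⟩ := hC.fin
  have hr0 : r ≠ 0 := fun hh => hr (hh ▸ dvd_zero p)
  have hbb : b = 0 ∨ P' = cjI P := by
    rcases hC.bb with ⟨-, hb⟩ | ⟨hb, -⟩
    · exact Or.inl hb
    · exact Or.inr hb
  have hper := SALQ.per R kp eta w f l n b P P' hC.per wper hbb ψ
  have hlt := h0 p q A B P P' V f hS ι R hR (f * l ^ n) hLv y0 hL.yP' hL.yP hIn
    (thP R kp eta ψ w b) hper (SALQ.cop R kp eta w f l n b hlf hC.supp ψ)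
    (SALQ.val V R kp eta w _ b r hr0 hr1 hr2 (fun x => (wred x).1) ψ) a ha1
    (Nat.Coprime.mul_right (Nat.Coprime.mul_right ha2 ham) hap)
  obtain ⟨hcr, htot⟩ := SALQ.root l n p hl hpp hpl hpl1 a hal ψ
  obtain ⟨hc0, hvf⟩ := SALQ.factor V p hpp vp a _ htot _ hcr (hn0 n hn ψ hψ) hva hva1
  have hD := SALQ.sums hcq R (f * l ^ n * p) a hM0 (Nat.Coprime.mul_right ham hap)
    (thP R kp eta ψ w b) _ hc0 (SALQ.thP_mul R kp eta w _ b a hC.mul wmul hea hwa ψ)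
    (fun i x y hxy => hper i x y (SALQ.span_prod hPP hxy))
  rw [hD, map_mul, hvf, one_mul] at hlt
  exact hlt

end

end Pool.Agent.TWQ
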