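import Pool.Agent.TWQ.StQC
import Pool.Agent.TWI.TYAll

/-!
# TWQ, block C', module TYPQ: the type of the symbol of `eta w^e`, `p` inert
-/

set_option autoImplicit false

open WeierstrassCurve Polynomial NumberField IsDedekindDomain

namespace Pool.Agent.TWQ

open _root_.MU3 Pool.Agent.MU3A Pool.Agent.MU3B Pool.Agent.MU3C Pool.Agent.RI Pool.Agent.RID
open Pool.Agent.MUX Pool.Agent.MUXU Pool.Agent.MUXW Pool.Agent.TWT Pool.Agent.TWI
open Pool.Agent.MUXV (GR InK tX)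
open Pool.Agent.MUXY (ActN Dn)
open Pool.Agent.NS (InI)
open Pool.Agent.NST (ActT KIn)
open OnePoint

noncomputable section

namespace TYPQ

variable {A B : ℤ} {p f : ℕ} {P : Ideal (OO A B)} {V : ValuationSubring ℂ}

/-- `epI eta (w ^ k)` is an odd character modulo `(p f)` -/
theorem ei (hS : SetI p A B P V f) {w : OO A B → ℂ} (hw : TeiI p P V w) {ι : Type}
    {R : Reps A B (p * f) ι} {kp : ι → ℂ} {eta : OO A B → ℂ} {k : ℕ}
    (hch : ChQ p (p ^ 2) f P ⊤ R kp eta k 0) :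
    MUX.IsEI (idl (p * f)) (epI eta fun z => w z ^ k) := by
  have hk0 : k ≠ 0 := by have := hch.e1; omega
  have hmax := Syi.maxP hS
  have hcop : ∀ x : OO A B, w x ^ k ≠ 0 ↔ IsCoprime (MUX.sp x) P := by
    intro x
    rw [Ne, pow_eq_zero_iff hk0, hw.zero]
    constructor
    · intro h
      rw [Ideal.isCoprime_iff_sup_eq]
      refine hmax.1.2 _ ?_
      rw [lt_iff_le_not_ge]
      refine ⟨le_sup_right, fun h1 => h ?_⟩
      exact h1 (Ideal.mem_sup_left (Ideal.mem_span_singleton_self x))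
    · intro h h1
      rw [Ideal.isCoprime_iff_sup_eq] at h
      have h2 : MUX.sp x ≤ P := (Ideal.span_singleton_le_iff_mem _).2 h1
      rw [sup_eq_right.2 h2] at h
      exact hmax.ne_top h
  have hmul : (idl (A := A) (B := B) (p * f)) = idl f * P := by
    have h1 : ((p * f : ℕ) : OO A B) = ((f : ℕ) : OO A B) * ((p : ℕ) : OO A B) := by
      rw [Nat.cast_mul, mul_comm]
    rw [hS.eP]
    show Ideal.span {((p * f : ℕ) : OO A B)} = Ideal.span {((f : ℕ) : OO A B)} *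
      Ideal.span {((p : ℕ) : OO A B)}
    rw [Ideal.span_singleton_mul_span_singleton, h1]
  constructor
  · show eta 1 * w 1 ^ k = 1
    rw [hch.one, hw.one, one_pow, mul_one]
  · intro x y
    show eta (x * y) * w (x * y) ^ k = eta x * w x ^ k * (eta y * w y ^ k)
    rw [hch.mul, hw.mul, mul_pow]
    ring
  · intro x y h
    rw [hmul] at h
    show eta x * w x ^ k = eta y * w y ^ k
    have h1 : x - y ∈ (idl f : Ideal (OO A B)) := Ideal.mul_le_left h
    have h2 : x - y ∈ P := Ideal.mul_le_right h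
    rw [hch.per x y h1, hw.per x y h2]
  · intro x
    show eta x * w x ^ k ≠ 0 ↔ _
    rw [mul_ne_zero_iff, hch.supp, hcop, ← IsCoprime.mul_right_iff, hmul]
  · show eta (-1) * w (-1) ^ k = -1
    have h1 : k = (k - 1) + 1 := by omega
    rw [hch.neg, Syi.w_neg hS hw, Nat.add_zero]
    rw [show (-1 : ℂ) ^ k = (-1) ^ (k - 1) * (-1) from by rw [← pow_succ, ← h1],
      ← mul_assoc, ← mul_pow]
    norm_num

end TYPQ

open Pool.Agent.TWI.TYPI in
theorem typq_aux (hUNF : S_YUNF) (hINE : S_YINE) (hALT : S_YALT) (hALV : S_YALV) (hACI : S_YACI)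
    (hSGN : S_YSGN) (hVAK : S_YVAK) (hTAU : S_YTAU) : S_TYPQ := by
  classical
  intro p A B P V f hS hT ι _ R hG w hw kp eta k hch hklt x y h1
  have hk0 : k ≠ 0 := by have := hch.e1; omega
  have hQ := hS.cq
  have hp := hS.pp
  have hp5 := hS.p5
  have hf0 := hS.f0
  have hD := Pool.Agent.NST.TYF.absD_ge hQ
  have hf6 : 6 ≤ f := by
    have h2 := Int.le_of_dvd (by exact_mod_cast Nat.pos_of_ne_zero hf0) hS.fD
    omega
  have hpf2 : 2 ≤ p * f := by nlinarith
  have hvp : V.valuation (p : ℂ) < 1 := Syi.vp hS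
  have hvp0 : V.valuation (p : ℂ) ≠ 0 := by
    rw [Ne, map_eq_zero]
    exact_mod_cast hp.ne_zero
  obtain ⟨-, hvq, -⟩ := t_TEP p A B P V f hS
  have hq0 : 0 < p ^ 2 - 1 := by
    have : 25 ≤ p ^ 2 := by nlinarith
    omega
  set e : OO A B → ℂ := epI eta (fun z => w z ^ k) with he
  set ka : ι → ℂ := kkI R kp eta (fun z => w z ^ k) with hka
  have hei : IsEI (idl (A := A) (B := B) (p * f)) e := TYPQ.ei hS hw hch
  -- roots of unity
  obtain ⟨r, hpr, hr1, hr2⟩ := hch.fin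
  have hr0 : r ≠ 0 := by
    rintro rfl
    exact hpr (dvd_zero p)
  obtain ⟨s, hs⟩ : ∃ s, s = r * (p ^ 2 - 1) := ⟨_, rfl⟩
  have hs0 : s ≠ 0 := by
    rw [hs]
    exact mul_ne_zero hr0 hq0.ne'
  have hvs : V.valuation (s : ℂ) = 1 := by
    rw [hs, Nat.cast_mul, map_mul, hvq, mul_one]
    have h2 := Syi.vn hS r (fun hd => hpr (by exact_mod_cast hd))
    rwa [Int.cast_natCast] at h2
  have hws : ∀ z, w z ≠ 0 → w z ^ s = 1 := by
    intro z hz
    have hzP : z ∉ P := fun h => hz ((hw.zero z).2 h)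
    rw [hs, mul_comm, pow_mul, hw.root z hzP, one_pow]
  have hes : ∀ z, e z ≠ 0 → e z ^ s = 1 := by
    intro z hz
    have hz' : eta z * w z ^ k ≠ 0 := hz
    obtain ⟨hz1, hz2⟩ := mul_ne_zero_iff.1 hz'
    have hz3 : w z ≠ 0 := fun h => hz2 (by rw [h, zero_pow hk0])
    show (eta z * w z ^ k) ^ s = 1
    rw [mul_pow, ← pow_mul, mul_comm k s, pow_mul (w z) s k, hws z hz3, one_pow, mul_one, hs,
      pow_mul, hr2 z hz1, one_pow]
  have hkas : ∀ i, ka i ^ s = 1 := by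
    intro i
    have h2 := hes _ (MUXHY.Brg.e_nI R hei (Ideal.mem_span_singleton_self _) i)
    show (kp i * (e ((nI (R.b i) : ℕ) : OO A B))⁻¹) ^ s = 1
    rw [mul_pow, inv_pow]
    have h3 : e ((nI (R.b i) : ℕ) : OO A B) ^ s = 1 := h2
    rw [h3, inv_one, mul_one, hs, pow_mul, hr1 i, one_pow]
  -- the level
  obtain ⟨D1, hD1, hx1⟩ := exists_dn x
  obtain ⟨D2, hD2, hy1⟩ := exists_dn y
  obtain ⟨j, N, hNp, hDN⟩ := Nat.exists_eq_pow_mul_and_not_dvd (mul_ne_zero hD1 hD2) p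
    hp.ne_one
  have hN0 : N ≠ 0 := by
    rintro rfl
    exact hNp (dvd_zero p)
  obtain ⟨m', hm'⟩ : ∃ m', m' = f * N := ⟨_, rfl⟩
  have hm'0 : m' ≠ 0 := by
    rw [hm']
    exact mul_ne_zero hf0 hN0
  have hm'p : ¬ p ∣ m' := by
    rw [hm']
    intro h
    rcases hp.dvd_mul.1 h with h | h
    · exact hS.fp h
    · exact hNp h
  have hfm : f ∣ m' := hm' ▸ Dvd.intro _ rfl
  have hdvd : D1 * D2 ∣ p ^ (j + 1) * m' := by
    rw [hDN, hm']
    exact mul_dvd_mul (pow_dvd_pow p (Nat.le_succ j)) (Dvd.intro_left _ rfl)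
  have hx2 : Dn (p ^ (j + 1) * m') x :=
    Pool.Agent.NST.TYF.dn_mono ((dvd_mul_right D1 D2).trans hdvd) hx1
  have hy2 : Dn (p ^ (j + 1) * m') y :=
    Pool.Agent.NST.TYF.dn_mono ((dvd_mul_left D2 D1).trans hdvd) hy1
  -- the number `tau`
  obtain ⟨tau, htauv, htaua, htau⟩ := hTAU p A B P V f hS hT ι R hG w hw
  have htau0 : V.valuation tau ≠ 0 := by
    intro h0
    rw [h0, zero_pow hq0.ne'] at htauv
    exact hvp0 htauv.symm
  have htau1 : V.valuation tau < 1 := by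
    by_contra hc
    have h4 := one_le_pow₀ (not_lt.1 hc) (n := p ^ 2 - 1)
    rw [htauv] at h4
    exact absurd hvp (not_lt.2 h4)
  -- the field
  obtain ⟨Q, hQd⟩ : ∃ Q : OnePoint ℚ → OnePoint ℚ → ℂ,
      Q = fun x y => PhiK R e ka x y / R.om R.i0 := ⟨_, rfl⟩
  obtain ⟨x', hx'⟩ : ∃ x', x' = Pool.Agent.MuSym.mob (-1) 0 0 1 x := ⟨_, rfl⟩
  obtain ⟨y', hy'⟩ : ∃ y', y' = Pool.Agent.MuSym.mob (-1) 0 0 1 y := ⟨_, rfl⟩
  have hx2' : Dn (p ^ (j + 1) * m') x' := hx' ▸ dn_neg x hx2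
  have hy2' : Dn (p ^ (j + 1) * m') y' := hy' ▸ dn_neg y hy2
  have hy0 : sgnPart 1 (PhI R kp eta (fun z => w z ^ k)) x y = Q x y + Q x' y' := by
    rw [hQd, hx', hy']
    show PhI R kp eta (fun z => w z ^ k) x y + 1 * PhI R kp eta (fun z => w z ^ k) _ _ = _
    rw [one_mul]
    rfl
  have hfne : f ≠ 1 := by omega
  have hYa : ∀ i, IsAlgebraic ℚ (yy (R.L i) (pt R m' i 1)) := by
    intro i
    refine (hALT A B hQ hT (R.b i) (R.L i) (R.om i) (R.nl i) m' hm'0 (pt R m' i 1)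
      (pt_not_mem hQ hfne hfm hm'0 R i) ?_).2
    refine ((R.nl i).mem _).2 ⟨((nI (R.b i) : ℕ) : OO A B), nI_mem hQ (R.nl i).b_ne, ?_⟩
    have hmC : (m' : ℂ) ≠ 0 := by exact_mod_cast hm'0
    unfold pt
    rw [emb_one hQ, emb_natCast hQ]
    field_simp
  set Ts : Set ℂ := ({Q x y, Q x' y', tau} : Set ℂ) ∪
    (Set.range (fun i => yy (R.L i) (pt R m' i 1)) ∪
      ((Polynomial.nthRootsFinset s (1 : ℂ) : Finset ℂ) : Set ℂ)) with hTs
  have hTfin : Ts.Finite := by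
    refine Set.Finite.union (Set.toFinite _) (Set.Finite.union (Set.finite_range _)
      (Finset.finite_toSet _))
  have hTalg : ∀ t ∈ Ts, IsAlgebraic ℚ t := by
    rintro t (ht | (⟨i, rfl⟩ | ht))
    · rcases ht with rfl | rfl | rfl
      · rw [hQd]
        exact hALV A B hQ hT (p * f) hpf2 ι R e hei s hs0 hes ka hkas x y
      · rw [hQd]
        exact hALV A B hQ hT (p * f) hpf2 ι R e hei s hs0 hes ka hkas x' y'
      · exact htaua
    · exact hYa i
    · rw [Finset.mem_coe, Polynomial.mem_nthRootsFinset (Nat.pos_of_ne_zero hs0)] at ht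
      exact IsAlgebraic.of_pow (Nat.pos_of_ne_zero hs0) (by rw [ht]; exact isAlgebraic_one)
  obtain ⟨F, hFf, hFg, hEF, hTF⟩ := Pool.Agent.NST.nt_GLC A B hQ
    (RF (idl (A := A) (B := B) m'))
    (hT.fin _ (Pool.Agent.NST.TYF.idl_ne_bot hQ hm'0)) Ts hTfin hTalg
  have hQF : Q x y ∈ F := hTF (Or.inl (Or.inl rfl))
  have hQF' : Q x' y' ∈ F := hTF (Or.inl (Or.inr (Or.inl rfl)))
  have htauF : tau ∈ F := hTF (Or.inl (Or.inr (Or.inr rfl)))
  have hyF : ∀ i, yy (R.L i) (pt R m' i 1) ∈ F := fun i => hTF (Or.inr (Or.inl ⟨i, rfl⟩))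
  have hrF : ∀ z : ℂ, z ^ s = 1 → z ∈ F := fun z hz => hTF (Or.inr (Or.inr (by
    rw [Finset.mem_coe, Polynomial.mem_nthRootsFinset (Nat.pos_of_ne_zero hs0)]
    exact hz)))
  -- the key point
  have hkey : ∀ σ : ℂ ≃+* ℂ, InI A B V (F : Set ℂ) σ →
      σ ((Q x y + Q x' y') * tau ^ k) = (Q x y + Q x' y') * tau ^ k := by
    intro σ hσ
    have hin : ∀ z ∈ F, V.valuation z ≤ 1 → V.valuation (σ z - z) < 1 := by
      intro z hz hzV
      have h2 := hσ.iner z hz ((V.valuation_le_one_iff _).1 hzV)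
      rwa [ValuationSubring.mem_nonunits_iff] at h2
    have hRF := hINE p A B P V f hS hT ι R hG m' hm'0 hm'p σ hσ.fix
      (fun z hz hzV => hin z (hEF hz) hzV)
    obtain ⟨c, d, hc1, hc3, hact⟩ := hACI A B hQ hT (p * f) ι R p j m' (by omega) hm'0 σ
      hσ.fix hRF
    have hcP : c ∉ P := by
      rw [hS.eP]
      exact hc3
    have hd := hSGN p A B P V f hS ι R hG j m' hm'0 hm'p hfm σ c d hc1 hact
      (fun i hi => hin _ (hyF i) hi)
    have hroot : ∀ z : ℂ, (z ≠ 0 → z ^ s = 1) → σ z = z := by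
      intro z hz
      by_cases hz0 : z = 0
      · rw [hz0, map_zero]
      · have hz1 := hz hz0
        have hv1 : V.valuation z = 1 := MUXHY.Val.root_one V s z hs0 hz1
        exact TEP.uniq V s (Nat.pos_of_ne_zero hs0) hvs (σ z) z
          (by rw [← map_pow, hz1, map_one]) hz1 (hin z (hrF z hz1) hv1.le)
    have hse : ∀ z, σ (e z) = e z := fun z => hroot _ (hes z)
    have hsw : ∀ z, σ (w z) = w z := fun z => hroot _ (hws z)
    have hsk : ∀ i, σ (ka i) = ka i := fun i => hroot _ (fun _ => hkas i)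
    have h2 : σ tau = w c * tau :=
      htau (p ^ (j + 1) * m') ((dvd_pow_self p (Nat.succ_ne_zero j)).mul_right _) σ c d hact hd
        hcP hsw
    have h3 : e c = w c ^ k := by
      show eta c * w c ^ k = w c ^ k
      have h5 : c - 1 ∈ (idl f : Ideal (OO A B)) :=
        Pool.Agent.NST.TYF.mem_idl_of_dvd hfm hc1
      rw [hch.per c 1 h5, hch.one, one_mul]
    have h4 : ∀ a b, Dn (p ^ (j + 1) * m') a → Dn (p ^ (j + 1) * m') b →
        w c ^ k * σ (Q a b) = Q a b := by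
      intro a b ha hb
      rw [← h3, hQd]
      exact hVAK A B p f hQ hp.one_lt.le (by omega) ι R e hei j m' hm'0 hfm σ c d hc1 hact hd
        hse ka hsk a b ha hb
    rw [map_mul, map_add, map_pow, h2, mul_pow]
    have h5 := h4 x y hx2 hy2
    have h6 := h4 x' y' hx2' hy2'
    linear_combination tau ^ k * (h5 + h6)
  have hgK : (Q x y + Q x' y') * tau ^ k ∈ KIn A B V F :=
    ⟨F.mul_mem (F.add_mem hQF hQF') (pow_mem htauF k), hkey⟩
  rw [hy0] at h1 ⊢
  have hg1 : 1 ≤ V.valuation ((Q x y + Q x' y') * tau ^ k) := by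
    by_contra hc
    rw [not_le] at hc
    have h2 := hUNF p A B P V f hS F _ hgK hc
    rw [map_mul, map_pow] at h2
    have h3 : V.valuation tau ^ k ≤ V.valuation tau ^ (p ^ 2 - 1) := by
      rw [htauv]
      exact (le_mul_of_one_le_left' h1).trans h2
    obtain ⟨m, hm⟩ : ∃ m, p ^ 2 - 1 = m + k := ⟨p ^ 2 - 1 - k, by omega⟩
    have h5 : m ≠ 0 := by omega
    have h6 : V.valuation tau ^ (p ^ 2 - 1) < V.valuation tau ^ k := by
      rw [hm, pow_add]
      have h7 : V.valuation tau ^ m < 1 := pow_lt_one₀ zero_le' htau1 h5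
      have h8 := mul_lt_mul_of_pos_right h7 (zero_lt_iff.2 (pow_ne_zero k htau0))
      rwa [one_mul] at h8
    exact absurd h3 (not_le.2 h6)
  have h2 := one_le_pow₀ hg1 (n := p ^ 2 - 1)
  rw [map_mul, map_pow, mul_pow, ← pow_mul, mul_comm k (p ^ 2 - 1), pow_mul, htauv,
    mul_comm] at h2
  exact h2

/-- (TYPQ) the type of the symbol of `eta w^e`, `p` inert. -/
theorem t_TYPQ : S_TYPQ :=
  typq_aux t_YUNF (t_YINE t_VPGI) t_YALT t_YALV t_YACI (t_YSGN t_VPGI) (t_YVAK t_YSGM t_YVAL)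
    TYAll.tau

end

end Pool.Agent.TWQ
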