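import Pool.Agent.TWQ.SYMQ
import Pool.Agent.TWQ.TYPQ
import Pool.Agent.TWQ.SALQ
import Pool.Agent.TWQ.DLCQ
import Pool.Agent.TWQ.NEAQ
import Pool.Agent.TWQ.IDQ
import Pool.Agent.TWQ.VPQ
import Pool.Agent.TWQ.TEQ
import Pool.Agent.TWQ.LOQ

/-!
# TWQ, block C': the final theorem of the block (helper19)
-/

set_option autoImplicit false

namespace Pool.Agent.TWQ

theorem a_SALQ : S_SALQ :=
  t_SALQ (t_DLCQ t_NEAQ t_IDQ t_VPQ) t_IDQ t_VPQ t_TEQ t_LOQI t_LOQS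

/-- `S_SYMQ`, no hypothesis. -/
theorem a_SYMQ : S_SYMQ := t_SYMQ t_TYPQ a_SALQ

end Pool.Agent.TWQ
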