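import Mathlib

/-!
# TWQ: characters of `(O/P)^*` are powers of the Teichmüller character (helper51)
-/

set_option autoImplicit false

namespace Pool.Agent.TWQ

/-- A multiplicative function on `O/P`, `P` maximal with `N + 1` classes, is outside `P` a power of a faithful character
with values in the `N`-th roots of unity. -/
theorem pow_w {O : Type} [CommRing O] (P : Ideal O) (hP : P.IsMaximal) (N : ℕ)
    (hcard : Nat.card (O ⧸ P) = N + 1) (hN : N ≠ 0) (w : O → ℂ) (w1 : w 1 = 1)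
    (wmul : ∀ x y, w (x * y) = w x * w y) (wper : ∀ x y, x - y ∈ P → w x = w y)
    (winj : ∀ x, x ∉ P → w x = 1 → x - 1 ∈ P) (wroot : ∀ x, x ∉ P → w x ^ N = 1)
    (ρ : O → ℂ) (r1 : ρ 1 = 1) (rmul : ∀ x y, ρ (x * y) = ρ x * ρ y)
    (rper : ∀ x y, x - y ∈ P → ρ x = ρ y) : ∃ e, e < N ∧ ∀ x, x ∉ P → ρ x = w x ^ e := by
  classical
  let _ : Field (O ⧸ P) := Ideal.Quotient.field P
  have hfin : Finite (O ⧸ P) := Nat.finite_of_card_ne_zero (by rw [hcard]; omega)
  have : Fintype (O ⧸ P) := Fintype.ofFinite _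
  have : Fintype (O ⧸ P)ˣ := Fintype.ofFinite _
  obtain ⟨g, hg⟩ := IsCyclic.exists_generator (α := (O ⧸ P)ˣ)
  have hcu : Nat.card (O ⧸ P)ˣ = N := by
    rw [Nat.card_units, hcard]
    rfl
  have hog : orderOf g = N := by
    rw [← hcu]
    exact orderOf_eq_card_of_forall_mem_zpowers hg
  obtain ⟨γ, hγ⟩ := Ideal.Quotient.mk_surjective (g : O ⧸ P)
  have wpow : ∀ (x : O) (m : ℕ), w (x ^ m) = w x ^ m := by
    intro x m
    induction m with
    | zero => rw [pow_zero, pow_zero, w1]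
    | succ m ih => rw [pow_succ, wmul, ih, pow_succ]
  have rpow : ∀ (x : O) (m : ℕ), ρ (x ^ m) = ρ x ^ m := by
    intro x m
    induction m with
    | zero => rw [pow_zero, pow_zero, r1]
    | succ m ih => rw [pow_succ, rmul, ih, pow_succ]
  have hγP : γ ∉ P := by
    intro h
    have h1 : (Ideal.Quotient.mk P γ) = 0 := Ideal.Quotient.eq_zero_iff_mem.2 h
    rw [hγ] at h1
    exact g.ne_zero h1
  have hpowP : ∀ m : ℕ, γ ^ m ∉ P := by
    intro m h
    exact hγP (hP.isPrime.mem_of_pow_mem m h)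
  have hpow1 : ∀ m : ℕ, γ ^ m - 1 ∈ P ↔ N ∣ m := by
    intro m
    rw [← Ideal.Quotient.eq_zero_iff_mem, map_sub, map_pow, map_one, sub_eq_zero, hγ, ← hog,
      orderOf_dvd_iff_pow_eq_one]
    constructor
    · intro h
      apply Units.ext
      rw [Units.val_pow_eq_pow_val, h, Units.val_one]
    · intro h
      rw [← Units.val_pow_eq_pow_val, h, Units.val_one]
  have hprim : IsPrimitiveRoot (w γ) N := by
    refine ⟨wroot γ hγP, fun m hm => ?_⟩
    rw [← wpow] at hm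
    exact (hpow1 m).1 (winj _ (hpowP m) hm)
  have hρN : ρ γ ^ N = 1 := by
    rw [← rpow, ← r1]
    exact rper _ _ ((hpow1 N).2 dvd_rfl)
  have : NeZero N := ⟨hN⟩
  obtain ⟨e, he, hee⟩ := hprim.eq_pow_of_pow_eq_one hρN
  refine ⟨e, he, fun x hx => ?_⟩
  have hx0 : Ideal.Quotient.mk P x ≠ 0 := fun h => hx (Ideal.Quotient.eq_zero_iff_mem.1 h)
  obtain ⟨m, hm⟩ : ∃ m : ℕ, g ^ m = Units.mk0 _ hx0 := by
    have h1 := hg (Units.mk0 _ hx0)
    rw [← mem_powers_iff_mem_zpowers] at h1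
    exact h1
  have hxm : x - γ ^ m ∈ P := by
    rw [← Ideal.Quotient.eq_zero_iff_mem, map_sub, map_pow, hγ, sub_eq_zero]
    have h2 := congrArg Units.val hm
    rw [Units.val_pow_eq_pow_val, Units.val_mk0] at h2
    exact h2.symm
  rw [rper _ _ hxm, wper _ _ hxm, rpow, wpow, ← hee, ← pow_mul, ← pow_mul, mul_comm]

end Pool.Agent.TWQ
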