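import Pool.Agent.TWQ.StQ1
import Pool.Agent.TWT.CRB
import Pool.Agent.TWT.CRIT
import Pool.Agent.TWT.HTF

/-!
# TWQ, block B', assembly (helper34): S_CRTQ
-/

set_option autoImplicit false

open WeierstrassCurve Polynomial NumberField IsDedekindDomain

namespace Pool.Agent.TWQ

open _root_.MU3 Pool.Agent.MU3A Pool.Agent.MU3B Pool.Agent.MU3C Pool.Agent.RI Pool.Agent.RID
open Pool.Agent.MUX Pool.Agent.MUXU Pool.Agent.MUXW Pool.Agent.TWT Pool.Agent.TWI
open Pool.Agent.TWT.CRB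
open Pool.Agent.MU3V (cls Sub GD algDF)
open Pool.Agent.MUXV (GR InK tX)
open Pool.Agent.MUXI (IA RE AR)
open OnePoint

noncomputable section

namespace CRTQ

/-- the local data -/
theorem loc (hLOQI : S_LOQI) (hLOQS : S_LOQS) {p q : ℕ} {A B : ℤ} {P P' : Ideal (OO A B)}
    {V : ValuationSubring ℂ} {f : ℕ} (hS : SetQ p q A B P P' V f) {ι : Type}
    (R : Reps A B (p * f) ι) (hG : GRd V R) {w : OO A B → ℂ} (hw : TeQ p q P V w) {m : ℕ}
    {x0 y0 : OO A B} (hLQ : LvQ p P P' m x0 y0) : ∃ t0 : ℂ, LocQ p q P V R y0 w t0 := by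
  obtain ⟨h3, ⟨hI, hP', hq⟩ | ⟨hI, hP', hq⟩⟩ := hS
  · obtain ⟨t0, ht0⟩ := hLOQI p A B P V f hI h3 ι R hG y0 hLQ.yP
    have hp5 := hI.p5
    rcases hw with ⟨_, hw⟩ | ⟨hq', _⟩
    · subst hq
      exact ⟨t0, ht0 w hw⟩
    · exfalso
      rw [hq] at hq'
      nlinarith
  · have hy : y0 ∈ cjI P := hP' ▸ hLQ.yP'
    obtain ⟨t0, ht0⟩ := hLOQS p A B P V f hI h3 ι R hG y0 hy hLQ.yP
    have hp5 := hI.p5
    rcases hw with ⟨hq', _⟩ | ⟨_, hw⟩
    · exfalso
      rw [hq] at hq'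
      nlinarith
    · subst hq
      exact ⟨t0, ht0 w hw⟩

theorem f_big {p q : ℕ} {A B : ℤ} {P P' : Ideal (OO A B)} {V : ValuationSubring ℂ} {f : ℕ}
    (hcq : CQ A B) (hf0 : f ≠ 0) (h1 : 2 * absD A B ∣ (f : ℤ)) : 3 ≤ f := by
  have h2 : 3 ≤ absD A B := by
    have h3 := hcq.neg
    unfold absD
    rcases hcq.hB with h4 | h4 <;> rw [h4] at h3 ⊢ <;> omega
  have h5 : (0 : ℤ) < f := by omega
  have h6 := Int.le_of_dvd h5 h1
  omega

theorem main (hIDQ : S_IDQ) (hVPQ : S_VPQ) (hTEQ : S_TEQ) (hTHQ : S_THQ) (hLOQI : S_LOQI)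
    (hLOQS : S_LOQS) (hFIQ : S_FIQ) (hDLQ : S_DLQ) (hRSQ : S_RSQ) (hSDQ : S_SDQ)
    (hSIGQ : S_SIGQ) (hHTF : S_HTF) : S_CRTQ := by
  intro p q _ A B P P' V f hS hT ι _ R hG w hw kp eta e b hC he2 l N hl hpl1 hlf ψ hψ a ha1 hac
    hfac H hH θ hθ D _ _ h hs
  let _ := algC h
  intro χ hχ c₀ hc₀ hbig
  by_contra hcon
  push Not at hcon
  classical
  have hp : p.Prime := Fact.out
  obtain ⟨⟨hcq, -, hp5, hpq, hPp, hOv, hf0, hpf, hfD, -, -⟩, i2, ⟨T, hTr⟩, i4, i5, i6, -⟩ :=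
    hIDQ p q A B P P' V f hS
  have hpl : ¬ p ∣ l := fun h1 => hpf (h1.trans hlf)
  have hm0 : f * l ^ N ≠ 0 := mul_ne_zero hf0 (pow_ne_zero _ hl.ne_zero)
  have hpm : ¬ p ∣ f * l ^ N := by
    intro h1
    rcases (hp.dvd_mul).1 h1 with h2 | h2
    · exact hpf h2
    · exact hpl (hp.dvd_of_dvd_pow h2)
  have hmp0 : f * l ^ N * p ≠ 0 := mul_ne_zero hm0 hp.ne_zero
  have hLv : LvM p f (f * l ^ N) R := by
    refine ⟨hm0, Dvd.intro _ rfl, hpm, fun i => ?_⟩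
    have h1 := R.cop i
    have h2 : (nI (R.b i)).Coprime p := Nat.Coprime.coprime_dvd_right (Dvd.intro _ rfl) h1
    have h3 : (nI (R.b i)).Coprime f := Nat.Coprime.coprime_dvd_right (Dvd.intro_left _ rfl) h1
    have h4 : (nI (R.b i)).Coprime l := Nat.Coprime.coprime_dvd_right hlf h3
    exact Nat.Coprime.mul_right (Nat.Coprime.mul_right h3 (h4.pow_right N)) h2
  have hac2 : a.Coprime (2 * (f * l ^ N) * p) := by
    have h2 : a.Coprime 2 := Nat.Coprime.coprime_dvd_right ⟨3 * f * p, by ring⟩ hac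
    have h3 : a.Coprime f := Nat.Coprime.coprime_dvd_right ⟨6 * p, by ring⟩ hac
    have h4 : a.Coprime p := Nat.Coprime.coprime_dvd_right ⟨6 * f, by ring⟩ hac
    have h5 : a.Coprime l := Nat.Coprime.coprime_dvd_right hlf h3
    exact Nat.Coprime.mul_right (Nat.Coprime.mul_right h2
      (Nat.Coprime.mul_right h3 (h5.pow_right N))) h4
  have hf3 : 3 ≤ f := f_big (p := p) (q := q) (P := P) (P' := P') (V := V) hcq hf0 hfD
  have hm3 : 3 ≤ f * l ^ N := hf3.trans (Nat.le_mul_of_pos_right f (pow_pos hl.pos N))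
  have hM3 : 3 ≤ f * l ^ N * p := hm3.trans (Nat.le_mul_of_pos_right _ hp.pos)
  have hTc := i4 T hTr
  obtain ⟨x0, y0, hLQ⟩ := i5 (f * l ^ N) hm3 hpm
  obtain ⟨j1, -, -, -⟩ := i6 (f * l ^ N) x0 y0 hLQ
  obtain ⟨hv1, hv0, -, -, hv2, -, hvq, -⟩ := hVPQ p q A B P P' V f hS
  obtain ⟨-, w2, w3, w4, w5, -, w7, w8⟩ := hTEQ p q A B P P' V f hS w hw
  obtain ⟨t0, hLoc⟩ := loc hLOQI hLOQS hS R hG hw hLQ
  obtain ⟨q1, q2, q3, q4, q5, q6⟩ := hHTF A B hcq hT (p * f) ι R (f * l ^ N * p) hM3 hLv.cop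
  -- the automorphisms `γ c`
  have hγe : ∀ c : OO A B, ∃ σ : GalF A B (f * l ^ N * p), c ∉ P →
      HitF R (f * l ^ N * p) _ σ R.i0 (x0 + c * (f * l ^ N : ℕ) * y0) := by
    intro c
    by_cases hc : c ∈ P
    · exact ⟨1, fun h1 => absurd hc h1⟩
    · obtain ⟨σ, hσ⟩ := q2 R.i0 (x0 + c * (f * l ^ N : ℕ) * y0) (j1 c hc).1
      exact ⟨σ, fun _ => hσ⟩
  choose γ hγ0 using hγe
  have hγ : ∀ c ∈ T, HitF R (f * l ^ N * p) _ (γ c) R.i0 (x0 + c * (f * l ^ N : ℕ) * y0) :=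
    fun c hc => hγ0 c (hTr.nz c hc)
  choose I X hIX using q1
  have hfin := hT.fin _ (CRA.idl_ne (A := A) (B := B) hmp0)
  have MEM := ty_MEM A B _ hfin (hT.gal _ (CRA.idl_ne hmp0))
    (hT.comm _ (CRA.idl_ne hmp0)) D h hs
  letI : Fintype (GalF A B (f * l ^ N * p)) := by
    haveI := hfin
    exact Fintype.ofFinite _
  -- T is not empty
  have hq5 : 5 ≤ q := hp5.trans hpq
  have hTne : T.Nonempty := by
    rw [← Finset.card_pos, hTc]
    omega
  obtain ⟨c, hcT⟩ := hTne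
  have hcP := hTr.nz c hcT
  -- the data for DPr
  have DD : DDat V t0 (q - 1) T w := by
    refine ⟨?_, by omega, hTc, hvq, fun c _ => (w7 c).1, fun c hc => (w5 c (hTr.nz c hc)).1,
      (w8 T hTr).1⟩
    by_contra h1
    rw [not_lt] at h1
    have h2 := one_le_pow₀ h1 (n := q - 1)
    rw [hLoc.vt] at h2
    exact absurd hv1 (not_lt.2 h2)
  have hDL := fun σ => hDLQ p q A B P P' V f hS hT ι R hG (f * l ^ N) hLv x0 y0 hLQ w hw t0 hLoc
    T hTr γ hγ a H ha1 hac2 hH θ hθ σ (I σ) (X σ) (hIX σ)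
  -- θ is not zero, all conjugates are units
  have hun : ∀ σ : GalF A B (f * l ^ N * p), V.valuation
      ((σ θ : (RF (idl (f * l ^ N * p)) : IntermediateField (kk A B) ℂ)) : ℂ) = 1 := by
    intro σ
    have h1 := ((hDL ((γ c)⁻¹ * σ)).1 c hcT).1
    have h2 : γ c (((γ c)⁻¹ * σ) θ) = σ θ := by
      rw [← AlgEquiv.mul_apply, mul_inv_cancel_left]
    rwa [h2] at h1
  have hθ0 : θ ≠ 0 := by
    intro h1
    have h2 := hun 1
    rw [h1, map_zero, ZeroMemClass.coe_zero, map_zero] at h2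
    exact zero_ne_one h2
  choose ρ hρ using (MEM θ hθ0).2.2.2.2
  -- the functionals
  have key : ∀ t : (IsLocalRing.ResidueField V) →+ ZMod p,
      V.valuation (∑ σ : GalF A B (f * l ^ N * p),
        ((t (rsd V (thQ R kp eta ψ w e b (I σ) (X σ)))).val : ℂ) *
          (w c * (muX R (I σ) * w (X σ)) * dlX (R.L (I σ)) a (pt R (f * l ^ N * p) (I σ)
            (X σ * (x0 + c * (f * l ^ N : ℕ) * y0))))) ≤ V.valuation (t0 ^ (q - 2)) := by
    intro t
    have hn : ∀ σ : GalF A B (f * l ^ N * p),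
        rsd V (thQ R kp eta ψ w e b (I σ) (X σ)) =
          (((χ (ρ σ))⁻¹ : (IsLocalRing.ResidueField V)ˣ) : IsLocalRing.ResidueField V) := by
      intro σ
      rw [← hχ (ρ σ) _ (q6 (f * l ^ N * p) dvd_rfl hM3 D h hs (ρ σ) σ (I σ) (X σ) (hρ σ)
        (hIX σ))]
      congr 1
      refine (hTHQ p q A B P P' V f hS ι R w hw kp eta e b hC l N hl hlf ψ).1 (I σ) _ _ ?_
      rw [← Ideal.Quotient.eq]
      exact (Quotient.out_eq _).symm
    obtain ⟨y, hy⟩ := hcon t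
    -- `y` as an element of `F`
    have hyF : (y : ℂ) ∈ (RF (idl (f * l ^ N * p)) : IntermediateField (kk A B) ℂ) := hs y y.2
    set n : GalF A B (f * l ^ N * p) → ℕ := fun σ =>
      (t (rsd V (thQ R kp eta ψ w e b (I σ) (X σ)))).val with hndef
    have hyp : ((⟨(y : ℂ), hyF⟩ : (RF (idl (f * l ^ N * p)) : IntermediateField (kk A B) ℂ)) ^ p) =
        ∏ σ : GalF A B (f * l ^ N * p), (σ θ) ^ n σ := by
      apply Subtype.ext
      have h1 : (y : ℂ) ^ p = ∏ τ : D ≃ₐ[kk A B] D,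
          cWt h θ τ ^ (t ((χ τ)⁻¹ : (IsLocalRing.ResidueField V)ˣ)).val := by
        have h2 := congrArg (Subtype.val : D → ℂ) hy
        push_cast at h2
        rw [h2]
        unfold Pool.Agent.TWK.sE
        push_cast
        refine Finset.prod_congr (by congr) fun τ _ => ?_
        congr 1
        have h3 : cW h θ ∈ D := hc₀ ▸ c₀.2
        have h4 : c₀ = ⟨cW h θ, h3⟩ := Subtype.ext hc₀
        rw [h4]
        exact (MEM θ hθ0).2.2.1 τ h3
      have h5 : (∏ τ : D ≃ₐ[kk A B] D,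
          cWt h θ τ ^ (t ((χ τ)⁻¹ : (IsLocalRing.ResidueField V)ˣ)).val) =
          ∏ σ : GalF A B (f * l ^ N * p),
          ((σ θ : (RF (idl (f * l ^ N * p)) : IntermediateField (kk A B) ℂ)) : ℂ) ^ n σ := by
        rw [← Finset.prod_fiberwise Finset.univ ρ]
        refine Finset.prod_congr (by congr) fun τ _ => ?_
        rw [cWt_fib h hs ρ hρ θ τ, ← Finset.prod_pow]
        refine Finset.prod_congr rfl fun σ hσ => ?_
        rw [hndef]
        simp only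
        rw [hn σ, (Finset.mem_filter.1 hσ).2]
      push_cast
      rw [h1, h5]
    have hyv : V.valuation (y : ℂ) ≤ 1 := by
      have h1 := congrArg (fun z : (RF (idl (f * l ^ N * p)) : IntermediateField (kk A B) ℂ) =>
        V.valuation (z : ℂ)) hyp
      push_cast at h1
      rw [map_pow, map_prod] at h1
      have h2 : ∏ σ : GalF A B (f * l ^ N * p), V.valuation
          (((σ θ : (RF (idl (f * l ^ N * p)) : IntermediateField (kk A B) ℂ)) : ℂ) ^ n σ) = 1 :=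
        Finset.prod_eq_one fun σ _ => by rw [map_pow, hun σ, one_pow]
      rw [h2] at h1
      exact (pow_le_one_iff hp.ne_zero).1 h1.le
    obtain ⟨g, hg⟩ := hFIQ p q A B P P' V f hS hT ι R hG (f * l ^ N) hLv x0 y0 hLQ w hw t0 hLoc
      T hTr γ hγ ⟨(y : ℂ), hyF⟩ hyv
    have hlog := logd DD (Finset.univ : Finset (GalF A B (f * l ^ N * p)))
      (u := fun σ c => ((γ c (σ θ) :
        (RF (idl (f * l ^ N * p)) : IntermediateField (kk A B) ℂ)) : ℂ))
      (b := fun σ c => w c * (muX R (I σ) * w (X σ) * t0) * dlX (R.L (I σ)) a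
        (pt R (f * l ^ N * p) (I σ) (X σ * (x0 + c * (f * l ^ N : ℕ) * y0))))
      n (fun σ _ => (hDL σ).2) (fun σ _ c hc => ((hDL σ).1 c hc).1) p (le_of_eq hLoc.vt.symm)
      (κ := 1) (by rw [map_one]) hg
      (fun c _ => by
        rw [one_mul]
        have h1 := congrArg (fun z : (RF (idl (f * l ^ N * p)) : IntermediateField (kk A B) ℂ) =>
          ((γ c z : (RF (idl (f * l ^ N * p)) : IntermediateField (kk A B) ℂ)) : ℂ)) hyp
        simp only [map_pow, map_prod] at h1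
        push_cast at h1
        exact h1.symm) hcT
    have e1 : (∑ σ : GalF A B (f * l ^ N * p), (n σ : ℂ) *
        (w c * (muX R (I σ) * w (X σ) * t0) * dlX (R.L (I σ)) a
          (pt R (f * l ^ N * p) (I σ) (X σ * (x0 + c * (f * l ^ N : ℕ) * y0))))) =
        t0 * ∑ σ : GalF A B (f * l ^ N * p), (n σ : ℂ) *
        (w c * (muX R (I σ) * w (X σ)) * dlX (R.L (I σ)) a (pt R (f * l ^ N * p) (I σ)
            (X σ * (x0 + c * (f * l ^ N : ℕ) * y0)))) := by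
      rw [Finset.mul_sum]
      exact Finset.sum_congr rfl fun σ _ => by ring
    rw [e1, map_mul] at hlog
    have e2 : V.valuation t0 ^ (q - 1) = V.valuation t0 * V.valuation t0 ^ (q - 2) := by
      rw [← pow_succ']
      congr 1
      omega
    rw [e2] at hlog
    rw [map_pow]
    exact le_of_mul_le_mul_left hlog (zero_lt_iff.2 ((Valuation.ne_zero_iff _).2 hLoc.ne))
  -- Teichmüller lifts
  obtain ⟨s, hs1, hs2⟩ :=
    (hTHQ p q A B P P' V f hS ι R w hw kp eta e b hC l N hl hlf ψ).2.2.2.1 hpl1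
  have hvt : V.valuation (p : ℂ) ≤ V.valuation (t0 ^ (q - 2)) := by
    rw [← hLoc.vt, map_pow]
    exact pow_le_pow_right_of_le_one' DD.t1.le (by omega)
  have hmu := fun i => ((hVPQ p q A B P P' V f hS).2.2.2.2.2.2.2 ι R hG i).2.1
  have hwc : V.valuation (w c) = 1 := (w5 c hcP).2
  have hRS := hRSQ V p hv1 hv0 (GalF A B (f * l ^ N * p))
    (fun σ => thQ R kp eta ψ w e b (I σ) (X σ))
    (fun σ => w c * (muX R (I σ) * w (X σ)) * dlX (R.L (I σ)) a (pt R (f * l ^ N * p) (I σ)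
            (X σ * (x0 + c * (f * l ^ N : ℕ) * y0)))) s hs1 (fun σ => hs2 _ _ (hIX σ).1)
    (fun σ => by
      rw [map_mul, map_mul, map_mul, hmu, hwc, one_mul, one_mul]
      exact mul_le_one' (w7 _).1 ((hDL σ).1 c hcT).2) (t0 ^ (q - 2)) hvt key
  -- the sum
  have hSig := hSIGQ p q A B P P' V f hS hT ι R w hw kp eta e b hC l N hl hlf ψ x0 y0 hLQ c hcP a
    ha1 hac I X hIX
  have hSd := hSDQ p q A B P P' V f hS ι R w hw kp eta e b hC l N hl hpl1 hlf ψ a ha1 hac hfac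
  rw [← hSd, ← hSig] at hbig
  have hwx : x0 + c * (f * l ^ N : ℕ) * y0 ∉ P := by
    intro h1
    have h2 := (j1 c hcP).1
    obtain ⟨u, v, huv⟩ := h2
    have h3 : ((f * l ^ N * p : ℕ) : OO A B) ∈ P := by
      have h4 := (i2 ((f * l ^ N * p : ℕ) : ℤ)).2 (by
        push_cast
        exact Dvd.intro_left _ rfl)
      simpa using h4
    apply hPp.ne_top
    rw [Ideal.eq_top_iff_one, ← huv]
    exact P.add_mem (P.mul_mem_left _ h1) (P.mul_mem_left _ h3)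
  have hwa : V.valuation (w (x0 + c * (f * l ^ N : ℕ) * y0)) = 1 := (w5 _ hwx).2
  have e3 : w c * ∑ σ : GalF A B (f * l ^ N * p),
      thQ R kp eta ψ w e b (I σ) (X σ) * (muX R (I σ) *
        w (X σ * (x0 + c * (f * l ^ N : ℕ) * y0)) * dlX (R.L (I σ)) a
          (pt R (f * l ^ N * p) (I σ) (X σ * (x0 + c * (f * l ^ N : ℕ) * y0)))) =
      w (x0 + c * (f * l ^ N : ℕ) * y0) * ∑ σ : GalF A B (f * l ^ N * p),
      thQ R kp eta ψ w e b (I σ) (X σ) *
        (w c * (muX R (I σ) * w (X σ)) * dlX (R.L (I σ)) a (pt R (f * l ^ N * p) (I σ)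
            (X σ * (x0 + c * (f * l ^ N : ℕ) * y0)))) := by
    rw [Finset.mul_sum, Finset.mul_sum]
    refine Finset.sum_congr rfl fun σ _ => ?_
    rw [w2 (X σ)]
    ring
  have e4 := congrArg V.valuation e3
  rw [map_mul, map_mul, hwc, hwa, one_mul, one_mul] at e4
  rw [map_mul, map_mul, hv2, one_mul, map_pow, hwa, one_pow, one_mul, e4] at hbig
  have e5 := (hbig.trans (pow_le_pow_left₀ zero_le hRS (q - 1)))
  rw [map_pow, ← pow_mul, mul_comm (q - 2), pow_mul, hLoc.vt] at e5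
  have e6 := (pow_le_pow_iff_right_of_lt_one₀ (zero_lt_iff.2 hv0) hv1).1 e5
  omega

end CRTQ

/-- (CRTQ) from a large sum to a non-power -/
theorem t_CRTQ (hIDQ : S_IDQ) (hVPQ : S_VPQ) (hTEQ : S_TEQ) (hTHQ : S_THQ) (hLOQI : S_LOQI)
    (hLOQS : S_LOQS) (hFIQ : S_FIQ) (hDLQ : S_DLQ) (hRSQ : S_RSQ) (hSDQ : S_SDQ)
    (hSIGQ : S_SIGQ) : S_CRTQ :=
  CRTQ.main hIDQ hVPQ hTEQ hTHQ hLOQI hLOQS hFIQ hDLQ hRSQ hSDQ hSIGQ Pool.Agent.TWT.t_HTF

end

end Pool.Agent.TWQ
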