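import Pool.Agent.TWQ.StU
import Pool.Agent.TWT.CRB

/-!
# TWQ, module DSQ (helper33): descent to the fixed field of the kernel of `χ`
-/

set_option autoImplicit false

open WeierstrassCurve Polynomial NumberField IsDedekindDomain

namespace Pool.Agent.TWQ

open _root_.MU3 Pool.Agent.MU3 Pool.Agent.MU3A Pool.Agent.MU3B Pool.Agent.MU3C Pool.Agent.RI
  Pool.Agent.RID
open Pool.Agent.MUX Pool.Agent.MUXU Pool.Agent.MUXW Pool.Agent.TWT Pool.Agent.TWI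
open Pool.Agent.TWT.CRB
open Pool.Agent.MU3V (cls Sub GD algDF)
open Pool.Agent.MU3V.XXG (abs_ext incl)

noncomputable section

namespace DSQ

/-- if `z ^ d` is a `p`-th power and `d` is prime to `p`, then `z` is a `p`-th power -/
theorem pow_desc {L : Type} [Field L] {z Y : L} (hz : z ≠ 0) {d p : ℕ} (hd : d.Coprime p)
    (h : Y ^ p = z ^ d) : ∃ w : L, w ^ p = z := by
  have h1 : (d : ℤ) * d.gcdA p + (p : ℤ) * d.gcdB p = 1 := by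
    rw [← Nat.gcd_eq_gcd_ab, hd.gcd_eq_one, Nat.cast_one]
  refine ⟨Y ^ (d.gcdA p) * z ^ (d.gcdB p), ?_⟩
  have e1 : (Y ^ (d.gcdA p)) ^ p = z ^ ((d : ℤ) * d.gcdA p) := by
    rw [← zpow_natCast, ← zpow_mul, mul_comm, zpow_mul, zpow_natCast, h, zpow_mul, zpow_natCast]
  have e2 : (z ^ (d.gcdB p)) ^ p = z ^ ((p : ℤ) * d.gcdB p) := by
    rw [← zpow_natCast, ← zpow_mul, mul_comm]
  rw [mul_pow, e1, e2, ← zpow_add₀ hz, h1, zpow_one]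

/-- the norm to the fixed field of the kernel -/
theorem norm_desc {k D M : Type} [Field k] [Field D] [Algebra k D] [FiniteDimensional k D]
    [IsGalois k D] [Group M] (χ : (D ≃ₐ[k] D) →* M) {p : ℕ} (hp : p.Prime)
    (hnd : ¬ p ∣ Module.finrank k D) {y z : D} (hyz : y ^ p = z)
    (hz : ∀ τ : D ≃ₐ[k] D, χ τ = 1 → τ z = z) :
    ∃ (d : ℕ) (Y : D), d.Coprime p ∧ (∀ τ : D ≃ₐ[k] D, χ τ = 1 → τ Y = Y) ∧
      Y ^ p = z ^ d := by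
  classical
  have : Fintype χ.ker := Fintype.ofFinite _
  refine ⟨Nat.card χ.ker, ∏ τ : χ.ker, (τ : D ≃ₐ[k] D) y, ?_, ?_, ?_⟩
  · have h1 : Nat.card χ.ker ∣ Nat.card (D ≃ₐ[k] D) := Subgroup.card_subgroup_dvd_card _
    rw [IsGalois.card_aut_eq_finrank] at h1
    exact ((Nat.Prime.coprime_iff_not_dvd hp).2 fun h2 => hnd (h2.trans h1)).symm
  · intro τ hτ
    rw [map_prod]
    exact Fintype.prod_equiv (Equiv.mulLeft (⟨τ, hτ⟩ : χ.ker)) _ _ fun σ => rfl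
  · rw [← Finset.prod_pow]
    have h1 : ∀ τ : χ.ker, ((τ : D ≃ₐ[k] D) y) ^ p = z := by
      intro τ
      rw [← map_pow, hyz]
      exact hz τ.1 τ.2
    rw [Finset.prod_congr rfl fun τ _ => h1 τ, Finset.prod_const, Finset.card_univ,
      ← Nat.card_eq_fintype_card]

/-- an automorphism which is trivial on the fixed field of the kernel is in the kernel -/
theorem mem_ker {k D M : Type} [Field k] [Field D] [Algebra k D] [FiniteDimensional k D]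
    [Group M] (χ : (D ≃ₐ[k] D) →* M) (τ : D ≃ₐ[k] D)
    (hτ : ∀ y : D, (∀ σ : D ≃ₐ[k] D, χ σ = 1 → σ y = y) → τ y = y) : χ τ = 1 := by
  have h1 : τ ∈ IntermediateField.fixingSubgroup (IntermediateField.fixedField χ.ker) := by
    rw [IntermediateField.mem_fixingSubgroup_iff]
    intro y hy
    rw [IntermediateField.mem_fixedField_iff] at hy
    exact hτ y fun σ hσ => hy σ hσ
  rw [IntermediateField.fixingSubgroup_fixedField] at h1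
  exact h1

variable {A B : ℤ} {F : IntermediateField (kk A B) ℂ} {D : IntermediateField ℚ ℂ}

/-- the fixed field of the kernel of `χ`, as a subfield of `ℂ` -/
def D1 (h : kk A B ≤ D) {M : Type} [Group M] (χ : letI := algC h; (D ≃ₐ[kk A B] D) →* M) :
    IntermediateField ℚ ℂ :=
  letI := algC h
  { carrier := {y | ∃ hy : y ∈ D, ∀ τ : D ≃ₐ[kk A B] D, χ τ = 1 → τ ⟨y, hy⟩ = ⟨y, hy⟩}
    mul_mem' := by
      rintro a b ⟨ha, ha2⟩ ⟨hb, hb2⟩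
      refine ⟨D.mul_mem ha hb, fun τ hτ => ?_⟩
      have e : (⟨a * b, D.mul_mem ha hb⟩ : D) = ⟨a, ha⟩ * ⟨b, hb⟩ := rfl
      rw [e, map_mul, ha2 τ hτ, hb2 τ hτ]
    one_mem' := ⟨D.one_mem, fun τ _ => map_one τ⟩
    add_mem' := by
      rintro a b ⟨ha, ha2⟩ ⟨hb, hb2⟩
      refine ⟨D.add_mem ha hb, fun τ hτ => ?_⟩
      have e : (⟨a + b, D.add_mem ha hb⟩ : D) = ⟨a, ha⟩ + ⟨b, hb⟩ := rfl
      rw [e, map_add, ha2 τ hτ, hb2 τ hτ]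
    zero_mem' := ⟨D.zero_mem, fun τ _ => map_zero τ⟩
    algebraMap_mem' := by
      intro r
      refine ⟨D.algebraMap_mem r, fun τ _ => ?_⟩
      have e : (⟨algebraMap ℚ ℂ r, D.algebraMap_mem r⟩ : D) = algebraMap ℚ D r := rfl
      rw [e]
      exact map_ratCast τ r
    inv_mem' := by
      rintro a ⟨ha, ha2⟩
      refine ⟨D.inv_mem ha, fun τ hτ => ?_⟩
      have e : (⟨a⁻¹, D.inv_mem ha⟩ : D) = (⟨a, ha⟩ : D)⁻¹ := rfl
      rw [e, map_inv₀, ha2 τ hτ] }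

theorem mem_D1 (h : kk A B ≤ D) {M : Type} [Group M] :
    letI := algC h
    ∀ (χ : (D ≃ₐ[kk A B] D) →* M) (y : ℂ), y ∈ D1 h χ ↔
      ∃ hy : y ∈ D, ∀ τ : D ≃ₐ[kk A B] D, χ τ = 1 → τ ⟨y, hy⟩ = ⟨y, hy⟩ :=
  fun _ _ => Iff.rfl

/-- the element `sE p χ t c` as a product over `Gal(F / k)` -/
theorem sE_eq (hfd : FiniteDimensional (kk A B) F) (hgal : IsGalois (kk A B) F)
    (hc : ∀ σ τ : F ≃ₐ[kk A B] F, σ * τ = τ * σ) [FiniteDimensional ℚ D]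
    [FiniteDimensional ℚ (kk A B)] (h : kk A B ≤ D) (hs : Sub D F) (Fr : Type) [Field Fr]
    (p : ℕ) [Fintype (F ≃ₐ[kk A B] F)] : letI := algC h
    ∀ (χ : (D ≃ₐ[kk A B] D) →* Frˣ) (ρ : (F ≃ₐ[kk A B] F) → (D ≃ₐ[kk A B] D)),
      (∀ σ, Ext1 h (ρ σ) σ) → ∀ θ : F, θ ≠ 0 → ∀ c : D, (c : ℂ) = cW h θ →
      ∀ t : Fr →+ ZMod p, ((Pool.Agent.TWK.sE p χ t c : D) : ℂ) =
        ∏ σ : F ≃ₐ[kk A B] F, ((σ θ : F) : ℂ) ^ (t ((χ (ρ σ))⁻¹ : Frˣ)).val := by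
  let _ := algC h
  intro χ ρ hρ θ hθ c hcc t
  classical
  have MEM := ty_MEM A B F hfd hgal hc D h hs θ hθ
  have h3 : cW h θ ∈ D := hcc ▸ c.2
  have h4 : c = ⟨cW h θ, h3⟩ := Subtype.ext hcc
  have h1 : ((Pool.Agent.TWK.sE p χ t c : D) : ℂ) = ∏ τ : D ≃ₐ[kk A B] D,
      cWt h θ τ ^ (t ((χ τ)⁻¹ : Frˣ)).val := by
    unfold Pool.Agent.TWK.sE
    push_cast
    refine Finset.prod_congr (by congr) fun τ _ => ?_
    congr 1
    rw [h4]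
    exact MEM.2.2.1 τ h3
  rw [h1, ← Finset.prod_fiberwise Finset.univ ρ]
  refine Finset.prod_congr (by congr) fun τ _ => ?_
  rw [cWt_fib h hs ρ hρ θ τ, ← Finset.prod_pow]
  refine Finset.prod_congr rfl fun σ hσ => ?_
  rw [(Finset.mem_filter.1 hσ).2]

/-- `D / k` is abelian -/
theorem ab_D (hfd : FiniteDimensional (kk A B) F) (hgal : IsGalois (kk A B) F)
    (hc : ∀ σ τ : F ≃ₐ[kk A B] F, σ * τ = τ * σ) (h : kk A B ≤ D) (hs : Sub D F) :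
    letI := algC h
    FiniteDimensional (kk A B) D ∧ IsGalois (kk A B) D := by
  let _ := algC h
  have : IsAbelianGalois (kk A B) F := { toIsGalois := hgal, is_comm := ⟨hc⟩ }
  have : IsAbelianGalois (kk A B) D := IsAbelianGalois.of_algHom (incl h hs)
  refine ⟨?_, inferInstance⟩
  exact FiniteDimensional.of_injective (incl h hs).toLinearMap (incl h hs).toRingHom.injective

theorem main : S_DSQ := by
  intro p _ A B F hfd hgal hc D _ _ h hs Fr _ _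
  let _ := algC h
  intro hnd χ
  classical
  have hp : p.Prime := Fact.out
  obtain ⟨hfD, hgD⟩ := ab_D hfd hgal hc h hs
  have hmem := mem_D1 h χ
  obtain ⟨D₁, hD₁def⟩ : ∃ D₁ : IntermediateField ℚ ℂ, D₁ = D1 h χ := ⟨_, rfl⟩
  rw [← hD₁def] at hmem
  have hD₁ : D₁ ≤ D := fun y hy => ((hmem y).1 hy).1
  have hfd1 : FiniteDimensional ℚ D₁ :=
    FiniteDimensional.of_injective (IntermediateField.inclusion hD₁).toLinearMap
      (IntermediateField.inclusion hD₁).toRingHom.injective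
  have h₁ : kk A B ≤ D₁ := by
    intro y hy
    refine (hmem y).2 ⟨h hy, fun τ _ => ?_⟩
    exact τ.commutes (⟨y, hy⟩ : kk A B)
  refine ⟨D₁, hfd1, h₁, ?_⟩
  let _ := algC h₁
  have hs₁ : Sub D₁ F := fun x hx => hs x (hD₁ hx)
  obtain ⟨hfD1, hgD1⟩ := ab_D hfd hgal hc h₁ hs₁
  obtain ⟨e1, e2⟩ := abs_ext hc (incl h hs)
  obtain ⟨e3, e4⟩ := abs_ext hc (incl h₁ hs₁)
  have ex : ∀ (τ : D ≃ₐ[kk A B] D) (σ : F ≃ₐ[kk A B] F),
      Ext1 h τ σ ↔ ∀ y : D, incl h hs (τ y) = σ (incl h hs y) := Mem.ext1_iff h hs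
  have ex₁ : ∀ (τ : D₁ ≃ₐ[kk A B] D₁) (σ : F ≃ₐ[kk A B] F),
      Ext1 h₁ τ σ ↔ ∀ y : D₁, incl h₁ hs₁ (τ y) = σ (incl h₁ hs₁ y) := Mem.ext1_iff h₁ hs₁
  -- common extensions
  have com : ∀ (σ : F ≃ₐ[kk A B] F) (τ : D ≃ₐ[kk A B] D) (τ₁ : D₁ ≃ₐ[kk A B] D₁),
      Ext1 h τ σ → Ext1 h₁ τ₁ σ → ∀ y : D₁, ((τ₁ y : D₁) : ℂ) = (τ ⟨y, hD₁ y.2⟩ : D) := by
    intro σ τ τ₁ k1 k2 y
    rw [← k1 ⟨y, hD₁ y.2⟩ (hs₁ y y.2), ← k2 y (hs₁ y y.2)]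
  have res : ∀ τ : D ≃ₐ[kk A B] D, ∃ τ₁ : D₁ ≃ₐ[kk A B] D₁,
      ∀ y : D₁, ((τ₁ y : D₁) : ℂ) = (τ ⟨y, hD₁ y.2⟩ : D) := by
    intro τ
    obtain ⟨σ, hσ⟩ := e2 τ
    obtain ⟨τ₁, hτ₁⟩ := e3 σ
    exact ⟨τ₁, com σ τ τ₁ ((ex _ _).2 hσ) ((ex₁ _ _).2 hτ₁)⟩
  choose R hR using res
  have uniq : ∀ (τ : D ≃ₐ[kk A B] D) (τ₁ : D₁ ≃ₐ[kk A B] D₁),
      (∀ y : D₁, ((τ₁ y : D₁) : ℂ) = (τ ⟨y, hD₁ y.2⟩ : D)) → R τ = τ₁ := by
    intro τ τ₁ k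
    apply AlgEquiv.ext
    intro y
    exact Subtype.ext ((hR τ y).trans (k y).symm)
  let Rm : (D ≃ₐ[kk A B] D) →* (D₁ ≃ₐ[kk A B] D₁) := MonoidHom.mk' R (by
    intro τ τ'
    apply uniq
    intro y
    rw [AlgEquiv.mul_apply, hR τ, AlgEquiv.mul_apply]
    congr 2
    exact Subtype.ext (hR τ' y))
  have hsurj : Function.Surjective Rm := by
    intro τ₁
    obtain ⟨σ, hσ⟩ := e4 τ₁
    obtain ⟨τ, hτ⟩ := e1 σ
    exact ⟨τ, uniq τ τ₁ (com σ τ τ₁ ((ex _ _).2 hτ) ((ex₁ _ _).2 hσ))⟩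
  have hker : Rm.ker ≤ χ.ker := by
    intro τ hτ
    refine mem_ker χ τ fun y hy => ?_
    have hy1 : (y : ℂ) ∈ D₁ := (hmem y).2 ⟨y.2, fun σ hσ => hy σ hσ⟩
    have h2 := hR τ ⟨y, hy1⟩
    have h3 : R τ = 1 := hτ
    rw [h3] at h2
    exact Subtype.ext h2.symm
  obtain ⟨χ₁, hχ₁⟩ : ∃ χ₁ : (D₁ ≃ₐ[kk A B] D₁) →* Frˣ, ∀ τ, χ₁ (R τ) = χ τ :=
    ⟨Rm.liftOfSurjective hsurj ⟨χ, hker⟩, fun τ =>
      MonoidHom.liftOfRightInverse_comp_apply Rm _ (Function.rightInverse_surjInv hsurj)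
        ⟨χ, hker⟩ τ⟩
  have hcomp : ∀ (σ : F ≃ₐ[kk A B] F) (τ : D ≃ₐ[kk A B] D) (τ₁ : D₁ ≃ₐ[kk A B] D₁),
      Ext1 h τ σ → Ext1 h₁ τ₁ σ → χ τ = χ₁ τ₁ := by
    intro σ τ τ₁ k1 k2
    rw [← hχ₁ τ, uniq τ τ₁ (com σ τ τ₁ k1 k2)]
  refine ⟨hgD1, hD₁, ?_, χ₁, hcomp, ?_⟩
  · intro y
    constructor
    · intro hy σ τ k1 k2
      obtain ⟨hyD, k3⟩ := (hmem y).1 hy
      have k4 := k1 ⟨y, hyD⟩ y.2
      rw [k3 τ k2] at k4
      exact Subtype.ext k4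
    · intro hy
      have hyD : (y : ℂ) ∈ D := by
        have := hfd
        have := hgal
        exact Mem.mem_D h y fun σ hσ => hy σ 1 ((Mem.ext1_one h σ).1 hσ) (map_one χ)
      refine (hmem y).2 ⟨hyD, fun τ hτ => ?_⟩
      obtain ⟨σ, hσ⟩ := e2 τ
      have k1 : Ext1 h τ σ := (ex _ _).2 hσ
      have k2 := k1 ⟨y, hyD⟩ y.2
      have k3 := hy σ τ k1 hτ
      apply Subtype.ext
      rw [← k2]
      exact congrArg Subtype.val k3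
  · intro θ hθ c₀ c₁ hc₀ hc₁ t hno y hy
    let _ : Fintype (F ≃ₐ[kk A B] F) := by
      have := hfd
      exact Fintype.ofFinite _
    choose ρ hρ using fun σ => e1 σ
    choose ρ₁ hρ₁ using fun σ => e3 σ
    have z0 := sE_eq hfd hgal hc h hs Fr p χ ρ (fun σ => (ex _ _).2 (hρ σ)) θ hθ c₀ hc₀ t
    have z1 := sE_eq hfd hgal hc h₁ hs₁ Fr p χ₁ ρ₁ (fun σ => (ex₁ _ _).2 (hρ₁ σ)) θ hθ c₁ hc₁ t
    have zz : ((Pool.Agent.TWK.sE p χ t c₀ : D) : ℂ) =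
        ((Pool.Agent.TWK.sE p χ₁ t c₁ : D₁) : ℂ) := by
      rw [z0, z1]
      refine Finset.prod_congr rfl fun σ _ => ?_
      rw [hcomp σ (ρ σ) (ρ₁ σ) ((ex _ _).2 (hρ σ)) ((ex₁ _ _).2 (hρ₁ σ))]
    set z : D := Pool.Agent.TWK.sE p χ t c₀ with hz
    set z' : D₁ := Pool.Agent.TWK.sE p χ₁ t c₁ with hz'
    have hzfix : ∀ τ : D ≃ₐ[kk A B] D, χ τ = 1 → τ z = z := by
      have h5 : (z : ℂ) ∈ D₁ := zz ▸ z'.2
      intro τ hτ
      exact ((hmem z).1 h5).2 τ hτ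
    obtain ⟨d, Y, hd, hY, hYz⟩ := norm_desc χ hp hnd hy hzfix
    have hY1 : (Y : ℂ) ∈ D₁ := (hmem Y).2 ⟨Y.2, fun τ hτ => hY τ hτ⟩
    have hz0 : z' ≠ 0 := by
      intro h6
      have h7 : ((z' : D₁) : ℂ) = 0 := by rw [h6]; rfl
      rw [z1] at h7
      obtain ⟨σ, -, h8⟩ := Finset.prod_eq_zero_iff.1 h7
      have h9 := (pow_eq_zero_iff').1 h8
      have h10 : σ θ = 0 := Subtype.ext h9.1
      exact hθ ((map_eq_zero σ).1 h10)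
    have h11 : (⟨Y, hY1⟩ : D₁) ^ p = z' ^ d := by
      apply Subtype.ext
      have h12 := congrArg (Subtype.val : D → ℂ) hYz
      push_cast at h12 ⊢
      rw [h12, zz]
    obtain ⟨w, hw⟩ := pow_desc hz0 hd h11
    exact hno w hw

end DSQ

/-- (DSQ) descent to the fixed field of the kernel of `χ` -/
theorem t_DSQ : S_DSQ := DSQ.main

end

end Pool.Agent.TWQ
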