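import Mathlib

/-!
# TWQ: D-pairs (definition of helper3)
-/

set_option autoImplicit false

namespace Pool.Agent.TWQ

/-- `(u, g)` is a D-pair on `T`: `u = A(w)`, `g = (X A')(w)` modulo `t0 ^ N` for a polynomial `A` with
`v(A_k) ≤ v(t0) ^ k` -/
def DPr (V : ValuationSubring ℂ) (t0 : ℂ) (N : ℕ) (J : Type) (T : Finset J) (w u g : J → ℂ) :
    Prop :=
  ∃ A : Polynomial ℂ, (∀ k, V.valuation (A.coeff k) ≤ V.valuation t0 ^ k) ∧ ∀ c ∈ T,
    V.valuation (u c - A.eval (w c)) ≤ V.valuation t0 ^ N ∧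
    V.valuation (g c - (Polynomial.X * Polynomial.derivative A).eval (w c)) ≤
      V.valuation t0 ^ N

end Pool.Agent.TWQ
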