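import Pool.Agent.TWQ.DefsQ
import Pool.Agent.TWK.StK6

/-!
# TWQ: the unit theorem and the class number theorem (statements, helper60)
-/

set_option autoImplicit false

open NumberField IsDedekindDomain

namespace Pool.Agent.TWQ

open _root_.MU3 Pool.Agent.MU3 Pool.Agent.MU3A Pool.Agent.MU3B Pool.Agent.RI Pool.Agent.RID
  Pool.Agent.MUX Pool.Agent.MUXK Pool.Agent.MUXW Pool.Agent.MUXJ Pool.Agent.TWT Pool.Agent.TWI
  Pool.Agent.TWK Pool.Agent.TWR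
open Pool.Agent.MU3V (Sub GD)

/-- (UNQ) the unit theorem for all large `n`, `K ≤ RF (idl (f p))` of degree prime to `p`, ramified above `p` allowed; `UnitAt` is the conclusion
of `S_UNITA`, `S_UNITI`. -/
def S_UNQ : Prop :=
  ∀ (l g h : ℕ), Gen l g h → ∀ (p q : ℕ) [Fact p.Prime] (A B : ℤ) (P P' : Ideal (OO A B))
    (V : ValuationSubring ℂ) (f : ℕ), SetQ p q A B P P' V f → l ^ h ∣ f → TorX A B →
    ∀ (ι : Type) [Fintype ι] (R : Reps A B (p * f) ι), GRd V R →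
    (P' ≠ ⊤ → ∃ V' : ValuationSubring ℂ, OverI V' P' ∧ GRd V' R) →
    ∀ (K : IntermediateField ℚ ℂ) [FiniteDimensional ℚ K] [FiniteDimensional ℚ (kk A B)]
    (hk : kk A B ≤ K), ¬ p ∣ Module.finrank (kk A B) (IntermediateField.extendScalars hk) →
    Sub K (RF (idl (f * p)) : IntermediateField (kk A B) ℂ) →
    ∀ (Bn : ℕ → IntermediateField ℚ ℂ) [∀ n, FiniteDimensional ℚ ↥(K ⊔ Bn n)],
    (∀ n, IsLayer l n (Bn n)) → Monotone Bn →
    (∀ n, Sub (K ⊔ Bn n) (RF (idl (f * l ^ (n + h) * p)) : IntermediateField (kk A B) ℂ)) →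
    ∀ (a : ℕ), 1 < a → a.Coprime (6 * f * p) → ∀ (H : Finset ℂ), IsHalf (R.L R.i0) a H →
    ∃ n0 : ℕ, ∀ n : ℕ, n0 ≤ n → UnitAt p l h f V R H K Bn n

/-- (FINQ) there is `n₀` such that `v_p h(L) = v_p h(L ∩ K B_n)` for all `n ≥ n₀`, `b` and all fields
`k ≤ L ≤ K B_(n+b)`; `p` does not divide the class number of `k`. -/
def S_FINQ : Prop :=
  ∀ (l g h : ℕ), Gen l g h → ∀ (p q : ℕ) (A B : ℤ) (P P' : Ideal (OO A B))
    (V : ValuationSubring ℂ) (f : ℕ), SetQ p q A B P P' V f → l ^ h ∣ f → TorX A B →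
    ¬ p ∣ Module.finrank (kk A B) (RF (⊤ : Ideal (OO A B)) : IntermediateField (kk A B) ℂ) →
    ∀ (ι : Type) [Fintype ι] (R : Reps A B (p * f) ι), GRd V R →
    (P' ≠ ⊤ → ∃ V' : ValuationSubring ℂ, OverI V' P' ∧ GRd V' R) →
    ∀ (K : IntermediateField ℚ ℂ) [FiniteDimensional ℚ K] [FiniteDimensional ℚ (kk A B)]
    (hk : kk A B ≤ K), ¬ p ∣ Module.finrank (kk A B) (IntermediateField.extendScalars hk) →
    Sub K (RF (idl (f * p)) : IntermediateField (kk A B) ℂ) →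
    ∀ (Bn : ℕ → IntermediateField ℚ ℂ) [∀ n, FiniteDimensional ℚ ↥(K ⊔ Bn n)],
    (∀ n, IsLayer l n (Bn n)) → Monotone Bn →
    (∀ n, Sub (K ⊔ Bn n) (RF (idl (f * l ^ (n + h) * p)) : IntermediateField (kk A B) ℂ)) →
    ∃ n₀ : ℕ, ∀ n : ℕ, n₀ ≤ n → ∀ b : ℕ,
      ∀ L : IntermediateField ℚ ℂ, kk A B ≤ L → L ≤ K ⊔ Bn (n + b) →
        padicValNat p (classNo L) = padicValNat p (classNo (L ⊓ (K ⊔ Bn n)))

end Pool.Agent.TWQ
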