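import Pool.Agent.TWI.StI2
import Pool.Agent.TWI.StI4
import Pool.Agent.TWQ.DefD

/-!
# TWQ: Theorem C without condition at `p` (MP_b78433_nt): common definitions and final statements (helper60)

`K / k` finite abelian of degree prime to `p`, RAMIFIED above `p` allowed: `K ≤ RF (idl (f * p))`. Both types of `p ≥ 5` at the same
time (`SetQ`): inert (`P = (p)`, `P' = ⊤`, `q = p²`) and split (`P' = cjI P`, `q = p`); `P P' = (p)`, `O/P` has `q` elements, `N = q - 1`.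
`w` is the Teichmüller character of `(O/P)^*` (`TeQ`). A character of `Gal(K B_n / k)` (its inverse, lifted to roots of unity) has the values
`thQ R kp eta ψ w e b i x = thT R kp eta ψ i x * w x ^ (e - 1) * w (star x) ^ b` (`ChQ`), `1 ≤ e ≤ N`, and `b = 0` (inert), `1 ≤ b ≤ N` (split). It is unramified
at `P` if and only if `e = 1`. The sum is `SSTI R M (thQ ..) w = Σ_i mu_i Σ_(x mod M) thQ i x w(x) ee(pt R M i x)`, `M = f l^n p`.

FINAL STATEMENTS. `S_SYMQ` (block C'): `v(p)^(N - e) ≤ v(SSTI)^N` for all large `n`. `S_CRTQ` (block B'): for `e ≥ 2` a large sum gives a non-power (the Kummer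
argument of the blocks B is replaced by a logarithmic derivative modulo `p`; no condition at Frobenius).
-/

set_option autoImplicit false

open WeierstrassCurve Polynomial NumberField IsDedekindDomain

namespace Pool.Agent.TWQ

open _root_.MU3 Pool.Agent.MU3A Pool.Agent.MU3B Pool.Agent.MU3C Pool.Agent.RI Pool.Agent.RID
open Pool.Agent.MUX Pool.Agent.MUXU Pool.Agent.MUXW Pool.Agent.TWT Pool.Agent.TWI
open Pool.Agent.MU3V (cls Sub GD algDF)
open Pool.Agent.MUXV (GR InK tX)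
open Pool.Agent.MUXI (IA RE AR)
open OnePoint

noncomputable section

/-! ## Definitions -/

/-- the standing hypotheses: `p ≥ 5` inert (`P' = ⊤`, `q = p²`) or split (`P' = cjI P`, `q = p`) in `k`; `3 ∣ f` -/
def SetQ (p q : ℕ) (A B : ℤ) (P P' : Ideal (OO A B)) (V : ValuationSubring ℂ) (f : ℕ) : Prop :=
  3 ∣ f ∧ ((SetI p A B P V f ∧ P' = ⊤ ∧ q = p ^ 2) ∨ (SetG p A B P V f ∧ P' = cjI P ∧ q = p))

variable {A B : ℤ} {n : ℕ} {ι : Type}

/-- `w` is the Teichmüller character of `(O/P)^*` -/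
def TeQ (p q : ℕ) (P : Ideal (OO A B)) (V : ValuationSubring ℂ) (w : OO A B → ℂ) : Prop :=
  (q = p ^ 2 ∧ TeiI p P V w) ∨ (q = p ∧ TeiP p P V w)

/-- `kp, eta, e, b`: the values `kp i * eta x * w x ^ (e - 1) * w (star x) ^ b` of a character, of order prime to `p`, on the
ideals `x * cjI (b i)` prime to `f p` -/
structure ChQ (p q f : ℕ) (P P' : Ideal (OO A B)) (R : Reps A B n ι) (kp : ι → ℂ)
    (eta : OO A B → ℂ) (e b : ℕ) : Prop where
  one : eta 1 = 1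
  mul : ∀ x y, eta (x * y) = eta x * eta y
  per : ∀ x y, x - y ∈ (idl f : Ideal (OO A B)) → eta x = eta y
  supp : ∀ x, eta x ≠ 0 ↔ IsCoprime (sp x) (idl f : Ideal (OO A B))
  neg : eta (-1) = (-1) ^ (e - 1 + b)
  kp0 : kp R.i0 = 1
  fin : ∃ r : ℕ, ¬ p ∣ r ∧ (∀ i, kp i ^ r = 1) ∧ ∀ x, eta x ≠ 0 → eta x ^ r = 1
  e1 : 1 ≤ e
  eN : e < q
  bb : (P' = ⊤ ∧ b = 0) ∨ (P' = cjI P ∧ 1 ≤ b ∧ b < q)

/-- the values are multiplicative on the ideals: `kp i kp j th₀(x) = kp k th₀(y)` if `x cjI(b i) cjI(b j) = y cjI(b k)` -/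
def IdC (p f : ℕ) (R : Reps A B n ι) (kp : ι → ℂ) (eta w : OO A B → ℂ) (e b : ℕ) : Prop :=
  ∀ (i j k : ι) (x y : OO A B), IsCoprime x ((f * p : ℕ) : OO A B) →
    IsCoprime y ((f * p : ℕ) : OO A B) →
    sp x * (cjI (R.b i) * cjI (R.b j)) = sp y * cjI (R.b k) →
    kp i * kp j * (eta x * w x ^ (e - 1) * w (star x) ^ b) =
      kp k * (eta y * w y ^ (e - 1) * w (star y) ^ b)

/-- the values of the character -/
def thQ (R : Reps A B n ι) (kp : ι → ℂ) (eta : OO A B → ℂ) {r : ℕ} (ψ : DirichletCharacter ℂ r)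
    (w : OO A B → ℂ) (e b : ℕ) (i : ι) (x : OO A B) : ℂ :=
  thT R kp eta ψ i x * w x ^ (e - 1) * w (star x) ^ b

/-! ## The final statements -/

open Pool.Agent.TWR in
/-- (SYMQ) for ALL large `n` the sums of all characters of level `n` are large. -/
def S_SYMQ : Prop :=
  ∀ (l g h : ℕ), Gen l g h → ∀ (p q : ℕ) (A B : ℤ) (P P' : Ideal (OO A B))
    (V : ValuationSubring ℂ) (f : ℕ), SetQ p q A B P P' V f → l ∣ f → TorX A B →
    ∀ (ι : Type) [Fintype ι] (R : Reps A B (p * f) ι), GRd V R → ∀ (w : OO A B → ℂ),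
    TeQ p q P V w → ∀ (J : Type) [Finite J] (kp : J → ι → ℂ) (eta : J → OO A B → ℂ)
    (e b : J → ℕ), (∀ j, ChQ p q f P P' R (kp j) (eta j) (e j) (b j)) →
    (∀ j, IdC p f R (kp j) (eta j) w (e j) (b j)) → ∃ n0 : ℕ, ∀ n : ℕ, n0 ≤ n → ∀ j,
      ∀ ψ : DirichletCharacter ℂ (l ^ n), ψ (-1) = 1 →
      ψ (1 + (l : ZMod (l ^ n)) ^ (n - 1)) ≠ 1 →
      V.valuation (p : ℂ) ^ (q - 1 - e j) ≤
        V.valuation (SSTI R (f * l ^ n * p) (thQ R (kp j) (eta j) ψ w (e j) (b j)) w) ^ (q - 1)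

/-- (CRTQ) from a large sum to a non-power, for a character which is ramified at `P` (`e ≥ 2`). -/
def S_CRTQ : Prop :=
  ∀ (p q : ℕ) [Fact p.Prime] (A B : ℤ) (P P' : Ideal (OO A B)) (V : ValuationSubring ℂ) (f : ℕ),
    SetQ p q A B P P' V f → TorX A B → ∀ (ι : Type) [Fintype ι] (R : Reps A B (p * f) ι),
    GRd V R → ∀ (w : OO A B → ℂ), TeQ p q P V w → ∀ (kp : ι → ℂ) (eta : OO A B → ℂ) (e b : ℕ),
    ChQ p q f P P' R kp eta e b → 2 ≤ e →
    ∀ (l N : ℕ), l.Prime → ¬ p ∣ l - 1 → l ∣ f → ∀ ψ : DirichletCharacter ℂ (l ^ N),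
    ψ (-1) = 1 → ∀ (a : ℕ), 1 < a → a.Coprime (6 * f * p) →
    V.valuation (1 - (a : ℂ) ^ 2 * thQ R kp eta ψ w e b R.i0 a) = 1 →
    ∀ (H : Finset ℂ), IsHalf (R.L R.i0) a H →
    ∀ (θ : (RF (idl (f * l ^ N * p)) : IntermediateField (kk A B) ℂ)),
    (θ : ℂ) = ThetaH (R.L R.i0) H (pt R (f * l ^ N * p) R.i0 1) →
    ∀ (D : IntermediateField ℚ ℂ) [FiniteDimensional ℚ D] [FiniteDimensional ℚ (kk A B)]
      (h : kk A B ≤ D),
    Sub D (RF (idl (f * l ^ N * p)) : IntermediateField (kk A B) ℂ) → letI := algC h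
    ∀ (χ : (D ≃ₐ[kk A B] D) →* (IsLocalRing.ResidueField V)ˣ),
    (∀ (τ : D ≃ₐ[kk A B] D), ∀ r ∈ XX R (f * l ^ N * p) h τ,
      rsd V (thQ R kp eta ψ w e b r.1 (Quotient.out r.2)) =
        (((χ τ)⁻¹ : (IsLocalRing.ResidueField V)ˣ) : IsLocalRing.ResidueField V)) →
    ∀ c₀ : D, (c₀ : ℂ) = cW h θ →
    V.valuation (p : ℂ) ^ (q - 1 - e) ≤
      V.valuation (SSTI R (f * l ^ N * p) (thQ R kp eta ψ w e b) w) ^ (q - 1) →
    ∃ t : (IsLocalRing.ResidueField V) →+ ZMod p, ∀ y : D, y ^ p ≠ Pool.Agent.TWK.sE p χ t c₀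

end

end Pool.Agent.TWQ
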