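import Pool.Agent.TWQ.PART
import Pool.Agent.TWQ.DefsQ
import Pool.Agent.TWF.E0C
import Pool.Agent.TWT.IDP
import Pool.Agent.TWI.IDPI

/-!
# TWQ: the character of ideals attached to a character of `Gal(K / k)`, `K ≤ RF (f p)` (helper51)
-/

set_option autoImplicit false

namespace Pool.Agent.TWQ

open _root_.MU3 Pool.Agent.MU3 Pool.Agent.MU3A Pool.Agent.MU3B Pool.Agent.RI Pool.Agent.RID
  Pool.Agent.MUX Pool.Agent.MUXE Pool.Agent.MUXK Pool.Agent.MUXI Pool.Agent.TWF Pool.Agent.TWT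
  Pool.Agent.TWI

/-- the properties of `w` -/
structure WProp {A B : ℤ} (P : Ideal (OO A B)) (N : ℕ) (w : OO A B → ℂ) : Prop where
  one : w 1 = 1
  mul : ∀ x y, w (x * y) = w x * w y
  per : ∀ x y, x - y ∈ P → w x = w y
  inj : ∀ x, x ∉ P → w x = 1 → x - 1 ∈ P
  root : ∀ x, x ∉ P → w x ^ N = 1

theorem inj_of {A B : ℤ} (hc : CQ A B) {P : Ideal (OO A B)} {V : ValuationSubring ℂ}
    (hV : OverI V P) {w : OO A B → ℂ} (hr : ∀ x, V.valuation (w x - emb x) < 1) (x : OO A B)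
    (hx : w x = 1) : x - 1 ∈ P := by
  rw [← hV, ValuationSubring.mem_nonunits_iff, emb_sub hc, emb_one hc]
  have h1 := hr x
  rw [hx, ← Valuation.map_neg, neg_sub] at h1
  exact h1

theorem max_of {A B : ℤ} (P : Ideal (OO A B)) (hP : P.IsPrime) (n : ℕ) (hn : n ≠ 0)
    (h : Nat.card (OO A B ⧸ P) = n) : P.IsMaximal := by
  have hfin : Finite (OO A B ⧸ P) := Nat.finite_of_card_ne_zero (by rw [h]; exact hn)
  have hdom : IsDomain (OO A B ⧸ P) := Ideal.Quotient.isDomain P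
  exact Ideal.Quotient.maximal_of_isField _ (Finite.isField_of_domain _)

/-- `-1` is not a square of the kernel: `w (-1) = -1` -/
theorem w_neg {A B : ℤ} {P : Ideal (OO A B)} {N : ℕ} {w : OO A B → ℂ} (hw : WProp P N w)
    (h2 : (2 : OO A B) ∉ P) (hPp : P.IsPrime) : w (-1) = -1 := by
  have h1 : w (-1) * w (-1) = 1 := by
    rw [← hw.mul, neg_mul_neg, one_mul, hw.one]
  have h3 : (-1 : OO A B) ∉ P := by
    intro h
    apply hPp.ne_top
    rw [Ideal.eq_top_iff_one]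
    have := neg_mem h
    rwa [neg_neg] at this
  rcases mul_self_eq_one_iff.1 h1 with h | h
  · exfalso
    have h4 := hw.inj _ h3 h
    apply h2
    have h5 := neg_mem h4
    have h6 : -((-1 : OO A B) - 1) = 2 := by ring
    rwa [h6] at h5
  · exact h

/-- The data at `p` of a multiplicative function periodic modulo `p`. -/
theorem at_p (p q : ℕ) (hp : p.Prime) (A B : ℤ) (P P' : Ideal (OO A B)) (V : ValuationSubring ℂ)
    (f : ℕ) (hS : SetQ p q A B P P' V f) (w : OO A B → ℂ) (hw : TeQ p q P V w) :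
    WProp P (q - 1) w ∧ CQ A B ∧ 5 ≤ p ∧ ¬ p ∣ f ∧ f ≠ 0 ∧ P.IsPrime ∧ ((p : ℕ) : OO A B) ∈ P ∧
    (∀ c : ℤ, (c : OO A B) ∈ P ↔ (p : ℤ) ∣ c) ∧
    ∀ (ρ : OO A B → ℂ), ρ 1 = 1 → (∀ x y, ρ (x * y) = ρ x * ρ y) →
      (∀ x y, x - y ∈ (idl p : Ideal (OO A B)) → ρ x = ρ y) →
      (∀ x, ρ x ≠ 0 ↔ IsCoprime (Ideal.span {x}) (idl p : Ideal (OO A B))) →
      ∃ e b : ℕ, 1 ≤ e ∧ e < q ∧ ((P' = ⊤ ∧ b = 0) ∨ (P' = cjI P ∧ 1 ≤ b ∧ b < q)) ∧
        ∀ x, IsCoprime (Ideal.span {x}) (idl p : Ideal (OO A B)) →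
          ρ x = w x ^ (e - 1) * w (star x) ^ b := by
  obtain ⟨-, ⟨hI, hP', hq⟩ | ⟨hG, hP', hq⟩⟩ := hS
  · -- `p` inert
    have hp5 := hI.p5
    have hT : TeiI p P V w := by
      rcases hw with ⟨-, h⟩ | ⟨h, -⟩
      · exact h
      · exfalso
        rw [hq] at h
        nlinarith [hI.p5]
    obtain ⟨i1, i2, -, -, -, -, -⟩ := t_IDPI p A B P V f hI
    have hmax : P.IsMaximal := max_of P hI.hP (p ^ 2) (pow_ne_zero _ hp.ne_zero) i2
    have hpP : ((p : ℕ) : OO A B) ∈ P := by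
      rw [hI.eP]
      exact Ideal.mem_span_singleton_self _
    have hW : WProp P (q - 1) w := by
      refine ⟨hT.one, hT.mul, hT.per, fun x _ hx => inj_of hI.cq hI.hV hT.red x hx, fun x hx => ?_⟩
      rw [hq]
      exact hT.root x hx
    have hq1 : 25 ≤ q := by
      rw [hq]
      nlinarith
    refine ⟨hW, hI.cq, hp5, hI.fp, hI.f0, hI.hP, hpP, i1, ?_⟩
    intro ρ r1 rm rp rs
    obtain ⟨e, he, hee⟩ := pow_w P hmax (q - 1) (by rw [i2, ← hq]; omega) (by omega) w hW.one hW.mul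
      hW.per hW.inj hW.root ρ r1 rm (fun x y h => rp x y (by rw [← hI.eP]; exact h))
    refine ⟨e + 1, 0, by omega, by omega, Or.inl ⟨hP', rfl⟩, fun x hx => ?_⟩
    have hxP : x ∉ P := by
      intro h
      obtain ⟨a, ha, b, hb, hab⟩ := Ideal.isCoprime_iff_exists.1 hx
      apply hI.hP.ne_top
      rw [Ideal.eq_top_iff_one, ← hab]
      refine P.add_mem ?_ (by rw [hI.eP]; exact hb)
      obtain ⟨c, rfl⟩ := Ideal.mem_span_singleton'.1 ha
      exact P.mul_mem_left _ h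
    rw [hee x hxP, Nat.add_sub_cancel, pow_zero, mul_one]
  · -- `p` split
    have hp5 := hG.p5
    have hT : TeiP p P V w := by
      rcases hw with ⟨h, -⟩ | ⟨-, h⟩
      · exfalso
        rw [hq] at h
        nlinarith [hG.p5]
      · exact h
    obtain ⟨-, i1, i3, i4, -, -, -⟩ := t_IDP p A B P V f hG
    have hPp : P.IsPrime := hG.hP.prime
    have hmax : P.IsMaximal := max_of P hPp p hp.ne_zero hG.hP.norm
    have hPb : P ≠ ⊥ := by
      rintro rfl
      exact natCast_ne_zero' hG.cq hp.ne_zero (Ideal.mem_bot.1 hG.hP.mem)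
    have hcp : (cjI P).IsPrime := Ideal.IsPrime.comap _
    have hcn : Nat.card (OO A B ⧸ cjI P) = p := by
      have h1 : nI (cjI P) = p := by rw [nI_cjI hG.cq hPb, hG.hP.norm]
      exact h1
    have hcmax : (cjI P).IsMaximal := max_of (cjI P) hcp p hp.ne_zero hcn
    have hW : WProp P (q - 1) w := by
      refine ⟨hT.one, hT.mul, hT.per, fun x _ hx => inj_of hG.cq hG.hV hT.red x hx, fun x hx => ?_⟩
      rw [hq]
      exact hT.root x hx
    refine ⟨hW, hG.cq, hp5, hG.fp, hG.f0, hPp, hG.hP.mem, i1, ?_⟩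
    intro ρ r1 rm rp rs
    have hmemc : ∀ x : OO A B, x ∈ cjI P ↔ star x ∈ P := fun x => Iff.rfl
    obtain ⟨a, ha, c, hcc, hac⟩ := Ideal.isCoprime_iff_exists.1 i4
    have hc1 : 1 - c ∈ P := by
      rw [← hac, add_sub_cancel_right]
      exact ha
    have hidl : ∀ x y : OO A B, x - y ∈ P → x - y ∈ cjI P → ρ x = ρ y := by
      intro x y h1 h2
      apply rp
      rw [← i3, Ideal.mul_eq_inf_of_isCoprime i4]
      exact ⟨h1, h2⟩
    have hcop : ∀ x : OO A B, IsCoprime (Ideal.span {x}) (idl p : Ideal (OO A B)) ↔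
        IsCoprime (Ideal.span {x}) P ∧ IsCoprime (Ideal.span {x}) (cjI P) := by
      intro x
      rw [← i3]
      exact ⟨fun h => ⟨h.of_mul_right_left, h.of_mul_right_right⟩, fun h => h.1.mul_right h.2⟩
    have hs2 : ∀ x, ρ x ≠ 0 ↔ IsCoprime (Ideal.span {x}) P ∧
        IsCoprime (Ideal.span {x}) (cjI P) := fun x => (rs x).trans (hcop x)
    obtain ⟨u1, u2, u3, -⟩ := PART.part P (cjI P) c hcc hc1 ρ r1 rm hidl hs2
    have hc2 : 1 - (1 - c) ∈ cjI P := by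
      rw [sub_sub_cancel]
      exact hcc
    obtain ⟨v1, v2, v3, -⟩ := PART.part (cjI P) P (1 - c) hc1 hc2 ρ r1 rm
      (fun x y h1 h2 => hidl x y h2 h1) (fun x => (hs2 x).trans and_comm)
    obtain ⟨e, he, hee⟩ := pow_w P hmax (q - 1) (by rw [← nI, hG.hP.norm, hq]; omega) (by omega) w
      hW.one hW.mul hW.per hW.inj hW.root (fun x => ρ (x * c + (1 - c))) u1 u2 u3
    obtain ⟨e', he', hee'⟩ := pow_w (cjI P) hcmax (q - 1) (by rw [hcn, hq]; omega) (by omega)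
      (fun x => w (star x)) (by rw [star_one]; exact hW.one)
      (fun x y => by rw [star_mul, mul_comm, hW.mul])
      (fun x y h => hW.per _ _ (by rw [← star_sub]; exact h))
      (fun x hx h => by
        have h1 := hW.inj (star x) hx h
        rw [hmemc, star_sub, star_one]
        exact h1)
      (fun x hx => hW.root _ hx) (fun x => ρ (x * (1 - c) + (1 - (1 - c)))) v1 v2 v3
    have key : ∀ x, IsCoprime (Ideal.span {x}) (idl p : Ideal (OO A B)) →
        x ∉ P ∧ x ∉ cjI P := by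
      intro x hx
      obtain ⟨h1, h2⟩ := (hcop x).1 hx
      have aux : ∀ Q : Ideal (OO A B), Q ≠ ⊤ → IsCoprime (Ideal.span {x}) Q → x ∉ Q := by
        intro Q hQ h3 h4
        apply hQ
        rw [Ideal.eq_top_iff_one]
        obtain ⟨a, ha, b, hb, hab⟩ := Ideal.isCoprime_iff_exists.1 h3
        rw [← hab]
        refine Q.add_mem ?_ hb
        obtain ⟨c, rfl⟩ := Ideal.mem_span_singleton'.1 ha
        exact Q.mul_mem_left _ h4
      exact ⟨aux P hPp.ne_top h1, aux _ hcp.ne_top h2⟩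
    by_cases h0 : e' = 0
    · refine ⟨e + 1, q - 1, by omega, by omega, Or.inr ⟨hP', by omega, by omega⟩, fun x hx => ?_⟩
      obtain ⟨k1, k2⟩ := key x hx
      have h1 := hee' x k2
      rw [h0, pow_zero] at h1
      rw [PART.prod P (cjI P) c hcc hc1 ρ rm hidl x, h1, hee x k1, Nat.add_sub_cancel,
        hW.root (star x) k2]
    · refine ⟨e + 1, e', by omega, by omega, Or.inr ⟨hP', by omega, by omega⟩, fun x hx => ?_⟩
      obtain ⟨k1, k2⟩ := key x hx
      rw [PART.prod P (cjI P) c hcc hc1 ρ rm hidl x, hee' x k2, hee x k1, Nat.add_sub_cancel]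

/-- The character of the ideals prime to `f p`. -/
theorem e0q (h1 : Si_ARF) (h4 : Pool.Agent.MUXF.Sx_NIM) (p q : ℕ) (hp : p.Prime) (A B : ℤ)
    (P P' : Ideal (OO A B)) (V : ValuationSubring ℂ) (f : ℕ) (hS : SetQ p q A B P P' V f)
    (T : TorX A B) (ι : Type) (R : Reps A B (p * f) ι) (w : OO A B → ℂ) (hw : TeQ p q P V w)
    (K : IntermediateField ℚ ℂ) (hK : kk A B ≤ K)
    (hKm : ∀ y ∈ K, y ∈ RF (idl (A := A) (B := B) (f * p))) : letI := algC hK
    ∀ (_ : IsGalois (kk A B) K) (X : (K ≃ₐ[kk A B] K) →* ℂˣ) (r : ℕ) (_ : ¬ p ∣ r)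
      (_ : ∀ τ, X τ ^ r = 1),
    ∃ (kp : ι → ℂ) (eta : OO A B → ℂ) (e b : ℕ), ChQ p q f P P' R kp eta e b ∧
      IdC p f R kp eta w e b ∧
      ∀ (τ : K ≃ₐ[kk A B] K) (i : ι) (x : OO A B), IsCoprime x ((f * p : ℕ) : OO A B) →
        AR hK (idl (f * p)) τ (sp x * cjI (R.b i)) →
        kp i * eta x * w x ^ (e - 1) * w (star x) ^ b = (((X τ)⁻¹ : ℂˣ) : ℂ) := by
  let _ : Algebra (kk A B) K := algC hK
  intro hG X r hr hX
  obtain ⟨hW, hc, hp5, hpf, hf0, hPp, hpP, hint, hat⟩ := at_p p q hp A B P P' V f hS w hw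
  have hf1 : 1 ≤ f := Nat.pos_of_ne_zero hf0
  have hfp2 : 2 ≤ f * p := by
    calc 2 ≤ p := hp.two_le
      _ = 1 * p := (one_mul p).symm
      _ ≤ f * p := Nat.mul_le_mul_right p hf1
  have hcop : ∀ i, (nI (R.b i)).Coprime (f * p) := fun i =>
    Nat.Coprime.mul_right (R.cop i).coprime_mul_left_right (R.cop i).coprime_mul_right_right
  obtain ⟨Ψ, s1, s2, s3, s4, s5, s6, s7, s8⟩ := e0c h1 h4 A B hc T (p * f) ι R (f * p) hfp2 hcop K hK
    hKm hG X r hX
  -- the integers `c₁ + c₂ = 1`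
  have hco : IsCoprime (f : ℤ) (p : ℤ) :=
    (Nat.isCoprime_iff_coprime.2 ((Nat.Prime.coprime_iff_not_dvd hp).2 hpf)).symm
  obtain ⟨u, v, huv⟩ := hco
  obtain ⟨c, hcdef⟩ : ∃ c : OO A B, c = (v : OO A B) * ((p : ℕ) : OO A B) := ⟨_, rfl⟩
  have hc1 : 1 - c = (u : OO A B) * ((f : ℕ) : OO A B) := by
    have h := congrArg (Int.cast : ℤ → OO A B) huv
    push_cast at h
    rw [hcdef, ← h]
    ring
  have hcG : c ∈ (idl p : Ideal (OO A B)) := by
    rw [hcdef]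
    exact Ideal.mul_mem_left _ _ (Ideal.mem_span_singleton_self _)
  have hcF : 1 - c ∈ (idl f : Ideal (OO A B)) := by
    rw [hc1]
    exact Ideal.mul_mem_left _ _ (Ideal.mem_span_singleton_self _)
  have hidl : (idl (f * p) : Ideal (OO A B)) = idl f * idl p := by
    rw [Ideal.span_singleton_mul_span_singleton, ← Nat.cast_mul]
  have hcoI : IsCoprime (idl f : Ideal (OO A B)) (idl p) :=
    Ideal.isCoprime_iff_exists.2 ⟨1 - c, hcF, c, hcG, by ring⟩
  obtain ⟨Φ, hΦ⟩ : ∃ Φ : OO A B → ℂ, ∀ x, Φ x = Ψ (sp x) := ⟨fun x => Ψ (sp x), fun _ => rfl⟩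
  have p1 : Φ 1 = 1 := by
    rw [hΦ, sp, Ideal.span_singleton_one, s3]
  have p2 : ∀ x y, Φ (x * y) = Φ x * Φ y := by
    intro x y
    rw [hΦ, hΦ, hΦ, ← s2, sp, sp, sp, Ideal.span_singleton_mul_span_singleton]
  have p3 : ∀ x y, x - y ∈ (idl f : Ideal (OO A B)) → x - y ∈ (idl p : Ideal (OO A B)) →
      Φ x = Φ y := by
    intro x y h h'
    rw [hΦ, hΦ]
    apply s6
    rw [hidl, Ideal.mul_eq_inf_of_isCoprime hcoI]
    exact ⟨h, h'⟩
  have hcp2 : ∀ x : OO A B, IsCoprime (Ideal.span {x}) (idl (f * p) : Ideal (OO A B)) ↔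
      IsCoprime (Ideal.span {x}) (idl f : Ideal (OO A B)) ∧
        IsCoprime (Ideal.span {x}) (idl p : Ideal (OO A B)) := by
    intro x
    rw [hidl]
    exact ⟨fun h => ⟨h.of_mul_right_left, h.of_mul_right_right⟩, fun h => h.1.mul_right h.2⟩
  have p4 : ∀ x, Φ x ≠ 0 ↔ IsCoprime (Ideal.span {x}) (idl f : Ideal (OO A B)) ∧
      IsCoprime (Ideal.span {x}) (idl p : Ideal (OO A B)) := by
    intro x
    rw [hΦ, s4]
    exact hcp2 x
  have p5 : ∀ x, Φ x ≠ 0 → Φ x ^ r = 1 := by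
    intro x
    rw [hΦ]
    exact s5 _
  obtain ⟨u1, u2, u3, u4⟩ := PART.part (idl f) (idl p) c hcG hcF Φ p1 p2 p3 p4
  have hcF2 : 1 - (1 - c) ∈ (idl p : Ideal (OO A B)) := by
    rw [sub_sub_cancel]
    exact hcG
  obtain ⟨v1, v2, v3, v4⟩ := PART.part (idl p) (idl f) (1 - c) hcF hcF2 Φ p1 p2
    (fun x y h h' => p3 x y h' h) (fun x => (p4 x).trans and_comm)
  obtain ⟨e, b, e1, e2, e3, e4⟩ := hat (fun x => Φ (x * (1 - c) + (1 - (1 - c)))) v1 v2 v3 v4
  have hprod : ∀ x, IsCoprime (Ideal.span {x}) (idl (f * p) : Ideal (OO A B)) →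
      Φ x = Φ (x * c + (1 - c)) * w x ^ (e - 1) * w (star x) ^ b := by
    intro x hx
    rw [PART.prod (idl f) (idl p) c hcG hcF Φ p2 p3 x, e4 x ((hcp2 x).1 hx).2, mul_assoc]
  have hspc : ∀ x : OO A B, IsCoprime x ((f * p : ℕ) : OO A B) →
      IsCoprime (Ideal.span {x}) (idl (f * p) : Ideal (OO A B)) := by
    intro x hx
    exact (Ideal.isCoprime_span_singleton_iff x _).2 hx
  have h2P : (2 : OO A B) ∉ P := by
    intro h
    have h2 := (hint 2).1 (by exact_mod_cast h)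
    have h3 := Int.le_of_dvd (by norm_num) h2
    omega
  refine ⟨fun i => Ψ (cjI (R.b i)), fun x => Φ (x * c + (1 - c)), e, b, ?_, ?_, ?_⟩
  · refine ⟨u1, u2, u3, u4, ?_, ?_, ⟨r, hr, s8, ?_⟩, e1, e2, e3⟩
    · -- the sign
      have h5 : IsCoprime (Ideal.span {(-1 : OO A B)}) (idl (f * p) : Ideal (OO A B)) := by
        rw [Ideal.span_singleton_neg]
        exact PART.cop_one
      have h6 := hprod (-1) h5
      have h7 : Φ (-1) = 1 := by rw [hΦ, s7]
      have h8 : w (-1) = -1 := w_neg hW h2P hPp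
      rw [h7, star_neg, star_one, h8, mul_assoc, ← pow_add] at h6
      have h9 : ((-1 : ℂ) ^ (e - 1 + b)) * (-1) ^ (e - 1 + b) = 1 := by
        rw [← mul_pow]
        norm_num
      calc Φ (-1 * c + (1 - c)) = Φ (-1 * c + (1 - c)) * ((-1 : ℂ) ^ (e - 1 + b) *
            (-1) ^ (e - 1 + b)) := by rw [h9, mul_one]
        _ = (Φ (-1 * c + (1 - c)) * (-1) ^ (e - 1 + b)) * (-1) ^ (e - 1 + b) := by ring
        _ = (-1) ^ (e - 1 + b) := by rw [← h6, one_mul]
    · show Ψ (cjI (R.b R.i0)) = 1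
      rw [R.b0]
      have h5 : cjI (⊤ : Ideal (OO A B)) = ⊤ := Ideal.comap_top
      rw [h5, s3]
    · intro x hx
      exact p5 _ hx
  · intro i j k x y hx hy hxy
    have h5 := hprod x (hspc x hx)
    have h6 := hprod y (hspc y hy)
    have h7 := congrArg Ψ hxy
    rw [s2, s2, s2, ← hΦ, ← hΦ] at h7
    show Ψ (cjI (R.b i)) * Ψ (cjI (R.b j)) * (Φ (x * c + (1 - c)) * w x ^ (e - 1) *
      w (star x) ^ b) = Ψ (cjI (R.b k)) * (Φ (y * c + (1 - c)) * w y ^ (e - 1) * w (star y) ^ b)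
    rw [← h5, ← h6]
    linear_combination h7
  · intro τ i x hx hAR
    have h5 := hprod x (hspc x hx)
    have h6 := s1 τ _ hAR
    rw [s2, ← hΦ, h5] at h6
    rw [← h6]
    show Ψ (cjI (R.b i)) * Φ (x * c + (1 - c)) * w x ^ (e - 1) * w (star x) ^ b = _
    ring

end Pool.Agent.TWQ
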