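import Pool.Agent.TWI.ENDJ
import Pool.Agent.TWF.UNF0
import Pool.Agent.TWQ.DefU

/-!
# TWQ: the final theorem, no condition on the primes above `p` (helper60)
-/

set_option autoImplicit false

open NumberField IsDedekindDomain

namespace Pool.Agent.TWQ

open _root_.MU3 Pool.Agent.MU3 Pool.Agent.MU3A Pool.Agent.MU3B Pool.Agent.RI Pool.Agent.RID
  Pool.Agent.MUX Pool.Agent.MUXJ Pool.Agent.MUXY Pool.Agent.TWT Pool.Agent.TWK Pool.Agent.TWF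
  Pool.Agent.TWI
open Pool.Agent.MU3V (Sub)

/-- The statement for the field `k` and the prime `p`: no condition on the primes above `p`. -/
def StPQ (k : IntermediateField ℚ ℂ) (p : ℕ) : Prop :=
  ∀ (K : IntermediateField ℚ ℂ) [FiniteDimensional ℚ K] (hk : k ≤ K),
    IsGalois k (IntermediateField.extendScalars hk) →
    (∀ σ τ : (IntermediateField.extendScalars hk) ≃ₐ[k] (IntermediateField.extendScalars hk),
      σ * τ = τ * σ) →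
    ¬ p ∣ Module.finrank k (IntermediateField.extendScalars hk) →
    ∀ (E : IntermediateField ℚ ℂ) [FiniteDimensional ℚ E] (hE : k ≤ E),
    IsGalois k (IntermediateField.extendScalars hE) →
    (∃ c : ℕ, Module.finrank k (IntermediateField.extendScalars hE) = p ^ c) →
    ∀ l : ℕ, (l = 2 ∨ l = 3) → ∃ n₀ : ℕ, ∀ B₀ : IntermediateField ℚ ℂ, IsLayer l n₀ B₀ →
      (∀ a : ℕ, ¬ l ^ (a + 1) ∣ Module.finrank k (IntermediateField.extendScalars hk) →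
        ∀ n : ℕ, n₀ + a ≤ n → ∀ B B' : IntermediateField ℚ ℂ, IsLayer l n B →
        IsLayer l (n + 1) B' → ∀ (L : IntermediateField ℚ ℂ) (hL : k ≤ L),
        L ≤ K ⊔ B' → ¬ L ≤ K ⊔ B →
        IsCyclic ((IntermediateField.extendScalars hL) ≃ₐ[k]
          (IntermediateField.extendScalars hL)) →
        ∀ (L₁ : IntermediateField ℚ ℂ) (h₁ : k ≤ L₁) (h₂ : L₁ ≤ L),
        ¬ l ∣ Module.finrank k (IntermediateField.extendScalars h₁) →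
        (∃ e : ℕ, Module.finrank L₁ (IntermediateField.extendScalars h₂) = l ^ e) →
        ∀ (m : ℕ) (Q : IntermediateField ℚ ℂ), IsLayer p m Q →
          padicValNat p (classNo (L ⊔ E ⊔ Q)) = padicValNat p (classNo (L₁ ⊔ B₀ ⊔ E ⊔ Q))) ∧
      ∀ n : ℕ, n₀ ≤ n → ∀ B : IntermediateField ℚ ℂ, IsLayer l n B →
        ∀ L : IntermediateField ℚ ℂ, k ≤ L → L ≤ K ⊔ B →
        ∀ (m : ℕ) (Q : IntermediateField ℚ ℂ), IsLayer p m Q →
          padicValNat p (classNo (L ⊔ E ⊔ Q)) =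
            padicValNat p (classNo ((L ⊓ (K ⊔ B₀)) ⊔ E ⊔ Q))

/-- the statement for `k = kk A B` and one good prime `p` which does not divide the class number of `k` -/
theorem fin_pQ (hURE : S_URE) (hFIN : S_FINQ) (hLAY : Pool.Agent.MUXI.Si_LAY)
    (hIAF : Pool.Agent.MUXI.Si_IAF) (hREX : Sy_REX)
    (hJTR : Pool.Agent.JT.Sj_JTR) (hDIR : Sj_DIR)
    (hLAYs : Sj_LAY) (A B : ℤ) (hc : CQ A B) (T : TorX A B) (hNL : NLex A B)
    (hd3 : absD A B ≠ 3) (hd4 : absD A B ≠ 4) (hk2 : Module.finrank ℚ (kk A B) = 2)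
    (hki : ∃ z ∈ kk A B, (starRingEnd ℂ) z ≠ z) (p : ℕ) (hp : p.Prime)
    (hp5 : 5 ≤ p) (hpD : ¬ (p : ℤ) ∣ absD A B)
    (hpH : ¬ p ∣ Module.finrank (kk A B)
      (RF (⊤ : Ideal (OO A B)) : IntermediateField (kk A B) ℂ))
    (hgood : (∃ (P : Ideal (OO A B)) (V V' : ValuationSubring ℂ), IsPN p P ∧ IsPN p (cjI P) ∧
        OverI V P ∧ OverI V' (cjI P) ∧ (p : ℂ) ∈ V.nonunits ∧ (p : ℂ) ∈ V'.nonunits ∧
        (∀ (N₀ : ℕ) (ι : Type) (R : Reps A B N₀ ι), GRd V R) ∧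
        ∀ (N₀ : ℕ) (ι : Type) (R : Reps A B N₀ ι), GRd V' R) ∨
      ((idl (A := A) (B := B) p).IsPrime ∧ ∃ V : ValuationSubring ℂ,
        OverI V (idl (A := A) (B := B) p) ∧ (p : ℂ) ∈ V.nonunits ∧
        ∀ (N₀ : ℕ) (ι : Type) (R : Reps A B N₀ ι), GRd V R)) : StPQ (kk A B) p := by
  intro K fdK hk hG hab hdeg E fdE hkE hGE hdE l hl
  obtain ⟨c, hdE⟩ := hdE
  have hpF : Fact p.Prime := ⟨hp⟩
  have hU : TorU A B K := hJTR A B hc T hNL K hk hG hab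
  obtain ⟨M, hM0, hM⟩ := hDIR A B hc T K hU
  -- the exponent `h`
  obtain ⟨g, h, hgen, hls⟩ : ∃ g h : ℕ, Pool.Agent.TWR.Gen l g h ∧
      ((l = 3 ∧ h = 1) ∨ (l = 2 ∧ h = 2)) := by
    rcases hl with rfl | rfl
    · exact ⟨5, 2, Or.inr ⟨rfl, rfl, rfl⟩, Or.inr ⟨rfl, rfl⟩⟩
    · exact ⟨4, 1, Or.inl ⟨rfl, rfl, rfl⟩, Or.inl ⟨rfl, rfl⟩⟩
  have hlp : l.Prime := by
    rcases hl with rfl | rfl
    · exact Nat.prime_two
    · exact Nat.prime_three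
  have hlF : Fact l.Prime := ⟨hlp⟩
  have hpl' : p ≠ l := by rcases hl with rfl | rfl <;> omega
  have hp3 : ¬ p ∣ 3 := by
    intro h3
    have := Nat.le_of_dvd (by norm_num) h3
    omega
  have hpl : ¬ p ∣ 3 * l ^ h := by
    intro h3
    rcases (Nat.Prime.dvd_mul hp).1 h3 with h4 | h4
    · exact hp3 h4
    · exact hpl' ((Nat.prime_dvd_prime_iff_eq hp hlp).1 (hp.dvd_of_dvd_pow h4))
  obtain ⟨Bn, hlay, hmono, huni⟩ := layers hLAYs l hl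
  have hfL : ∀ n, FiniteDimensional ℚ ↥(K ⊔ Bn n) := fun n => by
    have : FiniteDimensional ℚ (Bn n) := (LAY_thm l n (Bn n) (hlay n)).1
    exact IntermediateField.finiteDimensional_sup K (Bn n)
  have fdk : FiniteDimensional ℚ (kk A B) := FiniteDimensional.of_injective
    (IntermediateField.inclusion hk).toLinearMap
    (IntermediateField.inclusion hk).toRingHom.injective
  have hT : Twr l (kk A B) K Bn := ⟨hk, hG, hab, hlay, hmono⟩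
  have hNL' : ∃ (b : Ideal (OO A B)) (L : PeriodPair) (om : ℂ), IsNL b L om := hNL
  refine fin_gE hURE p l hpl' (kk A B) K hk2 hki Bn hT E hkE hGE c hdE huni ?_
  -- the level
  obtain ⟨f, hf0, hfp, hNf, hfD, hKf⟩ := unf_lev hp (by omega) hc.neg hpD T hNL' K hk hdeg M hM0 hM
    (3 * l ^ h) (mul_ne_zero (by norm_num) (pow_ne_zero _ hlp.ne_zero)) hpl
  have h3f : 3 ∣ f := (dvd_mul_right 3 (l ^ h)).trans hNf
  have hlf : l ^ h ∣ f := (dvd_mul_left (l ^ h) 3).trans hNf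
  have hfp0 : f * p ≠ 0 := mul_ne_zero hf0 hp.ne_zero
  have hsub : ∀ n, Sub (K ⊔ Bn n)
      (RF (idl (A := A) (B := B) (f * l ^ (n + h) * p)) : IntermediateField (kk A B) ℂ) := by
    intro n
    have h1 := lvl hLAY hIAF l h hls A B hc T hNL' (f * p) hfp0 K hKf n (Bn n) (hlay n)
    have e1 : f * p * l ^ (n + h) = f * l ^ (n + h) * p := by ring
    rw [e1] at h1
    exact h1
  obtain ⟨ι', iι', ⟨R'⟩⟩ := hREX A B hc hd3 hd4 (p * f) (mul_ne_zero hp.ne_zero hf0)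
  rcases hgood with ⟨P, V, V', hP, -, hV, hV', -, -, hR, hR'⟩ | ⟨hPr, V, hV, -, hR⟩
  · have hS : SetG p A B P V f := ⟨hc, hp, hp5, hP, hV, hpD, hf0, hfp, hfD⟩
    have hSQ : SetQ p p A B P (cjI P) V f := ⟨h3f, Or.inr ⟨hS, rfl, rfl⟩⟩
    exact hFIN l g h hgen p p A B P (cjI P) V f hSQ hlf T hpH ι' R' (hR _ _ R')
      (fun _ => ⟨V', hV', hR' _ _ R'⟩) K hk hdeg hKf Bn hlay hmono hsub
  · have hS : SetI p A B (idl (A := A) (B := B) p) V f :=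
      ⟨hc, hp, hp5, rfl, hPr, hV, hpD, hf0, hfp, hfD⟩
    have hSQ : SetQ p (p ^ 2) A B (idl (A := A) (B := B) p) ⊤ V f :=
      ⟨h3f, Or.inl ⟨hS, rfl, rfl⟩⟩
    exact hFIN l g h hgen p (p ^ 2) A B _ ⊤ V f hSQ hlf T hpH ι' R' (hR _ _ R')
      (fun h0 => absurd rfl h0) K hk hdeg hKf Bn hlay hmono hsub

/-- All imaginary quadratic `k` except `ℚ(i)` and `ℚ(√-3)`, all primes outside a finite set. -/
theorem finalQ (hURE : S_URE) (hFIN : S_FINQ) (hLAY : Pool.Agent.MUXI.Si_LAY)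
    (hIAF : Pool.Agent.MUXI.Si_IAF)
    (hREX : Sy_REX) (hNLE : Sy_NLE)
    (hTOR : ∀ A B : ℤ, CQ A B → TorX A B)
    (hGRB : Pool.Agent.MUXW.Sy_GRB) (hALU : Pool.Agent.MUXV.Sq_ALU)
    (hJTR : Pool.Agent.JT.Sj_JTR) (hJQF : Pool.Agent.JT.Sj_JQF) (hDIR : Sj_DIR)
    (hLAYs : Sj_LAY) (k : IntermediateField ℚ ℂ) (h2 : Module.finrank ℚ k = 2)
    (hi : ∃ z ∈ k, (starRingEnd ℂ) z ≠ z) (h4 : ∀ z ∈ k, z ^ 2 ≠ -1)
    (h3 : ∀ z ∈ k, z ^ 2 ≠ -3) :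
    ∃ S : Finset ℕ, ∀ p : ℕ, p.Prime → p ∉ S → StPQ k p := by
  obtain ⟨d, hd, rfl, -⟩ := hJQF k h2 hi
  have hd1 : d ≠ 1 := by
    rintro rfl
    exact h4 _ kk_one Complex.I_sq
  have hd3 : d ≠ 3 := by
    rintro rfl
    obtain ⟨z, hz, hz3⟩ := kk_three
    exact h3 z hz hz3
  have hc : CQ (MUXZ.pA d) (MUXZ.pB d) := MUXZ.cq_p hd
  have T := hTOR _ _ hc
  have hD3 : absD (MUXZ.pA d) (MUXZ.pB d) ≠ 3 := by
    rw [MUXZ.absD_p]
    split_ifs <;> omega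
  have hD4 : absD (MUXZ.pA d) (MUXZ.pB d) ≠ 4 := by
    rw [MUXZ.absD_p]
    split_ifs <;> omega
  have htop : (⊤ : Ideal (OO (MUXZ.pA d) (MUXZ.pB d))) ≠ ⊥ := by
    have h1 := natCast_ne_zero' hc one_ne_zero
    intro h5
    have h6 : ((1 : ℕ) : OO (MUXZ.pA d) (MUXZ.pB d)) ∈
      (⊤ : Ideal (OO (MUXZ.pA d) (MUXZ.pB d))) := Submodule.mem_top
    rw [h5, Ideal.mem_bot] at h6
    exact h1 h6
  have hNL : NLex (MUXZ.pA d) (MUXZ.pB d) := by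
    obtain ⟨L, om, hL⟩ := hNLE _ _ hc hD3 hD4 ⊤ htop
    exact ⟨⊤, L, om, hL⟩
  obtain ⟨ι, iι, ⟨R⟩⟩ := hREX _ _ hc hD3 hD4 1 one_ne_zero
  obtain ⟨n₀, hn0, hn₀⟩ := t_GOOD _ _ hc T hGRB hALU 1 ι R
  have hfinH : FiniteDimensional (kk (MUXZ.pA d) (MUXZ.pB d))
      (RF (⊤ : Ideal (OO (MUXZ.pA d) (MUXZ.pB d))) :
        IntermediateField (kk (MUXZ.pA d) (MUXZ.pB d)) ℂ) := T.fin _ htop
  have hH0 : Module.finrank (kk (MUXZ.pA d) (MUXZ.pB d))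
      (RF (⊤ : Ideal (OO (MUXZ.pA d) (MUXZ.pB d))) :
        IntermediateField (kk (MUXZ.pA d) (MUXZ.pB d)) ℂ) ≠ 0 := Module.finrank_pos.ne'
  refine ⟨n₀.primeFactors ∪ (Module.finrank (kk (MUXZ.pA d) (MUXZ.pB d))
      (RF (⊤ : Ideal (OO (MUXZ.pA d) (MUXZ.pB d))) :
        IntermediateField (kk (MUXZ.pA d) (MUXZ.pB d)) ℂ)).primeFactors, fun p hp hpS => ?_⟩
  rw [Finset.notMem_union] at hpS
  have hpn' : ¬ p ∣ n₀ := fun h5 => hpS.1 (Nat.mem_primeFactors.2 ⟨hp, h5, hn0⟩)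
  have hpH : ¬ p ∣ Module.finrank (kk (MUXZ.pA d) (MUXZ.pB d))
      (RF (⊤ : Ideal (OO (MUXZ.pA d) (MUXZ.pB d))) :
        IntermediateField (kk (MUXZ.pA d) (MUXZ.pB d)) ℂ) := fun h5 =>
    hpS.2 (Nat.mem_primeFactors.2 ⟨hp, h5, hH0⟩)
  obtain ⟨hp5, hpD, hgood⟩ := hn₀ p hp hpn'
  exact fin_pQ hURE hFIN hLAY hIAF hREX hJTR hDIR hLAYs _ _ hc T hNL hD3 hD4 h2 hi
    p hp hp5 hpD hpH hgood

end Pool.Agent.TWQ
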