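import Pool.Agent.TWQ.REDQ
import Pool.Agent.TWX.FAC

/-!
# TWQ, module ERQ (helper59): a character unramified at `P` and ramified at `P'` has `e' ≥ 2` at `V'`
-/

set_option autoImplicit false

open WeierstrassCurve Polynomial NumberField IsDedekindDomain

namespace Pool.Agent.TWQ

open _root_.MU3 Pool.Agent.MU3 Pool.Agent.MU3A Pool.Agent.MU3B Pool.Agent.MU3C Pool.Agent.RI
  Pool.Agent.RID
open Pool.Agent.MUX Pool.Agent.MUXU Pool.Agent.MUXW Pool.Agent.TWT Pool.Agent.TWI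
open Pool.Agent.TWT.CRB Pool.Agent.MUXW.Mem
open Pool.Agent.MU3V (cls Sub GD algDF)
open Pool.Agent.MUXV (GR InK tX)
open Pool.Agent.MUXI (IA RE AR)
open OnePoint

noncomputable section

namespace ERQ

/-- a number with the residue `1` -/
theorem val_lt (V : ValuationSubring ℂ) {z : ℂ} (h : rsd V z = 1) : V.valuation (z - 1) < 1 := by
  obtain ⟨hx, he⟩ := rsd_ne V (x := z) (by rw [h]; exact one_ne_zero)
  rw [h] at he
  have h1 : IsLocalRing.residue V (⟨z, hx⟩ - 1) = 0 := by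
    rw [map_sub, ← he, map_one, sub_self]
  have h2 := (IsLocalRing.residue_eq_zero_iff _).1 h1
  have h3 := (ValuationSubring.valuation_lt_one_iff V (⟨z, hx⟩ - 1)).1 h2
  exact h3

theorem not_dvd {p q : ℕ} (hp5 : 5 ≤ p) (hpq : p ≤ q) (h : p ∣ q) : ¬ p ∣ q - 1 := by
  intro h11
  have h14 := Nat.dvd_sub h h11
  have h15 : q - (q - 1) = 1 := by omega
  rw [h15] at h14
  have := Nat.le_of_dvd one_pos h14
  omega

theorem rsd_one (V : ValuationSubring ℂ) : rsd V (1 : ℂ) = 1 := by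
  unfold rsd
  rw [dif_pos (one_mem V)]
  exact map_one (IsLocalRing.residue V)

end ERQ

open REDQ ERQ in
/-- (ERQ) -/
theorem t_ERQ (hIDQ : S_IDQ) (hTEQ : S_TEQ) (hTHQ : S_THQ) : S_ERQ := by
  intro p q A B P P' V V' f hS hS' hT ι _ R w w' hw hw' kp kp' eta eta' b e' b' hC hb1 hb2 hC'
    l N hl hpl1 hlf ψ ψ' D h hs
  let _ := algC h
  intro χ χ' hχχ hχ hχ'
  by_contra he
  have he1 : e' = 1 := by
    have h1 := hC'.e1
    clear hχ hχ' hχχ
    omega
  subst he1
  obtain ⟨hm0, hpm, hM0, hm3, hM3, hcop⟩ := lev hIDQ hS R N hl hlf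
  obtain ⟨⟨hcq, hp, hp5, hpq, hPp, hOv, hf0, hpf, hfD, hPP, hPc⟩, hZ, ⟨T, hTr⟩, hTc, -, -, -⟩ :=
    hIDQ p q A B P P' V f hS
  obtain ⟨⟨-, -, -, -, hPp', -⟩, -, -, -, hlv, hlv2, -⟩ := hIDQ p q A B P' P V' f hS'
  obtain ⟨w1, w2, w3, w4, w5, w6, w7, w8⟩ := hTEQ p q A B P P' V f hS w hw
  obtain ⟨w1', -⟩ := hTEQ p q A B P' P V' f hS' w' hw'
  have hvp := v_p_lt hIDQ hS
  -- `P' = cjI P`
  have hP' : P' = cjI P := by
    rcases hC.bb with ⟨-, h2⟩ | ⟨h1, -⟩
    · omega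
    · exact h1
  have hmem : ∀ x : OO A B, x ∈ P' ↔ star x ∈ P := fun x => by
    rw [hP']
    exact Iff.rfl
  set m : ℕ := f * l ^ N with hm
  have hfin := hT.fin _ (CRA.idl_ne (A := A) (B := B) hM0)
  have hgal := hT.gal _ (CRA.idl_ne (A := A) (B := B) hM0)
  have hcomm := hT.comm _ (CRA.idl_ne (A := A) (B := B) hM0)
  obtain ⟨-, q2, -, -, -, q6⟩ := t_HTF A B hcq hT (p * f) ι R (m * p) hM3 hcop
  obtain ⟨-, -, -, -, me2⟩ := ty_MEM A B _ hfin hgal hcomm D h hs 1 one_ne_zero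
  obtain ⟨x0, y0, hxy⟩ := hlv m hm3 hpm
  obtain ⟨hac, -⟩ := hlv2 m x0 y0 hxy
  have THQ1 := hTHQ p q A B P P' V f hS ι R w hw kp eta 1 b hC l N hl hlf ψ
  have THQ2 := hTHQ p q A B P' P V' f hS' ι R w' hw' kp' eta' 1 b' hC' l N hl hlf ψ'
  -- the powers of `w`
  have key : ∀ c : OO A B, c ∉ P' → w (star c * (m * star y0)) ^ b = 1 := by
    intro c hc
    obtain ⟨hc1, hc2⟩ := hac c hc
    set a : OO A B := x0 + c * m * y0 with ha
    obtain ⟨σ, hσ⟩ := q2 R.i0 a hc1
    obtain ⟨τ, hτ⟩ := me2 σ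
    have hr := q6 (m * p) dvd_rfl hM3 D h hs τ σ R.i0 a hτ hσ
    have ha1 : a - 1 ∈ (idl m : Ideal (OO A B)) := Ideal.mul_le_left hc2
    -- `χ' τ = 1`
    have h1 := hχ' τ _ hr
    have h2 : thQ R kp' eta' ψ' w' 1 b' R.i0 a = 1 := by
      have h3 := THQ2.2.2.2.2.1 R.i0 1 a hc2
      rw [one_mul, Nat.sub_self, pow_zero, mul_one] at h3
      rw [h3]
      unfold thQ
      rw [val_one R hC' ψ' (by rw [sub_self]; exact Ideal.zero_mem _), star_one, w1']
      simp
    rw [THQ2.1 R.i0 _ a (by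
      rw [← Ideal.Quotient.eq]
      exact Quotient.out_eq _), h2, rsd_one] at h1
    have h4 : χ' τ = 1 := inv_eq_one.1 (Units.ext h1.symm)
    have h5 := hχχ τ h4
    have h6 := hχ τ _ hr
    rw [THQ1.1 R.i0 _ a (by
      rw [← Ideal.Quotient.eq]
      exact Quotient.out_eq _), h5] at h6
    have h7 : thQ R kp eta ψ w 1 b R.i0 a = w (star a) ^ b := by
      unfold thQ
      rw [val_one R hC ψ ha1, Nat.sub_self, pow_zero, one_mul, one_mul]
    rw [h7] at h6
    have h8 : rsd V (w (star a) ^ b) = 1 := by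
      rw [h6]
      simp
    have h9 : star a ∉ P := (not_mem hIDQ hS hc1).2
    have h10 : w (star a) ^ b = 1 := by
      refine Pool.Agent.TWX.eq_one_of_congr V p hp hvp (q - 1) ?_ _ ?_ (val_lt V h8)
      · refine not_dvd hp5 hpq ?_
        rcases hS.2 with h | h
        · rw [h.2.2]
          exact dvd_pow_self p two_ne_zero
        · rw [h.2.2]
      · rw [← pow_mul, mul_comm, pow_mul, (w5 _ h9).1, one_pow]
    have h13 : star a - star c * (m * star y0) ∈ P := by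
      have h14 : star a - star c * (m * star y0) = star x0 := by
        rw [ha, star_add, star_mul', star_mul', star_natCast]
        ring
      rw [h14]
      exact (hmem x0).1 hxy.xP
    rw [← w3 _ _ h13]
    exact h10
  have hone : (1 : OO A B) ∉ P' := fun h1 => hPp'.ne_top ((Ideal.eq_top_iff_one _).2 h1)
  have key1 : w (m * star y0) ^ b = 1 := by
    have := key 1 hone
    rwa [star_one, one_mul] at this
  have key2 : ∀ d : OO A B, d ∉ P → w d ^ b = 1 := by
    intro d hd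
    have h1 : star d ∉ P' := fun h2 => hd (by have := (hmem _).1 h2; rwa [star_star] at this)
    have h2 := key (star d) h1
    rw [star_star, w2, mul_pow, key1, mul_one] at h2
    exact h2
  obtain ⟨hsum, -⟩ := w8 T hTr
  have h3 := hsum b hb1 hb2
  rw [Finset.sum_congr rfl fun c hc => key2 c (hTr.nz c hc), Finset.sum_const, hTc T hTr,
    nsmul_eq_mul, mul_one] at h3
  have h4 : q - 1 = 0 := by exact_mod_cast h3
  omega

end

end Pool.Agent.TWQ
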