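import Pool.Agent.TWQ.StQ1
import Pool.Agent.TWK.StK6

/-!
# TWQ, the unit theorem for `K` ramified above `p` (helper59)

`S_UNQV` (and from it `S_UNQ` of `DefU.lean`): for all large `n` all characters of `Gal(K B_(n+1) / k)` which are not trivial on `Gal(K B_(n+1) / K B_n)` have a part of `c₀ = cW θ` which is not a `p`-th power (`UnitAt`, `Pool/Agent/TWK/StK6.lean`), `K ≤ RF (idl (f p))`.
Inputs: `S_SYMQ` (block C'), `S_CRTQ` (block B'), `S_FACQ` (helper51), and the theorems of the unramified case `S_SYMA`, `S_CRIT` (split), `S_SYMI`, `S_CRITI` (inert).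

THE ARGUMENT. `D = K B_(n+1) ≤ F = RF (idl M)`, `M = m p`, `m = f l^N`, `N = n + 1 + h`. FACQ at `V`: the values of `χ` are `thQ kp eta ψ w e b`. (1) `e ≥ 2`: CRTQ (the factor at `a` is a unit: FAQ; the sum is large: SYMQ). (2) `e = 1`, and `b = 0` (inert) or `b = q - 1` (split): `χ` is unramified above `p`.
The fixed field `D₁` of the kernel of `χ` is in `RF (idl m)` (RGMQ); the values of `χ₁` on `Gal(D₁/k)` are `thT kp eta ψ` (REDQ), so CRIT or CRITI gives a non-power in `D₁`, and `p ∤ [D : D₁]`: a non-power in `D` (DSQ). (3) `e = 1`, split, `b < q - 1`: `χ` is ramified at `P'`. Let `V'` be above `P'`; transfer `χ` to the residue field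
of `V'` (TRVQ): `χ'` with the same kernel and the same functionals. FACQ at `V'` gives `e'`, `b'`; `e' ≥ 2` (ERQ), so CRTQ at `V'`.

Modules: `theorem t_X : S_X` (or `theorem t_X (h : S_Y) .. : S_X` with the statements named under USES, fewer is fine) in `Pool/Agent/TWQ/X.lean`, namespace `Pool.Agent.TWQ`, auxiliary lemmas in `Pool.Agent.TWQ.X`. THEOREMS which may be cited: `Pool.Agent.MUXW.ty_MEM` (`Sy_MEM`, `StWX.lean`; also the lemmas `Pool.Agent.MUXW.Mem.ext1_one, ext1_iff, ext1_mul, ext1_inv,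
mem_D` of `Pool/Agent/MUX/W_MEM.lean`), `ty_TOW` (`Sy_TOW`), `Pool.Agent.MUXW.y_X` (`Sy_X`, `Pool/Agent/MUX/WAll.lean`), `Pool.Agent.MUXI.i_X` (`Si_X` of `StIX.lean`; `Pool/Agent/MUX/IAll.lean`), `Pool.Agent.TWT.t_HTF` (`S_HTF`, `Pool/Agent/TWT/StT2.lean`, `HTF.lean`), `CRB.cWt_fib`, `CRB.charP_res` (`Pool/Agent/TWT/CRB.lean`), `Pool.Agent.TWK.t_NRM2`, `Pool.Agent.TWX.t_FAC`.
In theorems over `letI := algC h` start with `let _ := algC h` and then `intro`.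
-/

set_option autoImplicit false

open WeierstrassCurve Polynomial NumberField IsDedekindDomain

namespace Pool.Agent.TWQ

open _root_.MU3 Pool.Agent.MU3 Pool.Agent.MU3A Pool.Agent.MU3B Pool.Agent.MU3C Pool.Agent.RI
  Pool.Agent.RID
open Pool.Agent.MUX Pool.Agent.MUXU Pool.Agent.MUXW Pool.Agent.TWT Pool.Agent.TWI
open Pool.Agent.MU3V (cls Sub GD algDF)
open Pool.Agent.MUXV (GR InK tX)
open Pool.Agent.MUXI (IA RE AR)
open OnePoint

noncomputable section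

/-! ## 1. The characters (helper51) and the result -/

open Pool.Agent.TWR in
/-- (FACQ) the characters of `Gal(K B_(n+1) / k)` with values in the residue field, in terms of the values `thQ`; `J` does not depend on `n` (helper51). -/
def S_FACQ : Prop :=
  ∀ (l g h : ℕ), Gen l g h → ∀ (p q : ℕ) [Fact p.Prime] (A B : ℤ) (P P' : Ideal (OO A B))
    (V : ValuationSubring ℂ) (f : ℕ), SetQ p q A B P P' V f → l ^ h ∣ f → TorX A B →
    ∀ (ι : Type) [Finite ι] (R : Reps A B (p * f) ι), GRd V R →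
    ∀ (w : OO A B → ℂ), TeQ p q P V w →
    ∀ (K : IntermediateField ℚ ℂ) [FiniteDimensional ℚ K], kk A B ≤ K →
    Sub K (RF (idl (f * p)) : IntermediateField (kk A B) ℂ) →
    ∀ (Bn : ℕ → IntermediateField ℚ ℂ), (∀ n, IsLayer l n (Bn n)) → Monotone Bn →
    ∃ (J : Type) (_ : Finite J) (kp : J → ι → ℂ) (eta : J → OO A B → ℂ) (e b : J → ℕ),
      (∀ j, ChQ p q f P P' R (kp j) (eta j) (e j) (b j)) ∧
      (∀ j, IdC p f R (kp j) (eta j) w (e j) (b j)) ∧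
      ∀ (n : ℕ) (hn : kk A B ≤ K ⊔ Bn (n + 1)), letI := algC hn
      ∀ χ : (↥(K ⊔ Bn (n + 1)) ≃ₐ[kk A B] ↥(K ⊔ Bn (n + 1))) →* (IsLocalRing.ResidueField V)ˣ,
      (∃ g : ↥(K ⊔ Bn (n + 1)) ≃ₐ[kk A B] ↥(K ⊔ Bn (n + 1)),
        (∀ x : ↥(K ⊔ Bn (n + 1)), (x : ℂ) ∈ K ⊔ Bn n → g x = x) ∧ χ g ≠ 1) →
      ∃ (j : J) (ψ : DirichletCharacter ℂ (l ^ (n + 1 + h))), ψ (-1) = 1 ∧
        ψ (1 + (l : ZMod (l ^ (n + 1 + h))) ^ (n + 1 + h - 1)) ≠ 1 ∧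
        ∀ (τ : ↥(K ⊔ Bn (n + 1)) ≃ₐ[kk A B] ↥(K ⊔ Bn (n + 1))),
        ∀ r ∈ XX R (f * l ^ (n + 1 + h) * p) hn τ,
          rsd V (thQ R (kp j) (eta j) ψ w (e j) (b j) r.1 (Quotient.out r.2)) =
            (((χ τ)⁻¹ : (IsLocalRing.ResidueField V)ˣ) : IsLocalRing.ResidueField V)

open Pool.Agent.TWR in
/-- (UNQV) the unit theorem (assembly: helper59). In the split case `V'` is a valuation ring above `P' = cjI P` (`cjI P' = P`) with good reduction; in the inert case `V'` is arbitrary. -/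
def S_UNQV : Prop :=
  ∀ (l g h : ℕ), Gen l g h → ∀ (p q : ℕ) [Fact p.Prime] (A B : ℤ) (P P' : Ideal (OO A B))
    (V V' : ValuationSubring ℂ) (f : ℕ), SetQ p q A B P P' V f → l ^ h ∣ f → TorX A B →
    ∀ (ι : Type) [Fintype ι] (R : Reps A B (p * f) ι), GRd V R →
    (P' = ⊤ ∨ (SetQ p q A B P' P V' f ∧ GRd V' R)) →
    ∀ (K : IntermediateField ℚ ℂ) [FiniteDimensional ℚ K] [FiniteDimensional ℚ (kk A B)]
    (hk : kk A B ≤ K), ¬ p ∣ Module.finrank (kk A B) (IntermediateField.extendScalars hk) →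
    Sub K (RF (idl (f * p)) : IntermediateField (kk A B) ℂ) →
    ∀ (Bn : ℕ → IntermediateField ℚ ℂ) [∀ n, FiniteDimensional ℚ ↥(K ⊔ Bn n)],
    (∀ n, IsLayer l n (Bn n)) → Monotone Bn →
    (∀ n, Sub (K ⊔ Bn n) (RF (idl (f * l ^ (n + h) * p)) : IntermediateField (kk A B) ℂ)) →
    ∀ (a : ℕ), 1 < a → a.Coprime (6 * f * p) → ∀ (H : Finset ℂ), IsHalf (R.L R.i0) a H →
    ∃ n0 : ℕ, ∀ n : ℕ, n0 ≤ n → Pool.Agent.TWK.UnitAt p l h f V R H K Bn n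

/-! ## 2. Small modules -/

/-- (FAQ) the factor at `a` is a unit.

USES IDQ, TEQ. PROOF. MODEL: `UNITI.fac_a` (`Pool/Agent/TWI/UNITI.lean`; `UNITA.th0`, `UNITA.nI_top` of `Pool/Agent/TWT/UNITA.lean`). `star a = a` for a natural number `a` (`starRing`: `map_natCast`), so `thQ .. R.i0 a = ξ ψ(a)²`, `ξ = eta a * w a ^ (e - 1 + b)`. `ξ ^ (r (q - 1)) = 1` (`ChQ.fin`; `a` is prime to `f`, so `eta a ≠ 0` by `ChQ.supp`; `a ∉ P`: `w a ^ (q - 1) = 1`) and `p ∤ r (q - 1)`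
(`q = p` or `p²`). `t_FAC` with `r (q - 1)` and the integer `b` with `a² b ≡ 1` modulo `p`: `v(ξ ψ(a)² - b) = 1`, and `1 - a² ξ ψ(a)² = - a² (ξ ψ(a)² - b) + (1 - a² b)`, `v(1 - a² b) < 1`, `v(a) = 1`. -/
def S_FAQ : Prop :=
  ∀ (p q : ℕ) (A B : ℤ) (P P' : Ideal (OO A B)) (V : ValuationSubring ℂ) (f : ℕ),
    SetQ p q A B P P' V f → ∀ (n : ℕ) (ι : Type) (R : Reps A B n ι) (w : OO A B → ℂ),
    TeQ p q P V w → ∀ (kp : ι → ℂ) (eta : OO A B → ℂ) (e b : ℕ),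
    ChQ p q f P P' R kp eta e b → ∀ l : ℕ, l.Prime → ¬ p ∣ l - 1 → l ∣ f → ∀ a : ℕ, 1 < a →
    a.Coprime (6 * f * p) →
    ∃ M₀ : ℕ, ∀ M, M₀ ≤ M → ∀ ψ : DirichletCharacter ℂ (l ^ M),
      ψ (1 + (l : ZMod (l ^ M)) ^ (M - 1)) ≠ 1 →
      V.valuation (1 - (a : ℂ) ^ 2 * thQ R kp eta ψ w e b R.i0 (a : OO A B)) = 1

/-- (TRVQ) transfer of a character of a finite group from one field of characteristic `p` to another one.

PROOF. Only Mathlib. Let `E` be the subfield of `F` generated over `𝔽_p` by the values of `χ` (`IntermediateField.adjoin (ZMod p) (Set.range ..)`, `Algebra (ZMod p) F`: `ZMod.algebra`); it is algebraic over `𝔽_p` (roots of unity), so there is an embedding `i : E →ₐ[ZMod p] F'` (`IsAlgClosed.lift`, `F'` algebraically closed). `χ' = i ∘ χ` (`Units.map` of the corestriction of `χ` to `E`; `E → F` is injective). For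
`t' : F' →+ ZMod p` the map `t' ∘ i : E → ZMod p` is additive, so `ZMod p`-linear (`AddMonoidHom.toZModLinearMap`), and extends to `F` (`LinearMap.exists_extend`). -/
def S_TRVQ : Prop :=
  ∀ (p : ℕ) [Fact p.Prime] (F F' : Type) [Field F] [Field F'] [CharP F p] [CharP F' p]
    [IsAlgClosed F'] (G : Type) [Group G] [Finite G] (χ : G →* Fˣ),
    ∃ χ' : G →* F'ˣ, (∀ g, χ' g = 1 ↔ χ g = 1) ∧
      ∀ t' : F' →+ ZMod p, ∃ t : F →+ ZMod p, ∀ g, t ((χ g)⁻¹ : Fˣ) = t' ((χ' g)⁻¹ : F'ˣ)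

/-- (RGMQ) the automorphisms of `RF (idl M)` which are trivial on `RF (idl m)`.

PROOF. `D = RF (idl m)` as a subfield of `ℂ` over `ℚ` (`IntermediateField.restrictScalars`), `hD : kk A B ≤ D`, `Ext1 hD 1 σ`. `t_HTF` (6) (for `M`, `m ∣ M`; `3 ≤ M`): `(i, mk x) ∈ XX R m hD 1`, so there is `s : ℂ ≃+* ℂ`, `FixK`, trivial on `D` (`ExtC hD 1 s`), `Hits R m s i x'`, `x' = Quotient.out (mk x)`, `x' - x ∈ idl m`, `x'` prime to `m`. `s` is trivial on `kap (R.L i0)` and on `xn (R.L i0) (pt R m i0 1)`, which are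
in `RF (idl m)` (the generators of `RF`; `3 ≤ m`: `pt R m i0 1` is a point of level `m` and not in the lattice), so `Hits R m s i0 1` by definition. `Sy_HIT` (`y_HIT`; `m ∤ 2` in `O` as `m ≥ 3`): the pair is unique: `i = i0` and `m ∣ x' - 1` or `m ∣ x' + 1`. -/
def S_RGMQ : Prop :=
  ∀ (A B : ℤ), CQ A B → TorX A B → ∀ (n : ℕ) (ι : Type) (R : Reps A B n ι) (m M : ℕ), m ∣ M →
    M ≠ 0 → 3 ≤ m → (∀ i, (nI (R.b i)).Coprime M) → ∀ σ : GalF A B M,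
    (∀ y : (RF (idl M) : IntermediateField (kk A B) ℂ),
      (y : ℂ) ∈ (RF (idl m) : IntermediateField (kk A B) ℂ) → σ y = y) →
    ∀ (i : ι) (x : OO A B), HitF R M _ σ i x →
    i = R.i0 ∧ (x - 1 ∈ (idl m : Ideal (OO A B)) ∨ x + 1 ∈ (idl m : Ideal (OO A B)))

/-- (DSQ) descent to the fixed field `D₁` of the kernel of `χ`.

PROOF. `D / k` is Galois and abelian (`Sy_MEM` and `mem_D` of `W_MEM.lean`, or: `D` corresponds to an intermediate field of `F/k`, `F/k` abelian). `D₁` = the `y ∈ D` fixed by all `τ` with `χ τ = 1` (as a subfield of `ℂ`; e.g. `IntermediateField.fixedField χ.ker` mapped to `ℂ`, or a structure with the carrier `{y | ∃ hy : y ∈ D, ∀ τ, χ τ = 1 → τ ⟨y, hy⟩ = ⟨y, hy⟩}`). `τ` is trivial on `D₁` iff `χ τ = 1`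
(`IntermediateField.fixingSubgroup_fixedField`). Every `τ₁ ∈ Gal(D₁/k)` is the restriction of some `τ` (`Sy_MEM`: extend to `σ`, restrict to `D`), and `χ₁ τ₁ := χ τ` is well defined and multiplicative (`Mem.ext1_mul`). `D₁ / k` is Galois (a subfield of an abelian extension). The characterisation of `D₁`: (`→`) `y ∈ F` fixed by all `σ` with `χ(σ|D) = 1` is fixed by the `σ` trivial on `D`, so in `D` (`mem_D`), and then in `D₁`
(every `τ` extends to `F`). THE LAST CLAIM. `c₁ = ∏_(τ ∈ Gal(D/k), χ τ = 1) τ c₀` (`ty_TOW` for `D₁ ≤ D`; `NC h D₁` = the kernel of `χ`). `z := sE p χ₁ t c₁ = ∏_(τ₁) (τ₁ c₁)^(t(χ₁(τ₁)⁻¹)) = ∏_(τ ∈ Gal(D/k)) (τ c₀)^(t(χ(τ)⁻¹)) = sE p χ t c₀` as complex numbers (group the `τ` by their restriction `ρ τ` to `D₁`: `Finset.prod_fiberwise`; `τ₁ c₁ = ∏_(ρ τ = τ₁) τ c₀`; or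
both are `∏_(σ ∈ Gal(F/k)) (σ θ)^(n σ)`, `n σ = t(χ(σ|D)⁻¹)`, by `CRB.cWt_fib` and `Sy_MEM` (3), as in `Pool/Agent/TWQ/CRTQ.lean`). If `z = y^p`, `y ∈ D`: the product over the kernel `H` of `χ` (its order `d` divides `[D : k]`, so it is prime to `p`): `z^d = ∏_(τ ∈ H) τ z = Y^p`, `Y = ∏_(τ ∈ H) τ y ∈ D₁`. `u d = 1 + v p` (naturals), `z ≠ 0` (`θ ≠ 0`), so
`z = (Y^u / z^v)^p` in `D₁`, a contradiction. -/
def S_DSQ : Prop :=
  ∀ (p : ℕ) [Fact p.Prime] (A B : ℤ) (F : IntermediateField (kk A B) ℂ),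
    FiniteDimensional (kk A B) F → IsGalois (kk A B) F →
    (∀ σ τ : F ≃ₐ[kk A B] F, σ * τ = τ * σ) → ∀ (D : IntermediateField ℚ ℂ)
    [FiniteDimensional ℚ D] [FiniteDimensional ℚ (kk A B)] (h : kk A B ≤ D), Sub D F →
    ∀ (Fr : Type) [Field Fr] [CharP Fr p], letI := algC h
    ¬ p ∣ Module.finrank (kk A B) D → ∀ χ : (D ≃ₐ[kk A B] D) →* Frˣ,
    ∃ (D₁ : IntermediateField ℚ ℂ) (_ : FiniteDimensional ℚ D₁) (h₁ : kk A B ≤ D₁),
      letI := algC h₁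
      IsGalois (kk A B) D₁ ∧ D₁ ≤ D ∧
      (∀ y : F, (y : ℂ) ∈ D₁ ↔
        ∀ (σ : F ≃ₐ[kk A B] F) (τ : D ≃ₐ[kk A B] D), Ext1 h τ σ → χ τ = 1 → σ y = y) ∧
      ∃ χ₁ : (D₁ ≃ₐ[kk A B] D₁) →* Frˣ,
      (∀ (σ : F ≃ₐ[kk A B] F) (τ : D ≃ₐ[kk A B] D) (τ₁ : D₁ ≃ₐ[kk A B] D₁), Ext1 h τ σ →
        Ext1 h₁ τ₁ σ → χ τ = χ₁ τ₁) ∧
      ∀ θ : F, θ ≠ 0 → ∀ (c₀ : D) (c₁ : D₁), (c₀ : ℂ) = cW h θ → (c₁ : ℂ) = cW h₁ θ →
        ∀ t : Fr →+ ZMod p, (∀ y : D₁, y ^ p ≠ Pool.Agent.TWK.sE p χ₁ t c₁) →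
        ∀ y : D, y ^ p ≠ Pool.Agent.TWK.sE p χ t c₀

/-! ## 3. The unramified case and the case of `P'` -/

/-- (ERQ) split: a character which is unramified at `P` and ramified at `P'` has `e' ≥ 2` at `V'`.

USES IDQ, TEQ, THQ. PROOF. Let `e' = 1` (`ChQ.e1`). `m = f l^N`, `M = m p`. IDQ for `SetQ .. P' P V'`: `LvQ p P' P m x0 y0`; for `c ∉ P'`: `a_c = x0 + c m y0` is prime to `M` and `≡ 1` modulo `idl m * P`. `t_HTF` (2): `σ` hits `(i0, a_c)`; `τ` = its restriction to `D` (`Sy_MEM`), `(i0, mk a_c) ∈ XX R M h τ` (HTF (6)). THQ (1), (5), (6) at `V'`: `thQ' i0 a_c = thQ' i0 1 * w'(a_c)^0 = 1`, so `χ' τ = 1`, so `χ τ = 1`: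
`rsd V (thQ i0 a_c) = 1`, and `thQ i0 a_c = eta a_c * ψ(nm a_c) * w(a_c)^0 * w(star a_c)^b = w(star a_c)^b` (`a_c ≡ 1` modulo `m`: `eta a_c = 1`, `nm a_c ≡ 1` modulo `l^N`; `kp0`, `nI ⊤ = 1`). It is a root of unity of order `q - 1` prime to `p`, so it is `1` (`Pool.Agent.TWX.eq_one_of_congr`). `star a_c ≡ star c * m * star y0` modulo `P` (`star x0 ∈ P` as `x0 ∈ P' = cjI P`), so
`w(star c)^b * w(m * star y0)^b = 1` for all `c ∉ P'`; `c = 1`: `w(star c)^b = 1`. So `w(d)^b = 1` for all `d ∉ P` (`d = star c`), `Σ_(d ∈ T) w d ^ b = q - 1 ≠ 0` (`RepI P T` from IDQ), against TEQ (`0 < b < q - 1`). -/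
def S_ERQ : Prop :=
  ∀ (p q : ℕ) (A B : ℤ) (P P' : Ideal (OO A B)) (V V' : ValuationSubring ℂ) (f : ℕ),
    SetQ p q A B P P' V f → SetQ p q A B P' P V' f → TorX A B →
    ∀ (ι : Type) [Finite ι] (R : Reps A B (p * f) ι) (w w' : OO A B → ℂ), TeQ p q P V w →
    TeQ p q P' V' w' → ∀ (kp kp' : ι → ℂ) (eta eta' : OO A B → ℂ) (b e' b' : ℕ),
    ChQ p q f P P' R kp eta 1 b → 1 ≤ b → b < q - 1 → ChQ p q f P' P R kp' eta' e' b' →
    ∀ (l N : ℕ), l.Prime → ¬ p ∣ l - 1 → l ∣ f → ∀ ψ ψ' : DirichletCharacter ℂ (l ^ N),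
    ∀ (D : IntermediateField ℚ ℂ) (h : kk A B ≤ D),
    Sub D (RF (idl (f * l ^ N * p)) : IntermediateField (kk A B) ℂ) → letI := algC h
    ∀ (χ : (D ≃ₐ[kk A B] D) →* (IsLocalRing.ResidueField V)ˣ)
      (χ' : (D ≃ₐ[kk A B] D) →* (IsLocalRing.ResidueField V')ˣ), (∀ τ, χ' τ = 1 → χ τ = 1) →
    (∀ (τ : D ≃ₐ[kk A B] D), ∀ r ∈ XX R (f * l ^ N * p) h τ,
      rsd V (thQ R kp eta ψ w 1 b r.1 (Quotient.out r.2)) =
        (((χ τ)⁻¹ : (IsLocalRing.ResidueField V)ˣ) : IsLocalRing.ResidueField V)) →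
    (∀ (τ : D ≃ₐ[kk A B] D), ∀ r ∈ XX R (f * l ^ N * p) h τ,
      rsd V' (thQ R kp' eta' ψ' w' e' b' r.1 (Quotient.out r.2)) =
        (((χ' τ)⁻¹ : (IsLocalRing.ResidueField V')ˣ) : IsLocalRing.ResidueField V')) →
    2 ≤ e'

/-- (REDQ) the unramified case (`e = 1`, `b = 0` or `b = q - 1`): reduction to a field `D₁ ≤ RF (idl (f l^N))` (helper59).

USES IDQ, TEQ, THQ, RGMQ, DSQ. PROOF. `m = f l^N`, `M = m p`, `D₁`, `χ₁` from DSQ. (a) For `x` prime to `M`: `thQ i x = thT i x` (`w(star x)^(q-1) = 1`, `star x ∉ P`). (b) `σ ∈ Gal(F/k)` trivial on `RF (idl m)`: it hits `(i0, x)`, `x ≡ ± 1` modulo `m` (RGMQ), so the value is `1`: `χ(σ|D) = 1`. So `D₁ ≤ RF (idl m)` (`mem_D` for the field `RF (idl m)`). (c) Values of `χ₁`: `r = (i, x) ∈ XX R m h₁ τ₁`; `x' ≡ x` modulo `m`,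
prime to `M`; `σ` hits `(i, x')` (HTF (2)), `(i, mk x') ∈ XX R m h₁ (σ|D₁)` (HTF (6)), so `σ|D₁ = τ₁` (`Si_XXF`), and `(i, mk x') ∈ XX R M h (σ|D)`. (d) `g`: extend to `F` and restrict to `D₁`. -/
def S_REDQ : Prop :=
  ∀ (p q : ℕ) [Fact p.Prime] (A B : ℤ) (P P' : Ideal (OO A B)) (V : ValuationSubring ℂ) (f : ℕ),
    SetQ p q A B P P' V f → TorX A B → ∀ (ι : Type) [Finite ι] (R : Reps A B (p * f) ι)
    (w : OO A B → ℂ), TeQ p q P V w → ∀ (kp : ι → ℂ) (eta : OO A B → ℂ) (b : ℕ),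
    ChQ p q f P P' R kp eta 1 b → (b = 0 ∨ b = q - 1) →
    ∀ (l N : ℕ), l.Prime → ¬ p ∣ l - 1 → l ∣ f → ∀ ψ : DirichletCharacter ℂ (l ^ N),
    ∀ (D : IntermediateField ℚ ℂ) [FiniteDimensional ℚ D] [FiniteDimensional ℚ (kk A B)]
      (h : kk A B ≤ D),
    Sub D (RF (idl (f * l ^ N * p)) : IntermediateField (kk A B) ℂ) → letI := algC h
    ¬ p ∣ Module.finrank (kk A B) D →
    ∀ (χ : (D ≃ₐ[kk A B] D) →* (IsLocalRing.ResidueField V)ˣ),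
    (∀ (τ : D ≃ₐ[kk A B] D), ∀ r ∈ XX R (f * l ^ N * p) h τ,
      rsd V (thQ R kp eta ψ w 1 b r.1 (Quotient.out r.2)) =
        (((χ τ)⁻¹ : (IsLocalRing.ResidueField V)ˣ) : IsLocalRing.ResidueField V)) →
    (∃ g : D ≃ₐ[kk A B] D, (∀ x : D,
      (x : ℂ) ∈ (RF (⊤ : Ideal (OO A B)) : IntermediateField (kk A B) ℂ) → g x = x) ∧ χ g ≠ 1) →
    ∃ (D₁ : IntermediateField ℚ ℂ) (_ : FiniteDimensional ℚ D₁) (h₁ : kk A B ≤ D₁),
      letI := algC h₁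
      Sub D₁ (RF (idl (f * l ^ N)) : IntermediateField (kk A B) ℂ) ∧
      ∃ χ₁ : (D₁ ≃ₐ[kk A B] D₁) →* (IsLocalRing.ResidueField V)ˣ,
      (∀ (τ : D₁ ≃ₐ[kk A B] D₁), ∀ r ∈ XX R (f * l ^ N) h₁ τ,
        rsd V (thT R kp eta ψ r.1 (Quotient.out r.2)) =
          (((χ₁ τ)⁻¹ : (IsLocalRing.ResidueField V)ˣ) : IsLocalRing.ResidueField V)) ∧
      (∃ g : D₁ ≃ₐ[kk A B] D₁, (∀ x : D₁,
        (x : ℂ) ∈ (RF (⊤ : Ideal (OO A B)) : IntermediateField (kk A B) ℂ) → g x = x) ∧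
          χ₁ g ≠ 1) ∧
      ∀ θ : (RF (idl (f * l ^ N * p)) : IntermediateField (kk A B) ℂ), θ ≠ 0 →
        ∀ (c₀ : D) (c₁ : D₁), (c₀ : ℂ) = cW h θ → (c₁ : ℂ) = cW h₁ θ →
        ∀ t : (IsLocalRing.ResidueField V) →+ ZMod p,
        (∀ y : D₁, y ^ p ≠ Pool.Agent.TWK.sE p χ₁ t c₁) →
        ∀ y : D, y ^ p ≠ Pool.Agent.TWK.sE p χ t c₀

end

end Pool.Agent.TWQ
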