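import Pool.Agent.TWF.FACT
import Pool.Agent.TWQ.E0Q
import Pool.Agent.TWQ.StU

/-!
# TWQ: the characters of `Gal(K B_(n+1) / k)` with values in the residue field, `K` ramified above `p` (`S_FACQ`) (helper51)
-/

set_option autoImplicit false

open NumberField IsDedekindDomain Finset
open scoped nonZeroDivisors Pointwise

namespace Pool.Agent.TWQ

open _root_.MU3 Pool.Agent.MU3 Pool.Agent.MU3A Pool.Agent.MU3B Pool.Agent.RI Pool.Agent.RID
  Pool.Agent.MUX Pool.Agent.MUXK Pool.Agent.MUXI Pool.Agent.TWT Pool.Agent.TWF Pool.Agent.TWI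
open Pool.Agent.MU3I (w3 zt)
open Pool.Agent.MU3V (Sub)

theorem over_q {p q : ℕ} {A B : ℤ} {P P' : Ideal (OO A B)} {V : ValuationSubring ℂ} {f : ℕ}
    (hS : SetQ p q A B P P' V f) : OverI V P := by
  obtain ⟨-, ⟨h, -, -⟩ | ⟨h, -, -⟩⟩ := hS
  · exact h.hV
  · exact h.hV

theorem t_FACQ (hARF : Si_ARF) (hIAF : Si_IAF) (hXXF : Si_XXF) (hLAY : Si_LAY)
    (hNIM : Pool.Agent.MUXF.Sx_NIM) (hGAL : Pool.Agent.MUXJ.Sj_GAL) : S_FACQ := by
  classical
  intro l g s hGen p q hp A B P P' V f hS hlf T ι _ R _ w hw K _ hK hSub Bn hlay hmono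
  obtain ⟨hW, hc, hp5, hfp, hf0, hPp, hpP, -, -⟩ := at_p p q hp.out A B P P' V f hS w hw
  have hls : (l = 3 ∧ s = 1) ∨ (l = 2 ∧ s = 2) := by
    rcases hGen with ⟨h1, -, h2⟩ | ⟨h1, -, h2⟩
    · exact Or.inl ⟨h1, h2⟩
    · exact Or.inr ⟨h1, h2⟩
  have hlp : l.Prime := by
    rcases hls with ⟨rfl, -⟩ | ⟨rfl, -⟩
    · exact Nat.prime_three
    · exact Nat.prime_two
  have : Fact l.Prime := ⟨hlp⟩
  have hs1 : 1 ≤ s := by rcases hls with ⟨-, h⟩ | ⟨-, h⟩ <;> omega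
  have hlf1 : l ∣ f := (dvd_pow_self l (by omega)).trans hlf
  have hpl : ¬ p ∣ l := by
    intro h
    exact hfp (h.trans hlf1)
  have hf2 : 2 ≤ f := by
    have h1 := Nat.le_of_dvd (Nat.pos_of_ne_zero hf0) hlf1
    exact hlp.two_le.trans h1
  have hfm : (idl (f * p) : Ideal (OO A B)) ≠ ⊥ := by
    rw [Ne, Ideal.span_singleton_eq_bot]
    exact natCast_ne_zero' hc (mul_ne_zero hf0 hp.out.ne_zero)
  have hpV : (p : ℂ) ∈ V.nonunits := by
    have h1 := (over_q hS ((p : ℕ) : OO A B)).2 hpP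
    rwa [Pool.Agent.MUX.emb_natCast hc] at h1
  have fdk : FiniteDimensional ℚ (kk A B) := FiniteDimensional.of_injective
    (IntermediateField.inclusion hK).toLinearMap
    (IntermediateField.inclusion hK).toRingHom.injective
  obtain ⟨gK, -, cK⟩ := hGAL A B T (idl (f * p)) hfm K hK hSub
  have hB : Twr l (kk A B) K Bn := ⟨hK, gK, cK, hlay, hmono⟩
  let aK : Algebra (kk A B) K := algC hK
  have galK : IsGalois (kk A B) K := (isGalois_algC hK).2 gK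
  have tK : IsScalarTower ℚ (kk A B) K := IsScalarTower.of_algebraMap_eq (fun _ => rfl)
  have fdK : FiniteDimensional (kk A B) K := Module.Finite.of_restrictScalars_finite ℚ (kk A B) K
  have hfB : ∀ n, FiniteDimensional ℚ (Bn n) := fun n => (LAY_thm l n (Bn n) (hlay n)).1
  have hfL : ∀ n, FiniteDimensional ℚ ↥(K ⊔ Bn n) := fun n =>
    IntermediateField.finiteDimensional_sup K (Bn n)
  have hc0 : Nat.card (K ≃ₐ[kk A B] K) ≠ 0 := Nat.card_pos.ne'
  obtain ⟨a, r, hr, hcr⟩ := Nat.exists_eq_pow_mul_and_not_dvd hc0 p hp.out.ne_one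
  have hr0 : r ≠ 0 := by
    rintro rfl
    exact hr (dvd_zero p)
  have hcopf : ∀ i, (nI (R.b i)).Coprime f := fun i => (R.cop i).coprime_mul_left_right
  -- the characters of `Gal(K/k)`
  have hE := fun (j : {X : (K ≃ₐ[kk A B] K) →* ℂˣ // ∀ g, X g ^ r = 1}) =>
    e0q hARF hNIM p q hp.out A B P P' V f hS T ι R w hw K hK hSub galK j.1 r hr j.2
  choose kp eta ee bb e1 e2 e3 using hE
  refine ⟨{X : (K ≃ₐ[kk A B] K) →* ℂˣ // ∀ g, X g ^ r = 1}, fin_chr r hr0, kp, eta, ee, bb, e1, e2,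
    ?_⟩
  · intro n hn
    let aL : Algebra (kk A B) ↥(K ⊔ Bn (n + 1)) := algC hn
    intro χ hg₀
    obtain ⟨g₀, hg1, hg2⟩ := hg₀
    obtain ⟨galL, comL⟩ := gal_ab l (kk A B) K Bn hB (n + 1) hn
    have tL : IsScalarTower ℚ (kk A B) ↥(K ⊔ Bn (n + 1)) :=
      IsScalarTower.of_algebraMap_eq (fun _ => rfl)
    have fdL : FiniteDimensional (kk A B) ↥(K ⊔ Bn (n + 1)) :=
      Module.Finite.of_restrictScalars_finite ℚ (kk A B) _
    obtain ⟨X, t, ht, hXt, hXres⟩ :=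
      lift_chr p V hpV (↥(K ⊔ Bn (n + 1)) ≃ₐ[kk A B] ↥(K ⊔ Bn (n + 1))) χ
    obtain ⟨r₁, r₂, hr1, hr2, hsplit⟩ := chr_split l (kk A B) K Bn hB (n + 1) hn
    obtain ⟨X₁, X₂, hX12⟩ := hsplit X
    have hX2 : ∀ g : Bn (n + 1) ≃ₐ[ℚ] Bn (n + 1), X₂ g ^ (l ^ (n + 1)) = 1 := by
      intro g
      have hGB : IsGalois ℚ (Bn (n + 1)) := (LAY_thm l (n + 1) (Bn (n + 1)) (hlay (n + 1))).2.1
      have h1 : Nat.card (Bn (n + 1) ≃ₐ[ℚ] Bn (n + 1)) = l ^ (n + 1) := by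
        rw [IsGalois.card_aut_eq_finrank, (hlay (n + 1)).1]
      rw [← h1, ← map_pow, pow_card_eq_one', map_one]
    have hpl' : ¬ p ∣ l ^ (n + 1) := fun h => hpl (hp.out.dvd_of_dvd_pow h)
    obtain ⟨Y, hYr, hXY⟩ := fix_ord p a r t (l ^ (n + 1)) hp.out hcr r₁ r₂ X X₁ X₂ hX12 ht hXt
      hpl' hX2
    obtain ⟨ψ, hψ1, hψ2, hψ3⟩ := cyc hLAY l s n hls (Bn n) (Bn (n + 1)) (hlay n) (hlay (n + 1))
      (hmono (Nat.le_succ n)) X₂
    refine ⟨⟨Y, hYr⟩, ψ, hψ1, hψ2 ?_, ?_⟩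
    · -- the ramified part
      refine ⟨r₂ g₀, ?_, ?_⟩
      · intro x hx
        have h1 := hr2 g₀ x ⟨(x : ℂ), (le_sup_right : Bn (n + 1) ≤ K ⊔ Bn (n + 1)) x.2⟩ rfl
        have h2 := hg1 ⟨(x : ℂ), (le_sup_right : Bn (n + 1) ≤ K ⊔ Bn (n + 1)) x.2⟩
          ((le_sup_right : Bn n ≤ K ⊔ Bn n) hx)
        rw [h2] at h1
        exact Subtype.ext h1.symm
      · intro h1
        have h2 : r₁ g₀ = 1 := by
          ext x
          have h3 := hr1 g₀ x ⟨(x : ℂ), (le_sup_left : K ≤ K ⊔ Bn (n + 1)) x.2⟩ rfl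
          have h4 := hg1 ⟨(x : ℂ), (le_sup_left : K ≤ K ⊔ Bn (n + 1)) x.2⟩
            ((le_sup_left : K ≤ K ⊔ Bn n) x.2)
          rw [h4] at h3
          exact h3.symm
        have h3 : X g₀ = 1 := by rw [hXY g₀, h1, h2, map_one, mul_one]
        apply hg2
        obtain ⟨h4, h5⟩ := hXres g₀
        apply Units.ext
        rw [← h5, Units.val_one, ← map_one (IsLocalRing.residue V)]
        congr 1
        apply Subtype.ext
        show ((X g₀ : ℂˣ) : ℂ) = 1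
        rw [h3, Units.val_one]
    · intro τ q hq
      have hM0 : (l ^ (n + 1 + s)) ≠ 0 := pow_ne_zero _ hlp.ne_zero
      have hm2 : 2 ≤ (f * l ^ (n + 1 + s) * p) := by
        calc 2 ≤ p := hp.out.two_le
          _ = 1 * p := (one_mul p).symm
          _ ≤ f * l ^ (n + 1 + s) * p := Nat.mul_le_mul_right _
            (Nat.pos_of_ne_zero (mul_ne_zero hf0 hM0))
      have hm0 : idl (A := A) (B := B) (f * l ^ (n + 1 + s) * p) ≠ ⊥ := by
        rw [Ne, Ideal.span_singleton_eq_bot]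
        exact natCast_ne_zero' hc (by omega)
      have hcl : ∀ i, (nI (R.b i)).Coprime l := fun i => (hcopf i).coprime_dvd_right hlf1
      have hcopm : ∀ i, (nI (R.b i)).Coprime (f * l ^ (n + 1 + s) * p) := fun i =>
        ((hcopf i).mul_right ((hcl i).pow_right _)).mul_right (R.cop i).coprime_mul_right_right
      have hNL : ∃ (b : Ideal (OO A B)) (L : PeriodPair) (om : ℂ), IsNL b L om :=
        ⟨_, _, _, R.nl R.i0⟩
      have hmf : idl (A := A) (B := B) (f * l ^ (n + 1 + s) * p) ≤ idl (f * p) := by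
        rw [Ideal.span_singleton_le_span_singleton]
        push_cast
        exact mul_dvd_mul_right (dvd_mul_right _ _) _
      have hmM : idl (A := A) (B := B) (f * l ^ (n + 1 + s) * p) ≤ idl (l ^ (n + 1 + s)) := by
        rw [Ideal.span_singleton_le_span_singleton]
        push_cast
        exact (dvd_mul_left _ _).mul_right _
      -- the field is contained in the ray class field
      obtain ⟨i1, -, -, -, -, -, -, i8⟩ := hIAF A B hc T hNL _ hm0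
      have hD : ∀ y ∈ K ⊔ Bn (n + 1), y ∈ RF (idl (A := A) (B := B) (f * l ^ (n + 1 + s) * p)) := by
        have h1 := lvl hLAY hIAF l s hls A B hc T hNL (f * p) (mul_ne_zero hf0 hp.out.ne_zero) K hSub
          (n + 1) (Bn (n + 1)) (hlay (n + 1))
        have h2 : f * p * l ^ (n + 1 + s) = f * l ^ (n + 1 + s) * p := by ring
        rw [h2] at h1
        exact h1
      obtain ⟨a1, -, a3, a4, a5, a6, a7⟩ := hARF A B hc T hNL (idl (f * l ^ (n + 1 + s) * p)) hm0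
        (K ⊔ Bn (n + 1)) hn hD galL
      obtain ⟨x1, -⟩ := hXXF A B hc T (p * f) ι R (f * l ^ (n + 1 + s) * p) hm2 hcopm
        (K ⊔ Bn (n + 1)) hn hD galL
      obtain ⟨x, hx⟩ : ∃ x : OO A B, x = Quotient.out q.2 := ⟨_, rfl⟩
      have hxc : IsCoprime x (((f * l ^ (n + 1 + s) * p) : ℕ) : OO A B) := by
        rw [hx]
        exact hq.1
      rw [← hx]
      have hqe : (q.1, Ideal.Quotient.mk (idl (A := A) (B := B) (f * l ^ (n + 1 + s) * p)) x) =
          q := by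
        have h5 : Ideal.Quotient.mk (idl (A := A) (B := B) (f * l ^ (n + 1 + s) * p)) x = q.2 := by
          rw [hx]
          exact Quotient.out_eq q.2
        rw [h5]
      have hAR : AR hn (idl (f * l ^ (n + 1 + s) * p)) τ (sp x * cjI (R.b q.1)) := by
        refine (x1 τ q.1 x hxc).1 ?_
        rw [hqe]
        exact hq
      have hx0 : x ≠ 0 := by
        intro h0
        rw [h0, isCoprime_zero_left] at hxc
        obtain ⟨z, hz⟩ := hxc.exists_right_inv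
        exact Pool.Agent.NSI.Xmx.natCast_not_unit hm2 z hz
      have hb0 : R.b q.1 ≠ ⊥ := (R.nl q.1).b_ne
      have hspx : sp x ≠ ⊥ := by
        rwa [Ne, Ideal.span_singleton_eq_bot]
      obtain ⟨N, hNdef⟩ : ∃ N : ℕ, N = nI (sp x * cjI (R.b q.1)) := ⟨_, rfl⟩
      have hN : ((N : ℕ) : ℤ) = nm x * nI (R.b q.1) := by
        rw [hNdef, nI_mul hc hspx (cjI_ne_bot hc hb0), nI_sp hc hx0, nI_cjI hc hb0]
        push_cast
        rw [abs_of_nonneg (nm_nonneg hc x)]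
      -- the automorphism of `ℂ`
      obtain ⟨σ, hσ, hσe⟩ := hAR
      have hσz : ∀ z : ℂ, z ^ (l ^ (n + 1 + s)) = 1 → σ z = z ^ N := fun z hz => by
        rw [hNdef]
        exact (i8 (l ^ (n + 1 + s)) σ _ z hM0 hmM hσ hz).2
      have hNl : N.Coprime l := by
        have hζ : IsPrimitiveRoot (zt (l ^ (n + 1 + s))) (l ^ (n + 1 + s)) := Complex.isPrimitiveRoot_exp (l ^ (n + 1 + s)) hM0
        have h1 : IsPrimitiveRoot (σ (zt (l ^ (n + 1 + s)))) (l ^ (n + 1 + s)) := hζ.map_of_injective (f := σ) σ.injective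
        rw [hσz _ hζ.pow_eq_one] at h1
        have h2 := (hζ.pow_iff_coprime (Nat.pos_of_ne_zero hM0) N).1 h1
        exact h2.coprime_dvd_right (dvd_pow_self l (by omega))
      have hσB : ∀ y : Bn (n + 1), (σ : ℂ →+* ℂ) (y : ℂ) = (r₂ τ y : Bn (n + 1)) := by
        intro y
        have h1 := hσe ⟨(y : ℂ), (le_sup_right : Bn (n + 1) ≤ K ⊔ Bn (n + 1)) y.2⟩
        have h2 := hr2 τ y ⟨(y : ℂ), (le_sup_right : Bn (n + 1) ≤ K ⊔ Bn (n + 1)) y.2⟩ rfl
        rw [h2] at h1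
        exact h1
      have hψN := hψ3 (σ : ℂ →+* ℂ) N (r₂ τ) hNl hσz hσB
      have hARK : AR hK (idl (f * p)) (r₁ τ) (sp x * cjI (R.b q.1)) :=
        a6 K hK (idl (f * p)) hmf le_sup_left τ (r₁ τ) _ (fun y y' h => hr1 τ y y' h) ⟨σ, hσ, hσe⟩
      have hxfp : IsCoprime x ((f * p : ℕ) : OO A B) := by
        refine IsCoprime.of_isCoprime_of_dvd_right hxc ?_
        push_cast
        exact mul_dvd_mul_right (dvd_mul_right _ _) _
      have hΨ := e3 ⟨Y, hYr⟩ (r₁ τ) q.1 x hxfp hARK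
      have hcast : ((nm x * nI (R.b q.1) : ℤ) : ZMod (l ^ (n + 1 + s))) = ((N : ℕ) : ZMod (l ^ (n + 1 + s))) := by
        rw [← hN, Int.cast_natCast]
      have hth : thQ R (kp ⟨Y, hYr⟩) (eta ⟨Y, hYr⟩) ψ w (ee ⟨Y, hYr⟩) (bb ⟨Y, hYr⟩) q.1 x =
          ((X τ⁻¹ : ℂˣ) : ℂ) := by
        show kp ⟨Y, hYr⟩ q.1 * eta ⟨Y, hYr⟩ x *
          ψ ((nm x * nI (R.b q.1) : ℤ) : ZMod (l ^ (n + 1 + s))) * w x ^ (ee ⟨Y, hYr⟩ - 1) *
          w (star x) ^ bb ⟨Y, hYr⟩ = _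
        rw [hcast, hψN]
        have h6 : kp ⟨Y, hYr⟩ q.1 * eta ⟨Y, hYr⟩ x * (((X₂ (r₂ τ))⁻¹ : ℂˣ) : ℂ) *
            w x ^ (ee ⟨Y, hYr⟩ - 1) * w (star x) ^ bb ⟨Y, hYr⟩ =
            (kp ⟨Y, hYr⟩ q.1 * eta ⟨Y, hYr⟩ x * w x ^ (ee ⟨Y, hYr⟩ - 1) *
              w (star x) ^ bb ⟨Y, hYr⟩) * (((X₂ (r₂ τ))⁻¹ : ℂˣ) : ℂ) := by ring
        rw [h6, hΨ, ← Units.val_mul, ← mul_inv, ← hXY τ, map_inv]
      refine (congrArg (rsd V) hth).trans ?_
      obtain ⟨h4, h5⟩ := hXres τ⁻¹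
      unfold rsd
      rw [dif_pos h4, h5, map_inv]

end Pool.Agent.TWQ
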