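import Pool.Agent.TWQ.StU
import Pool.Agent.TWT.UNITA
import Pool.Agent.TWI.UNITI

/-!
# TWQ, module FAQ (helper39): the factor at `a` is a unit
-/

set_option autoImplicit false

open WeierstrassCurve Polynomial NumberField IsDedekindDomain

namespace Pool.Agent.TWQ

open _root_.MU3 Pool.Agent.MU3 Pool.Agent.MU3A Pool.Agent.MU3B Pool.Agent.MU3C Pool.Agent.RI
  Pool.Agent.RID
open Pool.Agent.MUX Pool.Agent.MUXU Pool.Agent.MUXW Pool.Agent.TWT Pool.Agent.TWI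
open Pool.Agent.MU3V (cls Sub GD algDF)
open Pool.Agent.MUXV (GR InK tX)
open OnePoint

noncomputable section

namespace FAQ

variable {p q : ℕ} {A B : ℤ} {P P' : Ideal (OO A B)} {V : ValuationSubring ℂ} {f : ℕ}

theorem star_nat (a : ℕ) : star ((a : ℕ) : OO A B) = (a : OO A B) := by
  ext <;> simp

theorem v_p_lt (hS : SetQ p q A B P P' V f) : V.valuation (p : ℂ) < 1 := by
  rcases hS.2 with ⟨h, -, -⟩ | ⟨h, -, -⟩
  · exact UNITI.v_p_lt h
  · exact UNITA.v_p_lt h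

theorem not_dvd (hS : SetQ p q A B P P' V f) (hp : p.Prime) : ¬ p ∣ q - 1 := by
  have hq : p ∣ q ∧ 1 ≤ q := by
    rcases hS.2 with ⟨-, -, rfl⟩ | ⟨-, -, rfl⟩
    · exact ⟨dvd_pow_self p (by norm_num), Nat.one_le_iff_ne_zero.2 (pow_ne_zero 2 hp.ne_zero)⟩
    · exact ⟨dvd_rfl, hp.one_le⟩
  intro h
  have h1 : p ∣ 1 := by
    have h2 : 1 = q - (q - 1) := by omega
    rw [h2]
    exact Nat.dvd_sub hq.1 h
  exact hp.one_lt.ne' (Nat.dvd_one.1 h1)

theorem th0 {n : ℕ} {ι : Type} {R : Reps A B n ι} {kp : ι → ℂ} {eta : OO A B → ℂ} {e b : ℕ}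
    (hC : ChQ p q f P P' R kp eta e b) {r : ℕ} (ψ : DirichletCharacter ℂ r)
    (x : OO A B) (m : ℤ) (hm : nm x = m) :
    thT R kp eta ψ R.i0 x = eta x * ψ (m : ZMod r) := by
  unfold thT
  rw [hC.kp0, R.b0, UNITA.nI_top, hm]
  push_cast
  rw [one_mul, mul_one]

end FAQ

open FAQ in
theorem t_FAQ (hIDQ : S_IDQ) (hTEQ : S_TEQ) : S_FAQ := by
  intro p q A B P P' V f hS n ι R w hw kp eta e b hC l hl hpl1 hlf a ha1 hac
  obtain ⟨⟨hcq, hpp, hp5, -, hPp, -, hf0, hpf, -, -, -⟩, hcP, -, -, -, -, -⟩ :=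
    hIDQ p q A B P P' V f hS
  obtain ⟨-, -, -, -, hroot, -, -, -⟩ := hTEQ p q A B P P' V f hS w hw
  obtain ⟨r, hr, -, hη⟩ := hC.fin
  have hv := v_p_lt hS
  have hpl : p ≠ l := fun h => hpf (h ▸ hlf)
  have haf : a.Coprime f := Nat.Coprime.coprime_dvd_right ⟨6 * p, by ring⟩ hac
  have hap : a.Coprime p := Nat.Coprime.coprime_dvd_right ⟨6 * f, by ring⟩ hac
  have hal : a.Coprime l := Nat.Coprime.coprime_dvd_right hlf haf
  have hla : ¬ (l : ℤ) ∣ (a : ℤ) := by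
    intro h
    have h1 : l ∣ a := by exact_mod_cast h
    have h2 := Nat.dvd_gcd h1 (dvd_refl l)
    rw [hal] at h2
    exact hl.one_lt.ne' (Nat.dvd_one.1 h2)
  have hpa : ¬ (p : ℤ) ∣ (a : ℤ) := by
    intro h
    have h1 : p ∣ a := by exact_mod_cast h
    have h2 := Nat.dvd_gcd h1 (dvd_refl p)
    rw [hap] at h2
    exact hpp.one_lt.ne' (Nat.dvd_one.1 h2)
  have ha2 : (a : ℤ) ^ 2 ≠ 1 := by
    intro h
    have h1 : (1 : ℤ) < a := by exact_mod_cast ha1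
    nlinarith
  have hr' : ¬ p ∣ r * (q - 1) := fun h =>
    (hpp.dvd_mul.1 h).elim hr (not_dvd hS hpp)
  obtain ⟨M₀, hM⟩ := Pool.Agent.TWX.t_FAC V p hpp hv l hl hpl hpl1 (r * (q - 1)) hr' a hla ha2
  refine ⟨M₀, fun M hM0 ψ hψ => ?_⟩
  have hcop : IsCoprime (sp ((a : ℕ) : OO A B)) (idl f : Ideal (OO A B)) := by
    rw [Ideal.isCoprime_span_singleton_iff]
    exact (Nat.isCoprime_iff_coprime.2 haf).map (Int.castRingHom (OO A B)) |> fun h => by
      simpa using h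
  have haP : ((a : ℕ) : OO A B) ∉ P := by
    intro h
    exact hpa ((hcP (a : ℤ)).1 (by simpa using h))
  have hwa := (hroot _ haP).1
  have hea := hη ((a : ℕ) : OO A B) ((hC.supp _).2 hcop)
  -- the root of unity
  set ξ : ℂ := eta ((a : ℕ) : OO A B) * w ((a : ℕ) : OO A B) ^ (e - 1 + b) with hξ
  have hξ1 : ξ ^ (r * (q - 1)) = 1 := by
    rw [hξ, mul_pow, pow_mul, hea, one_pow, one_mul, ← pow_mul,
      show (e - 1 + b) * (r * (q - 1)) = (q - 1) * ((e - 1 + b) * r) by ring, pow_mul, hwa,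
      one_pow]
  -- an inverse of `a²` modulo `p`
  obtain ⟨b', c, hbc⟩ : ∃ b c : ℤ, (a : ℤ) ^ 2 * b = 1 + p * c := by
    have h1 : IsCoprime ((a : ℤ) ^ 2) (p : ℤ) := (Nat.isCoprime_iff_coprime.2 hap).pow_left
    obtain ⟨u, v, huv⟩ := h1
    exact ⟨u, -v, by linear_combination huv⟩
  have hpb : ¬ (p : ℤ) ∣ b' := by
    intro h
    have h1 : (p : ℤ) ∣ 1 := by
      have h2 : (1 : ℤ) = (a : ℤ) ^ 2 * b' - p * c := by rw [hbc]; ring
      rw [h2]
      exact dvd_sub (h.mul_left _) (Dvd.intro _ rfl)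
    have h3 : p ∣ 1 := by exact_mod_cast h1
    exact hpp.one_lt.ne' (Nat.dvd_one.1 h3)
  have h1 := hM M hM0 ψ hψ ξ hξ1 b' hpb
  have hth : thQ R kp eta ψ w e b R.i0 ((a : ℕ) : OO A B) =
      ξ * ψ ((a : ℤ) : ZMod (l ^ M)) ^ 2 := by
    unfold thQ
    rw [th0 hC ψ _ ((a : ℤ) ^ 2) (by
      have := nm_intCast (A := A) (B := B) (a : ℤ)
      simpa using this), star_nat, hξ, pow_add]
    push_cast
    rw [map_pow]
    ring
  rw [hth]
  set X : ℂ := ξ * ψ ((a : ℤ) : ZMod (l ^ M)) ^ 2 with hX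
  have e1 : 1 - (a : ℂ) ^ 2 * X = -((a : ℂ) ^ 2 * (X - b')) + (1 - (a : ℂ) ^ 2 * b') := by ring
  have hint : ∀ z : ℤ, V.valuation (z : ℂ) ≤ 1 := fun z =>
    (V.valuation_le_one_iff _).2 (intCast_mem V z)
  have e2 : V.valuation (1 - (a : ℂ) ^ 2 * b') < 1 := by
    have h2 : 1 - (a : ℂ) ^ 2 * b' = (p : ℂ) * ((-c : ℤ) : ℂ) := by
      have : ((a : ℂ) ^ 2 * b') = 1 + p * c := by exact_mod_cast hbc
      rw [this]
      push_cast
      ring
    rw [h2, map_mul]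
    calc V.valuation (p : ℂ) * V.valuation ((-c : ℤ) : ℂ) ≤ V.valuation (p : ℂ) * 1 :=
          mul_le_mul' le_rfl (hint _)
      _ < 1 := by rw [mul_one]; exact hv
  have e3 : V.valuation ((a : ℂ) ^ 2) = 1 := by
    have h3 : V.valuation ((a : ℂ) ^ 2 * b') = 1 := by
      have h4 : (a : ℂ) ^ 2 * b' = 1 - (1 - (a : ℂ) ^ 2 * b') := by ring
      rw [h4]
      exact Valuation.map_one_sub_of_lt V.valuation e2
    rw [map_mul] at h3
    have h5 : V.valuation ((a : ℂ) ^ 2) ≤ 1 := by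
      have := hint ((a : ℤ) ^ 2)
      simpa using this
    refine le_antisymm h5 ?_
    by_contra h6
    rw [not_le] at h6
    have h7 : V.valuation ((a : ℂ) ^ 2) * V.valuation (b' : ℂ) < 1 :=
      calc V.valuation ((a : ℂ) ^ 2) * V.valuation (b' : ℂ) ≤ V.valuation ((a : ℂ) ^ 2) * 1 :=
            mul_le_mul' le_rfl (hint b')
        _ < 1 := by rw [mul_one]; exact h6
    exact absurd h3 h7.ne
  have e4 : V.valuation (-((a : ℂ) ^ 2 * (X - b'))) = 1 := by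
    rw [Valuation.map_neg, map_mul, e3, h1, one_mul]
  rw [e1, ← e4]
  exact Valuation.map_add_eq_of_lt_left V.valuation (e2.trans_eq e4.symm)

end

end Pool.Agent.TWQ
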