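import Pool.Agent.TWK.StK6

/-!
# TWQ, K side: block K for fields `K` which are ramified above `p` (helper60)

`SetE`: as `SetD` of `Pool/Agent/TWK/StK3.lean`, but the condition `om` (no `p`-th roots of unity in the `K B_n`) is replaced by: `[K' : k]` is prime to `p`.
`k ≤ K ≤ K'' ≤ K'`; `K'' = K H`, `K' = K H k(ζ_(2p))`, `H = RF ⊤`, `p ∤ [H : k]`.
-/

set_option autoImplicit false

open NumberField IsDedekindDomain Finset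
open scoped nonZeroDivisors Pointwise

namespace Pool.Agent.TWQ

open _root_.MU3 Pool.Agent.MU3 Pool.Agent.MU3A Pool.Agent.MU3B Pool.Agent.RI Pool.Agent.RID
  Pool.Agent.MUX Pool.Agent.MUXK Pool.Agent.MUXW Pool.Agent.MUXJ Pool.Agent.TWK
open Pool.Agent.MU3V (Sub GD)

/-- the fields of block K, `[K' : k]` prime to `p` -/
structure SetE (p l : ℕ) (k K K'' K' : IntermediateField ℚ ℂ) (B : ℕ → IntermediateField ℚ ℂ) :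
    Prop where
  bas : BasC l k K' B
  hk : k ≤ K
  le1 : K ≤ K''
  le2 : K'' ≤ K'
  cop : ¬ p ∣ Module.finrank k (IntermediateField.extendScalars bas.hk)
  ze : ∃ ζ ∈ K', IsPrimitiveRoot ζ (2 * p)

/-- (K4Q) `S_K4` for `SetE`. USES S_K3, S_SUBC, S_GALC, S_RAMC, S_LFT2, S_DEG2, S_NRM2, S_DSC2 (all proved). PROOF. `t_K4` with the norm in place of `S_PWL1`: `[K' B : K B]` is prime to `p`. -/
def S_K4Q : Prop := ∀ (p l : ℕ) [Fact p.Prime] [Fact l.Prime], p ≠ l →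
    ∀ (F : Type) [Field F] [CharP F p] [IsAlgClosed F]
    (k K K'' K' : IntermediateField ℚ ℂ) (B : ℕ → IntermediateField ℚ ℂ)
    [FiniteDimensional ℚ k] [FiniteDimensional ℚ K] [FiniteDimensional ℚ K'']
    [FiniteDimensional ℚ K'] [∀ n, FiniteDimensional ℚ ↥(K ⊔ B n)]
    [∀ n, FiniteDimensional ℚ ↥(K'' ⊔ B n)] [∀ n, FiniteDimensional ℚ ↥(K' ⊔ B n)],
    SetE p l k K K'' K' B →
    ∃ S' : Finset ℕ, 2 ∈ S' ∧ p ∈ S' ∧ (∀ ℓ ∈ S', ℓ.Prime) ∧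
    ∀ S : Finset ℕ, S' ⊆ S → (∀ ℓ ∈ S, ℓ.Prime) → ∃ n₀ : ℕ, ∀ n, n₀ ≤ n →
    ∀ (h : k ≤ K ⊔ B (n + 1)) (h' : k ≤ K'' ⊔ B (n + 1)),
    letI := algC h
    letI := algC h'
    ∀ (c : ↥(K'' ⊔ B (n + 1))) (c₀ : ↥(K ⊔ B (n + 1))), c ≠ 0 → SU S ↥(K'' ⊔ B (n + 1)) c →
    KolInP p k ↥(K'' ⊔ B (n + 1)) {g | ∀ x : ↥(K'' ⊔ B (n + 1)), (x : ℂ) ∈ K'' → g x = x} S c →
    (c₀ : ℂ) = ∏ᶠ g : NC h' (K ⊔ B (n + 1)),
      (((g : ↥(K'' ⊔ B (n + 1)) ≃ₐ[k] ↥(K'' ⊔ B (n + 1))) c : ↥(K'' ⊔ B (n + 1))) : ℂ) →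
    (∀ χ : (↥(K ⊔ B (n + 1)) ≃ₐ[k] ↥(K ⊔ B (n + 1))) →* Fˣ,
      (∃ g : ↥(K ⊔ B (n + 1)) ≃ₐ[k] ↥(K ⊔ B (n + 1)),
        (∀ x : ↥(K ⊔ B (n + 1)), (x : ℂ) ∈ K ⊔ B n → g x = x) ∧ χ g ≠ 1) →
      ∃ θ : F →+ ZMod p, ∀ y : ↥(K ⊔ B (n + 1)), y ^ p ≠ sE p χ θ c₀) →
    ∀ L : IntermediateField ℚ ℂ, k ≤ L → L ≤ K ⊔ B (n + 1) →
      padicValNat p (classNo L) = padicValNat p (classNo (L ⊓ (K ⊔ B n)))

/-- (K5Q) `S_K5` for `SetE`. USES K4Q, Sy_MEM, Sy_TOW, Sy_SUC, Sy_KOL. -/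
def S_K5Q : Prop := ∀ (p l : ℕ) [Fact p.Prime] [Fact l.Prime], p ≠ l →
    ∀ (F : Type) [Field F] [CharP F p] [IsAlgClosed F]
    (A B : ℤ), CQ A B → TorX A B → ∀ (N₀ : ℕ) (ι : Type) [Finite ι] (R : Reps A B N₀ ι)
    (K K'' K' : IntermediateField ℚ ℂ) (Bn : ℕ → IntermediateField ℚ ℂ)
    [FiniteDimensional ℚ (kk A B)] [FiniteDimensional ℚ K] [FiniteDimensional ℚ K'']
    [FiniteDimensional ℚ K'] [∀ n, FiniteDimensional ℚ ↥(K ⊔ Bn n)]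
    [∀ n, FiniteDimensional ℚ ↥(K'' ⊔ Bn n)] [∀ n, FiniteDimensional ℚ ↥(K' ⊔ Bn n)],
    SetE p l (kk A B) K K'' K' Bn → HasH A B K'' →
    ∀ (a : ℕ) (H : Finset ℂ), a ≠ 0 → IsHalf (R.L R.i0) a H → ∀ S₀ : Finset ℕ, ∃ n₀ : ℕ,
    ∀ n, n₀ ≤ n → ∀ m : ℕ, m ≠ 0 → ¬ ((m : ℕ) : OO A B) ∣ 2 → a.Coprime m →
    (∀ q : ℕ, q.Prime → q ∣ m → q ∈ S₀) →
    Sub (K'' ⊔ Bn (n + 1)) (RF (idl (A := A) (B := B) m)) →
    ∀ θ : (RF (idl (A := A) (B := B) m) : IntermediateField (kk A B) ℂ), θ ≠ 0 →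
    (θ : ℂ) = ThetaH (R.L R.i0) H (R.om R.i0 / emb ((m : ℕ) : OO A B)) →
    ∀ (h : kk A B ≤ K ⊔ Bn (n + 1)), letI := algC h
    ∀ c₀ : ↥(K ⊔ Bn (n + 1)), (c₀ : ℂ) = cW h θ →
    (∀ χ : (↥(K ⊔ Bn (n + 1)) ≃ₐ[kk A B] ↥(K ⊔ Bn (n + 1))) →* Fˣ,
      (∃ g : ↥(K ⊔ Bn (n + 1)) ≃ₐ[kk A B] ↥(K ⊔ Bn (n + 1)),
        (∀ x : ↥(K ⊔ Bn (n + 1)), (x : ℂ) ∈ K ⊔ Bn n → g x = x) ∧ χ g ≠ 1) →
      ∃ t : F →+ ZMod p, ∀ y : ↥(K ⊔ Bn (n + 1)), y ^ p ≠ sE p χ t c₀) →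
    ∀ L : IntermediateField ℚ ℂ, kk A B ≤ L → L ≤ K ⊔ Bn (n + 1) →
      padicValNat p (classNo L) = padicValNat p (classNo (L ⊓ (K ⊔ Bn n)))

/-- (SETQ) the fields `K'' = K H`, `K' = K H k(ζ_(2p))`, both `≤ RF (idl (f p))`; `p ∤ [H : k]`. -/
def S_SETQ : Prop := ∀ (p l : ℕ) [Fact p.Prime] [Fact l.Prime] (h f : ℕ), 5 ≤ p → ¬ p ∣ f →
    f ≠ 0 → 2 ∣ f → l ∣ f →
    ∀ (A B : ℤ), CQ A B → TorX A B → NLex A B →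
    ¬ p ∣ Module.finrank (kk A B) (RF (⊤ : Ideal (OO A B)) : IntermediateField (kk A B) ℂ) →
    ∀ (K : IntermediateField ℚ ℂ) [FiniteDimensional ℚ K] [FiniteDimensional ℚ (kk A B)]
    (hk : kk A B ≤ K), ¬ p ∣ Module.finrank (kk A B) (IntermediateField.extendScalars hk) →
    Sub K (RF (idl (f * p)) : IntermediateField (kk A B) ℂ) →
    ∀ (Bn : ℕ → IntermediateField ℚ ℂ), (∀ n, IsLayer l n (Bn n)) → Monotone Bn →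
    (∀ n, Sub (K ⊔ Bn n) (RF (idl (f * l ^ (n + h) * p)) : IntermediateField (kk A B) ℂ)) →
    ∃ (K'' K' : IntermediateField ℚ ℂ), FiniteDimensional ℚ K'' ∧ FiniteDimensional ℚ K' ∧
      SetE p l (kk A B) K K'' K' Bn ∧ HasH A B K'' ∧
      ∀ n, Sub (K'' ⊔ Bn n) (RF (idl (f * l ^ (n + h) * p)) : IntermediateField (kk A B) ℂ)

/-- (FN1Q) block K combined with the unit theorem, as `S_FIN1`, `K` ramified above `p`. -/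
def S_FN1Q : Prop := ∀ (p l : ℕ) [Fact p.Prime] [Fact l.Prime] (h f : ℕ), 5 ≤ p → ¬ p ∣ f →
    f ≠ 0 → 2 ∣ f → l ∣ f →
    ∀ (A B : ℤ), CQ A B → TorX A B →
    ¬ p ∣ Module.finrank (kk A B) (RF (⊤ : Ideal (OO A B)) : IntermediateField (kk A B) ℂ) →
    ∀ V : ValuationSubring ℂ, V.valuation (p : ℂ) < 1 →
    ∀ (N₀ : ℕ) (ι : Type) [Finite ι] (R : Reps A B N₀ ι)
    (K : IntermediateField ℚ ℂ) [FiniteDimensional ℚ K] [FiniteDimensional ℚ (kk A B)]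
    (hk : kk A B ≤ K), ¬ p ∣ Module.finrank (kk A B) (IntermediateField.extendScalars hk) →
    Sub K (RF (idl (f * p)) : IntermediateField (kk A B) ℂ) →
    ∀ (Bn : ℕ → IntermediateField ℚ ℂ) [∀ n, FiniteDimensional ℚ ↥(K ⊔ Bn n)],
    (∀ n, IsLayer l n (Bn n)) → Monotone Bn →
    (∀ n, Sub (K ⊔ Bn n) (RF (idl (f * l ^ (n + h) * p)) : IntermediateField (kk A B) ℂ)) →
    ∃ (a : ℕ) (H : Finset ℂ), 1 < a ∧ a.Coprime (6 * f * p) ∧ IsHalf (R.L R.i0) a H ∧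
      ∃ n₁ : ℕ, ∀ n, n₁ ≤ n → ∀ b : ℕ, (∀ s < b, UnitAt p l h f V R H K Bn (n + s)) →
      ∀ L : IntermediateField ℚ ℂ, kk A B ≤ L → L ≤ K ⊔ Bn (n + b) →
        padicValNat p (classNo L) = padicValNat p (classNo (L ⊓ (K ⊔ Bn n)))

end Pool.Agent.TWQ
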