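import Pool.Agent.TWQ.DefU
import Pool.Agent.TWQ.StQ3

/-!
# TWQ, module FINQ (helper60): from the unit theorem to the class numbers
-/

set_option autoImplicit false

open NumberField IsDedekindDomain

namespace Pool.Agent.TWQ

open _root_.MU3 Pool.Agent.MU3 Pool.Agent.MU3A Pool.Agent.MU3B Pool.Agent.RI Pool.Agent.RID
  Pool.Agent.MUX Pool.Agent.MUXK Pool.Agent.MUXW Pool.Agent.MUXJ Pool.Agent.TWT Pool.Agent.TWI
  Pool.Agent.TWK Pool.Agent.TWR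
open Pool.Agent.MU3V (Sub GD)

theorem setQ_bas {p q : ℕ} {A B : ℤ} {P P' : Ideal (OO A B)} {V : ValuationSubring ℂ} {f : ℕ}
    (h : SetQ p q A B P P' V f) : CQ A B ∧ p.Prime ∧ 5 ≤ p ∧ ¬ p ∣ f ∧ f ≠ 0 ∧
      2 * absD A B ∣ (f : ℤ) ∧ V.valuation (p : ℂ) < 1 := by
  have key : ∀ {V : ValuationSubring ℂ}, OverI V P → ((p : ℕ) : OO A B) ∈ P →
      V.valuation (p : ℂ) < 1 := by
    intro V hV h1
    have h2 := (hV _).2 h1
    rw [ValuationSubring.mem_nonunits_iff] at h2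
    have h3 : emb ((p : ℕ) : OO A B) = (p : ℂ) := by
      unfold emb
      simp
    rwa [h3] at h2
  obtain ⟨-, ⟨hS, -, -⟩ | ⟨hS, -, -⟩⟩ := h
  · refine ⟨hS.cq, hS.pp, hS.p5, hS.fp, hS.f0, hS.fD, key hS.hV ?_⟩
    rw [hS.eP]
    exact Ideal.mem_span_singleton_self _
  · exact ⟨hS.cq, hS.pp, hS.p5, hS.fp, hS.f0, hS.fD, key hS.hV hS.hP.mem⟩

theorem t_FINQ (hF : S_FN1Q) (hU : S_UNQ) : S_FINQ := by
  intro l g h hgen p q A B P P' V f hS hlf T hpH ι _ R hR hR' K _ _ hk hcop hKf Bn _ hlay hmono hsub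
  obtain ⟨hcq, hpp, hp5, hfp, hf0, hfD, hV⟩ := setQ_bas hS
  have hp : Fact p.Prime := ⟨hpp⟩
  have hl : l.Prime := by
    rcases hgen with h1 | h1
    · rw [h1.1]; exact Nat.prime_three
    · rw [h1.1]; exact Nat.prime_two
  have hlF : Fact l.Prime := ⟨hl⟩
  have hh : h ≠ 0 := by
    rcases hgen with h1 | h1 <;> omega
  have hlf' : l ∣ f := (dvd_pow_self l hh).trans hlf
  have h2f : 2 ∣ f := by
    have h1 : (2 : ℤ) ∣ (f : ℤ) := (Dvd.intro _ rfl).trans hfD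
    exact_mod_cast h1
  obtain ⟨a, H, ha1, hacop, hH, n₁, hn₁⟩ := hF p l h f hp5 hfp hf0 h2f hlf' A B hcq T hpH V hV
    (p * f) ι R K hk hcop hKf Bn hlay hmono hsub
  obtain ⟨n₂, hn₂⟩ := hU l g h hgen p q A B P P' V f hS hlf T ι R hR hR' K hk hcop hKf Bn hlay hmono
    hsub a ha1 hacop H hH
  refine ⟨n₁ + n₂, fun n hn b => ?_⟩
  exact hn₁ n (by omega) b fun s _ => hn₂ (n + s) (by omega)

end Pool.Agent.TWQ
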