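import Pool.Agent.TWQ.StQ3
import Pool.Agent.TWK.K5

/-!
# TWQ, module K5Q (helper60): block K in the vocabulary of the elliptic units, `SetE`
-/

set_option autoImplicit false

open NumberField IsDedekindDomain Finset
open scoped nonZeroDivisors Pointwise

namespace Pool.Agent.TWQ

open _root_.MU3 Pool.Agent.MU3 Pool.Agent.MU3A Pool.Agent.MU3B Pool.Agent.RI Pool.Agent.RID
  Pool.Agent.MUX Pool.Agent.MUXK Pool.Agent.MUXW Pool.Agent.TWK
open Pool.Agent.MU3V (Sub GD)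

open K5x in
theorem t_K5Q (hK4 : S_K4Q) (hMEM : Sy_MEM) (hTOW : Sy_TOW) (hSUC : Sy_SUC) (hKOL : Sy_KOL) :
    S_K5Q := by
  intro p l _ _ hpl F _ _ _ A B hc T N₀ ι _ R K K'' K' Bn _ _ _ _ _ _ _ hD hHK a H ha hhalf S₀
  have hnl : IsNL (⊤ : Ideal (OO A B)) (R.L R.i0) (R.om R.i0) := by
    have h1 := R.nl R.i0
    rw [R.b0] at h1
    exact h1
  obtain ⟨S', h2', hp', hS', hmain⟩ := hK4 p l hpl F (kk A B) K K'' K' Bn hD
  obtain ⟨n0, hn0, hSUC'⟩ := hSUC A B hc T (R.L R.i0) (R.om R.i0) hnl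
  obtain ⟨n1, hn1, hKOL'⟩ := hKOL A B hc T N₀ ι R
  have haZ : (a : ℤ) ≠ 0 := by exact_mod_cast ha
  set S : Finset ℕ := S' ∪ S₀.filter Nat.Prime ∪ n0.primeFactors ∪ n1.primeFactors ∪
    a.primeFactors with hSdef
  have hSprime : ∀ q ∈ S, q.Prime := by
    intro q hq
    rw [hSdef] at hq
    simp only [Finset.mem_union, Finset.mem_filter] at hq
    rcases hq with (((h | h) | h) | h) | h
    · exact hS' q h
    · exact h.2
    all_goals exact Nat.prime_of_mem_primeFactors h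
  have hSS : S' ⊆ S := by
    intro q hq
    rw [hSdef]
    simp only [Finset.mem_union]
    exact Or.inl (Or.inl (Or.inl (Or.inl hq)))
  have hS0 : ∀ q : ℕ, q.Prime → q ∣ n0 → q ∈ S := by
    intro q hq hd
    rw [hSdef]
    simp only [Finset.mem_union]
    exact Or.inl (Or.inl (Or.inr (Nat.mem_primeFactors.2 ⟨hq, hd, hn0⟩)))
  have hS1 : ∀ q : ℕ, q.Prime → q ∣ n1 → q ∈ S := by
    intro q hq hd
    rw [hSdef]
    simp only [Finset.mem_union]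
    exact Or.inl (Or.inr (Nat.mem_primeFactors.2 ⟨hq, hd, hn1⟩))
  have hSa : ∀ q : ℕ, q.Prime → (q : ℤ) ∣ (a : ℤ) → q ∈ S := by
    intro q hq hd
    have h1 : q ∣ a := by exact_mod_cast hd
    rw [hSdef]
    simp only [Finset.mem_union]
    exact Or.inr (Nat.mem_primeFactors.2 ⟨hq, h1, ha⟩)
  obtain ⟨n₀, hn₀⟩ := hmain S hSS hSprime
  refine ⟨n₀, ?_⟩
  intro n hn m hm hm2 ham hmS hsub θ hθ0 hθ h
  let i1 : Algebra (kk A B) ↥(K ⊔ Bn (n + 1)) := algC h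
  intro c₀ hc₀ hchi
  have hSm : ∀ q : ℕ, q.Prime → (q : ℤ) ∣ nm ((m : ℕ) : OO A B) → q ∈ S := by
    intro q hq hd
    rw [nm_nat] at hd
    have h1 : (q : ℤ) ∣ (m : ℤ) := (Nat.prime_iff_prime_int.1 hq).dvd_of_dvd_pow hd
    have h2 : q ∣ m := by exact_mod_cast h1
    rw [hSdef]
    simp only [Finset.mem_union, Finset.mem_filter]
    exact Or.inl (Or.inl (Or.inl (Or.inr ⟨hmS q hq h2, hq⟩)))
  have hcopO : IsCoprime ((a : ℤ) : OO A B) ((m : ℕ) : OO A B) := by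
    obtain ⟨u, v, huv⟩ : IsCoprime ((a : ℕ) : ℤ) ((m : ℕ) : ℤ) := Nat.isCoprime_iff_coprime.2 ham
    refine ⟨((u : ℤ) : OO A B), ((v : ℤ) : OO A B), ?_⟩
    have := congrArg (fun k : ℤ => ((k : ℤ) : OO A B)) huv
    simpa using this
  have hmu : ¬ IsUnit ((m : ℕ) : OO A B) := fun hu => hm2 (hu.dvd)
  have hhalf' : IsHalf (R.L R.i0) ((a : ℤ) : ℂ) H := by
    rw [Int.cast_natCast]
    exact hhalf
  have h' : kk A B ≤ K'' ⊔ Bn (n + 1) := h.trans (sup_le_sup_right hD.le1 _)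
  let i2 : Algebra (kk A B) ↥(K'' ⊔ Bn (n + 1)) := algC h'
  have hle : K ⊔ Bn (n + 1) ≤ K'' ⊔ Bn (n + 1) := sup_le_sup_right hD.le1 _
  have fin := T.fin _ (idl_ne (A := A) (B := B) hm)
  have gal := T.gal _ (idl_ne (A := A) (B := B) hm)
  have com := T.comm _ (idl_ne (A := A) (B := B) hm)
  have hM := hMEM A B (RF (idl (A := A) (B := B) m)) fin gal com (K'' ⊔ Bn (n + 1)) h' hsub θ hθ0
  have hmem : cW h' θ ∈ K'' ⊔ Bn (n + 1) := by
    rw [hM.1]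
    exact (hM.2.1 _).1
  have hne : cW h' θ ≠ 0 := by
    rw [hM.1]
    exact (hM.2.1 _).2
  have hHas : HasH A B (K'' ⊔ Bn (n + 1)) := fun x hx =>
    (le_sup_left : K'' ≤ K'' ⊔ Bn (n + 1)) (hHK x hx)
  refine hn₀ n hn h h' ⟨cW h' θ, hmem⟩ c₀ ?_ ?_ ?_ ?_ hchi
  · intro h0
    exact hne (congrArg Subtype.val h0)
  · exact hSUC' _ (natO_ne hm) hmu (a : ℤ) H haZ hcopO hhalf' S hS0 hSa hSm θ hθ
      (K'' ⊔ Bn (n + 1)) h' hsub _ rfl
  · have h1 := hKOL' p Fact.out _ (natO_ne hm) hm2 (a : ℤ) H haZ hcopO hhalf' S hS1 hSa hSm θ hθ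
      (K'' ⊔ Bn (n + 1)) h' hHas hsub ⟨cW h' θ, hmem⟩ rfl
    refine KolInP.mono ?_ h1
    intro g hg x hx
    exact hg x (hHK _ hx)
  · rw [hc₀]
    exact hTOW A B (RF (idl (A := A) (B := B) m)) fin gal com (K ⊔ Bn (n + 1)) (K'' ⊔ Bn (n + 1))
      h h' hle hsub θ hθ0 hmem

end Pool.Agent.TWQ
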