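import Pool.Agent.TWQ.StQ3
import Pool.Agent.TWK.OMP
import Pool.Agent.TWK.SUBC
import Pool.Agent.TWF.END1
import Pool.Agent.TWF.COR

/-!
# TWQ, module SETQ (helper60): the fields `K'' = K H`, `K' = K H k(ζ_(2p))`
-/

set_option autoImplicit false

open NumberField IsDedekindDomain

namespace Pool.Agent.TWQ

open _root_.MU3 Pool.Agent.MU3 Pool.Agent.MU3A Pool.Agent.MU3B Pool.Agent.RI Pool.Agent.RID
  Pool.Agent.MUX Pool.Agent.MUXK Pool.Agent.MUXW Pool.Agent.MUXJ Pool.Agent.TWK
open Pool.Agent.MU3V (Sub GD)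

open OMPx in
theorem t_SETQ : S_SETQ := by
  intro p l hp hl h f h5 hpf hf0 h2f hlf A B hc T hNL hpH K _ hfk hk hcop hKf Bn hlay hmono hsub
  have hpp : p.Prime := hp.out
  have hlp : l.Prime := hl.out
  have hfp0 : f * p ≠ 0 := mul_ne_zero hf0 hpp.ne_zero
  set F1 : IntermediateField (kk A B) ℂ := RF (⊤ : Ideal (OO A B)) with hF1
  set F2 : IntermediateField (kk A B) ℂ := RF (idl (A := A) (B := B) (f * p)) with hF2
  have hF12 : F1 ≤ F2 := T.mono _ _ le_top
  have htop : (⊤ : Ideal (OO A B)) ≠ ⊥ := by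
    intro h0
    have h1 : ((1 : ℕ) : OO A B) ∈ (⊤ : Ideal (OO A B)) := Submodule.mem_top
    rw [h0, Ideal.mem_bot] at h1
    exact natO_ne one_ne_zero h1
  have hfin1 : FiniteDimensional (kk A B) F1 := T.fin _ htop
  have hfin2 : FiniteDimensional (kk A B) F2 := T.fin _ (idl_ne hfp0)
  have hfd1 : FiniteDimensional ℚ (F1.restrictScalars ℚ) := by
    have : FiniteDimensional ℚ F1 := FiniteDimensional.trans ℚ (kk A B) F1
    exact this
  have hfd2 : FiniteDimensional ℚ (F2.restrictScalars ℚ) := by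
    have : FiniteDimensional ℚ F2 := FiniteDimensional.trans ℚ (kk A B) F2
    exact this
  have hk1 : kk A B ≤ F1.restrictScalars ℚ := fun x hx => F1.algebraMap_mem ⟨x, hx⟩
  have hk2 : kk A B ≤ F2.restrictScalars ℚ := fun x hx => F2.algebraMap_mem ⟨x, hx⟩
  have he1 : IntermediateField.extendScalars hk1 = F1 := SetLike.ext fun x => Iff.rfl
  have he2 : IntermediateField.extendScalars hk2 = F2 := SetLike.ext fun x => Iff.rfl
  have h12 : F1.restrictScalars ℚ ≤ F2.restrictScalars ℚ := fun x hx => hF12 hx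
  have hK2 : K ≤ F2.restrictScalars ℚ := fun x hx => hKf x hx
  have h2p : 2 * p ∣ f * p := Nat.mul_dvd_mul_right h2f p
  have h2p0 : 2 * p ≠ 0 := mul_ne_zero two_ne_zero hpp.ne_zero
  obtain ⟨ζ, hζ⟩ : ∃ ζ : ℂ, IsPrimitiveRoot ζ (2 * p) := ⟨_, Complex.isPrimitiveRoot_exp _ h2p0⟩
  have hζm : ζ ∈ F2 := zeta_mem T hNL h2p0 hfp0 h2p hζ.pow_eq_one
  -- the cyclotomic field
  set Z : IntermediateField ℚ ℂ := IntermediateField.adjoin ℚ {ζ} with hZ
  have hne : NeZero (2 * p) := ⟨h2p0⟩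
  have hζi : IsIntegral ℚ ζ := (hζ.isIntegral (Nat.pos_of_ne_zero h2p0)).tower_top
  have hcyc : IsCyclotomicExtension {2 * p} ℚ Z := by
    change IsCyclotomicExtension {2 * p} ℚ (IntermediateField.adjoin ℚ {ζ}).toSubalgebra
    rw [IntermediateField.adjoin_simple_toSubalgebra_of_isAlgebraic hζi.isAlgebraic]
    exact hζ.adjoin_isCyclotomicExtension ℚ
  have hZfin : FiniteDimensional ℚ Z := IsCyclotomicExtension.finiteDimensional {2 * p} ℚ Z
  have hZgal : IsGalois ℚ Z := IsCyclotomicExtension.isGalois {2 * p} ℚ Z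
  have hZdeg : Module.finrank ℚ Z = p - 1 := by
    rw [IsCyclotomicExtension.finrank (n := 2 * p) Z
      (Polynomial.cyclotomic.irreducible_rat (Nat.pos_of_ne_zero h2p0))]
    have h2c : Nat.Coprime 2 p := by
      rw [Nat.coprime_primes Nat.prime_two hpp]
      omega
    rw [Nat.totient_mul h2c, Nat.totient_prime hpp, Nat.totient_two, one_mul]
  have hZ2 : Z ≤ F2.restrictScalars ℚ := by
    rw [hZ, IntermediateField.adjoin_le_iff, Set.singleton_subset_iff]
    exact hζm
  set K1 : IntermediateField ℚ ℂ := K ⊔ F1.restrictScalars ℚ with hK1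
  set K3 : IntermediateField ℚ ℂ := K1 ⊔ Z with hK3
  have hfdK1 : FiniteDimensional ℚ K1 := IntermediateField.finiteDimensional_sup K _
  have hfdK3 : FiniteDimensional ℚ K3 := IntermediateField.finiteDimensional_sup K1 Z
  have le1 : K ≤ K1 := le_sup_left
  have le2 : K1 ≤ K3 := le_sup_left
  have le3 : K3 ≤ F2.restrictScalars ℚ := sup_le (sup_le hK2 h12) hZ2
  have hk3 : kk A B ≤ K3 := hk.trans (le1.trans le2)
  have hbas2 : BasC l (kk A B) (F2.restrictScalars ℚ) Bn := by
    refine ⟨hk2, ?_, ?_, hlay, hmono⟩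
    · rw [he2]
      exact T.gal _ (idl_ne hfp0)
    · rw [he2]
      exact T.comm _ (idl_ne hfp0)
  have hbas : BasC l (kk A B) K3 Bn := t_SUBC l (kk A B) K3 (F2.restrictScalars ℚ) Bn hbas2 hk3 le3
  -- the degrees
  obtain ⟨-, a2⟩ := BCH_thm.1 (kk A B) (F1.restrictScalars ℚ) K K K1 hk1 le1
    (sup_eq_right.2 hk).symm (sup_comm _ _) (by rw [he1]; exact T.gal _ htop)
  obtain ⟨g1, g2⟩ := Pool.Agent.TWF.bot_data hZgal
  obtain ⟨-, b2⟩ := BCH_thm.1 ⊥ Z K1 K1 K3 bot_le le2 (bot_sup_eq _).symm (sup_comm _ _) g1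
  rw [g2, hZdeg] at b2
  rw [he1] at a2
  have hcop3 : ¬ p ∣ Module.finrank (kk A B) (IntermediateField.extendScalars hbas.hk) := by
    have e0 := Pool.Agent.TWF.deg_mul hk
    have e1 := Pool.Agent.TWF.deg_mul le1
    have e2 := Pool.Agent.TWF.deg_mul le2
    have e3 := Pool.Agent.TWF.deg_mul hk3
    have hpos : 0 < Module.finrank ℚ (kk A B) := Module.finrank_pos
    have e4 : Module.finrank (kk A B) (IntermediateField.extendScalars hk3) =
        Module.finrank (kk A B) (IntermediateField.extendScalars hk) *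
          Module.finrank K (IntermediateField.extendScalars le1) *
          Module.finrank K1 (IntermediateField.extendScalars le2) := by
      apply Nat.eq_of_mul_eq_mul_left hpos
      rw [e3, ← e2, ← e1, ← e0]
      ring
    change ¬ p ∣ Module.finrank (kk A B) (IntermediateField.extendScalars hk3)
    rw [e4]
    intro hd
    rcases (Nat.Prime.dvd_mul hpp).1 hd with hd | hd
    · rcases (Nat.Prime.dvd_mul hpp).1 hd with hd | hd
      · exact hcop hd
      · exact hpH (hd.trans a2)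
    · have h6 := Nat.le_of_dvd (by omega) (hd.trans b2)
      omega
  refine ⟨K1, K3, hfdK1, hfdK3, ⟨hbas, hk, le1, le2, hcop3, ζ, ?_, hζ⟩, ?_, ?_⟩
  · exact (le_sup_right : Z ≤ K3) (IntermediateField.mem_adjoin_simple_self ℚ ζ)
  · intro x hx
    exact (le_sup_right : F1.restrictScalars ℚ ≤ K1) hx
  · intro n
    have hle : K1 ⊔ Bn n ≤
        (RF (idl (A := A) (B := B) (f * l ^ (n + h) * p))).restrictScalars ℚ := by
      refine sup_le (sup_le (fun x hx => ?_) (fun x hx => ?_)) (fun x hx => ?_)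
      · exact hsub n x ((le_sup_left : K ≤ K ⊔ Bn n) hx)
      · exact T.mono _ _ le_top hx
      · exact hsub n x ((le_sup_right : Bn n ≤ K ⊔ Bn n) hx)
    exact fun x hx => hle hx

end Pool.Agent.TWQ
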