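import Pool.Agent.TWQ.ENDQ
import Pool.Agent.TWQ.FINQ
import Pool.Agent.TWQ.FN1Q
import Pool.Agent.TWQ.K4Q
import Pool.Agent.TWQ.K5Q
import Pool.Agent.TWQ.SETQ
import Pool.Agent.TWQ.FACQ
import Pool.Agent.TWQ.ANYQ
import Pool.Agent.TWF.Asm
import Pool.Agent.TWF.URE

/-!
# TWQ: Theorem C for every finite abelian `K / k` and all primes outside a finite set, from `S_UNQ` (helper51)
-/

set_option autoImplicit false

open NumberField IsDedekindDomain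

namespace Pool.Agent.TWQ

open _root_.MU3 Pool.Agent.MU3 Pool.Agent.MU3A Pool.Agent.MU3B Pool.Agent.RI Pool.Agent.RID
  Pool.Agent.MUX Pool.Agent.MUXJ Pool.Agent.MUXY Pool.Agent.TWT Pool.Agent.TWK Pool.Agent.MUXW
  Pool.Agent.MUXI Pool.Agent.MUXZ Pool.Agent.TWF

theorem a_FACQ : S_FACQ :=
  t_FACQ MUXI.i_ARF MUXI.i_IAF MUXI.i_XXF MUXI.i_LAY MUXF.xf_NIM MUXJ.j_GAL

theorem a_K4Q : S_K4Q := t_K4Q k_K3 t_SUBC t_GALC t_RAMC k_LFT2 t_DEG2 t_NRM2 t_DSC2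

theorem a_K5Q : S_K5Q := t_K5Q a_K4Q z_MEM z_TOW z_SUC z_KOL

theorem a_FN1Q : S_FN1Q := t_FN1Q t_SETQ a_K5Q z_MEM (tz_THN z_THG)

theorem a_FINQ (hU : S_UNQ) : S_FINQ := t_FINQ a_FN1Q hU

/-- all primes outside a finite set, with `E`, `[K : k]` prime to `p`, no condition on the ramification -/
theorem lastQ (hU : S_UNQ) (k : IntermediateField ℚ ℂ)
    (h2 : Module.finrank ℚ k = 2) (hi : ∃ z ∈ k, (starRingEnd ℂ) z ≠ z)
    (h4 : ∀ z ∈ k, z ^ 2 ≠ -1) (h3 : ∀ z ∈ k, z ^ 2 ≠ -3) :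
    ∃ S : Finset ℕ, ∀ p : ℕ, p.Prime → p ∉ S → StPQ k p :=
  finalQ Pool.Agent.TWF.t_URE (a_FINQ hU) MUXI.i_LAY MUXI.i_IAF MUXY.z_REX MUXY.z_NLE MUXC.c_TOR z_GRB
    MUXV.q_ALU Pool.Agent.JT.j_JTR Pool.Agent.JT.j_JQF MUXJ.j_DIR MUXJ.j_LAY k h2 hi h4 h3

theorem StPQ.toR {k : IntermediateField ℚ ℂ} {p : ℕ} (h : StPQ k p) :
    Pool.Agent.TWD.StR (fun _ => True) k p := by
  intro K fdK hk hG hab hd _ E fdE hE hGE hcE l hl
  obtain ⟨n₀, h0⟩ := h K hk hG hab hd E hE hGE hcE l hl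
  exact ⟨n₀, fun B₀ hB₀ n hn B hB L hkL hL m Q hQ => (h0 B₀ hB₀).2 n hn B hB L hkL hL m Q hQ⟩

/-- The final statement for the field `k` and the prime `p`: every finite abelian `K / k`, every finite
Galois extension `E / k` of `p`-power degree. -/
def StA (k : IntermediateField ℚ ℂ) (p : ℕ) : Prop :=
  ∀ (K : IntermediateField ℚ ℂ) [FiniteDimensional ℚ K] (hk : k ≤ K),
    IsGalois k (IntermediateField.extendScalars hk) →
    (∀ σ τ : (IntermediateField.extendScalars hk) ≃ₐ[k] (IntermediateField.extendScalars hk),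
      σ * τ = τ * σ) →
    ∀ (E : IntermediateField ℚ ℂ) [FiniteDimensional ℚ E] (hE : k ≤ E),
    IsGalois k (IntermediateField.extendScalars hE) →
    (∃ c : ℕ, Module.finrank k (IntermediateField.extendScalars hE) = p ^ c) →
    ∀ l : ℕ, (l = 2 ∨ l = 3) → ∃ n₀ : ℕ, ∀ B₀ : IntermediateField ℚ ℂ, IsLayer l n₀ B₀ →
      (∀ a : ℕ, ¬ l ^ (a + 1) ∣ Module.finrank k (IntermediateField.extendScalars hk) →
        ∀ n : ℕ, n₀ + a ≤ n → ∀ B B' : IntermediateField ℚ ℂ, IsLayer l n B →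
        IsLayer l (n + 1) B' → ∀ (L : IntermediateField ℚ ℂ) (hL : k ≤ L),
        L ≤ K ⊔ B' → ¬ L ≤ K ⊔ B →
        IsCyclic ((IntermediateField.extendScalars hL) ≃ₐ[k]
          (IntermediateField.extendScalars hL)) →
        ∀ (L₁ : IntermediateField ℚ ℂ) (h₁ : k ≤ L₁) (h₂ : L₁ ≤ L),
        ¬ l ∣ Module.finrank k (IntermediateField.extendScalars h₁) →
        (∃ e : ℕ, Module.finrank L₁ (IntermediateField.extendScalars h₂) = l ^ e) →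
        ∀ (m : ℕ) (Q : IntermediateField ℚ ℂ), IsLayer p m Q →
          padicValNat p (classNo (L ⊔ E ⊔ Q)) = padicValNat p (classNo (L₁ ⊔ B₀ ⊔ E ⊔ Q))) ∧
      ∀ n : ℕ, n₀ ≤ n → ∀ B : IntermediateField ℚ ℂ, IsLayer l n B →
        ∀ L : IntermediateField ℚ ℂ, k ≤ L → L ≤ K ⊔ B →
        ∀ (m : ℕ) (Q : IntermediateField ℚ ℂ), IsLayer p m Q →
          padicValNat p (classNo (L ⊔ E ⊔ Q)) =
            padicValNat p (classNo ((L ⊓ (K ⊔ B₀)) ⊔ E ⊔ Q))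

/-- Theorem C: every finite abelian `K / k`, all primes outside a finite set. -/
theorem lastA (hU : S_UNQ) (k : IntermediateField ℚ ℂ)
    (h2 : Module.finrank ℚ k = 2) (hi : ∃ z ∈ k, (starRingEnd ℂ) z ≠ z)
    (h4 : ∀ z ∈ k, z ^ 2 ≠ -1) (h3 : ∀ z ∈ k, z ^ 2 ≠ -3) :
    ∃ S : Finset ℕ, ∀ p : ℕ, p.Prime → p ∉ S → StA k p := by
  obtain ⟨S, hS⟩ := lastQ hU k h2 hi h4 h3
  refine ⟨insert 2 (insert 3 S), fun p hp hpS => ?_⟩
  rw [Finset.mem_insert, Finset.mem_insert] at hpS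
  push Not at hpS
  have h := any_of MUXJ.j_LAY (fun _ => True) (fun _ _ _ _ _ => trivial) k p hp hpS.1 hpS.2.1
    (hS p hp hpS.2.2).toR
  intro K fdK hk hG hab E fdE hE hGE hdE l hl
  exact h K hk hG hab trivial E hE hGE hdE l hl

end Pool.Agent.TWQ
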