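import Pool.Agent.TWQ.StQ1
import Pool.Agent.TWI.AAll

/-!
# TWQ, module LOQI (helper48): local expansions, inert `p`
-/

set_option autoImplicit false

open WeierstrassCurve Polynomial NumberField IsDedekindDomain

namespace Pool.Agent.TWQ

open _root_.MU3 Pool.Agent.MU3A Pool.Agent.MU3B Pool.Agent.MU3C Pool.Agent.RI Pool.Agent.RID
open Pool.Agent.MUX Pool.Agent.MUXU Pool.Agent.MUXW Pool.Agent.TWT Pool.Agent.TWI
open Pool.Agent.MUXV (GR InK tX)
open OnePoint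

noncomputable section

namespace LOQI

/-- the polynomial logarithm and the parameter agree to first order -/
theorem vpi_sub {V : ValuationSubring ℂ} {L : PeriodPair} {q : ℕ} (hq : 2 ≤ q) {a2 a4 : V}
    {lam : ℕ → ℂ} (h : HasTyI V L q a2 a4 lam) {t : ℂ} (ht : V.valuation t < 1) :
    V.valuation (vpi lam q t - t) ≤ V.valuation t ^ 2 := by
  rw [vpi]
  obtain ⟨m, rfl⟩ : ∃ m, q = m + 2 := ⟨q - 2, by omega⟩
  rw [Finset.sum_range_succ', Finset.sum_range_succ']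
  have e0 : lam 0 = 0 := h.lam0
  have e1 : lam (0 + 1) = 1 := h.lam1
  rw [e0, e1]
  have e : ∑ k ∈ Finset.range m, lam (k + 1 + 1) * t ^ (k + 1 + 1) + 1 * t ^ (0 + 1) +
      0 * t ^ 0 - t = ∑ k ∈ Finset.range m, lam (k + 1 + 1) * t ^ (k + 1 + 1) := by ring
  rw [e]
  refine Valuation.map_sum_le _ fun k _ => ?_
  rw [map_mul, map_pow]
  calc V.valuation (lam (k + 1 + 1)) * V.valuation t ^ (k + 1 + 1)
      ≤ 1 * V.valuation t ^ 2 :=
        mul_le_mul' (h.int _) (pow_le_pow_right_of_le_one' ht.le (by omega))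
    _ = _ := one_mul _

theorem vpi_val {V : ValuationSubring ℂ} {L : PeriodPair} {q : ℕ} (hq : 2 ≤ q) {a2 a4 : V}
    {lam : ℕ → ℂ} (h : HasTyI V L q a2 a4 lam) {t : ℂ} (ht : V.valuation t < 1)
    (ht0 : V.valuation t ≠ 0) : V.valuation (vpi lam q t) = V.valuation t := by
  have e : vpi lam q t = t + (vpi lam q t - t) := by ring
  rw [e, Valuation.map_add_eq_of_lt_left]
  refine lt_of_le_of_lt (vpi_sub hq h ht) ?_
  rw [pow_two]
  exact mul_lt_of_lt_one_right (zero_lt_iff.2 ht0) ht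

end LOQI

open LOQI in
theorem t_LOQI : S_LOQI := by
  intro p A B P V f hS h3f ι R hG y0 hy0
  obtain ⟨hGR, hp1, hint, -, hmu⟩ := i_GRI p A B P V f hS ι R hG
  have hp5 := hS.p5
  have hq : 25 ≤ p ^ 2 := by nlinarith
  have hprime := hS.hP
  have hp0 : V.valuation (p : ℂ) ≠ 0 := by
    rw [(Valuation.ne_zero_iff _)]
    exact_mod_cast hS.pp.ne_zero
  -- the formal logarithms
  have hex : ∀ i, ∃ (a2 a4 : V) (lam : ℕ → ℂ), GRa V (R.L i) a2 a4 ∧
      HasTyI V (R.L i) (p ^ 2) a2 a4 lam := by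
    intro i
    obtain ⟨a2, a4, hGa⟩ := hGR i
    obtain ⟨Λ, hΛ⟩ := i_EXP V (R.L i) a2 a4 hGa
    exact ⟨a2, a4, _, hGa, a_TYI V (R.L i) a2 a4 hGa Λ hΛ (p ^ 2) (by omega)
      (a_LGI p A B P V f hS ι R hG i a2 a4 hGa Λ hΛ)⟩
  choose a2 a4 lam hGa hlam using hex
  -- the points of order `p`
  obtain ⟨hK0, hR0, hv0⟩ := a_KRI p A B P V f hS ι R hG R.i0 y0 hy0
  obtain ⟨τ, hτ⟩ : ∃ τ, τ = V.valuation (tX (xn (R.L R.i0)) (yy (R.L R.i0))
    (pt R p R.i0 y0)) := ⟨_, rfl⟩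
  rw [← hτ] at hv0
  have hτ0 : τ ≠ 0 := by
    intro h
    rw [h, zero_pow (by omega)] at hv0
    exact hp0 hv0.symm
  have hτ1 : τ < 1 := by
    by_contra h
    push Not at h
    have h2 : 1 ≤ τ ^ (p ^ 2 - 1) := one_le_pow₀ h
    rw [hv0] at h2
    exact absurd h2 (not_le.2 hp1)
  have hpow : ∀ b : ℂ, V.valuation b ^ (p ^ 2 - 1) = V.valuation (p : ℂ) →
      V.valuation b = τ := by
    intro b hb
    rw [← hv0] at hb
    exact (pow_left_inj (by omega)).mp hb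
  obtain ⟨t0, ht0⟩ : ∃ t0, t0 = vpi (lam R.i0) (p ^ 2) (tX (xn (R.L R.i0)) (yy (R.L R.i0))
    (pt R p R.i0 y0)) := ⟨_, rfl⟩
  have hvt0 : V.valuation t0 = τ := by
    rw [ht0, vpi_val (by omega) (hlam R.i0) (by rw [← hτ]; exact hτ1) (by rw [← hτ]; exact hτ0),
      ← hτ]
  refine ⟨t0, fun w hw => ⟨?_, ?_, ?_⟩⟩
  · rintro h
    rw [h, map_zero] at hvt0
    exact hτ0 hvt0.symm
  · rw [hvt0, hv0]
  · intro i
    refine ⟨a2 i, a4 i, lam i, hGa i, hlam i, fun x hx => ?_⟩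
    have hxy : x * y0 ∉ P := fun h => (hprime.mem_or_mem h).elim hx hy0
    obtain ⟨h1, h2, h3⟩ := a_KRI p A B P V f hS ι R hG i (x * y0) hxy
    refine ⟨h1, h2, ?_, ?_⟩
    · rw [hpow _ h3, hvt0]
    · obtain ⟨-, -, -, -, -, -, -, -, hww⟩ := t_TEP p A B P V f hS
      obtain ⟨-, -, hwle, -⟩ := hww w hw
      have h1P : (1 : OO A B) ∉ P := fun h => hS.hP.ne_top ((Ideal.eq_top_iff_one _).2 h)
      obtain ⟨-, -, hv1⟩ := a_KRI p A B P V f hS ι R hG i 1 h1P
      have r1 := a_ROT p A B P V f hS w hw ι R hG i (a2 i) (a4 i) (hGa i) (lam i) (hlam i)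
        (x * y0) hxy
      have r2 := a_ROT p A B P V f hS w hw ι R hG i (a2 i) (a4 i) (hGa i) (lam i) (hlam i)
        y0 hy0
      rw [hpow _ hv1] at r1 r2
      obtain ⟨hμ0, hIsg, hvμ, hodd, hvn, hker⟩ := hmu i
      have hn3 : ¬ 3 ∣ nI (R.b i) := by
        intro h
        have h4 : 3 ∣ Nat.gcd (nI (R.b i)) (p * f) := Nat.dvd_gcd h (Dvd.dvd.mul_left h3f p)
        rw [(R.cop i : Nat.gcd (nI (R.b i)) (p * f) = 1)] at h4
        exact absurd (Nat.dvd_one.1 h4) (by norm_num)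
      have hv3 : V.valuation (3 : ℂ) = 1 := by
        have := hint 3 (fun h => by
          have h4 : p ∣ 3 := by exact_mod_cast h
          have := Nat.le_of_dvd (by norm_num) h4
          omega)
        simpa using this
      have hIsgN : IsgN V (R.L R.i0) (R.L i) (muX R i) (nI (R.b i)) :=
        ⟨hμ0, hIsg, hodd, hvn, hker, hvμ, hv3, hn3⟩
      obtain ⟨-, -, -, -, -, hpt6, -⟩ := i_PTI p A B P V f hS ι R i
      have r3 := a_VPA V (R.L R.i0) (R.L i) (a2 R.i0) (a4 R.i0) (a2 i) (a4 i) (hGa R.i0) (hGa i)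
        (muX R i) (nI (R.b i)) hIsgN (p ^ 2) (by omega) (lam R.i0) (lam i) (hlam R.i0) (hlam i)
        (pt R p R.i0 y0) hK0 hR0
      rw [← hpt6 y0, ← ht0, ← hτ] at r3
      rw [hw.mul] at r1
      rw [hvt0]
      set F := vpi (lam i) (p ^ 2) (tX (xn (R.L i)) (yy (R.L i)) (pt R p i (x * y0))) with hF
      set F1 := vpi (lam i) (p ^ 2) (tX (xn (R.L i)) (yy (R.L i)) (pt R p i 1)) with hF1
      set F2 := vpi (lam i) (p ^ 2) (tX (xn (R.L i)) (yy (R.L i)) (pt R p i y0)) with hF2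
      have e : F - muX R i * w x * t0 = (F - w x * w y0 * F1) - w x * (F2 - w y0 * F1) +
          w x * (F2 - muX R i * t0) := by ring
      rw [e]
      refine (Valuation.map_add _ _ _).trans (max_le ?_ ?_)
      · refine (Valuation.map_sub _ _ _).trans (max_le r1 ?_)
        rw [map_mul]
        calc V.valuation (w x) * V.valuation (F2 - w y0 * F1) ≤ 1 * τ ^ (p ^ 2) :=
              mul_le_mul' (hwle x) r2
          _ = τ ^ (p ^ 2) := one_mul _
      · rw [map_mul]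
        calc V.valuation (w x) * V.valuation (F2 - muX R i * t0) ≤ 1 * τ ^ (p ^ 2) :=
              mul_le_mul' (hwle x) r3
          _ = τ ^ (p ^ 2) := one_mul _

end

end Pool.Agent.TWQ
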