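import Pool.Agent.TWQ.StU
import Pool.Agent.TWQ.THQ
import Pool.Agent.TWT.HTF
import Pool.Agent.TWT.CRA
import Pool.Agent.TWT.CRB
import Pool.Agent.TWT.I0
import Pool.Agent.MUX.W_MEM
import Pool.Agent.TWT.UNITA

/-!
# TWQ, module REDQ (helper59): the unramified case, reduction to a field of level prime to `p`
-/

set_option autoImplicit false

open WeierstrassCurve Polynomial NumberField IsDedekindDomain

namespace Pool.Agent.TWQ

open _root_.MU3 Pool.Agent.MU3 Pool.Agent.MU3A Pool.Agent.MU3B Pool.Agent.MU3C Pool.Agent.RI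
  Pool.Agent.RID
open Pool.Agent.MUX Pool.Agent.MUXU Pool.Agent.MUXW Pool.Agent.TWT Pool.Agent.TWI
open Pool.Agent.TWT.CRB Pool.Agent.MUXW.Mem
open Pool.Agent.TWT.UNITA (nI_top)
open Pool.Agent.MU3V (cls Sub GD algDF)
open Pool.Agent.MUXV (GR InK tX)
open Pool.Agent.MUXI (IA RE AR)
open OnePoint

noncomputable section

namespace REDQ

variable {p q : ℕ} {A B : ℤ} {P P' : Ideal (OO A B)} {V : ValuationSubring ℂ} {f : ℕ}

/-- the data of the level `M = f l^N p` -/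
theorem lev (hIDQ : S_IDQ) (hS : SetQ p q A B P P' V f) {ι : Type} (R : Reps A B (p * f) ι)
    {l : ℕ} (N : ℕ) (hl : l.Prime) (hlf : l ∣ f) :
    f * l ^ N ≠ 0 ∧ ¬ p ∣ f * l ^ N ∧ f * l ^ N * p ≠ 0 ∧ 3 ≤ f * l ^ N ∧ 3 ≤ f * l ^ N * p ∧
      ∀ i, (nI (R.b i)).Coprime (f * l ^ N * p) := by
  obtain ⟨⟨hcq, hp, hp5, hpq, hPp, hOv, hf0, hpf, hfD, -, -⟩, -⟩ := hIDQ p q A B P P' V f hS
  have hpl : ¬ p ∣ l := fun h1 => hpf (h1.trans hlf)
  have hm0 : f * l ^ N ≠ 0 := mul_ne_zero hf0 (pow_ne_zero _ hl.ne_zero)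
  have hpm : ¬ p ∣ f * l ^ N := by
    intro h1
    rcases (hp.dvd_mul).1 h1 with h2 | h2
    · exact hpf h2
    · exact hpl (hp.dvd_of_dvd_pow h2)
  have hf3 : 3 ≤ f := by
    have h2 : 3 ≤ absD A B := by
      have h3 := hcq.neg
      unfold absD
      rcases hcq.hB with h4 | h4 <;> rw [h4] at h3 ⊢ <;> omega
    have h5 : (0 : ℤ) < f := by omega
    have h6 := Int.le_of_dvd h5 hfD
    omega
  have hm3 : 3 ≤ f * l ^ N := hf3.trans (Nat.le_mul_of_pos_right f (pow_pos hl.pos N))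
  refine ⟨hm0, hpm, mul_ne_zero hm0 hp.ne_zero, hm3,
    hm3.trans (Nat.le_mul_of_pos_right _ hp.pos), fun i => ?_⟩
  have h1 := R.cop i
  have h2 : (nI (R.b i)).Coprime p := Nat.Coprime.coprime_dvd_right (Dvd.intro _ rfl) h1
  have h3 : (nI (R.b i)).Coprime f := Nat.Coprime.coprime_dvd_right (Dvd.intro_left _ rfl) h1
  have h4 : (nI (R.b i)).Coprime l := Nat.Coprime.coprime_dvd_right hlf h3
  exact Nat.Coprime.mul_right (Nat.Coprime.mul_right h3 (h4.pow_right N)) h2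

theorem v_p_lt (hIDQ : S_IDQ) (hS : SetQ p q A B P P' V f) : V.valuation (p : ℂ) < 1 := by
  obtain ⟨⟨hcq, hp, hp5, hpq, hPp, hOv, hf0, hpf, hfD, -, -⟩, h2, -⟩ := hIDQ p q A B P P' V f hS
  have h0 : ((p : ℕ) : OO A B) ∈ P := by
    have := (h2 (p : ℤ)).2 dvd_rfl
    simpa using this
  have h1 := (hOv ((p : ℕ) : OO A B)).2 h0
  rw [emb_natCast hcq] at h1
  exact (ValuationSubring.mem_nonunits_iff V).1 h1

/-- an element prime to `M p` is not in `P`, and its conjugate is not in `P` -/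
theorem not_mem (hIDQ : S_IDQ) (hS : SetQ p q A B P P' V f) {m : ℕ} {x : OO A B}
    (hx : IsCoprime x ((m * p : ℕ) : OO A B)) : x ∉ P ∧ star x ∉ P := by
  obtain ⟨⟨hcq, hp, hp5, hpq, hPp, hOv, hf0, hpf, hfD, -, -⟩, h2, -⟩ := hIDQ p q A B P P' V f hS
  have h0 : ((m * p : ℕ) : OO A B) ∈ P := by
    have := (h2 ((m * p : ℕ) : ℤ)).2 (by push_cast; exact Dvd.intro_left _ rfl)
    simpa using this
  obtain ⟨u, v, huv⟩ := hx
  constructor
  · intro h1
    apply hPp.ne_top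
    rw [Ideal.eq_top_iff_one, ← huv]
    exact P.add_mem (P.mul_mem_left _ h1) (P.mul_mem_left _ h0)
  · intro h1
    apply hPp.ne_top
    have h3 := congrArg star huv
    rw [star_add, star_mul', star_mul', star_one, star_natCast] at h3
    rw [Ideal.eq_top_iff_one, ← h3]
    exact P.add_mem (P.mul_mem_left _ h1) (P.mul_mem_left _ h0)

/-- (a) the values are `thT` -/
theorem val (hIDQ : S_IDQ) (hTEQ : S_TEQ) (hS : SetQ p q A B P P' V f) {ι : Type}
    (R : Reps A B (p * f) ι) {w : OO A B → ℂ} (hw : TeQ p q P V w) (kp : ι → ℂ)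
    (eta : OO A B → ℂ) {b : ℕ} (hb : b = 0 ∨ b = q - 1) {r : ℕ} (ψ : DirichletCharacter ℂ r)
    {m : ℕ} {x : OO A B} (hx : IsCoprime x ((m * p : ℕ) : OO A B)) (i : ι) :
    thQ R kp eta ψ w 1 b i x = thT R kp eta ψ i x := by
  obtain ⟨-, -, -, -, w5, -⟩ := hTEQ p q A B P P' V f hS w hw
  have h1 := (w5 _ (not_mem hIDQ hS hx).2).1
  unfold thQ
  rw [Nat.sub_self, pow_zero, mul_one]
  rcases hb with rfl | rfl
  · rw [pow_zero, mul_one]
  · rw [h1, mul_one]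

/-- the value at `x ≡ 1` -/
theorem val_one {e b : ℕ} {ι : Type} (R : Reps A B (p * f) ι) {kp : ι → ℂ} {eta : OO A B → ℂ}
    (hC : ChQ p q f P P' R kp eta e b) {l N : ℕ}
    (ψ : DirichletCharacter ℂ (l ^ N)) {x : OO A B}
    (hx : x - 1 ∈ (idl (f * l ^ N) : Ideal (OO A B))) : thT R kp eta ψ R.i0 x = 1 := by
  have h1 : x - 1 ∈ (idl f : Ideal (OO A B)) := by
    refine (Ideal.span_singleton_le_span_singleton.2 ?_ : (idl (f * l ^ N) : Ideal (OO A B)) ≤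
      idl f) hx
    push_cast
    exact dvd_mul_right _ _
  have h2 : x - 1 ∈ (idl (l ^ N) : Ideal (OO A B)) := by
    refine (Ideal.span_singleton_le_span_singleton.2 ?_ : (idl (f * l ^ N) : Ideal (OO A B)) ≤
      idl (l ^ N)) hx
    push_cast
    exact dvd_mul_left _ _
  have h3 := THQ.nm_cong (l ^ N) x 1 h2
  unfold thT
  rw [hC.kp0, R.b0, nI_top, hC.per x 1 h1, hC.one, one_mul, one_mul]
  push_cast
  rw [mul_one, h3, THQ.nm_one]
  push_cast
  exact map_one ψ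

theorem thT_per {e b : ℕ} {ι : Type} (R : Reps A B (p * f) ι) {kp : ι → ℂ} {eta : OO A B → ℂ}
    (hC : ChQ p q f P P' R kp eta e b) {l N : ℕ}
    (ψ : DirichletCharacter ℂ (l ^ N)) {x y : OO A B}
    (hx : x - y ∈ (idl (f * l ^ N) : Ideal (OO A B))) (i : ι) :
    thT R kp eta ψ i x = thT R kp eta ψ i y := by
  have h1 : x - y ∈ (idl f : Ideal (OO A B)) := by
    refine (Ideal.span_singleton_le_span_singleton.2 ?_ : (idl (f * l ^ N) : Ideal (OO A B)) ≤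
      idl f) hx
    push_cast
    exact dvd_mul_right _ _
  have h2 : x - y ∈ (idl (l ^ N) : Ideal (OO A B)) := by
    refine (Ideal.span_singleton_le_span_singleton.2 ?_ : (idl (f * l ^ N) : Ideal (OO A B)) ≤
      idl (l ^ N)) hx
    push_cast
    exact dvd_mul_left _ _
  have h3 := THQ.nm_cong (l ^ N) x y h2
  unfold thT
  rw [hC.per x y h1]
  push_cast
  rw [h3]

/-- a lift of `x` which is prime to `m p` -/
theorem lift {m : ℕ} (hp : p.Prime) (hpm : ¬ p ∣ m) {x : OO A B}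
    (hx : IsCoprime x ((m : ℕ) : OO A B)) : ∃ x' : OO A B,
      x' - x ∈ (idl m : Ideal (OO A B)) ∧ IsCoprime x' ((m * p : ℕ) : OO A B) := by
  have h1 : IsCoprime ((m : ℕ) : ℤ) ((p : ℕ) : ℤ) :=
    Nat.isCoprime_iff_coprime.2 ((Nat.Prime.coprime_iff_not_dvd hp).2 hpm).symm
  obtain ⟨u, v, huv⟩ := h1
  have huv' : (u : OO A B) * ((m : ℕ) : OO A B) + (v : OO A B) * ((p : ℕ) : OO A B) = 1 := by
    have := congrArg (Int.cast : ℤ → OO A B) huv
    push_cast at this ⊢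
    exact this
  -- `x' = x v p + u m`
  refine ⟨x * ((v : OO A B) * ((p : ℕ) : OO A B)) + (u : OO A B) * ((m : ℕ) : OO A B), ?_, ?_⟩
  · rw [Ideal.mem_span_singleton]
    refine ⟨(u : OO A B) - x * u, ?_⟩
    linear_combination x * huv'
  · push_cast
    refine IsCoprime.mul_right ?_ ?_
    · obtain ⟨a, c, hac⟩ := hx
      refine ⟨a, c + a * (x * u - u), ?_⟩
      linear_combination hac + a * x * huv'
    · refine ⟨1, v - x * v, ?_⟩
      linear_combination huv'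

end REDQ

open REDQ in
/-- (REDQ) -/
theorem t_REDQ (hIDQ : S_IDQ) (hTEQ : S_TEQ) (hTHQ : S_THQ) (hRGM : S_RGMQ) (hDS : S_DSQ) :
    S_REDQ := by
  intro p q _ A B P P' V f hS hT ι _ R w hw kp eta b hC hb l N hl hpl1 hlf ψ D _ _ h hs
  let _ := algC h
  intro hpD χ hχ hg
  have hp : p.Prime := Fact.out
  obtain ⟨hm0, hpm, hM0, hm3, hM3, hcop⟩ := lev hIDQ hS R N hl hlf
  have hcq := (hIDQ p q A B P P' V f hS).1.1
  haveI := charP_res V p (v_p_lt hIDQ hS)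
  set m : ℕ := f * l ^ N with hm
  have hfin := hT.fin _ (CRA.idl_ne (A := A) (B := B) hM0)
  have hgal := hT.gal _ (CRA.idl_ne (A := A) (B := B) hM0)
  have hcomm := hT.comm _ (CRA.idl_ne (A := A) (B := B) hM0)
  obtain ⟨q1, q2, -, -, -, q6⟩ := t_HTF A B hcq hT (p * f) ι R (m * p) hM3 hcop
  have MEM := ty_MEM A B _ hfin hgal hcomm D h hs 1 one_ne_zero
  obtain ⟨-, -, -, me1, me2⟩ := MEM
  obtain ⟨D₁, hfd, h₁, hD₁⟩ := hDS p A B _ hfin hgal hcomm D h hs (IsLocalRing.ResidueField V)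
    hpD χ
  let _ := algC h₁
  obtain ⟨hgal1, hle, hchar, χ₁, hχ₁, hdesc⟩ := hD₁
  have hs1 : Sub D₁ (RF (idl (m * p)) : IntermediateField (kk A B) ℂ) := fun x hx => hs x (hle hx)
  obtain ⟨-, -, -, mf1, mf2⟩ := ty_MEM A B _ hfin hgal hcomm D₁ h₁ hs1 1 one_ne_zero
  have THQ1 := hTHQ p q A B P P' V f hS ι R w hw kp eta 1 b hC l N hl hlf ψ
  -- values at automorphisms of `F`
  have hval : ∀ (σ : GalF A B (m * p)) (τ : D ≃ₐ[kk A B] D) (i : ι) (x : OO A B),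
      Ext1 h τ σ → HitF R (m * p) _ σ i x → rsd V (thT R kp eta ψ i x) =
        (((χ τ)⁻¹ : (IsLocalRing.ResidueField V)ˣ) : IsLocalRing.ResidueField V) := by
    intro σ τ i x hE hH
    rw [← hχ τ _ (q6 (m * p) dvd_rfl hM3 D h hs τ σ i x hE hH)]
    congr 1
    rw [← val hIDQ hTEQ hS R hw kp eta hb ψ hH.1 i]
    refine THQ1.1 i _ _ ?_
    rw [← Ideal.Quotient.eq]
    exact (Quotient.out_eq _).symm
  -- (b)
  have hb1 : ∀ (σ : GalF A B (m * p)) (τ : D ≃ₐ[kk A B] D), Ext1 h τ σ →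
      (∀ y : (RF (idl (m * p)) : IntermediateField (kk A B) ℂ),
        (y : ℂ) ∈ (RF (idl m) : IntermediateField (kk A B) ℂ) → σ y = y) → χ τ = 1 := by
    intro σ τ hE hσ
    obtain ⟨i, x, hH⟩ := q1 σ
    obtain ⟨hi, hx⟩ := hRGM A B hcq hT (p * f) ι R m (m * p) (Dvd.intro _ rfl) hM0 hm3 hcop σ hσ
      i x hH
    subst hi
    have h1 := hval σ τ R.i0 x hE hH
    have h2 : thT R kp eta ψ R.i0 x = 1 := by
      rcases hx with hx | hx
      · exact val_one R hC ψ hx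
      · rw [← val hIDQ hTEQ hS R hw kp eta hb ψ hH.1 R.i0, ← THQ1.2.1,
          val hIDQ hTEQ hS R hw kp eta hb ψ hH.1.neg_left R.i0]
        refine val_one R hC ψ ?_
        have h3 : -x - 1 = -(x + 1) := by ring
        rw [h3]
        exact Ideal.neg_mem_iff _ |>.2 hx
    rw [h2] at h1
    have h3 : rsd V (1 : ℂ) = 1 := by
      unfold rsd
      rw [dif_pos (one_mem V)]
      exact map_one (IsLocalRing.residue V)
    rw [h3] at h1
    have h4 : (χ τ)⁻¹ = 1 := Units.ext h1.symm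
    exact inv_eq_one.1 h4
  -- `D₁ ≤ RF (idl m)`
  have hsub1 : Sub D₁ (RF (idl m) : IntermediateField (kk A B) ℂ) := by
    intro y hy
    have hyF := hs1 y hy
    have hR : kk A B ≤ IntermediateField.restrictScalars ℚ
        (RF (idl m) : IntermediateField (kk A B) ℂ) := fun z hz =>
      (RF (idl m) : IntermediateField (kk A B) ℂ).algebraMap_mem ⟨z, hz⟩
    refine mem_D hR (⟨y, hyF⟩ : (RF (idl (m * p)) : IntermediateField (kk A B) ℂ)) ?_
    intro σ hσ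
    obtain ⟨τ, hτ⟩ := me2 σ
    refine (hchar ⟨y, hyF⟩).1 hy σ τ hτ (hb1 σ τ hτ fun z hz => ?_)
    exact hσ (z : ℂ) hz z.2
  refine ⟨D₁, hfd, h₁, hsub1, χ₁, ?_, ?_, ?_⟩
  · -- (c)
    intro τ₁ r hr
    obtain ⟨i, xb⟩ := r
    have hcop' : ∀ i, (nI (R.b i)).Coprime m := fun i =>
      Nat.Coprime.coprime_dvd_right (Dvd.intro _ rfl) (hcop i)
    have hx : IsCoprime (Quotient.out xb : OO A B) ((m : ℕ) : OO A B) := hr.1
    obtain ⟨x', hx'1, hx'2⟩ := lift hp hpm hx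
    obtain ⟨σ, hσ⟩ := q2 i x' hx'2
    obtain ⟨τ, hτ⟩ := me2 σ
    obtain ⟨τ₁', hτ₁'⟩ := mf2 σ
    have h1 := q6 m (Dvd.intro _ rfl) hm3 D₁ h₁ hsub1 τ₁' σ i x' hτ₁' hσ
    have h2 : Ideal.Quotient.mk (idl (A := A) (B := B) m) x' = xb := by
      have h3 : Ideal.Quotient.mk (idl (A := A) (B := B) m) x' =
          Ideal.Quotient.mk (idl (A := A) (B := B) m) (Quotient.out xb) :=
        Ideal.Quotient.eq.2 hx'1
      rw [h3]
      exact Quotient.out_eq xb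
    rw [h2] at h1
    have h4 := ((Pool.Agent.TWT.j_XXF A B hcq hT (p * f) ι R m (by omega) hcop' D₁ h₁ hsub1
      hgal1).2 (i, xb) hx).2 τ₁' τ₁ h1 hr
    rw [← h4, ← hχ₁ σ τ τ₁' hτ hτ₁', ← hval σ τ i x' hτ hσ]
    congr 1
    exact (thT_per R hC ψ hx'1 i).symm
  · -- (d)
    obtain ⟨g, hg1, hg2⟩ := hg
    obtain ⟨σ, hσ⟩ := me1 g
    obtain ⟨g₁, hg₁⟩ := mf2 σ
    refine ⟨g₁, fun x hx => ?_, ?_⟩
    · apply Subtype.ext
      have e1 := hg₁ x (hs1 x x.2)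
      have e2 := hσ ⟨(x : ℂ), hle x.2⟩ (hs1 x x.2)
      rw [← e1]
      have e3 := congrArg (Subtype.val : D → ℂ) (hg1 ⟨(x : ℂ), hle x.2⟩ hx)
      exact e2.trans e3
    · rw [← hχ₁ σ g g₁ hσ hg₁]
      exact hg2
  · exact hdesc

end

end Pool.Agent.TWQ
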