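import Pool.Agent.TWQ.StU
import Pool.Agent.TWT.HTF
import Pool.Agent.MUX.WAll

/-!
# TWQ, module RGMQ (helper62): automorphisms of `RF (idl M)` trivial on `RF (idl m)`
-/

set_option autoImplicit false

open WeierstrassCurve Polynomial NumberField IsDedekindDomain

namespace Pool.Agent.TWQ

open _root_.MU3 Pool.Agent.MU3 Pool.Agent.MU3A Pool.Agent.MU3B Pool.Agent.MU3C Pool.Agent.RI
  Pool.Agent.RID
open Pool.Agent.MUX Pool.Agent.MUXU Pool.Agent.MUXW Pool.Agent.TWT Pool.Agent.TWI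
open Pool.Agent.MU3V (cls Sub GD algDF)
open Pool.Agent.MUXV (GR InK tX)
open Pool.Agent.MUXI (IA RE AR)
open OnePoint

noncomputable section

namespace RGMQ

variable {A B : ℤ}

/-- the generators of `RF (idl m)` at the base point -/
lemma base (hQ : CQ A B) {n : ℕ} {ι : Type} (R : Reps A B n ι) (m : ℕ) (hm : 3 ≤ m)
    (hcop : ∀ i, (nI (R.b i)).Coprime m) :
    kap (R.L R.i0) ∈ (RF (idl m) : IntermediateField (kk A B) ℂ) ∧
    xn (R.L R.i0) (Pool.Agent.MUX.pt R m R.i0 1) ∈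
      (RF (idl m) : IntermediateField (kk A B) ℂ) ∧
    Pool.Agent.MUX.pt R m R.i0 1 ∉ (R.L R.i0).lattice := by
  have hm0 : m ≠ 0 := by omega
  have h1M : (1 : OO A B) ∉ idl (A := A) (B := B) m := by
    intro h
    obtain ⟨t, ht⟩ := Ideal.mem_span_singleton.1 h
    exact Pool.Agent.MUXI.Hit.not_unit m (by omega) t ht
  have hL : IsNL (⊤ : Ideal (OO A B)) (R.L R.i0) (R.om R.i0) := by
    have := R.nl R.i0
    rwa [R.b0] at this
  have hpt1 : Pool.Agent.MUX.pt R m R.i0 1 = R.om R.i0 / m := by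
    have hN0 : nI (R.b R.i0) = 1 := by
      rw [R.b0]
      change Nat.card (OO A B ⧸ (⊤ : Ideal (OO A B))) = 1
      have : Subsingleton (OO A B ⧸ (⊤ : Ideal (OO A B))) :=
        Ideal.Quotient.subsingleton_iff.2 rfl
      exact Nat.card_unique
    obtain ⟨-, -, hint, -, -⟩ := Pool.Agent.MUXF.xf_ALG A B (Pool.Agent.MUXY.cqF hQ)
    have he1 : emb (1 : OO A B) = 1 := by
      have := (hint 1).1
      simpa using this
    unfold Pool.Agent.MUX.pt
    rw [hN0, he1]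
    simp
  have hz1 : Pool.Agent.MUX.pt R m R.i0 1 ∉ (R.L R.i0).lattice := fun h =>
    h1M (Pool.Agent.MUXI.Hit.pt_mem hQ Pool.Agent.MUXF.xf_ALG R m hm0 R.i0 (hcop _) 1 h)
  have hTor1 : Tor (idl (A := A) (B := B) m) (R.L R.i0) (Pool.Agent.MUX.pt R m R.i0 1) := by
    obtain ⟨hmul, -, hint, -, -⟩ := Pool.Agent.MUXF.xf_ALG A B (Pool.Agent.MUXY.cqF hQ)
    have heN : ∀ k : ℕ, emb ((k : ℕ) : OO A B) = (k : ℂ) := fun k => by
      have := (hint (k : ℤ)).1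
      rwa [Int.cast_natCast, Int.cast_natCast] at this
    have hmC : (m : ℂ) ≠ 0 := by exact_mod_cast hm0
    intro y hy
    obtain ⟨t, rfl⟩ := Ideal.mem_span_singleton.1 hy
    refine (hL.mem _).2 ⟨t, trivial, ?_⟩
    rw [(hmul _ _).1, heN, hpt1]
    field_simp
  exact ⟨IntermediateField.subset_adjoin _ _ ⟨_, _, _, hL, Or.inl rfl⟩,
    IntermediateField.subset_adjoin _ _ ⟨_, _, _, hL, Or.inr ⟨_, hTor1, hz1, rfl⟩⟩, hz1⟩

end RGMQ

theorem t_RGMQ : S_RGMQ := by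
  intro A B hQ hT n ι R m M hmM hM0 hm3 hcop σ hσ i x hx
  have hm0 : m ≠ 0 := by omega
  have hM3 : 3 ≤ M := le_trans hm3 (Nat.le_of_dvd (Nat.pos_of_ne_zero hM0) hmM)
  have hcopm : ∀ i, (nI (R.b i)).Coprime m := fun i => (hcop i).coprime_dvd_right hmM
  obtain ⟨D, hDeq⟩ : ∃ D : IntermediateField ℚ ℂ, ∀ z : ℂ, z ∈ D ↔
      z ∈ (RF (idl m) : IntermediateField (kk A B) ℂ) :=
    ⟨IntermediateField.restrictScalars ℚ (RF (idl m) : IntermediateField (kk A B) ℂ),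
      fun z => Iff.rfl⟩
  have h : kk A B ≤ D := fun z hz => (hDeq z).2
    ((RF (idl m) : IntermediateField (kk A B) ℂ).algebraMap_mem ⟨z, hz⟩)
  have hD : Sub D (RF (idl m) : IntermediateField (kk A B) ℂ) := fun z hz => (hDeq z).1 hz
  obtain ⟨-, -, -, -, -, h6⟩ := t_HTF A B hQ hT n ι R M hM3 hcop
  have h7 := h6 m hmM hm3 D h hD
  let _ := algC h
  have h8 := h7 AlgEquiv.refl σ i x (fun y hy => by
    have h9 := hσ ⟨(y : ℂ), hy⟩ ((hDeq _).1 y.2)
    rw [h9]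
    rfl) hx
  obtain ⟨-, s, hs, hext, hhit⟩ := h8
  have hfix : ∀ z : ℂ, z ∈ (RF (idl m) : IntermediateField (kk A B) ℂ) → s z = z :=
    fun z hz => hext ⟨z, (hDeq z).2 hz⟩
  obtain ⟨b1, b2, b3⟩ := RGMQ.base hQ R m hm3 hcopm
  have hh1 : Hits R m s R.i0 1 := ⟨(hfix _ b1).symm, hfix _ b2, b3⟩
  obtain ⟨j, y, -, -, -, hiff⟩ := y_HIT A B hQ hT n ι R m hm0 hcopm
    (HTF.not_dvd_two m hm3) s hs
  obtain ⟨e0, e1⟩ := (hiff R.i0 1).1 hh1
  obtain ⟨f0, f1⟩ := (hiff i _).1 hhit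
  refine ⟨f0.trans e0.symm, ?_⟩
  obtain ⟨x', hx'⟩ : ∃ x' : OO A B, x' = Quotient.out
      (Ideal.Quotient.mk (idl (A := A) (B := B) m) x) := ⟨_, rfl⟩
  have hxx : ((m : ℕ) : OO A B) ∣ x' - x := by
    rw [← Ideal.mem_span_singleton]
    apply (Ideal.Quotient.mk_eq_mk_iff_sub_mem _ _).1
    rw [hx']
    exact Quotient.out_eq _
  have f1' : ((m : ℕ) : OO A B) ∣ x' - y ∨ ((m : ℕ) : OO A B) ∣ x' + y := by
    rw [hx']
    exact f1
  rw [Ideal.mem_span_singleton, Ideal.mem_span_singleton]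
  rcases e1 with e1 | e1 <;> rcases f1' with f1 | f1
  · left
    have := dvd_sub (dvd_sub f1 hxx) e1
    rwa [show x' - y - (x' - x) - (1 - y) = x - 1 by ring] at this
  · right
    have := dvd_add (dvd_sub f1 hxx) e1
    rwa [show x' + y - (x' - x) + (1 - y) = x + 1 by ring] at this
  · right
    have := dvd_add (dvd_sub f1 hxx) e1
    rwa [show x' - y - (x' - x) + (1 + y) = x + 1 by ring] at this
  · left
    have := dvd_sub (dvd_sub f1 hxx) e1
    rwa [show x' + y - (x' - x) - (1 + y) = x - 1 by ring] at this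

end

end Pool.Agent.TWQ
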