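import Pool.Agent.TWQ.StU

/-!
# TWQ, module TRVQ: transfer of a character of a finite group between fields of characteristic `p`
-/

set_option autoImplicit false

namespace Pool.Agent.TWQ

theorem t_TRVQ : S_TRVQ := by
  intro p _ F F' _ _ _ _ _ G _ _ χ
  let _ := ZMod.algebra F p
  let _ := ZMod.algebra F' p
  let S : Set F := Set.range fun g => ((χ g : Fˣ) : F)
  have hS : ∀ x ∈ S, IsIntegral (ZMod p) x := by
    rintro x ⟨g, rfl⟩
    refine IsIntegral.of_pow (n := Nat.card G) Nat.card_pos ?_
    have h1 : ((χ g : Fˣ) : F) ^ Nat.card G = 1 := by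
      rw [← Units.val_pow_eq_pow_val, ← map_pow, pow_card_eq_one', map_one, Units.val_one]
    change IsIntegral (ZMod p) (((χ g : Fˣ) : F) ^ Nat.card G)
    rw [h1]
    exact isIntegral_one
  have hA : Algebra.IsAlgebraic (ZMod p) (IntermediateField.adjoin (ZMod p) S) :=
    IntermediateField.isAlgebraic_adjoin hS
  let i : IntermediateField.adjoin (ZMod p) S →ₐ[ZMod p] F' := IsAlgClosed.lift
  let χE : G →* IntermediateField.adjoin (ZMod p) S :=
    { toFun := fun g => ⟨((χ g : Fˣ) : F), IntermediateField.subset_adjoin _ _ ⟨g, rfl⟩⟩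
      map_one' := Subtype.ext (by simp)
      map_mul' := fun a b => Subtype.ext (by simp) }
  let χ' : G →* F'ˣ := ((i : IntermediateField.adjoin (ZMod p) S →* F').comp χE).toHomUnits
  have hχ' : ∀ g, ((χ' g : F'ˣ) : F') = i (χE g) := fun g => rfl
  have hχE : ∀ g, ((χE g : IntermediateField.adjoin (ZMod p) S) : F) = χ g := fun g => rfl
  refine ⟨χ', fun g => ?_, fun t' => ?_⟩
  · rw [← Units.val_inj, hχ', Units.val_one, ← Units.val_inj, Units.val_one, ← hχE]
    constructor
    · intro h
      have h1 : χE g = 1 := i.injective (h.trans (map_one i).symm)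
      rw [h1]
      rfl
    · intro h
      have h1 : χE g = 1 := Subtype.ext h
      rw [h1, map_one]
  · obtain ⟨r, hr⟩ := ((IntermediateField.adjoin (ZMod p) S).val.toLinearMap).exists_leftInverse_of_injective
      (LinearMap.ker_eq_bot.2 (IntermediateField.adjoin (ZMod p) S).val.injective)
    refine ⟨(((t'.toZModLinearMap p).comp (i.toLinearMap.comp r)).toAddMonoidHom), fun g => ?_⟩
    rw [← map_inv, ← map_inv, hχ']
    change t' (i (r ((χE g⁻¹ : IntermediateField.adjoin (ZMod p) S) : F))) = _
    have h1 := LinearMap.congr_fun hr (χE g⁻¹)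
    change r ((χE g⁻¹ : IntermediateField.adjoin (ZMod p) S) : F) = χE g⁻¹ at h1
    rw [h1]

end Pool.Agent.TWQ
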