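import Pool.Agent.TWQ.StU
import Pool.Agent.TWQ.DefU
import Pool.Agent.TWQ.REDQ
import Pool.Agent.TWI.UNITI
import Pool.Agent.TWT.UNITA
import Pool.Agent.TWT.NRR
import Pool.Agent.TWK.DEG2
import Pool.Agent.TWK.FIN1
import Pool.Agent.MUX.E_RED3

/-!
# TWQ: the unit theorem, `K` ramified above `p` allowed (helper59)
-/

set_option autoImplicit false

open WeierstrassCurve Polynomial NumberField IsDedekindDomain

namespace Pool.Agent.TWQ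

open _root_.MU3 Pool.Agent.MU3 Pool.Agent.MU3A Pool.Agent.MU3B Pool.Agent.MU3C Pool.Agent.RI
  Pool.Agent.RID
open Pool.Agent.MUX Pool.Agent.MUXU Pool.Agent.MUXW Pool.Agent.TWT Pool.Agent.TWI
open Pool.Agent.TWT.CRB Pool.Agent.MUXW.Mem
open Pool.Agent.TWT.UNITA (nI_top stab bound)
open Pool.Agent.MU3V (cls Sub GD algDF)
open Pool.Agent.MUXV (GR InK tX)
open Pool.Agent.MUXI (IA RE AR)
open OnePoint

noncomputable section

namespace UNQ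

variable {p q : ℕ} {A B : ℤ} {P P' : Ideal (OO A B)} {V : ValuationSubring ℂ} {f : ℕ}

/-- the Teichmüller character exists -/
theorem exW (hS : SetQ p q A B P P' V f) : ∃ w : OO A B → ℂ, TeQ p q P V w := by
  rcases hS with ⟨-, ⟨hS, -, hq⟩ | ⟨hS, -, hq⟩⟩
  · obtain ⟨w, hw⟩ := t_TEI2 p A B P V hS.cq hS.pp (by have := hS.p5; omega) hS.eP hS.hP hS.hV
    exact ⟨w, Or.inl ⟨hq, hw⟩⟩
  · obtain ⟨w, hw⟩ := Pool.Agent.TWB.t_TEI p A B P V hS.cq hS.pp (by have := hS.p5; omega) hS.hP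
      hS.hV
    exact ⟨w, Or.inr ⟨hq, hw⟩⟩

open Pool.Agent.TWR in
/-- the ramified part at one valuation ring -/
theorem ram (hSYMQ : S_SYMQ) (hCRTQ : S_CRTQ) (hFACQ : S_FACQ) (hFAQ : S_FAQ)
    {l g h : ℕ} (hgen : Gen l g h) [Fact p.Prime] (hl : l.Prime) (hh : 1 ≤ h)
    (hpl1 : ¬ p ∣ l - 1) (hS : SetQ p q A B P P' V f) (hlf : l ^ h ∣ f) (hT : TorX A B)
    {ι : Type} [Fintype ι] (R : Reps A B (p * f) ι) (hG : GRd V R)
    {w : OO A B → ℂ} (hw : TeQ p q P V w)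
    (K : IntermediateField ℚ ℂ) [FiniteDimensional ℚ K] [FiniteDimensional ℚ (kk A B)]
    (hk : kk A B ≤ K) (hK : Sub K (RF (idl (f * p)) : IntermediateField (kk A B) ℂ))
    (Bn : ℕ → IntermediateField ℚ ℂ) [∀ n, FiniteDimensional ℚ ↥(K ⊔ Bn n)]
    (hLay : ∀ n, IsLayer l n (Bn n)) (hMon : Monotone Bn)
    (hRF : ∀ n, Sub (K ⊔ Bn n)
      (RF (idl (f * l ^ (n + h) * p)) : IntermediateField (kk A B) ℂ))
    (a : ℕ) (ha1 : 1 < a) (hac : a.Coprime (6 * f * p)) (H : Finset ℂ)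
    (hH : IsHalf (R.L R.i0) a H) :
    ∃ (J : Type) (_ : Finite J) (kp : J → ι → ℂ) (eta : J → OO A B → ℂ) (e b : J → ℕ) (n0 : ℕ),
      (∀ j, ChQ p q f P P' R (kp j) (eta j) (e j) (b j)) ∧
      ∀ (n : ℕ) (h0 : kk A B ≤ K ⊔ Bn (n + 1)), letI := algC h0
      ∀ χ : (↥(K ⊔ Bn (n + 1)) ≃ₐ[kk A B] ↥(K ⊔ Bn (n + 1))) →* (IsLocalRing.ResidueField V)ˣ,
      (∃ g : ↥(K ⊔ Bn (n + 1)) ≃ₐ[kk A B] ↥(K ⊔ Bn (n + 1)),
        (∀ x : ↥(K ⊔ Bn (n + 1)), (x : ℂ) ∈ K ⊔ Bn n → g x = x) ∧ χ g ≠ 1) →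
      ∃ (j : J) (ψ : DirichletCharacter ℂ (l ^ (n + 1 + h))), ψ (-1) = 1 ∧
        ψ (1 + (l : ZMod (l ^ (n + 1 + h))) ^ (n + 1 + h - 1)) ≠ 1 ∧
        (∀ (τ : ↥(K ⊔ Bn (n + 1)) ≃ₐ[kk A B] ↥(K ⊔ Bn (n + 1))),
        ∀ r ∈ XX R (f * l ^ (n + 1 + h) * p) h0 τ,
          rsd V (thQ R (kp j) (eta j) ψ w (e j) (b j) r.1 (Quotient.out r.2)) =
            (((χ τ)⁻¹ : (IsLocalRing.ResidueField V)ˣ) : IsLocalRing.ResidueField V)) ∧
        (n0 ≤ n → 2 ≤ e j →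
          ∀ (θ : (RF (idl (f * l ^ (n + 1 + h) * p)) : IntermediateField (kk A B) ℂ)),
          (θ : ℂ) = ThetaH (R.L R.i0) H (pt R (f * l ^ (n + 1 + h) * p) R.i0 1) →
          ∀ (c₀ : ↥(K ⊔ Bn (n + 1))), (c₀ : ℂ) = cW h0 θ →
          ∃ t : (IsLocalRing.ResidueField V) →+ ZMod p, ∀ y : ↥(K ⊔ Bn (n + 1)),
            y ^ p ≠ Pool.Agent.TWK.sE p χ t c₀) := by
  have hlf' : l ∣ f := (dvd_pow_self l (by omega)).trans hlf
  obtain ⟨J, hJ, kp, eta, e, b, hCh, hId, hF⟩ := hFACQ l g h hgen p q A B P P' V f hS hlf hT ι R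
    hG w hw K hk hK Bn hLay hMon
  obtain ⟨n1, hn1⟩ := hSYMQ l g h hgen p q A B P P' V f hS hlf' hT ι R hG w hw J kp eta e b hCh hId
  choose M1 hM1 using fun j => hFAQ p q A B P P' V f hS (p * f) ι R w hw (kp j) (eta j) (e j)
    (b j) (hCh j) l hl hpl1 hlf' a ha1 hac
  obtain ⟨b1, hb1⟩ := bound M1
  refine ⟨J, hJ, kp, eta, e, b, max n1 b1, hCh, fun n h0 => ?_⟩
  let _ := algC h0
  intro χ hχ
  obtain ⟨j, ψ, hψ1, hψ2, hval⟩ := hF n h0 χ hχ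
  refine ⟨j, ψ, hψ1, hψ2, hval, fun hn he θ hθ c₀ hc₀ => ?_⟩
  have hnn1 : n1 ≤ n := (le_max_left _ _).trans hn
  have hnb1 : b1 ≤ n := (le_max_right _ _).trans hn
  exact hCRTQ p q A B P P' V f hS hT ι R hG w hw (kp j) (eta j) (e j) (b j) (hCh j) he l
    (n + 1 + h) hl hpl1 hlf' ψ hψ1 a ha1 hac
    (hM1 j (n + 1 + h) (by have := hb1 j; omega) ψ hψ2) H hH θ hθ (K ⊔ Bn (n + 1)) h0
    (hRF (n + 1)) χ hval c₀ hc₀ (hn1 (n + 1 + h) (by omega) j ψ hψ1 hψ2)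

/-- the character without its part above `p` -/
theorem chD {ι : Type} {R : Reps A B (p * f) ι} {kp : ι → ℂ} {eta : OO A B → ℂ} {b : ℕ}
    (hb : Even b) (hC : ChQ p q f P P' R kp eta 1 b) : ChD p f R kp eta :=
  { one := hC.one
    mul := hC.mul
    per := hC.per
    supp := hC.supp
    neg := by
      rw [hC.neg, Nat.sub_self, zero_add]
      exact hb.neg_one_pow
    kp0 := hC.kp0
    fin := hC.fin }

open Pool.Agent.TWR in
/-- the unramified part -/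
theorem unr (hSYMA : S_SYMA) (hSYMI : S_SYMI) (hCRIT : S_CRIT) (hCRITI : S_CRITI)
    {l g h : ℕ} (hgen : Gen l g h) [Fact p.Prime] (hl : l.Prime) (hpl : p ≠ l)
    (hpl1 : ¬ p ∣ l - 1) (hS : SetQ p q A B P P' V f) (hlf : l ∣ f) (hT : TorX A B)
    {ι : Type} [Fintype ι] (R : Reps A B (p * f) ι) (hG : GRd V R)
    (a : ℕ) (ha1 : 1 < a) (hac : a.Coprime (6 * f * p)) (H : Finset ℂ)
    (hH : IsHalf (R.L R.i0) a H) (J : Type) [Finite J] (kp : J → ι → ℂ) (eta : J → OO A B → ℂ)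
    (hCh : ∀ j, ChD p f R (kp j) (eta j)) :
    ∃ n0 : ℕ, ∀ N, n0 ≤ N → ∀ j, ∀ ψ : DirichletCharacter ℂ (l ^ N), ψ (-1) = 1 →
      ψ (1 + (l : ZMod (l ^ N)) ^ (N - 1)) ≠ 1 →
      ∀ (θ : (RF (idl (f * l ^ N * p)) : IntermediateField (kk A B) ℂ)),
      (θ : ℂ) = ThetaH (R.L R.i0) H (pt R (f * l ^ N * p) R.i0 1) →
      ∀ (D : IntermediateField ℚ ℂ) [FiniteDimensional ℚ D] [FiniteDimensional ℚ (kk A B)]
        (h : kk A B ≤ D),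
      Sub D (RF (idl (f * l ^ N)) : IntermediateField (kk A B) ℂ) → letI := algC h
      ∀ (χ : (D ≃ₐ[kk A B] D) →* (IsLocalRing.ResidueField V)ˣ),
      (∀ (τ : D ≃ₐ[kk A B] D), ∀ q ∈ XX R (f * l ^ N) h τ,
        rsd V (thT R (kp j) (eta j) ψ q.1 (Quotient.out q.2)) =
          (((χ τ)⁻¹ : (IsLocalRing.ResidueField V)ˣ) : IsLocalRing.ResidueField V)) →
      (∃ g : D ≃ₐ[kk A B] D, (∀ x : D,
        (x : ℂ) ∈ (RF (⊤ : Ideal (OO A B)) : IntermediateField (kk A B) ℂ) → g x = x) ∧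
          χ g ≠ 1) →
      ∀ c₀ : D, (c₀ : ℂ) = cW h θ →
      ∃ t : (IsLocalRing.ResidueField V) →+ ZMod p, ∀ y : D,
        y ^ p ≠ Pool.Agent.TWK.sE p χ t c₀ := by
  rcases hS with ⟨-, ⟨hS, -, hq⟩ | ⟨hS, -, hq⟩⟩
  · obtain ⟨w, hw⟩ := t_TEI2 p A B P V hS.cq hS.pp (by have := hS.p5; omega) hS.eP hS.hP hS.hV
    obtain ⟨n1, hn1⟩ := hSYMI l g h hgen p A B P V f hS hlf hT ι R hG w hw J kp eta hCh
    choose M1 hM1 using fun j => UNITI.fac_a hS R (hCh j) l hl hpl hpl1 hlf a ha1 hac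
    choose M2 hM2 using fun j => UNITI.fac_p hS R (hCh j) l hl hpl hpl1
    obtain ⟨b1, hb1⟩ := bound M1
    obtain ⟨b2, hb2⟩ := bound M2
    refine ⟨max n1 (max b1 b2), fun N hN j ψ hψ1 hψ2 θ hθ D _ _ h hs => ?_⟩
    let _ := algC h
    intro χ hval hram c₀ hc₀
    have hnn1 : n1 ≤ N := (le_max_left _ _).trans hN
    have hnb1 : b1 ≤ N := ((le_max_left _ _).trans (le_max_right _ _)).trans hN
    have hnb2 : b2 ≤ N := ((le_max_right _ _).trans (le_max_right _ _)).trans hN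
    exact hCRITI p A B P V f hS hT ι R hG w hw (kp j) (eta j) (hCh j) l N hl hlf ψ hψ1 a
      ha1 hac (hM1 j N ((hb1 j).trans hnb1) ψ hψ2) (hM2 j N ((hb2 j).trans hnb2) ψ hψ2) H hH θ hθ
      D h hs χ hval hram c₀ hc₀ (hn1 N hnn1 j ψ hψ1 hψ2)
  · obtain ⟨w, hw⟩ := Pool.Agent.TWB.t_TEI p A B P V hS.cq hS.pp (by have := hS.p5; omega) hS.hP
      hS.hV
    obtain ⟨n1, hn1⟩ := hSYMA l g h hgen p A B P V f hS hlf hT ι R hG w hw J kp eta hCh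
    obtain ⟨r, y, hr, hy, hny⟩ := UNITA.powP hS R
    choose M1 hM1 using fun j => UNITA.fac_a hS R (hCh j) l hl hpl hpl1 hlf a ha1 hac
    choose M2 hM2 using fun j => UNITA.fac_P hS R (hCh j) l hl hpl hpl1 r y hr hy hny
    obtain ⟨b1, hb1⟩ := bound M1
    obtain ⟨b2, hb2⟩ := bound M2
    refine ⟨max n1 (max b1 b2), fun N hN j ψ hψ1 hψ2 θ hθ D _ _ h hs => ?_⟩
    let _ := algC h
    intro χ hval hram c₀ hc₀
    have hnn1 : n1 ≤ N := (le_max_left _ _).trans hN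
    have hnb1 : b1 ≤ N := ((le_max_left _ _).trans (le_max_right _ _)).trans hN
    have hnb2 : b2 ≤ N := ((le_max_right _ _).trans (le_max_right _ _)).trans hN
    exact hCRIT p A B P V f hS hT ι R hG w hw (kp j) (eta j) (hCh j) l N hl hlf ψ hψ1 a
      ha1 hac (hM1 j N ((hb1 j).trans hnb1) ψ hψ2)
      ⟨r, y, hy, hM2 j N ((hb2 j).trans hnb2) ψ hψ2⟩ H hH θ hθ
      D h hs χ hval hram c₀ hc₀ (hn1 N hnn1 j ψ hψ1 hψ2)

end UNQ

open Pool.Agent.TWR UNQ in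
/-- the unit theorem -/
theorem t_UNQV (hIDQ : S_IDQ) (hSYMQ : S_SYMQ) (hCRTQ : S_CRTQ) (hFACQ : S_FACQ) (hFAQ : S_FAQ)
    (hTRV : S_TRVQ) (hERQ : S_ERQ) (hREDQ : S_REDQ) (hSYMA : S_SYMA) (hSYMI : S_SYMI)
    (hCRIT : S_CRIT) (hCRITI : S_CRITI) : S_UNQV := by
  intro l g h hgen p q _ A B P P' V V' f hS hlf hT ι _ R hG hV' K _ _ hk hcop hK Bn _ hLay hMon
    hRF a ha1 hac H hH
  have hl : l.Prime := by
    rcases hgen with ⟨rfl, -, -⟩ | ⟨rfl, -, -⟩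
    · exact Nat.prime_three
    · exact Nat.prime_two
  haveI : Fact l.Prime := ⟨hl⟩
  have hh : 1 ≤ h := by
    rcases hgen with ⟨-, -, rfl⟩ | ⟨-, -, rfl⟩ <;> norm_num
  have hl1 : l - 1 = 1 ∨ l - 1 = 2 := by
    rcases hgen with ⟨rfl, -, -⟩ | ⟨rfl, -, -⟩ <;> norm_num
  have hl3 : l ≤ 3 := by
    rcases hgen with ⟨rfl, -, -⟩ | ⟨rfl, -, -⟩ <;> norm_num
  obtain ⟨⟨hcq, hp, hp5, hpq, hPp, hOv, hf0, hpf, hfD, -, -⟩, i2, -⟩ := hIDQ p q A B P P' V f hS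
  have hpl : p ≠ l := by omega
  have hpl1 : ¬ p ∣ l - 1 := by
    intro hd
    have := Nat.le_of_dvd (by omega) hd
    omega
  have hlf' : l ∣ f := (dvd_pow_self l (by omega)).trans hlf
  obtain ⟨w, hw⟩ := exW hS
  obtain ⟨J, hJ, kp, eta, e, b, n1, hCh, hF⟩ := ram hSYMQ hCRTQ hFACQ hFAQ hgen hl hh hpl1 hS hlf
    hT R hG hw K hk hK Bn hLay hMon hRF a ha1 hac H hH
  obtain ⟨n2, hn2⟩ := stab hT K hk Bn hMon
  -- `q - 1` is even
  have hq1 : Even (q - 1) := by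
    have hodd : Odd p := hp.odd_of_ne_two (by omega)
    rcases hS.2 with ⟨-, -, hq⟩ | ⟨-, -, hq⟩
    · rw [hq]
      exact Nat.Odd.sub_odd (hodd.pow) odd_one
    · rw [hq]
      exact Nat.Odd.sub_odd hodd odd_one
  -- the unramified characters
  have hq5 : 5 ≤ q := hp5.trans hpq
  obtain ⟨n3, hn3⟩ := unr hSYMA hSYMI hCRIT hCRITI hgen hl hpl hpl1 hS hlf' hT R hG a ha1 hac H hH
    {j : J // e j = 1 ∧ (b j = 0 ∨ b j = q - 1)} (fun j => kp j.1) (fun j => eta j.1)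
    (fun j => by
      have h1 := hCh j.1
      rw [j.2.1] at h1
      refine chD ?_ h1
      rcases j.2.2 with h2 | h2
      · rw [h2]
        exact Even.zero
      · rw [h2]
        exact hq1)
  have hdeg := (TWK.t_DEG2 p l hpl (kk A B) K K Bn hLay hMon hk le_rfl hcop).2.1
  -- the other valuation ring
  have hother : P' = ⊤ ∨ ∃ (w' : OO A B → ℂ) (J' : Type) (kp' : J' → ι → ℂ)
      (eta' : J' → OO A B → ℂ) (e' b' : J' → ℕ) (n0 : ℕ), SetQ p q A B P' P V' f ∧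
      TeQ p q P' V' w' ∧
      (∀ j, ChQ p q f P' P R (kp' j) (eta' j) (e' j) (b' j)) ∧
      ∀ (n : ℕ) (h0 : kk A B ≤ K ⊔ Bn (n + 1)), letI := algC h0
      ∀ χ : (↥(K ⊔ Bn (n + 1)) ≃ₐ[kk A B] ↥(K ⊔ Bn (n + 1))) →* (IsLocalRing.ResidueField V')ˣ,
      (∃ g : ↥(K ⊔ Bn (n + 1)) ≃ₐ[kk A B] ↥(K ⊔ Bn (n + 1)),
        (∀ x : ↥(K ⊔ Bn (n + 1)), (x : ℂ) ∈ K ⊔ Bn n → g x = x) ∧ χ g ≠ 1) →
      ∃ (j : J') (ψ : DirichletCharacter ℂ (l ^ (n + 1 + h))), ψ (-1) = 1 ∧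
        ψ (1 + (l : ZMod (l ^ (n + 1 + h))) ^ (n + 1 + h - 1)) ≠ 1 ∧
        (∀ (τ : ↥(K ⊔ Bn (n + 1)) ≃ₐ[kk A B] ↥(K ⊔ Bn (n + 1))),
        ∀ r ∈ XX R (f * l ^ (n + 1 + h) * p) h0 τ,
          rsd V' (thQ R (kp' j) (eta' j) ψ w' (e' j) (b' j) r.1 (Quotient.out r.2)) =
            (((χ τ)⁻¹ : (IsLocalRing.ResidueField V')ˣ) : IsLocalRing.ResidueField V')) ∧
        (n0 ≤ n → 2 ≤ e' j →
          ∀ (θ : (RF (idl (f * l ^ (n + 1 + h) * p)) : IntermediateField (kk A B) ℂ)),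
          (θ : ℂ) = ThetaH (R.L R.i0) H (pt R (f * l ^ (n + 1 + h) * p) R.i0 1) →
          ∀ (c₀ : ↥(K ⊔ Bn (n + 1))), (c₀ : ℂ) = cW h0 θ →
          ∃ t : (IsLocalRing.ResidueField V') →+ ZMod p, ∀ y : ↥(K ⊔ Bn (n + 1)),
            y ^ p ≠ Pool.Agent.TWK.sE p χ t c₀) := by
    rcases hV' with hV' | ⟨hS', hG'⟩
    · exact Or.inl hV'
    · right
      obtain ⟨w', hw'⟩ := exW hS'
      obtain ⟨J', -, kp', eta', e', b', n0, hCh', hF'⟩ := ram hSYMQ hCRTQ hFACQ hFAQ hgen hl hh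
        hpl1 hS' hlf hT R hG' hw' K hk hK Bn hLay hMon hRF a ha1 hac H hH
      exact ⟨w', J', kp', eta', e', b', n0, hS', hw', hCh', hF'⟩
  have hn4 : ∃ n4 : ℕ, P' = ⊤ ∨ ∃ (w' : OO A B → ℂ) (J' : Type) (kp' : J' → ι → ℂ)
      (eta' : J' → OO A B → ℂ) (e' b' : J' → ℕ), SetQ p q A B P' P V' f ∧
      TeQ p q P' V' w' ∧
      (∀ j, ChQ p q f P' P R (kp' j) (eta' j) (e' j) (b' j)) ∧
      ∀ (n : ℕ) (h0 : kk A B ≤ K ⊔ Bn (n + 1)), letI := algC h0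
      ∀ χ : (↥(K ⊔ Bn (n + 1)) ≃ₐ[kk A B] ↥(K ⊔ Bn (n + 1))) →* (IsLocalRing.ResidueField V')ˣ,
      (∃ g : ↥(K ⊔ Bn (n + 1)) ≃ₐ[kk A B] ↥(K ⊔ Bn (n + 1)),
        (∀ x : ↥(K ⊔ Bn (n + 1)), (x : ℂ) ∈ K ⊔ Bn n → g x = x) ∧ χ g ≠ 1) →
      ∃ (j : J') (ψ : DirichletCharacter ℂ (l ^ (n + 1 + h))), ψ (-1) = 1 ∧
        ψ (1 + (l : ZMod (l ^ (n + 1 + h))) ^ (n + 1 + h - 1)) ≠ 1 ∧
        (∀ (τ : ↥(K ⊔ Bn (n + 1)) ≃ₐ[kk A B] ↥(K ⊔ Bn (n + 1))),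
        ∀ r ∈ XX R (f * l ^ (n + 1 + h) * p) h0 τ,
          rsd V' (thQ R (kp' j) (eta' j) ψ w' (e' j) (b' j) r.1 (Quotient.out r.2)) =
            (((χ τ)⁻¹ : (IsLocalRing.ResidueField V')ˣ) : IsLocalRing.ResidueField V')) ∧
        (n4 ≤ n → 2 ≤ e' j →
          ∀ (θ : (RF (idl (f * l ^ (n + 1 + h) * p)) : IntermediateField (kk A B) ℂ)),
          (θ : ℂ) = ThetaH (R.L R.i0) H (pt R (f * l ^ (n + 1 + h) * p) R.i0 1) →
          ∀ (c₀ : ↥(K ⊔ Bn (n + 1))), (c₀ : ℂ) = cW h0 θ →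
          ∃ t : (IsLocalRing.ResidueField V') →+ ZMod p, ∀ y : ↥(K ⊔ Bn (n + 1)),
            y ^ p ≠ Pool.Agent.TWK.sE p χ t c₀) := by
    rcases hother with h1 | ⟨w', J', kp', eta', e', b', n0, h1⟩
    · exact ⟨0, Or.inl h1⟩
    · exact ⟨n0, Or.inr ⟨w', J', kp', eta', e', b', h1⟩⟩
  obtain ⟨n4, hn4⟩ := hn4
  refine ⟨max (max n1 n2) (max n3 n4), fun n hn θ hθ h0 => ?_⟩
  let _ := algC h0
  intro c₀ hc₀ χ hχ
  have hnn1 : n1 ≤ n := ((le_max_left _ _).trans (le_max_left _ _)).trans hn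
  have hnn2 : n2 ≤ n := ((le_max_right _ _).trans (le_max_left _ _)).trans hn
  have hnn3 : n3 ≤ n := ((le_max_left _ _).trans (le_max_right _ _)).trans hn
  have hnn4 : n4 ≤ n := ((le_max_right _ _).trans (le_max_right _ _)).trans hn
  obtain ⟨j, ψ, hψ1, hψ2, hval, hbig⟩ := hF n h0 χ hχ
  by_cases he : 2 ≤ e j
  · exact hbig hnn1 he θ hθ c₀ hc₀
  have he1 : e j = 1 := by
    have := (hCh j).e1
    omega
  have hC1 := hCh j
  rw [he1] at hC1 hval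
  haveI hchar : CharP (IsLocalRing.ResidueField V) p := charP_res V p (REDQ.v_p_lt hIDQ hS)
  obtain ⟨γ, hγ1, hγχ⟩ := hχ
  by_cases hbj : b j = 0 ∨ b j = q - 1
  · -- unramified above `p`
    obtain ⟨hm0, hpm, hM0, hm3, hM3, hcopR⟩ := REDQ.lev hIDQ hS R (n + 1 + h) hl hlf'
    have hθ0 : θ ≠ 0 := by
      intro h1
      have h2 : (1 : OO A B) ∉ idl (A := A) (B := B) (f * l ^ (n + 1 + h) * p) := by
        intro h3
        have h4 : ((f * l ^ (n + 1 + h) * p : ℕ) : OO A B) ∈ P := by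
          have := (i2 ((f * l ^ (n + 1 + h) * p : ℕ) : ℤ)).2 (by
            push_cast
            exact Dvd.intro_left _ rfl)
          simpa using this
        have h5 : idl (A := A) (B := B) (f * l ^ (n + 1 + h) * p) ≤ P := by
          rw [Ideal.span_singleton_le_iff_mem]
          exact h4
        exact hPp.ne_top ((Ideal.eq_top_iff_one P).2 (h5 h3))
      have haM : a.Coprime (f * l ^ (n + 1 + h) * p) := by
        have h3 : a.Coprime f := Nat.Coprime.coprime_dvd_right ⟨6 * p, by ring⟩ hac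
        have h4 : a.Coprime p := Nat.Coprime.coprime_dvd_right ⟨6 * f, by ring⟩ hac
        have h5 : a.Coprime l := Nat.Coprime.coprime_dvd_right hlf' h3
        exact Nat.Coprime.mul_right (Nat.Coprime.mul_right h3 (h5.pow_right _)) h4
      apply NRR.theta_ne hcq R (f * l ^ (n + 1 + h) * p) hM0 hcopR R.i0 a haM H hH 1 h2
      rw [← hθ, h1]
      rfl
    obtain ⟨D₁, hfd, h₁, hD₁⟩ := hREDQ p q A B P P' V f hS hT ι R w hw (kp j) (eta j) (b j) hC1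
      hbj l (n + 1 + h) hl hpl1 hlf' ψ (K ⊔ Bn (n + 1)) h0 (hRF (n + 1)) (hdeg (n + 1) h0) χ hval
      ⟨γ, fun x hx => hγ1 x (hn2 n hnn2 x x.2 hx), hγχ⟩
    let _ := algC h₁
    obtain ⟨hsub1, χ₁, hval1, hram1, hdesc⟩ := hD₁
    have hs1 : Sub D₁ (RF (idl (f * l ^ (n + 1 + h) * p)) : IntermediateField (kk A B) ℂ) :=
      CRA.subF hT (f * l ^ (n + 1 + h)) p hsub1
    obtain ⟨m1, m2, -⟩ := ty_MEM A B _ (hT.fin _ (CRA.idl_ne hM0)) (hT.gal _ (CRA.idl_ne hM0))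
      (hT.comm _ (CRA.idl_ne hM0)) D₁ h₁ hs1 θ hθ0
    have hmem : cW h₁ θ ∈ D₁ := by
      rw [m1]
      exact (m2 1).1
    obtain ⟨t, ht⟩ := hn3 (n + 1 + h) (by omega) ⟨j, he1, hbj⟩ ψ hψ1 hψ2 θ hθ D₁ h₁ hsub1 χ₁
      hval1 hram1 ⟨cW h₁ θ, hmem⟩ rfl
    exact ⟨t, hdesc θ hθ0 c₀ ⟨cW h₁ θ, hmem⟩ hc₀ rfl t ht⟩
  · -- ramified at `P'`
    rw [not_or] at hbj
    have hbb : P' ≠ ⊤ ∧ 1 ≤ b j ∧ b j < q - 1 := by
      rcases hC1.bb with ⟨-, h1⟩ | ⟨h1, h2, h3⟩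
      · exact absurd h1 hbj.1
      · refine ⟨fun h4 => ?_, h2, ?_⟩
        · rw [h4] at h1
          apply hPp.ne_top
          rw [Ideal.eq_top_iff_one]
          have h5 : (1 : OO A B) ∈ cjI P := h1 ▸ Submodule.mem_top
          have h6 := (Pool.Agent.MUXF.NimX.mem_cjI P 1).1 h5
          rwa [star_one] at h6
        · have := hbj.2
          omega
    rcases hn4 with h4 | ⟨w', J', kp', eta', e', b', hS', hw', hCh', hF'⟩
    · exact absurd h4 hbb.1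
    haveI hchar' : CharP (IsLocalRing.ResidueField V') p := charP_res V' p (REDQ.v_p_lt hIDQ hS')
    haveI := TWK.FIN1x.isAlgClosed_residueField V'
    obtain ⟨χ', hker, htr⟩ := hTRV p (IsLocalRing.ResidueField V) (IsLocalRing.ResidueField V')
      (↥(K ⊔ Bn (n + 1)) ≃ₐ[kk A B] ↥(K ⊔ Bn (n + 1))) χ
    obtain ⟨j', ψ', -, -, hval', hbig'⟩ := hF' n h0 χ'
      ⟨γ, hγ1, fun h5 => hγχ ((hker γ).1 h5)⟩
    have he2 : 2 ≤ e' j' := hERQ p q A B P P' V V' f hS hS' hT ι R w w' hw hw' (kp j) (kp' j')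
      (eta j) (eta' j') (b j) (e' j') (b' j') hC1 hbb.2.1 hbb.2.2 (hCh' j') l (n + 1 + h) hl hpl1
      hlf' ψ ψ' (K ⊔ Bn (n + 1)) h0 (hRF (n + 1)) χ χ' (fun τ => (hker τ).1) hval hval'
    obtain ⟨t', ht'⟩ := hbig' hnn4 he2 θ hθ c₀ hc₀
    obtain ⟨t, ht⟩ := htr t'
    refine ⟨t, fun y hy => ht' y ?_⟩
    rw [hy]
    unfold Pool.Agent.TWK.sE
    exact Finset.prod_congr rfl fun δ _ => by rw [ht δ]

open Pool.Agent.TWR UNQ in
/-- the unit theorem in the form of `DefU.lean` -/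
theorem t_UNQ (hU : S_UNQV) : S_UNQ := by
  intro l g h hgen p q _ A B P P' V f hS hlf hT ι _ R hG hV' K _ _ hk hcop hK Bn _ hLay hMon
    hRF a ha1 hac H hH
  by_cases hP' : P' = ⊤
  · exact hU l g h hgen p q A B P P' V V f hS hlf hT ι R hG (Or.inl hP') K hk hcop hK Bn hLay hMon
      hRF a ha1 hac H hH
  · obtain ⟨V', hO, hG'⟩ := hV' hP'
    refine hU l g h hgen p q A B P P' V V' f hS hlf hT ι R hG (Or.inr ⟨?_, hG'⟩) K hk hcop hK Bn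
      hLay hMon hRF a ha1 hac H hH
    obtain ⟨h3, ⟨-, h4, -⟩ | ⟨hS, h4, hq⟩⟩ := hS
    · exact absurd h4 hP'
    · refine ⟨h3, Or.inr ⟨?_, ?_, hq⟩⟩
      · have hP0 : P ≠ ⊥ := UNITA.P_ne_bot hS
        refine ⟨hS.cq, hS.pp, hS.p5, ?_, hO, hS.pD, hS.f0, hS.fp, hS.fD⟩
        rw [h4]
        refine ⟨?_, ?_, ?_⟩
        · have := hS.hP.prime
          exact Ideal.IsPrime.comap _
        · show star ((p : ℕ) : OO A B) ∈ P
          rw [star_natCast]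
          exact hS.hP.mem
        · rw [nI_cjI hS.cq hP0, hS.hP.norm]
      · rw [h4]
        ext x
        show x ∈ P ↔ star (star x) ∈ P
        rw [star_star]

end

end Pool.Agent.TWQ
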