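import Pool.Agent.TWQ.FinAny
import Pool.Agent.TWQ.BAllQ
import Pool.Agent.TWQ.CAll
import Pool.Agent.TWQ.UNQ
import Pool.Agent.TWQ.ERQ
import Pool.Agent.TWQ.REDQ
import Pool.Agent.TWQ.FAQ
import Pool.Agent.TWQ.TRVQ
import Pool.Agent.TWQ.DSQ
import Pool.Agent.TWQ.RGMQ
import Pool.Agent.TWI.AsmE
import Pool.Agent.TWI.Last

/-!
# TWQ: Theorem C for every finite abelian `K / k` and all primes outside a finite set (helper51)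
-/

set_option autoImplicit false

open NumberField IsDedekindDomain

namespace Pool.Agent.TWQ

open _root_.MU3 Pool.Agent.MU3 Pool.Agent.MU3A Pool.Agent.MU3B Pool.Agent.RI Pool.Agent.RID
  Pool.Agent.MUX Pool.Agent.MUXJ Pool.Agent.MUXY Pool.Agent.TWT Pool.Agent.TWK Pool.Agent.MUXW
  Pool.Agent.MUXI Pool.Agent.MUXZ Pool.Agent.TWF Pool.Agent.TWI

theorem z_UNQ : S_UNQ :=
  t_UNQ (t_UNQV a_IDQ a_SYMQ a_CRTQ a_FACQ (t_FAQ a_IDQ a_TEQ) t_TRVQ (t_ERQ a_IDQ a_TEQ a_THQ)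
    (t_REDQ a_IDQ a_TEQ a_THQ t_RGMQ t_DSQ) Pool.Agent.TWG.t_SYMA z_SYMI
    (Pool.Agent.TWT.t_CRIT Pool.Agent.TWT.a_KEYA) Pool.Agent.TWI.a_CRITI)

/-- Theorem C: every finite abelian `K / k`, all primes outside a finite set. -/
theorem last (k : IntermediateField ℚ ℂ)
    (h2 : Module.finrank ℚ k = 2) (hi : ∃ z ∈ k, (starRingEnd ℂ) z ≠ z)
    (h4 : ∀ z ∈ k, z ^ 2 ≠ -1) (h3 : ∀ z ∈ k, z ^ 2 ≠ -3) :
    ∃ S : Finset ℕ, ∀ p : ℕ, p.Prime → p ∉ S → StA k p :=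
  lastA z_UNQ k h2 hi h4 h3

end Pool.Agent.TWQ
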