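import Pool.Agent.TWQ.CHW

/-!
# TWQ: the parts of a multiplicative function for two coprime ideals (helper51)
-/

set_option autoImplicit false

namespace Pool.Agent.TWQ

namespace PART

variable {O : Type} [CommRing O]

theorem cop_sub {m : Ideal O} {x y : O} (h : x - y ∈ m) (hx : IsCoprime (Ideal.span {x}) m) :
    IsCoprime (Ideal.span {y}) m := by
  obtain ⟨a, ha, b, hb, hab⟩ := Ideal.isCoprime_iff_exists.1 hx
  obtain ⟨c, rfl⟩ := Ideal.mem_span_singleton'.1 ha
  refine Ideal.isCoprime_iff_exists.2 ⟨c * y, Ideal.mem_span_singleton'.2 ⟨c, rfl⟩,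
    c * (x - y) + b, m.add_mem (m.mul_mem_left _ h) hb, ?_⟩
  rw [← hab]
  ring

theorem cop_one {m : Ideal O} : IsCoprime (Ideal.span {(1 : O)}) m := by
  rw [Ideal.span_singleton_one, ← Ideal.one_eq_top]
  exact isCoprime_one_left

/-- the part of `Φ` at `F` -/
theorem part (F G : Ideal O) (c : O) (hcG : c ∈ G) (hcF : 1 - c ∈ F) (Φ : O → ℂ)
    (h1 : Φ 1 = 1) (hm : ∀ x y, Φ (x * y) = Φ x * Φ y)
    (hp : ∀ x y, x - y ∈ F → x - y ∈ G → Φ x = Φ y)
    (hs : ∀ x, Φ x ≠ 0 ↔ IsCoprime (Ideal.span {x}) F ∧ IsCoprime (Ideal.span {x}) G) :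
    Φ (1 * c + (1 - c)) = 1 ∧
    (∀ x y, Φ (x * y * c + (1 - c)) = Φ (x * c + (1 - c)) * Φ (y * c + (1 - c))) ∧
    (∀ x y, x - y ∈ F → Φ (x * c + (1 - c)) = Φ (y * c + (1 - c))) ∧
    ∀ x, Φ (x * c + (1 - c)) ≠ 0 ↔ IsCoprime (Ideal.span {x}) F := by
  have hF : ∀ x : O, x * c + (1 - c) - x ∈ F := by
    intro x
    have h : x * c + (1 - c) - x = (1 - x) * (1 - c) := by ring
    rw [h]
    exact F.mul_mem_left _ hcF
  have hG : ∀ x : O, x * c + (1 - c) - 1 ∈ G := by
    intro x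
    have h : x * c + (1 - c) - 1 = (x - 1) * c := by ring
    rw [h]
    exact G.mul_mem_left _ hcG
  refine ⟨?_, ?_, ?_, ?_⟩
  · rw [one_mul, add_sub_cancel, h1]
  · intro x y
    rw [← hm]
    refine hp _ _ ?_ ?_
    · have h : x * y * c + (1 - c) - (x * c + (1 - c)) * (y * c + (1 - c)) =
          (x * y * c + (1 - c) - x * y) - (x * c + (1 - c) - x) * (y * c + (1 - c)) -
            x * (y * c + (1 - c) - y) := by ring
      rw [h]
      exact F.sub_mem (F.sub_mem (hF _) (F.mul_mem_right _ (hF x))) (F.mul_mem_left _ (hF y))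
    · have h : x * y * c + (1 - c) - (x * c + (1 - c)) * (y * c + (1 - c)) =
          (x * y * c + (1 - c) - 1) - (x * c + (1 - c) - 1) * (y * c + (1 - c)) -
            (y * c + (1 - c) - 1) := by ring
      rw [h]
      exact G.sub_mem (G.sub_mem (hG _) (G.mul_mem_right _ (hG x))) (hG y)
  · intro x y hxy
    refine hp _ _ ?_ ?_
    · have h : x * c + (1 - c) - (y * c + (1 - c)) = (x - y) * c := by ring
      rw [h]
      exact F.mul_mem_right _ hxy
    · have h : x * c + (1 - c) - (y * c + (1 - c)) = (x - y) * c := by ring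
      rw [h]
      exact G.mul_mem_left _ hcG
  · intro x
    rw [hs]
    constructor
    · rintro ⟨h, -⟩
      exact cop_sub (hF x) h
    · intro h
      refine ⟨cop_sub ?_ h, cop_sub ?_ (cop_one (m := G))⟩
      · rw [← neg_sub]
        exact neg_mem (hF x)
      · rw [← neg_sub]
        exact neg_mem (hG x)

/-- the product of the two parts -/
theorem prod (F G : Ideal O) (c : O) (hcG : c ∈ G) (hcF : 1 - c ∈ F) (Φ : O → ℂ)
    (hm : ∀ x y, Φ (x * y) = Φ x * Φ y)
    (hp : ∀ x y, x - y ∈ F → x - y ∈ G → Φ x = Φ y) (x : O) :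
    Φ x = Φ (x * c + (1 - c)) * Φ (x * (1 - c) + (1 - (1 - c))) := by
  rw [← hm]
  have h : x - (x * c + (1 - c)) * (x * (1 - c) + (1 - (1 - c))) =
      -((x - 1) ^ 2 * (c * (1 - c))) := by ring
  refine hp _ _ ?_ ?_
  · rw [h]
    exact neg_mem (F.mul_mem_left _ (F.mul_mem_left _ hcF))
  · rw [h]
    exact neg_mem (G.mul_mem_left _ (G.mul_mem_right _ hcG))

end PART

end Pool.Agent.TWQ
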