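import Pool.Agent.TWQ.SYIA
import Pool.Agent.TWT.SDE

/-!
# TWQ, module SPI (helper19): `p` inert, `e = q - 1`: the part `x ∈ P` of the sum is large
-/

set_option autoImplicit false

open WeierstrassCurve Polynomial NumberField IsDedekindDomain

namespace Pool.Agent.TWQ

open _root_.MU3 Pool.Agent.MU3A Pool.Agent.MU3B Pool.Agent.MU3F Pool.Agent.MUX Pool.Agent.MUXH
  Pool.Agent.MuSym OnePoint Pool.Agent.TWT Pool.Agent.TWG Pool.Agent.TWI
open Pool.Agent.MUXHY (toCQ toEI toLI nI_eq cjI_eq PhiI_eq PP)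
open scoped ComplexConjugate

noncomputable section

namespace Spi

variable {p : ℕ} {A B : ℤ} {P : Ideal (OO A B)} {V : ValuationSubring ℂ} {f : ℕ}

/-- the same representatives, for the level `f` -/
def Rf {ι : Type} (R : Reps A B (p * f) ι) : Reps A B f ι where
  b := R.b
  L := R.L
  om := R.om
  i0 := R.i0
  nl := R.nl
  cop := fun i => Nat.Coprime.coprime_mul_left_right (R.cop i)
  b0 := R.b0
  surj := R.surj
  inj := R.inj

/-- the weights -/
def wf {ι : Type} {n : ℕ} (R : Reps A B n ι) (kp : ι → ℂ) (eta : OO A B → ℂ) (i : ι) : ℂ :=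
  kp i * (eta ((MUX.nI (R.b i) : ℕ) : OO A B))⁻¹

/-- `eta` is an odd character modulo `f` -/
theorem eif {n : ℕ} {ι : Type}
    {R : Reps A B n ι} {kp : ι → ℂ} {eta : OO A B → ℂ} {e b q : ℕ} {P' : Ideal (OO A B)}
    (hch : ChQ p q f P P' R kp eta e b) (hodd : Odd (e - 1 + b)) :
    MUX.IsEI (idl f) eta := by
  constructor
  · exact hch.one
  · exact hch.mul
  · exact hch.per
  · exact hch.supp
  · rw [hch.neg]
    exact Odd.neg_one_pow hodd

/-- the sum over one primitive character -/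
theorem sumf (hS : SetI p A B P V f) {ι : Type} [Fintype ι] (R : Reps A B (p * f) ι)
    {kp : ι → ℂ} {eta : OO A B → ℂ}
    (hei : MUX.IsEI (idl f) eta) {l N : ℕ} (hl : l.Prime) (hlf : l ∣ f)
    (ψ : DirichletCharacter ℂ (l ^ N)) (hψ : ψ⁻¹.IsPrimitive) :
    ∑ b ∈ Finset.range (l ^ N), ψ⁻¹ (b : ZMod (l ^ N)) *
      QI (Rf R) eta (wf R kp eta) ∞ (((b : ℚ) / (l : ℚ) ^ N : ℚ) : OnePoint ℚ) =
    (haveI : NeZero (l ^ N) := ⟨pow_ne_zero _ hl.ne_zero⟩;
      gaussSum ψ⁻¹ ZMod.stdAddChar) / (2 * ((f * l ^ N : ℕ) : ℂ)) *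
      SAll R (f * l ^ N) (thT R kp eta ψ) := by
  have _nz : NeZero (l ^ N) := ⟨pow_ne_zero _ hl.ne_zero⟩
  have hm : f * l ^ N ≠ 0 := mul_ne_zero hS.f0 (pow_ne_zero _ hl.ne_zero)
  have hmg : ((f * l ^ N : ℕ) : OO A B) ∈ (idl f : Ideal (OO A B)) := by
    have : ((f * l ^ N : ℕ) : OO A B) = ((l ^ N : ℕ) : OO A B) * ((f : ℕ) : OO A B) := by
      push_cast
      ring
    rw [this]
    exact Ideal.mul_mem_left _ _ (Ideal.mem_span_singleton_self _)
  have hcopm : ∀ i, (MUX.nI ((Rf R).b i)).Coprime (f * l ^ N) := by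
    intro i
    have h1 := R.cop i
    have h3 : (MUX.nI (R.b i)).Coprime f := Nat.Coprime.coprime_mul_left_right h1
    have h4 : (MUX.nI (R.b i)).Coprime l := Nat.Coprime.coprime_dvd_right hlf h3
    exact Nat.Coprime.mul_right h3 (Nat.Coprime.pow_right N h4)
  have hprim1 : (1 : DirichletCharacter ℂ 1).IsPrimitive :=
    DirichletCharacter.isPrimitive_one_level_one
  have hsum := t_SUM A B hS.cq f ι (Rf R) P (idl f) eta hei
    kp (f * l ^ N) (l ^ N) 1 hm hmg (by rw [mul_one]; exact dvd_mul_left _ _)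
    hcopm ψ⁻¹ hψ 1 hprim1
  have hg1 : gaussSum (1 : DirichletCharacter ℂ 1) ZMod.stdAddChar = 1 := by
    rw [gaussSum]
    have : (Finset.univ : Finset (ZMod 1)) = {0} := rfl
    rw [this, Finset.sum_singleton, AddChar.map_zero_eq_one, mul_one]
    exact MulChar.one_apply (isUnit_of_subsingleton _)
  have h1 : ∀ x : ZMod 1, (1 : DirichletCharacter ℂ 1) x = 1 := fun x =>
    MulChar.one_apply (isUnit_of_subsingleton _)
  have hQP : ∀ x y, QI (Rf R) eta (wf R kp eta) x y = PP (Rf R) P eta kp 0 x y := by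
    intro x y
    rw [MUXHY.Brg.PP_zero]
    rfl
  have hL : ∑ b ∈ Finset.range (l ^ N), ∑ c ∈ Finset.range 1,
      ψ⁻¹ (b : ZMod (l ^ N)) * (1 : DirichletCharacter ℂ 1) (c : ZMod 1) *
      PP (Rf R) P eta kp 0 ∞ (((b : ℚ) / ((l ^ N : ℕ) : ℚ) + (c : ℚ) / ((1 : ℕ) : ℚ) : ℚ) :
        OnePoint ℚ) =
      ∑ b ∈ Finset.range (l ^ N), ψ⁻¹ (b : ZMod (l ^ N)) *
      QI (Rf R) eta (wf R kp eta) ∞ (((b : ℚ) / (l : ℚ) ^ N : ℚ) : OnePoint ℚ) := by
    refine Finset.sum_congr rfl fun b _ => ?_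
    rw [Finset.sum_range_one, h1, mul_one, hQP]
    congr 3
    push_cast
    ring
  rw [← hL, hsum, hg1, mul_one]
  congr 1
  unfold SAll
  refine Finset.sum_congr rfl fun i _ => ?_
  obtain ⟨-, -, -, hfin, -⟩ := MUXF.xf_ALG A B (toCQ hS.cq)
  have hF := hfin _ (idl_ne_bot (A := A) (B := B) hm)
  have hmu : muX (Rf R) i = muX R i := rfl
  rw [mul_comm (kp i), mul_assoc, ← Pool.Agent.MUXF.F5x.sm_mul, hmu]
  congr 2
  funext x
  have h2 : (1 : DirichletCharacter ℂ 1)⁻¹ ((nm x * MUX.nI ((Rf R).b i) : ℤ) : ZMod 1) = 1 := by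
    rw [inv_one]
    exact h1 _
  have hpt : ee ((Rf R).L i) (pt (Rf R) (f * l ^ N) i x) = ee (R.L i) (pt R (f * l ^ N) i x) := rfl
  have hb : (Rf R).b i = R.b i := rfl
  rw [h2, inv_inv, hpt, hb]
  unfold thT
  ring

/-- the sum over the multiples of `p` -/
theorem sumP (hS : SetI p A B P V f) {w : OO A B → ℂ} (hw : TeiI p P V w) (m : ℕ) (hm : m ≠ 0)
    (F : OO A B → ℂ)
    (hF : ∀ x y, x - y ∈ Ideal.span {((m * p : ℕ) : OO A B)} → F x = F y) :
    sumMod ((m * p : ℕ) : OO A B) (fun x => F x * (1 - w x ^ (p ^ 2 - 1))) =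
      sumMod ((m : ℕ) : OO A B) (fun x => F (((p : ℕ) : OO A B) * x)) := by
  have hQ := toCQ hS.cq
  have hp0 := hS.pp.ne_zero
  have hq : p ^ 2 - 1 ≠ 0 := by
    have := hS.p5
    have : 25 ≤ p ^ 2 := by nlinarith
    omega
  obtain ⟨-, -, -, -, hdom⟩ := MUXF.xf_ALG A B hQ
  have hf1 := SDE.finR (A := A) (B := B) (m * p) (mul_ne_zero hm hp0)
  have hf2 := SDE.finR (A := A) (B := B) m hm
  have := Fintype.ofFinite (OO A B ⧸ Ideal.span {((m * p : ℕ) : OO A B)})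
  have := Fintype.ofFinite (OO A B ⧸ Ideal.span {((m : ℕ) : OO A B)})
  have hpO : ((p : ℕ) : OO A B) ≠ 0 := Pool.Agent.MUXN.Gdt.nat_ne p hp0
  have hPp : ∀ x : OO A B, x ∈ P ↔ ((p : ℕ) : OO A B) ∣ x := by
    intro x
    rw [hS.eP]
    exact Ideal.mem_span_singleton
  unfold sumMod
  rw [finsum_eq_sum_of_fintype, finsum_eq_sum_of_fintype]
  symm
  refine Fintype.sum_of_injective (fun q : OO A B ⧸ Ideal.span {((m : ℕ) : OO A B)} =>
    Ideal.Quotient.mk (Ideal.span {((m * p : ℕ) : OO A B)})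
      (((p : ℕ) : OO A B) * Quotient.out q)) ?_ _ _ ?_ ?_
  · intro q q' h
    have h1 : ((m * p : ℕ) : OO A B) ∣
        ((p : ℕ) : OO A B) * Quotient.out q - ((p : ℕ) : OO A B) * Quotient.out q' :=
      (SDE.mk_eq_iff _ _ _).1 h
    rw [← mul_sub, Nat.cast_mul, mul_comm ((m : ℕ) : OO A B)] at h1
    have h2 := (mul_dvd_mul_iff_left hpO).1 h1
    rw [← Ideal.Quotient.mk_out q, ← Ideal.Quotient.mk_out q', SDE.mk_eq_iff]
    exact h2
  · intro u hu
    by_cases h : Quotient.out u ∈ P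
    · exfalso
      apply hu
      obtain ⟨x, hx⟩ := (hPp _).1 h
      refine ⟨Ideal.Quotient.mk _ x, ?_⟩
      show Ideal.Quotient.mk _ (((p : ℕ) : OO A B) * Quotient.out (Ideal.Quotient.mk _ x)) = u
      rw [← Ideal.Quotient.mk_out u, SDE.mk_eq_iff, hx, ← mul_sub, Nat.cast_mul,
        mul_comm ((m : ℕ) : OO A B)]
      refine mul_dvd_mul_left _ ?_
      rw [← SDE.mk_eq_iff, Ideal.Quotient.mk_out]
    · show F (Quotient.out u) * (1 - w (Quotient.out u) ^ (p ^ 2 - 1)) = 0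
      rw [hw.root _ h, sub_self, mul_zero]
  · intro q
    set u := Ideal.Quotient.mk (Ideal.span {((m * p : ℕ) : OO A B)})
      (((p : ℕ) : OO A B) * Quotient.out q) with hu
    have h1 : ((m * p : ℕ) : OO A B) ∣ Quotient.out u - ((p : ℕ) : OO A B) * Quotient.out q := by
      rw [← SDE.mk_eq_iff, Ideal.Quotient.mk_out]
    have h2 : F (Quotient.out u) = F (((p : ℕ) : OO A B) * Quotient.out q) :=
      hF _ _ (Ideal.mem_span_singleton.2 h1)
    have h3 : Quotient.out u ∈ P := by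
      rw [hPp]
      have h4 : ((p : ℕ) : OO A B) ∣ Quotient.out u - ((p : ℕ) : OO A B) * Quotient.out q := by
        refine Dvd.dvd.trans ?_ h1
        rw [Nat.cast_mul]
        exact Dvd.intro_left _ rfl
      have h5 := dvd_add h4 (Dvd.intro (Quotient.out q) (rfl :
        ((p : ℕ) : OO A B) * Quotient.out q = ((p : ℕ) : OO A B) * Quotient.out q))
      rwa [sub_add_cancel] at h5
    show F (((p : ℕ) : OO A B) * Quotient.out q) =
      F (Quotient.out u) * (1 - w (Quotient.out u) ^ (p ^ 2 - 1))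
    rw [h2, (hw.zero _).2 h3, zero_pow hq, sub_zero, mul_one]

/-- `SPt` in terms of the sum of level `m` -/
theorem spt (hS : SetI p A B P V f) {w : OO A B → ℂ} (hw : TeiI p P V w) {ι : Type} [Fintype ι]
    (R : Reps A B (p * f) ι) {kp : ι → ℂ} {eta : OO A B → ℂ} {e b q : ℕ} {P' : Ideal (OO A B)}
    (hch : ChQ p q f P P' R kp eta e b) {l N : ℕ} (hl : l.Prime)
    (ψ : DirichletCharacter ℂ (l ^ N)) :
    SPt R (f * l ^ N * p) (p ^ 2 - 1) (thP R kp eta ψ w 0) w =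
      (eta ((p : ℕ) : OO A B) * ψ ((p : ZMod (l ^ N)) ^ 2)) *
        SAll R (f * l ^ N) (thT R kp eta ψ) := by
  have hcq := hS.cq
  have hm : f * l ^ N ≠ 0 := mul_ne_zero hS.f0 (pow_ne_zero _ hl.ne_zero)
  have hp0 := hS.pp.ne_zero
  unfold SPt SAll
  rw [Finset.mul_sum]
  refine Finset.sum_congr rfl fun i _ => ?_
  obtain ⟨ptp1, ptp2⟩ := Pool.Agent.MUXI.ti_PTP A B hcq (p * f) ι R (f * l ^ N * p)
    (mul_ne_zero hm hp0) i
  rw [mul_left_comm]
  congr 1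
  rw [← SDE.sumMod_cmul]
  have hMf : ∀ x : OO A B, x ∈ idl (A := A) (B := B) (f * l ^ N * p) →
      x ∈ idl (A := A) (B := B) f := by
    intro x hx
    obtain ⟨t, rfl⟩ := Ideal.mem_span_singleton.1 hx
    rw [Ideal.mem_span_singleton]
    refine Dvd.dvd.mul_right ?_ _
    exact Nat.cast_dvd_cast ⟨l ^ N * p, by ring⟩
  have hMl : ∀ x : OO A B, x ∈ idl (A := A) (B := B) (f * l ^ N * p) →
      x ∈ idl (A := A) (B := B) (l ^ N) := by
    intro x hx
    obtain ⟨t, rfl⟩ := Ideal.mem_span_singleton.1 hx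
    rw [Ideal.mem_span_singleton]
    refine Dvd.dvd.mul_right ?_ _
    exact Nat.cast_dvd_cast ⟨f * p, by ring⟩
  have h1 := sumP hS hw (f * l ^ N) hm
    (fun x => thT R kp eta ψ i x * ee (R.L i) (pt R (f * l ^ N * p) i x)) (by
      intro x y hxy
      show thT R kp eta ψ i x * _ = thT R kp eta ψ i y * _
      rw [(ptp1 x y hxy).2.1]
      congr 1
      unfold thT
      rw [hch.per x y (hMf _ hxy)]
      have h3 := SDE.nm_per (l ^ N) (hMl _ hxy)
      have h4 : ((nm x * (MUX.nI (R.b i) : ℤ) : ℤ) : ZMod (l ^ N)) =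
          ((nm y * (MUX.nI (R.b i) : ℤ) : ℤ) : ZMod (l ^ N)) := by
        rw [← sub_eq_zero, ← Int.cast_sub, ZMod.intCast_zmod_eq_zero_iff_dvd, ← sub_mul]
        exact h3.mul_right _
      rw [h4])
  have h2 : (fun x => thP R kp eta ψ w 0 i x * (1 - w x ^ (p ^ 2 - 1)) *
      ee (R.L i) (pt R (f * l ^ N * p) i x)) = fun x =>
      thT R kp eta ψ i x * ee (R.L i) (pt R (f * l ^ N * p) i x) * (1 - w x ^ (p ^ 2 - 1)) := by
    funext x
    unfold thP
    rw [pow_zero]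
    ring
  rw [h2, h1]
  congr 1
  funext x
  have h3 : thT R kp eta ψ i (((p : ℕ) : OO A B) * x) =
      eta ((p : ℕ) : OO A B) * ψ ((p : ZMod (l ^ N)) ^ 2) * thT R kp eta ψ i x := by
    unfold thT
    rw [hch.mul, SDE.nm_nat_mul]
    have e1 : (((p : ℤ) ^ 2 * nm x * (MUX.nI (R.b i) : ℤ) : ℤ) : ZMod (l ^ N)) =
        (p : ZMod (l ^ N)) ^ 2 * ((nm x * (MUX.nI (R.b i) : ℤ) : ℤ) : ZMod (l ^ N)) := by
      push_cast
      ring
    rw [e1, map_mul]
    ring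
  have h4 : pt R (f * l ^ N * p) i (((p : ℕ) : OO A B) * x) = pt R (f * l ^ N) i x := by
    have hpC : (p : ℂ) ≠ 0 := by exact_mod_cast hp0
    have hmC : ((f * l ^ N : ℕ) : ℂ) ≠ 0 := by exact_mod_cast hm
    unfold pt
    rw [emb_mul hcq, emb_natCast hcq, Nat.cast_mul (f * l ^ N) p]
    field_simp
  show thT R kp eta ψ i (((p : ℕ) : OO A B) * x) *
    ee (R.L i) (pt R (f * l ^ N * p) i (((p : ℕ) : OO A B) * x)) = _
  rw [h3, h4]
  ring

end Spi

open Spi in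
/-- (SPI) -/
theorem t_SPI : S_SPI := by
  intro l g h hG p A B P V f hS hlf ι _ R hGR w hw kp eta hch
  have hp := hS.pp
  have hp5 := hS.p5
  have hl : l.Prime := Syq.l_prime hG
  have hpodd : p % 2 = 1 := by
    rcases hp.eq_two_or_odd with h1 | h1
    · omega
    · exact h1
  have hf2 : 2 ≤ f := by
    have h1 := Nat.le_of_dvd (Nat.pos_of_ne_zero hS.f0) hlf
    exact hl.two_le.trans h1
  have hei : MUX.IsEI (idl f) eta := eif hch (by
    have h1 : Odd (p ^ 2) := (Nat.odd_iff.2 hpodd).pow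
    have h2 : 25 ≤ p ^ 2 := by nlinarith
    obtain ⟨k, hk⟩ := h1
    rw [Nat.odd_iff]
    omega)
  have hDf : absD A B ∣ ((f : ℕ) : ℤ) := (Dvd.intro_left 2 rfl).trans hS.fD
  have hsym := q_SYM hS.cq hS.f0 (Rf R) eta hei (wf R kp eta)
  have hchr := q_CHR V hS.cq hS.f0 hDf eta hei
  have hsymE : IsSym (NI A B f) (nuX eta)
      (sgnPart 1 (QI (Rf R) eta (wf R kp eta))) :=
    (tx_HK 1 le_rfl _ (nuX eta) _ (QI (Rf R) eta (wf R kp eta)) hsym hchr.1 1).2.1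
  have hpV : (p : ℂ) ∈ V.nonunits := (ValuationSubring.mem_nonunits_iff _).2 (Syi.vp hS)
  have hLoc : Pool.Agent.NSG.LocN A B V := Pool.Agent.N2.loc_p hp hS.cq (Syi.hV' hS)
  have hroot : ∀ i, ∃ r : ℕ, r ≠ 0 ∧ wf R kp eta i ^ r = 1 := by
    intro i
    obtain ⟨r, hr, h1, -⟩ := hch.fin
    obtain ⟨r', hr', h2⟩ := q_ROU hS.cq hS.f0 eta hei
    refine ⟨r * r', mul_ne_zero (fun h0 => hr (h0 ▸ dvd_zero p)) hr', ?_⟩
    have h3 := h2 _ (MUXHY.Brg.e_nI (Rf R) hei (Ideal.mem_span_singleton_self _) i)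
    have h4 : eta ((MUX.nI (R.b i) : ℕ) : OO A B) ^ r' = 1 := h3
    unfold wf
    rw [mul_pow, pow_mul, h1, one_pow, inv_pow, mul_comm r, pow_mul, h4, one_pow, inv_one,
      mul_one]
  have halg : ∀ x y, IsAlgebraic ℚ (QI (Rf R) eta (wf R kp eta) x y) := fun x y =>
    q_ALG hS.cq hf2 (Rf R) _ hei _ (fun i => by
      obtain ⟨r, hr, h1⟩ := hroot i
      exact IsAlgebraic.of_pow (Nat.pos_of_ne_zero hr) (by rw [h1]; exact isAlgebraic_one)) x y
  obtain ⟨n0, hn0⟩ := Pool.Agent.TWR.a_TW4 l g h hG V p hp hS.p5 (Syi.vp hS) Unit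
    (NI A B f) (NI_ne hS.cq hS.f0) (fun _ => nuX eta)
    (fun _ => hchr.2.1) (fun _ => hchr.1) (fun _ => hchr.2.2.2)
    (fun _ => hchr.2.2.1)
    (fun _ => sgnPart 1 (QI (Rf R) eta (wf R kp eta)))
    (fun _ => hsymE)
    (fun _ x => by
      rw [Syi.sgn1]
      exact (halg _ _).add (halg _ _))
    (fun _ x => by
      rw [Syi.sgn1, Syi.sgn1, neg_neg, add_comm])
    (fun _ x => Syq.depEv _ hl (fun y => q_DEP hS.cq hS.f0 (Rf R) _ hei _ l hl hlf y) x)
    (fun _ N' hN' hd => q_GS hS.cq hf2 V p hp hpV hLoc (Rf R)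
        (hGR.kap _) (hGR.dis _) hDf (Syi.vD hS) eta hei
        (wf R kp eta) (by
          obtain ⟨r, hr, h1⟩ := hroot R.i0
          exact MUXHY.Val.root_one V r _ hr h1) 1 N' hN' hd)
  refine ⟨max n0 2, fun n hn' ψ hψ1 hψ2 => ?_⟩
  have hn2 : 2 ≤ n := (le_max_right _ _).trans hn'
  have hnn : n0 ≤ n := (le_max_left _ _).trans hn'
  have _nzl : NeZero (l ^ n) := ⟨pow_ne_zero _ hl.ne_zero⟩
  have hψi1 : ψ⁻¹ (-1) = 1 := by
    rw [MulChar.inv_apply_eq_inv', hψ1, inv_one]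
  have hψi2 : ψ⁻¹ (1 + (l : ZMod (l ^ n)) ^ (n - 1)) ≠ 1 := by
    rw [MulChar.inv_apply_eq_inv']
    intro h1
    exact hψ2 (inv_eq_one.1 h1)
  have hv := hn0 n hnn () ψ⁻¹ hψi1 hψi2
  have hprim := Gau.prim hl hn2 ψ⁻¹ hψi2
  rw [Syq.sumEv _ (Pool.Agent.TWB.TWBAux.tr_P tx_HK _ _ _ hsym hchr.1) hl ψ⁻¹ hψi1,
    sumf hS R hei hl hlf ψ hprim] at hv
  have hlp : ¬ (p : ℤ) ∣ (l : ℤ) := by
    intro hd
    have h1 : p ∣ l := by exact_mod_cast hd
    exact hS.fp (h1.trans hlf)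
  have vl : V.valuation (l : ℂ) = 1 := by
    have := Syi.vn hS l hlp
    rwa [Int.cast_natCast] at this
  have hg1 : V.valuation (gaussSum ψ⁻¹ ZMod.stdAddChar) ≤ 1 := Gau.gle V ψ⁻¹
  have hv2m : V.valuation (2 * ((f * l ^ n : ℕ) : ℂ)) = 1 := by
    push_cast
    rw [map_mul, map_mul, map_pow, Syi.v2 hS, Syi.vf hS, vl, one_pow, one_mul, one_mul]
  rw [map_mul, map_mul, map_div₀, hv2m, Syi.v2 hS, one_mul, div_one] at hv
  rw [spt hS hw R hch hl ψ, map_mul]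
  have hc1 : V.valuation (eta ((p : ℕ) : OO A B)) = 1 := by
    obtain ⟨r, hr, -, h2⟩ := hch.fin
    have hr0 : r ≠ 0 := fun h0 => hr (h0 ▸ dvd_zero p)
    refine SDE.val_root V hr0 (h2 _ ?_)
    rw [hch.supp, Ideal.isCoprime_span_singleton_iff]
    have h5 := (Nat.isCoprime_iff_coprime.2 ((hp.coprime_iff_not_dvd).2 hS.fp)).map
      (Int.castRingHom (OO A B))
    simpa using h5
  have hc2 : V.valuation (ψ ((p : ZMod (l ^ n)) ^ 2)) = 1 := by
    have hu : IsUnit ((p : ℕ) : ZMod (l ^ n)) := by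
      rw [ZMod.isUnit_iff_coprime]
      refine Nat.Coprime.pow_right n ?_
      rw [hp.coprime_iff_not_dvd]
      intro h1
      exact hlp (by exact_mod_cast h1)
    obtain ⟨u, hu⟩ := hu
    rw [← hu, map_pow]
    rw [map_pow, SDE.val_root V (r := Fintype.card (ZMod (l ^ n))ˣ) Fintype.card_ne_zero (by
      rw [← map_pow, ← Units.val_pow_eq_pow_val, pow_card_eq_one, Units.val_one, map_one]),
      one_pow]
  rw [map_mul, hc1, hc2, one_mul, one_mul]
  exact hv.trans ((mul_le_mul_left hg1 _).trans_eq (one_mul _))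

end

end Pool.Agent.TWQ
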