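import Pool.Agent.TWQ.StQC
import Pool.Agent.TWB.All4

/-!
# TWQ, module TBQ (helper19): twists of a CM symbol modulo `p`, both parities, all large levels

Generalisation of `TWB/REL, UPR, NB, All4` (helper34, helper88 and others) to a nontrivial character `w` modulo `p` with
`w (-1) = s`, `s = 1` or `s = -1`, and the part `s` of the symbol.
-/

set_option autoImplicit false

namespace Pool.Agent.TWQ

open _root_.MU3 Pool.Agent.MuSym Pool.Agent.MUXH OnePoint Finset Pool.Agent.TWB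

noncomputable section

namespace TBQ

open Pool.Agent.TWB.RELAux in
theorem J0 (p : ℕ) [Fact p.Prime] (w : DirichletCharacter ℂ p) :
    ∑ s : ZMod p, w⁻¹ s * w (0 - s) = w (-1) * ((p : ℂ) - 1) := by
  have h1 : ∀ s : ZMod p, w⁻¹ s * w (0 - s) = w (-1) * (1 - (if s = 0 then 1 else 0)) := by
    intro s
    by_cases hs : s = 0
    · subst hs
      have h0 : w⁻¹ (0 : ZMod p) = 0 := MulChar.map_zero _
      rw [h0, zero_mul]
      simp
    · have h2 : (0 - s) = (-1) * s := by ring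
      rw [h2, map_mul, if_neg hs, MulChar.inv_apply' w s]
      have h3 : w s⁻¹ * w s = 1 := by
        rw [← map_mul, inv_mul_cancel₀ hs, map_one]
      linear_combination (w (-1)) * h3
  rw [Finset.sum_congr rfl (fun s _ => h1 s), ← Finset.mul_sum, Finset.sum_sub_distrib,
    Finset.sum_ite_eq']
  simp [ZMod.card]

lemma sq_one (p : ℕ) (w : DirichletCharacter ℂ p) : w (-1) * w (-1) = 1 := by
  rw [← map_mul]
  simp

lemma inv_neg (p : ℕ) [Fact p.Prime] (w : DirichletCharacter ℂ p) : w⁻¹ (-1) = w (-1) := by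
  rw [MulChar.inv_apply' w (-1), inv_neg_one]

theorem J1 (p : ℕ) [Fact p.Prime] (w : DirichletCharacter ℂ p) (hw : w ≠ 1) :
    ∑ s : ZMod p, w⁻¹ s * w (1 - s) = - w (-1) := by
  have hne : w⁻¹ ≠ 1 := fun h => hw (inv_eq_one.1 h)
  have h := jacobiSum_nontrivial_inv hne
  rw [inv_inv, inv_neg] at h
  exact h

theorem Ju (p : ℕ) [Fact p.Prime] (w : DirichletCharacter ℂ p) (hw : w ≠ 1) (u : ZMod p)
    (hu : u ≠ 0) : ∑ s : ZMod p, w⁻¹ s * w (u - s) = - w (-1) := by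
  rw [← J1 p w hw]
  symm
  refine Fintype.sum_equiv (Equiv.mulLeft₀ u hu) _ _ fun s => ?_
  have h2 : u - u * s = u * (1 - s) := by ring
  show w⁻¹ s * w (1 - s) = w⁻¹ (u * s) * w (u - u * s)
  rw [h2, map_mul, map_mul, MulChar.inv_apply' w u]
  have h3 : w u⁻¹ * w u = 1 := by
    rw [← map_mul, inv_mul_cancel₀ hu, map_one]
  linear_combination (-(w⁻¹ s * w (1 - s))) * h3

open Pool.Agent.TWB.RELAux in
/-- the relation for the double twist -/
theorem rel (p : ℕ) (hp : p.Prime) (w : DirichletCharacter ℂ p) (hw : w ≠ 1)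
    (W : ℚ → ℂ) (hW : ∀ x, W (x + 1) = W x) (x : ℚ) :
    ∑ s ∈ range p, w⁻¹ (s : ZMod p) * ∑ c ∈ range p, w (c : ZMod p) *
      W (x + (s : ℚ) / p + (c : ℚ) / p) =
      - w (-1) * (∑ u ∈ range p, W (x + (u : ℚ) / p) - p * W x) := by
  have : Fact p.Prime := ⟨hp⟩
  have : NeZero p := ⟨hp.ne_zero⟩
  set F : ZMod p → ℂ := fun u => W (x + ((u.val : ℕ) : ℚ) / p) with hF
  have hterm : ∀ s c : ℕ, W (x + (s : ℚ) / p + (c : ℚ) / p) = F ((s : ZMod p) + (c : ZMod p)) := by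
    intro s c
    have h1 : x + (s : ℚ) / p + (c : ℚ) / p = x + ((s + c : ℕ) : ℚ) / p := by
      rw [Nat.cast_add, add_div, add_assoc]
    rw [h1, per_cast p W hW x (s + c), hF]
    simp only [Nat.cast_add]
  have hL : ∑ s ∈ range p, w⁻¹ (s : ZMod p) *
      ∑ c ∈ range p, w (c : ZMod p) * W (x + (s : ℚ) / p + (c : ℚ) / p) =
      ∑ s : ZMod p, ∑ c : ZMod p, w⁻¹ s * (w c * F (s + c)) := by
    have h1 : ∀ s : ℕ, w⁻¹ (s : ZMod p) *
        ∑ c ∈ range p, w (c : ZMod p) * W (x + (s : ℚ) / p + (c : ℚ) / p) =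
        ∑ c : ZMod p, w⁻¹ (s : ZMod p) * (w c * F ((s : ZMod p) + c)) := by
      intro s
      rw [← Finset.mul_sum, ← sum_range_zmod p (fun c => w c * F ((s : ZMod p) + c))]
      congr 1
      exact Finset.sum_congr rfl fun c _ => by rw [hterm s c]
    rw [Finset.sum_congr rfl fun s _ => h1 s,
      sum_range_zmod p (fun s => ∑ c : ZMod p, w⁻¹ s * (w c * F (s + c)))]
  have hR : ∑ u ∈ range p, W (x + (u : ℚ) / p) = ∑ u : ZMod p, F u := by
    rw [← sum_range_zmod p F]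
    exact Finset.sum_congr rfl fun u _ => per_cast p W hW x u
  have hx : W x = F 0 := by
    rw [hF]
    simp
  have hre : ∀ s : ZMod p, ∑ c : ZMod p, w⁻¹ s * (w c * F (s + c)) =
      ∑ u : ZMod p, w⁻¹ s * w (u - s) * F u := by
    intro s
    refine Fintype.sum_equiv (Equiv.addLeft s) _ _ fun c => ?_
    simp only [Equiv.coe_addLeft]
    rw [add_sub_cancel_left, mul_assoc]
  have hJ : ∀ u : ZMod p, ∑ s : ZMod p, w⁻¹ s * w (u - s) =
      - w (-1) * (1 - if u = 0 then (p : ℂ) else 0) := by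
    intro u
    by_cases hu : u = 0
    · subst hu
      rw [J0 p w, if_pos rfl]
      ring
    · rw [Ju p w hw u hu, if_neg hu, sub_zero, mul_one]
  rw [hL, hR, hx, Finset.sum_congr rfl fun s _ => hre s, Finset.sum_comm]
  have h5 : ∀ u : ZMod p, ∑ s : ZMod p, w⁻¹ s * w (u - s) * F u =
      - w (-1) * (F u - if u = 0 then (p : ℂ) * F u else 0) := by
    intro u
    rw [← Finset.sum_mul, hJ u]
    by_cases hu : u = 0
    · rw [if_pos hu, if_pos hu]
      ring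
    · rw [if_neg hu, if_neg hu]
      ring
  rw [Finset.sum_congr rfl fun u _ => h5 u, ← Finset.mul_sum, Finset.sum_sub_distrib,
    Finset.sum_ite_eq']
  simp

section UPR

variable {p : ℕ} {V : ValuationSubring ℂ} {N₀ s₀ h : ℕ} {a : ℂ} {nu : ℤ → ℂ}
  {P : ℕ → OnePoint ℚ → OnePoint ℚ → ℂ} {s : ℤ}

/-- One step. -/
theorem step (hyp : HypA p V N₀ s₀ h a nu P s) (i : ℕ) (r : ℚ) :
    ∑ j ∈ range p, sgnPart (s : ℂ) (P i) ∞ (((r + j) / p : ℚ) : OnePoint ℚ) =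
      sgnPart (s : ℂ) (P (i + 1)) ∞ (r : OnePoint ℚ) :=
  (tx_HK p hyp.pp.one_lt.le _ nu (P i) (P (i + 1)) (hyp.sym i) hyp.nu1 s).2.2 hyp.nup
    (hyp.hec i) r

open Pool.Agent.TWB.UPRAux in
/-- Several steps. -/
theorem steps (hyp : HypA p V N₀ s₀ h a nu P s) : ∀ (k : ℕ) (r : ℚ),
    sgnPart (s : ℂ) (P (k + 1)) ∞ (r : OnePoint ℚ) =
      ∑ j ∈ range (p ^ k), sgnPart (s : ℂ) (P 1) ∞ (((r + j) / (p : ℚ) ^ k : ℚ) : OnePoint ℚ) := by
  have hp : (p : ℚ) ≠ 0 := Nat.cast_ne_zero.2 hyp.pp.ne_zero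
  intro k
  induction k with
  | zero =>
    intro r
    simp
  | succ k ih =>
    intro r
    rw [← step hyp (k + 1) r, pow_succ', Pool.Agent.TWB.UPRAux.sum_mul]
    refine Finset.sum_congr rfl fun j _ => ?_
    rw [ih]
    refine Finset.sum_congr rfl fun l _ => ?_
    congr 2
    push_cast
    field_simp
    ring

/-- the relation for `U_p` -/
theorem upr (hyp : HypA p V N₀ s₀ h a nu P s) (x : ℚ) :
    ∑ j ∈ range (p ^ (h - 1)),
      sgnPart (s : ℂ) (P 1) ∞ (((x + j) / (p : ℚ) ^ (h - 1) : ℚ) : OnePoint ℚ) =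
      a * sgnPart (s : ℂ) (P 0) ∞ (x : OnePoint ℚ) := by
  rw [← steps hyp (h - 1) x, Nat.sub_add_cancel hyp.h1]
  unfold sgnPart
  rw [hyp.per, hyp.per]
  ring

open Pool.Agent.TWB.NBAux in
/-- the twist is not zero on closed cycles -/
theorem nb (H : HypA p V N₀ s₀ h a nu P s) (w : DirichletCharacter ℂ p) (hw : w ≠ 1)
    (N' : ℕ) (hN' : N' ≠ 0) (hdvd : p ^ (s₀ + 1) * N₀ ∣ N') :
    ∃ α β γ δ : ℤ, α * δ - β * γ = 1 ∧ (N' : ℤ) ∣ γ ∧ (N' : ℤ) ∣ δ - 1 ∧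
      1 ≤ V.valuation (Bt p w (sgnPart (s : ℂ) (P 0)) ∞ (mob α β γ δ ∞)) := by
  by_contra hcon
  push Not at hcon
  have hp := H.pp
  have hp0 : p ≠ 0 := hp.ne_zero
  have hpQ : (p : ℚ) ≠ 0 := Nat.cast_ne_zero.2 hp0
  have : NeZero p := ⟨hp0⟩
  obtain ⟨W, hW⟩ : ∃ W : ℚ → ℂ, ∀ x, W x = sgnPart (s : ℂ) (P 0) ∞ (x : OnePoint ℚ) :=
    ⟨_, fun _ => rfl⟩
  obtain ⟨W1, hW1⟩ : ∃ W1 : ℚ → ℂ, ∀ x, W1 x = sgnPart (s : ℂ) (P 1) ∞ (x : OnePoint ℚ) :=
    ⟨_, fun _ => rfl⟩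
  have hper : ∀ x, W (x + 1) = W x := by
    intro x
    have h1 := (tx_HK p hp.one_lt.le _ nu (P 0) (P 1) (H.sym 0) H.nu1 s).1 x 1
    rw [hW, hW, ← h1]
    norm_num
  obtain ⟨hS1, hS2, -, hS4, -⟩ := t_SET N' hN'
  have hL2 : N' * p ^ 2 ≠ 0 := mul_ne_zero hN' (pow_ne_zero _ hp0)
  obtain ⟨hT1, -, hT3, -, -⟩ := t_SET (N' * p ^ 2) hL2
  have hpL : p ∣ N' * p ^ 2 := (dvd_pow_self p two_ne_zero).mul_left _
  -- the hypothesis on the twist
  have F2 : ∀ y, SS N' y →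
      V.valuation (∑ c ∈ range p, w (c : ZMod p) * W (y + (c : ℚ) / p)) < 1 := by
    intro y hy
    obtain ⟨α, β, γ, δ, h1, h2, h3, h4, rfl⟩ := hS2 y hy
    have h5 := hcon α β γ δ h1 h2 h3
    rw [mob_inf α β γ δ h4] at h5
    have e : Bt p w (sgnPart (s : ℂ) (P 0)) ∞ (((α : ℚ) / γ : ℚ) : OnePoint ℚ) =
        ∑ c ∈ range p, w (c : ZMod p) * W ((α : ℚ) / γ + (c : ℚ) / p) := by
      unfold Bt
      refine Finset.sum_congr rfl fun c _ => ?_
      rw [mob_tr p c hp0, mob_inf0, hW]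
    rw [e] at h5
    exact h5
  have hσ : V.valuation (w (-1)) = 1 := by
    have h1 := congrArg V.valuation (sq_one p w)
    rw [map_mul, map_one] at h1
    have h2 := val_char_le V w (-1)
    refine le_antisymm h2 ?_
    calc (1 : _) = V.valuation (w (-1)) * V.valuation (w (-1)) := h1.symm
      _ ≤ V.valuation (w (-1)) * 1 := mul_le_mul_right h2 _
      _ = _ := mul_one _
  have F3 : ∀ y, SS (N' * p ^ 2) y →
      V.valuation (∑ u ∈ range p, W (y + (u : ℚ) / p) - p * W y) < 1 := by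
    intro y hy
    have h0 : V.valuation (∑ u ∈ range p, W (y + (u : ℚ) / p) - p * W y) =
        V.valuation (- w (-1) * (∑ u ∈ range p, W (y + (u : ℚ) / p) - p * W y)) := by
      rw [map_mul, Valuation.map_neg, hσ, one_mul]
    rw [h0, ← rel p hp w hw W hper y]
    refine Valuation.map_sum_lt _ one_ne_zero fun t _ => ?_
    rw [map_mul]
    have h1 := hS4 p hp y t hy
    have h2 := F2 _ h1
    have h3 := val_char_le V w⁻¹ (t : ZMod p)
    exact mul_lt_one_of_nonneg_of_lt_one_right h3 zero_le (by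
      simpa using h2)
  have F4 : ∀ x, SS (N' * p ^ 2) x → V.valuation (W1 x - p * W (x / p)) < 1 := by
    intro x hx
    have h1 : SS (N' * p ^ 2) (x / p) := by
      have := hT3 p hp hpL x 0 1 hx
      simpa using this
    have h2 := F3 _ h1
    have h3 : ∑ u ∈ range p, W (x / p + (u : ℚ) / p) = W1 x := by
      rw [hW1, ← step H 0 x]
      refine Finset.sum_congr rfl fun u _ => ?_
      rw [hW, ← add_div]
    rw [h3] at h2
    exact h2
  have F5 : ∀ x, SS (N' * p ^ 2) x →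
      V.valuation (a * W x - p * ∑ j ∈ range (p ^ (h - 1)),
        W (((x + j) / (p : ℚ) ^ (h - 1)) / p)) < 1 := by
    intro x hx
    have h1 : a * W x - p * ∑ j ∈ range (p ^ (h - 1)), W (((x + j) / (p : ℚ) ^ (h - 1)) / p) =
        ∑ j ∈ range (p ^ (h - 1)), (W1 ((x + j) / (p : ℚ) ^ (h - 1)) -
          p * W (((x + j) / (p : ℚ) ^ (h - 1)) / p)) := by
      rw [Finset.sum_sub_distrib, ← Finset.mul_sum, hW x, ← upr H x]
      congr 1
      exact Finset.sum_congr rfl fun j _ => (hW1 _).symm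
    rw [h1]
    refine Valuation.map_sum_lt _ one_ne_zero fun j _ => ?_
    apply F4
    have := hT3 p hp hpL x j (h - 1) hx
    simpa using this
  obtain ⟨k, hk⟩ := tx_BD tx_MAX tx_ALB p V N₀ s₀ h a nu P s H
  have hvs : V.valuation ((s : ℤ) : ℂ) ≤ 1 := by
    rw [ValuationSubring.valuation_le_one_iff]
    exact intCast_mem V s
  have F6 : ∀ x, V.valuation (p ^ k * W x) ≤ 1 := by
    intro x
    rw [hW]
    unfold sgnPart
    have e : (p : ℂ) ^ k * (P 0 ∞ (x : OnePoint ℚ) +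
        (s : ℂ) * P 0 (mob (-1) 0 0 1 ∞) (mob (-1) 0 0 1 (x : OnePoint ℚ))) =
        (p : ℂ) ^ k * P 0 ∞ (x : OnePoint ℚ) +
        (s : ℂ) * ((p : ℂ) ^ k * P 0 (mob (-1) 0 0 1 ∞) (mob (-1) 0 0 1 (x : OnePoint ℚ))) := by
      ring
    rw [e]
    refine (Valuation.map_add _ _ _).trans (max_le (hk _ _ _) ?_)
    rw [map_mul]
    exact mul_le_one' hvs (hk _ _ _)
  have hvp1 : ∀ e : ℕ, V.valuation ((p : ℂ) ^ e) ≤ 1 := by
    intro e
    rw [map_pow]
    exact pow_le_one' H.vp.le e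
  have F7 : ∀ i : ℕ, i ≤ k + 1 → ∀ x, SS (N' * p ^ 2) x →
      V.valuation ((p : ℂ) ^ (k + 1 - i) * W x) < 1 := by
    intro i
    induction i with
    | zero =>
      intro _ x _
      rw [Nat.sub_zero, pow_succ', mul_assoc, map_mul]
      exact mul_lt_one_of_nonneg_of_lt_one_left zero_le H.vp (F6 x)
    | succ i ih =>
      intro hi x hx
      obtain ⟨e, he⟩ : ∃ e, e = k + 1 - (i + 1) := ⟨_, rfl⟩
      have he1 : k + 1 - i = e + 1 := by omega
      rw [← he]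
      have h1 := ih (by omega)
      rw [he1] at h1
      have h2 : (p : ℂ) ^ e * (a * W x) =
          (p : ℂ) ^ e * (a * W x - p * ∑ j ∈ range (p ^ (h - 1)),
            W (((x + j) / (p : ℚ) ^ (h - 1)) / p)) +
          ∑ j ∈ range (p ^ (h - 1)), (p : ℂ) ^ (e + 1) *
            W (((x + j) / (p : ℚ) ^ (h - 1)) / p) := by
        rw [← Finset.mul_sum]
        ring
      have h3 : V.valuation ((p : ℂ) ^ e * (a * W x)) < 1 := by
        rw [h2]
        refine Valuation.map_add_lt _ ?_ ?_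
        · rw [map_mul]
          exact mul_lt_one_of_nonneg_of_lt_one_right (hvp1 e) zero_le (F5 x hx)
        · refine Valuation.map_sum_lt _ one_ne_zero fun j _ => ?_
          apply h1
          have h4 := hT3 p hp hpL x j (h - 1) hx
          have h5 := hT3 p hp hpL _ 0 1 h4
          simpa using h5
      rw [map_mul, map_mul, H.va, one_mul, ← map_mul] at h3
      exact h3
  have F8 : ∀ x, SS (N' * p ^ 2) x → V.valuation (W x) < 1 := by
    intro x hx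
    have := F7 (k + 1) le_rfl x hx
    simpa using this
  obtain ⟨α, β, γ, δ, h1, h2, h3, h4⟩ := t_H1G p V N₀ s₀ h a nu P s H (N' * p ^ 2) hL2
    (hdvd.mul_right _)
  by_cases hγ : γ = 0
  · rw [hγ, mob_inf0] at h4
    have h5 : sgnPart (s : ℂ) (P 0) ∞ ∞ = 0 := by
      unfold sgnPart
      rw [self_zero (H.sym 0), self_zero (H.sym 0), mul_zero, add_zero]
    rw [h5, map_zero] at h4
    exact absurd h4 (not_le.2 zero_lt_one)
  · rw [mob_inf α β γ δ hγ, ← hW] at h4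
    exact absurd h4 (not_le.2 (F8 _ (hT1 α β γ δ h1 h2 h3 hγ)))

/-- the even (odd) part of `U_p Φ` is not zero on closed cycles -/
theorem nb1 (H : HypA p V N₀ s₀ h a nu P s)
    (N' : ℕ) (hN' : N' ≠ 0) (hdvd : p ^ (s₀ + 1) * N₀ ∣ N') :
    ∃ α β γ δ : ℤ, α * δ - β * γ = 1 ∧ (N' : ℤ) ∣ γ ∧ (N' : ℤ) ∣ δ - 1 ∧
      1 ≤ V.valuation (sgnPart (s : ℂ) (P 1) ∞ (mob α β γ δ ∞)) := by
  by_contra hcon
  push Not at hcon
  have hp := H.pp
  obtain ⟨hS1, hS2, hS3, -, -⟩ := t_SET N' hN'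
  have hpL : p ∣ N' := ((dvd_pow_self p (Nat.succ_ne_zero _)).mul_right _).trans hdvd
  have F2 : ∀ y, SS N' y → V.valuation (sgnPart (s : ℂ) (P 1) ∞ (y : OnePoint ℚ)) < 1 := by
    intro y hy
    obtain ⟨α, β, γ, δ, h1, h2, h3, h4, rfl⟩ := hS2 y hy
    have h5 := hcon α β γ δ h1 h2 h3
    rw [Pool.Agent.TWB.NBAux.mob_inf α β γ δ h4] at h5
    exact h5
  have F8 : ∀ x, SS N' x → V.valuation (sgnPart (s : ℂ) (P 0) ∞ (x : OnePoint ℚ)) < 1 := by
    intro x hx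
    have h1 : V.valuation (a * sgnPart (s : ℂ) (P 0) ∞ (x : OnePoint ℚ)) < 1 := by
      rw [← upr H x]
      refine Valuation.map_sum_lt _ one_ne_zero fun j _ => ?_
      apply F2
      have := hS3 p hp hpL x j (h - 1) hx
      simpa using this
    rwa [map_mul, H.va, one_mul] at h1
  obtain ⟨α, β, γ, δ, h1, h2, h3, h4⟩ := t_H1G p V N₀ s₀ h a nu P s H N' hN' hdvd
  by_cases hγ : γ = 0
  · rw [hγ, Pool.Agent.TWB.NBAux.mob_inf0] at h4
    have h5 : sgnPart (s : ℂ) (P 0) ∞ ∞ = 0 := by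
      unfold sgnPart
      rw [Pool.Agent.TWB.NBAux.self_zero (H.sym 0), Pool.Agent.TWB.NBAux.self_zero (H.sym 0),
        mul_zero, add_zero]
    rw [h5, map_zero] at h4
    exact absurd h4 (not_le.2 zero_lt_one)
  · rw [Pool.Agent.TWB.NBAux.mob_inf α β γ δ hγ] at h4
    exact absurd h4 (not_le.2 (F8 _ (hS1 α β γ δ h1 h2 h3 hγ)))

end UPR

section MAIN

open Pool.Agent.TWB.TWBAux

/-- the part `s` on the paths from infinity -/
lemma sgn_s (s : ℂ) (P : OnePoint ℚ → OnePoint ℚ → ℂ) (y : ℚ) :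
    sgnPart s P ∞ (y : OnePoint ℚ) = P ∞ (y : OnePoint ℚ) + s * P ∞ ((-y : ℚ) : OnePoint ℚ) := by
  unfold sgnPart
  rw [TWBAux.mob_inf, mob_ng]

/-- the symbol in the direction `-y`: the substitution `c ↦ -c` -/
lemma sum_ws (p : ℕ) (hp : p ≠ 0) (w : DirichletCharacter ℂ p) (U : ℚ → ℂ)
    (hU : ∀ (r : ℚ) (k : ℤ), U (r + k) = U r) (x : ℚ) :
    ∑ c ∈ range p, w (c : ZMod p) * U (x - (c : ℚ) / p) =
      w (-1) * ∑ c ∈ range p, w (c : ZMod p) * U (x + (c : ℚ) / p) := by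
  have hp' : (p : ℚ) ≠ 0 := Nat.cast_ne_zero.2 hp
  have h := sum_neg p (fun c => w ((c : ℤ) : ZMod p) * U (x + (c : ℚ) / p)) (by
    intro c
    have e1 : (((c + p : ℤ)) : ZMod p) = ((c : ℤ) : ZMod p) := by simp
    have e2 : x + ((c + p : ℤ) : ℚ) / p = (x + (c : ℚ) / p) + ((1 : ℤ) : ℚ) := by
      push_cast
      field_simp
      ring
    simp only [e1, e2, hU])
  have h3 : ∑ c ∈ range p, w (((-(c : ℤ) : ℤ)) : ZMod p) * U (x + ((-(c : ℤ) : ℤ) : ℚ) / p) =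
      w (-1) * ∑ c ∈ range p, w (c : ZMod p) * U (x - (c : ℚ) / p) := by
    rw [Finset.mul_sum]
    refine sum_congr rfl fun c _ => ?_
    have e1 : (((-(c : ℤ) : ℤ)) : ZMod p) = (-1) * (c : ZMod p) := by
      push_cast
      ring
    have e2 : x + ((-(c : ℤ) : ℤ) : ℚ) / p = x - (c : ℚ) / p := by
      push_cast
      ring
    rw [e1, map_mul, e2]
    ring
  simp only [Int.cast_natCast] at h
  rw [← h, h3, ← mul_assoc, sq_one, one_mul]

end MAIN

end TBQ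

open TBQ Pool.Agent.TWB.TWBAux in
/-- (TBQ) -/
theorem t_TBQ : S_TBQ := by
  intro l g h' hG V p hp5 N₀ s₀ h a nu P s hyp hdep w hw hws
  have hpp : p.Prime := hyp.pp
  have hp0 : p ≠ 0 := hpp.ne_zero
  have _nz : NeZero p := ⟨hp0⟩
  have hss : (s : ℂ) * w (-1) = 1 := by
    rw [← hws]
    exact sq_one p w
  have hsa : IsAlgebraic ℚ ((s : ℤ) : ℂ) := isAlgebraic_intCast (R := ℚ) (A := ℂ) s
  have hN1 : p ^ (s₀ + 1) * N₀ ≠ 0 := mul_ne_zero (pow_ne_zero _ hp0) hyp.N0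
  have hN : p ^ (s₀ + 1) * N₀ * p ^ 2 ≠ 0 := mul_ne_zero hN1 (pow_ne_zero _ hp0)
  have hdvd1 : ((p * N₀ : ℕ) : ℤ) ∣ ((p ^ (s₀ + 1) * N₀ : ℕ) : ℤ) := by
    refine Int.natCast_dvd_natCast.2 (Nat.mul_dvd_mul_right (dvd_pow_self p (Nat.succ_ne_zero _)) N₀)
  have hper1 : ∀ (d d' : ℤ), ((p ^ (s₀ + 1) * N₀ : ℕ) : ℤ) ∣ d - d' → nu d = nu d' :=
    fun d d' hd => hyp.nuper d d' (hdvd1.trans hd)
  have hS : IsSym (p ^ (s₀ + 1) * N₀) nu (sgnPart (s : ℂ) (P 0)) :=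
    (tx_HK 1 le_rfl _ nu (P 0) (P 0) (hyp.sym 0) hyp.nu1 s).2.1
  have hW : ∀ (y : ℚ) (k : ℤ), sgnPart (s : ℂ) (P 0) ∞ ((y + k : ℚ) : OnePoint ℚ) =
      sgnPart (s : ℂ) (P 0) ∞ (y : OnePoint ℚ) :=
    (tx_HK 1 le_rfl _ nu (P 0) (P 0) (hyp.sym 0) hyp.nu1 s).1
  have hPt : ∀ (y : ℚ) (k : ℤ), P 0 ∞ ((y + k : ℚ) : OnePoint ℚ) =
      P 0 ∞ (y : OnePoint ℚ) := fun y k =>
    tr_P tx_HK _ nu (P 0) (hyp.sym 0) hyp.nu1 y k
  have hodd : ∀ (y : ℚ), sgnPart (s : ℂ) (P 0) ∞ ((-y : ℚ) : OnePoint ℚ) =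
      s * sgnPart (s : ℂ) (P 0) ∞ (y : OnePoint ℚ) := by
    intro y
    rw [sgn_s, sgn_s, neg_neg]
    have h1 : (s : ℂ) * s = 1 := by
      rcases hyp.s1 with h1 | h1 <;> rw [h1] <;> norm_num
    linear_combination (- P 0 ∞ ((-y : ℚ) : OnePoint ℚ)) * h1
  obtain ⟨C, hC⟩ := TWR.a_TW4 l g h' hG V p hpp hp5 hyp.vp Unit (p ^ (s₀ + 1) * N₀ * p ^ 2) hN
    (fun _ d => nu d * (w⁻¹ (d : ZMod p)) ^ 2)
    (by
      intro _ d
      rw [map_mul, map_pow]
      exact mul_le_one' (hyp.nuv d) (pow_le_one' (chi_val V p w⁻¹ _) 2))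
    (by
      intro _
      simp [hyp.nu1])
    (by
      intro _ d d' hd
      have e1 : nu d = nu d' := hper1 d d' (Dvd.dvd.trans (by
        push_cast
        exact Dvd.intro _ rfl) hd)
      have e2 : (d : ZMod p) = (d' : ZMod p) := by
        rw [ZMod.intCast_eq_intCast_iff_dvd_sub]
        refine (dvd_sub_comm).1 (Dvd.dvd.trans ?_ hd)
        push_cast
        exact Dvd.dvd.mul_left (dvd_pow_self _ two_ne_zero) _
      simp only [e1, e2])
    (by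
      intro _ d
      exact (t_NUA p V N₀ s₀ h a nu P s hyp d).mul
        ((chi_alg p w⁻¹ _).pow 2))
    (fun _ => Bt p w (sgnPart (s : ℂ) (P 0)))
    (fun _ => t_SYM p hpp _ hN1 nu hyp.nu1 hper1 _ hS w)
    (by
      intro _ x
      rw [Bt_inf p hp0]
      refine alg_sum _ _ fun c => ?_
      rw [sgn_s]
      exact (chi_alg p w _).mul ((hyp.alg _ _).add (hsa.mul (hyp.alg _ _))))
    (by
      intro _ x
      rw [Bt_inf p hp0, Bt_inf p hp0]
      have h1 := sum_ws p hp0 w (fun y : ℚ => sgnPart (s : ℂ) (P 0) ∞ (y : OnePoint ℚ)) hW x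
      have h2 : ∑ c ∈ range p, w (c : ZMod p) *
          sgnPart (s : ℂ) (P 0) ∞ ((-x + (c : ℚ) / p : ℚ) : OnePoint ℚ) =
          s * ∑ c ∈ range p, w (c : ZMod p) *
            sgnPart (s : ℂ) (P 0) ∞ ((x - (c : ℚ) / p : ℚ) : OnePoint ℚ) := by
        rw [Finset.mul_sum]
        refine sum_congr rfl fun c _ => ?_
        have e : (-x + (c : ℚ) / p : ℚ) = -(x - (c : ℚ) / p) := by ring
        rw [e, hodd]
        ring
      rw [h2, h1, ← mul_assoc, hss, one_mul])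
    (by
      intro _ x
      simp only [Bt_inf p hp0]
      rw [sum_comm]
      refine sum_eq_zero fun c _ => ?_
      rw [← mul_sum]
      have h0 : ∑ k ∈ range l, sgnPart (s : ℂ) (P 0) ∞
          ((x + (k : ℚ) / l + (c : ℚ) / p : ℚ) : OnePoint ℚ) = 0 := by
        simp only [sgn_s]
        rw [sum_add_distrib]
        have h1 : ∑ k ∈ range l, P 0 ∞ ((x + (k : ℚ) / l + (c : ℚ) / p : ℚ) : OnePoint ℚ) = 0 := by
          have := hdep (x + (c : ℚ) / p)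
          rw [← this]
          refine sum_congr rfl fun k _ => ?_
          rw [show x + (k : ℚ) / l + (c : ℚ) / p = x + (c : ℚ) / p + (k : ℚ) / l by ring]
        have h2 : ∑ k ∈ range l, P 0 ∞
            ((-(x + (k : ℚ) / l + (c : ℚ) / p) : ℚ) : OnePoint ℚ) = 0 := by
          have := hdep (-(x + (c : ℚ) / p) - ((l : ℚ) - 1) / l)
          rw [← this, ← sum_range_reflect]
          refine sum_congr rfl fun k hk' => ?_
          have hkl : k < l := mem_range.1 hk'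
          have hc : ((l - 1 - k : ℕ) : ℚ) = (l : ℚ) - 1 - k := by
            rw [Nat.cast_sub (by omega), Nat.cast_sub (by omega)]
            simp
          rw [hc]
          congr 2
          ring
        rw [h1, ← mul_sum, h2, mul_zero, add_zero]
      rw [h0, mul_zero])
    (by
      intro _ N' hN' hd
      exact nb hyp w hw N' hN' ((Dvd.intro _ rfl).trans hd))
  refine ⟨C, fun n hn ψ hψ1 hψ2 => ?_⟩
  have hv := hC n hn () ψ hψ1 hψ2
  have hm0 : l ^ n ≠ 0 := by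
    rcases hG with ⟨hl, -, -⟩ | ⟨hl, -, -⟩ <;> rw [hl] <;> positivity
  have hm0' : ((l ^ n : ℕ) : ℚ) ≠ 0 := Nat.cast_ne_zero.2 hm0
  set S : ℂ := ∑ b ∈ range (l ^ n), ∑ c ∈ range p, ψ b * w (c : ZMod p) *
      P 0 ∞ (((b : ℚ) / (l : ℚ) ^ n + (c : ℚ) / p : ℚ) : OnePoint ℚ) with hSdef
  have hS' : ∑ b ∈ range (l ^ n), ∑ c ∈ range p, ψ b * w (c : ZMod p) *
      P 0 ∞ ((-((b : ℚ) / (l : ℚ) ^ n + (c : ℚ) / p) : ℚ) : OnePoint ℚ) = w (-1) * S := by
    have hin : ∀ b : ℕ, ∑ c ∈ range p, ψ b * w (c : ZMod p) *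
        P 0 ∞ ((-((b : ℚ) / (l : ℚ) ^ n + (c : ℚ) / p) : ℚ) : OnePoint ℚ) =
        w (-1) * ∑ c ∈ range p, ψ b * w (c : ZMod p) *
          P 0 ∞ ((-((b : ℚ) / (l : ℚ) ^ n) + (c : ℚ) / p : ℚ) : OnePoint ℚ) := by
      intro b
      have h1 := sum_ws p hp0 w (fun y : ℚ => P 0 ∞ (y : OnePoint ℚ)) hPt
        (-((b : ℚ) / (l : ℚ) ^ n))
      have h2 := congrArg (fun z => ψ b * z) h1
      simp only [mul_sum] at h2 ⊢
      have h3 : ∀ c : ℕ, ψ b * w (c : ZMod p) *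
          P 0 ∞ ((-((b : ℚ) / (l : ℚ) ^ n + (c : ℚ) / p) : ℚ) : OnePoint ℚ) =
          ψ b * (w (c : ZMod p) *
          P 0 ∞ ((-((b : ℚ) / (l : ℚ) ^ n) - (c : ℚ) / p : ℚ) : OnePoint ℚ)) := by
        intro c
        rw [mul_assoc]
        congr 3
        congr 1
        ring
      rw [sum_congr rfl fun c _ => h3 c, h2]
      refine sum_congr rfl fun c _ => ?_
      ring
    rw [sum_congr rfl fun b _ => hin b, ← mul_sum, hSdef]
    congr 1
    have h := sum_neg (l ^ n) (fun b : ℤ => ∑ c ∈ range p,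
      ψ ((b : ℤ) : ZMod (l ^ n)) * w (c : ZMod p) *
      P 0 ∞ (((b : ℚ) / (l : ℚ) ^ n + (c : ℚ) / p : ℚ) : OnePoint ℚ)) (by
      intro b
      have e1 : (((b + (l ^ n : ℕ) : ℤ)) : ZMod (l ^ n)) =
          ((b : ℤ) : ZMod (l ^ n)) := by
        rw [Int.cast_add, Int.cast_natCast, ZMod.natCast_self, add_zero]
      have e2 : ∀ c : ℕ, ((b + (l ^ n : ℕ) : ℤ) : ℚ) / (l : ℚ) ^ n + (c : ℚ) / p =
          ((b : ℚ) / (l : ℚ) ^ n + (c : ℚ) / p) + ((1 : ℤ) : ℚ) := by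
        intro c
        have hl' : (l : ℚ) ^ n ≠ 0 := by
          have := hm0'
          push_cast at this
          exact this
        have : ((b + (l ^ n : ℕ) : ℤ) : ℚ) / (l : ℚ) ^ n =
            (b : ℚ) / (l : ℚ) ^ n + 1 := by
          push_cast
          rw [add_div, div_self hl']
        rw [this]
        push_cast
        ring
      refine sum_congr rfl fun c _ => ?_
      rw [e1, e2, hPt])
    simp only [Int.cast_natCast] at h
    rw [← h]
    refine sum_congr rfl fun b _ => ?_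
    refine sum_congr rfl fun c _ => ?_
    have e1 : ψ (((-(b : ℤ) : ℤ)) : ZMod (l ^ n)) = ψ (b : ZMod (l ^ n)) := by
      rw [show (((-(b : ℤ) : ℤ)) : ZMod (l ^ n)) = (-1) * (b : ZMod (l ^ n)) by
        push_cast; ring, map_mul, hψ1, one_mul]
    have e2 : ((-(b : ℤ) : ℤ) : ℚ) / (l : ℚ) ^ n + (c : ℚ) / p =
        -((b : ℚ) / (l : ℚ) ^ n) + (c : ℚ) / p := by
      push_cast
      ring
    rw [e1, e2]
  have hsum : ∑ b ∈ range (l ^ n), ψ b *
      Bt p w (sgnPart (s : ℂ) (P 0)) ∞ (((b : ℚ) / (l : ℚ) ^ n : ℚ) : OnePoint ℚ) = 2 * S := by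
    have h1 : ∀ b : ℕ, ψ b *
        Bt p w (sgnPart (s : ℂ) (P 0)) ∞ (((b : ℚ) / (l : ℚ) ^ n : ℚ) : OnePoint ℚ) =
        ∑ c ∈ range p, ψ b * w (c : ZMod p) *
          P 0 ∞ (((b : ℚ) / (l : ℚ) ^ n + (c : ℚ) / p : ℚ) : OnePoint ℚ) +
        s * ∑ c ∈ range p, ψ b * w (c : ZMod p) *
          P 0 ∞ ((-((b : ℚ) / (l : ℚ) ^ n + (c : ℚ) / p) : ℚ) : OnePoint ℚ) := by
      intro b
      rw [Bt_inf p hp0, mul_sum, mul_sum, ← sum_add_distrib]
      refine sum_congr rfl fun c _ => ?_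
      rw [sgn_s]
      ring
    rw [sum_congr rfl fun b _ => h1 b, sum_add_distrib, ← mul_sum, hS', hSdef, ← mul_assoc, hss]
    ring
  have hv' : 1 ≤ V.valuation (2 * S) := by
    rw [← hsum]
    exact hv
  rw [map_mul] at hv'
  have hv2 : V.valuation (2 : ℂ) ≤ 1 := by
    rw [ValuationSubring.valuation_le_one_iff]
    exact ofNat_mem V 2
  calc (1 : _) ≤ V.valuation 2 * V.valuation S := hv'
    _ ≤ 1 * V.valuation S := mul_le_mul_left hv2 _
    _ = V.valuation S := one_mul _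

end

end Pool.Agent.TWQ
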