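import Pool.Agent.TWQ.SYSA
import Pool.Agent.TWQ.TBQ

/-!
# TWQ, module SPS (helper19): `p` split, `e = p - 1`: the part `x ∈ P` of the sum is large
-/

set_option autoImplicit false

open WeierstrassCurve Polynomial NumberField IsDedekindDomain

namespace Pool.Agent.TWQ

open _root_.MU3 Pool.Agent.MU3A Pool.Agent.MU3B Pool.Agent.MU3F Pool.Agent.MUX Pool.Agent.MUXH
  Pool.Agent.MuSym OnePoint Pool.Agent.TWT Pool.Agent.TWG Pool.Agent.TWI
open Pool.Agent.MUXHY (toCQ toEI toLI nI_eq cjI_eq PhiI_eq PP N0X)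
open scoped ComplexConjugate

noncomputable section

namespace Sps

lemma ex_sum (r : ℕ) [NeZero r] (k : ℤ) :
    ∑ j ∈ Finset.range r, ex (((j * k : ℤ) : ℚ) / r) =
      if (r : ℤ) ∣ k then (r : ℂ) else 0 := by
  have h1 : ∀ j ∈ Finset.range r, ex (((j * k : ℤ) : ℚ) / r) =
      (fun t : ZMod r => ZMod.stdAddChar (t * ((k : ℤ) : ZMod r))) ((j : ℕ) : ZMod r) := by
    intro j _
    rw [Gau.ex_int]
    push_cast
    rfl
  rw [Finset.sum_congr rfl h1,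
    TWR.STAAux.sum_zmod r (fun t : ZMod r => (ZMod.stdAddChar (t * ((k : ℤ) : ZMod r)) : ℂ))]
  have h2 := AddChar.sum_mulShift ((k : ℤ) : ZMod r) (ZMod.isPrimitive_stdAddChar r)
  simp only [ZMod.card] at h2
  rw [h2]
  by_cases h3 : (r : ℤ) ∣ k
  · rw [if_pos h3, if_pos ((ZMod.intCast_zmod_eq_zero_iff_dvd k r).2 h3)]
  · rw [if_neg h3, if_neg (fun h4 => h3 ((ZMod.intCast_zmod_eq_zero_iff_dvd k r).1 h4))]
    push_cast
    rfl

/-- the sum over the multiples of `r` -/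
theorem sum_mul (A B : ℤ) (hc : MUX.CQ A B) (n : ℕ) (ι : Type) [Fintype ι] (R : Reps A B n ι)
    (P g : Ideal (OO A B)) (e : OO A B → ℂ) (he : MUX.IsEI g e) (wt : ι → ℂ) (m q r : ℕ)
    (hm : m ≠ 0) (hmg : (m : OO A B) ∈ g) (hqr : q * r ∣ m)
    (hcop : ∀ i, (MUX.nI (R.b i)).Coprime m) [NeZero q] [NeZero r]
    (ψ : DirichletCharacter ℂ q) (hψ : ψ.IsPrimitive) :
    ψ⁻¹ (r : ZMod q) * ∑ b ∈ Finset.range q, ψ (b : ZMod q) * ∑ c ∈ Finset.range r,
      PP R P e wt 0 ∞ ((((b : ℚ) / q + (c : ℚ)) / r : ℚ) : OnePoint ℚ) =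
    gaussSum ψ ZMod.stdAddChar * r / (2 * m) *
      ∑ i, wt i * muX R i * sumMod (m : OO A B) (fun x =>
        e x * (if (r : ℤ) ∣ (nm x * MUX.nI (R.b i) : ℤ) then
          ψ⁻¹ ((nm x * MUX.nI (R.b i) : ℤ) : ZMod q) else 0) * ee (R.L i) (pt R m i x)) := by
  have hQ := toCQ hc
  obtain ⟨hal, hx, hz, hfin, hdom⟩ := MUXF.xf_ALG A B hQ
  have hq0 : q ≠ 0 := NeZero.ne q
  have hr0 : r ≠ 0 := NeZero.ne r
  have hM0 : q * r ≠ 0 := mul_ne_zero hq0 hr0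
  have hmC : (m : ℂ) ≠ 0 := by exact_mod_cast hm
  have hqQ : (q : ℚ) ≠ 0 := by exact_mod_cast hq0
  have hrQ : (r : ℚ) ≠ 0 := by exact_mod_cast hr0
  have hF := hfin _ (idl_ne_bot (A := A) (B := B) hm)
  have homi : ∀ i, R.om i ≠ 0 := fun i => (R.nl i).om_ne
  -- the values of the symbols
  have hval : ∀ (i : ι) (β : ℕ), wt i / e ((MUX.nI (R.b i) : ℕ) : OO A B) *
      MUX.PhiI (R.b i * P ^ 0) e ∞ (((β / ((q * r : ℕ) : ℚ) : ℚ)) : OnePoint ℚ) / R.om R.i0 =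
      wt i * muX R i / (2 * m) * sumMod (m : OO A B) (fun x =>
        ex (β * (MUX.nI (R.b i) * nm x) / ((q * r : ℕ) : ℚ)) *
          (e x * ee (R.L i) (pt R m i x))) := by
    intro i β
    obtain ⟨h1, h2⟩ := t_PHV A B hQ (R.b i) (R.L i) (R.om i) (toLI (R.nl i).toIsLI) g e
      (toEI he) m (q * r) hm hmg hM0 hqr (hcop i)
    have h3 := h2 β
    have h1' : e ((MUX.nI (R.b i) : ℕ) : OO A B) ≠ 0 := h1
    rw [pow_zero, mul_one]
    have h4 : MUX.PhiI (R.b i) e ∞ (((β / ((q * r : ℕ) : ℚ) : ℚ)) : OnePoint ℚ) =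
        (R.om i * MUX.nI (R.b i) / (2 * m)) * (e ((MUX.nI (R.b i) : ℕ) : OO A B)) *
          sumMod (m : OO A B) (fun x =>
        ex (β * (MUX.nI (R.b i) * nm x) / ((q * r : ℕ) : ℚ)) *
          (e x * ee (R.L i) (pt R m i x))) := h3
    rw [h4]
    unfold muX
    have := homi R.i0
    field_simp
  have hPP : ∀ β : ℕ, PP R P e wt 0 ∞ (((β / ((q * r : ℕ) : ℚ) : ℚ)) : OnePoint ℚ) =
      ∑ i, wt i * muX R i / (2 * m) * sumMod (m : OO A B) (fun x =>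
        ex (β * (MUX.nI (R.b i) * nm x) / ((q * r : ℕ) : ℚ)) *
          (e x * ee (R.L i) (pt R m i x))) := by
    intro β
    unfold PP
    rw [Finset.sum_div]
    exact Finset.sum_congr rfl fun i _ => hval i β
  -- the inner sums
  have hin : ∀ k : ℤ, ψ⁻¹ (r : ZMod q) * ∑ b ∈ Finset.range q, ∑ c ∈ Finset.range r,
      ψ (b : ZMod q) * ex ((((b + c * q : ℕ) : ℚ)) * k / ((q * r : ℕ) : ℚ)) =
      (gaussSum ψ ZMod.stdAddChar * r) *
        (if (r : ℤ) ∣ k then ψ⁻¹ (k : ZMod q) else 0) := by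
    intro k
    have h3 : ∀ b ∈ Finset.range q, ∑ c ∈ Finset.range r, ψ (b : ZMod q) *
        ex ((((b + c * q : ℕ) : ℚ)) * k / ((q * r : ℕ) : ℚ)) =
        ψ (b : ZMod q) * ex (((b * k : ℤ) : ℚ) / ((q * r : ℕ) : ℚ)) *
          (if (r : ℤ) ∣ k then (r : ℂ) else 0) := by
      intro b _
      rw [← ex_sum r k, Finset.mul_sum]
      refine Finset.sum_congr rfl fun c _ => ?_
      have h4 : (((b + c * q : ℕ) : ℚ)) * k / ((q * r : ℕ) : ℚ) =
          (((b * k : ℤ) : ℚ) / ((q * r : ℕ) : ℚ)) + (((c * k : ℤ) : ℚ) / r) := by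
        push_cast
        field_simp
      rw [h4, Pool.Agent.MU3F.F5aux.ex_add]
      ring
    rw [Finset.sum_congr rfl h3, ← Finset.sum_mul]
    by_cases hd : (r : ℤ) ∣ k
    · rw [if_pos hd, if_pos hd]
      obtain ⟨k', hk'⟩ := hd
      have h5 : ∀ b ∈ Finset.range q, ψ (b : ZMod q) *
          ex (((b * k : ℤ) : ℚ) / ((q * r : ℕ) : ℚ)) =
          ψ (b : ZMod q) * ex (((b * k' : ℤ) : ℚ) / q) := by
        intro b _
        congr 2
        rw [hk']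
        push_cast
        field_simp
      rw [Finset.sum_congr rfl h5, Gau.shift ψ hψ k']
      have h6 : ψ⁻¹ (k : ZMod q) = ψ⁻¹ (r : ZMod q) * ψ⁻¹ (k' : ZMod q) := by
        rw [← map_mul, hk']
        push_cast
        rfl
      rw [h6]
      ring
    · rw [if_neg hd, if_neg hd]
      ring
  have hstep : ∀ b ∈ Finset.range q, ∀ c ∈ Finset.range r, ψ (b : ZMod q) *
      PP R P e wt 0 ∞ ((((b : ℚ) / q + (c : ℚ)) / r : ℚ) : OnePoint ℚ) =
      ∑ i, wt i * muX R i / (2 * m) * sumMod (m : OO A B) (fun x =>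
        (ψ (b : ZMod q) *
        ex ((((b + c * q : ℕ) : ℚ)) * ((nm x * MUX.nI (R.b i) : ℤ)) / ((q * r : ℕ) : ℚ))) *
          (e x * ee (R.L i) (pt R m i x))) := by
    intro b _ c _
    have h1 : (((b : ℚ) / q + (c : ℚ)) / r : ℚ) =
        ((b + c * q : ℕ) : ℚ) / ((q * r : ℕ) : ℚ) := by
      push_cast
      field_simp
    rw [h1, hPP, Finset.mul_sum]
    refine Finset.sum_congr rfl fun i _ => ?_
    rw [mul_left_comm, ← Pool.Agent.MUXF.F5x.sm_mul]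
    congr 2
    funext x
    rw [← mul_assoc]
    congr 3
    push_cast
    ring
  simp only [Finset.mul_sum (s := Finset.range r)]
  rw [Finset.sum_congr rfl fun b hb => Finset.sum_congr rfl fun c hc => hstep b hb c hc]
  have hcomm : ∀ G : ℕ → ℕ → ι → ℂ, ∑ b ∈ Finset.range q, ∑ c ∈ Finset.range r, ∑ i, G b c i =
      ∑ i, ∑ b ∈ Finset.range q, ∑ c ∈ Finset.range r, G b c i := by
    intro G
    have h1 : ∀ b ∈ Finset.range q, ∑ c ∈ Finset.range r, ∑ i, G b c i =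
        ∑ i, ∑ c ∈ Finset.range r, G b c i := fun b _ => Finset.sum_comm
    rw [Finset.sum_congr rfl h1]
    exact Finset.sum_comm
  rw [hcomm, Finset.mul_sum, Finset.mul_sum]
  refine Finset.sum_congr rfl fun i _ => ?_
  have hpull : ∀ (c : ℂ) (G : ℕ → ℕ → ℂ), ∑ b ∈ Finset.range q, ∑ d ∈ Finset.range r,
      c * G b d = c * ∑ b ∈ Finset.range q, ∑ d ∈ Finset.range r, G b d := by
    intro c G
    rw [Finset.mul_sum]
    exact Finset.sum_congr rfl fun b _ => (Finset.mul_sum _ _ _).symm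
  rw [hpull, Finset.sum_congr rfl fun b _ => sm_const (m : OO A B) (Finset.range r) _, sm_const,
    mul_left_comm, ← Pool.Agent.MUXF.F5x.sm_mul]
  have hfun : (fun x : OO A B => ψ⁻¹ (r : ZMod q) *
      ∑ b ∈ Finset.range q, ∑ c ∈ Finset.range r,
      (ψ (b : ZMod q) *
        ex ((((b + c * q : ℕ) : ℚ)) * ((nm x * MUX.nI (R.b i) : ℤ)) / ((q * r : ℕ) : ℚ))) *
          (e x * ee (R.L i) (pt R m i x))) =
      fun x => (gaussSum ψ ZMod.stdAddChar * r) *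
        (e x * (if (r : ℤ) ∣ (nm x * MUX.nI (R.b i) : ℤ) then
          ψ⁻¹ ((nm x * MUX.nI (R.b i) : ℤ) : ZMod q) else 0) * ee (R.L i) (pt R m i x)) := by
    funext x
    have h5 := hin (nm x * MUX.nI (R.b i) : ℤ)
    simp only [← Finset.sum_mul]
    rw [← mul_assoc, h5]
    ring
  rw [hfun, Pool.Agent.MUXF.F5x.sm_mul]
  ring

/-- the sum over the multiples of `p` is `SPt` -/
theorem spt {p : ℕ} {A B : ℤ} {P : Ideal (OO A B)} {V : ValuationSubring ℂ} {f : ℕ}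
    (hS : SetG p A B P V f) {w : OO A B → ℂ} (hw : TeiP p P V w) {ι : Type} [Fintype ι]
    (R : Reps A B (p * f) ι) {kp : ι → ℂ} {eta : OO A B → ℂ} {b : ℕ}
    (hb : 1 ≤ b) (m q : ℕ) (ψ : DirichletCharacter ℂ q) (hm : m ≠ 0) :
    ∑ i, kp i * muX R i * sumMod (m : OO A B) (fun x =>
        Sys.epS eta w b x * (if (p : ℤ) ∣ (nm x * MUX.nI (R.b i) : ℤ) then
          ψ⁻¹⁻¹ ((nm x * MUX.nI (R.b i) : ℤ) : ZMod q) else 0) * ee (R.L i) (pt R m i x)) =
      SPt R m (p - 1) (thP R kp eta ψ w b) w := by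
  have hQ := toCQ hS.cq
  obtain ⟨hal, hx, hz, hfin, hdom⟩ := MUXF.xf_ALG A B hQ
  have hF := hfin _ (idl_ne_bot (A := A) (B := B) hm)
  have hp5 := hS.p5
  have hval := g_VAL p A B P V f (Syma.toH hS)
  have hPp : ∀ k : ℤ, (p : ℤ) ∣ k ↔ w (k : OO A B) = 0 := by
    intro k
    rw [hw.zero]
    constructor
    · rintro ⟨t, rfl⟩
      by_contra h
      have h1 := (hval.2.2.2.1 _).2 h
      rw [(hz (p * t : ℤ)).1] at h1
      push_cast at h1
      rw [map_mul] at h1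
      have h2 : V.valuation (p : ℂ) * V.valuation (t : ℂ) < 1 :=
        mul_lt_one_of_nonneg_of_lt_one_left zero_le hval.2.1 (hval.2.2.2.2.1 t)
      exact absurd h1 h2.ne
    · intro h
      by_contra hd
      have h1 := hval.2.2.2.2.2.1 k hd
      rw [← (hz k).1] at h1
      exact (hval.2.2.2.1 _).1 h1 h
  unfold SPt
  refine Finset.sum_congr rfl fun i _ => ?_
  have hwn : w ((MUX.nI (R.b i) : ℕ) : OO A B) ≠ 0 := by
    intro h0
    rw [hw.zero] at h0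
    exact Sys.wn_ne hS hw R i h0
  rw [mul_comm (kp i), mul_assoc, ← Pool.Agent.MUXF.F5x.sm_mul]
  congr 2
  funext x
  have hnm : ((nm x * MUX.nI (R.b i) : ℤ) : OO A B) =
      x * star x * ((MUX.nI (R.b i) : ℕ) : OO A B) := by
    rw [(hx x).2.2.2.2.1]
    push_cast
    ring
  have hdiv : (p : ℤ) ∣ (nm x * MUX.nI (R.b i) : ℤ) ↔
      w x * w (star x) * w ((MUX.nI (R.b i) : ℕ) : OO A B) = 0 := by
    rw [hPp, hnm, hw.mul, hw.mul]
  rw [inv_inv]
  unfold Sys.epS thP thT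
  by_cases hs : w (star x) = 0
  · rw [hs, zero_pow (by omega)]
    ring
  · by_cases hxw : w x = 0
    · have hd : (p : ℤ) ∣ (nm x * MUX.nI (R.b i) : ℤ) := hdiv.2 (by rw [hxw]; ring)
      rw [if_pos hd, hxw, zero_pow (by omega)]
      ring
    · have hd : ¬ (p : ℤ) ∣ (nm x * MUX.nI (R.b i) : ℤ) := fun h =>
        (mul_ne_zero (mul_ne_zero hxw hs) hwn) (hdiv.1 h)
      have hxP : x ∉ P := fun h => hxw ((hw.zero x).2 h)
      rw [if_neg hd, hw.root x hxP]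
      ring

end Sps

open Sys Sps in
/-- (SPS) -/
theorem t_SPS : S_SPS := by
  intro l g h hG p A B P V f hS hlf ι _ R hGR w hw kp eta b hch
  have hQ := toCQ hS.cq
  obtain ⟨hal, hx, hz, hfin, hdom⟩ := MUXF.xf_ALG A B hQ
  obtain ⟨hPb, hmax, -, -, hgb, hpf, -, -, -, -⟩ := g_IDE p A B P V f (Syma.toH hS)
  obtain ⟨-, vp, -, -, -, vn, vr, vf, -, -, -⟩ := g_VAL p A B P V f (Syma.toH hS)
  have hp := hS.pp
  have hp5 := hS.p5
  have hb : 1 ≤ b := by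
    rcases hch.bb with ⟨h1, -⟩ | ⟨-, h1, -⟩
    · exfalso
      have hcmax : (cjI P).IsMaximal := by
        refine Ideal.comap_isMaximal_of_surjective (starRingEnd (OO A B)) ?_
        intro x
        exact ⟨star x, star_star x⟩
      exact hcmax.ne_top h1
    · exact h1
  have _nzp : NeZero p := ⟨hp.ne_zero⟩
  have hl : l.Prime := Syq.l_prime hG
  obtain ⟨hn, al, hh, hPal⟩ := MUXHY.y_CLN A B hS.cq (p * f) ι inferInstance R P hPb
  have hpodd : p % 2 = 1 := by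
    rcases hp.eq_two_or_odd with h1 | h1
    · omega
    · exact h1
  have hne : IsEI (idl f * cjI P) (epS eta w b) := eiS hS hw hch hb (by
    rw [Nat.odd_iff]
    omega)
  have hroot : ∀ i, ∃ r : ℕ, r ≠ 0 ∧ kp i ^ r = 1 := by
    intro i
    obtain ⟨r, hr, h1, -⟩ := hch.fin
    exact ⟨r, fun h0 => hr (h0 ▸ dvd_zero p), h1 i⟩
  have hyp := t_HYP p A B P V f (Syma.toH hS) ι R (hGR.kap _) (hGR.dis _) _ hne kp
      (fun i => by
        obtain ⟨r, hr, h1⟩ := hroot i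
        exact IsAlgebraic.of_pow (Nat.pos_of_ne_zero hr) (by rw [h1]; exact isAlgebraic_one))
      (fun i => by
        obtain ⟨r, hr, h1⟩ := hroot i
        exact vr r _ hr h1) 1 (Or.inl rfl) hn al hh hPal
  obtain ⟨Φ, hΦ⟩ : ∃ Φ : ℕ → OnePoint ℚ → OnePoint ℚ → ℂ, Φ = PP R P (epS eta w b) kp := ⟨_, rfl⟩
  rw [← hΦ] at hyp
  -- the relation for `U_p`
  have hU : ∀ r : ℚ, Φ 1 ∞ (r : OnePoint ℚ) =
      ∑ j ∈ Finset.range p, Φ 0 ∞ (((r + j) / p : ℚ) : OnePoint ℚ) := by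
    intro r
    have h1 := (tx_HK p hp.one_lt.le _ _ (Φ 0) (Φ 1) (hyp.sym 0) hyp.nu1 0).2.2 hyp.nup
      (hyp.hec 0) r
    simp only [sgnPart, zero_mul, add_zero] at h1
    exact h1.symm
  have hper1 : ∀ (d d' : ℤ), ((p ^ (1 + 1) * N0X A B f : ℕ) : ℤ) ∣ d - d' →
      nuX (epS eta w b) d = nuX (epS eta w b) d' := fun d d' hd =>
    hyp.nuper d d' ((Int.natCast_dvd_natCast.2 (Nat.mul_dvd_mul_right
      (dvd_pow_self p (Nat.succ_ne_zero _)) (N0X A B f))).trans hd)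
  have hdep : ∀ x : ℚ, ∑ k ∈ Finset.range l, Φ 1 ∞ ((x + (k : ℚ) / l : ℚ) : OnePoint ℚ) = 0 :=
    fun x => by
      rw [hΦ]
      exact Pool.Agent.TWB.t_DPP A B hS.cq (p * f) ι R P hPb (idl f * cjI P) _ hgb hne l
        hl (Ideal.mul_le_left.trans (by
          rw [Ideal.span_singleton_le_span_singleton]
          obtain ⟨k, hk⟩ := hlf
          refine ⟨(k : OO A B), ?_⟩
          rw [hk]
          push_cast
          rfl)) _ 1 x
  have hone : ((1 : ℤ) : ℂ) = 1 := Int.cast_one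
  obtain ⟨n0, hn0⟩ := Pool.Agent.TWR.a_TW4 l g h hG V p hp hS.p5 vp Unit
    (p ^ (1 + 1) * N0X A B f) (mul_ne_zero (pow_ne_zero _ hp.ne_zero) hyp.N0)
    (fun _ => nuX (epS eta w b)) (fun _ => hyp.nuv) (fun _ => hyp.nu1) (fun _ => hper1)
    (fun _ d => Pool.Agent.TWB.t_NUA p V _ _ _ _ _ Φ 1 hyp d)
    (fun _ => sgnPart 1 (Φ 1))
    (fun _ => (tx_HK 1 le_rfl _ (nuX (epS eta w b)) (Φ 1) (Φ 1) (hyp.sym 1) hyp.nu1 1).2.1)
    (fun _ x => by
      rw [Syi.sgn1]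
      refine IsAlgebraic.add ?_ ?_ <;> rw [hU] <;>
        exact Pool.Agent.TWB.TWBAux.alg_sum _ _ fun c => hyp.alg _ _)
    (fun _ x => by
      rw [Syi.sgn1, Syi.sgn1, neg_neg, add_comm])
    (fun _ x => Syq.depEv (Φ 1) hl hdep x)
    (fun _ N' hN' hd => by
      obtain ⟨a, b', c, d, m1, m2, m3, m4⟩ := TBQ.nb1 hyp N' hN' hd
      rw [hone] at m4
      exact ⟨a, b', c, d, m1, m2, m3, m4⟩)
  refine ⟨max n0 2, fun n hn' ψ hψ1 hψ2 => ?_⟩
  have hn2 : 2 ≤ n := (le_max_right _ _).trans hn'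
  have hnn : n0 ≤ n := (le_max_left _ _).trans hn'
  have _nzl : NeZero (l ^ n) := ⟨pow_ne_zero _ hl.ne_zero⟩
  have hψi1 : ψ⁻¹ (-1) = 1 := by
    rw [MulChar.inv_apply_eq_inv', hψ1, inv_one]
  have hψi2 : ψ⁻¹ (1 + (l : ZMod (l ^ n)) ^ (n - 1)) ≠ 1 := by
    rw [MulChar.inv_apply_eq_inv']
    intro h1
    exact hψ2 (inv_eq_one.1 h1)
  have hv := hn0 n hnn () ψ⁻¹ hψi1 hψi2
  have hprim := Gau.prim hl hn2 ψ⁻¹ hψi2
  have hm : f * l ^ n * p ≠ 0 :=
    mul_ne_zero (mul_ne_zero hS.f0 (pow_ne_zero _ hl.ne_zero)) hp.ne_zero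
  have hmg : ((f * l ^ n * p : ℕ) : OO A B) ∈ (idl f * cjI P : Ideal (OO A B)) := by
    have : ((f * l ^ n * p : ℕ) : OO A B) = ((l ^ n : ℕ) : OO A B) * ((p * f : ℕ) : OO A B) := by
      push_cast
      ring
    rw [this]
    exact Ideal.mul_mem_left _ _ hpf
  have hcopm : ∀ i, (MUX.nI (R.b i)).Coprime (f * l ^ n * p) := by
    intro i
    have h1 := R.cop i
    have h2 : (MUX.nI (R.b i)).Coprime p := Nat.Coprime.coprime_mul_right_right h1
    have h3 : (MUX.nI (R.b i)).Coprime f := Nat.Coprime.coprime_mul_left_right h1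
    have h4 : (MUX.nI (R.b i)).Coprime l := Nat.Coprime.coprime_dvd_right hlf h3
    exact Nat.Coprime.mul_right (Nat.Coprime.mul_right h3 (Nat.Coprime.pow_right n h4)) h2
  have hper : ∀ (r : ℚ) (k : ℤ), Φ 1 ∞ ((r + k : ℚ) : OnePoint ℚ) = Φ 1 ∞ (r : OnePoint ℚ) :=
    Pool.Agent.TWB.TWBAux.tr_P tx_HK _ _ _ (hyp.sym 1) hyp.nu1
  rw [Syq.sumEv (Φ 1) hper hl ψ⁻¹ hψi1] at hv
  have hsum := sum_mul A B hS.cq (p * f) ι R P (idl f * cjI P) (epS eta w b) hne kp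
    (f * l ^ n * p) (l ^ n) p hm hmg (by rw [mul_assoc]; exact Dvd.intro_left f rfl) hcopm ψ⁻¹ hprim
  rw [spt hS hw R hb (f * l ^ n * p) (l ^ n) ψ hm, ← hΦ] at hsum
  set T : ℂ := ∑ b ∈ Finset.range (l ^ n), ψ⁻¹ (b : ZMod (l ^ n)) *
    Φ 1 ∞ (((b : ℚ) / (l : ℚ) ^ n : ℚ) : OnePoint ℚ) with hT
  have hT2 : ∑ b ∈ Finset.range (l ^ n), ψ⁻¹ (b : ZMod (l ^ n)) * ∑ c ∈ Finset.range p,
      Φ 0 ∞ ((((b : ℚ) / ((l ^ n : ℕ) : ℚ) + (c : ℚ)) / p : ℚ) : OnePoint ℚ) = T := by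
    rw [hT]
    refine Finset.sum_congr rfl fun b _ => ?_
    rw [hU]
    push_cast
    rfl
  rw [hT2] at hsum
  -- valuations
  set S : ℂ := SPt R (f * l ^ n * p) (p - 1) (thP R kp eta ψ w b) w with hSd
  have hlp : ¬ (p : ℤ) ∣ (l : ℤ) := by
    intro hd
    have h1 : p ∣ l := by exact_mod_cast hd
    exact hS.fp (h1.trans hlf)
  have vl : V.valuation (l : ℂ) = 1 := by
    have := vn l hlp
    rwa [Int.cast_natCast] at this
  have v2 : V.valuation (2 : ℂ) = 1 := by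
    have := vn 2 (fun hd => by
      have := Int.le_of_dvd (by norm_num) hd
      omega)
    rwa [show ((2 : ℤ) : ℂ) = 2 by norm_num] at this
  have hv2m : V.valuation (2 * ((f * l ^ n * p : ℕ) : ℂ)) = V.valuation (p : ℂ) := by
    push_cast
    rw [map_mul, map_mul, map_mul, map_pow, v2, vf, vl, one_pow, one_mul, one_mul, one_mul]
  have hg1 : V.valuation (gaussSum ψ⁻¹ ZMod.stdAddChar) ≤ 1 := Gau.gle V ψ⁻¹
  have hp0 : (p : ℂ) ≠ 0 := by exact_mod_cast hp.ne_zero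
  have hvp0 : V.valuation (p : ℂ) ≠ 0 := (Valuation.ne_zero_iff _).2 hp0
  have hψp : V.valuation (ψ⁻¹⁻¹ (p : ZMod (l ^ n))) = 1 := by
    have hu : IsUnit ((p : ℕ) : ZMod (l ^ n)) := by
      rw [ZMod.isUnit_iff_coprime]
      refine Nat.Coprime.pow_right n ?_
      rw [hp.coprime_iff_not_dvd]
      intro h1
      exact hlp (by exact_mod_cast h1)
    obtain ⟨u, hu⟩ := hu
    rw [← hu]
    refine vr (Fintype.card (ZMod (l ^ n))ˣ) _ Fintype.card_ne_zero ?_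
    rw [← map_pow, ← Units.val_pow_eq_pow_val, pow_card_eq_one, Units.val_one, map_one]
  have h3 := congrArg V.valuation hsum
  rw [map_mul, hψp, one_mul, map_mul, map_div₀, hv2m, map_mul] at h3
  have h4 : V.valuation T = V.valuation (gaussSum ψ⁻¹ ZMod.stdAddChar) * V.valuation S := by
    rw [h3]
    field_simp
  rw [map_mul, v2, one_mul, h4] at hv
  exact hv.trans ((mul_le_mul_left hg1 _).trans_eq (one_mul _))

end

end Pool.Agent.TWQ
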