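import Pool.Agent.TWQ.StQC

/-!
# TWQ, module STKQ (helper68): Stickelberger's bound for the Gauss sum of `wD ^ e`

`STKQ.core` is the statement for a character `χ` modulo `p` with `v(χ(c) c - 1) ≤ v(p)` for `p ∤ c`.
-/

set_option autoImplicit false

open WeierstrassCurve Polynomial NumberField IsDedekindDomain

namespace Pool.Agent.TWQ

open _root_.MU3 Pool.Agent.MU3A Pool.Agent.MU3B Pool.Agent.MU3C Pool.Agent.RI Pool.Agent.RID
open Pool.Agent.MUX Pool.Agent.MUXU Pool.Agent.MUXW Pool.Agent.TWT Pool.Agent.TWI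
open Pool.Agent.MU3V (cls Sub GD algDF)
open Pool.Agent.MUXV (GR InK tX)
open Pool.Agent.MUXI (IA RE AR)
open OnePoint

noncomputable section

namespace STKQ

lemma sub_one_pow (V : ValuationSubring ℂ) {x : ℂ} {r : V.ValueGroup} (hx : V.valuation x ≤ 1)
    (h : V.valuation (x - 1) ≤ r) (j : ℕ) : V.valuation (x ^ j - 1) ≤ r := by
  induction j with
  | zero => simp
  | succ j ih =>
    have h1 : x ^ (j + 1) - 1 = x * (x ^ j - 1) + (x - 1) := by ring
    rw [h1]
    refine (V.valuation.map_add _ _).trans (max_le ?_ h)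
    rw [map_mul]
    exact (mul_le_of_le_one_left' hx).trans ih

lemma root_one (V : ValuationSubring ℂ) {N : ℕ} (hN : N ≠ 0) {z : ℂ} (h : z ^ N = 1) :
    V.valuation z = 1 := by
  have h1 : V.valuation z ^ N = 1 := by rw [← map_pow, h, map_one]
  exact (pow_eq_one_iff_of_nonneg zero_le hN).1 h1

lemma std_pow {N : ℕ} [NeZero N] (a : ZMod N) : (ZMod.stdAddChar a : ℂ) ^ N = 1 := by
  rw [← AddChar.map_nsmul_eq_pow, nsmul_eq_mul, ZMod.natCast_self, zero_mul,
    AddChar.map_zero_eq_one]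

lemma chi_root {p : ℕ} (hp : p.Prime) (χ : DirichletCharacter ℂ p) (a : ZMod p) (ha : a ≠ 0) :
    χ a ^ (p - 1) = 1 := by
  have _ : Fact p.Prime := ⟨hp⟩
  rw [← map_pow, ZMod.pow_card_sub_one_eq_one ha, map_one]

lemma chi_one (V : ValuationSubring ℂ) {p : ℕ} (hp : p.Prime) (χ : DirichletCharacter ℂ p)
    (a : ZMod p) (ha : a ≠ 0) : V.valuation (χ a) = 1 :=
  root_one V (by have := hp.two_le; omega) (chi_root hp χ a ha)

lemma chi_le (V : ValuationSubring ℂ) {p : ℕ} (hp : p.Prime) (χ : DirichletCharacter ℂ p)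
    (a : ZMod p) : V.valuation (χ a) ≤ 1 := by
  have _ : Fact p.Prime := ⟨hp⟩
  by_cases ha : a = 0
  · rw [ha, MulChar.map_zero, map_zero]
    exact zero_le
  · exact (chi_one V hp χ a ha).le

/-- the two facts on `ζ - 1` -/
lemma zeta (V : ValuationSubring ℂ) {p : ℕ} (hp : p.Prime) [NeZero p] :
    V.valuation ((ZMod.stdAddChar (1 : ZMod p) : ℂ) - 1) ≤ 1 ∧
    V.valuation ((ZMod.stdAddChar (1 : ZMod p) : ℂ) - 1) ^ (p - 1) = V.valuation (p : ℂ) := by
  set ζ : ℂ := ZMod.stdAddChar (1 : ZMod p) with hζ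
  have hpr : IsPrimitiveRoot ζ p := by
    rw [IsPrimitiveRoot.iff_def]
    refine ⟨std_pow 1, fun k hk => ?_⟩
    rw [hζ, ← AddChar.map_nsmul_eq_pow, nsmul_eq_mul, mul_one] at hk
    have h1 : ZMod.stdAddChar ((k : ℕ) : ZMod p) = ZMod.stdAddChar (0 : ZMod p) := by
      rw [hk, AddChar.map_zero_eq_one]
    exact (ZMod.natCast_eq_zero_iff _ _).1 (ZMod.injective_stdAddChar h1)
  have hv : V.valuation ζ = 1 := root_one V hp.ne_zero (std_pow 1)
  constructor
  · have h1 : ζ - 1 = ζ + (-1) := by ring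
    rw [h1]
    refine (V.valuation.map_add _ _).trans (max_le hv.le ?_)
    rw [Valuation.map_neg, map_one]
  · obtain ⟨n, hn⟩ : ∃ n, p = n + 1 := ⟨p - 1, by have := hp.pos; omega⟩
    have h7 : ∏ k ∈ Finset.range n, (1 - ζ ^ (k + 1)) = (p : ℂ) := by
      have h8 : IsPrimitiveRoot ζ (n + 1) := by rw [← hn]; exact hpr
      rw [h8.prod_one_sub_pow_eq_order, hn]
      push_cast
      ring
    rw [← h7, map_prod]
    have h9 : V.valuation (ζ - 1) ^ (p - 1) = ∏ _k ∈ Finset.range n, V.valuation (ζ - 1) := by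
      rw [Finset.prod_const, Finset.card_range]
      congr 1
      omega
    rw [h9]
    refine Finset.prod_congr rfl fun k hk => ?_
    have hk1 : k + 1 < p := by
      rw [Finset.mem_range] at hk
      omega
    have hcop : Nat.Coprime (k + 1) p := by
      rw [Nat.coprime_comm, hp.coprime_iff_not_dvd]
      intro hd
      exact absurd (Nat.le_of_dvd (Nat.succ_pos k) hd) (by omega)
    obtain ⟨j, hj⟩ : ∃ j : ℕ, (ζ ^ (k + 1)) ^ j = ζ := by
      obtain ⟨j, hj⟩ := Nat.exists_mul_mod_eq_one_of_coprime hcop hp.one_lt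
      refine ⟨j, ?_⟩
      rw [← pow_mul]
      have h11 := Nat.div_add_mod ((k + 1) * j) p
      rw [hj.2] at h11
      rw [← h11, pow_add, pow_mul, hpr.pow_eq_one, one_pow, one_mul, pow_one]
    have h12 : V.valuation (1 - ζ ^ (k + 1)) = V.valuation (ζ ^ (k + 1) - 1) := by
      rw [← Valuation.map_neg]
      congr 1
      ring
    rw [h12]
    refine le_antisymm ?_ ?_
    · have h10 := sub_one_pow V (x := ζ ^ (k + 1)) (by rw [map_pow, hv, one_pow]) le_rfl j
      rw [hj] at h10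
      exact h10
    · exact sub_one_pow V hv.le le_rfl (k + 1)

section

variable (V : ValuationSubring ℂ) {p : ℕ} (hp : p.Prime)
  (hle : ∀ n : ℤ, V.valuation (n : ℂ) ≤ 1)
  (hone : ∀ n : ℤ, ¬ (p : ℤ) ∣ n → V.valuation (n : ℂ) = 1)
  (hpv : V.valuation (p : ℂ) < 1) (χ : DirichletCharacter ℂ p)
  (hred : ∀ c : ℤ, ¬ (p : ℤ) ∣ c → V.valuation (χ (c : ZMod p) * c - 1) ≤ V.valuation (p : ℂ))

include hp hle hred in
lemma red_pow (c : ℤ) (hc : ¬ (p : ℤ) ∣ c) (j : ℕ) :
    V.valuation (χ (c : ZMod p) ^ j * (c : ℂ) ^ j - 1) ≤ V.valuation (p : ℂ) := by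
  rw [← mul_pow]
  refine sub_one_pow V ?_ (hred c hc) j
  rw [map_mul]
  exact (mul_le_of_le_one_left' (chi_le V hp χ _)).trans (hle c)

include hp hle hone hpv hred in
/-- the powers of `χ` are not trivial -/
lemma ne_one (j : ℕ) (hj1 : 1 ≤ j) (hj : j < p - 1) : χ ^ j ≠ 1 := by
  intro h
  have _ : Fact p.Prime := ⟨hp⟩
  have h1 : ∀ u : (ZMod p)ˣ, u ^ j = 1 := by
    intro u
    obtain ⟨c, hc⟩ := ZMod.intCast_surjective (u : ZMod p)
    have hc' : ¬ (p : ℤ) ∣ c := by
      intro hd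
      rw [← ZMod.intCast_zmod_eq_zero_iff_dvd, hc] at hd
      exact u.ne_zero hd
    have h2 : χ (c : ZMod p) ^ j = 1 := by
      have h3 : (χ ^ j) (u : ZMod p) = 1 := by
        rw [h, MulChar.one_apply_coe]
      rw [MulChar.pow_apply_coe] at h3
      rw [hc]
      exact h3
    have h4 := red_pow V hp hle χ hred c hc' j
    rw [h2, one_mul] at h4
    have h5 : (p : ℤ) ∣ c ^ j - 1 := by
      by_contra hd
      have h6 := hone _ hd
      push_cast at h6
      rw [h6] at h4
      exact absurd hpv (not_lt.2 h4)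
    rw [← ZMod.intCast_zmod_eq_zero_iff_dvd] at h5
    push_cast at h5
    rw [hc, sub_eq_zero] at h5
    ext
    push_cast
    exact h5
  have h2 : Monoid.exponent (ZMod p)ˣ ∣ j := Monoid.exponent_dvd_of_forall_pow_eq_one h1
  rw [IsCyclic.exponent_eq_card, Nat.card_eq_fintype_card, ZMod.card_units] at h2
  exact absurd (Nat.le_of_dvd (by omega) h2) (by omega)

include hp hle hone hpv hred in
/-- the power sums -/
lemma psum [NeZero p] (e : ℕ) (he : e < p - 1) (j : ℕ) (hj : j < e) :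
    V.valuation (∑ a : ZMod p, (χ ^ e) a * ((a.val : ℤ) : ℂ) ^ j) ≤ V.valuation (p : ℂ) := by
  have _ : Fact p.Prime := ⟨hp⟩
  have h1 : ∑ a : ZMod p, (χ ^ (e - j)) a = 0 :=
    MulChar.sum_eq_zero_of_ne_one (ne_one V hp hle hone hpv χ hred (e - j) (by omega) (by omega))
  have h2 : ∑ a : ZMod p, (χ ^ e) a * ((a.val : ℤ) : ℂ) ^ j =
      ∑ a : ZMod p, ((χ ^ e) a * ((a.val : ℤ) : ℂ) ^ j - (χ ^ (e - j)) a) := by
    rw [Finset.sum_sub_distrib, h1, sub_zero]
  rw [h2]
  refine V.valuation.map_sum_le fun a _ => ?_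
  by_cases ha : a = 0
  · rw [ha, MulChar.map_zero, MulChar.map_zero, zero_mul, sub_zero, map_zero]
    exact zero_le
  · rw [MulChar.pow_apply' _ (by omega), MulChar.pow_apply' _ (by omega)]
    have h3 : ¬ (p : ℤ) ∣ (a.val : ℤ) := by
      intro hd
      rw [← ZMod.intCast_zmod_eq_zero_iff_dvd] at hd
      apply ha
      rw [← ZMod.natCast_zmod_val a]
      exact_mod_cast hd
    have h4 := red_pow V hp hle χ hred _ h3 j
    have h5 : ((a.val : ℤ) : ZMod p) = a := by
      push_cast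
      exact ZMod.natCast_zmod_val a
    rw [h5] at h4
    have h6 : χ a ^ e * ((a.val : ℤ) : ℂ) ^ j - χ a ^ (e - j) =
        χ a ^ (e - j) * (χ a ^ j * ((a.val : ℤ) : ℂ) ^ j - 1) := by
      have h7 : χ a ^ e = χ a ^ (e - j) * χ a ^ j := by
        rw [← pow_add]
        congr 1
        omega
      rw [h7]
      ring
    rw [h6, map_mul, map_pow, chi_one V hp χ a ha, one_pow, one_mul]
    exact h4

include hp hle hone hpv hred in
/-- the coefficients of small degree -/
lemma tk [NeZero p] (e : ℕ) (he : e < p - 1) (k : ℕ) (hk : k < e) :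
    V.valuation (∑ a : ZMod p, (χ ^ e) a * (a.val.choose k : ℂ)) ≤ V.valuation (p : ℂ) := by
  have _ : Fact p.Prime := ⟨hp⟩
  have h1 : V.valuation ((k.factorial : ℕ) : ℂ) = 1 := by
    have h2 : ¬ (p : ℤ) ∣ (k.factorial : ℤ) := by
      intro hd
      have h3 : p ∣ k.factorial := by exact_mod_cast hd
      rw [hp.dvd_factorial] at h3
      omega
    have h3 := hone _ h2
    exact_mod_cast h3
  have h2 : ∀ a : ZMod p, ((k.factorial : ℕ) : ℂ) * (a.val.choose k : ℂ) =
      ∑ j ∈ Finset.range (k + 1), ((descPochhammer ℤ k).coeff j : ℂ) * ((a.val : ℤ) : ℂ) ^ j := by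
    intro a
    have h3 : (((descPochhammer ℤ k).eval (a.val : ℤ) : ℤ) : ℂ) =
        ((k.factorial : ℕ) : ℂ) * (a.val.choose k : ℂ) := by
      rw [descPochhammer_eval_eq_descFactorial, Nat.descFactorial_eq_factorial_mul_choose]
      push_cast
      ring
    rw [← h3, Polynomial.eval_eq_sum_range, descPochhammer_natDegree]
    push_cast
    rfl
  have h3 : ((k.factorial : ℕ) : ℂ) * ∑ a : ZMod p, (χ ^ e) a * (a.val.choose k : ℂ) =
      ∑ j ∈ Finset.range (k + 1), ((descPochhammer ℤ k).coeff j : ℂ) *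
        ∑ a : ZMod p, (χ ^ e) a * ((a.val : ℤ) : ℂ) ^ j := by
    rw [Finset.mul_sum]
    simp only [Finset.mul_sum]
    rw [Finset.sum_comm]
    refine Finset.sum_congr rfl fun a _ => ?_
    have h4 : ((k.factorial : ℕ) : ℂ) * ((χ ^ e) a * (a.val.choose k : ℂ)) =
        (χ ^ e) a * (((k.factorial : ℕ) : ℂ) * (a.val.choose k : ℂ)) := by ring
    rw [h4, h2 a, Finset.mul_sum]
    refine Finset.sum_congr rfl fun j _ => ?_
    ring
  have h4 : V.valuation (∑ a : ZMod p, (χ ^ e) a * (a.val.choose k : ℂ)) =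
      V.valuation (((k.factorial : ℕ) : ℂ) * ∑ a : ZMod p, (χ ^ e) a * (a.val.choose k : ℂ)) := by
    rw [map_mul, h1, one_mul]
  rw [h4, h3]
  refine V.valuation.map_sum_le fun j hj => ?_
  rw [map_mul]
  refine (mul_le_of_le_one_left' (hle _)).trans ?_
  rw [Finset.mem_range] at hj
  exact psum V hp hle hone hpv χ hred e he j (by omega)

include hp hle hone hpv hred in
theorem core [NeZero p] (e : ℕ) (he : e < p - 1) :
    V.valuation (gaussSum (χ ^ e) ZMod.stdAddChar) ^ (p - 1) ≤ V.valuation (p : ℂ) ^ e := by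
  have _ : Fact p.Prime := ⟨hp⟩
  obtain ⟨hz1, hz2⟩ := zeta V hp
  set π : ℂ := (ZMod.stdAddChar (1 : ZMod p) : ℂ) - 1 with hπ
  have h1 : gaussSum (χ ^ e) ZMod.stdAddChar =
      ∑ k ∈ Finset.range p, π ^ k * ∑ a : ZMod p, (χ ^ e) a * (a.val.choose k : ℂ) := by
    have h2 : ∀ a : ZMod p, (ZMod.stdAddChar a : ℂ) =
        ∑ k ∈ Finset.range p, π ^ k * (a.val.choose k : ℂ) := by
      intro a
      have h3 : (ZMod.stdAddChar a : ℂ) = (π + 1) ^ a.val := by
        rw [hπ, sub_add_cancel, ← AddChar.map_nsmul_eq_pow, nsmul_eq_mul, mul_one,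
          ZMod.natCast_val, ZMod.cast_id]
      rw [h3, add_pow]
      have h4 : a.val + 1 ≤ p := ZMod.val_lt a
      rw [← Finset.sum_subset (Finset.range_mono h4)]
      · refine Finset.sum_congr rfl fun k _ => ?_
        rw [one_pow, mul_one]
      · intro k _ hk
        rw [Finset.mem_range, not_lt] at hk
        rw [Nat.choose_eq_zero_of_lt (by omega), Nat.cast_zero, mul_zero]
    rw [gaussSum]
    simp only [Finset.mul_sum]
    rw [Finset.sum_comm]
    refine Finset.sum_congr rfl fun a _ => ?_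
    rw [h2 a, Finset.mul_sum]
    refine Finset.sum_congr rfl fun k _ => ?_
    ring
  have h2 : V.valuation (gaussSum (χ ^ e) ZMod.stdAddChar) ≤ V.valuation π ^ e := by
    rw [h1]
    refine V.valuation.map_sum_le fun k hk => ?_
    rw [map_mul, map_pow]
    rcases Nat.lt_or_ge k e with hke | hke
    · refine (mul_le_of_le_one_left' (pow_le_one₀ zero_le hz1)).trans ?_
      refine (tk V hp hle hone hpv χ hred e he k hke).trans ?_
      rw [← hz2]
      exact pow_le_pow_right_of_le_one' hz1 he.le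
    · refine (mul_le_of_le_one_right' ?_).trans (pow_le_pow_right_of_le_one' hz1 hke)
      refine V.valuation.map_sum_le fun a _ => ?_
      rw [map_mul]
      refine (mul_le_of_le_one_left' (chi_le V hp _ a)).trans ?_
      have := hle (a.val.choose k : ℤ)
      exact_mod_cast this
  calc V.valuation (gaussSum (χ ^ e) ZMod.stdAddChar) ^ (p - 1) ≤ (V.valuation π ^ e) ^ (p - 1) :=
        pow_le_pow_left₀ zero_le h2 _
    _ = V.valuation (p : ℂ) ^ e := by
        rw [← hz2, ← pow_mul, ← pow_mul, mul_comm]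

end

end STKQ

/-- (STKQ) Stickelberger's bound for the Gauss sum of `w⁻ᵉ`, `1 ≤ e ≤ p - 2` -/
theorem t_STKQ : S_STKQ := by
  intro p _ A B P V f hS w hw wD hwD e he1 he
  have hp : p.Prime := hS.pp
  have hQ : MUXF.CQ A B := Pool.Agent.MUXHY.toCQ hS.cq
  have hemb : ∀ n : ℤ, emb (n : OO A B) = (n : ℂ) := fun n => MUXF.AlgX.emb_intCast hQ n
  have hpv : V.valuation (p : ℂ) < 1 := by
    have h1 := (hS.hV _).2 hS.hP.mem
    have h2 : emb ((p : ℕ) : OO A B) = (p : ℂ) := by
      have h3 := hemb (p : ℤ)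
      rw [Int.cast_natCast, Int.cast_natCast] at h3
      exact h3
    rw [h2] at h1
    exact (ValuationSubring.mem_nonunits_iff _).1 h1
  have hle := Pool.Agent.MUXHY.Val.int_le V
  have hone := Pool.Agent.MUXHY.Val.int_one hp hpv
  have hred : ∀ c : ℤ, ¬ (p : ℤ) ∣ c →
      V.valuation (wD (c : ZMod p) * c - 1) ≤ V.valuation (p : ℂ) := by
    intro c hc
    have h1 : (c : OO A B) ∉ P := by
      intro h2
      have h3 := (ValuationSubring.mem_nonunits_iff _).1 ((hS.hV _).2 h2)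
      rw [hemb, hone c hc] at h3
      exact lt_irrefl _ h3
    have h2 : V.valuation (w (c : OO A B)) = 1 :=
      STKQ.root_one V (by have := hp.two_le; omega) (hw.root _ h1)
    have h3 : w (c : OO A B) ≠ 0 := fun h => h1 ((hw.zero _).1 h)
    have h4 : wD (c : ZMod p) * c - 1 =
        (w (c : OO A B))⁻¹ * (-(w (c : OO A B) - (c : ℂ))) := by
      rw [hwD c]
      field_simp
      ring
    rw [h4, map_mul, map_inv₀, h2, inv_one, one_mul, Valuation.map_neg]
    exact hw.int c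
  exact ⟨STKQ.ne_one V hp hle hone hpv wD hred e he1 he,
    STKQ.core V hp hle hone hpv wD hred e he⟩

end

end Pool.Agent.TWQ
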