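import Pool.Agent.TWQ.StQC
import Pool.Agent.TWI.SYI

/-!
# TWQ, module SYIA (helper19): `p` inert, `1 ≤ e ≤ q - 2`
-/

set_option autoImplicit false

open WeierstrassCurve Polynomial NumberField IsDedekindDomain

namespace Pool.Agent.TWQ

open _root_.MU3 Pool.Agent.MU3A Pool.Agent.MU3B Pool.Agent.MU3F Pool.Agent.MUX Pool.Agent.MUXH
  Pool.Agent.MuSym OnePoint Pool.Agent.TWT Pool.Agent.TWG Pool.Agent.TWI
open Pool.Agent.MUXHY (toCQ toEI toLI nI_eq cjI_eq PhiI_eq PP)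
open scoped ComplexConjugate

noncomputable section

namespace Syq

variable {p : ℕ} {A B : ℤ} {P : Ideal (OO A B)} {V : ValuationSubring ℂ} {f : ℕ}

/-- `epI eta (w ^ e)` is an odd character modulo `(p f)` -/
theorem ei (hS : SetI p A B P V f) {w : OO A B → ℂ} (hw : TeiI p P V w) {n : ℕ} {ι : Type}
    {R : Reps A B n ι} {kp : ι → ℂ} {eta : OO A B → ℂ} {e b q : ℕ} {P' : Ideal (OO A B)}
    (hch : ChQ p q f P P' R kp eta e b) (hb : b = 0) :
    MUX.IsEI (idl (p * f)) (epI eta (fun z => w z ^ e)) := by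
  have he0 : e ≠ 0 := by
    have := hch.e1
    omega
  have hmax := Syi.maxP hS
  have hcop : ∀ x : OO A B, w x ≠ 0 ↔ IsCoprime (MUX.sp x) P := by
    intro x
    rw [Ne, hw.zero]
    constructor
    · intro h
      rw [Ideal.isCoprime_iff_sup_eq]
      refine hmax.1.2 _ ?_
      rw [lt_iff_le_not_ge]
      refine ⟨le_sup_right, fun h1 => h ?_⟩
      exact h1 (Ideal.mem_sup_left (Ideal.mem_span_singleton_self x))
    · intro h h1
      rw [Ideal.isCoprime_iff_sup_eq] at h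
      have h2 : MUX.sp x ≤ P := (Ideal.span_singleton_le_iff_mem _).2 h1
      rw [sup_eq_right.2 h2] at h
      exact hmax.ne_top h
  have hmul : (idl (A := A) (B := B) (p * f)) = idl f * P := by
    have h1 : ((p * f : ℕ) : OO A B) = ((f : ℕ) : OO A B) * ((p : ℕ) : OO A B) := by
      rw [Nat.cast_mul, mul_comm]
    rw [hS.eP]
    show Ideal.span {((p * f : ℕ) : OO A B)} = Ideal.span {((f : ℕ) : OO A B)} *
      Ideal.span {((p : ℕ) : OO A B)}
    rw [Ideal.span_singleton_mul_span_singleton, h1]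
  constructor
  · show eta 1 * w 1 ^ e = 1
    rw [hch.one, hw.one, one_pow, mul_one]
  · intro x y
    show eta (x * y) * w (x * y) ^ e = eta x * w x ^ e * (eta y * w y ^ e)
    rw [hch.mul, hw.mul, mul_pow]
    ring
  · intro x y h
    rw [hmul] at h
    show eta x * w x ^ e = eta y * w y ^ e
    have h1 : x - y ∈ (idl f : Ideal (OO A B)) := Ideal.mul_le_left h
    have h2 : x - y ∈ P := Ideal.mul_le_right h
    rw [hch.per x y h1, hw.per x y h2]
  · intro x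
    show eta x * w x ^ e ≠ 0 ↔ _
    rw [mul_ne_zero_iff, pow_ne_zero_iff he0, hch.supp, hcop, ← IsCoprime.mul_right_iff, hmul]
  · show eta (-1) * w (-1) ^ e = -1
    rw [hch.neg, Syi.w_neg hS hw, hb, add_zero, ← pow_add,
      show e - 1 + e = 2 * (e - 1) + 1 by omega, pow_succ, pow_mul]
    norm_num

/-- the value `0`-twist: the sum over one primitive character -/
theorem sum1 (hS : SetI p A B P V f) {ι : Type} [Fintype ι] (R : Reps A B (p * f) ι)
    {W : OO A B → ℂ} {kp : ι → ℂ} {eta : OO A B → ℂ}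
    (hei : MUX.IsEI (idl (p * f)) (epI eta W)) {l N : ℕ} (hl : l.Prime) (hlf : l ∣ f)
    (ψ : DirichletCharacter ℂ (l ^ N)) (hψ : ψ⁻¹.IsPrimitive) :
    ∑ b ∈ Finset.range (l ^ N), ψ⁻¹ (b : ZMod (l ^ N)) *
      PhI R kp eta W ∞ (((b : ℚ) / (l : ℚ) ^ N : ℚ) : OnePoint ℚ) =
    (haveI : NeZero (l ^ N) := ⟨pow_ne_zero _ hl.ne_zero⟩;
      gaussSum ψ⁻¹ ZMod.stdAddChar) / (2 * ((f * l ^ N * p : ℕ) : ℂ)) *
      SSTI R (f * l ^ N * p) (thT R kp eta ψ) W := by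
  have _nz : NeZero (l ^ N) := ⟨pow_ne_zero _ hl.ne_zero⟩
  have hm : f * l ^ N * p ≠ 0 :=
    mul_ne_zero (mul_ne_zero hS.f0 (pow_ne_zero _ hl.ne_zero)) hS.pp.ne_zero
  have hmg : ((f * l ^ N * p : ℕ) : OO A B) ∈ (idl (p * f) : Ideal (OO A B)) := by
    have : ((f * l ^ N * p : ℕ) : OO A B) = ((l ^ N : ℕ) : OO A B) * ((p * f : ℕ) : OO A B) := by
      push_cast
      ring
    rw [this]
    exact Ideal.mul_mem_left _ _ (Ideal.mem_span_singleton_self _)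
  have hcopm : ∀ i, (MUX.nI (R.b i)).Coprime (f * l ^ N * p) := by
    intro i
    have h1 := R.cop i
    have h2 : (MUX.nI (R.b i)).Coprime p := Nat.Coprime.coprime_mul_right_right h1
    have h3 : (MUX.nI (R.b i)).Coprime f := Nat.Coprime.coprime_mul_left_right h1
    have h4 : (MUX.nI (R.b i)).Coprime l := Nat.Coprime.coprime_dvd_right hlf h3
    exact Nat.Coprime.mul_right (Nat.Coprime.mul_right h3 (Nat.Coprime.pow_right N h4)) h2
  have hprim1 : (1 : DirichletCharacter ℂ 1).IsPrimitive :=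
    DirichletCharacter.isPrimitive_one_level_one
  have hsum := t_SUM A B hS.cq (p * f) ι R P (idl (p * f)) (epI eta W) hei
    kp (f * l ^ N * p) (l ^ N) 1 hm hmg (by rw [mul_one, mul_comm f, mul_assoc]; exact dvd_mul_right _ _)
    hcopm ψ⁻¹ hψ 1 hprim1
  have hg1 : gaussSum (1 : DirichletCharacter ℂ 1) ZMod.stdAddChar = 1 := by
    rw [gaussSum]
    have : (Finset.univ : Finset (ZMod 1)) = {0} := rfl
    rw [this, Finset.sum_singleton, AddChar.map_zero_eq_one, mul_one]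
    exact MulChar.one_apply (isUnit_of_subsingleton _)
  have h1 : ∀ x : ZMod 1, (1 : DirichletCharacter ℂ 1) x = 1 := fun x =>
    MulChar.one_apply (isUnit_of_subsingleton _)
  have hL : ∑ b ∈ Finset.range (l ^ N), ∑ c ∈ Finset.range 1,
      ψ⁻¹ (b : ZMod (l ^ N)) * (1 : DirichletCharacter ℂ 1) (c : ZMod 1) *
      PP R P (epI eta W) kp 0 ∞ (((b : ℚ) / ((l ^ N : ℕ) : ℚ) + (c : ℚ) / ((1 : ℕ) : ℚ) : ℚ) :
        OnePoint ℚ) =
      ∑ b ∈ Finset.range (l ^ N), ψ⁻¹ (b : ZMod (l ^ N)) *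
      PhI R kp eta W ∞ (((b : ℚ) / (l : ℚ) ^ N : ℚ) : OnePoint ℚ) := by
    refine Finset.sum_congr rfl fun b _ => ?_
    rw [Finset.sum_range_one, h1, mul_one, Syi.PhI_PP (P := P)]
    congr 3
    push_cast
    ring
  rw [← hL, hsum, hg1, mul_one]
  congr 1
  unfold SSTI
  refine Finset.sum_congr rfl fun i _ => ?_
  obtain ⟨-, -, -, hfin, -⟩ := MUXF.xf_ALG A B (toCQ hS.cq)
  have hF := hfin _ (idl_ne_bot (A := A) (B := B) hm)
  rw [mul_comm (kp i), mul_assoc, ← Pool.Agent.MUXF.F5x.sm_mul]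
  congr 2
  funext x
  have h2 : (1 : DirichletCharacter ℂ 1)⁻¹ ((nm x * MUX.nI (R.b i) : ℤ) : ZMod 1) = 1 := by
    rw [inv_one]
    exact h1 _
  rw [h2, inv_inv]
  unfold epI thT
  ring

/-- periodicity of the symbol -/
lemma per (hS : SetI p A B P V f) {ι : Type} [Fintype ι] (R : Reps A B (p * f) ι)
    {W : OO A B → ℂ} {kp : ι → ℂ} {eta : OO A B → ℂ}
    (hei : MUX.IsEI (idl (p * f)) (epI eta W)) (r : ℚ) (k : ℤ) :
    PhI R kp eta W ∞ ((r + k : ℚ) : OnePoint ℚ) = PhI R kp eta W ∞ (r : OnePoint ℚ) := by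
  have hD : absD A B ∣ ((p * f : ℕ) : ℤ) := Syi.hDn hS
  exact Pool.Agent.TWB.TWBAux.tr_P tx_HK _ _ _
    (q_SYM hS.cq (Syi.pf0 hS) R (epI eta W) hei (kkI R kp eta W))
    (q_CHR V hS.cq (Syi.pf0 hS) hD _ hei).1 r k

/-- the sum of the even part is twice the sum: any symbol with period `1` -/
theorem sumEv (Q : OnePoint ℚ → OnePoint ℚ → ℂ)
    (hQ : ∀ (r : ℚ) (k : ℤ), Q ∞ ((r + k : ℚ) : OnePoint ℚ) = Q ∞ (r : OnePoint ℚ))
    {l N : ℕ} (hl : l.Prime)
    (χ : DirichletCharacter ℂ (l ^ N)) (hχ : χ (-1) = 1) :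
    ∑ b ∈ Finset.range (l ^ N), χ (b : ZMod (l ^ N)) *
      sgnPart 1 Q ∞ (((b : ℚ) / (l : ℚ) ^ N : ℚ) : OnePoint ℚ) =
    2 * ∑ b ∈ Finset.range (l ^ N), χ (b : ZMod (l ^ N)) *
      Q ∞ (((b : ℚ) / (l : ℚ) ^ N : ℚ) : OnePoint ℚ) := by
  have hl' : ((l : ℚ)) ^ N ≠ 0 := pow_ne_zero _ (by exact_mod_cast hl.ne_zero)
  have h := Pool.Agent.TWB.TWBAux.sum_neg (l ^ N) (fun b : ℤ => χ ((b : ℤ) : ZMod (l ^ N)) *
      Q ∞ (((b : ℚ) / (l : ℚ) ^ N : ℚ) : OnePoint ℚ)) (by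
      intro b
      have e1 : (((b + (l ^ N : ℕ) : ℤ)) : ZMod (l ^ N)) = ((b : ℤ) : ZMod (l ^ N)) := by
        rw [Int.cast_add, Int.cast_natCast, ZMod.natCast_self, add_zero]
      have e2 : ((b + (l ^ N : ℕ) : ℤ) : ℚ) / (l : ℚ) ^ N =
          (b : ℚ) / (l : ℚ) ^ N + ((1 : ℤ) : ℚ) := by
        push_cast
        rw [add_div, div_self hl']
      rw [e1, e2, hQ])
  simp only [Int.cast_natCast] at h
  have h2 : ∀ b : ℕ, χ ((-(b : ℤ) : ℤ) : ZMod (l ^ N)) = χ (b : ZMod (l ^ N)) := by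
    intro b
    rw [show ((-(b : ℤ) : ℤ) : ZMod (l ^ N)) = (-1) * (b : ZMod (l ^ N)) by
      push_cast; ring, map_mul, hχ, one_mul]
  have h3 : ∑ b ∈ Finset.range (l ^ N), χ (b : ZMod (l ^ N)) *
      Q ∞ ((-((b : ℚ) / (l : ℚ) ^ N) : ℚ) : OnePoint ℚ) =
      ∑ b ∈ Finset.range (l ^ N), χ (b : ZMod (l ^ N)) *
      Q ∞ (((b : ℚ) / (l : ℚ) ^ N : ℚ) : OnePoint ℚ) := by
    rw [← h]
    refine Finset.sum_congr rfl fun b _ => ?_
    rw [h2]
    congr 3
    push_cast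
    ring
  simp only [Syi.sgn1, mul_add, Finset.sum_add_distrib]
  rw [h3]
  ring

/-- depletion of the even part -/
theorem depEv (Q : OnePoint ℚ → OnePoint ℚ → ℂ) {l : ℕ} (hl : l.Prime)
    (h1 : ∀ y : ℚ, ∑ k ∈ Finset.range l, Q ∞ ((y + (k : ℚ) / l : ℚ) : OnePoint ℚ) = 0) (x : ℚ) :
    ∑ k ∈ Finset.range l, sgnPart 1 Q ∞ ((x + (k : ℚ) / l : ℚ) : OnePoint ℚ) = 0 := by
  simp only [Syi.sgn1]
  rw [Finset.sum_add_distrib]
  have h2 : ∑ k ∈ Finset.range l, Q ∞ ((-(x + (k : ℚ) / l) : ℚ) : OnePoint ℚ) = 0 := by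
    have hlQ : (l : ℚ) ≠ 0 := by exact_mod_cast hl.ne_zero
    have := h1 (-x - ((l : ℚ) - 1) / l)
    rw [← this, ← Finset.sum_range_reflect]
    refine Finset.sum_congr rfl fun k hk' => ?_
    have hkl : k < l := Finset.mem_range.1 hk'
    have hc : ((l - 1 - k : ℕ) : ℚ) = (l : ℚ) - 1 - k := by
      rw [Nat.cast_sub (by omega), Nat.cast_sub (by omega)]
      simp
    rw [hc]
    congr 2
    field_simp
    ring
  rw [h1, h2, add_zero]

lemma l_prime {l g h : ℕ} (hG : Pool.Agent.TWR.Gen l g h) : l.Prime := by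
  rcases hG with ⟨h1, -, -⟩ | ⟨h1, -, -⟩ <;> rw [h1]
  · exact Nat.prime_three
  · exact Nat.prime_two

/-- `thQ` for `P' = ⊤` -/
lemma ssti {n : ℕ} {ι : Type} [Fintype ι] (R : Reps A B n ι) (M : ℕ) (kp : ι → ℂ)
    (eta w : OO A B → ℂ) {r : ℕ} (ψ : DirichletCharacter ℂ r) (e : ℕ) (he : 1 ≤ e) :
    SSTI R M (thQ R kp eta ψ w e 0) w = SSTI R M (thT R kp eta ψ) (fun z => w z ^ e) := by
  unfold SSTI
  refine Finset.sum_congr rfl fun i _ => ?_
  congr 2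
  funext x
  unfold thQ
  have h1 : w x ^ e = w x ^ (e - 1) * w x := by
    rw [← pow_succ]
    congr 1
    omega
  show thT R kp eta ψ i x * w x ^ (e - 1) * w (star x) ^ 0 * w x * _ =
    thT R kp eta ψ i x * w x ^ e * _
  rw [h1, pow_zero]
  ring

end Syq

open Syq in
/-- (SYIA) -/
theorem t_SYIA (hTYP : S_TYPQ) : S_SYIA := by
  intro l g h hG p A B P V f hS hlf hTor ι _ R hGR w hw kp eta e hch he
  have hp := hS.pp
  have hl : l.Prime := l_prime hG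
  have he1 : 1 ≤ e := hch.e1
  have hq : 0 < p ^ 2 - 1 := by
    have := hS.p5
    have : 25 ≤ p ^ 2 := by nlinarith
    omega
  have hp0 : (p : ℂ) ≠ 0 := by exact_mod_cast hp.ne_zero
  have hvp0 : V.valuation (p : ℂ) ≠ 0 := (Valuation.ne_zero_iff _).2 hp0
  obtain ⟨tau, htau⟩ : ∃ tau : ℂ, tau ^ (p ^ 2 - 1) = (p : ℂ) ^ e :=
    IsAlgClosed.exists_pow_nat_eq _ hq
  have hvt : V.valuation tau ^ (p ^ 2 - 1) = V.valuation (p : ℂ) ^ e := by
    rw [← map_pow, htau, map_pow]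
  have htaua : IsAlgebraic ℚ tau := by
    refine IsAlgebraic.of_pow hq ?_
    rw [htau]
    exact (isAlgebraic_natCast (R := ℚ) (A := ℂ) p).pow e
  obtain ⟨W, hW⟩ : ∃ W : OO A B → ℂ, W = fun z => w z ^ e := ⟨_, rfl⟩
  have hei : MUX.IsEI (idl (p * f)) (epI eta W) := hW ▸ ei hS hw hch rfl
  have hsym := q_SYM hS.cq (Syi.pf0 hS) R (epI eta W) hei (kkI R kp eta W)
  have hchr := q_CHR V hS.cq (Syi.pf0 hS) (Syi.hDn hS) (epI eta W) hei
  have hsymE : IsSym (NI A B (p * f)) (nuX (epI eta W))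
      (sgnPart 1 (QI R (epI eta W) (kkI R kp eta W))) :=
    (tx_HK 1 le_rfl _ (nuX (epI eta W)) _ (QI R (epI eta W) (kkI R kp eta W))
      hsym hchr.1 1).2.1
  have hpV : (p : ℂ) ∈ V.nonunits := (ValuationSubring.mem_nonunits_iff _).2 (Syi.vp hS)
  have hLoc : Pool.Agent.NSG.LocN A B V := Pool.Agent.N2.loc_p hp hS.cq (Syi.hV' hS)
  have hroot : ∀ i, ∃ r : ℕ, r ≠ 0 ∧ kkI R kp eta W i ^ r = 1 := by
    intro i
    obtain ⟨r, hr, h1, -⟩ := hch.fin
    obtain ⟨r', hr', h2⟩ := q_ROU hS.cq (Syi.pf0 hS) (epI eta W) hei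
    refine ⟨r * r', mul_ne_zero (fun h0 => hr (h0 ▸ dvd_zero p)) hr', ?_⟩
    have h3 := h2 _ (MUXHY.Brg.e_nI R hei (Ideal.mem_span_singleton_self _) i)
    unfold kkI
    rw [mul_pow, pow_mul, h1, one_pow, inv_pow, mul_comm r, pow_mul, h3, one_pow, inv_one,
      mul_one]
  have halg : ∀ x y, IsAlgebraic ℚ (PhI R kp eta W x y) := fun x y =>
    q_ALG hS.cq (Syi.n2 hS) R _ hei _ (fun i => by
      obtain ⟨r, hr, h1⟩ := hroot i
      exact IsAlgebraic.of_pow (Nat.pos_of_ne_zero hr) (by rw [h1]; exact isAlgebraic_one)) x y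
  obtain ⟨n0, hn0⟩ := Pool.Agent.TWR.a_TW4 l g h hG V p hp hS.p5 (Syi.vp hS) Unit
    (NI A B (p * f)) (NI_ne hS.cq (Syi.pf0 hS)) (fun _ => nuX (epI eta W))
    (fun _ => hchr.2.1) (fun _ => hchr.1) (fun _ => hchr.2.2.2)
    (fun _ => hchr.2.2.1)
    (fun _ x y => tau * sgnPart 1 (PhI R kp eta W) x y)
    (fun _ => {
      add := fun x y z => by
        have := hsymE.add x y z
        rw [← mul_add]
        exact congrArg (fun z => tau * z) this
      equiv := fun a b c d h1 h2 x y => by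
        have := hsymE.equiv a b c d h1 h2 x y
        rw [mul_left_comm]
        exact congrArg (fun z => tau * z) this })
    (fun _ x => htaua.mul (by
      rw [Syi.sgn1]
      exact (halg _ _).add (halg _ _)))
    (fun _ x => by
      rw [Syi.sgn1, Syi.sgn1, neg_neg, add_comm])
    (fun _ x => by
      rw [← Finset.mul_sum, depEv (PhI R kp eta W) hl (fun y =>
        q_DEP hS.cq (Syi.pf0 hS) R _ hei _ l hl (hlf.trans (dvd_mul_left f p)) y) x, mul_zero])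
    (fun _ N' hN' hd => by
      obtain ⟨a, b, c, d, m1, m2, m3, m4⟩ := q_GS hS.cq (Syi.n2 hS) V p hp hpV hLoc R
        (hGR.kap _) (hGR.dis _) (Syi.hDn hS) (Syi.vD hS) (epI eta W) hei
        (kkI R kp eta W) (by
          obtain ⟨r, hr, h1⟩ := hroot R.i0
          exact MUXHY.Val.root_one V r _ hr h1) 1 N' hN' hd
      refine ⟨a, b, c, d, m1, m2, m3, ?_⟩
      have h5 := hTYP p A B P V f hS hTor ι R hGR w hw kp eta e hch he ∞ (mob a b c d ∞) (by
        rw [← hW]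
        exact m4)
      rw [← hW] at h5
      rw [map_mul]
      by_contra hlt
      rw [not_le] at hlt
      have h6 : V.valuation tau ^ (p ^ 2 - 1) *
          V.valuation (sgnPart 1 (PhI R kp eta W) ∞ (mob a b c d ∞)) ^ (p ^ 2 - 1) < 1 := by
        rw [← mul_pow]
        exact pow_lt_one₀ zero_le hlt hq.ne'
      rw [hvt] at h6
      exact absurd h5 (not_le.2 h6))
  refine ⟨max n0 2, fun n hn' ψ hψ1 hψ2 => ?_⟩
  have hn2 : 2 ≤ n := (le_max_right _ _).trans hn'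
  have hnn : n0 ≤ n := (le_max_left _ _).trans hn'
  have _nzl : NeZero (l ^ n) := ⟨pow_ne_zero _ hl.ne_zero⟩
  have hψi1 : ψ⁻¹ (-1) = 1 := by
    rw [MulChar.inv_apply_eq_inv', hψ1, inv_one]
  have hψi2 : ψ⁻¹ (1 + (l : ZMod (l ^ n)) ^ (n - 1)) ≠ 1 := by
    rw [MulChar.inv_apply_eq_inv']
    intro h1
    exact hψ2 (inv_eq_one.1 h1)
  have hv := hn0 n hnn () ψ⁻¹ hψi1 hψi2
  have hprim := Gau.prim hl hn2 ψ⁻¹ hψi2
  rw [ssti R _ kp eta w ψ e he1, ← hW]
  -- the value of the symbol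
  have hs1 := sum1 hS R hei (kp := kp) hl hlf ψ hprim
  have hs2 := sumEv (PhI R kp eta W) (per hS R hei) hl ψ⁻¹ hψi1
  rw [hs1] at hs2
  have hlp : ¬ (p : ℤ) ∣ (l : ℤ) := by
    intro hd
    have h1 : p ∣ l := by exact_mod_cast hd
    exact hS.fp (h1.trans hlf)
  have vl : V.valuation (l : ℂ) = 1 := by
    have := Syi.vn hS l hlp
    rwa [Int.cast_natCast] at this
  have hg : V.valuation (gaussSum ψ⁻¹ ZMod.stdAddChar) = 1 := by
    refine Gau.gone V ψ⁻¹ hprim ?_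
    push_cast
    rw [map_pow, vl, one_pow]
  have hv2m : V.valuation (2 * ((f * l ^ n * p : ℕ) : ℂ)) = V.valuation (p : ℂ) := by
    push_cast
    rw [map_mul, map_mul, map_mul, map_pow, Syi.v2 hS, Syi.vf hS, vl, one_pow, one_mul, one_mul,
      one_mul]
  set S : ℂ := ∑ b ∈ Finset.range (l ^ n), ψ⁻¹ (b : ZMod (l ^ n)) *
    sgnPart 1 (PhI R kp eta W) ∞ (((b : ℚ) / (l : ℚ) ^ n : ℚ) : OnePoint ℚ) with hSd
  have hga : V.valuation (p : ℂ) * V.valuation S =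
      V.valuation (SSTI R (f * l ^ n * p) (thT R kp eta ψ) W) := by
    rw [hs2, map_mul, map_mul, map_div₀, hv2m, hg, Syi.v2 hS]
    field_simp
  have e1 : ∑ b ∈ Finset.range (l ^ n), ψ⁻¹ (b : ZMod (l ^ n)) *
      (tau * sgnPart 1 (PhI R kp eta W) ∞
        (((b : ℚ) / (l : ℚ) ^ n : ℚ) : OnePoint ℚ)) = tau * S := by
    rw [hSd, Finset.mul_sum]
    exact Finset.sum_congr rfl fun b _ => by ring
  rw [e1, map_mul] at hv
  rw [← hga, mul_pow]
  have h7 : 1 ≤ V.valuation (p : ℂ) ^ e * V.valuation S ^ (p ^ 2 - 1) := by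
    rw [← hvt, ← mul_pow]
    exact one_le_pow₀ hv
  have h8 : V.valuation (p : ℂ) ^ (p ^ 2 - 1) =
      V.valuation (p : ℂ) ^ (p ^ 2 - 1 - e) * V.valuation (p : ℂ) ^ e := by
    rw [← pow_add]
    congr 1
    omega
  rw [h8, mul_assoc]
  exact le_mul_of_one_le_right' h7

end

end Pool.Agent.TWQ
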