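import Pool.Agent.TWQ.SYIA
import Pool.Agent.TWG.SYMA

/-!
# TWQ, module SYSA (helper19): `p` split, `1 ≤ e ≤ p - 2`
-/

set_option autoImplicit false

open WeierstrassCurve Polynomial NumberField IsDedekindDomain

namespace Pool.Agent.TWQ

open _root_.MU3 Pool.Agent.MU3A Pool.Agent.MU3B Pool.Agent.MU3F Pool.Agent.MUX Pool.Agent.MUXH
  Pool.Agent.MuSym OnePoint Pool.Agent.TWT Pool.Agent.TWG Pool.Agent.TWI
open Pool.Agent.MUXHY (toCQ toEI toLI nI_eq cjI_eq PhiI_eq PP N0X)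
open scoped ComplexConjugate

noncomputable section

namespace Sys

variable {p : ℕ} {A B : ℤ} {P : Ideal (OO A B)} {V : ValuationSubring ℂ} {f : ℕ}

/-- the character of the theta series, split case -/
def epS (eta w : OO A B → ℂ) (c : ℕ) (x : OO A B) : ℂ := eta x * w (star x) ^ c

/-- the character `epS eta w c` is odd, modulo `f cjI P` -/
theorem eiS (hS : SetG p A B P V f) {w : OO A B → ℂ} (hw : TeiP p P V w) {n : ℕ} {ι : Type}
    {R : Reps A B n ι} {kp : ι → ℂ} {eta : OO A B → ℂ} {e b q : ℕ} {P' : Ideal (OO A B)}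
    (hch : ChQ p q f P P' R kp eta e b) {c : ℕ} (hc : 1 ≤ c) (hodd : Odd (e - 1 + b + c)) :
    IsEI (idl f * cjI P) (epS eta w c) := by
  obtain ⟨-, hmax, -, -, -, -, -, -, -, -⟩ := g_IDE p A B P V f (Syma.toH hS)
  have hc0 : c ≠ 0 := by omega
  have hst1 : star (1 : OO A B) = 1 := star_one _
  have hcmax : (cjI P).IsMaximal := by
    refine Ideal.comap_isMaximal_of_surjective (starRingEnd (OO A B)) ?_
    intro x
    exact ⟨star x, star_star x⟩
  have hcop : ∀ x : OO A B, w (star x) ≠ 0 ↔ IsCoprime (sp x) (cjI P) := by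
    intro x
    rw [Ne, hw.zero]
    constructor
    · intro h
      rw [Ideal.isCoprime_iff_sup_eq]
      refine hcmax.1.2 _ ?_
      rw [lt_iff_le_not_ge]
      refine ⟨le_sup_right, fun h1 => h ?_⟩
      exact h1 (Ideal.mem_sup_left (Ideal.mem_span_singleton_self x))
    · intro h h1
      rw [Ideal.isCoprime_iff_sup_eq] at h
      have h2 : sp x ≤ cjI P := (Ideal.span_singleton_le_iff_mem _).2 h1
      rw [sup_eq_right.2 h2] at h
      exact hcmax.ne_top h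
  constructor
  · show eta 1 * w (star 1) ^ c = 1
    rw [hst1, hch.one, hw.one, one_pow, mul_one]
  · intro x y
    show eta (x * y) * w (star (x * y)) ^ c = eta x * w (star x) ^ c * (eta y * w (star y) ^ c)
    rw [hch.mul, star_mul', hw.mul, mul_pow]
    ring
  · intro x y h
    show eta x * w (star x) ^ c = eta y * w (star y) ^ c
    have h1 : x - y ∈ (idl f : Ideal (OO A B)) := Ideal.mul_le_left h
    have h2 : x - y ∈ cjI P := Ideal.mul_le_right h
    have h3 : star (x - y) ∈ P := (MUXHY.Ide.mem_cjI P (x - y)).1 h2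
    rw [star_sub] at h3
    rw [hch.per x y h1, hw.per (star x) (star y) h3]
  · intro x
    show eta x * w (star x) ^ c ≠ 0 ↔ _
    rw [mul_ne_zero_iff, pow_ne_zero_iff hc0, hch.supp, hcop, ← IsCoprime.mul_right_iff]
  · show eta (-1) * w (star (-1)) ^ c = -1
    rw [hch.neg, star_neg, hst1, Syma.w_neg hS hw, ← pow_add]
    exact Odd.neg_one_pow hodd

/-- `w (N b_i) ≠ 0` -/
lemma wn_ne (hS : SetG p A B P V f) {w : OO A B → ℂ} (hw : TeiP p P V w) {ι : Type}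
    (R : Reps A B (p * f) ι) (i : ι) : ((MUX.nI (R.b i) : ℕ) : OO A B) ∉ P := by
  have hQ := toCQ hS.cq
  obtain ⟨-, -, hz, -, -⟩ := MUXF.xf_ALG A B hQ
  have h1 : ¬ (p : ℤ) ∣ ((MUX.nI (R.b i) : ℕ) : ℤ) := by
    intro hd
    have h2 := R.cop i
    have h3 : p ∣ MUX.nI (R.b i) := by exact_mod_cast hd
    have h4 : p ∣ 1 := by
      rw [← Nat.Coprime.gcd_eq_one h2]
      exact Nat.dvd_gcd h3 (dvd_mul_right p f)
    exact hS.pp.one_lt.ne' (Nat.dvd_one.1 h4)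
  have h5 := Syma.vint hS _ h1
  exact ((g_VAL p A B P V f (Syma.toH hS)).2.2.2.1 ((MUX.nI (R.b i) : ℕ) : OO A B)).1 (by
    have := (hz ((MUX.nI (R.b i) : ℕ) : ℤ)).1
    rw [Int.cast_natCast] at this
    rw [this]
    exact h5)

/-- `w y ^ (b + (p - 1)) = w y ^ b` for `b ≥ 1` -/
lemma w_pow (hS : SetG p A B P V f) {w : OO A B → ℂ} (hw : TeiP p P V w) {b : ℕ} (hb : 1 ≤ b)
    (y : OO A B) : w y ^ (b + (p - 1)) = w y ^ b := by
  by_cases hy : y ∈ P
  · rw [(hw.zero y).2 hy, zero_pow (by omega), zero_pow (by omega)]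
  · rw [pow_add, hw.root y hy, mul_one]

/-- the inner sum is `SSTI` -/
theorem sst (hS : SetG p A B P V f) {w : OO A B → ℂ} (hw : TeiP p P V w) {ι : Type} [Fintype ι]
    (R : Reps A B (p * f) ι) {kp : ι → ℂ} {eta : OO A B → ℂ} {e b c : ℕ} (he : 1 ≤ e)
    (hb : 1 ≤ b) (hc : c + e = b + (p - 1))
    (m q : ℕ) (ψ : DirichletCharacter ℂ q) (wD : DirichletCharacter ℂ p)
    (hwD : ∀ c : ℤ, wD (c : ZMod p) = (w (c : OO A B))⁻¹) (hm : m ≠ 0) :
    ∑ i, kp i * (w ((MUX.nI (R.b i) : ℕ) : OO A B) ^ e)⁻¹ * muX R i *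
      sumMod (m : OO A B) (fun x =>
        epS eta w c x * ψ⁻¹⁻¹ ((nm x * MUX.nI (R.b i) : ℤ) : ZMod q) *
          (wD ^ e)⁻¹ ((nm x * MUX.nI (R.b i) : ℤ) : ZMod p) * ee (R.L i) (pt R m i x)) =
      SSTI R m (thQ R kp eta ψ w e b) w := by
  have hQ := toCQ hS.cq
  obtain ⟨hal, hx, hz, hfin, hdom⟩ := MUXF.xf_ALG A B hQ
  have hF := hfin _ (idl_ne_bot (A := A) (B := B) hm)
  have _nz : NeZero p := ⟨hS.pp.ne_zero⟩
  have he0 : e ≠ 0 := by omega
  -- `(wD ^ e)⁻¹` on the integers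
  have hwi : ∀ c : ℤ, (wD ^ e)⁻¹ (c : ZMod p) = w (c : OO A B) ^ e := by
    intro c
    rw [MulChar.inv_apply_eq_inv', MulChar.pow_apply' wD he0, hwD, inv_pow, inv_inv]
  unfold SSTI
  refine Finset.sum_congr rfl fun i _ => ?_
  have hwn : w ((MUX.nI (R.b i) : ℕ) : OO A B) ≠ 0 := by
    intro h0
    rw [hw.zero] at h0
    exact wn_ne hS hw R i h0
  rw [mul_assoc, mul_comm (kp i * _), mul_assoc, mul_comm (sumMod _ _),
    ← Pool.Agent.MUXF.F5x.sm_mul]
  congr 2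
  funext x
  have hnm : ((nm x * MUX.nI (R.b i) : ℤ) : OO A B) =
      x * star x * ((MUX.nI (R.b i) : ℕ) : OO A B) := by
    rw [(hx x).2.2.2.2.1]
    push_cast
    ring
  rw [inv_inv, hwi, hnm, hw.mul, hw.mul]
  have h1 : w x ^ e = w x ^ (e - 1) * w x := by
    rw [← pow_succ]
    congr 1
    omega
  have h2 : w (star x) ^ c * w (star x) ^ e = w (star x) ^ b := by
    rw [← pow_add, hc, w_pow hS hw hb]
  have h3 : w ((MUX.nI (R.b i) : ℕ) : OO A B) ^ e ≠ 0 := pow_ne_zero _ hwn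
  unfold epS thQ thT
  rw [mul_pow, mul_pow]
  calc kp i * (w ((MUX.nI (R.b i) : ℕ) : OO A B) ^ e)⁻¹ * (eta x * w (star x) ^ c *
        ψ ((nm x * MUX.nI (R.b i) : ℤ) : ZMod q) *
        (w x ^ e * w (star x) ^ e * w ((MUX.nI (R.b i) : ℕ) : OO A B) ^ e) *
        ee (R.L i) (pt R m i x)) =
      kp i * eta x * ψ ((nm x * MUX.nI (R.b i) : ℤ) : ZMod q) * w x ^ e *
        (w (star x) ^ c * w (star x) ^ e) * ee (R.L i) (pt R m i x) *
        ((w ((MUX.nI (R.b i) : ℕ) : OO A B) ^ e)⁻¹ * w ((MUX.nI (R.b i) : ℕ) : OO A B) ^ e) := by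
          ring
    _ = _ := by
      rw [inv_mul_cancel₀ h3, h2, h1]
      ring

end Sys

open Sys in
/-- (SYSA) -/
theorem t_SYSA (hTB : S_TBQ) (hST : S_STKQ) : S_SYSA := by
  intro l g h hG p A B P V f hS hlf hTor ι _ R hGR w hw kp eta e b hch he
  have hQ := toCQ hS.cq
  obtain ⟨hal, hx, hz, hfin, hdom⟩ := MUXF.xf_ALG A B hQ
  obtain ⟨hPb, hmax, -, -, hgb, hpf, -, -, -, -⟩ := g_IDE p A B P V f (Syma.toH hS)
  obtain ⟨-, vp, -, -, -, vn, vr, vf, -, -, -⟩ := g_VAL p A B P V f (Syma.toH hS)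
  have hp := hS.pp
  have hp5 := hS.p5
  have he1 : 1 ≤ e := hch.e1
  have hb : 1 ≤ b := by
    rcases hch.bb with ⟨h1, -⟩ | ⟨-, h1, -⟩
    · exfalso
      have hcmax : (cjI P).IsMaximal := by
        refine Ideal.comap_isMaximal_of_surjective (starRingEnd (OO A B)) ?_
        intro x
        exact ⟨star x, star_star x⟩
      exact hcmax.ne_top h1
    · exact h1
  have _nzp : NeZero p := ⟨hp.ne_zero⟩
  have hl : l.Prime := Syq.l_prime hG
  obtain ⟨hn, al, hh, hPal⟩ := MUXHY.y_CLN A B hS.cq (p * f) ι inferInstance R P hPb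
  obtain ⟨wD, hwD, hwD1⟩ := Pool.Agent.TWB.t_TED p A B P V hS.cq hp
    (lt_of_lt_of_le (by norm_num) hS.p5) hS.hP hS.hV w hw
  obtain ⟨hne1, hstk⟩ := hST p A B P V f hS w hw wD hwD e he1 he
  obtain ⟨c, hc⟩ : ∃ c, c = b + (p - 1) - e := ⟨_, rfl⟩
  have hc1 : 1 ≤ c := by omega
  have hce : c + e = b + (p - 1) := by omega
  have hpodd : p % 2 = 1 := by
    rcases hp.eq_two_or_odd with h1 | h1
    · omega
    · exact h1
  have hne : IsEI (idl f * cjI P) (epS eta w c) := eiS hS hw hch hc1 (by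
    rw [Nat.odd_iff]
    omega)
  -- the weights
  have hwn : ∀ i, w ((MUX.nI (R.b i) : ℕ) : OO A B) ^ (p - 1) = 1 := fun i =>
    hw.root _ (wn_ne hS hw R i)
  have hp1 : p - 1 ≠ 0 := by omega
  have hroot : ∀ i, ∃ r : ℕ, r ≠ 0 ∧
      (kp i * (w ((MUX.nI (R.b i) : ℕ) : OO A B) ^ e)⁻¹) ^ r = 1 := by
    intro i
    obtain ⟨r, hr, h1, -⟩ := hch.fin
    refine ⟨r * (p - 1), mul_ne_zero (fun h0 => hr (h0 ▸ dvd_zero p)) hp1, ?_⟩
    rw [mul_pow, pow_mul, h1, one_pow, inv_pow, ← pow_mul, show e * (r * (p - 1)) =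
      (p - 1) * (e * r) by ring, pow_mul, hwn, one_pow, inv_one, mul_one]
  have hs1 : ((-1) ^ e : ℤ) = 1 ∨ ((-1) ^ e : ℤ) = -1 := neg_one_pow_eq_or ℤ e
  have hpar : (wD ^ e) (-1) = (((-1) ^ e : ℤ) : ℂ) := by
    rw [MulChar.pow_apply' wD (by omega), hwD1]
    push_cast
    rfl
  obtain ⟨n0, hn0⟩ := hTB l g h hG V p hS.p5 (N0X A B f) 1 hn
    (epS eta w c al * conj (emb al)) (nuX (epS eta w c))
    (PP R P (epS eta w c) (fun i => kp i * (w ((MUX.nI (R.b i) : ℕ) : OO A B) ^ e)⁻¹))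
    ((-1) ^ e : ℤ)
    (t_HYP p A B P V f (Syma.toH hS) ι R (hGR.kap _) (hGR.dis _) _ hne _
      (fun i => by
        obtain ⟨r, hr, h1⟩ := hroot i
        exact IsAlgebraic.of_pow (Nat.pos_of_ne_zero hr) (by rw [h1]; exact isAlgebraic_one))
      (fun i => by
        obtain ⟨r, hr, h1⟩ := hroot i
        exact vr r _ hr h1) _ hs1 hn al hh hPal)
    (fun x => Pool.Agent.TWB.t_DPP A B hS.cq (p * f) ι R P hPb (idl f * cjI P) _ hgb hne l
      hl (Ideal.mul_le_left.trans (by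
        rw [Ideal.span_singleton_le_span_singleton]
        obtain ⟨k, hk⟩ := hlf
        refine ⟨(k : OO A B), ?_⟩
        rw [hk]
        push_cast
        rfl)) _ 0 x) (wD ^ e) hne1 hpar
  refine ⟨max n0 2, fun n hn' ψ hψ1 hψ2 => ?_⟩
  have hn2 : 2 ≤ n := (le_max_right _ _).trans hn'
  have hnn : n0 ≤ n := (le_max_left _ _).trans hn'
  have _nzl : NeZero (l ^ n) := ⟨pow_ne_zero _ hl.ne_zero⟩
  have hψi1 : ψ⁻¹ (-1) = 1 := by
    rw [MulChar.inv_apply_eq_inv', hψ1, inv_one]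
  have hψi2 : ψ⁻¹ (1 + (l : ZMod (l ^ n)) ^ (n - 1)) ≠ 1 := by
    rw [MulChar.inv_apply_eq_inv']
    intro h1
    exact hψ2 (inv_eq_one.1 h1)
  have hv := hn0 n hnn ψ⁻¹ hψi1 hψi2
  have hprim := Gau.prim hl hn2 ψ⁻¹ hψi2
  have hprim2 := Gau.prim1 hp (wD ^ e) hne1
  have hm : f * l ^ n * p ≠ 0 :=
    mul_ne_zero (mul_ne_zero hS.f0 (pow_ne_zero _ hl.ne_zero)) hp.ne_zero
  have hmg : ((f * l ^ n * p : ℕ) : OO A B) ∈ (idl f * cjI P : Ideal (OO A B)) := by
    have : ((f * l ^ n * p : ℕ) : OO A B) = ((l ^ n : ℕ) : OO A B) * ((p * f : ℕ) : OO A B) := by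
      push_cast
      ring
    rw [this]
    exact Ideal.mul_mem_left _ _ hpf
  have hcopm : ∀ i, (MUX.nI (R.b i)).Coprime (f * l ^ n * p) := by
    intro i
    have h1 := R.cop i
    have h2 : (MUX.nI (R.b i)).Coprime p := Nat.Coprime.coprime_mul_right_right h1
    have h3 : (MUX.nI (R.b i)).Coprime f := Nat.Coprime.coprime_mul_left_right h1
    have h4 : (MUX.nI (R.b i)).Coprime l := Nat.Coprime.coprime_dvd_right hlf h3
    exact Nat.Coprime.mul_right (Nat.Coprime.mul_right h3 (Nat.Coprime.pow_right n h4)) h2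
  have hsum := t_SUM A B hS.cq (p * f) ι R P (idl f * cjI P) (epS eta w c) hne
    (fun i => kp i * (w ((MUX.nI (R.b i) : ℕ) : OO A B) ^ e)⁻¹) (f * l ^ n * p) (l ^ n) p hm hmg
    (by rw [mul_assoc]; exact Dvd.intro_left f rfl) hcopm ψ⁻¹ hprim (wD ^ e) hprim2
  rw [sst hS hw R he1 hb hce (f * l ^ n * p) (l ^ n) ψ wD hwD hm] at hsum
  have hcast : ∀ b c : ℕ, (((b : ℚ) / ((l ^ n : ℕ) : ℚ) + (c : ℚ) / p : ℚ) : OnePoint ℚ) =
      (((b : ℚ) / (l : ℚ) ^ n + (c : ℚ) / p : ℚ) : OnePoint ℚ) := by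
    intro b c
    push_cast
    rfl
  simp only [hcast] at hsum
  rw [hsum] at hv
  -- valuations
  set S : ℂ := SSTI R (f * l ^ n * p) (thQ R kp eta ψ w e b) w with hSd
  have hlp : ¬ (p : ℤ) ∣ (l : ℤ) := by
    intro hd
    have h1 : p ∣ l := by exact_mod_cast hd
    exact hS.fp (h1.trans hlf)
  have vl : V.valuation (l : ℂ) = 1 := by
    have := vn l hlp
    rwa [Int.cast_natCast] at this
  have v2 : V.valuation (2 : ℂ) = 1 := by
    have := vn 2 (fun hd => by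
      have := Int.le_of_dvd (by norm_num) hd
      omega)
    rwa [show ((2 : ℤ) : ℂ) = 2 by norm_num] at this
  have hv2m : V.valuation (2 * ((f * l ^ n * p : ℕ) : ℂ)) = V.valuation (p : ℂ) := by
    push_cast
    rw [map_mul, map_mul, map_mul, map_pow, v2, vf, vl, one_pow, one_mul, one_mul, one_mul]
  have hg1 : V.valuation (gaussSum ψ⁻¹ ZMod.stdAddChar) ≤ 1 := Gau.gle V ψ⁻¹
  have hp0 : (p : ℂ) ≠ 0 := by exact_mod_cast hp.ne_zero
  have hvp0 : V.valuation (p : ℂ) ≠ 0 := (Valuation.ne_zero_iff _).2 hp0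
  rw [map_mul, map_div₀, map_mul, hv2m] at hv
  have h3 : V.valuation (p : ℂ) ≤ V.valuation (gaussSum (wD ^ e) ZMod.stdAddChar) *
      V.valuation S := by
    calc V.valuation (p : ℂ) = V.valuation (p : ℂ) * 1 := (mul_one _).symm
      _ ≤ V.valuation (p : ℂ) * (V.valuation (gaussSum ψ⁻¹ ZMod.stdAddChar) *
          V.valuation (gaussSum (wD ^ e) ZMod.stdAddChar) / V.valuation (p : ℂ) *
          V.valuation S) := mul_le_mul_right hv _
      _ = V.valuation (gaussSum ψ⁻¹ ZMod.stdAddChar) *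
          (V.valuation (gaussSum (wD ^ e) ZMod.stdAddChar) * V.valuation S) := by
        field_simp
      _ ≤ 1 * (V.valuation (gaussSum (wD ^ e) ZMod.stdAddChar) * V.valuation S) :=
        mul_le_mul_left hg1 _
      _ = _ := one_mul _
  have h4 : V.valuation (p : ℂ) ^ (p - 1) ≤ V.valuation (p : ℂ) ^ e * V.valuation S ^ (p - 1) := by
    calc V.valuation (p : ℂ) ^ (p - 1) ≤
        (V.valuation (gaussSum (wD ^ e) ZMod.stdAddChar) * V.valuation S) ^ (p - 1) :=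
          pow_le_pow_left₀ zero_le h3 _
      _ = V.valuation (gaussSum (wD ^ e) ZMod.stdAddChar) ^ (p - 1) *
          V.valuation S ^ (p - 1) := mul_pow _ _ _
      _ ≤ _ := mul_le_mul_left hstk _
  have h5 : V.valuation (p : ℂ) ^ (p - 1) =
      V.valuation (p : ℂ) ^ e * V.valuation (p : ℂ) ^ (p - 1 - e) := by
    rw [← pow_add]
    congr 1
    omega
  rw [h5] at h4
  exact (mul_le_mul_iff_right₀ (zero_lt_iff.2 (pow_ne_zero _ hvp0))).1 h4

end

end Pool.Agent.TWQ
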