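import Pool.Agent.TWQ.SYIA
import Pool.Agent.TWQ.SYSA
import Pool.Agent.TWQ.SPI
import Pool.Agent.TWQ.SPS
import Pool.Agent.TWQ.TBQ
import Pool.Agent.TWQ.STKQ

/-!
# TWQ, module SYMQ (helper19): `S_SYMQ`, all characters, both types of primes
-/

set_option autoImplicit false

open WeierstrassCurve Polynomial NumberField IsDedekindDomain

namespace Pool.Agent.TWQ

open _root_.MU3 Pool.Agent.MU3A Pool.Agent.MU3B Pool.Agent.MU3C Pool.Agent.RI Pool.Agent.RID
open Pool.Agent.MUX Pool.Agent.MUXU Pool.Agent.MUXW Pool.Agent.TWT Pool.Agent.TWI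
open OnePoint

noncomputable section

namespace Symq

variable {A B : ℤ} {n : ℕ} {ι : Type}

/-- `e = N`: the sum is the difference of the sum over all `x` and the part `x ∈ P` -/
theorem diff [Fintype ι] (R : Reps A B n ι) (M : ℕ) (hM : M ≠ 0) (kp : ι → ℂ)
    (eta w : OO A B → ℂ) {r : ℕ} (ψ : DirichletCharacter ℂ r) (N b : ℕ) (hN : 1 ≤ N) :
    SSTI R M (thQ R kp eta ψ w N b) w =
      SAll R M (thP R kp eta ψ w b) - SPt R M N (thP R kp eta ψ w b) w := by
  have hf := SDE.finR (A := A) (B := B) M hM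
  unfold SSTI SAll SPt
  rw [← Finset.sum_sub_distrib]
  refine Finset.sum_congr rfl fun i _ => ?_
  rw [← mul_sub, ← SDE.sumMod_sub hf]
  congr 2
  funext x
  have h1 : w x ^ N = w x ^ (N - 1) * w x := by
    rw [← pow_succ]
    congr 1
    omega
  unfold thQ thP
  rw [h1]
  ring

theorem comb (V : ValuationSubring ℂ) {x y : ℂ} (hx : V.valuation x < 1)
    (hy : 1 ≤ V.valuation y) : 1 ≤ V.valuation (x - y) := by
  have h1 : V.valuation (x - y) = V.valuation y := by
    rw [Valuation.map_sub_swap]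
    have h2 : V.valuation x < V.valuation y := hx.trans_le hy
    rw [sub_eq_add_neg, Valuation.map_add_eq_of_lt_left]
    rwa [Valuation.map_neg]
  rw [h1]
  exact hy

end Symq

open Symq in
/-- one character -/
theorem single (hTYP : S_TYPQ) (hSAL : S_SALQ) (l g h : ℕ) (hG : Pool.Agent.TWR.Gen l g h)
    (p q : ℕ) (A B : ℤ) (P P' : Ideal (OO A B)) (V : ValuationSubring ℂ) (f : ℕ)
    (hS : SetQ p q A B P P' V f) (hlf : l ∣ f) (hT : TorX A B) (ι : Type) [Fintype ι]
    (R : Reps A B (p * f) ι) (hGR : GRd V R) (w : OO A B → ℂ) (hw : TeQ p q P V w)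
    (kp : ι → ℂ) (eta : OO A B → ℂ) (e b : ℕ) (hch : ChQ p q f P P' R kp eta e b) :
    ∃ n0 : ℕ, ∀ n : ℕ, n0 ≤ n → ∀ ψ : DirichletCharacter ℂ (l ^ n), ψ (-1) = 1 →
      ψ (1 + (l : ZMod (l ^ n)) ^ (n - 1)) ≠ 1 →
      V.valuation (p : ℂ) ^ (q - 1 - e) ≤
        V.valuation (SSTI R (f * l ^ n * p) (thQ R kp eta ψ w e b) w) ^ (q - 1) := by
  obtain ⟨n1, hn1⟩ := hSAL l g h hG p q A B P P' V f hS hlf ι R hGR w hw kp eta e b hch
  have heq := hch.eN
  rcases hS with ⟨h3, ⟨hI, hP', hq⟩ | ⟨hGs, hP', hq⟩⟩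
  · have hp5 := hI.p5
    have hp2 : 25 ≤ p ^ 2 := by nlinarith
    have hw' : TeiI p P V w := by
      rcases hw with ⟨-, h1⟩ | ⟨h1, -⟩
      · exact h1
      · exfalso
        rw [hq] at h1
        nlinarith
    have hb0 : b = 0 := by
      rcases hch.bb with ⟨-, h1⟩ | ⟨h1, -, -⟩
      · exact h1
      · exfalso
        have h2 : (1 : OO A B) ∈ cjI P := by rw [← h1, hP']; trivial
        have h4 : star (1 : OO A B) ∈ P := (MUXHY.Ide.mem_cjI P 1).1 h2
        rw [star_one] at h4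
        exact hI.hP.ne_top ((Ideal.eq_top_iff_one P).2 h4)
    subst hP' hq hb0
    rcases Nat.lt_or_ge e (p ^ 2 - 1) with he | he
    · exact t_SYIA hTYP l g h hG p A B P V f hI hlf hT ι R hGR w hw' kp eta e hch he
    · have he' : e = p ^ 2 - 1 := by omega
      subst he'
      obtain ⟨n2, hn2⟩ := t_SPI l g h hG p A B P V f hI hlf ι R hGR w hw' kp eta hch
      refine ⟨max n1 n2, fun n hn ψ hψ1 hψ2 => ?_⟩
      have ha := hn1 n ((le_max_left _ _).trans hn) ψ hψ2
      have hb := hn2 n ((le_max_right _ _).trans hn) ψ hψ1 hψ2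
      have hM : f * l ^ n * p ≠ 0 :=
        mul_ne_zero (mul_ne_zero hI.f0 (pow_ne_zero _ (Syq.l_prime hG).ne_zero)) hI.pp.ne_zero
      rw [Nat.sub_self, pow_zero, diff R _ hM kp eta w ψ (p ^ 2 - 1) 0 (by omega)]
      exact one_le_pow₀ (comb V ha hb)
  · have hp5 := hGs.p5
    have hw' : TeiP p P V w := by
      rcases hw with ⟨h1, -⟩ | ⟨-, h1⟩
      · exfalso
        rw [hq] at h1
        nlinarith
      · exact h1
    subst hP' hq
    rcases Nat.lt_or_ge e (q - 1) with he | he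
    · exact t_SYSA t_TBQ t_STKQ l g h hG q A B P V f hGs hlf hT ι R hGR w hw' kp eta e b hch he
    · have he' : e = q - 1 := by omega
      subst he'
      obtain ⟨n2, hn2⟩ := t_SPS l g h hG q A B P V f hGs hlf ι R hGR w hw' kp eta b hch
      refine ⟨max n1 n2, fun n hn ψ hψ1 hψ2 => ?_⟩
      have ha := hn1 n ((le_max_left _ _).trans hn) ψ hψ2
      have hb := hn2 n ((le_max_right _ _).trans hn) ψ hψ1 hψ2
      have hM : f * l ^ n * q ≠ 0 :=
        mul_ne_zero (mul_ne_zero hGs.f0 (pow_ne_zero _ (Syq.l_prime hG).ne_zero)) hGs.pp.ne_zero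
      rw [Nat.sub_self, pow_zero, diff R _ hM kp eta w ψ (q - 1) b (by omega)]
      exact one_le_pow₀ (comb V ha hb)

/-- (SYMQ) from TYPQ and SALQ -/
theorem t_SYMQ (hTYP : S_TYPQ) (hSAL : S_SALQ) : S_SYMQ := by
  intro l g h hG p q A B P P' V f hS hlf hT ι _ R hGR w hw J _ kp eta e b hch _
  have := Fintype.ofFinite J
  choose n0 hn0 using fun j => single hTYP hSAL l g h hG p q A B P P' V f hS hlf hT ι R hGR w hw
    (kp j) (eta j) (e j) (b j) (hch j)
  exact ⟨Finset.univ.sup n0, fun n hn j ψ h1 h2 =>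
    hn0 j n ((Finset.le_sup (Finset.mem_univ j)).trans hn) ψ h1 h2⟩

end

end Pool.Agent.TWQ
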