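import Pool.Agent.TWQ.DefsQ
import Pool.Agent.TWQ.DPR
import Pool.Agent.TWI.StI1

/-!
# TWQ, block B': a large sum gives a non-power, for a character ramified at `P` (helper60)

`SetQ p q A B P P' V f` (`p` inert: `P' = ⊤`, `q = p²`; `p` split: `P' = cjI P`, `q = p`), `N = q - 1`, `R : Reps A B (p * f) ι`, `m` a level prime to `p`, `M = m p`,
`F = RF (idl M)`, `F0 = RF (idl m * P')`, `τ = v(t0)`, `τ^N = v(p)`. `x0 ∈ P`, `x0 ≡ 1` modulo `idl m * P'`; `y0 ∈ P'`, `y0 ∉ P` (`LvQ`); `T` = representatives of the nonzero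
classes modulo `P`; `a_c = x0 + c m y0`, `c ∈ T`: prime to `M`, `≡ 1` modulo `idl m * P'`. `pt R M i (x a_c) = z + pt R p i (x c y0)`, `z = pt R M i (x x0)`. `γ_c ∈ Gal(F/k)` maps the base point
to `± pt R M i0 a_c`; `{γ_c} = Gal(F/F0)`, totally ramified.

THE ARGUMENT. A pair `(u, g)` of functions on `T` is a `D`-pair (`DPr`, helper3: `Pool/Agent/TWQ/DefD.lean`, `DPR.lean`) if `u = A(w(c))`, `g = (X A')(w(c))` modulo `t0^N` for a polynomial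
with `v(A_k) ≤ τ^k`: `g` is the logarithmic derivative of `u` in the direction of `P` (`w(c) t0 d/dz`). It is unique modulo `t0^N`. (1) For every `y ∈ F`, `v(y) ≤ 1`, the function `c ↦ γ_c y` is part of a `D`-pair
(FIQ): `y = Σ_(j<N) b_j Π^j`, `b_j ∈ F0`, `v(b_j) ≤ 1`, `Π = xn(pt R M i0 1) - xn(pt R M i0 x0)`. (2) For `θ = Θ(pt R M i0 1)`: `γ_c(σθ)` has the derivative `γ_c(σθ) mu_i w(x c) t0 dlX(L_i; pt R M i (x a_c))`, if `σ` hits `(i, x)` (DLQ). (3) If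
`∏_σ (σθ)^(n_t(σ)) = y^p` with `y ∈ D ≤ F` then (`logd` of DPR; `v(p) = τ^N`) `v(t0 Σ_σ n_t(σ) mu w(x_σ c) dlX(..)) ≤ τ^N`, `n_t(σ) = t(χ(σ)⁻¹)`. For all `t`: (RSQ) `v(Σ_σ th(σ) mu w(x_σ a_c) dlX(..)) ≤ τ^(N-1)`; the sum is a unit times
`SDTI` (SIGQ), so (SDQ) `v(SSTI) ≤ τ^(N-1)`, and `e ≥ 2`, `v(SSTI)^N ≥ v(p)^(N-e)` is a contradiction. No condition at Frobenius.

Every `def S_X : Prop` is the statement of a module, which proves `theorem t_X : S_X` (or `theorem t_X (h : S_Y) .. : S_X` with the statements named under USES, fewer is fine) in `Pool/Agent/TWQ/X.lean`, namespace `Pool.Agent.TWQ`.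
THEOREMS which may be cited (import the file): `Pool.Agent.TWT.t_HTF`, `t_IDP`, `t_VPG`, `t_PIS`, `t_KEP`, `t_PTA`, `t_TAY`, `t_ADV`, `t_THT`, `t_FOI` (`Pool/Agent/TWT/X.lean`; some have hypotheses which are theorems too), `Pool.Agent.TWI.t_TEP`, `t_IDPI`, `t_VPGI`, `t_UNRGI`, `t_MUGI`, `t_CNTI` (`Pool/Agent/TWI/X.lean`), `a_LGI`, `a_TYI`,
`a_VPA`, `a_KRI`, `a_ROT`, `a_MLI`, `i_EXP`, `i_GRI`, `i_PTI` (`Pool/Agent/TWI/AAll.lean`), helper3's `exq`, `exq_theta`, `exq_x` (`Pool/Agent/TWQ/EXQ.lean`) and `DPR.lean`; all facts named in the headers of `StT2.lean`, `StI1.lean`.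
-/

set_option autoImplicit false

open WeierstrassCurve Polynomial NumberField IsDedekindDomain

namespace Pool.Agent.TWQ

open _root_.MU3 Pool.Agent.MU3A Pool.Agent.MU3B Pool.Agent.MU3C Pool.Agent.RI Pool.Agent.RID
open Pool.Agent.MUX Pool.Agent.MUXU Pool.Agent.MUXW Pool.Agent.TWT Pool.Agent.TWI
open Pool.Agent.MU3V (cls Sub GD algDF)
open Pool.Agent.MUXV (GR InK tX)
open Pool.Agent.MUXI (IA RE AR)
open OnePoint

noncomputable section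

/-! ## Definitions -/

/-- the numbers `x0`, `y0` for a level `m` prime to `p` -/
structure LvQ (p : ℕ) {A B : ℤ} (P P' : Ideal (OO A B)) (m : ℕ) (x0 y0 : OO A B) : Prop where
  m3 : 3 ≤ m
  pm : ¬ p ∣ m
  xP : x0 ∈ P
  xm : x0 - 1 ∈ (idl m : Ideal (OO A B)) * P'
  yP' : y0 ∈ P'
  yP : y0 ∉ P

/-- Taylor expansions at all points of the `L_i` outside the kernel of reduction in the direction of the points `pt R p i (x y0)`, which
have the logarithms `mu_i w(x) t0` modulo `t0^q` -/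
structure LocQ (p q : ℕ) {A B : ℤ} {n : ℕ} {ι : Type} (P : Ideal (OO A B))
    (V : ValuationSubring ℂ) (R : Reps A B n ι) (y0 : OO A B) (w : OO A B → ℂ) (t0 : ℂ) :
    Prop where
  ne : t0 ≠ 0
  vt : V.valuation t0 ^ (q - 1) = V.valuation (p : ℂ)
  loc : ∀ i, ∃ (a2 a4 : V) (lam : ℕ → ℂ), GRa V (R.L i) a2 a4 ∧ HasTyI V (R.L i) q a2 a4 lam ∧
    ∀ x : OO A B, x ∉ P → InK V (R.L i) (xn (R.L i)) (pt R p i (x * y0)) ∧
      pt R p i (x * y0) ∉ (R.L i).lattice ∧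
      V.valuation (tX (xn (R.L i)) (yy (R.L i)) (pt R p i (x * y0))) = V.valuation t0 ∧
      V.valuation (vpi lam q (tX (xn (R.L i)) (yy (R.L i)) (pt R p i (x * y0))) -
        muX R i * w x * t0) ≤ V.valuation t0 ^ q

/-! ## 1. Ideals, valuations, characters -/

/-- (IDQ) ideals. PROOF. Inert: `t_IDPI`, `t_TEP` (`P * ⊤ = P = idl p`, `y0 = 1`, `IsCoprime P ⊤`). Split: `t_IDP`; `nI P = p` is the card of `O/P` (`IsPN`), `T` = `{1, .., p-1}`; `T.card`: bijection of a `T` with the nonzero classes. `p ≤ q`. `fD`, `OverI`: fields of `SetI`, `SetG`. Last part of the `LvQ` clause: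
(a) `a_c = x0 + c m y0`: modulo `P`: `≡ c m y0 ∉ P` (`P` prime; `m ∉ P`); modulo `idl m * P'`: `≡ x0 ≡ 1` (`m y0 ∈ idl m * P'`); `idl (m p) = idl m * P' * P`. (b) `x` prime to `m p`, `x ≡ 1` modulo `I = idl m * P'`: `x ∉ P`; `O/P` is a field, `m y0 ∉ P`: `x ≡ c m y0` modulo `P` for some `c ∈ T` (`RepI.surj`, `x ∉ P` gives `c ∉ P`). `x - a_c ∈ P` and `∈ I`, `P` and `I` coprime: in the product `= idl (m p)`.
(c) `x x0 ∈ idl (m p) ≤ I`, `x0 ≡ 1` modulo `I`: `x ∈ I`. (d) `x ∈ I`, `x0 ∈ P`. -/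
def S_IDQ : Prop :=
  ∀ (p q : ℕ) (A B : ℤ) (P P' : Ideal (OO A B)) (V : ValuationSubring ℂ) (f : ℕ),
    SetQ p q A B P P' V f →
    (CQ A B ∧ p.Prime ∧ 5 ≤ p ∧ p ≤ q ∧ P.IsPrime ∧ OverI V P ∧ f ≠ 0 ∧ ¬ p ∣ f ∧
      2 * absD A B ∣ (f : ℤ) ∧ P * P' = idl p ∧ IsCoprime P P') ∧
    (∀ c : ℤ, (c : OO A B) ∈ P ↔ (p : ℤ) ∣ c) ∧
    (∃ T, RepI P T) ∧ (∀ T, RepI P T → T.card = q - 1) ∧
    (∀ m : ℕ, 3 ≤ m → ¬ p ∣ m → ∃ x0 y0 : OO A B, LvQ p P P' m x0 y0) ∧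
    (∀ (m : ℕ) (x0 y0 : OO A B), LvQ p P P' m x0 y0 →
      (∀ c : OO A B, c ∉ P → IsCoprime (x0 + c * m * y0) ((m * p : ℕ) : OO A B) ∧
        x0 + c * m * y0 - 1 ∈ (idl m : Ideal (OO A B)) * P') ∧
      (∀ T, RepI P T → ∀ x : OO A B, IsCoprime x ((m * p : ℕ) : OO A B) →
        x - 1 ∈ (idl m : Ideal (OO A B)) * P' →
        ∃ c ∈ T, x - (x0 + c * m * y0) ∈ idl (A := A) (B := B) (m * p)) ∧
      (∀ x : OO A B, x * x0 ∈ idl (A := A) (B := B) (m * p) →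
        x ∈ (idl m : Ideal (OO A B)) * P') ∧
      ∀ x ∈ (idl m : Ideal (OO A B)) * P', x * x0 ∈ idl (A := A) (B := B) (m * p)) ∧
    ∀ (l N : ℕ), l ∣ f → ∀ x : OO A B, IsCoprime (sp x) (idl f : Ideal (OO A B)) → x ∉ P →
      (P' ≠ ⊤ → x ∉ P') → IsCoprime x ((f * l ^ N * p : ℕ) : OO A B)

/-- (VPQ) the valuation. PROOF. `t_VPG`, `t_MUG`, `t_VPGI`, `t_MUGI`. `v(q - 1) = 1`: `p ∤ q - 1`. Last clause: `p z = pt R m i (x x0)`-argument of `S_XPCI`, `S_XPC`: if `n z` is in the kernel of reduction, `n = 1, 2, a`, then so is `p (n z)`, which is killed by `m` modulo `L_i` (`m p z = om_i N(b_i) emb (x x0)`, in `L_i`), so it is in `L_i`: `n x x0 ∈ idl m` (`nI (b_i)` is prime to `m`, `LvM.cop`),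
`x` is prime to `m`, `x0 ≡ 1` modulo `m`: `m ∣ n`, but `m ≥ 3` and `a > 1` is prime to `m`. -/
def S_VPQ : Prop :=
  ∀ (p q : ℕ) (A B : ℤ) (P P' : Ideal (OO A B)) (V : ValuationSubring ℂ) (f : ℕ),
    SetQ p q A B P P' V f →
    V.valuation (p : ℂ) < 1 ∧ V.valuation (p : ℂ) ≠ 0 ∧
    (∀ x : OO A B, V.valuation (emb x) ≤ 1 ∧ (V.valuation (emb x) < 1 ↔ x ∈ P)) ∧
    (∀ n : ℤ, ¬ (p : ℤ) ∣ n → V.valuation (n : ℂ) = 1) ∧
    V.valuation (2 : ℂ) = 1 ∧ V.valuation (3 : ℂ) = 1 ∧ V.valuation ((q - 1 : ℕ) : ℂ) = 1 ∧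
    ∀ (ι : Type) (R : Reps A B (p * f) ι), GRd V R → ∀ i, GRn V (R.L i) ∧
      V.valuation (muX R i) = 1 ∧
      (∀ (m : ℕ) (z : ℂ), ¬ p ∣ m → (m : ℂ) * z ∈ (R.L i).lattice → InEn V (R.L i) z →
        z ∈ (R.L i).lattice) ∧
      ∀ m : ℕ, LvM p f m R → ∀ x0 y0 : OO A B, LvQ p P P' m x0 y0 → ∀ x : OO A B,
        IsCoprime x ((m * p : ℕ) : OO A B) →
        (∀ c : OO A B, pt R (m * p) i (x * (x0 + c * m * y0)) =
          pt R (m * p) i (x * x0) + pt R p i (x * c * y0)) ∧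
        ¬ InEn V (R.L i) (pt R (m * p) i (x * x0)) ∧
        ¬ InEn V (R.L i) (2 * pt R (m * p) i (x * x0)) ∧
        ∀ a : ℕ, 1 < a → a.Coprime (2 * m * p) →
          ¬ InEn V (R.L i) (a * pt R (m * p) i (x * x0))

/-- (TEQ) the Teichmüller character. PROOF. Inert: `TeiI`, `t_TEP`. Split: `TeiP`; `w(-1)² = 1`, `v(w(-1) + 1) < 1`, `v 2 = 1`; `v(w x) = 1` (root of unity); power sums: `w` is injective on `T` (`w x = w y` gives `v(emb (x - y)) < 1`, `x - y ∈ P`), with values in the `(q-1)`-th roots of unity, `T.card = q - 1`: `w` maps `T` onto all of them; their power sums are `0` for `0 < j < q - 1` (multiply by a primitive root). -/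
def S_TEQ : Prop :=
  ∀ (p q : ℕ) (A B : ℤ) (P P' : Ideal (OO A B)) (V : ValuationSubring ℂ) (f : ℕ),
    SetQ p q A B P P' V f → ∀ w : OO A B → ℂ, TeQ p q P V w →
    w 1 = 1 ∧ (∀ x y, w (x * y) = w x * w y) ∧ (∀ x y, x - y ∈ P → w x = w y) ∧
    (∀ x, w x = 0 ↔ x ∈ P) ∧ (∀ x, x ∉ P → w x ^ (q - 1) = 1 ∧ V.valuation (w x) = 1) ∧
    w (-1) = -1 ∧ (∀ x, V.valuation (w x) ≤ 1 ∧ V.valuation (w x - emb x) < 1) ∧
    ∀ T, RepI P T → (∀ j, 0 < j → j < q - 1 → ∑ c ∈ T, w c ^ j = 0) ∧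
      ∑ c ∈ T, w c ^ (q - 1) = ((q - 1 : ℕ) : ℂ)

/-- (THQ) the values `th = thQ R kp eta ψ w e b`, `M = f l^N p`.

USES IDQ, TEQ. PROOF. (1) `eta` modulo `f`, `nm x` modulo `l^N` (`nm x - nm y` is an integer in `(l^N)`: `x star x`), `w` modulo `P`, `w ∘ star` modulo `star P = P'` (split; inert: `b = 0`). (2) `eta (-x) = eta (-1) eta x`, `w(-1) = -1`, `ChQ.neg`, `nm (-x) = nm x`, `star (-x) = - star x`. (3) IDQ (last clause): `x` not prime to `f`: `eta x = 0`; `x ∈ P`: `w x = 0`; split, `x ∈ P' = cjI P`: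
`w (star x) = 0`, `b ≥ 1` (`0^b = 0`). (4) `kp i ^ r = eta x ^ r = 1`, `p ∤ r`; `ψ(..)^((l-1) l^N) = 1` (the argument is a unit: `nm x` is prime to `l` as `x` is prime to `l`; `nI (b i)` is prime to `f` (`R.cop`)), `p ∤ l` (`l ∣ f`), `p ∤ l - 1`; `w^(q-1) = 1` (`x`, and `star x` in the split case, not in `P`), `q - 1 ≡ -1` modulo `p`. (`r ≠ 0` as `p ∤ r`.)
(5) `eta (x a) = eta x`, `nm a ≡ 1` modulo `f l^N` (`a star a`), `w (star a) = 1` in the split case: `star a - 1 ∈ star (cjI P) = P`; `w (x a)^(e-1)`. (6) `nI (b i0) = nI ⊤ = 1`, `kp0`; everything is multiplicative. -/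
def S_THQ : Prop :=
  ∀ (p q : ℕ) (A B : ℤ) (P P' : Ideal (OO A B)) (V : ValuationSubring ℂ) (f : ℕ),
    SetQ p q A B P P' V f → ∀ (ι : Type) (R : Reps A B (p * f) ι) (w : OO A B → ℂ),
    TeQ p q P V w → ∀ (kp : ι → ℂ) (eta : OO A B → ℂ) (e b : ℕ),
    ChQ p q f P P' R kp eta e b →
    ∀ (l N : ℕ), l.Prime → l ∣ f → ∀ ψ : DirichletCharacter ℂ (l ^ N),
    (∀ i x y, x - y ∈ idl (A := A) (B := B) (f * l ^ N * p) →
      thQ R kp eta ψ w e b i x = thQ R kp eta ψ w e b i y) ∧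
    (∀ i x, thQ R kp eta ψ w e b i (-x) = thQ R kp eta ψ w e b i x) ∧
    (∀ i x, ¬ IsCoprime x ((f * l ^ N * p : ℕ) : OO A B) →
      thQ R kp eta ψ w e b i x * w x = 0) ∧
    (¬ p ∣ l - 1 → ∃ s : ℕ, ¬ p ∣ s ∧ ∀ i x, IsCoprime x ((f * l ^ N * p : ℕ) : OO A B) →
      thQ R kp eta ψ w e b i x ^ s = 1) ∧
    (∀ i x a, a - 1 ∈ (idl (f * l ^ N) : Ideal (OO A B)) * P' →
      thQ R kp eta ψ w e b i (x * a) = thQ R kp eta ψ w e b i x * w a ^ (e - 1)) ∧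
    ∀ i x a, thQ R kp eta ψ w e b i (a * x) =
      thQ R kp eta ψ w e b R.i0 a * thQ R kp eta ψ w e b i x

/-! ## 2. The field `F` over `F0 = RF (idl m * P')` -/

/-- (KINS) split `p`: an endomorphism which is a unit at `V` is injective on the kernel of reduction.

USES (theorems) `t_PIS`, `t_KEP` (its proof contains `v(mu') = 1`, see there), `t_IDP`, `q_ISQ`, `q_CYQ`, `q_AEL`, `x_MLT`, `x_INJ` (`Pool/Agent/MUX/RQ0.lean`). PROOF. `L = L_i`, `x ∉ P`, `emb x z ∈ L`, `z` in the kernel of reduction `K₁`, `z ∉ L`. `n = nm x ≠ 0`, `n z ∈ L`. `n = p^k n'`, `p ∤ n'`: `z' = n' z ∉ L` (`mem_of_nat_mul`), so some `u = p^j z'` has `u ∉ L`, `p u ∈ L`,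
`u ∈ K₁`, `emb x u ∈ L`. For `y ∈ cjI P`: `emb y u ∈ L`: `x` is invertible modulo `P`: `x b - 1 ∈ P`, `y = y x b - y (x b - 1)`, `y (x b - 1) ∈ cjI P * P = (p)`. So `u` is in the kernel of the isogeny `L → L_j` belonging to `cjI P` (`R.surj` as in `t_PIS`: `IsQr (cjI P) L (R.L j) mu`), of degree `p` (`q_ISQ`: `IsoV`), with `v(mu) = 1`: (AEL) for `Q = cjI P` gives `a ∈ Q`, `c`,
`v(emb a) = 1` (as in the proof of `t_KEP`), (MLT). `x_INJ`: `u ∈ L`. -/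
def S_KINS : Prop :=
  ∀ (p : ℕ) (A B : ℤ) (P : Ideal (OO A B)) (V : ValuationSubring ℂ) (f : ℕ), SetG p A B P V f →
    ∀ (ι : Type) (R : Reps A B (p * f) ι), GRd V R → ∀ (i : ι) (x : OO A B), x ∉ P →
    ∀ z : ℂ, emb x * z ∈ (R.L i).lattice → InEn V (R.L i) z → z ∈ (R.L i).lattice

/-- (UNRQ) `F0 / k` is unramified at `V`.

USES KINS, IDQ. PROOF. Inert: `idl m * ⊤ = idl m`, `t_UNRGI` (its hypotheses are theorems). Split: choose `y1 ∈ cjI P`, `y1 ∉ P`, `α = m y1 ∉ P`, `α ≠ 0`: `sp α ≤ idl m * cjI P`, so `RF (idl m * cjI P) ≤ RF (sp α)` (`Tor` is antitone). `t_UNRG` (`Pool/Agent/TWT/UNRG.lean`) for `sp α` in place of `idl m` word for word; the only input is `hK`: `E[α]` meets the kernel of reduction trivially: KINS. -/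
def S_UNRQ : Prop :=
  ∀ (p q : ℕ) (A B : ℤ) (P P' : Ideal (OO A B)) (V : ValuationSubring ℂ) (f : ℕ),
    SetQ p q A B P P' V f → TorX A B → ∀ (ι : Type) [Finite ι] (R : Reps A B (p * f) ι),
    GRd V R → ∀ m : ℕ, m ≠ 0 → ¬ p ∣ m →
    ∀ y ∈ (RF ((idl m : Ideal (OO A B)) * P') : IntermediateField (kk A B) ℂ), y ≠ 0 →
      ∃ k : ℤ, V.valuation y = V.valuation (p : ℂ) ^ k

/-- (GFQ) `Gal(F/F0) = {γ_c}`.

USES IDQ. PROOF. `I = idl m * P'`. (1) `I ≥ idl (m p)`: `RF` is monotone. (2) `γ_c` extends to `s ∈ Aut(ℂ/k)` (`HitF`), which acts as the ideal `sp a_c` on level `M` (`Si_HIT`: `IA s (idl M) (sp a_c * cjI (b i0))`, `b0`): for every normalised `L`: `ActI s (idl M) (sp a_c) L L' mu`, and (as in `Sy_KER`, W_KER.lean; or in `t_NRR`, `t_NRRI`, where the clause on `RF (idl m)` is the same) `L' = L`, `mu = ± emb a_c`: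
`s (xn L z) = xn L (a_c z) = xn L z` for `z ∈ E[I]` (`(a_c - 1) z ∈ L`), `s (kap L) = kap L`. These generate `F0`. (3) `xn L_0 (pt R M i0 x0) ∈ F0`: `pt R M i0 x0 ∈ E[I]` (`I x0 ⊆ (M)`, IDQ), not in `L_0` (IDQ: `x0 ∈ (M)` would give `1 ∈ I`, `m ≥ 3`; `VPQ` is not needed). (4) `σ` trivial on `F0`; `HitF σ i x` (HTF (1)). `kap L_i = kap L_0` (`∈ RF ⊤ ≤ F0`): `i = i0` (`Sy_HIT`: `kap (R.L i)` determines `i`).
`σ (xn L_0 (pt R M i0 x0)) = xn L_0 (pt R M i0 (x x0))` (as in HTF (5) for `xn`: `s` acts as `sp x`, `mu = ± emb x`), `= xn L_0 (pt R M i0 x0)`: `(x ± 1) x0 ∈ idl M` (`b_NEQ`/`xn` is injective up to sign), `x ± 1 ∈ I` (IDQ). Replace `x` by `- x` (`HTF` (3)): `x - 1 ∈ I`, so `x ≡ a_c` modulo `M` (IDQ), `HitF σ i0 a_c` (HTF (3)), `σ = γ_c` (HTF (4)). -/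
def S_GFQ : Prop :=
  ∀ (p q : ℕ) (A B : ℤ) (P P' : Ideal (OO A B)) (V : ValuationSubring ℂ) (f : ℕ),
    SetQ p q A B P P' V f → TorX A B → ∀ (ι : Type) [Finite ι] (R : Reps A B (p * f) ι)
    (m : ℕ), LvM p f m R → ∀ (x0 y0 : OO A B), LvQ p P P' m x0 y0 →
    ∀ T : Finset (OO A B), RepI P T → ∀ γ : OO A B → GalF A B (m * p),
    (∀ c ∈ T, HitF R (m * p) _ (γ c) R.i0 (x0 + c * m * y0)) →
    (RF ((idl m : Ideal (OO A B)) * P') : IntermediateField (kk A B) ℂ) ≤ RF (idl (m * p)) ∧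
    (∀ c ∈ T, ∀ y : (RF (idl (m * p)) : IntermediateField (kk A B) ℂ),
      (y : ℂ) ∈ (RF ((idl m : Ideal (OO A B)) * P') : IntermediateField (kk A B) ℂ) →
      γ c y = y) ∧
    xn (R.L R.i0) (pt R (m * p) R.i0 x0) ∈
      (RF ((idl m : Ideal (OO A B)) * P') : IntermediateField (kk A B) ℂ) ∧
    ∀ σ : GalF A B (m * p), (∀ y : (RF (idl (m * p)) : IntermediateField (kk A B) ℂ),
      (y : ℂ) ∈ (RF ((idl m : Ideal (OO A B)) * P') : IntermediateField (kk A B) ℂ) →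
      σ y = y) → ∃ c ∈ T, σ = γ c

/-! ## 3. Local expansions -/

/-- (LOQI) inert `p`.

USES (theorems, `TWI/AAll.lean`) `i_GRI`, `i_EXP`, `a_LGI`, `a_TYI`, `a_KRI`, `a_ROT`, `a_VPA`, `i_PTI`, `t_TEP`. PROOF. For every `i`: GRI: `a2, a4`; EXP: `Λ`; LGI, TYI (`n = p²`): `HasTyI V L_i (p²) a2 a4 lam_i`. `t0 := vpi lam_0 (p²) (tX_0 (pt R p i0 y0))`. (KRI): all points `pt R p i x`, `x ∉ P`, are in the kernel of reduction, `v(tX)^(p²-1) = v p`; so all `v(tX)` are equal (powers in an ordered group with zero: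
`pow_left_injective`-type), `v(t0) = v(tX_0 (pt y0))` (`lam 0 = 0`, `lam 1 = 1`). (ROT) for `x y0` and `y0`: `ϖ_i(pt (x y0)) ≡ w(x) w(y0) ϖ_i(pt 1) ≡ w(x) ϖ_i(pt y0)` modulo `τ^q`. (VPA) for `L_0 → L_i`, `mu_i`: `IsgN` with `n = nI (b_i)`: GRI, `3 ∤ nI (b_i)` since `3 ∣ f` and `R.cop`; `mu_i pt R p i0 y0 = pt R p i y0` (PTI): `ϖ_i(pt R p i y0) ≡ mu_i t0`. -/
def S_LOQI : Prop :=
  ∀ (p : ℕ) (A B : ℤ) (P : Ideal (OO A B)) (V : ValuationSubring ℂ) (f : ℕ), SetI p A B P V f →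
    3 ∣ f → ∀ (ι : Type) (R : Reps A B (p * f) ι), GRd V R → ∀ y0 : OO A B, y0 ∉ P →
    ∃ t0 : ℂ, ∀ w, TeiI p P V w → LocQ p (p ^ 2) P V R y0 w t0

/-- (LOQS) split `p`.

USES (theorems) `t_PIS`, `t_PTA`, `t_KEP`, `t_TAY`, `t_ADV`, `t_IDP`, `a_VPA`. MODEL: `t_KEYA`, `t_KEY` (`Pool/Agent/TWT/KEYA.lean`, `KEY.lean`). PROOF. PIS: `GR`; `a2, a4` = the coefficients (`GRa`). TAY: `HasTay V L_i .. p a2 a4 lam`; `dint`: `aeval ![x, y] ((dW a2 a4)^[k] f) ∈ V`, `v(k!) = 1` for `k < p`: `HasTyI V L_i p a2 a4 lam_i`. `t0 := vpi lam_0 p (tX_0 (pt R p i0 y0))`. PTA, KEP: `pt R p i (x y0)`,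
`x ∉ P` (`x y0 ∈ cjI P`, `∉ P`), is in the kernel of reduction, `v(tX)^(p-1) = v p`; all `v(tX)` are equal. Let `c` be an integer, `1 ≤ c < p`, `x - c ∈ P` (IDP): `(x - c) y0 ∈ P * cjI P = (p)`: `pt R p i (x y0) ≡ c pt R p i y0` modulo `L_i` (`tX` is periodic); (ADV): `ϖ_i(c S) ≡ c ϖ_i(S)` modulo `τ^p`; `v(w(x) - c) = v(w(c) - c) ≤ v p = τ^(p-1)` (`TeiP.int`): `ϖ_i(pt (x y0)) ≡ w(x) ϖ_i(pt y0)`.
(VPA) (it is a general statement, `q := p`) for `L_0 → L_i`, `mu_i`, `IsgN` from PIS and `3 ∣ f`: `ϖ_i(pt R p i y0) ≡ mu_i t0` modulo `τ^p`. -/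
def S_LOQS : Prop :=
  ∀ (p : ℕ) (A B : ℤ) (P : Ideal (OO A B)) (V : ValuationSubring ℂ) (f : ℕ), SetG p A B P V f →
    3 ∣ f → ∀ (ι : Type) (R : Reps A B (p * f) ι), GRd V R → ∀ y0 : OO A B, y0 ∈ cjI P →
    y0 ∉ P → ∃ t0 : ℂ, ∀ w, TeiP p P V w → LocQ p p P V R y0 w t0

/-- (KEYQ) `x` and `Θ` at the points `pt R M i (x a_c)`.

USES IDQ, VPQ, TEQ; helper3's `exq_x`, `exq_theta` (`EXQ.lean`, `n = q - 1`), `q_YUN`. PROOF. `z = pt R M i (x x0)`, `S_c = pt R p i (x c y0)`, `ζ = w`, `w0 = mu_i w(x) t0`, `v w0 = v t0` (VPQ, TEQ; `DPr V w0` and `DPr V t0` are the same, the definition only uses `v t0`): LocQ for `x c ∉ P`: `v(vpi - w(c) w0) ≤ τ^q ≤ τ^(q-1)`. `InEn V L z` is `InK V L (xn L) z` (definitions). `exq_x` and `DPr.add` with a constant (`v(xn z) ≤ 1`);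
`v(xn (z + S_c) - xn z) = v(tX S_c) = τ` (`q_YUN`: `2 z` is not in the kernel of reduction). `exq_theta`: `v a = 1` (`a` prime to `p`), `IsHalf`. -/
def S_KEYQ : Prop :=
  ∀ (p q : ℕ) (A B : ℤ) (P P' : Ideal (OO A B)) (V : ValuationSubring ℂ) (f : ℕ),
    SetQ p q A B P P' V f → ∀ (ι : Type) (R : Reps A B (p * f) ι), GRd V R → ∀ (m : ℕ),
    LvM p f m R → ∀ (x0 y0 : OO A B), LvQ p P P' m x0 y0 → ∀ w : OO A B → ℂ, TeQ p q P V w →
    ∀ t0 : ℂ, LocQ p q P V R y0 w t0 → ∀ T : Finset (OO A B), RepI P T →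
    ∀ (i : ι) (x : OO A B), IsCoprime x ((m * p : ℕ) : OO A B) →
    (∃ g, DPr V t0 (q - 1) (OO A B) T w (fun c => xn (R.L i) (pt R (m * p) i
      (x * (x0 + c * m * y0))) - xn (R.L i) (pt R (m * p) i (x * x0))) g) ∧
    (∀ c ∈ T, V.valuation (xn (R.L i) (pt R (m * p) i (x * (x0 + c * m * y0))) -
      xn (R.L i) (pt R (m * p) i (x * x0))) = V.valuation t0) ∧
    ∀ (a : ℕ) (H : Finset ℂ), 1 < a → a.Coprime (2 * m * p) → IsHalf (R.L i) a H →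
      (∀ c ∈ T, V.valuation (ThetaH (R.L i) H (pt R (m * p) i (x * (x0 + c * m * y0)))) = 1 ∧
        V.valuation (dlX (R.L i) a (pt R (m * p) i (x * (x0 + c * m * y0)))) ≤ 1) ∧
      DPr V t0 (q - 1) (OO A B) T w
        (fun c => ThetaH (R.L i) H (pt R (m * p) i (x * (x0 + c * m * y0))))
        (fun c => ThetaH (R.L i) H (pt R (m * p) i (x * (x0 + c * m * y0))) *
          (w c * (muX R i * w x * t0) *
            dlX (R.L i) a (pt R (m * p) i (x * (x0 + c * m * y0)))))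

/-- (FIQ) every `y ∈ F`, integral at `V`, gives a `D`-pair.

USES IDQ, VPQ, TEQ, UNRQ, GFQ, KEYQ; `bas`, `DPr.poly` (`DPR.lean`). PROOF. `X₁ = xn L_0 (pt R M i0 1) ∈ F`, `X₀ = xn L_0 (pt R M i0 x0) ∈ F0` (GFQ), `Π = X₁ - X₀`. `γ_c X₁ = xn L_0 (pt R M i0 a_c)` (`HitF`, `Hits`). KEYQ for `i0`, `x = 1`: `c ↦ γ_c Π` is part of a `D`-pair and `v(γ_c Π) = τ`. `v(Π) = τ`: `1 ≡ a_c` modulo `M` for some `c ∈ T` (IDQ for `x = 1`), so `pt R M i0 1 ≡ pt R M i0 a_c` modulo `L_0` (`xn` is periodic).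
`bas` with `E = F0`, `W = F` as a subspace over `F0` (GFQ (1)), `Π^j ∈ F`, `v(Π)^(q-1) = v p < 1`, UNRQ; `finrank_(F0) F ≤ q - 1`: `F/k` is finite Galois (`TorX.fin`, `gal`), so `F/F0` is, and its group has at most `T.card = q - 1` elements (GFQ (4)) (`IsGalois.card_aut_eq_finrank`; or `IntermediateField.fixingSubgroup`). So `y = Σ_(j<N) b_j Π^j`, `v(b_j) ≤ 1`, `γ_c y = Σ b_j (γ_c Π)^j` (GFQ (2)): `DPr.poly`,
`DDat` from TEQ, IDQ (`T.card`), VPQ (`v(q-1) = 1`). -/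
def S_FIQ : Prop :=
  ∀ (p q : ℕ) (A B : ℤ) (P P' : Ideal (OO A B)) (V : ValuationSubring ℂ) (f : ℕ),
    SetQ p q A B P P' V f → TorX A B → ∀ (ι : Type) [Finite ι] (R : Reps A B (p * f) ι),
    GRd V R → ∀ (m : ℕ), LvM p f m R → ∀ (x0 y0 : OO A B), LvQ p P P' m x0 y0 →
    ∀ w : OO A B → ℂ, TeQ p q P V w → ∀ t0 : ℂ, LocQ p q P V R y0 w t0 →
    ∀ T : Finset (OO A B), RepI P T → ∀ γ : OO A B → GalF A B (m * p),
    (∀ c ∈ T, HitF R (m * p) _ (γ c) R.i0 (x0 + c * m * y0)) →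
    ∀ y : (RF (idl (m * p)) : IntermediateField (kk A B) ℂ), V.valuation (y : ℂ) ≤ 1 →
    ∃ g, DPr V t0 (q - 1) (OO A B) T w (fun c =>
      ((γ c y : (RF (idl (m * p)) : IntermediateField (kk A B) ℂ)) : ℂ)) g

/-- (DLQ) the logarithmic derivative of the conjugates of `θ`.

USES IDQ, KEYQ (and `t_HTF`). PROOF. `γ_c θ = Θ(L_0; pt R M i0 a_c)` (HTF (5) for `γ_c` and `x' = 1`), `σ(γ_c θ) = Θ(L_i; pt R M i (x a_c))` (HTF (5) for `σ`, `x' = a_c ∉ idl M`; `H'` a half system for `a` on `L_i`: `b_HAL`, `a` is odd (prime to `2 m p`)), and `γ_c (σ θ) = σ (γ_c θ)` (`TorX.comm`). KEYQ. -/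
def S_DLQ : Prop :=
  ∀ (p q : ℕ) (A B : ℤ) (P P' : Ideal (OO A B)) (V : ValuationSubring ℂ) (f : ℕ),
    SetQ p q A B P P' V f → TorX A B → ∀ (ι : Type) [Finite ι] (R : Reps A B (p * f) ι),
    GRd V R → ∀ (m : ℕ), LvM p f m R → ∀ (x0 y0 : OO A B), LvQ p P P' m x0 y0 →
    ∀ w : OO A B → ℂ, TeQ p q P V w → ∀ t0 : ℂ, LocQ p q P V R y0 w t0 →
    ∀ T : Finset (OO A B), RepI P T → ∀ γ : OO A B → GalF A B (m * p),
    (∀ c ∈ T, HitF R (m * p) _ (γ c) R.i0 (x0 + c * m * y0)) →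
    ∀ (a : ℕ) (H : Finset ℂ), 1 < a → a.Coprime (2 * m * p) → IsHalf (R.L R.i0) a H →
    ∀ θ : (RF (idl (m * p)) : IntermediateField (kk A B) ℂ),
    (θ : ℂ) = ThetaH (R.L R.i0) H (pt R (m * p) R.i0 1) →
    ∀ (σ : GalF A B (m * p)) (i : ι) (x : OO A B), HitF R (m * p) _ σ i x →
    (∀ c ∈ T, V.valuation ((γ c (σ θ) : (RF (idl (m * p)) : IntermediateField (kk A B) ℂ)) :
        ℂ) = 1 ∧
      V.valuation (dlX (R.L i) a (pt R (m * p) i (x * (x0 + c * m * y0)))) ≤ 1) ∧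
    DPr V t0 (q - 1) (OO A B) T w
      (fun c => ((γ c (σ θ) : (RF (idl (m * p)) : IntermediateField (kk A B) ℂ)) : ℂ))
      (fun c => ((γ c (σ θ) : (RF (idl (m * p)) : IntermediateField (kk A B) ℂ)) : ℂ) *
        (w c * (muX R i * w x * t0) * dlX (R.L i) a (pt R (m * p) i (x * (x0 + c * m * y0)))))

/-! ## 4. Functionals and sums -/

/-- (RSQ) from the functionals on the residue field to the Teichmüller lifts, modulo `ρ ≥ v(p)`.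

PROOF. `A₀ = Algebra.adjoin ℤ {c σ} ⊆ V`. (KEY) `x ∈ A₀`, `v x < 1` gives `v x ≤ v p`: let `h = φ(s) ≥ 1`, `s ∣ p^h - 1` (`Nat.ModEq.pow_totient`); `x^(p^h) ≡ x` modulo `p A₀`: on `A₀/p A₀` (characteristic `p` or zero) `y ↦ y^(p^h)` is a ring homomorphism (`iterateFrobenius`) and fixes the generators (`c^(p^h) = c`), so it is the identity (`Algebra.adjoin` induction). So `x^(p^h) = x + p r`,
`v(r) ≤ 1`; if `v x > v p` then `v x = v(x)^(p^h) < v x` (`0 < v x < 1`, `p^h ≥ 2`), a contradiction. (2) `Fr` = the residue field, of characteristic `p`; `U` = the `𝔽_p`-span of the residues of the `c σ`, finite dimensional; a basis of `U` among the residues of the `c σ` (`exists_linearIndependent`-type) `e_j = c(σ_j)`, and additive maps `t_j : Fr → ZMod p` extending the coordinates (as in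
`t_RSF`, `Pool/Agent/TWT/RSF.lean`). `d_σ = c σ - Σ_j (t_j (c σ)).val e_j ∈ A₀` has residue `0`: `v(d_σ) ≤ v p ≤ ρ`. `Σ_σ c_σ b_σ = Σ_σ d_σ b_σ + Σ_j e_j Σ_σ (t_j (c σ)).val b_σ`. -/
def S_RSQ : Prop :=
  ∀ (V : ValuationSubring ℂ) (p : ℕ) [Fact p.Prime], V.valuation (p : ℂ) < 1 →
    V.valuation (p : ℂ) ≠ 0 → ∀ (S : Type) [Fintype S] (c b : S → ℂ) (s : ℕ), ¬ p ∣ s →
    (∀ σ, c σ ^ s = 1) → (∀ σ, V.valuation (b σ) ≤ 1) → ∀ r : ℂ,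
    V.valuation (p : ℂ) ≤ V.valuation r →
    (∀ t : (IsLocalRing.ResidueField V) →+ ZMod p,
      V.valuation (∑ σ, ((t (rsd V (c σ))).val : ℂ) * b σ) ≤ V.valuation r) →
    V.valuation (∑ σ, c σ * b σ) ≤ V.valuation r

/-- (SDQ) from `dlX` to `ee` (model: `TWI/SDEI.lean`, `TWT/SDE.lean`).

USES IDQ, VPQ, TEQ, THQ. PROOF. `M = f l^N p`, `F i x = th i x w x`, periodic modulo `M` (THQ (1)), `F i (a x) = th₀(a) w(a) F i x` (THQ (6)), `a pt R M i x = pt R M i (a x)`; `x ↦ a x` permutes `O/M`. So `SDTI = (a (th₀(a) w(a))⁻¹ - a²) SSTI`, and the factor is a unit: `v(th₀(a)) = 1` (THQ (4)),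
`v(a/w(a) - 1) < 1`, `v(1 - a² th₀(a)) = 1`. -/
def S_SDQ : Prop :=
  ∀ (p q : ℕ) (A B : ℤ) (P P' : Ideal (OO A B)) (V : ValuationSubring ℂ) (f : ℕ),
    SetQ p q A B P P' V f → ∀ (ι : Type) [Fintype ι] (R : Reps A B (p * f) ι)
    (w : OO A B → ℂ), TeQ p q P V w → ∀ (kp : ι → ℂ) (eta : OO A B → ℂ) (e b : ℕ),
    ChQ p q f P P' R kp eta e b → ∀ (l N : ℕ), l.Prime → ¬ p ∣ l - 1 → l ∣ f →
    ∀ ψ : DirichletCharacter ℂ (l ^ N), ∀ (a : ℕ), 1 < a → a.Coprime (6 * f * p) →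
    V.valuation (1 - (a : ℂ) ^ 2 * thQ R kp eta ψ w e b R.i0 a) = 1 →
    V.valuation (SDTI R (f * l ^ N * p) a (thQ R kp eta ψ w e b) w) =
      V.valuation (SSTI R (f * l ^ N * p) (thQ R kp eta ψ w e b) w)

/-- (SIGQ) the sum over `Gal(F/k)` in terms of `SDTI` (model: `TWI/SIGI.lean`).

USES IDQ, TEQ, THQ (and `t_CNTI`). PROOF. `M = f l^N p`, `G i x = th i x w x mu_i dlX (L_i) a (pt R M i x)`: periodic modulo `M` (`Si_PTP`: `pt R M i x` modulo `L_i`), even (THQ (2); `w(-1) = -1`, `dlX` odd), `0` if `x` is not prime to `M` (THQ (3)). `a_c` is prime to `M` (IDQ): `2 Σ_σ G (I σ) (X σ a_c) = Σ_i sumMod M (G i) = SDTI` (CNTI; `R.cop`, `l ∣ f`: `nI (b i)` is prime to `M`; `M ≥ 3`), and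
`th i (x a_c) = th i x w(a_c)^(e-1)` (THQ (5), IDQ). -/
def S_SIGQ : Prop :=
  ∀ (p q : ℕ) (A B : ℤ) (P P' : Ideal (OO A B)) (V : ValuationSubring ℂ) (f : ℕ),
    SetQ p q A B P P' V f → TorX A B → ∀ (ι : Type) [Fintype ι] (R : Reps A B (p * f) ι)
    (w : OO A B → ℂ), TeQ p q P V w → ∀ (kp : ι → ℂ) (eta : OO A B → ℂ) (e b : ℕ),
    ChQ p q f P P' R kp eta e b → ∀ (l N : ℕ), l.Prime → l ∣ f →
    ∀ ψ : DirichletCharacter ℂ (l ^ N), ∀ (x0 y0 : OO A B), LvQ p P P' (f * l ^ N) x0 y0 →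
    ∀ c : OO A B, c ∉ P → ∀ (a : ℕ), 1 < a → a.Coprime (6 * f * p) →
    ∀ [Fintype (GalF A B (f * l ^ N * p))] (I : GalF A B (f * l ^ N * p) → ι)
      (X : GalF A B (f * l ^ N * p) → OO A B),
    (∀ σ, HitF R (f * l ^ N * p) _ σ (I σ) (X σ)) →
    2 * (w (x0 + c * (f * l ^ N : ℕ) * y0) ^ (e - 1) * ∑ σ : GalF A B (f * l ^ N * p),
      thQ R kp eta ψ w e b (I σ) (X σ) * (muX R (I σ) *
        w (X σ * (x0 + c * (f * l ^ N : ℕ) * y0)) * dlX (R.L (I σ)) a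
          (pt R (f * l ^ N * p) (I σ) (X σ * (x0 + c * (f * l ^ N : ℕ) * y0))))) =
      SDTI R (f * l ^ N * p) a (thQ R kp eta ψ w e b) w

end

end Pool.Agent.TWQ
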