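import Pool.Agent.TWQ.StQ1
import Pool.Agent.TWB.St

/-!
# TWQ, block C': the sums `SSTI` of ALL characters of large level are large (helper19)

RESULT: `theorem t_SYMQ : S_SYMQ` (`DefsQ.lean`). The order of the ramification is `e`, `1 ≤ e ≤ q - 1`; `N = q - 1`, `m = f l^n`, `M = m p`. `J` is finite: one character at a time. Four cases.

(A) inert, `e < q - 1`: symbol `PhI R kp eta W`, `W = w^e`; rigidity for `tau^e Φ` (`tau^(q-1) = p`), TYPQ. `S_SYIA`.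
(B) split, `e < p - 1`: symbol of `E(x) = eta(x) w(star x)^(b+p-1-e)`, twist by the character `wD^e` modulo `p`, of parity `(-1)^e` (TBQ), `v(g(wD^e))^(p-1) ≤ v(p)^e` (STKQ). `S_SYSA`.
(C) `e = q - 1`: `th i x w(x) = thP i x` for `x ∉ P`, `0` for `x ∈ P`: the sum is `SAll - SPt`, `SAll` = the sum of `thP` over all `x`, `SPt` = the part `x ∈ P`. `v(SAll) < 1`: the logarithmic derivatives are integral, and `dlX(z + r) ≡ dlX(z)` for the `q` points `r` of `E[P]`, which are in the kernel of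
reduction (NEAQ, DLCQ, SALQ). `v(SPt) ≥ 1`: inert: it is `th(p)` times the sum of level `f l^n`, symbol `QI` of the odd character `eta` modulo `f` (`S_SPI`); split: it is a unit times `Σ ψ⁻¹(b) (U_p Φ)(∞, b/l^n)`, and `U_p^(h-1) (U_p Φ) = a Φ` (`S_SPS`).

Modules: `theorem t_X : S_X` (or `theorem t_X (h : S_Y) .. : S_X` with the statements named under USES, fewer is fine) in `Pool/Agent/TWQ/X.lean`, namespace `Pool.Agent.TWQ`, auxiliary lemmas in `Pool.Agent.TWQ.X`.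
OPEN: TYPQ, STKQ, NEAQ, DLCQ, SALQ. All others: helper19.
-/

set_option autoImplicit false

open WeierstrassCurve Polynomial NumberField IsDedekindDomain

namespace Pool.Agent.TWQ

open _root_.MU3 Pool.Agent.MU3A Pool.Agent.MU3B Pool.Agent.MU3C Pool.Agent.RI Pool.Agent.RID
open Pool.Agent.MUX Pool.Agent.MUXU Pool.Agent.MUXW Pool.Agent.TWT Pool.Agent.TWI
open Pool.Agent.MU3V (cls Sub GD algDF)
open Pool.Agent.MUXV (GR InK tX)
open Pool.Agent.MUXI (IA RE AR)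
open OnePoint

noncomputable section

/-! ## Definitions -/

variable {A B : ℤ} {n : ℕ} {ι : Type}

/-- `Σ_i mu_i Σ_(x mod m) E i x ee(pt R m i x)` -/
def SAll [Fintype ι] (R : Reps A B n ι) (m : ℕ) (E : ι → OO A B → ℂ) : ℂ :=
  ∑ i, muX R i * sumMod ((m : ℕ) : OO A B) fun x => E i x * ee (R.L i) (pt R m i x)

/-- the same with the logarithmic derivative of `Θ_a` -/
def DAll [Fintype ι] (R : Reps A B n ι) (m a : ℕ) (E : ι → OO A B → ℂ) : ℂ :=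
  ∑ i, muX R i * sumMod ((m : ℕ) : OO A B) fun x => E i x * dlX (R.L i) a (pt R m i x)

/-- the character without its part at `P` -/
def thP (R : Reps A B n ι) (kp : ι → ℂ) (eta : OO A B → ℂ) {r : ℕ} (ψ : DirichletCharacter ℂ r)
    (w : OO A B → ℂ) (b : ℕ) (i : ι) (x : OO A B) : ℂ :=
  thT R kp eta ψ i x * w (star x) ^ b

/-- the part `x ∈ P` of `SAll` (`w x ^ N` is `0` on `P` and `1` outside) -/
def SPt [Fintype ι] (R : Reps A B n ι) (m N : ℕ) (E : ι → OO A B → ℂ) (w : OO A B → ℂ) : ℂ :=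
  ∑ i, muX R i * sumMod ((m : ℕ) : OO A B) fun x =>
    E i x * (1 - w x ^ N) * ee (R.L i) (pt R m i x)

/-! ## 1. Case (A) -/

/-- (TYPQ) the type of the symbol of `eta w^e`, `p` inert.

USES `Pool.Agent.TWI.YAll`-facts: the hypotheses of `t_TYPI` (`Pool/Agent/TWI/TYPI.lean`) `S_YUNF, S_YINE, S_YALT, S_YALV, S_YACI, S_YSGN, S_YVAK, S_YTAU`; they are all theorems (`Pool/Agent/TWI/TYAll.lean`), so prove `theorem t_TYPQ : S_TYPQ`. MODEL: `t_TYPI`, copy it. CHANGES. `W x = w x ^ e`; `epI eta W` is an odd character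
modulo `(p f)`: copy `Syi.ei` (`Pool/Agent/TWI/SYI.lean`) (`W x ≠ 0` iff `w x ≠ 0` as `e ≥ 1`; `W` has period `P`; `eta(-1) W(-1) = (-1)^(e-1) (-1)^e = -1`, `Syi.w_neg`). `σ` fixes the values of `w`, so those of `W`. `e(c) = eta(c) W(c) = w(c)^e`, `σ tau = w(c) tau`, so `σ(y0 tau^e) = y0 tau^e`: `g = y0 tau^e` is in the inertia field.
If `1 ≤ v(y0)` and `v(g) < 1`: `v(tau)^e ≤ v(g) ≤ v(p) = v(tau)^(q-1) < v(tau)^e` (`e < q - 1`, `0 < v(tau) < 1`), a contradiction. So `1 ≤ v(g)`, `1 ≤ v(g)^(q-1) = v(p)^e v(y0)^(q-1)`. -/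
def S_TYPQ : Prop :=
  ∀ (p : ℕ) (A B : ℤ) (P : Ideal (OO A B)) (V : ValuationSubring ℂ) (f : ℕ),
    SetI p A B P V f → TorX A B → ∀ (ι : Type) [Fintype ι] (R : Reps A B (p * f) ι), GRd V R →
    ∀ (w : OO A B → ℂ), TeiI p P V w → ∀ (kp : ι → ℂ) (eta : OO A B → ℂ) (e : ℕ),
    ChQ p (p ^ 2) f P ⊤ R kp eta e 0 → e < p ^ 2 - 1 →
    ∀ x y : OnePoint ℚ, 1 ≤ V.valuation (sgnPart 1 (PhI R kp eta (fun z => w z ^ e)) x y) →
      1 ≤ V.valuation (p : ℂ) ^ e *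
        V.valuation (sgnPart 1 (PhI R kp eta (fun z => w z ^ e)) x y) ^ (p ^ 2 - 1)

open Pool.Agent.TWR in
/-- (SYIA) case (A). USES TYPQ (helper19). -/
def S_SYIA : Prop :=
  ∀ (l g h : ℕ), Gen l g h → ∀ (p : ℕ) (A B : ℤ) (P : Ideal (OO A B)) (V : ValuationSubring ℂ)
    (f : ℕ), SetI p A B P V f → l ∣ f → TorX A B → ∀ (ι : Type) [Fintype ι]
    (R : Reps A B (p * f) ι), GRd V R → ∀ (w : OO A B → ℂ), TeiI p P V w →
    ∀ (kp : ι → ℂ) (eta : OO A B → ℂ) (e : ℕ), ChQ p (p ^ 2) f P ⊤ R kp eta e 0 →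
    e < p ^ 2 - 1 → ∃ n0 : ℕ, ∀ n : ℕ, n0 ≤ n →
      ∀ ψ : DirichletCharacter ℂ (l ^ n), ψ (-1) = 1 →
      ψ (1 + (l : ZMod (l ^ n)) ^ (n - 1)) ≠ 1 →
      V.valuation (p : ℂ) ^ (p ^ 2 - 1 - e) ≤
        V.valuation (SSTI R (f * l ^ n * p) (thQ R kp eta ψ w e 0) w) ^ (p ^ 2 - 1)

/-! ## 2. Case (B) -/

/-- (STKQ) Stickelberger's bound for the Gauss sum of `w⁻ᵉ`, `1 ≤ e ≤ p - 2`.

MODEL: `Gau.gpi` (`Pool/Agent/TWG/GAU.lean`), which is the case `e = 1` (the facts `ζ = stdAddChar 1`, `v(ζ - 1)^(p-1) ≤ v p` are proved inside it: copy). PROOF. `v = V.valuation`; `v p < 1`, `v n = 1` for `p ∤ n` (`Pool.Agent.TWG.g_VAL` with `Syma.toH`, `Syma.vint` in `TWG/SYMA.lean`). (1) `wD ^ e ≠ 1`: otherwise `w(c)^e = 1` for all integers `c` prime to `p`; `v(w c - c) ≤ v p < 1` (`TeiP.int`), so `v(c^e - 1) < 1`,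
`p ∣ c^e - 1` for all `c` prime to `p`: impossible for `1 ≤ e < p - 1` (a primitive root modulo `p`: `IsCyclic (ZMod p)ˣ`; or the polynomial `X^e - 1` has at most `e` roots in `ZMod p`). (2) `ζ` = the value of `stdAddChar` at `1`, `π = ζ - 1`, `ζ^p = 1`. `p = ∏_(k=1)^(p-1) (1 - ζ^k)`, each factor has valuation `v π` (both `≤`: powers of each other), so `v p = v(π)^(p-1)`, `v π ≤ 1`.
(3) `g = Σ_(a=1)^(p-1) w(a)^(-e) (1 + π)^a = Σ_(k<p) π^k T_k`, `T_k = Σ_(a=1)^(p-1) w(a)^(-e) C(a, k)` (`add_pow`). `v(T_k) ≤ 1`. For `k < e`: `k! T_k = Σ_a w(a)^(-e) F(a)`, `F = descPochhammer ℤ k` of degree `k < e` (`Nat.descFactorial`, `Nat.factorial_mul_choose`-type facts; `v(k!) = 1`), and for `j < e`: `v(Σ_a w(a)^(-e) a^j) ≤ v p`, since `v(a^j - w(a)^j) ≤ v p` and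
`Σ_a w(a)^(j-e) = 0` (the character `wD^(e-j)`, `1 ≤ e - j < p - 1`, is not trivial by (1): `MulChar.sum_eq_zero_of_ne_one`). So `v(T_k) ≤ v p = v(π)^(p-1) ≤ v(π)^e` for `k < e`, and `v(π^k) ≤ v(π)^e` for `k ≥ e`: `v g ≤ v(π)^e`, `v(g)^(p-1) ≤ v(p)^e`. -/
def S_STKQ : Prop :=
  ∀ (p : ℕ) [NeZero p] (A B : ℤ) (P : Ideal (OO A B)) (V : ValuationSubring ℂ) (f : ℕ),
    SetG p A B P V f → ∀ w : OO A B → ℂ, TeiP p P V w → ∀ wD : DirichletCharacter ℂ p,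
    (∀ c : ℤ, wD (c : ZMod p) = (w (c : OO A B))⁻¹) → ∀ e : ℕ, 1 ≤ e → e < p - 1 →
    wD ^ e ≠ 1 ∧
      V.valuation (gaussSum (wD ^ e) ZMod.stdAddChar) ^ (p - 1) ≤ V.valuation (p : ℂ) ^ e

open Pool.Agent.TWR Pool.Agent.MUXH in
/-- (TBQ) `S_TWB4` (`Pool/Agent/TWB/All4.lean`) for both parities (helper19). -/
def S_TBQ : Prop := ∀ (l g h' : ℕ) (_ : Gen l g h') (V : ValuationSubring ℂ) (p : ℕ)
  (_ : 5 ≤ p) (N₀ s₀ h : ℕ) (a : ℂ) (nu : ℤ → ℂ) (P : ℕ → OnePoint ℚ → OnePoint ℚ → ℂ) (s : ℤ)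
  (_ : HypA p V N₀ s₀ h a nu P s)
  (_ : ∀ x : ℚ, ∑ k ∈ Finset.range l, P 0 ∞ ((x + (k : ℚ) / l : ℚ) : OnePoint ℚ) = 0)
  (w : DirichletCharacter ℂ p) (_ : w ≠ 1) (_ : w (-1) = s),
  ∃ n0 : ℕ, ∀ n, n0 ≤ n →
    ∀ ψ : DirichletCharacter ℂ (l ^ n), ψ (-1) = 1 →
    ψ (1 + (l : ZMod (l ^ n)) ^ (n - 1)) ≠ 1 →
    1 ≤ V.valuation (∑ b ∈ Finset.range (l ^ n), ∑ c ∈ Finset.range p, ψ b * w (c : ZMod p) *
      P 0 ∞ (((b : ℚ) / (l : ℚ) ^ n + (c : ℚ) / p : ℚ) : OnePoint ℚ))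

open Pool.Agent.TWR in
/-- (SYSA) case (B). USES TBQ, STKQ (helper19). -/
def S_SYSA : Prop :=
  ∀ (l g h : ℕ), Gen l g h → ∀ (p : ℕ) (A B : ℤ) (P : Ideal (OO A B)) (V : ValuationSubring ℂ)
    (f : ℕ), SetG p A B P V f → l ∣ f → TorX A B → ∀ (ι : Type) [Fintype ι]
    (R : Reps A B (p * f) ι), GRd V R → ∀ (w : OO A B → ℂ), TeiP p P V w →
    ∀ (kp : ι → ℂ) (eta : OO A B → ℂ) (e b : ℕ), ChQ p p f P (cjI P) R kp eta e b →
    e < p - 1 → ∃ n0 : ℕ, ∀ n : ℕ, n0 ≤ n →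
      ∀ ψ : DirichletCharacter ℂ (l ^ n), ψ (-1) = 1 →
      ψ (1 + (l : ZMod (l ^ n)) ^ (n - 1)) ≠ 1 →
      V.valuation (p : ℂ) ^ (p - 1 - e) ≤
        V.valuation (SSTI R (f * l ^ n * p) (thQ R kp eta ψ w e b) w) ^ (p - 1)

/-! ## 3. Case (C): `SAll` is small -/

/-- (NEAQ) the logarithmic derivative of `Θ_a` modulo the maximal ideal depends only on the reduction of the point.

USES (theorems) `t_THT` (`Pool/Agent/TWT/THT.lean`: `S_THT` of `StT1.lean`), `near_lt` (`Pool/Agent/MUX/VX.lean`, namespace `Pool.Agent.MUXV`), `Pool.Agent.MUXV.inK_nat`, half systems: `Pool.Agent.TWT.XPC.exists_half` (`Pool/Agent/TWT/XPC.lean`). PROOF. `H` a half system for `a` on `L`. `GRn V L` gives `W`, `ξ`, `GR V W L (xn L) (yy L) ξ`; `InEn V L z` is `InK V L (xn L) z` (definition). `z + r`, `a (z + r)` are not in the kernel of reduction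
(`K₁` is a subgroup: `r ∈ K₁`, `a r ∈ K₁`). (THT) with `a2 = a4 = 0`: `θ`, `θ' = dW 0 0 θ`: `Θ(z) = aeval θ`, `Θ(z) dlX(z) = aeval θ'` at `(x, y)(z)`, the same at `z + r`; `v Θ = 1`, `v dlX ≤ 1`. `(x, y)(z + r) ≡ (x, y)(z)` modulo the maximal ideal `𝔪` (`near_lt`) and both are in `V` (`not in K₁`), so polynomials over `V` have congruent values (`MvPolynomial.induction_on`, or map to the residue field):
`Θ(z + r) ≡ Θ(z)`, `Θ(z + r) dlX(z + r) ≡ Θ(z) dlX(z)`, so `Θ(z) (dlX(z + r) - dlX(z)) ≡ 0`. -/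
def S_NEAQ : Prop :=
  ∀ (V : ValuationSubring ℂ) (L : PeriodPair), GRn V L → ∀ a : ℕ, 1 < a → a.Coprime 2 →
    V.valuation (a : ℂ) = 1 → ∀ z r : ℂ, ¬ InEn V L z → ¬ InEn V L (a * z) → InEn V L r →
    V.valuation (dlX L a z) ≤ 1 ∧ V.valuation (dlX L a (z + r) - dlX L a z) < 1

/-- (DLCQ) the sum of the logarithmic derivatives over all `x` modulo `m p`, against a function of period `idl m * P'`, is small.

USES NEAQ, IDQ, VPQ (`StQ1.lean`). PROOF. `M = m p`. (1) `F i x = E i x dlX (L_i) a (pt R M i x)` has period `M` (`Pool.Agent.MUXI.ti_PTP` (`Pool/Agent/MUX/I_PTP.lean`: `Si_PTP`), `idl M = idl m * P * P' ≤ idl m * P'`). (2) `x` prime to `m`: `z = pt R M i x`, `a z` are not in the kernel of reduction `K₁`: copy `XPC.not_inEn` (`Pool/Agent/TWT/XPC.lean`; it uses the clause `(m : ℂ) * z ∈ L → InEn V L z → z ∈ L` of VPQ, `p (k z) ∈ K₁` is killed by `m`),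
`k = 1, a` (`m ∤ 1`, `m ∤ a`: `m ≥ 3`: `f ∣ m`, `2 |D| ∣ f`, `XPC.three_le`). (3) `T0 = insert 0 T`, `T` from IDQ (`RepI P T`, card `q - 1`): `q` elements, exactly one in each class modulo `P`. `pt R M i (x + m c y0) = z + pt R p i (c y0)` (`XPC.pt_add'`, `emb_mul`), and `E i (x + m c y0) = E i x` (`m c y0 ∈ idl m * P'`). `pt R p i (c y0) ∈ K₁` for `c ∈ T0` (hypothesis; `pt R p i 0 = 0`). By (NEAQ):
`v(Σ_(c ∈ T0) F i (x + m c y0)) = v(E i x Σ_c dlX(z + pt R p i (c y0))) < 1`: the sum is `q dlX(z)` plus small terms, `v q < 1` (`q = p` or `p²`); if `E i x = 0` it is `0`. `v(a) = 1` (VPQ). (4) For every `u` exactly one `c ∈ T0` has `u - m c y0 ∈ P` (`O/P` is a field, `m y0 ∉ P`). Let `χ x = 1` if `x ∈ P`, otherwise `0` (classical). `sumMod M (F i) = sumMod M (u ↦ Σ_(c ∈ T0) χ(u - m c y0) F i u)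
= Σ_c sumMod M (x ↦ χ(x) F i (x + m c y0)) = sumMod M (x ↦ χ(x) Σ_c F i (x + m c y0))` (`sumMod` is invariant under the translation `x = u - m c y0` for functions of period `M` — `finsum_comp_equiv` with `Equiv.addRight` as in `SDE.sumMod_mul` of `TWT/SDE.lean`; `χ` has period `M` because `M ∈ P`; finiteness `SDE.finR`). (5) `sumMod M G` with `v(G x) < 1` for all `x` has `v < 1` (finite sum: `finsum_eq_sum_of_fintype`,
`V.valuation.map_sum_lt`), `v(mu_i) = 1` (VPQ). -/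
def S_DLCQ : Prop :=
  ∀ (p q : ℕ) (A B : ℤ) (P P' : Ideal (OO A B)) (V : ValuationSubring ℂ) (f : ℕ),
    SetQ p q A B P P' V f → ∀ (ι : Type) [Fintype ι] (R : Reps A B (p * f) ι), GRd V R →
    ∀ m : ℕ, LvM p f m R → ∀ y0 : OO A B, y0 ∈ P' → y0 ∉ P →
    (∀ (i : ι) (x : OO A B), x ∉ P → InEn V (R.L i) (pt R p i (x * y0))) →
    ∀ (E : ι → OO A B → ℂ),
    (∀ i x y, x - y ∈ (idl m : Ideal (OO A B)) * P' → E i x = E i y) →
    (∀ i x, E i x ≠ 0 → IsCoprime x ((m : ℕ) : OO A B)) →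
    (∀ i x, V.valuation (E i x) ≤ 1) →
    ∀ a : ℕ, 1 < a → a.Coprime (2 * m * p) → V.valuation (DAll R (m * p) a E) < 1

open Pool.Agent.TWR in
/-- (SALQ) the sum over all `x` is small.

USES DLCQ, IDQ, VPQ, TEQ, LOQI, LOQS (`StQ1.lean`). PROOF. `m = f l^n`, `M = m p`, `E = thP R kp eta ψ w b`. `y0 ∈ P'`, `y0 ∉ P`: IDQ (`LvQ`, for `m = 3`.. or any). `t0` from LOQI (inert) or LOQS (split; `3 ∣ f` is in `SetQ`): `LocQ p q P V R y0 w t0` gives `InK V (R.L i) (xn (R.L i)) (pt R p i (x * y0))` for `x ∉ P` (`InEn` by definition). `LvM p f m R`: `R.cop`, `l ∣ f`. Hypotheses of (DLCQ): period: `eta` modulo `f`,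
`ψ(nm x ..)` modulo `l^n` (`SDE.nm_per`), `w ∘ star` modulo `cjI P` in the split case (`w.per`, `star (x - y) ∈ P`), `b = 0` in the inert case (`ChQ.bb`; the other combination: if `P' = ⊤` then `b = 0` anyway; `cjI P ≠ ⊤` in the split case as `P ≠ ⊤`). `E i x ≠ 0`: `eta x ≠ 0`, `x` prime to `f`, so to `m` (`l ∣ f`). `v ≤ 1`: `0` or roots of unity (`ChQ.fin`; `ψ`: `Pool.Agent.TWB.TWBAux.chi_val`; TEQ).
`a = 6 f p + 1` is prime to `6 f p`, so to `2 m p` (`l ∣ f`). (2) `DAll = (a c⁻¹ - a²) SAll`, `c = E i0 a`, exactly as in `t_SDE` (`Pool/Agent/TWT/SDE.lean`: `sumMod_mul`, `sumMod_sub`, `sumMod_cmul`, `nm_nat_mul`; `E i (a x) = c E i x`). `c = ψ(a²)`: `eta a = 1` (`a ≡ 1` modulo `f`), `w (star a) = w 1 = 1` (`a ≡ 1` modulo `p`), `kp i0 = 1`, `nI ⊤ = 1`. (3) `l² ∣ a² - 1` (`l ∣ 6`, `l ∣ f`), `a² ≠ 1`: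
`Pool.Agent.TWX.psi_ne_one` (`Pool/Agent/TWX/FAC.lean`) for the integer `a²`: `ψ(a²) ≠ 1` for `n ≥ n0`. `c` is a root of unity of order prime to `p` (`ψ(u)^(φ(l^n)) = 1`, `p ∤ l`, `p ∤ l - 1` as `l = 2, 3`, `p ≥ 5`): `Pool.Agent.TWX.eq_one_of_congr`: `v(c - 1) = 1`. `v(a c⁻¹ - a²) = v(1 - a c) = v((1 - c) + (1 - a) c) = 1` (`v a = v c = 1`, `v(1 - a) ≤ v p < 1`). So `v(SAll) = v(DAll) < 1`. -/
def S_SALQ : Prop :=
  ∀ (l g h : ℕ), Gen l g h → ∀ (p q : ℕ) (A B : ℤ) (P P' : Ideal (OO A B))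
    (V : ValuationSubring ℂ) (f : ℕ), SetQ p q A B P P' V f → l ∣ f →
    ∀ (ι : Type) [Fintype ι] (R : Reps A B (p * f) ι), GRd V R → ∀ (w : OO A B → ℂ),
    TeQ p q P V w → ∀ (kp : ι → ℂ) (eta : OO A B → ℂ) (e b : ℕ),
    ChQ p q f P P' R kp eta e b → ∃ n0 : ℕ, ∀ n : ℕ, n0 ≤ n →
      ∀ ψ : DirichletCharacter ℂ (l ^ n), ψ (1 + (l : ZMod (l ^ n)) ^ (n - 1)) ≠ 1 →
      V.valuation (SAll R (f * l ^ n * p) (thP R kp eta ψ w b)) < 1

/-! ## 4. Case (C): `SPt` is large (helper19) -/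

open Pool.Agent.TWR in
/-- (SPI) inert: `SPt` is a unit times the sum of level `f l^n` (helper19). -/
def S_SPI : Prop :=
  ∀ (l g h : ℕ), Gen l g h → ∀ (p : ℕ) (A B : ℤ) (P : Ideal (OO A B)) (V : ValuationSubring ℂ)
    (f : ℕ), SetI p A B P V f → l ∣ f → ∀ (ι : Type) [Fintype ι]
    (R : Reps A B (p * f) ι), GRd V R → ∀ (w : OO A B → ℂ), TeiI p P V w →
    ∀ (kp : ι → ℂ) (eta : OO A B → ℂ), ChQ p (p ^ 2) f P ⊤ R kp eta (p ^ 2 - 1) 0 →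
    ∃ n0 : ℕ, ∀ n : ℕ, n0 ≤ n → ∀ ψ : DirichletCharacter ℂ (l ^ n), ψ (-1) = 1 →
      ψ (1 + (l : ZMod (l ^ n)) ^ (n - 1)) ≠ 1 →
      1 ≤ V.valuation (SPt R (f * l ^ n * p) (p ^ 2 - 1) (thP R kp eta ψ w 0) w)

open Pool.Agent.TWR in
/-- (SPS) split: `SPt` is a unit times a sum of values of `U_p Φ` (helper19). -/
def S_SPS : Prop :=
  ∀ (l g h : ℕ), Gen l g h → ∀ (p : ℕ) (A B : ℤ) (P : Ideal (OO A B)) (V : ValuationSubring ℂ)
    (f : ℕ), SetG p A B P V f → l ∣ f → ∀ (ι : Type) [Fintype ι]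
    (R : Reps A B (p * f) ι), GRd V R → ∀ (w : OO A B → ℂ), TeiP p P V w →
    ∀ (kp : ι → ℂ) (eta : OO A B → ℂ) (b : ℕ), ChQ p p f P (cjI P) R kp eta (p - 1) b →
    ∃ n0 : ℕ, ∀ n : ℕ, n0 ≤ n → ∀ ψ : DirichletCharacter ℂ (l ^ n), ψ (-1) = 1 →
      ψ (1 + (l : ZMod (l ^ n)) ^ (n - 1)) ≠ 1 →
      1 ≤ V.valuation (SPt R (f * l ^ n * p) (p - 1) (thP R kp eta ψ w b) w)

end

end Pool.Agent.TWQ
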